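import Pool.Agent.Lib.MP_2184e2_an.Loc.Ibr

/-!
# MP_2184e2_an, local theorem: module ANN (the key positivity argument)
-/

set_option autoImplicit false

namespace Pool.Agent.Lib.MP_2184e2_an.Loc.AnnM

open MvPowerSeries Filter Topology CalM SegM

noncomputable section

variable {m d N : ℕ}

theorem inV_sum {Q : Fin d → PS (Mi m d)} (hQ : ∀ l, Z0 (Q l)) {ρ : PS (Fin N ⊕ Fin N)}
    {H : Fin N → PS (Zi m d)} {α : Type} (s : Finset α) (c : α → PS (Zi m d))
    (V : α → Fin N → PS (Zi m d)) (h : ∀ a ∈ s, InV Q ρ H (V a)) :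
    InV Q ρ H (fun k => ∑ a ∈ s, c a * V a k) := by
  have hZ := z0_Zc hQ
  unfold InV at *
  simp only [s_sum hZ, subst_mul (hs hZ), Finset.sum_mul]
  rw [Finset.sum_comm]
  apply Finset.sum_eq_zero
  intro a ha
  have h1 := h a ha
  calc ∑ k, (c a).subst (Zc Q) * (V a k).subst (Zc Q) * G1 Q ρ H k
      = (c a).subst (Zc Q) * ∑ k, (V a k).subst (Zc Q) * G1 Q ρ H k := by
        rw [Finset.mul_sum]
        apply Finset.sum_congr rfl
        intro k _
        ring
    _ = 0 := by rw [h1, mul_zero]

theorem inV_sub {Q : Fin d → PS (Mi m d)} (hQ : ∀ l, Z0 (Q l)) {ρ : PS (Fin N ⊕ Fin N)}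
    {H : Fin N → PS (Zi m d)} (V W : Fin N → PS (Zi m d)) (hV : InV Q ρ H V)
    (hW : InV Q ρ H W) : InV Q ρ H (fun k => V k - W k) := by
  have hZ := z0_Zc hQ
  unfold InV at *
  simp only [subst_sub (hs hZ), sub_mul]
  rw [Finset.sum_sub_distrib, hV, hW, sub_zero]

theorem inV_mul {Q : Fin d → PS (Mi m d)} (hQ : ∀ l, Z0 (Q l)) {ρ : PS (Fin N ⊕ Fin N)}
    {H : Fin N → PS (Zi m d)} (c : PS (Zi m d)) (V : Fin N → PS (Zi m d))
    (hV : InV Q ρ H V) : InV Q ρ H (fun k => c * V k) := by
  have hZ := z0_Zc hQ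
  unfold InV at *
  simp only [subst_mul (hs hZ), mul_assoc]
  rw [← Finset.mul_sum, hV, mul_zero]

/-- renaming is injective -/
theorem ζc_inj (f : PS (Zi m d)) (h : f.subst (ζc (m := m) (d := d)) = 0) : f = 0 := by
  ext n
  have h1 := iR_coeff (ι := Fin m) f n
  change coeff _ (f.subst (ζc (m := m) (d := d))) = _ at h1
  rw [← h1, h]
  simp

end

end Pool.Agent.Lib.MP_2184e2_an.Loc.AnnM

namespace Pool.Agent.Lib.MP_2184e2_an.Loc

open MvPowerSeries CalM SegM IbrM AnnM in
/-- ANN: the key positivity argument. -/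
theorem specANN (hPOS : SpecPOS) : SpecANN := by
  classical
  intro m d N Q ρ H hQ hρ hH F V hmin W hW hrel
  have hZ := z0_Zc hQ.zero
  set q : PS (Zi m d) := ∏ j ∈ F, V j j with hq
  have hq0 : q ≠ 0 := by
    rw [hq, Finset.prod_ne_zero_iff]
    exact hmin.ne
  set p : Fin N → PS (Zi m d) := fun j => W j * ∏ i ∈ F.erase j, V i i with hp
  -- the linear combination vanishes
  have hU : ∀ i, q * W i = ∑ j ∈ F, p j * V j i := by
    have h1 : (fun k => q * W k - ∑ j ∈ F, p j * V j k) = 0 := by
      apply hmin.det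
      · exact inV_sub hQ.zero _ _ (inV_mul hQ.zero q W hW) (inV_sum hQ.zero F p V hmin.inV)
      · intro l hl
        have h2 : ∑ j ∈ F, p j * V j l = p l * V l l := by
          apply Finset.sum_eq_single_of_mem l hl
          intro j hj hjl
          rw [hmin.off j hj l hl (Ne.symm hjl), mul_zero]
        rw [h2, hp, hq, ← Finset.mul_prod_erase F (fun j => V j j) hl]
        ring
    intro i
    have h2 := congrFun h1 i
    simp only [Pi.zero_apply] at h2
    exact sub_eq_zero.1 h2
  -- conjugated, at `ζ`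
  have hU' : ∀ i, (cj q).subst ζc * (cj (W i)).subst ζc =
      ∑ j ∈ F, (cj (p j)).subst ζc * (cj (V j i)).subst (ζc (m := m) (d := d)) := by
    intro i
    have h1 := congrArg (fun f => (cj f).subst (ζc (m := m) (d := d))) (hU i)
    simp only [cj_mul, cj_sum] at h1
    rw [subst_mul (hs z0_ζc), s_sum z0_ζc] at h1
    rw [h1]
    apply Finset.sum_congr rfl
    intro j _
    rw [subst_mul (hs z0_ζc)]
  have hqζ : (cj q).subst (ζc (m := m) (d := d)) ≠ 0 := by
    intro h
    exact hq0 (cj_eq_zero.1 (ζc_inj _ h))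
  apply hPOS m d N Q ρ H hQ hρ hH W
  have h3 : (cj q).subst (ζc (m := m) (d := d)) *
      ∑ k, ∑ l, (W k).subst (Zc Q) * (cj (W l)).subst ζc * G2 Q ρ H k l = 0 := by
    calc (cj q).subst (ζc (m := m) (d := d)) *
          ∑ k, ∑ l, (W k).subst (Zc Q) * (cj (W l)).subst ζc * G2 Q ρ H k l
        = ∑ k, ∑ l, (W k).subst (Zc Q) *
            ((cj q).subst (ζc (m := m) (d := d)) * (cj (W l)).subst ζc) * G2 Q ρ H k l := by
          rw [Finset.mul_sum]
          apply Finset.sum_congr rfl
          intro k _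
          rw [Finset.mul_sum]
          apply Finset.sum_congr rfl
          intro l _
          ring
      _ = ∑ k, ∑ l, ∑ j ∈ F, (cj (p j)).subst ζc * ((W k).subst (Zc Q) *
            ((cj (V j l)).subst ζc * G2 Q ρ H k l)) := by
          apply Finset.sum_congr rfl
          intro k _
          apply Finset.sum_congr rfl
          intro l _
          rw [hU' l, Finset.mul_sum, Finset.sum_mul]
          apply Finset.sum_congr rfl
          intro j _
          ring
      _ = ∑ j ∈ F, (cj (p j)).subst ζc * ∑ k, (W k).subst (Zc Q) *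
            ∑ l, (cj (V j l)).subst ζc * G2 Q ρ H k l := by
          have h4 : ∀ k, ∑ l, ∑ j ∈ F, (cj (p j)).subst ζc * ((W k).subst (Zc Q) *
              ((cj (V j l)).subst ζc * G2 Q ρ H k l)) =
              ∑ j ∈ F, ∑ l, (cj (p j)).subst ζc * ((W k).subst (Zc Q) *
              ((cj (V j l)).subst ζc * G2 Q ρ H k l)) := fun k => Finset.sum_comm
          simp only [h4]
          rw [Finset.sum_comm]
          apply Finset.sum_congr rfl
          intro j _
          rw [Finset.mul_sum]
          apply Finset.sum_congr rfl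
          intro k _
          rw [Finset.mul_sum, Finset.mul_sum]
      _ = 0 := by
          apply Finset.sum_eq_zero
          intro j hj
          rw [hrel j hj, mul_zero]
  exact (mul_eq_zero.1 h3).resolve_left hqζ

end Pool.Agent.Lib.MP_2184e2_an.Loc
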