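import Pool.Agent.Lib.MP_2184e2_an.Loc.SpecA

/-!
# BSH: solution of the Bishop equation
-/

set_option autoImplicit false

namespace Pool.Agent.Lib.MP_2184e2_an.Loc

open MvPowerSeries Filter Topology Set
open scoped ContDiff LaurentPolynomial ComplexConjugate

noncomputable section

namespace BSHM

/-- a semilinear ring homomorphism applied to a substitution -/
theorem map_subst_semi {S S' : Type} [CommRing S] [Algebra ℂ S] [CommRing S'] [Algebra ℂ S']
    {σ τ : Type} {a : σ → MvPowerSeries τ S} (ha : HasSubst a) (g : ℂ →+* ℂ) (h : S →+* S')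
    (hg : ∀ c : ℂ, h (algebraMap ℂ S c) = algebraMap ℂ S' (g c)) (f : MvPowerSeries σ ℂ) :
    MvPowerSeries.map h (f.subst a) =
      (MvPowerSeries.map g f).subst (fun i => MvPowerSeries.map h (a i)) := by
  have ha' : HasSubst (fun i => MvPowerSeries.map h (a i)) := by
    refine ⟨fun s => ?_, fun d => ?_⟩
    · have := (ha.const_coeff s).map h
      simpa using this
    · refine (ha.coeff_zero d).subset ?_
      intro s hs
      simp only [Set.mem_ofPred_eq, coeff_map] at hs ⊢
      intro h0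
      apply hs
      rw [h0, map_zero]
  ext n
  have e0 : ∀ r : S, h r = h.toAddMonoidHom r := fun r => rfl
  rw [coeff_subst ha', coeff_map, coeff_subst ha, e0, AddMonoidHom.map_finsum _
    (coeff_subst_finite ha _ _)]
  apply finsum_congr
  intro d
  rw [← e0, Algebra.smul_def, map_mul, hg, ← coeff_map h, coeff_map g, Algebra.smul_def]
  congr 2
  unfold Finsupp.prod
  rw [map_prod]
  apply Finset.prod_congr rfl
  intro i _
  rw [map_pow]

theorem st_C {st : ℂ[T;T⁻¹] →+* ℂ[T;T⁻¹]} (hst : IsSt st) (c : ℂ) :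
    st (LaurentPolynomial.C c) = LaurentPolynomial.C (conj c) := by
  have := hst c 0
  rwa [LaurentPolynomial.T_zero, mul_one, neg_zero, LaurentPolynomial.T_zero, mul_one] at this

theorem st_alg {st : ℂ[T;T⁻¹] →+* ℂ[T;T⁻¹]} (hst : IsSt st) (c : ℂ) :
    st (algebraMap ℂ ℂ[T;T⁻¹] c) = algebraMap ℂ ℂ[T;T⁻¹] (conj c) := by
  rw [← LaurentPolynomial.C_eq_algebraMap, ← LaurentPolynomial.C_eq_algebraMap, st_C hst]

theorem map_map_st {st : ℂ[T;T⁻¹] →+* ℂ[T;T⁻¹]} (hss : ∀ p, st (st p) = p) {κ : Type}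
    (f : MvPowerSeries κ ℂ[T;T⁻¹]) : MvPowerSeries.map st (MvPowerSeries.map st f) = f := by
  ext n
  rw [coeff_map, coeff_map, hss]

/-- the conjugate of `argB` -/
theorem map_argB {m d : ℕ} {κ : Type} {st : ℂ[T;T⁻¹] →+* ℂ[T;T⁻¹]} (hst : IsSt st)
    (hss : ∀ p, st (st p) = p) (z : Fin m → MvPowerSeries κ ℂ[T;T⁻¹])
    (s : Fin d → MvPowerSeries κ ℂ[T;T⁻¹]) (i : Ki m d) :
    MvPowerSeries.map st (argB st z s i) = argB st z (fun l => MvPowerSeries.map st (s l)) i := by
  rcases i with (j | j) | l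
  · show MvPowerSeries.map st (C (LaurentPolynomial.C (1 / 2)) * (z j + MvPowerSeries.map st (z j)))
      = C (LaurentPolynomial.C (1 / 2)) * (z j + MvPowerSeries.map st (z j))
    rw [map_mul, map_C, st_C hst, map_add, map_map_st hss, add_comm]
    congr 3
    simp [map_ofNat (starRingEnd ℂ) 2]
  · show MvPowerSeries.map st (C (LaurentPolynomial.C (-Complex.I / 2)) *
        (z j - MvPowerSeries.map st (z j)))
      = C (LaurentPolynomial.C (-Complex.I / 2)) * (z j - MvPowerSeries.map st (z j))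
    rw [map_mul, map_C, st_C hst, map_sub, map_map_st hss]
    have : conj (-Complex.I / 2) = -(-Complex.I / 2) := by
      rw [map_div₀, map_neg, Complex.conj_I, map_ofNat (starRingEnd ℂ) 2]
      ring
    rw [this, map_neg, map_neg]
    ring
  · rfl

theorem z0_argB {m d : ℕ} {κ : Type} {st : ℂ[T;T⁻¹] →+* ℂ[T;T⁻¹]}
    {z : Fin m → MvPowerSeries κ ℂ[T;T⁻¹]} {s : Fin d → MvPowerSeries κ ℂ[T;T⁻¹]}
    (hz : ∀ j, Z0 (z j)) (hs : ∀ l, Z0 (s l)) (i : Ki m d) : Z0 (argB st z s i) := by
  have h1 : ∀ j, constantCoeff (MvPowerSeries.map st (z j)) = 0 := by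
    intro j
    have := hz j
    unfold Z0 at this
    rw [constantCoeff_map, this, map_zero]
  rcases i with (j | j) | l
  · show constantCoeff (C (LaurentPolynomial.C (1 / 2)) * (z j + MvPowerSeries.map st (z j))) = 0
    rw [map_mul, map_add, h1 j, show constantCoeff (z j) = 0 from hz j]
    simp
  · show constantCoeff (C (LaurentPolynomial.C (-Complex.I / 2)) *
      (z j - MvPowerSeries.map st (z j))) = 0
    rw [map_mul, map_sub, h1 j, show constantCoeff (z j) = 0 from hz j]
    simp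
  · exact hs l

theorem map_mapA {κ : Type} {st : ℂ[T;T⁻¹] →+* ℂ[T;T⁻¹]} {T1 : ℂ[T;T⁻¹] →+ ℂ[T;T⁻¹]}
    (h : ∀ p, st (T1 p) = T1 (st p)) (f : MvPowerSeries κ ℂ[T;T⁻¹]) :
    MvPowerSeries.map st (mapA T1 f) = mapA T1 (MvPowerSeries.map st f) := by
  refine MvPowerSeries.ext fun n => ?_
  rw [coeff_map]
  show st (T1 (coeff n f)) = T1 (coeff n (MvPowerSeries.map st f))
  rw [coeff_map, h]

theorem mapA_neg {S κ : Type} [CommRing S] (T : S →+ S) (f : MvPowerSeries κ S) :
    mapA T (-f) = -mapA T f := by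
  refine MvPowerSeries.ext fun n => ?_
  rw [map_neg]
  show T (coeff n (-f)) = -T (coeff n f)
  rw [map_neg, map_neg]

theorem coeff_mapA {S κ : Type} [CommRing S] (T : S →+ S) (f : MvPowerSeries κ S) (n : κ →₀ ℕ) :
    coeff n (mapA T f) = T (coeff n f) := rfl

theorem subst_neg {S : Type} [CommRing S] [Algebra ℂ S] {σ τ : Type} {a : σ → MvPowerSeries τ S}
    (ha : HasSubst a) (f : MvPowerSeries σ ℂ) : (-f).subst a = -(f.subst a) := by
  simp only [← substAlgHom_apply ha, map_neg]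

end BSHM

open BSHM in
/-- BSH -/
theorem specBSH (hF : SpecFIX) (hL : SpecLNM) (hC : SpecCNV) : SpecBSH := by
  intro m d φ hφ st hst T1 hT1 κ _ _ z hz
  obtain ⟨hnm, -, -, hSt, hTT, -, -, -⟩ := hL
  obtain ⟨s1, s2, -⟩ := hSt st hst
  obtain ⟨t1, -, t3, t4⟩ := hTT T1 hT1
  obtain ⟨c1, c2, -⟩ := hC.1 ℂ[T;T⁻¹] nL hnm κ
  set a : Fin m ⊕ Fin m → MvPowerSeries κ ℂ[T;T⁻¹] := Sum.elim
    (fun j => C (LaurentPolynomial.C (1 / 2)) * (z j + MvPowerSeries.map st (z j)))
    (fun j => C (LaurentPolynomial.C (-Complex.I / 2)) * (z j - MvPowerSeries.map st (z j)))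
    with ha
  have hargB : ∀ s : Fin d → MvPowerSeries κ ℂ[T;T⁻¹], argB st z s = Sum.elim a s := fun s => rfl
  have ha0 : ∀ k, Z0 (a k) := by
    intro k
    exact z0_argB (st := st) (d := 0) (s := fun _ => 0) (fun j => (hz j).2) (fun l => l.elim0)
      (Sum.inl k)
  have hconvst : ∀ j, ConvN nL (MvPowerSeries.map st (z j)) := by
    intro j
    obtain ⟨C', hC', h⟩ := (hz j).1
    refine ⟨C', hC', fun n => ?_⟩
    rw [coeff_map, s1]
    exact h n
  have haC : ∀ k, ConvN nL (a k) := by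
    rintro (j | j)
    · exact (c1 _ _ (c2 _) (c1 _ _ (hz j).1 (hconvst j)).1).2.1
    · exact (c1 _ _ (c2 _) (c1 _ _ (hz j).1 (hconvst j)).2.2.2).2.1
  have hFz : ∀ l : Fin d, Z0 (-φ l) := by
    intro l
    have := hφ.zero l
    unfold Z0 at this ⊢
    rw [map_neg, this, neg_zero]
  have hFlin : ∀ (l j : Fin d), lin (-φ l) (Sum.inr j) = 0 := by
    intro l j
    have := hφ.lin l (Sum.inr j)
    unfold lin at this ⊢
    rw [map_neg, this, neg_zero]
  obtain ⟨⟨s, hs0, hseq, hsC⟩, huniq⟩ := hF ℂ[T;T⁻¹] nL hnm T1 2 t1 (Fin m ⊕ Fin m) κ d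
    (fun l => -φ l) hFz hFlin a ha0
  have hHS : ∀ s : Fin d → MvPowerSeries κ ℂ[T;T⁻¹], (∀ l, Z0 (s l)) → HasSubst (Sum.elim a s) := by
    intro s h
    apply hasSubst_of_constantCoeff_zero
    rintro (k | l)
    · exact ha0 k
    · exact h l
  have hneg : ∀ (s : Fin d → MvPowerSeries κ ℂ[T;T⁻¹]), (∀ l, Z0 (s l)) → ∀ l,
      mapA T1 ((-φ l).subst (Sum.elim a s)) = -mapA T1 ((φ l).subst (Sum.elim a s)) := by
    intro s h l
    rw [subst_neg (hHS s h), mapA_neg]
  have hnC : ∀ f : PS (Ki m d), Conv f → Conv (-f) := by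
    intro f hf
    obtain ⟨C', hC', h⟩ := hf
    refine ⟨C', hC', fun n => ?_⟩
    show ‖coeff n (-f)‖ ≤ _
    rw [map_neg, norm_neg]
    exact h n
  have hreal : ∀ l, MvPowerSeries.map st (s l) = s l := by
    have h1 := huniq (fun l => MvPowerSeries.map st (s l)) s (fun l => by
        have := hs0 l
        unfold Z0 at this ⊢
        rw [constantCoeff_map, this, map_zero]) hs0 (fun l => by
        conv_lhs => rw [hseq l]
        rw [map_mapA (t3 st hst)]
        rw [map_subst_semi (hHS s hs0) (starRingEnd ℂ) st (st_alg hst)]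
        have e1 : MvPowerSeries.map (starRingEnd ℂ) (-φ l) = -φ l := by
          have := hφ.real l
          unfold cj at this
          rw [map_neg, this]
        have e2 : (fun i => MvPowerSeries.map st ((Sum.elim a s : Ki m d → _) i)) =
            Sum.elim a (fun l => MvPowerSeries.map st (s l)) := by
          funext i
          have := map_argB hst s2 z s i
          rw [hargB, hargB] at this
          exact this
        rw [e1, e2]) hseq
    intro l
    exact congrFun h1 l
  refine ⟨s, ⟨hsC (fun l => hnC _ (hφ.conv l)) haC, hs0, ?_⟩, hreal, ?_⟩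
  · intro l
    rw [hargB, ← hneg s hs0]
    exact hseq l
  · intro l n k hk
    have e1 : coeff n (s l) = -T1 (coeff n ((φ l).subst (argB st z s))) := by
      have h2 := hseq l
      rw [hneg s hs0] at h2
      conv_lhs => rw [h2]
      rw [map_neg, coeff_mapA, hargB]
    rw [map_add, coeff_C_mul, e1]
    exact t4 _ k hk

end

end Pool.Agent.Lib.MP_2184e2_an.Loc
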