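import Pool.Agent.Lib.MP_2184e2_an.Loc.Btb

/-!
# MP_2184e2_an, local theorem: BT
-/

set_option autoImplicit false
set_option linter.unusedSectionVars false
set_option linter.deprecated false

namespace Pool.Agent.Lib.MP_2184e2_an.Loc.BtM

open Filter Topology Set MeasureTheory
open scoped ContDiff ComplexConjugate

noncomputable section

lemma kr_fderC {ι : Type} [Fintype ι] {E : Type} [NormedAddCommGroup E] [NormedSpace ℂ E] (τ : ℝ)
    (w : E → ι → ℂ) (w' : ι → E →L[ℂ] ℂ) (x : E) (h : ∀ i, HasFDerivAt (fun x => w x i) (w' i) x) :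
    HasFDerivAt (fun x => kr τ (w x))
      ((kr τ (w x) * -(τ : ℂ)) • ∑ i, (2 * w x i) • w' i) x := by
  have h1 : HasFDerivAt (fun x => ∑ i, w x i ^ 2) (∑ i, (2 * w x i) • w' i) x := by
    refine HasFDerivAt.fun_sum fun i _ => ?_
    have := (h i).pow 2
    simpa using this
  have h2 := (h1.const_mul (-(τ : ℂ))).cexp.const_mul
    ((((τ / Real.pi) ^ ((Fintype.card ι : ℝ) / 2) : ℝ) : ℂ))
  unfold kr
  refine h2.congr_fderiv ?_
  ext v
  simp only [ContinuousLinearMap.smul_apply, ContinuousLinearMap.sum_apply, smul_eq_mul]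
  ring

variable {m d : ℕ} {Z : (Ki m d → ℝ) → Zi m d → ℂ} {Φ : Fin d → (Ki m d → ℝ) → ℝ} {ρ : ℝ}

/-- the derivative of the integrand -/
def dIg (Z : (Ki m d → ℝ) → Zi m d → ℂ) (χ : (Zi m d → ℝ) → ℝ) (τ : ℝ) (g : (Ki m d → ℝ) → ℂ)
    (ζ : Zi m d → ℂ) (u' : Zi m d → ℝ) : (Zi m d → ℂ) →L[ℂ] ℂ :=
  ∑ i, (Ig Z χ τ (fun x => g x * (-(τ : ℂ) * (2 * (ζ i - Z x i)))) 0 ζ u') •
    (ContinuousLinearMap.proj i : (Zi m d → ℂ) →L[ℂ] ℂ)

lemma Ig_der (χ : (Zi m d → ℝ) → ℝ) (τ : ℝ) (g : (Ki m d → ℝ) → ℂ)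
    (ζ : Zi m d → ℂ) (u' : Zi m d → ℝ) :
    HasFDerivAt (fun ζ => Ig Z χ τ g 0 ζ u') (dIg Z χ τ g ζ u') ζ := by
  have h1 := kr_fderC τ (fun (ζ : Zi m d → ℂ) i => ζ i - Z (Sl u' 0) i)
    (fun i => (ContinuousLinearMap.proj i : (Zi m d → ℂ) →L[ℂ] ℂ)) ζ
    (fun i => (ContinuousLinearMap.proj (R := ℂ) (φ := fun _ : Zi m d => ℂ)
      i).hasFDerivAt.sub_const _)
  have h2 := ((h1.const_mul (g (Sl u' 0))).mul_const
    ((jW (fun _ v => Z (Sl v 0)) 0 u').det)).const_mul (χ u' : ℂ)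
  unfold Ig
  refine h2.congr_fderiv ?_
  ext v
  simp only [dIg, Ig, ContinuousLinearMap.smul_apply, ContinuousLinearMap.sum_apply, smul_eq_mul,
    Finset.mul_sum]
  refine Finset.sum_congr rfl fun i _ => ?_
  ring

lemma P_diff (h : Mod Z Φ ρ) {g : (Ki m d → ℝ) → ℂ} (hg : ∀ x, ‖x‖ < ρ → ContinuousAt g x)
    {R : ℝ} (hR : 0 < R) (hRρ : R ≤ ρ / 2) {χ : (Zi m d → ℝ) → ℝ} (hχ : IsCut R χ) (τ : ℝ) :
    Differentiable ℂ (fun ζ => ∫ u', Ig Z χ τ g 0 ζ u') := by
  intro ζ₀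
  have hρ := h.pos
  have hcomp := isCompact_closedBall (0 : Ki m d → ℝ) (ρ / 2)
  obtain ⟨Cg, hCg⟩ := hcomp.exists_bound_of_continuousOn (f := g) (by
      intro x hx
      rw [mem_closedBall_zero_iff] at hx
      exact (hg x (by linarith)).continuousWithinAt)
  obtain ⟨CZ, hCZ⟩ := hcomp.exists_bound_of_continuousOn (f := Z) (by
      intro x hx
      rw [mem_closedBall_zero_iff] at hx
      refine (continuousAt_pi.2 fun i => ?_).continuousWithinAt
      exact (h.smZ (x := x) (by linarith) i).continuousAt)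
  have hz0 : (0 : Ki m d → ℝ) ∈ Metric.closedBall (0 : Ki m d → ℝ) (ρ / 2) := by
    simp; positivity
  have hCg0 : 0 ≤ Cg := (norm_nonneg _).trans (hCg 0 hz0)
  have hCZ0 : 0 ≤ CZ := (norm_nonneg _).trans (hCZ 0 hz0)
  set M : ℝ := ‖ζ₀‖ + 1 + CZ with hM
  have hM0 : 0 ≤ M := by positivity
  obtain ⟨Ck, hCk⟩ := (isCompact_closedBall (0 : Zi m d → ℂ) M).exists_bound_of_continuousOn
    (kr_cont τ).continuousOn
  have hCk0 : 0 ≤ Ck := (norm_nonneg _).trans (hCk 0 (by simpa using hM0))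
  have hcn := cn_nonneg (ι := Zi m d)
  set C : ℝ := Fintype.card (Zi m d) * ((Cg * (|τ| * (2 * M))) * Ck * cn (Zi m d)) with hC
  have hC0 : 0 ≤ C := by positivity
  have hdiff := hasFDerivAt_integral_of_dominated_of_fderiv_le (μ := volume)
    (F := fun ζ u' => Ig Z χ τ g 0 ζ u') (F' := fun ζ u' => dIg Z χ τ g ζ u')
    (x₀ := ζ₀) (bound := (Metric.closedBall (0 : Zi m d → ℝ) R).indicator fun _ => C)
    (s := Metric.ball ζ₀ 1) (Metric.ball_mem_nhds _ one_pos) ?_ ?_ ?_ ?_ ?_ ?_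
  · exact hdiff.differentiableAt
  · refine Eventually.of_forall fun ζ => ?_
    exact (Ig_cont h hg hR (by linarith) hχ (y := 0) (by simpa using hρ) τ ζ).1.aestronglyMeasurable
  · have c := Ig_cont h hg hR (by linarith) hχ (y := 0) (by simpa using hρ) τ ζ₀
    exact c.1.integrable_of_hasCompactSupport c.2
  · have hcont : ∀ i, Continuous (fun u' => Ig Z χ τ (fun x => g x * (-(τ : ℂ) *
        (2 * (ζ₀ i - Z x i)))) 0 ζ₀ u') := by
      intro i
      refine (Ig_cont h (f := fun x => g x * (-(τ : ℂ) * (2 * (ζ₀ i - Z x i)))) ?_ hR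
        (by linarith) hχ (y := 0) (by simpa using hρ) τ ζ₀).1
      intro x hx
      exact (hg x hx).mul (continuousAt_const.mul (continuousAt_const.mul
        (continuousAt_const.sub (h.smZ hx i).continuousAt)))
    have hcd : Continuous (fun u' => dIg Z χ τ g ζ₀ u') := by
      unfold dIg
      exact continuous_finset_sum _ fun i _ => (hcont i).smul continuous_const
    exact hcd.aestronglyMeasurable
  · refine Eventually.of_forall fun u' ζ hζ => ?_
    by_cases hu' : u' ∈ Metric.closedBall (0 : Zi m d → ℝ) R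
    · rw [indicator_of_mem hu']
      rw [mem_closedBall_zero_iff] at hu'
      have hx' : ‖(Sl u' 0 : Ki m d → ℝ)‖ ≤ ρ / 2 :=
        (Sl_le hR.le hu' (by simpa using hR.le)).trans hRρ
      have hx : ‖(Sl u' 0 : Ki m d → ℝ)‖ < ρ := by linarith
      have hw : ‖fun i => ζ i - Z (Sl u' 0) i‖ ≤ M := by
        have h1 : ‖ζ - Z (Sl u' 0)‖ ≤ ‖ζ‖ + ‖Z (Sl u' 0)‖ := norm_sub_le _ _
        have h2 := hCZ (Sl u' 0) (by simpa using hx')
        have h3 : ‖ζ‖ ≤ ‖ζ₀‖ + 1 := by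
          have h4 : ‖ζ - ζ₀‖ < 1 := by rw [← dist_eq_norm]; exact hζ
          have := norm_sub_norm_le ζ ζ₀
          linarith
        have h5 : (fun i => ζ i - Z (Sl u' 0) i) = ζ - Z (Sl u' 0) := rfl
        rw [h5]
        linarith
      unfold dIg
      refine (norm_sum_le _ _).trans ?_
      refine (Finset.sum_le_card_nsmul Finset.univ _
        ((Cg * (|τ| * (2 * M))) * Ck * cn (Zi m d)) fun i _ => ?_).trans ?_
      · rw [norm_smul]
        have hp : ‖(ContinuousLinearMap.proj i : (Zi m d → ℂ) →L[ℂ] ℂ)‖ ≤ 1 := by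
          refine ContinuousLinearMap.opNorm_le_bound _ zero_le_one fun v => ?_
          rw [one_mul]
          exact norm_le_pi_norm v i
        have hI : ‖Ig Z χ τ (fun x => g x * (-(τ : ℂ) * (2 * (ζ i - Z x i)))) 0 ζ u'‖ ≤
            (Cg * (|τ| * (2 * M))) * Ck * cn (Zi m d) := by
          unfold Ig
          rw [norm_mul, norm_mul, norm_mul, norm_mul, norm_mul, norm_mul, norm_neg,
            Complex.norm_real, Complex.norm_real, Real.norm_eq_abs, Real.norm_eq_abs,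
            abs_of_nonneg (hχ.2.2.2 u').1]
          have b1 := (hχ.2.2.2 u').2
          have b2 := hCg (Sl u' 0) (by simpa using hx')
          have b3 : ‖ζ i - Z (Sl u' 0) i‖ ≤ M := (norm_le_pi_norm (fun i => ζ i - Z (Sl u' 0) i)
            i).trans hw
          have b4 := hCk _ (by simpa using hw)
          have b5 := det_le h hx
          have b6 : ‖(2 : ℂ)‖ = 2 := by simp
          rw [b6]
          have b7 : |τ| * (2 * ‖ζ i - Z (Sl u' 0) i‖) ≤ |τ| * (2 * M) := by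
            refine mul_le_mul_of_nonneg_left ?_ (abs_nonneg _)
            linarith
          calc χ u' * (‖g (Sl u' 0)‖ * (|τ| * (2 * ‖ζ i - Z (Sl u' 0) i‖)) *
                ‖kr τ fun i => ζ i - Z (Sl u' 0) i‖ * ‖(jW (fun _ v => Z (Sl v 0)) 0 u').det‖)
              ≤ 1 * ((Cg * (|τ| * (2 * M))) * Ck * cn (Zi m d)) := by
                refine mul_le_mul b1 ?_ (by positivity) zero_le_one
                refine mul_le_mul ?_ b5 (norm_nonneg _) (by positivity)
                refine mul_le_mul ?_ b4 (norm_nonneg _) (by positivity)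
                exact mul_le_mul b2 b7 (by positivity) hCg0
            _ = _ := one_mul _
        calc _ ≤ ((Cg * (|τ| * (2 * M))) * Ck * cn (Zi m d)) * 1 :=
              mul_le_mul hI hp (norm_nonneg _) (by positivity)
          _ = _ := mul_one _
      · rw [nsmul_eq_mul, Finset.card_univ]
    · rw [indicator_of_notMem hu']
      have : dIg Z χ τ g ζ u' = 0 := by
        unfold dIg Ig
        rw [cut_zero hχ hu']
        simp only [Complex.ofReal_zero, zero_mul]
        refine Finset.sum_eq_zero fun i _ => ?_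
        ext v
        simp
      rw [this, norm_zero]
  · refine (integrable_indicator_iff measurableSet_closedBall).2 ?_
    exact integrableOn_const (isCompact_closedBall _ _).measure_lt_top.ne
  · exact Eventually.of_forall fun u' ζ _ => Ig_der χ τ g ζ u'

lemma exists_cut {R : ℝ} (hR : 0 < R) : ∃ χ : (Zi m d → ℝ) → ℝ, IsCut R χ := by
  let b : ContDiffBump (0 : Zi m d → ℝ) := ⟨R / 2, R, by positivity, by linarith⟩
  refine ⟨b, b.contDiff, ?_, ?_, ?_⟩
  · rw [b.tsupport_eq]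
  · intro u hu
    exact b.one_of_mem_closedBall hu
  · intro u
    exact ⟨b.nonneg, b.le_one⟩

end

end Pool.Agent.Lib.MP_2184e2_an.Loc.BtM

namespace Pool.Agent.Lib.MP_2184e2_an.Loc

open Filter Topology Set BtM MeasureTheory
open scoped ContDiff ComplexConjugate

theorem specBT (hEVA : SpecEVA) (hBTA : SpecBTA) (hBTB : SpecBTB) : SpecBT := by
  intro m d φ hφ g hg hcr
  have hg1 : ∀ᶠ x in 𝓝 (0 : Ki m d → ℝ), ContDiffAt ℝ 1 g x := hg.eventually (by simp)
  obtain ⟨Φ, ρ, hM, hp⟩ := setup hEVA φ hφ (fun x => ContDiffAt ℝ 1 g x) hg1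
  have hρ := hM.pos
  obtain ⟨R₁, hR₁, h1⟩ := hBTA m d φ hφ g hg hcr
  obtain ⟨R₂, hR₂, h2⟩ := hBTB m d φ hφ g hg
  set R : ℝ := min (min R₁ R₂) (ρ / 2) with hRdef
  have hR : 0 < R := lt_min (lt_min hR₁ hR₂) (by positivity)
  obtain ⟨χ, hχ⟩ := exists_cut (m := m) (d := d) hR
  refine ⟨R / (8 * (m + d + 1)), by positivity, ?_⟩
  intro ε hε
  obtain ⟨τ₁, hτ₁⟩ := h1 R hR ((min_le_left _ _).trans (min_le_left _ _)) χ hχ (ε / 2)
    (by positivity)
  obtain ⟨τ₂, hτ₂⟩ := h2 R hR ((min_le_left _ _).trans (min_le_right _ _)) χ hχ (ε / 2)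
    (by positivity)
  refine ⟨fun ζ => IG φ χ (max τ₁ τ₂) g 0 ζ, ?_, ?_⟩
  · exact P_diff hM (fun x hx => (hp x hx).continuousAt) hR (min_le_right _ _) hχ _
  · intro x hx
    set u : Zi m d → ℝ := fun k => x (emb k) with hu
    set y : Fin m → ℝ := fun j => x (Sum.inl (Sum.inr j)) with hy
    have hxs : Sl u y = x := by
      funext k
      rcases k with (j | j) | l <;> rfl
    have hun : ‖u‖ ≤ ‖x‖ := by
      rw [pi_norm_le_iff_of_nonneg (norm_nonneg _)]
      exact fun k => norm_le_pi_norm x _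
    have hyn : ‖y‖ ≤ ‖x‖ := by
      rw [pi_norm_le_iff_of_nonneg (norm_nonneg _)]
      exact fun k => norm_le_pi_norm x _
    have a1 := hτ₁ (max τ₁ τ₂) (le_max_left _ _) u y (hun.trans hx.le) (hyn.trans hx.le)
    have a2 := hτ₂ (max τ₁ τ₂) (le_max_right _ _) u y (hun.trans hx.le) (hyn.trans hx.le)
    rw [hxs] at a1 a2
    have e : g x - IG φ χ (max τ₁ τ₂) g 0 (Zm φ x) =
        -(IG φ χ (max τ₁ τ₂) g y (Zm φ x) - g x) +
        (IG φ χ (max τ₁ τ₂) g y (Zm φ x) - IG φ χ (max τ₁ τ₂) g 0 (Zm φ x)) := by ring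
    rw [e]
    refine (norm_add_le _ _).trans_lt ?_
    rw [norm_neg]
    linarith

end Pool.Agent.Lib.MP_2184e2_an.Loc
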