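import Pool.Agent.Lib.MP_2184e2_an.Loc.BtMod

/-!
# MP_2184e2_an, local theorem: BTA
-/

set_option autoImplicit false
set_option linter.unusedSectionVars false
set_option linter.deprecated false

namespace Pool.Agent.Lib.MP_2184e2_an.Loc.BtM

open Filter Topology Set
open scoped ContDiff ComplexConjugate

noncomputable section

variable {m d : ℕ} {Z : (Ki m d → ℝ) → Zi m d → ℂ} {Φ : Fin d → (Ki m d → ℝ) → ℝ} {ρ : ℝ}

/-- the slice path of BTA -/
def WA (Z : (Ki m d → ℝ) → Zi m d → ℂ) (u : Zi m d → ℝ) (y : Fin m → ℝ) (t : ℝ)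
    (u' : Zi m d → ℝ) : Zi m d → ℂ := fun i => Z (Sl u' (t • y)) i - Z (Sl u y) i

/-- the function of BTA -/
def GA (g : (Ki m d → ℝ) → ℂ) (y : Fin m → ℝ) (t : ℝ) (u' : Zi m d → ℝ) : ℂ := g (Sl u' (t • y))

lemma jWA (u u' : Zi m d → ℝ) (y : Fin m → ℝ) (t : ℝ) :
    jW (WA Z u y) t u' =
      Matrix.of fun i k => fderiv ℝ (fun v => Z (Sl v (t • y)) i) u' (Pi.single k 1) := by
  unfold jW WA
  ext i k
  simp only [Matrix.of_apply]
  rw [fderiv_sub_const]

lemma path_smooth (y : Fin m → ℝ) :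
    ContDiff ℝ ∞ (fun p : ℝ × (Zi m d → ℝ) => (Sl p.2 (p.1 • y) : Ki m d → ℝ)) := by
  have h : (fun p : ℝ × (Zi m d → ℝ) => (Sl p.2 (p.1 • y) : Ki m d → ℝ)) =
      fun p => SlL m d (p.2, p.1 • y) := by
    funext p; rw [SlL_apply]
  rw [h]
  exact (SlL m d).contDiff.comp (contDiff_snd.prodMk (contDiff_fst.smul contDiff_const))

lemma bb_norm (z : ℝ) : ‖(Complex.I * (z : ℂ))‖ = |z| := by simp

lemma hypA (h : Mod Z Φ ρ) {g : (Ki m d → ℝ) → ℂ}
    (hg : ∀ x, ‖x‖ < ρ → ContDiffAt ℝ 1 g x ∧ CRat Z g x) {R Cg : ℝ} (hR : 0 < R)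
    (hRρ : R ≤ ρ / 2) (hCg : ∀ x ∈ Metric.closedBall (0 : Ki m d → ℝ) (ρ / 2), ‖g x‖ ≤ Cg)
    {u : Zi m d → ℝ} {y : Fin m → ℝ} (hu : ‖u‖ ≤ R / (8 * (m + d + 1)))
    (hy : ‖y‖ ≤ R / (8 * (m + d + 1))) {t : ℝ} (ht : t ∈ Icc (0 : ℝ) 1)
    {u' : Zi m d → ℝ} (hu' : u' ∈ Metric.closedBall (0 : Zi m d → ℝ) R) :
    Hyp (WA Z u y) (GA g y) R ρ Cg (1 / 10 * R ^ 2) t u' := by
  have hρ := h.pos
  have hr1 : R / (8 * (m + d + 1)) ≤ R := by
    refine div_le_self hR.le ?_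
    have : (0 : ℝ) ≤ m + d := by positivity
    linarith
  rw [mem_closedBall_zero_iff] at hu'
  have hty : ‖t • y‖ ≤ ‖y‖ := by
    rw [norm_smul, Real.norm_eq_abs, abs_of_nonneg ht.1]
    exact mul_le_of_le_one_left (norm_nonneg _) ht.2
  have hx : ‖(Sl u' (t • y) : Ki m d → ℝ)‖ < ρ :=
    (Sl_le hR.le hu' (hty.trans (hy.trans hr1))).trans_lt (by linarith)
  have hx' : ‖(Sl u' (t • y) : Ki m d → ℝ)‖ ≤ ρ / 2 :=
    (Sl_le hR.le hu' (hty.trans (hy.trans hr1))).trans hRρ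
  have hx0 : ‖(Sl u y : Ki m d → ℝ)‖ < ρ :=
    (Sl_le hR.le (hu.trans hr1) (hy.trans hr1)).trans_lt (by linarith)
  have hnear : Near (jW (WA Z u y) t u') := by rw [jWA]; exact h.near hx
  have hdt : ∀ i, deriv (fun r => WA Z u y r u' i) t =
      fderiv ℝ (fun x => Z x i) (Sl u' (t • y)) (Sl 0 y) := by
    intro i
    unfold WA
    rw [deriv_sub_const]
    exact compT (h := fun x => Z x i) (h.diffZ hx i)
  refine ⟨?_, ?_, hnear, ?_, ?_, ?_, ?_⟩
  · rw [contDiffAt_pi]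
    intro i
    unfold WA
    refine ContDiffAt.sub ?_ contDiffAt_const
    have h1 := ((h.smZ hx i).comp (t, u')
      (f := fun p : ℝ × (Zi m d → ℝ) => (Sl p.2 (p.1 • y) : Ki m d → ℝ))
      (path_smooth y).contDiffAt).of_le (m := 2) (WithTop.coe_le_coe.2 le_top)
    exact h1
  · have h1 := (hg _ hx).1.comp (t, u')
      (f := fun p : ℝ × (Zi m d → ℝ) => (Sl p.2 (p.1 • y) : Ki m d → ℝ))
      ((path_smooth y).contDiffAt.of_le (WithTop.coe_le_coe.2 le_top))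
    exact h1
  · -- the CR equation
    set x : Ki m d → ℝ := Sl u' (t • y) with hxdef
    set D := (jW (WA Z u y) t u').det with hD
    set b := bW (WA Z u y) t u' with hb
    have dg : DifferentiableAt ℝ g x := (hg x hx).1.differentiableAt (by norm_num)
    let c : Ki m d → ℂ := Sum.elim (Sum.elim (fun j => -b (Sum.inl j)) (fun j => D * y j))
      (fun l => -b (Sum.inr l))
    have hsum : ∀ f : (Ki m d → ℝ) → ℂ, ∑ k, c k * pd f k x =
        -(∑ k, b k * fderiv ℝ f x (Pi.single (emb k) 1)) + D * fderiv ℝ f x (Sl 0 y) := by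
      intro f
      rw [sumKC, expand x (Sl 0 y), sumKC, ← Finset.sum_neg_distrib]
      congr 1
      · refine Finset.sum_congr rfl fun k _ => ?_
        rcases k with k | k <;> simp [c, emb, pd]
      · have e1 : ∑ k : Zi m d, ((Sl (0 : Zi m d → ℝ) y (emb k) : ℝ) : ℂ) * pd f (emb k) x = 0 := by
          refine Finset.sum_eq_zero fun k _ => ?_
          rcases k with k | k <;> simp [emb, Sl]
        rw [e1, zero_add, Finset.mul_sum]
        refine Finset.sum_congr rfl fun j _ => ?_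
        simp only [c, Sum.elim_inl, Sum.elim_inr, Sl]
        ring
    have hker : ∀ i, ∑ k, c k * pd (fun y => Z y i) k x = 0 := by
      intro i
      rw [hsum]
      have e1 := jb (WA Z u y) t u' i
      rw [hdt i] at e1
      rw [← e1]
      have e2 : ∀ k, jW (WA Z u y) t u' i k = fderiv ℝ (fun x => Z x i) x (Pi.single (emb k) 1) := by
        intro k
        rw [jWA, Matrix.of_apply, compU (h := fun x => Z x i) (h.diffZ hx i), Sl_single]
      simp only [e2]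
      rw [neg_add_eq_zero]
      exact Finset.sum_congr rfl fun k _ => mul_comm _ _
    have hcr := (hg x hx).2 c hker
    rw [hsum] at hcr
    have e3 : deriv (fun r => GA g y r u') t = fderiv ℝ g x (Sl 0 y) := compT (h := g) dg
    have e4 : ∀ k, fderiv ℝ (GA g y t) u' (Pi.single k 1) = fderiv ℝ g x (Pi.single (emb k) 1) := by
      intro k
      have := compU (h := g) dg (Pi.single k 1)
      rw [Sl_single] at this
      exact this
    rw [e3]
    simp only [e4]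
    rw [neg_add_eq_zero] at hcr
    exact hcr.symm
  · exact hCg _ (by rw [mem_closedBall_zero_iff]; exact hx')
  · intro i
    rw [hdt i]
    have hyρ : ‖y‖ ≤ ρ := (hy.trans hr1).trans (by linarith)
    rcases i with j | l
    · rw [h.der1 hx]
      have : ((Sl (0 : Zi m d → ℝ) y (Sum.inl (Sum.inl j)) : ℝ) : ℂ) = 0 := by simp [Sl]
      rw [this, zero_add, bb_norm]
      exact (norm_le_pi_norm y j).trans hyρ
    · rw [h.der2 hx]
      have : ((Sl (0 : Zi m d → ℝ) y (Sum.inr l) : ℝ) : ℂ) = 0 := by simp [Sl]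
      rw [this, zero_add, bb_norm]
      refine (h.dPhi hx l _).trans ?_
      exact Sl_le hρ.le (by simp; exact hρ.le) hyρ
  · intro hR2
    have hf := far hR hu hR2
    have hys := ysmall (d := d) hR hy
    have hlip := h.lip _ _ hx hx0
    rw [sq_diff] at hlip
    have hre : (∑ i, WA Z u y t u' i ^ 2).re = ∑ k, (u' k - u k) ^ 2 -
        ∑ j, ((t • y) j - y j) ^ 2 - ∑ l, (Φ l (Sl u' (t • y)) - Φ l (Sl u y)) ^ 2 := by
      rw [Complex.re_sum, Fintype.sum_sum_type, Fintype.sum_sum_type]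
      have a1 : ∀ j : Fin m, (WA Z u y t u' (Sum.inl j) ^ 2).re =
          (u' (Sum.inl j) - u (Sum.inl j)) ^ 2 - ((t • y) j - y j) ^ 2 := by
        intro j
        unfold WA
        rw [h.z1 _ hx, h.z1 _ hx0]
        simp only [Sl, Sum.elim_inl, Sum.elim_inr]
        simp [pow_two]
      have a2 : ∀ l : Fin d, (WA Z u y t u' (Sum.inr l) ^ 2).re =
          (u' (Sum.inr l) - u (Sum.inr l)) ^ 2 - (Φ l (Sl u' (t • y)) - Φ l (Sl u y)) ^ 2 := by
        intro l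
        unfold WA
        rw [h.z2 _ hx, h.z2 _ hx0]
        simp only [Sl, Sum.elim_inr]
        simp [pow_two]
      simp only [a1, a2, Finset.sum_sub_distrib]
      ring
    rw [hre]
    have hty2 : ∑ j, ((t • y) j - y j) ^ 2 ≤ ∑ j, y j ^ 2 := by
      refine Finset.sum_le_sum fun j _ => ?_
      simp only [Pi.smul_apply, smul_eq_mul]
      have : (t * y j - y j) ^ 2 = (1 - t) ^ 2 * y j ^ 2 := by ring
      rw [this]
      refine mul_le_of_le_one_left (sq_nonneg _) ?_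
      have := ht.1
      have := ht.2
      nlinarith
    nlinarith

lemma IG_one (φ : Fin d → PS (Ki m d)) (χ : (Zi m d → ℝ) → ℝ) (τ : ℝ) (g : (Ki m d → ℝ) → ℂ)
    (u : Zi m d → ℝ) (y : Fin m → ℝ) :
    IG φ χ τ g y (Zm φ (Sl u y)) = ∫ u', (χ u' : ℂ) *
      (GA g y 1 u' * kr τ (WA (Zm φ) u y 1 u') * (jW (WA (Zm φ) u y) 1 u').det) := by
  unfold IG
  congr 1
  funext u'
  rw [jWA]
  unfold GA WA jW
  simp only [one_smul]
  rw [kr_symm]

lemma IG_zero (φ : Fin d → PS (Ki m d)) (χ : (Zi m d → ℝ) → ℝ) (τ : ℝ) (g : (Ki m d → ℝ) → ℂ)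
    (u : Zi m d → ℝ) (y : Fin m → ℝ) :
    IG φ χ τ g 0 (Zm φ (Sl u y)) = ∫ u', (χ u' : ℂ) *
      (GA g y 0 u' * kr τ (WA (Zm φ) u y 0 u') * (jW (WA (Zm φ) u y) 0 u').det) := by
  unfold IG
  congr 1
  funext u'
  rw [jWA]
  unfold GA WA jW
  simp only [zero_smul]
  rw [kr_symm]

lemma cut_der {R : ℝ} {χ : (Zi m d → ℝ) → ℝ} (hχ : IsCut R χ) :
    ∃ C : ℝ, ∀ u, ‖fderiv ℝ χ u‖ ≤ C := by
  have hcs : HasCompactSupport χ :=
    (isCompact_closedBall _ _).of_isClosed_subset (isClosed_tsupport χ) hχ.2.1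
  have h1 : Continuous (fderiv ℝ χ) := hχ.1.continuous_fderiv (by simp)
  exact h1.bounded_above_of_compact_support (hcs.fderiv (𝕜 := ℝ))

end

end Pool.Agent.Lib.MP_2184e2_an.Loc.BtM

namespace Pool.Agent.Lib.MP_2184e2_an.Loc

open Filter Topology Set BtM
open scoped ContDiff ComplexConjugate

theorem specBTA (hEVA : SpecEVA) (hHOMI : SpecHOMI) : SpecBTA := by
  intro m d φ hφ g hg hcr
  have hg1 : ∀ᶠ x in 𝓝 (0 : Ki m d → ℝ), ContDiffAt ℝ 1 g x := hg.eventually (by simp)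
  obtain ⟨Φ, ρ, hM, hp⟩ := setup hEVA φ hφ (fun x => ContDiffAt ℝ 1 g x ∧ CRat (Zm φ) g x)
    (hg1.and hcr)
  have hρ := hM.pos
  refine ⟨ρ / 2, by positivity, ?_⟩
  intro R hR hRρ χ hχ ε hε
  obtain ⟨Cχ, hCχ⟩ := cut_der hχ
  obtain ⟨Cg, hCg⟩ := (isCompact_closedBall (0 : Ki m d → ℝ) (ρ / 2)).exists_bound_of_continuousOn
    (f := g) (by
      intro x hx
      rw [mem_closedBall_zero_iff] at hx
      exact (hp x (by linarith)).1.continuousAt.continuousWithinAt)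
  have hCg0 : 0 ≤ Cg := (norm_nonneg _).trans (hCg 0 (by simp; positivity))
  have ht := tend_Kb (ι := Zi m d) Cχ ρ Cg (1 / 10 * R ^ 2) (by positivity)
    (MeasureTheory.volume (Metric.closedBall (0 : Zi m d → ℝ) R)).toReal
  obtain ⟨τ₀, hτ₀⟩ := ((ht.eventually (gt_mem_nhds hε)).and
    (eventually_ge_atTop 0)).exists_forall_of_atTop
  refine ⟨τ₀, ?_⟩
  intro τ hτ u y hu hy
  obtain ⟨h1, h0⟩ := hτ₀ τ hτ
  rw [IG_one, IG_zero]
  refine (hm hHOMI (WA (Zm φ) u y) (GA g y) χ R (1 / 10 * R ^ 2) Cχ ρ Cg τ hχ.1 hχ.2.1 hχ.2.2.1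
    hCχ h0 hρ.le hCg0 ?_).trans_lt h1
  intro t ht' u' hu'
  exact hypA hM hp hR hRρ hCg hu hy ht' hu'

end Pool.Agent.Lib.MP_2184e2_an.Loc
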