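import Pool.Agent.Lib.MP_2184e2_an.Loc.Bta

/-!
# MP_2184e2_an, local theorem: BTB
-/

set_option autoImplicit false
set_option linter.unusedSectionVars false
set_option linter.deprecated false

namespace Pool.Agent.Lib.MP_2184e2_an.Loc.BtM

open Filter Topology Set MeasureTheory
open scoped ContDiff ComplexConjugate

noncomputable section

/-! ### Gauss integrals -/

section Gauss

variable {ι : Type} [Fintype ι] [DecidableEq ι]

/-- the Gauss density with exponent `a`, centred at `u` -/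
def gs (τ a : ℝ) (u v : ι → ℝ) : ℝ :=
  (τ / Real.pi) ^ ((Fintype.card ι : ℝ) / 2) * Real.exp (-(τ * (a * ∑ i, (v i - u i) ^ 2)))

lemma gs_nonneg {τ : ℝ} (hτ : 0 ≤ τ) (a : ℝ) (u v : ι → ℝ) : 0 ≤ gs τ a u v :=
  mul_nonneg (Real.rpow_nonneg (div_nonneg hτ Real.pi_pos.le) _) (Real.exp_pos _).le

lemma gs_prod (τ a : ℝ) (hτ : 0 ≤ τ) (u v : ι → ℝ) :
    gs τ a u v = ∏ i, (Real.sqrt (τ / Real.pi) * Real.exp (-(τ * a) * (v i - u i) ^ 2)) := by
  unfold gs
  rw [Finset.prod_mul_distrib, Finset.prod_const, Finset.card_univ, ← Real.exp_sum]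
  congr 1
  · rw [show (Fintype.card ι : ℝ) / 2 = 1 / 2 * (Fintype.card ι : ℝ) by ring,
      Real.rpow_mul (div_nonneg hτ Real.pi_pos.le), ← Real.sqrt_eq_rpow, Real.rpow_natCast]
  · rw [← Finset.mul_sum]
    congr 1
    ring

lemma gs_int (τ a : ℝ) (hτ : 0 < τ) (ha : 0 < a) (u : ι → ℝ) :
    Integrable (gs τ a u) ∧ ∫ v, gs τ a u v = Real.sqrt (1 / a) ^ Fintype.card ι := by
  have h1 : ∀ i, Integrable (fun x : ℝ => Real.sqrt (τ / Real.pi) *
      Real.exp (-(τ * a) * (x - u i) ^ 2)) := by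
    intro i
    refine Integrable.const_mul ?_ _
    exact (integrable_exp_neg_mul_sq (mul_pos hτ ha)).comp_sub_right (u i)
  have h2 : gs τ a u = fun v : ι → ℝ => ∏ i, (Real.sqrt (τ / Real.pi) *
      Real.exp (-(τ * a) * (v i - u i) ^ 2)) := by
    funext v; exact gs_prod τ a hτ.le u v
  refine ⟨?_, ?_⟩
  · rw [h2]
    exact Integrable.fintype_prod (f := fun i (x : ℝ) => Real.sqrt (τ / Real.pi) *
      Real.exp (-(τ * a) * (x - u i) ^ 2)) h1
  · rw [h2, integral_fintype_prod_volume_eq_prod (fun i (x : ℝ) => Real.sqrt (τ / Real.pi) *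
      Real.exp (-(τ * a) * (x - u i) ^ 2))]
    have h3 : ∀ i, ∫ x : ℝ, Real.sqrt (τ / Real.pi) * Real.exp (-(τ * a) * (x - u i) ^ 2) =
        Real.sqrt (1 / a) := by
      intro i
      rw [integral_const_mul, integral_sub_right_eq_self (fun x : ℝ =>
        Real.exp (-(τ * a) * x ^ 2)) (u i), integral_gaussian, ← Real.sqrt_mul
        (div_nonneg hτ.le Real.pi_pos.le)]
      congr 1
      have := Real.pi_pos
      field_simp
    rw [Finset.prod_congr rfl fun i _ => h3 i, Finset.prod_const, Finset.card_univ]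

lemma gs_split (τ a b : ℝ) (u v : ι → ℝ) :
    gs τ (a + b) u v = Real.exp (-(τ * (b * ∑ i, (v i - u i) ^ 2))) * gs τ a u v := by
  unfold gs
  have e : Real.exp (-(τ * ((a + b) * ∑ i, (v i - u i) ^ 2))) =
      Real.exp (-(τ * (b * ∑ i, (v i - u i) ^ 2))) *
        Real.exp (-(τ * (a * ∑ i, (v i - u i) ^ 2))) := by
    rw [← Real.exp_add]
    congr 1
    ring
  rw [e]
  ring

end Gauss

variable {m d : ℕ} {Z : (Ki m d → ℝ) → Zi m d → ℂ} {Φ : Fin d → (Ki m d → ℝ) → ℝ} {ρ : ℝ}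

/-- the slice path of BTB -/
def WB (Φ : Fin d → (Ki m d → ℝ) → ℝ) (u : Zi m d → ℝ) (y : Fin m → ℝ) (t : ℝ)
    (u' : Zi m d → ℝ) : Zi m d → ℂ :=
  Sum.elim (fun j => ((u' (Sum.inl j) - u (Sum.inl j) : ℝ) : ℂ))
    (fun l => ((u' (Sum.inr l) - u (Sum.inr l) : ℝ) : ℂ) +
      Complex.I * ((t * (Φ l (Sl u' y) - Φ l (Sl u y)) : ℝ) : ℂ))

lemma hasU {F : Type} [NormedAddCommGroup F] [NormedSpace ℝ F] {h : (Ki m d → ℝ) → F}
    {u : Zi m d → ℝ} {w : Fin m → ℝ} (hd : DifferentiableAt ℝ h (Sl u w)) :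
    HasFDerivAt (fun v => h (Sl v w)) ((fderiv ℝ h (Sl u w)).comp
      ((SlL m d).comp (ContinuousLinearMap.inl ℝ _ _))) u := by
  have h1 : HasFDerivAt (fun v : Zi m d → ℝ => SlL m d (v, w))
      ((SlL m d).comp (ContinuousLinearMap.inl ℝ _ _)) u := by
    have h2 : HasFDerivAt (fun v : Zi m d → ℝ => (v, w)) (ContinuousLinearMap.inl ℝ _ _) u :=
      hasFDerivAt_prodMk_left u w
    exact (SlL m d).hasFDerivAt.comp u h2
  have h3 : HasFDerivAt h (fderiv ℝ h (Sl u w)) (SlL m d (u, w)) := by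
    rw [SlL_apply]; exact hd.hasFDerivAt
  have h4 := h3.comp u h1
  have h5 : (fun v => h (Sl v w)) = h ∘ fun v => SlL m d (v, w) := by
    funext v; simp [SlL_apply]
  rw [h5]; exact h4

lemma uproj (i : Zi m d) (c : ℝ) (x : Zi m d → ℝ) :
    HasFDerivAt (fun x : Zi m d → ℝ => ((x i - c : ℝ) : ℂ))
    (Complex.ofRealCLM.comp (ContinuousLinearMap.proj i)) x := by
  have h1 := (Complex.ofRealCLM.comp (ContinuousLinearMap.proj (R := ℝ)
    (φ := fun _ : Zi m d => ℝ) i)).hasFDerivAt (x := x)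
  have h2 := h1.sub_const (c : ℂ)
  refine h2.congr_of_eventuallyEq (Eventually.of_forall fun v => ?_)
  simp

lemma jWB (h : Mod Z Φ ρ) {u' u : Zi m d → ℝ} {y : Fin m → ℝ} {t : ℝ}
    (hx : ‖(Sl u' y : Ki m d → ℝ)‖ < ρ) (i k : Zi m d) :
    jW (WB Φ u y) t u' i k = (if i = k then 1 else 0) +
      Complex.I * (t * Sum.elim (fun _ => 0)
        (fun l => fderiv ℝ (Φ l) (Sl u' y) (Pi.single (emb k) 1)) i : ℝ) := by
  unfold jW
  rw [Matrix.of_apply]
  rcases i with j | l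
  · have h1 : (fun v => WB Φ u y t v (Sum.inl j)) =
        fun v : Zi m d → ℝ => ((v (Sum.inl j) - u (Sum.inl j) : ℝ) : ℂ) := rfl
    rw [h1, (uproj _ _ _).fderiv]
    rcases k with k | k
    · by_cases hjk : j = k <;> simp [Pi.single_apply, hjk]
    · simp
  · have h1 : (fun v => WB Φ u y t v (Sum.inr l)) =
        fun v : Zi m d → ℝ => ((v (Sum.inr l) - u (Sum.inr l) : ℝ) : ℂ) +
          Complex.I * ((t * (Φ l (Sl v y) - Φ l (Sl u y)) : ℝ) : ℂ) := rfl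
    have h2 := hasU (h := Φ l) ((h.sm _ hx l).differentiableAt (by simp))
    have h3 := ((Complex.ofRealCLM.hasFDerivAt.comp u'
      ((h2.sub_const (Φ l (Sl u y))).const_mul t)).const_mul Complex.I)
    simp only [Function.comp_def, Complex.ofRealCLM_apply] at h3
    have h4 := ((uproj (Sum.inr l) (u (Sum.inr l)) u').add h3).fderiv
    simp only [Pi.add_def] at h4
    rw [h1, h4]
    have h5 : (Sl (Pi.single k 1) 0 : Ki m d → ℝ) = Pi.single (emb k) 1 := Sl_single k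
    rcases k with k | k
    · simp [SlL_apply, h5]
    · by_cases hjk : l = k <;> simp [SlL_apply, h5, Pi.single_apply, hjk]

lemma reWB (h : Mod Z Φ ρ) {u' u : Zi m d → ℝ} {y : Fin m → ℝ} {t : ℝ} (ht : t ∈ Icc (0 : ℝ) 1)
    (hx : ‖(Sl u' y : Ki m d → ℝ)‖ < ρ) (hx0 : ‖(Sl u y : Ki m d → ℝ)‖ < ρ) :
    15 / 16 * ∑ k, (u' k - u k) ^ 2 ≤ (∑ i, WB Φ u y t u' i ^ 2).re := by
  have hlip := h.lip _ _ hx hx0
  rw [sq_diff] at hlip
  simp only [sub_self, ne_eq, OfNat.ofNat_ne_zero, not_false_eq_true, zero_pow,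
    Finset.sum_const_zero, add_zero] at hlip
  have hre : (∑ i, WB Φ u y t u' i ^ 2).re = ∑ k, (u' k - u k) ^ 2 -
      ∑ l, (t * (Φ l (Sl u' y) - Φ l (Sl u y))) ^ 2 := by
    rw [Complex.re_sum, Fintype.sum_sum_type, Fintype.sum_sum_type]
    have a1 : ∀ j : Fin m, (WB Φ u y t u' (Sum.inl j) ^ 2).re =
        (u' (Sum.inl j) - u (Sum.inl j)) ^ 2 := by
      intro j
      unfold WB
      simp only [Sum.elim_inl]
      simp [pow_two]
    have a2 : ∀ l : Fin d, (WB Φ u y t u' (Sum.inr l) ^ 2).re =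
        (u' (Sum.inr l) - u (Sum.inr l)) ^ 2 - (t * (Φ l (Sl u' y) - Φ l (Sl u y))) ^ 2 := by
      intro l
      unfold WB
      simp only [Sum.elim_inr]
      generalize t * (Φ l (Sl u' y) - Φ l (Sl u y)) = z
      simp [pow_two]
    simp only [a1, a2, Finset.sum_sub_distrib]
    ring
  rw [hre]
  have h2 : ∑ l, (t * (Φ l (Sl u' y) - Φ l (Sl u y))) ^ 2 ≤
      ∑ l, (Φ l (Sl u' y) - Φ l (Sl u y)) ^ 2 := by
    refine Finset.sum_le_sum fun l _ => ?_
    rw [mul_pow]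
    refine mul_le_of_le_one_left (sq_nonneg _) ?_
    have := ht.1
    have := ht.2
    nlinarith
  linarith

lemma hypB (h : Mod Z Φ ρ) {R : ℝ} (hR : 0 < R) (hRρ : R ≤ ρ / 2)
    {u : Zi m d → ℝ} {y : Fin m → ℝ} (hu : ‖u‖ ≤ R / (8 * (m + d + 1)))
    (hy : ‖y‖ ≤ R / (8 * (m + d + 1))) {t : ℝ} (ht : t ∈ Icc (0 : ℝ) 1)
    {u' : Zi m d → ℝ} (hu' : u' ∈ Metric.closedBall (0 : Zi m d → ℝ) R) :
    Hyp (WB Φ u y) (fun _ _ => 1) R
      (Real.sqrt (1 / 16 * (Fintype.card (Ki m d) * (2 * ρ) ^ 2))) 1 (1 / 10 * R ^ 2) t u' := by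
  have hρ := h.pos
  have hr1 : R / (8 * (m + d + 1)) ≤ R := by
    refine div_le_self hR.le ?_
    have : (0 : ℝ) ≤ m + d := by positivity
    linarith
  rw [mem_closedBall_zero_iff] at hu'
  have hx : ‖(Sl u' y : Ki m d → ℝ)‖ < ρ :=
    (Sl_le hR.le hu' (hy.trans hr1)).trans_lt (by linarith)
  have hx0 : ‖(Sl u y : Ki m d → ℝ)‖ < ρ :=
    (Sl_le hR.le (hu.trans hr1) (hy.trans hr1)).trans_lt (by linarith)
  refine ⟨?_, contDiffAt_const, ?_, ?_, by simp, ?_, ?_⟩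
  · rw [contDiffAt_pi]
    have c1 : ∀ (i : Zi m d) (c : ℝ), ContDiffAt ℝ 2 (fun p : ℝ × (Zi m d → ℝ) =>
        ((p.2 i - c : ℝ) : ℂ)) (t, u') := by
      intro i c
      exact Complex.ofRealCLM.contDiff.contDiffAt.comp _
        ((contDiffAt_pi.1 contDiffAt_snd i).sub contDiffAt_const)
    rintro (j | l)
    · exact c1 _ _
    · refine (c1 _ _).add (contDiffAt_const.mul ?_)
      have h2 : ContDiffAt ℝ 2 (Φ l) (SlL m d (u', y)) := by
        rw [SlL_apply]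
        exact (h.sm _ hx l).of_le (WithTop.coe_le_coe.2 le_top)
      have h3 : ContDiffAt ℝ 2 (fun p : ℝ × (Zi m d → ℝ) => SlL m d (p.2, y)) (t, u') :=
        (SlL m d).contDiff.contDiffAt.comp _ (contDiffAt_snd.prodMk contDiffAt_const)
      have h4 := ContDiffAt.comp (t, u') (f := fun p : ℝ × (Zi m d → ℝ) => SlL m d (p.2, y)) h2 h3
      have h5 : ContDiffAt ℝ 2 (fun p : ℝ × (Zi m d → ℝ) => Φ l (Sl p.2 y)) (t, u') := by
        refine h4.congr_of_eventuallyEq (Eventually.of_forall fun p => ?_)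
        simp [SlL_apply]
      exact Complex.ofRealCLM.contDiff.contDiffAt.comp _
        (contDiffAt_fst.mul (h5.sub contDiffAt_const))
  · refine ⟨Matrix.of fun i k => t * Sum.elim (fun _ => 0)
      (fun l => fderiv ℝ (Φ l) (Sl u' y) (Pi.single (emb k) 1)) i, ?_, ?_⟩
    · intro i k
      rw [jWB h hx]
      rfl
    · intro i
      rcases i with j | l
      · simp
      · simp only [Matrix.of_apply, Sum.elim_inr, abs_mul, ← Finset.mul_sum]
        have h1 := h.small_emb hx l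
        have h2 : 0 ≤ ∑ k : Zi m d, |fderiv ℝ (Φ l) (Sl u' y) (Pi.single (emb k) 1)| :=
          Finset.sum_nonneg fun _ _ => abs_nonneg _
        rw [abs_of_nonneg ht.1]
        have := ht.2
        nlinarith [ht.1]
  · simp
  · intro i
    rcases i with j | l
    · have : (fun r => WB Φ u y r u' (Sum.inl j)) =
          fun _ => ((u' (Sum.inl j) - u (Sum.inl j) : ℝ) : ℂ) := rfl
      rw [this]
      simp only [deriv_const, norm_zero]
      exact Real.sqrt_nonneg _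
    · have e1 : (fun r => WB Φ u y r u' (Sum.inr l)) =
          fun r => ((u' (Sum.inr l) - u (Sum.inr l) : ℝ) : ℂ) +
            Complex.I * ((r * (Φ l (Sl u' y) - Φ l (Sl u y)) : ℝ) : ℂ) := rfl
      have e2 : HasDerivAt (fun r : ℝ => ((u' (Sum.inr l) - u (Sum.inr l) : ℝ) : ℂ) +
            Complex.I * ((r * (Φ l (Sl u' y) - Φ l (Sl u y)) : ℝ) : ℂ))
          (Complex.I * ((1 * (Φ l (Sl u' y) - Φ l (Sl u y)) : ℝ) : ℂ)) t := by
        have := (((hasDerivAt_id t).mul_const (Φ l (Sl u' y) - Φ l (Sl u y))).ofReal_comp.const_mul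
          Complex.I).const_add ((u' (Sum.inr l) - u (Sum.inr l) : ℝ) : ℂ)
        exact this
      rw [e1, e2.deriv, bb_norm, one_mul]
      refine Real.abs_le_sqrt ?_
      refine (Finset.single_le_sum (f := fun l => (Φ l (Sl u' y) - Φ l (Sl u y)) ^ 2)
        (fun _ _ => sq_nonneg _) (Finset.mem_univ l)).trans ?_
      refine (h.lip _ _ hx hx0).trans ?_
      refine mul_le_mul_of_nonneg_left ?_ (by norm_num)
      refine (Finset.sum_le_card_nsmul Finset.univ _ ((2 * ρ) ^ 2) fun k _ => ?_).trans ?_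
      · refine sq_le_sq' ?_ ?_
        · have h1 := (norm_le_pi_norm (Sl u' y : Ki m d → ℝ) k).trans hx.le
          have h2 := (norm_le_pi_norm (Sl u y : Ki m d → ℝ) k).trans hx0.le
          rw [Real.norm_eq_abs, abs_le] at h1 h2
          linarith [h1.1, h2.2]
        · have h1 := (norm_le_pi_norm (Sl u' y : Ki m d → ℝ) k).trans hx.le
          have h2 := (norm_le_pi_norm (Sl u y : Ki m d → ℝ) k).trans hx0.le
          rw [Real.norm_eq_abs, abs_le] at h1 h2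
          linarith [h1.2, h2.1]
      · rw [nsmul_eq_mul, Finset.card_univ]
  · intro hR2
    have hf := far hR hu hR2
    have h1 := reWB h ht hx hx0
    nlinarith

lemma WB_one (h : Mod Z Φ ρ) {u' u : Zi m d → ℝ} {y : Fin m → ℝ}
    (hx : ‖(Sl u' y : Ki m d → ℝ)‖ < ρ) (hx0 : ‖(Sl u y : Ki m d → ℝ)‖ < ρ) :
    WB Φ u y 1 u' = fun i => Z (Sl u' y) i - Z (Sl u y) i := by
  funext i
  rcases i with j | l
  · rw [h.z1 _ hx, h.z1 _ hx0]
    simp [WB, Sl]
  · rw [h.z2 _ hx, h.z2 _ hx0]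
    simp [WB, Sl]
    ring

/-- the integrand of `IG` -/
def Ig (Z : (Ki m d → ℝ) → Zi m d → ℂ) (χ : (Zi m d → ℝ) → ℝ) (τ : ℝ) (f : (Ki m d → ℝ) → ℂ)
    (y : Fin m → ℝ) (ζ : Zi m d → ℂ) (u' : Zi m d → ℝ) : ℂ :=
  (χ u' : ℂ) * (f (Sl u' y) * kr τ (fun i => ζ i - Z (Sl u' y) i) *
    (jW (fun _ v => Z (Sl v y)) 0 u').det)

lemma cut_zero {R : ℝ} {χ : (Zi m d → ℝ) → ℝ} (hχ : IsCut R χ) {x : Zi m d → ℝ}
    (hx : x ∉ Metric.closedBall 0 R) : χ x = 0 :=
  image_eq_zero_of_notMem_tsupport fun h => hx (hχ.2.1 h)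

lemma Sl_cont (y : Fin m → ℝ) : Continuous (fun v : Zi m d → ℝ => (Sl v y : Ki m d → ℝ)) := by
  have h : (fun v : Zi m d → ℝ => (Sl v y : Ki m d → ℝ)) = fun v => SlL m d (v, y) := by
    funext v; rw [SlL_apply]
  rw [h]
  fun_prop

lemma kr_cont {ι : Type} [Fintype ι] (τ : ℝ) : Continuous (fun w : ι → ℂ => kr τ w) := by
  unfold kr
  fun_prop

lemma det_cont (h : Mod Z Φ ρ) {y : Fin m → ℝ} {x : Zi m d → ℝ}
    (hx : ‖(Sl x y : Ki m d → ℝ)‖ < ρ) :
    ContinuousAt (fun u' => (jW (fun _ v => Z (Sl v y)) 0 u').det) x := by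
  have h1 : ContinuousAt (fun u' : Zi m d → ℝ => jW (fun _ v => Z (Sl v y)) 0 u') x := by
    unfold jW
    refine continuousAt_pi.2 fun i => continuousAt_pi.2 fun k => ?_
    have h2 : ContDiffAt ℝ 1 (fun v : Zi m d → ℝ => Z (Sl v y) i) x := by
      have h3 : ContDiffAt ℝ 1 (fun x => Z x i) (SlL m d (x, y)) := by
        rw [SlL_apply]
        exact (h.smZ hx i).of_le (WithTop.coe_le_coe.2 le_top)
      have h4 : ContDiffAt ℝ 1 (fun v : Zi m d → ℝ => SlL m d (v, y)) x :=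
        (SlL m d).contDiff.contDiffAt.comp _ (contDiffAt_id.prodMk contDiffAt_const)
      have h5 := ContDiffAt.comp x (f := fun v : Zi m d → ℝ => SlL m d (v, y)) h3 h4
      refine h5.congr_of_eventuallyEq (Eventually.of_forall fun p => ?_)
      simp [SlL_apply]
    exact (h2.continuousAt_fderiv (by simp)).clm_apply continuousAt_const
  exact (Continuous.matrix_det continuous_id).continuousAt.comp h1

lemma Ig_cont (h : Mod Z Φ ρ) {f : (Ki m d → ℝ) → ℂ} (hf : ∀ x, ‖x‖ < ρ → ContinuousAt f x)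
    {R : ℝ} (hR : 0 < R) (hRρ : R < ρ) {χ : (Zi m d → ℝ) → ℝ} (hχ : IsCut R χ)
    {y : Fin m → ℝ} (hy : ‖y‖ < ρ) (τ : ℝ) (ζ : Zi m d → ℂ) :
    Continuous (Ig Z χ τ f y ζ) ∧ HasCompactSupport (Ig Z χ τ f y ζ) := by
  have hz : ∀ x, x ∉ Metric.closedBall (0 : Zi m d → ℝ) R → Ig Z χ τ f y ζ x = 0 := by
    intro x hx
    unfold Ig
    rw [cut_zero hχ hx]; simp
  refine ⟨continuous_of_tsupport fun x hx => ?_, HasCompactSupport.intro
    (isCompact_closedBall 0 R) hz⟩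
  have hx2 : x ∈ Metric.closedBall (0 : Zi m d → ℝ) R := by
    have hsub : tsupport (Ig Z χ τ f y ζ) ⊆ Metric.closedBall 0 R := by
      refine closure_minimal ?_ Metric.isClosed_closedBall
      intro v hv
      by_contra hc
      exact hv (hz v hc)
    exact hsub hx
  rw [mem_closedBall_zero_iff] at hx2
  have hxρ : ‖(Sl x y : Ki m d → ℝ)‖ < ρ := Sl_lt h.pos (hx2.trans_lt hRρ) hy
  unfold Ig
  refine ContinuousAt.mul ?_ (ContinuousAt.mul (ContinuousAt.mul ?_ ?_) (det_cont h hxρ))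
  · exact (Complex.continuous_ofReal.comp hχ.1.continuous).continuousAt
  · exact (hf _ hxρ).comp (f := fun v : Zi m d → ℝ => (Sl v y : Ki m d → ℝ))
      (Sl_cont y).continuousAt
  · refine (kr_cont τ).continuousAt.comp (continuousAt_pi.2 fun i => ?_)
    refine continuousAt_const.sub ?_
    exact ((h.smZ hxρ i).continuousAt).comp (f := fun v : Zi m d → ℝ => (Sl v y : Ki m d → ℝ))
      (Sl_cont y).continuousAt

lemma det_le (h : Mod Z Φ ρ) {y : Fin m → ℝ} {x : Zi m d → ℝ}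
    (hx : ‖(Sl x y : Ki m d → ℝ)‖ < ρ) :
    ‖(jW (fun _ v => Z (Sl v y)) 0 x).det‖ ≤ cn (Zi m d) :=
  det_bd _ (h.near hx).bd

lemma kr_real {ι : Type} [Fintype ι] (τ : ℝ) (u v : ι → ℝ) :
    kr τ (fun i => ((v i - u i : ℝ) : ℂ)) = ((gs τ 1 u v : ℝ) : ℂ) := by
  unfold kr gs
  push_cast
  congr 2
  ring

/-- comparison with the Gauss integral -/
lemma stepA (h : Mod Z Φ ρ) {g : (Ki m d → ℝ) → ℂ} (hg : ∀ x, ‖x‖ < ρ → ContinuousAt g x)
    {R : ℝ} (hR : 0 < R) (hRρ : R ≤ ρ / 2) {χ : (Zi m d → ℝ) → ℝ} (hχ : IsCut R χ) {Cg : ℝ}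
    (hCg : ∀ x ∈ Metric.closedBall (0 : Ki m d → ℝ) (ρ / 2), ‖g x‖ ≤ Cg) {ε' δ : ℝ}
    (hε' : 0 < ε') (hδ : 0 < δ)
    (huc : ∀ x ∈ Metric.closedBall (0 : Ki m d → ℝ) (ρ / 2),
      ∀ x' ∈ Metric.closedBall (0 : Ki m d → ℝ) (ρ / 2), dist x x' < δ → dist (g x) (g x') < ε')
    {τ : ℝ} (hτ : 0 < τ) {u : Zi m d → ℝ} {y : Fin m → ℝ} (hu : ‖u‖ ≤ R) (hy : ‖y‖ ≤ R) :
    ‖(∫ u', Ig Z χ τ g y (Z (Sl u y)) u') - g (Sl u y) *
        ∫ u', Ig Z χ τ (fun _ => 1) y (Z (Sl u y)) u'‖ ≤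
      cn (Zi m d) * (ε' + 2 * Cg * Real.exp (-(τ * (7 / 16 * δ ^ 2)))) *
        Real.sqrt (1 / (1 / 2)) ^ Fintype.card (Zi m d) := by
  have hρ := h.pos
  have hcn := cn_nonneg (ι := Zi m d)
  have hx0' : ‖(Sl u y : Ki m d → ℝ)‖ ≤ ρ / 2 := (Sl_le hR.le hu hy).trans hRρ
  have hx0 : ‖(Sl u y : Ki m d → ℝ)‖ < ρ := by linarith
  have hCg0 : 0 ≤ Cg := (norm_nonneg _).trans (hCg 0 (by simp; positivity))
  have hyρ : ‖y‖ < ρ := by linarith
  have c1 := Ig_cont h hg hR (by linarith) hχ hyρ τ (Z (Sl u y))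
  have c2 := Ig_cont h (f := fun _ => 1) (fun _ _ => continuousAt_const) hR (by linarith) hχ hyρ τ
    (Z (Sl u y))
  have i1 := c1.1.integrable_of_hasCompactSupport (μ := volume) c1.2
  have i2 := c2.1.integrable_of_hasCompactSupport (μ := volume) c2.2
  rw [← integral_const_mul, ← integral_sub i1 (i2.const_mul _)]
  set e := Real.exp (-(τ * (7 / 16 * δ ^ 2))) with he
  obtain ⟨gi, gv⟩ := gs_int τ (1 / 2) hτ (by norm_num) u
  have hb : ∀ u' : Zi m d → ℝ, ‖Ig Z χ τ g y (Z (Sl u y)) u' -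
      g (Sl u y) * Ig Z χ τ (fun _ => 1) y (Z (Sl u y)) u'‖ ≤
      cn (Zi m d) * (ε' + 2 * Cg * e) * gs τ (1 / 2) u u' := by
    intro u'
    have hgs := gs_nonneg hτ.le (1 / 2) u u'
    have he0 : 0 < e := Real.exp_pos _
    by_cases hu' : u' ∈ Metric.closedBall (0 : Zi m d → ℝ) R
    · rw [mem_closedBall_zero_iff] at hu'
      have hx' : ‖(Sl u' y : Ki m d → ℝ)‖ ≤ ρ / 2 := (Sl_le hR.le hu' hy).trans hRρ
      have hx : ‖(Sl u' y : Ki m d → ℝ)‖ < ρ := by linarith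
      have e1 : Ig Z χ τ g y (Z (Sl u y)) u' -
          g (Sl u y) * Ig Z χ τ (fun _ => 1) y (Z (Sl u y)) u' =
          (χ u' : ℂ) * ((g (Sl u' y) - g (Sl u y)) * kr τ (fun i => Z (Sl u y) i - Z (Sl u' y) i) *
            (jW (fun _ v => Z (Sl v y)) 0 u').det) := by
        unfold Ig; ring
      rw [e1, norm_mul, norm_mul, norm_mul, Complex.norm_real, Real.norm_eq_abs,
        abs_of_nonneg (hχ.2.2.2 u').1]
      have b1 := (hχ.2.2.2 u').2
      have b2 := det_le h hx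
      have b3 : ‖kr τ (fun i => Z (Sl u y) i - Z (Sl u' y) i)‖ ≤ gs τ (15 / 16) u u' := by
        rw [kr_symm, ← WB_one h hx hx0]
        exact kr_bd τ hτ.le _ _ (reWB h ⟨by norm_num, le_refl _⟩ hx hx0)
      have b4 : ‖g (Sl u' y) - g (Sl u y)‖ * gs τ (15 / 16) u u' ≤
          (ε' + 2 * Cg * e) * gs τ (1 / 2) u u' := by
        rw [show (15 / 16 : ℝ) = 1 / 2 + 7 / 16 by norm_num, gs_split, ← mul_assoc]
        refine mul_le_mul_of_nonneg_right ?_ hgs
        have hD : ‖u' - u‖ ^ 2 ≤ ∑ i, (u' i - u i) ^ 2 := norm_sq_le (u' - u)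
        by_cases hd : ‖u' - u‖ < δ
        · have h1 : dist (g (Sl u' y)) (g (Sl u y)) < ε' := by
            refine huc _ (by simpa using hx') _ (by simpa using hx0') ?_
            refine lt_of_le_of_lt ?_ hd
            rw [dist_pi_le_iff (norm_nonneg _)]
            rintro ((j | j) | l)
            · exact norm_le_pi_norm (u' - u) (Sum.inl j)
            · simp [Sl]
            · exact norm_le_pi_norm (u' - u) (Sum.inr l)
          rw [dist_eq_norm] at h1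
          have h2 : Real.exp (-(τ * (7 / 16 * ∑ i, (u' i - u i) ^ 2))) ≤ 1 := by
            rw [Real.exp_le_one_iff]
            have : 0 ≤ ∑ i, (u' i - u i) ^ 2 := Finset.sum_nonneg fun _ _ => sq_nonneg _
            have : 0 ≤ τ * (7 / 16 * ∑ i, (u' i - u i) ^ 2) := by positivity
            linarith
          calc ‖g (Sl u' y) - g (Sl u y)‖ * Real.exp (-(τ * (7 / 16 * ∑ i, (u' i - u i) ^ 2)))
              ≤ ε' * 1 := mul_le_mul h1.le h2 (Real.exp_pos _).le hε'.le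
            _ ≤ ε' + 2 * Cg * e := by
                have : 0 ≤ 2 * Cg * e := by positivity
                linarith
        · have h1 : ‖g (Sl u' y) - g (Sl u y)‖ ≤ 2 * Cg := by
            refine (norm_sub_le _ _).trans ?_
            have a1 := hCg (Sl u' y) (by simpa using hx')
            have a2 := hCg (Sl u y) (by simpa using hx0')
            linarith
          have h2 : Real.exp (-(τ * (7 / 16 * ∑ i, (u' i - u i) ^ 2))) ≤ e := by
            rw [he, Real.exp_le_exp]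
            have h3 : δ ^ 2 ≤ ∑ i, (u' i - u i) ^ 2 :=
              (pow_le_pow_left₀ hδ.le (not_lt.1 hd) 2).trans hD
            have : τ * (7 / 16 * δ ^ 2) ≤ τ * (7 / 16 * ∑ i, (u' i - u i) ^ 2) := by
              refine mul_le_mul_of_nonneg_left ?_ hτ.le
              linarith
            linarith
          calc ‖g (Sl u' y) - g (Sl u y)‖ * Real.exp (-(τ * (7 / 16 * ∑ i, (u' i - u i) ^ 2)))
              ≤ 2 * Cg * e := mul_le_mul h1 h2 (Real.exp_pos _).le (by positivity)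
            _ ≤ ε' + 2 * Cg * e := by linarith
      have hgs2 := gs_nonneg hτ.le (15 / 16) u u'
      calc χ u' * (‖g (Sl u' y) - g (Sl u y)‖ * ‖kr τ (fun i => Z (Sl u y) i - Z (Sl u' y) i)‖ *
            ‖(jW (fun _ v => Z (Sl v y)) 0 u').det‖)
          ≤ 1 * (‖g (Sl u' y) - g (Sl u y)‖ * gs τ (15 / 16) u u' * cn (Zi m d)) := by
            refine mul_le_mul b1 (mul_le_mul (mul_le_mul_of_nonneg_left b3 (norm_nonneg _)) b2
              (norm_nonneg _) (by positivity)) (by positivity) (by norm_num)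
        _ ≤ 1 * ((ε' + 2 * Cg * e) * gs τ (1 / 2) u u' * cn (Zi m d)) := by
            refine mul_le_mul_of_nonneg_left (mul_le_mul_of_nonneg_right b4 hcn) (by norm_num)
        _ = _ := by ring
    · have e1 : Ig Z χ τ g y (Z (Sl u y)) u' -
          g (Sl u y) * Ig Z χ τ (fun _ => 1) y (Z (Sl u y)) u' = 0 := by
        unfold Ig
        rw [cut_zero hχ hu']; simp
      rw [e1, norm_zero]
      positivity
  refine (norm_integral_le_of_norm_le (gi.const_mul _) (Eventually.of_forall hb)).trans ?_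
  rw [integral_const_mul, gv]

/-- comparison of the Gauss integral with `1` -/
lemma stepB {R : ℝ} (hR : 0 < R) {χ : (Zi m d → ℝ) → ℝ} (hχ : IsCut R χ)
    {τ : ℝ} (hτ : 0 < τ) {u : Zi m d → ℝ} (hu : ‖u‖ ≤ R / (8 * (m + d + 1))) :
    |(∫ u', χ u' * gs τ 1 u u') - 1| ≤ Real.exp (-(τ * (1 / 2 * (9 / 64 * R ^ 2)))) *
        Real.sqrt (1 / (1 / 2)) ^ Fintype.card (Zi m d) := by
  obtain ⟨gi, gv⟩ := gs_int τ (1 / 2) hτ (by norm_num) u
  obtain ⟨gi1, gv1⟩ := gs_int τ 1 hτ (by norm_num) u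
  have i1 : Integrable (fun u' => χ u' * gs τ 1 u u') := by
    refine gi1.mono' (hχ.1.continuous.aestronglyMeasurable.mul gi1.aestronglyMeasurable)
      (Eventually.of_forall fun u' => ?_)
    have := gs_nonneg hτ.le 1 u u'
    rw [norm_mul, Real.norm_eq_abs, Real.norm_eq_abs, abs_of_nonneg (hχ.2.2.2 u').1,
      abs_of_nonneg this]
    exact mul_le_of_le_one_left this (hχ.2.2.2 u').2
  have e1 : (∫ u', χ u' * gs τ 1 u u') - 1 = ∫ u', (χ u' * gs τ 1 u u' - gs τ 1 u u') := by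
    rw [integral_sub i1 gi1, gv1]; simp
  rw [e1, ← Real.norm_eq_abs]
  refine (norm_integral_le_of_norm_le (gi.const_mul (Real.exp (-(τ * (1 / 2 * (9 / 64 * R ^ 2))))))
    (Eventually.of_forall fun u' => ?_)).trans ?_
  · have hgs := gs_nonneg hτ.le (1 / 2) u u'
    have hgs1 := gs_nonneg hτ.le 1 u u'
    have he : (χ u' * gs τ 1 u u' - gs τ 1 u u') = (χ u' - 1) * gs τ 1 u u' := by ring
    rw [he, norm_mul, Real.norm_eq_abs, Real.norm_eq_abs, abs_of_nonneg hgs1]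
    by_cases hu' : ‖u'‖ ≤ R / 2
    · rw [hχ.2.2.1 u' (by simpa using hu')]
      simp only [sub_self, abs_zero, zero_mul]
      positivity
    · have h1 : |χ u' - 1| ≤ 1 := by
        rw [abs_le]
        constructor <;> linarith [(hχ.2.2.2 u').1, (hχ.2.2.2 u').2]
      have h2 : gs τ 1 u u' ≤ Real.exp (-(τ * (1 / 2 * (9 / 64 * R ^ 2)))) * gs τ (1 / 2) u u' := by
        conv_lhs => rw [show (1 : ℝ) = 1 / 2 + 1 / 2 by norm_num, gs_split]
        refine mul_le_mul_of_nonneg_right ?_ hgs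
        rw [Real.exp_le_exp]
        have h3 := far hR hu (not_le.1 hu').le
        have : τ * (1 / 2 * (9 / 64 * R ^ 2)) ≤ τ * (1 / 2 * ∑ i, (u' i - u i) ^ 2) := by
          refine mul_le_mul_of_nonneg_left ?_ hτ.le
          linarith
        linarith
      calc |χ u' - 1| * gs τ 1 u u' ≤ 1 * gs τ 1 u u' := mul_le_mul_of_nonneg_right h1 hgs1
        _ = gs τ 1 u u' := one_mul _
        _ ≤ _ := h2
  · rw [integral_const_mul, gv]

lemma Ig_one_eq (h : Mod Z Φ ρ) {R : ℝ} (hR : 0 < R) (hRρ : R ≤ ρ / 2)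
    {χ : (Zi m d → ℝ) → ℝ} (hχ : IsCut R χ) (τ : ℝ) {u : Zi m d → ℝ} {y : Fin m → ℝ}
    (hu : ‖u‖ ≤ R) (hy : ‖y‖ ≤ R) :
    (∫ u', Ig Z χ τ (fun _ => 1) y (Z (Sl u y)) u') = ∫ u', (χ u' : ℂ) *
      (1 * kr τ (WB Φ u y 1 u') * (jW (WB Φ u y) 1 u').det) := by
  have hρ := h.pos
  congr 1
  funext u'
  by_cases hu' : u' ∈ Metric.closedBall (0 : Zi m d → ℝ) R
  · rw [mem_closedBall_zero_iff] at hu'
    have hx : ‖(Sl u' y : Ki m d → ℝ)‖ < ρ := (Sl_le hR.le hu' hy).trans_lt (by linarith)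
    have hx0 : ‖(Sl u y : Ki m d → ℝ)‖ < ρ := (Sl_le hR.le hu hy).trans_lt (by linarith)
    unfold Ig
    rw [kr_symm, ← WB_one h hx hx0]
    congr 3
    ext i k
    rw [jWB h hx]
    unfold jW
    rw [Matrix.of_apply, h.jac hx]
    simp
  · unfold Ig
    rw [cut_zero hχ hu']; simp

lemma Ig_zero_eq (h : Mod Z Φ ρ) {R : ℝ} (hR : 0 < R) (hRρ : R ≤ ρ / 2)
    {χ : (Zi m d → ℝ) → ℝ} (hχ : IsCut R χ) (τ : ℝ) {u : Zi m d → ℝ} {y : Fin m → ℝ}
    (hy : ‖y‖ ≤ R) :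
    (∫ u', (χ u' : ℂ) * (1 * kr τ (WB Φ u y 0 u') * (jW (WB Φ u y) 0 u').det)) =
      ((∫ u', χ u' * gs τ 1 u u' : ℝ) : ℂ) := by
  have hρ := h.pos
  rw [← integral_complex_ofReal]
  congr 1
  funext u'
  by_cases hu' : u' ∈ Metric.closedBall (0 : Zi m d → ℝ) R
  · rw [mem_closedBall_zero_iff] at hu'
    have hx : ‖(Sl u' y : Ki m d → ℝ)‖ < ρ := (Sl_le hR.le hu' hy).trans_lt (by linarith)
    have h1 : WB Φ u y 0 u' = fun i => ((u' i - u i : ℝ) : ℂ) := by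
      funext i
      rcases i with j | l <;> simp [WB]
    have h2 : jW (WB Φ u y) 0 u' = 1 := by
      ext i k
      rw [jWB h hx, Matrix.one_apply]
      simp
    rw [h1, h2, kr_real, Matrix.det_one]
    push_cast
    ring
  · rw [cut_zero hχ hu']; simp

lemma tend_exp (c : ℝ) (hc : 0 < c) : Tendsto (fun τ : ℝ => Real.exp (-(τ * c))) atTop (𝓝 0) :=
  Real.tendsto_exp_neg_atTop_nhds_zero.comp (tendsto_id.atTop_mul_const hc)

end

end Pool.Agent.Lib.MP_2184e2_an.Loc.BtM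

namespace Pool.Agent.Lib.MP_2184e2_an.Loc

open Filter Topology Set BtM MeasureTheory
open scoped ContDiff ComplexConjugate

theorem specBTB (hEVA : SpecEVA) (hHOMI : SpecHOMI) : SpecBTB := by
  intro m d φ hφ g hg
  have hg1 : ∀ᶠ x in 𝓝 (0 : Ki m d → ℝ), ContDiffAt ℝ 1 g x := hg.eventually (by simp)
  obtain ⟨Φ, ρ, hM, hp⟩ := setup hEVA φ hφ (fun x => ContDiffAt ℝ 1 g x) hg1
  have hρ := hM.pos
  refine ⟨ρ / 2, by positivity, ?_⟩
  intro R hR hRρ χ hχ ε hε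
  obtain ⟨Cχ, hCχ⟩ := cut_der hχ
  have hgc : ContinuousOn g (Metric.closedBall (0 : Ki m d → ℝ) (ρ / 2)) := by
    intro x hx
    rw [mem_closedBall_zero_iff] at hx
    exact (hp x (by linarith)).continuousAt.continuousWithinAt
  have hcomp := isCompact_closedBall (0 : Ki m d → ℝ) (ρ / 2)
  obtain ⟨Cg, hCg⟩ := hcomp.exists_bound_of_continuousOn hgc
  have hCg0 : 0 ≤ Cg := (norm_nonneg _).trans (hCg 0 (by simp; positivity))
  set S : ℝ := Real.sqrt (1 / (1 / 2)) ^ Fintype.card (Zi m d) with hS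
  have hS0 : 0 ≤ S := by positivity
  have hcn := cn_nonneg (ι := Zi m d)
  set ε' : ℝ := ε / (2 * (cn (Zi m d) * S + 1)) with hε'
  have hε'0 : 0 < ε' := by positivity
  obtain ⟨δ, hδ, huc⟩ := Metric.uniformContinuousOn_iff.1
    (hcomp.uniformContinuousOn_of_continuous hgc) ε' hε'0
  set MB : ℝ := Real.sqrt (1 / 16 * (Fintype.card (Ki m d) * (2 * ρ) ^ 2)) with hMB
  set V : ℝ := (MeasureTheory.volume (Metric.closedBall (0 : Zi m d → ℝ) R)).toReal with hV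
  have t1 := tend_exp (7 / 16 * δ ^ 2) (by positivity)
  have t2 := tend_exp (1 / 2 * (9 / 64 * R ^ 2)) (by positivity)
  have t3 := tend_Kb (ι := Zi m d) Cχ MB 1 (1 / 10 * R ^ 2) (by positivity) V
  have t4 : Tendsto (fun τ : ℝ => cn (Zi m d) * (ε' + 2 * Cg *
      Real.exp (-(τ * (7 / 16 * δ ^ 2)))) * S + Cg * (Kb (Zi m d) Cχ MB 1 (1 / 10 * R ^ 2) τ * V +
        Real.exp (-(τ * (1 / 2 * (9 / 64 * R ^ 2)))) * S)) atTop
      (𝓝 (cn (Zi m d) * (ε' + 2 * Cg * 0) * S + Cg * (0 + 0 * S))) :=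
    (((((t1.const_mul (2 * Cg)).const_add ε').const_mul (cn (Zi m d))).mul_const S)).add
      ((t3.add (t2.mul_const S)).const_mul Cg)
  have hlt : cn (Zi m d) * (ε' + 2 * Cg * 0) * S + Cg * (0 + 0 * S) < ε := by
    have h1 : 0 ≤ cn (Zi m d) * S := by positivity
    have h2 : cn (Zi m d) * (ε' + 2 * Cg * 0) * S + Cg * (0 + 0 * S) =
        (cn (Zi m d) * S) * ε' := by ring
    rw [h2, hε', mul_div_assoc', div_lt_iff₀ (by positivity)]
    nlinarith
  obtain ⟨τ₀, hτ₀⟩ := ((t4.eventually (gt_mem_nhds hlt)).and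
    (eventually_gt_atTop 0)).exists_forall_of_atTop
  refine ⟨τ₀, ?_⟩
  intro τ hτ u y hu hy
  obtain ⟨h1, h0⟩ := hτ₀ τ hτ
  refine lt_of_le_of_lt ?_ h1
  have hr1 : R / (8 * (m + d + 1)) ≤ R := by
    refine div_le_self hR.le ?_
    have : (0 : ℝ) ≤ m + d := by positivity
    linarith
  have huR := hu.trans hr1
  have hyR := hy.trans hr1
  have hA := stepA hM (fun x hx => (hp x hx).continuousAt) hR hRρ hχ hCg hε'0 hδ huc h0 huR hyR
  have hB := stepB (m := m) (d := d) hR hχ h0 hu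
  have hC := hm hHOMI (WB Φ u y) (fun _ _ => 1) χ R (1 / 10 * R ^ 2) Cχ MB 1 τ hχ.1 hχ.2.1
    hχ.2.2.1 hCχ h0.le (Real.sqrt_nonneg _) zero_le_one
    (fun t ht u' hu' => hypB hM hR hRρ hu hy ht hu')
  rw [← Ig_one_eq hM hR hRρ hχ τ huR hyR, Ig_zero_eq hM hR hRρ hχ τ hyR] at hC
  set I1 := ∫ u', Ig (Zm φ) χ τ (fun _ => 1) y (Zm φ (Sl u y)) u' with hI1
  set Ig' := ∫ u', Ig (Zm φ) χ τ g y (Zm φ (Sl u y)) u' with hIg
  have hIG : IG φ χ τ g y (Zm φ (Sl u y)) = Ig' := rfl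
  rw [hIG]
  have hx0 : ‖g (Sl u y)‖ ≤ Cg := hCg _ (by
    simpa using (Sl_le hR.le huR hyR).trans hRρ)
  have hD : ‖I1 - 1‖ ≤ Kb (Zi m d) Cχ MB 1 (1 / 10 * R ^ 2) τ * V +
        Real.exp (-(τ * (1 / 2 * (9 / 64 * R ^ 2)))) * S := by
    have e1 : I1 - 1 = (I1 - ((∫ u', χ u' * gs τ 1 u u' : ℝ) : ℂ)) +
        (((∫ u', χ u' * gs τ 1 u u') - 1 : ℝ) : ℂ) := by push_cast; ring
    rw [e1]
    refine (norm_add_le _ _).trans (add_le_add hC ?_)
    rw [Complex.norm_real, Real.norm_eq_abs]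
    exact hB
  have e2 : Ig' - g (Sl u y) = (Ig' - g (Sl u y) * I1) + g (Sl u y) * (I1 - 1) := by ring
  rw [e2]
  refine (norm_add_le _ _).trans (add_le_add hA ?_)
  rw [norm_mul]
  exact mul_le_mul hx0 hD (norm_nonneg _) hCg0

end Pool.Agent.Lib.MP_2184e2_an.Loc
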