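import Pool.Agent.Lib.MP_2184e2_an.Loc.SpecB

/-!
# MP_2184e2_an, local theorem: CNV (closure properties of convergent power series), weighted norms
-/

set_option autoImplicit false

namespace Pool.Agent.Lib.MP_2184e2_an.Loc

open MvPowerSeries Filter Topology
open scoped ContDiff LaurentPolynomial ENNReal

noncomputable section

namespace CNVM

section W

variable {S : Type} [CommRing S] [Algebra ℂ S] {N : S → ℝ} {ι : Type}

lemma N_zero (hN : IsNm N) : N 0 = 0 := by
  have h := hN.alg 0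
  rw [map_zero, norm_zero] at h
  exact le_antisymm h (hN.nonneg 0)

lemma N_one_le (hN : IsNm N) : N 1 ≤ 1 := by
  have h := hN.alg 1
  rwa [map_one, norm_one] at h

lemma N_sum_le (hN : IsNm N) {β : Type} (s : Finset β) (g : β → S) :
    N (∑ b ∈ s, g b) ≤ ∑ b ∈ s, N (g b) := by
  classical
  induction s using Finset.induction_on with
  | empty => rw [Finset.sum_empty, Finset.sum_empty, N_zero hN]
  | insert a s ha ih =>
    rw [Finset.sum_insert ha, Finset.sum_insert ha]
    exact (hN.add _ _).trans (add_le_add le_rfl ih)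

lemma N_smul_le (hN : IsNm N) (c : ℂ) (s : S) : N (c • s) ≤ ‖c‖ * N s := by
  rw [Algebra.smul_def]
  exact (hN.mul _ _).trans (mul_le_mul_of_nonneg_right (hN.alg c) (hN.nonneg s))

lemma N_natCast_mul_le (hN : IsNm N) (k : ℕ) (s : S) : N ((k : S) * s) ≤ k * N s := by
  induction k with
  | zero => rw [Nat.cast_zero, zero_mul, N_zero hN, Nat.cast_zero, zero_mul]
  | succ k ih =>
    rw [Nat.cast_succ, add_mul, one_mul, Nat.cast_succ, add_mul, one_mul]
    exact (hN.add _ _).trans (add_le_add ih le_rfl)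

/-- size in `ℝ≥0∞` -/
def nE (N : S → ℝ) (s : S) : ℝ≥0∞ := ENNReal.ofReal (N s)

lemma nE_zero (hN : IsNm N) : nE N 0 = 0 := by
  rw [nE, N_zero hN, ENNReal.ofReal_zero]

lemma nE_add (hN : IsNm N) (a b : S) : nE N (a + b) ≤ nE N a + nE N b := by
  rw [nE, nE, nE, ← ENNReal.ofReal_add (hN.nonneg a) (hN.nonneg b)]
  exact ENNReal.ofReal_le_ofReal (hN.add a b)

lemma nE_mul (hN : IsNm N) (a b : S) : nE N (a * b) ≤ nE N a * nE N b := by
  rw [nE, nE, nE, ← ENNReal.ofReal_mul (hN.nonneg a)]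
  exact ENNReal.ofReal_le_ofReal (hN.mul a b)

lemma nE_neg (hN : IsNm N) (a : S) : nE N (-a) = nE N a := by
  rw [nE, nE, hN.neg]

lemma nE_smul (hN : IsNm N) (c : ℂ) (a : S) : nE N (c • a) ≤ ENNReal.ofReal ‖c‖ * nE N a := by
  rw [nE, nE, ← ENNReal.ofReal_mul (norm_nonneg c)]
  exact ENNReal.ofReal_le_ofReal (N_smul_le hN c a)

lemma nE_sum (hN : IsNm N) {β : Type} (s : Finset β) (g : β → S) :
    nE N (∑ b ∈ s, g b) ≤ ∑ b ∈ s, nE N (g b) := by
  classical
  induction s using Finset.induction_on with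
  | empty => rw [Finset.sum_empty, Finset.sum_empty, nE_zero hN]
  | insert a s ha ih =>
    rw [Finset.sum_insert ha, Finset.sum_insert ha]
    exact (nE_add hN _ _).trans (add_le_add le_rfl ih)

/-- weighted norm -/
def w (N : S → ℝ) (R : ℝ≥0∞) (f : MvPowerSeries ι S) : ℝ≥0∞ :=
  ∑' n : ι →₀ ℕ, nE N (coeff n f) * R ^ n.degree

lemma w_mono {R R' : ℝ≥0∞} (h : R ≤ R') (f : MvPowerSeries ι S) : w N R f ≤ w N R' f :=
  ENNReal.tsum_le_tsum fun n => mul_le_mul' le_rfl (pow_le_pow_left' h _)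

lemma w_add (hN : IsNm N) (R : ℝ≥0∞) (f g : MvPowerSeries ι S) :
    w N R (f + g) ≤ w N R f + w N R g := by
  rw [w, w, w, ← ENNReal.tsum_add]
  refine ENNReal.tsum_le_tsum fun n => ?_
  rw [map_add, ← add_mul]
  exact mul_le_mul' (nE_add hN _ _) le_rfl

lemma w_neg (hN : IsNm N) (R : ℝ≥0∞) (f : MvPowerSeries ι S) : w N R (-f) = w N R f := by
  rw [w, w]
  refine tsum_congr fun n => ?_
  rw [map_neg, nE_neg hN]

lemma w_mul (hN : IsNm N) (R : ℝ≥0∞) (f g : MvPowerSeries ι S) :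
    w N R (f * g) ≤ w N R f * w N R g := by
  classical
  have h1 : w N R (f * g) ≤ ∑' n : ι →₀ ℕ, ∑ p ∈ Finset.HasAntidiagonal.antidiagonal n,
      (nE N (coeff p.1 f) * R ^ p.1.degree) * (nE N (coeff p.2 g) * R ^ p.2.degree) := by
    refine ENNReal.tsum_le_tsum fun n => ?_
    rw [coeff_mul]
    refine (mul_le_mul' (nE_sum hN _ _) le_rfl).trans ?_
    rw [Finset.sum_mul]
    refine Finset.sum_le_sum fun p hp => ?_
    have h2 : n = p.1 + p.2 := (Finset.HasAntidiagonal.mem_antidiagonal.1 hp).symm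
    rw [h2, map_add, pow_add]
    calc nE N (coeff p.1 f * coeff p.2 g) * (R ^ p.1.degree * R ^ p.2.degree)
        ≤ (nE N (coeff p.1 f) * nE N (coeff p.2 g)) * (R ^ p.1.degree * R ^ p.2.degree) :=
          mul_le_mul' (nE_mul hN _ _) le_rfl
      _ = _ := by ring
  refine h1.trans (le_of_eq ?_)
  rw [w, w, ← ENNReal.tsum_mul_right]
  simp_rw [← ENNReal.tsum_mul_left]
  rw [← ENNReal.tsum_prod (f := fun (a b : ι →₀ ℕ) =>
    (nE N (coeff a f) * R ^ a.degree) * (nE N (coeff b g) * R ^ b.degree))]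
  rw [← (Finset.HasAntidiagonal.sigmaAntidiagonalEquivProd (A := ι →₀ ℕ)).tsum_eq,
    ENNReal.tsum_sigma']
  refine tsum_congr fun n => ?_
  rw [tsum_fintype]
  exact (Finset.sum_coe_sort (Finset.HasAntidiagonal.antidiagonal n) (fun p =>
    (nE N (coeff p.1 f) * R ^ p.1.degree) * (nE N (coeff p.2 g) * R ^ p.2.degree))).symm

lemma w_C (hN : IsNm N) (R : ℝ≥0∞) (c : S) : w N R (C c : MvPowerSeries ι S) ≤ nE N c := by
  classical
  rw [w, tsum_eq_single 0]
  · rw [coeff_C, if_pos rfl, map_zero, pow_zero, mul_one]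
  · intro n hn
    rw [coeff_C, if_neg hn, nE_zero hN, zero_mul]

lemma w_one (hN : IsNm N) (R : ℝ≥0∞) : w N R (1 : MvPowerSeries ι S) ≤ 1 := by
  have h : (1 : MvPowerSeries ι S) = C 1 := (map_one _).symm
  rw [h]
  refine (w_C hN R 1).trans ?_
  rw [nE, ← ENNReal.ofReal_one]
  exact ENNReal.ofReal_le_ofReal (N_one_le hN)

lemma w_X (hN : IsNm N) (R : ℝ≥0∞) (i : ι) : w N R (X i : MvPowerSeries ι S) ≤ R := by
  classical
  rw [w, tsum_eq_single (Finsupp.single i 1)]
  · rw [coeff_X, if_pos rfl, Finsupp.degree_single, pow_one]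
    calc nE N 1 * R ≤ 1 * R := by
          refine mul_le_mul' ?_ le_rfl
          rw [nE, ← ENNReal.ofReal_one]
          exact ENNReal.ofReal_le_ofReal (N_one_le hN)
      _ = R := one_mul R
  · intro n hn
    rw [coeff_X, if_neg hn, nE_zero hN, zero_mul]

lemma w_pow (hN : IsNm N) (R : ℝ≥0∞) (f : MvPowerSeries ι S) (k : ℕ) :
    w N R (f ^ k) ≤ w N R f ^ k := by
  induction k with
  | zero => rw [pow_zero, pow_zero]; exact w_one hN R
  | succ k ih =>
    rw [pow_succ, pow_succ]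
    exact (w_mul hN R _ _).trans (mul_le_mul' ih le_rfl)

lemma w_prod (hN : IsNm N) (R : ℝ≥0∞) {β : Type} (s : Finset β) (g : β → MvPowerSeries ι S) :
    w N R (∏ b ∈ s, g b) ≤ ∏ b ∈ s, w N R (g b) := by
  classical
  induction s using Finset.induction_on with
  | empty => rw [Finset.prod_empty, Finset.prod_empty]; exact w_one hN R
  | insert a s ha ih =>
    rw [Finset.prod_insert ha, Finset.prod_insert ha]
    exact (w_mul hN R _ _).trans (mul_le_mul' le_rfl ih)

/-- partial sums of the geometric series in several variables -/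
lemma geo [Finite ι] (x : ℝ) (h0 : 0 ≤ x) (h1 : x < 1) :
    ∑' n : ι →₀ ℕ, ENNReal.ofReal x ^ n.degree ≤
      ENNReal.ofReal ((1 - x)⁻¹ ^ Nat.card ι) := by
  classical
  have := Fintype.ofFinite ι
  rw [ENNReal.tsum_eq_iSup_sum]
  refine iSup_le fun F => ?_
  have h2 : ∑ n ∈ F, ENNReal.ofReal x ^ n.degree = ENNReal.ofReal (∑ n ∈ F, x ^ n.degree) := by
    rw [ENNReal.ofReal_sum_of_nonneg fun n _ => pow_nonneg h0 _]
    exact Finset.sum_congr rfl fun n _ => (ENNReal.ofReal_pow h0 _).symm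
  rw [h2]
  refine ENNReal.ofReal_le_ofReal ?_
  obtain ⟨K, hK⟩ : ∃ K : ℕ, ∀ n ∈ F, ∀ i, n i < K := by
    refine ⟨F.sup (fun n => n.degree) + 1, fun n hn i => ?_⟩
    have h3 : n.degree ≤ F.sup (fun n => n.degree) := Finset.le_sup (f := fun n => n.degree) hn
    have h4 : n i ≤ n.degree := by
      rw [Finsupp.degree_eq_sum]
      exact Finset.single_le_sum (f := fun i => n i) (fun _ _ => Nat.zero_le _)
        (Finset.mem_univ i)
    omega
  have h5 : ∑ n ∈ F, x ^ n.degree ≤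
      ∑ p ∈ Fintype.piFinset (fun _ : ι => Finset.range K), ∏ i, x ^ p i := by
    have h6 : ∑ n ∈ F, x ^ n.degree = ∑ p ∈ F.image (fun n : ι →₀ ℕ => (n : ι → ℕ)),
        ∏ i, x ^ p i := by
      rw [Finset.sum_image (fun a _ b _ h => DFunLike.coe_injective h)]
      refine Finset.sum_congr rfl fun n _ => ?_
      rw [Finset.prod_pow_eq_pow_sum, Finsupp.degree_eq_sum]
    rw [h6]
    refine Finset.sum_le_sum_of_subset_of_nonneg ?_ fun p _ _ =>
      Finset.prod_nonneg fun i _ => pow_nonneg h0 _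
    intro p hp
    obtain ⟨n, hn, rfl⟩ := Finset.mem_image.1 hp
    rw [Fintype.mem_piFinset]
    exact fun i => Finset.mem_range.2 (hK n hn i)
  refine h5.trans ?_
  rw [← Finset.prod_univ_sum (fun _ : ι => Finset.range K) (fun _ j => x ^ j),
    Finset.prod_const, Finset.card_univ, ← Nat.card_eq_fintype_card]
  refine pow_le_pow_left₀ (Finset.sum_nonneg fun i _ => pow_nonneg h0 _) ?_ _
  have h7 := geom_sum_mul_neg x K
  have h8 : (∑ i ∈ Finset.range K, x ^ i) * (1 - x) ≤ 1 := by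
    rw [h7]
    linarith [pow_nonneg h0 K]
  rw [inv_eq_one_div, le_div_iff₀ (by linarith)]
  exact h8

/-- convergence in terms of weighted norms -/
lemma conv_iff [Finite ι] (hN : IsNm N) (f : MvPowerSeries ι S) :
    ConvN N f ↔ ∃ R : ℝ, 0 < R ∧ w N (ENNReal.ofReal R) f < ⊤ := by
  constructor
  · rintro ⟨C, hC, h⟩
    refine ⟨(2 * C)⁻¹, by positivity, ?_⟩
    have h1 : w N (ENNReal.ofReal (2 * C)⁻¹) f ≤
        ∑' n : ι →₀ ℕ, ENNReal.ofReal C * ENNReal.ofReal (1 / 2) ^ n.degree := by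
      refine ENNReal.tsum_le_tsum fun n => ?_
      rw [← ENNReal.ofReal_pow (by positivity), ← ENNReal.ofReal_pow (by positivity), nE,
        ← ENNReal.ofReal_mul (hN.nonneg _), ← ENNReal.ofReal_mul hC.le]
      refine ENNReal.ofReal_le_ofReal ?_
      calc N (coeff n f) * (2 * C)⁻¹ ^ n.degree
          ≤ C ^ (n.degree + 1) * (2 * C)⁻¹ ^ n.degree :=
            mul_le_mul_of_nonneg_right (h n) (by positivity)
        _ = C * (C * (2 * C)⁻¹) ^ n.degree := by rw [pow_succ, mul_pow]; ring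
        _ = C * (1 / 2) ^ n.degree := by
            congr 2
            field_simp
    refine h1.trans_lt ?_
    rw [ENNReal.tsum_mul_left]
    exact ENNReal.mul_lt_top ENNReal.ofReal_lt_top
      ((geo (1 / 2) (by norm_num) (by norm_num)).trans_lt ENNReal.ofReal_lt_top)
  · rintro ⟨R, hR, h⟩
    set W : ℝ := (w N (ENNReal.ofReal R) f).toReal with hW
    have h1 : ∀ n : ι →₀ ℕ, N (coeff n f) * R ^ n.degree ≤ W := by
      intro n
      have h2 : nE N (coeff n f) * ENNReal.ofReal R ^ n.degree ≤ w N (ENNReal.ofReal R) f :=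
        ENNReal.le_tsum n
      have h3 := ENNReal.toReal_mono h.ne h2
      rwa [ENNReal.toReal_mul, ENNReal.toReal_pow, ENNReal.toReal_ofReal hR.le, nE,
        ENNReal.toReal_ofReal (hN.nonneg _)] at h3
    refine ⟨max (max W R⁻¹) 1, lt_of_lt_of_le one_pos (le_max_right _ _), fun n => ?_⟩
    set C : ℝ := max (max W R⁻¹) 1 with hC
    have hC1 : 1 ≤ C := le_max_right _ _
    have h4 : N (coeff n f) ≤ W * R⁻¹ ^ n.degree := by
      rw [inv_pow, ← div_eq_mul_inv, le_div_iff₀ (by positivity)]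
      exact h1 n
    refine h4.trans ?_
    rw [pow_succ, mul_comm (C ^ n.degree)]
    exact mul_le_mul ((le_max_left _ _).trans (le_max_left _ _))
      (pow_le_pow_left₀ (by positivity) ((le_max_right _ _).trans (le_max_left _ _)) _)
      (by positivity) (by positivity)

end W

lemma isNm_norm : IsNm (fun c : ℂ => ‖c‖) where
  nonneg := norm_nonneg
  neg := norm_neg
  add := norm_add_le
  mul a b := (norm_mul a b).le
  alg c := by simp

end CNVM

open CNVM

theorem specCNV : SpecCNV := by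
  refine ⟨?_, isNm_norm⟩
  intro S _ _ N hN ι _
  refine ⟨fun f g hf hg => ?_, fun c => ?_, fun i => ?_, fun f i hf => ?_⟩
  · obtain ⟨R, hR, h1⟩ := (conv_iff hN f).1 hf
    obtain ⟨R', hR', h2⟩ := (conv_iff hN g).1 hg
    set r : ℝ := min R R' with hr
    have hr0 : 0 < r := lt_min hR hR'
    have h1' : w N (ENNReal.ofReal r) f < ⊤ :=
      (w_mono (ENNReal.ofReal_le_ofReal (min_le_left _ _)) f).trans_lt h1
    have h2' : w N (ENNReal.ofReal r) g < ⊤ :=
      (w_mono (ENNReal.ofReal_le_ofReal (min_le_right _ _)) g).trans_lt h2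
    refine ⟨(conv_iff hN _).2 ⟨r, hr0, ?_⟩, (conv_iff hN _).2 ⟨r, hr0, ?_⟩,
      (conv_iff hN _).2 ⟨r, hr0, ?_⟩, (conv_iff hN _).2 ⟨r, hr0, ?_⟩⟩
    · exact (w_add hN _ f g).trans_lt (ENNReal.add_lt_top.2 ⟨h1', h2'⟩)
    · exact (w_mul hN _ f g).trans_lt (ENNReal.mul_lt_top h1' h2')
    · rw [w_neg hN]; exact h1'
    · rw [sub_eq_add_neg]
      refine (w_add hN _ f (-g)).trans_lt (ENNReal.add_lt_top.2 ⟨h1', ?_⟩)
      rw [w_neg hN]; exact h2'
  · exact (conv_iff hN _).2 ⟨1, one_pos, (w_C hN _ c).trans_lt ENNReal.ofReal_lt_top⟩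
  · exact (conv_iff hN _).2 ⟨1, one_pos, (w_X hN _ i).trans_lt ENNReal.ofReal_lt_top⟩
  · obtain ⟨C, hC, h⟩ := hf
    set D : ℝ := max C 1 with hD
    have hD1 : 1 ≤ D := le_max_right _ _
    refine ⟨2 * D ^ 2, by positivity, fun n => ?_⟩
    rw [coeff_pderiv, mul_comm]
    have h1 : ((n i : S) + 1) = ((n i + 1 : ℕ) : S) := by push_cast; ring
    rw [h1]
    refine (N_natCast_mul_le hN _ _).trans ?_
    have h2 : N (coeff (n + Finsupp.single i 1) f) ≤ D ^ (n.degree + 2) := by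
      refine (h _).trans ?_
      rw [map_add, Finsupp.degree_single]
      exact pow_le_pow_left₀ hC.le (le_max_left _ _) _
    have h3 : n i ≤ n.degree := by
      classical
      have := Fintype.ofFinite ι
      rw [Finsupp.degree_eq_sum]
      exact Finset.single_le_sum (f := fun i => n i) (fun _ _ => Nat.zero_le _)
        (Finset.mem_univ i)
    have h4 : ((n i + 1 : ℕ) : ℝ) ≤ 2 ^ (n.degree + 1) := by
      have h5 : n i + 1 ≤ 2 ^ (n.degree + 1) :=
        (Nat.lt_two_pow_self (n := n i + 1)).le.trans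
          (Nat.pow_le_pow_right (by norm_num) (by omega))
      exact_mod_cast h5
    calc ((n i + 1 : ℕ) : ℝ) * N (coeff (n + Finsupp.single i 1) f)
        ≤ 2 ^ (n.degree + 1) * D ^ (n.degree + 2) :=
          mul_le_mul h4 h2 (hN.nonneg _) (by positivity)
      _ ≤ 2 ^ (n.degree + 1) * (D ^ 2) ^ (n.degree + 1) := by
          refine mul_le_mul_of_nonneg_left ?_ (by positivity)
          rw [← pow_mul]
          exact pow_le_pow_right₀ hD1 (by omega)
      _ = (2 * D ^ 2) ^ (n.degree + 1) := by rw [mul_pow]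

end

end Pool.Agent.Lib.MP_2184e2_an.Loc
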