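import Pool.Agent.Lib.MP_2184e2_an.Loc.SpecF

/-!
# MP_2184e2_an, local theorem: the module CPT (calculus of `cpart`)
-/

set_option autoImplicit false

namespace Pool.Agent.Lib.MP_2184e2_an.Loc.CptM

open MvPowerSeries Filter Topology
open scoped ContDiff LaurentPolynomial

noncomputable section

/-- renaming along the associativity of sums -/
abbrev asc (ι ν μ : Type) : ι ⊕ (ν ⊕ μ) ≃ (ι ⊕ ν) ⊕ μ := (Equiv.sumAssoc ι ν μ).symm

theorem coeff_part {ι ν : Type} (b : ν →₀ ℕ) (f : PS (ι ⊕ ν)) (a : ι →₀ ℕ) :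
    coeff a (part b f) = coeff (Finsupp.sumElim a b) f := rfl

theorem part_ext {ι ν : Type} {f g : PS (ι ⊕ ν)} (h : ∀ b, part b f = part b g) : f = g := by
  ext n
  have h1 := h (n.comapDomain Sum.inr Sum.inr_injective.injOn)
  have h2 := congrArg (coeff (n.comapDomain Sum.inl Sum.inl_injective.injOn)) h1
  rw [coeff_part, coeff_part, Finsupp.comapDomain_sumElim_comapDomain] at h2
  exact h2

theorem part_add {ι ν : Type} (b : ν →₀ ℕ) (f g : PS (ι ⊕ ν)) :
    part b (f + g) = part b f + part b g := by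
  ext a
  simp [coeff_part]

theorem part_zero {ι ν : Type} (b : ν →₀ ℕ) : part b (0 : PS (ι ⊕ ν)) = 0 := by
  ext a
  simp [coeff_part]

theorem part_mul {ι ν : Type} [DecidableEq ν] (b : ν →₀ ℕ) (f g : PS (ι ⊕ ν)) :
    part b (f * g) = ∑ p ∈ Finset.HasAntidiagonal.antidiagonal b, part p.1 f * part p.2 g := by
  classical
  ext a
  rw [coeff_part, coeff_mul, map_sum]
  simp only [coeff_mul, coeff_part]
  rw [Finset.sum_comm, ← Finset.sum_product', ← Finsupp.image_sumElim_product_antidiagonal,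
    Finset.sum_image]
  rintro ⟨⟨x1, x2⟩, y1, y2⟩ _ ⟨⟨x1', x2'⟩, y1', y2'⟩ _ h
  simp only [Prod.mk.injEq] at h
  obtain ⟨h1, h2⟩ := h
  have e1 : x1 = x1' := by
    have := congrArg (fun t => Finsupp.comapDomain Sum.inl t Sum.inl_injective.injOn) h1
    simpa using this
  have e2 : y1 = y1' := by
    have := congrArg (fun t => Finsupp.comapDomain Sum.inr t Sum.inr_injective.injOn) h1
    simpa using this
  have e3 : x2 = x2' := by
    have := congrArg (fun t => Finsupp.comapDomain Sum.inl t Sum.inl_injective.injOn) h2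
    simpa using this
  have e4 : y2 = y2' := by
    have := congrArg (fun t => Finsupp.comapDomain Sum.inr t Sum.inr_injective.injOn) h2
    simpa using this
  subst e1 e2 e3 e4
  rfl

theorem part_inl {ι ν : Type} [Finite ι] [DecidableEq ν] (b : ν →₀ ℕ) (W : PS ι) :
    part b (rename (Sum.inl : ι → ι ⊕ ν) W) = if b = 0 then W else 0 := by
  classical
  ext a
  rw [coeff_part]
  by_cases hb : b = 0
  · subst hb
    have h := coeff_embDomain_rename (R := ℂ) (⟨Sum.inl, Sum.inl_injective⟩ : ι ↪ ι ⊕ ν) W a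
    rw [Finsupp.embDomain_eq_mapDomain] at h
    rw [if_pos rfl, ← h, Finsupp.sumElim_eq_add, Finsupp.mapDomain_zero, add_zero]
    rfl
  · rw [if_neg hb, coeff_zero]
    apply coeff_rename_eq_zero
    rintro ⟨c, hc⟩
    apply hb
    ext j
    have h1 := DFunLike.congr_fun hc (Sum.inr j)
    rw [Finsupp.sumElim_inr] at h1
    rw [← h1, Finsupp.mapDomain_of_notMem_range]
    · rfl
    · rintro ⟨x, hx⟩
      exact Sum.inl_ne_inr hx

theorem part_inl_mul {ι ν : Type} [Finite ι] [DecidableEq ν] (b : ν →₀ ℕ) (W : PS ι)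
    (f : PS (ι ⊕ ν)) : part b (rename (Sum.inl : ι → ι ⊕ ν) W * f) = W * part b f := by
  rw [part_mul, Finset.sum_eq_single (0, b)]
  · rw [part_inl, if_pos rfl]
  · rintro ⟨p, q⟩ hp hpq
    rw [Finset.HasAntidiagonal.mem_antidiagonal] at hp
    rw [part_inl, if_neg, zero_mul]
    rintro rfl
    apply hpq
    rw [zero_add] at hp
    simp only at hp
    rw [hp]
  · intro h
    exact absurd (Finset.HasAntidiagonal.mem_antidiagonal.mpr (zero_add b)) h

/-- monomials in the second group of variables -/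
theorem part_mon {ι ν : Type} [DecidableEq ν] (b c : ν →₀ ℕ) (W : PS ι) [Finite ι] :
    part b (rename (Sum.inl : ι → ι ⊕ ν) W * c.prod fun s n => X (Sum.inr s) ^ n) =
      if b = c then W else 0 := by
  classical
  rw [part_inl_mul]
  have h : (c.prod fun s n => (X (Sum.inr s) : PS (ι ⊕ ν)) ^ n) =
      monomial (Finsupp.sumElim 0 c) 1 := by
    rw [monomial_one_eq, Finsupp.prod_sumElim]
    simp [Finsupp.prod]
  rw [h]
  have h2 : part b (monomial (Finsupp.sumElim (0 : ι →₀ ℕ) c) (1 : ℂ)) = if b = c then 1 else 0 := by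
    ext a
    rw [coeff_part, coeff_monomial]
    by_cases hb : b = c
    · subst hb
      rw [if_pos rfl, coeff_one]
      by_cases ha : a = 0
      · subst ha; simp
      · rw [if_neg, if_neg ha]
        intro h3
        apply ha
        have := congrArg (fun t => Finsupp.comapDomain Sum.inl t Sum.inl_injective.injOn) h3
        simpa using this
    · rw [if_neg hb, if_neg, coeff_zero]
      intro h3
      apply hb
      have := congrArg (fun t => Finsupp.comapDomain Sum.inr t Sum.inr_injective.injOn) h3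
      simpa using this
  rw [h2]
  split_ifs <;> simp

/-- substitution which does not touch the second group of variables -/
theorem part_subst {κ β μ : Type} [Finite κ] [Finite β] [Finite μ] [DecidableEq μ]
    (A : κ → PS β) (hA : ∀ i, Z0 (A i)) (Θ : PS (κ ⊕ μ)) (b : μ →₀ ℕ) :
    part b (Θ.subst (Sum.elim (fun i => rename (Sum.inl : β → β ⊕ μ) (A i))
      (fun j => (X (Sum.inr j) : PS (β ⊕ μ))))) = (part b Θ).subst A := by
  classical
  have hs : HasSubst (Sum.elim (fun i => rename (Sum.inl : β → β ⊕ μ) (A i))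
      (fun j => (X (Sum.inr j) : PS (β ⊕ μ)))) := by
    apply hasSubst_of_constantCoeff_zero
    rintro (i | j)
    · have h := hA i
      unfold Z0 at h
      simpa using h
    · simp
  have hs' : HasSubst A := hasSubst_of_constantCoeff_zero hA
  ext a
  rw [coeff_part, coeff_subst hs, coeff_subst hs']
  have key : ∀ d : κ ⊕ μ →₀ ℕ, coeff d Θ • coeff (Finsupp.sumElim a b)
      (d.prod fun s n => (Sum.elim (fun i => rename (Sum.inl : β → β ⊕ μ) (A i))
      (fun j => (X (Sum.inr j) : PS (β ⊕ μ)))) s ^ n) =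
      if d.comapDomain Sum.inr Sum.inr_injective.injOn = b then
        coeff d Θ • coeff a ((d.comapDomain Sum.inl Sum.inl_injective.injOn).prod
          fun s n => A s ^ n) else 0 := by
    intro d
    obtain ⟨d1, d2, rfl⟩ : ∃ d1 d2, d = Finsupp.sumElim d1 d2 :=
      ⟨_, _, (Finsupp.comapDomain_sumElim_comapDomain d).symm⟩
    rw [Finsupp.prod_sumElim, Finsupp.comapDomain_inl_sumElim, Finsupp.comapDomain_inr_sumElim]
    have e1 : (d1.prod ((fun s n => (Sum.elim (fun i => rename (Sum.inl : β → β ⊕ μ) (A i))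
      (fun j => (X (Sum.inr j) : PS (β ⊕ μ)))) s ^ n) ∘ Sum.inl)) =
      rename (Sum.inl : β → β ⊕ μ) (d1.prod fun s n => A s ^ n) := by
      simp [Finsupp.prod]
    have e2 : (d2.prod ((fun s n => (Sum.elim (fun i => rename (Sum.inl : β → β ⊕ μ) (A i))
      (fun j => (X (Sum.inr j) : PS (β ⊕ μ)))) s ^ n) ∘ Sum.inr)) =
      d2.prod fun s n => (X (Sum.inr s) : PS (β ⊕ μ)) ^ n := by
      simp [Finsupp.prod]
    rw [e1, e2, ← coeff_part b (_ * _) a, part_mon]
    by_cases hb : b = d2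
    · rw [if_pos hb, if_pos hb.symm]
    · rw [if_neg hb, if_neg (Ne.symm hb), coeff_zero, smul_zero]
  rw [finsum_congr key]
  have hinj : Function.Injective (fun d1 : κ →₀ ℕ => (Finsupp.sumElim d1 b : κ ⊕ μ →₀ ℕ)) := by
    intro x y hxy
    have := congrArg (fun t => Finsupp.comapDomain Sum.inl t Sum.inl_injective.injOn) hxy
    simpa using this
  have h1 := finsum_mem_range (f := fun d : κ ⊕ μ →₀ ℕ =>
    if d.comapDomain Sum.inr Sum.inr_injective.injOn = b then
        coeff d Θ • coeff a ((d.comapDomain Sum.inl Sum.inl_injective.injOn).prod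
          fun s n => A s ^ n) else 0) hinj
  rw [← finsum_mem_univ, finsum_mem_inter_support_eq _ _ (Set.range
    (fun d1 : κ →₀ ℕ => (Finsupp.sumElim d1 b : κ ⊕ μ →₀ ℕ)))]
  · rw [h1]
    apply finsum_congr
    intro d1
    simp only [Finsupp.comapDomain_inl_sumElim, Finsupp.comapDomain_inr_sumElim, if_true]
    rfl
  · ext d
    simp only [Set.univ_inter, Set.mem_inter_iff, Function.mem_support, ne_eq, Set.mem_range]
    constructor
    · intro h
      refine ⟨⟨d.comapDomain Sum.inl Sum.inl_injective.injOn, ?_⟩, h⟩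
      have hb : d.comapDomain Sum.inr Sum.inr_injective.injOn = b := by
        by_contra hb
        exact h (if_neg hb)
      rw [← hb]
      exact Finsupp.comapDomain_sumElim_comapDomain d
    · rintro ⟨_, h⟩
      exact h

theorem part_pderiv {ι ν : Type} (b : ν →₀ ℕ) (f : PS (ι ⊕ ν)) (i : ι) :
    part b (pderiv ℂ (Sum.inl i) f) = pderiv ℂ i (part b f) := by
  ext a
  rw [coeff_part, coeff_pderiv, coeff_pderiv, coeff_part, Finsupp.sumElim_inl]
  have h : Finsupp.sumElim a b + Finsupp.single (Sum.inl i) 1 =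
      Finsupp.sumElim (a + Finsupp.single i 1) b := by
    classical
    ext x
    rcases x with x | x
    · simp [Finsupp.single_apply]
    · simp
  rw [h]

/-- the exponents of `cpart` -/
def Ex {ι ν μ : Type} (a : ι ⊕ ν →₀ ℕ) (γ : μ →₀ ℕ) : ι ⊕ (ν ⊕ μ) →₀ ℕ :=
  a.mapDomain (Sum.map id Sum.inl) + γ.mapDomain (fun j => (Sum.inr (Sum.inr j) : ι ⊕ (ν ⊕ μ)))

theorem map_inj {ι ν μ : Type} :
    Function.Injective (Sum.map id Sum.inl : ι ⊕ ν → ι ⊕ (ν ⊕ μ)) :=
  Function.Injective.sumMap Function.injective_id Sum.inl_injective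

theorem rr_inj {ι ν μ : Type} :
    Function.Injective (fun j => (Sum.inr (Sum.inr j) : ι ⊕ (ν ⊕ μ))) := by
  intro x y h
  simpa using h

theorem Ex_inl {ι ν μ : Type} (a : ι ⊕ ν →₀ ℕ) (γ : μ →₀ ℕ) (i : ι) :
    Ex a γ (Sum.inl i) = a (Sum.inl i) := by
  unfold Ex
  rw [Finsupp.add_apply]
  have h1 : (a.mapDomain (Sum.map id Sum.inl : ι ⊕ ν → ι ⊕ (ν ⊕ μ))) (Sum.inl i) =
      a (Sum.inl i) := Finsupp.mapDomain_apply map_inj a (Sum.inl i)
  rw [h1, Finsupp.mapDomain_of_notMem_range, add_zero]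
  rintro ⟨x, hx⟩
  exact Sum.inr_ne_inl hx

theorem Ex_inrl {ι ν μ : Type} (a : ι ⊕ ν →₀ ℕ) (γ : μ →₀ ℕ) (i : ν) :
    Ex a γ (Sum.inr (Sum.inl i)) = a (Sum.inr i) := by
  unfold Ex
  rw [Finsupp.add_apply]
  have h1 : (a.mapDomain (Sum.map id Sum.inl : ι ⊕ ν → ι ⊕ (ν ⊕ μ))) (Sum.inr (Sum.inl i)) =
      a (Sum.inr i) := Finsupp.mapDomain_apply map_inj a (Sum.inr i)
  rw [h1, Finsupp.mapDomain_of_notMem_range, add_zero]
  rintro ⟨x, hx⟩
  exact Sum.inr_ne_inl (Sum.inr_injective hx)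

theorem Ex_inrr {ι ν μ : Type} (a : ι ⊕ ν →₀ ℕ) (γ : μ →₀ ℕ) (i : μ) :
    Ex a γ (Sum.inr (Sum.inr i)) = γ i := by
  unfold Ex
  rw [Finsupp.add_apply]
  have h1 : (γ.mapDomain (fun j => (Sum.inr (Sum.inr j) : ι ⊕ (ν ⊕ μ)))) (Sum.inr (Sum.inr i)) =
      γ i := Finsupp.mapDomain_apply rr_inj γ i
  rw [h1, Finsupp.mapDomain_of_notMem_range, zero_add]
  rintro ⟨x | x, hx⟩
  · exact Sum.inl_ne_inr hx
  · exact Sum.inl_ne_inr (Sum.inr_injective hx)

theorem coeff_cpart {ι ν μ : Type} (γ : μ →₀ ℕ) (f : PS (ι ⊕ (ν ⊕ μ))) (a : ι ⊕ ν →₀ ℕ) :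
    coeff a (cpart γ f) = coeff (Ex a γ) f := rfl

theorem Ex_eq_iff {ι ν μ : Type} (a : ι ⊕ ν →₀ ℕ) (γ : μ →₀ ℕ) (e : ι ⊕ (ν ⊕ μ) →₀ ℕ) :
    e = Ex a γ ↔ (∀ i, e (Sum.inl i) = a (Sum.inl i)) ∧
      (∀ i, e (Sum.inr (Sum.inl i)) = a (Sum.inr i)) ∧ ∀ i, e (Sum.inr (Sum.inr i)) = γ i := by
  constructor
  · rintro rfl
    exact ⟨Ex_inl a γ, Ex_inrl a γ, Ex_inrr a γ⟩
  · rintro ⟨h1, h2, h3⟩
    ext (x | x | x)
    · rw [h1, Ex_inl]
    · rw [h2, Ex_inrl]
    · rw [h3, Ex_inrr]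

theorem cpart_eq {ι ν μ : Type} [Finite ι] [Finite ν] [Finite μ] (γ : μ →₀ ℕ)
    (f : PS (ι ⊕ (ν ⊕ μ))) : cpart γ f = part γ (rename (asc ι ν μ) f) := by
  ext a
  rw [coeff_cpart, coeff_part]
  have h := coeff_embDomain_rename (R := ℂ) (asc ι ν μ).toEmbedding f (Ex a γ)
  rw [← h, Finsupp.embDomain_eq_mapDomain]
  congr 2
  ext x
  have h2 : (Finsupp.mapDomain (asc ι ν μ).toEmbedding (Ex a γ)) x =
      Ex a γ ((asc ι ν μ).symm x) := by
    have h3 := Finsupp.mapDomain_apply (asc ι ν μ).injective (Ex a γ) ((asc ι ν μ).symm x)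
    rw [Equiv.apply_symm_apply] at h3
    exact h3
  rw [h2]
  rcases x with (x | x) | x
  · exact Ex_inl a γ x
  · exact Ex_inrl a γ x
  · exact Ex_inrr a γ x

theorem incG_eq {ι ν μ : Type} [Finite ι] [Finite ν] [Finite μ] (W : PS (ι ⊕ ν)) :
    W.subst (incG : ι ⊕ ν → PS (ι ⊕ (ν ⊕ μ))) =
      rename (Sum.map id Sum.inl : ι ⊕ ν → ι ⊕ (ν ⊕ μ)) W := by
  rw [rename_eq_subst]
  congr 1
  funext x
  rcases x with x | x <;> rfl

theorem asc_incG {ι ν μ : Type} [Finite ι] [Finite ν] [Finite μ] (W : PS (ι ⊕ ν)) :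
    rename (asc ι ν μ) (W.subst (incG : ι ⊕ ν → PS (ι ⊕ (ν ⊕ μ)))) =
      rename (Sum.inl : ι ⊕ ν → (ι ⊕ ν) ⊕ μ) W := by
  rw [incG_eq, rename_rename]
  congr 1
  congr 1
  funext x
  rcases x with x | x <;> rfl

theorem cpart_ext {ι ν μ : Type} [Finite ι] [Finite ν] [Finite μ] (f : PS (ι ⊕ (ν ⊕ μ)))
    (h : ∀ γ : μ →₀ ℕ, cpart γ f = 0) : f = 0 := by
  have h1 : rename (asc ι ν μ) f = 0 := by
    apply part_ext
    intro b
    rw [← cpart_eq, h, part_zero]
  exact rename_injective (asc ι ν μ).toEmbedding (h1.trans (map_zero _).symm)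

theorem cpart_subst {ι ν μ κ : Type} [Finite ι] [Finite ν] [Finite μ] [Finite κ]
    (Θ : PS (κ ⊕ (ν ⊕ μ))) (B : κ → PS (ι ⊕ ν)) (γ : μ →₀ ℕ) (hB : ∀ i, Z0 (B i)) :
    cpart γ (Θ.subst (Sum.elim (fun i => (B i).subst (incG : ι ⊕ ν → PS (ι ⊕ (ν ⊕ μ))))
      (fun j => (X (Sum.inr j) : PS (ι ⊕ (ν ⊕ μ)))))) =
      (cpart γ Θ).subst (Sum.elim B (fun j => (X (Sum.inr j) : PS (ι ⊕ ν)))) := by
  classical
  rw [cpart_eq, cpart_eq]
  have hA : ∀ i, Z0 (Sum.elim B (fun j => (X (Sum.inr j) : PS (ι ⊕ ν))) i) := by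
    rintro (i | i)
    · exact hB i
    · simp [Z0]
  rw [← part_subst (μ := μ) _ hA]
  congr 1
  have hs1 : HasSubst (Sum.elim (fun i => (B i).subst (incG : ι ⊕ ν → PS (ι ⊕ (ν ⊕ μ))))
      (fun j => (X (Sum.inr j) : PS (ι ⊕ (ν ⊕ μ))))) := by
    apply hasSubst_of_constantCoeff_zero
    rintro (i | j)
    · have h := hB i
      unfold Z0 at h
      rw [Sum.elim_inl, incG_eq]
      simpa using h
    · simp
  have hs2 : HasSubst (Sum.elim (fun i => rename (Sum.inl : ι ⊕ ν → (ι ⊕ ν) ⊕ μ)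
      (Sum.elim B (fun j => (X (Sum.inr j) : PS (ι ⊕ ν))) i))
      (fun j => (X (Sum.inr j) : PS ((ι ⊕ ν) ⊕ μ)))) := by
    apply hasSubst_of_constantCoeff_zero
    rintro (i | j)
    · have h := hA i
      unfold Z0 at h
      simpa using h
    · simp
  rw [rename_eq_subst, rename_eq_subst, subst_comp_subst_apply hs1 (HasSubst.X_comp _),
    subst_comp_subst_apply (HasSubst.X_comp _) hs2]
  congr 1
  funext x
  rcases x with x | x | x
  · rw [Sum.elim_inl, ← rename_eq_subst, asc_incG]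
    simp only [Function.comp_apply]
    rw [subst_X hs2]
    rfl
  · rw [Sum.elim_inr, subst_X (HasSubst.X_comp _)]
    simp only [Function.comp_apply]
    rw [subst_X hs2]
    simp [asc, Equiv.sumAssoc]
  · rw [Sum.elim_inr, subst_X (HasSubst.X_comp _)]
    simp only [Function.comp_apply]
    rw [subst_X hs2]
    simp [asc, Equiv.sumAssoc]

end

end Pool.Agent.Lib.MP_2184e2_an.Loc.CptM

namespace Pool.Agent.Lib.MP_2184e2_an.Loc

open MvPowerSeries CptM

theorem specCPT : SpecCPT := by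
  intro ι ν μ _ _ _ _ _ _
  refine ⟨fun f hf => cpart_ext f hf, ?_, ?_, ?_, ?_, ?_, ?_⟩
  · intro f g γ
    ext a
    simp [coeff_cpart]
  · intro γ
    ext a
    simp [coeff_cpart]
  · intro W f γ
    rw [cpart_eq, cpart_eq, map_mul, asc_incG, part_inl_mul]
  · intro f γ hf b
    have h := hf (Finsupp.sumElim b γ)
    have e : part b (cpart γ f) = part (Finsupp.sumElim b γ) f := by
      ext a
      rw [coeff_part, coeff_part, coeff_cpart]
      congr 1
      congr 1
      symm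
      rw [Ex_eq_iff]
      exact ⟨fun _ => rfl, fun _ => rfl, fun _ => rfl⟩
    rw [e]
    exact h
  · intro f γ i
    ext a
    rw [coeff_cpart, coeff_pderiv, coeff_pderiv, coeff_cpart, Ex_inl]
    have e : Ex a γ + Finsupp.single (Sum.inl i) 1 = Ex (a + Finsupp.single (Sum.inl i) 1) γ := by
      rw [Ex_eq_iff]
      refine ⟨fun j => ?_, fun j => ?_, fun j => ?_⟩
      · rw [Finsupp.add_apply, Finsupp.add_apply, Ex_inl]
        simp [Finsupp.single_apply]
      · rw [Finsupp.add_apply, Finsupp.add_apply, Ex_inrl]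
        simp
      · rw [Finsupp.add_apply, Ex_inrr]
        simp
    rw [e]
  · intro N Θ Y γ hY
    have hB : ∀ i : ι ⊕ Fin N, Z0 (Sum.elim (fun t => (X (Sum.inl t) : PS (ι ⊕ ν))) Y i) := by
      rintro (i | i)
      · simp [Z0]
      · exact hY i
    have h := cpart_subst (μ := μ) Θ _ γ hB
    have e1 : (insY fun i => (Y i).subst (incG : ι ⊕ ν → PS (ι ⊕ (ν ⊕ μ)))) =
        Sum.elim (fun i : ι ⊕ Fin N => (Sum.elim (fun t => (X (Sum.inl t) : PS (ι ⊕ ν))) Y i).subst
          (incG : ι ⊕ ν → PS (ι ⊕ (ν ⊕ μ)))) (fun j => (X (Sum.inr j) : PS (ι ⊕ (ν ⊕ μ)))) := by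
      funext x
      rcases x with (x | x) | x
      · simp only [insY, Sum.elim_inl]
        rw [incG_eq, rename_X]
        rfl
      · rfl
      · rfl
    rw [e1, h]
    rfl

end Pool.Agent.Lib.MP_2184e2_an.Loc
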