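import Pool.Agent.Lib.MP_2184e2_an.Loc.Cal

/-!
# MP_2184e2_an, local theorem: module SHM (shifting and unshifting)
-/

set_option autoImplicit false

namespace Pool.Agent.Lib.MP_2184e2_an.Loc.ShmM

open MvPowerSeries Filter Topology CalM

noncomputable section

variable {ι T : Type}

theorem z0_iL : ∀ t : T, Z0 ((iL : T → PS (T ⊕ ι)) t) := fun _ => z0_X _
theorem z0_iR : ∀ t : ι, Z0 ((iR : ι → PS (T ⊕ ι)) t) := fun _ => z0_X _

theorem z0_sh [Finite T] {v : ι → PS T} (hv : ∀ i, Z0 (v i)) (i : ι) : Z0 (sh v i) :=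
  z0_add (z0_subst (hv i) (fun _ => z0_X _)) (z0_X _)

theorem z0_shm [Finite T] {v : ι → PS T} (hv : ∀ i, Z0 (v i)) (i : T ⊕ ι) : Z0 (shm v i) :=
  z0_elim (fun _ => z0_X _) (fun i => z0_sub (z0_X _) (z0_subst (hv i) z0_iL)) i

/-- `σ ↦ σ + v(x)`: the inverse of `shm v` -/
def shp (v : ι → PS T) : T ⊕ ι → PS (T ⊕ ι) :=
  Sum.elim (fun t => X (Sum.inl t)) (fun i => X (Sum.inr i) + (v i).subst iL)

theorem z0_shp [Finite T] {v : ι → PS T} (hv : ∀ i, Z0 (v i)) (i : T ⊕ ι) : Z0 (shp v i) :=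
  z0_elim (fun _ => z0_X _) (fun i => z0_add (z0_X _) (z0_subst (hv i) z0_iL)) i

theorem sh_shm [Finite T] [Finite ι] {v : ι → PS T} (hv : ∀ i, Z0 (v i)) (i : ι) :
    (sh v i).subst (shm v) = (X (Sum.inr i) : PS (T ⊕ ι)) := by
  unfold sh
  rw [subst_add (hs (z0_shm hv)), ss (fun _ => z0_X _) (z0_shm hv), s_X (z0_shm hv)]
  have h1 : (fun t : T => (X (Sum.inl t) : PS (T ⊕ ι)).subst (shm v)) = iL := by
    funext t
    rw [s_X (z0_shm hv)]
    rfl
  rw [h1]
  change _ + (X (Sum.inr i) - (v i).subst iL) = _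
  ring

theorem shm_shp [Finite T] [Finite ι] {v : ι → PS T} (hv : ∀ i, Z0 (v i)) (i : T ⊕ ι) :
    (shm v i).subst (shp v) = (X i : PS (T ⊕ ι)) := by
  rcases i with t | i
  · change (X (Sum.inl t) : PS (T ⊕ ι)).subst (shp v) = _
    rw [s_X (z0_shp hv)]
    rfl
  · change ((X (Sum.inr i) : PS (T ⊕ ι)) - (v i).subst iL).subst (shp v) = _
    rw [subst_sub (hs (z0_shp hv)), ss z0_iL (z0_shp hv), s_X (z0_shp hv)]
    have h1 : (fun t : T => ((iL : T → PS (T ⊕ ι)) t).subst (shp v)) = iL := by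
      funext t
      unfold iL
      rw [s_X (z0_shp hv)]
      rfl
    rw [h1]
    change (X (Sum.inr i) + (v i).subst iL) - (v i).subst iL = _
    ring

end

end Pool.Agent.Lib.MP_2184e2_an.Loc.ShmM

namespace Pool.Agent.Lib.MP_2184e2_an.Loc

open MvPowerSeries CalM ShmM in
/-- SHM: shifting and unshifting. -/
theorem specSHM : SpecSHM := by
  intro ι T _ _ v hv
  have key : ∀ f : PS ι, (f.subst (sh v)).subst (shm v) = f.subst (iR : ι → PS (T ⊕ ι)) := by
    intro f
    rw [ss (z0_sh hv) (z0_shm hv)]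
    congr 1
    funext i
    exact sh_shm hv i
  refine ⟨?_, ?_, key, ?_⟩
  · intro f hf
    have h1 := key f
    rw [hf, s_zero (z0_shm hv)] at h1
    ext n
    rw [← iR_coeff (ι := T) f n, ← h1]
    simp
  · intro f hf
    have h1 : f.subst (shm v) = 0 := by
      ext n
      obtain ⟨a, b, rfl⟩ := exists_sumElim n
      rw [← coeff_xpart, hf a]
      simp
    have h2 : (f.subst (shm v)).subst (shp v) = f := by
      rw [ss (z0_shm hv) (z0_shp hv)]
      have h3 : (fun i => (shm v i).subst (shp v)) = fun i => (X i : PS (T ⊕ ι)) := by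
        funext i
        exact shm_shp hv i
      rw [h3, s_self]
    rw [← h2, h1, s_zero (z0_shp hv)]
  · intro f
    have hE : ∀ i, Z0 ((Sum.elim (fun i => (X i : PS T)) (fun _ : ι => (0 : PS T))) i) :=
      z0_elim (fun i => z0_X _) (fun i => z0_zero)
    rw [← part_zero, ss (z0_sh hv) hE]
    congr 1
    funext i
    unfold sh
    rw [subst_add (hs hE), ss (fun _ => z0_X _) hE, s_X hE]
    have h1 : (fun t : T => (X (Sum.inl t) : PS (T ⊕ ι)).subst
        (Sum.elim (fun i => (X i : PS T)) (fun _ : ι => (0 : PS T)))) = fun t => X t := by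
      funext t
      rw [s_X hE]
      rfl
    rw [h1, s_self]
    simp

end Pool.Agent.Lib.MP_2184e2_an.Loc
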