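import Pool.Agent.Lib.MP_2184e2_an.Loc.Seg
import Pool.Agent.Lib.MP_2184e2_an.Loc.Shm

/-!
# MP_2184e2_an, local theorem: module EXTR
-/

set_option autoImplicit false

namespace Pool.Agent.Lib.MP_2184e2_an.Loc.ExtrM

open MvPowerSeries Filter Topology CalM SegM ShmM

noncomputable section

variable {m d : ℕ} {T : Type}

/-- `x ↦ x`, `σ ↦ Zc Q - v(x)`, `χ' ↦ χ - b(x)` -/
def Phi (Q : Fin d → PS (Mi m d)) (v : Zi m d → PS T) (b : Fin m → PS T) :
    T ⊕ (Zi m d ⊕ Fin m) → PS (T ⊕ Mi m d) :=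
  Sum.elim (fun t => X (Sum.inl t)) (Sum.elim (fun i => (Zc Q i).subst iR - (v i).subst iL)
    (fun j => X (Sum.inr (Sum.inr (Sum.inl j))) - (b j).subst iL))

theorem z0_Phi [Finite T] {Q : Fin d → PS (Mi m d)} (hQ : ∀ l, Z0 (Q l)) {v : Zi m d → PS T}
    {b : Fin m → PS T} (hv : ∀ i, Z0 (v i)) (hb : ∀ j, Z0 (b j)) : ∀ i, Z0 (Phi Q v b i) := by
  apply z0_elim (fun _ => z0_X _)
  apply z0_elim
  · intro i
    exact z0_sub (z0_subst (z0_Zc hQ i) z0_iR) (z0_subst (hv i) z0_iL)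
  · intro j
    exact z0_sub (z0_X _) (z0_subst (hb j) z0_iL)

/-- the inclusion `x ↦ x` followed by `Φ` -/
theorem L_Phi [Finite T] {Q : Fin d → PS (Mi m d)} (hQ : ∀ l, Z0 (Q l)) {v : Zi m d → PS T}
    {b : Fin m → PS T} (hv : ∀ i, Z0 (v i)) (hb : ∀ j, Z0 (b j)) (f : PS T) :
    (f.subst (fun t => (X (Sum.inl t) : PS (T ⊕ (Zi m d ⊕ Fin m))))).subst (Phi Q v b) =
      f.subst iL := by
  rw [ss (fun _ => z0_X _) (z0_Phi hQ hv hb)]
  congr 1
  funext t
  rw [s_X (z0_Phi hQ hv hb)]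
  rfl

/-- the point `pt Q v b` is mapped to `(z, ζ)` -/
theorem pt_Phi [Finite T] {Q : Fin d → PS (Mi m d)} (hQ : IsSeg0 Q) {v : Zi m d → PS T}
    {b : Fin m → PS T} (hv : ∀ i, Z0 (v i)) (hb : ∀ j, Z0 (b j)) (i : Mi m d) :
    (pt Q v b i).subst (Phi Q v b) = (X (Sum.inr i) : PS (T ⊕ Mi m d)) := by
  have hP := z0_Phi hQ.zero hv hb
  -- the point `Z`
  have hZ : ∀ i : Zi m d, ((v i).subst (fun t => (X (Sum.inl t) :
      PS (T ⊕ (Zi m d ⊕ Fin m)))) + X (Sum.inr (Sum.inl i))).subst (Phi Q v b) =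
      (Zc Q i).subst iR := by
    intro i
    rw [subst_add (hs hP), L_Phi hQ.zero hv hb, s_X hP]
    change (v i).subst iL + ((Zc Q i).subst iR - (v i).subst iL) = _
    ring
  have hZ0 : ∀ i : Zi m d, Z0 ((v i).subst (fun t => (X (Sum.inl t) :
      PS (T ⊕ (Zi m d ⊕ Fin m)))) + X (Sum.inr (Sum.inl i))) :=
    fun i => z0_add (z0_subst (hv i) (fun _ => z0_X _)) (z0_X _)
  have hb' : ∀ j : Fin m, ((b j).subst (fun t => (X (Sum.inl t) :
      PS (T ⊕ (Zi m d ⊕ Fin m)))) + X (Sum.inr (Sum.inr j))).subst (Phi Q v b) =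
      (X (Sum.inr (Sum.inr (Sum.inl j))) : PS (T ⊕ Mi m d)) := by
    intro j
    rw [subst_add (hs hP), L_Phi hQ.zero hv hb, s_X hP]
    change (b j).subst iL + (X (Sum.inr (Sum.inr (Sum.inl j))) - (b j).subst iL) = _
    ring
  have hb0 : ∀ j : Fin m, Z0 ((b j).subst (fun t => (X (Sum.inl t) :
      PS (T ⊕ (Zi m d ⊕ Fin m)))) + X (Sum.inr (Sum.inr j))) :=
    fun j => z0_add (z0_subst (hb j) (fun _ => z0_X _)) (z0_X _)
  rcases i with j | i
  · change ((v (Sum.inl j)).subst (fun t => (X (Sum.inl t) :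
      PS (T ⊕ (Zi m d ⊕ Fin m)))) + X (Sum.inr (Sum.inl (Sum.inl j)))).subst (Phi Q v b) = _
    rw [hZ]
    change (X (Sum.inl j) : PS (Mi m d)).subst iR = _
    rw [s_X z0_iR]
    rfl
  · change (pr (cjQ Q) (fun j => (b j).subst (fun t => (X (Sum.inl t) :
      PS (T ⊕ (Zi m d ⊕ Fin m)))) + X (Sum.inr (Sum.inr j))) (fun i => (v i).subst (fun t =>
      (X (Sum.inl t) : PS (T ⊕ (Zi m d ⊕ Fin m)))) + X (Sum.inr (Sum.inl i))) i).subst
        (Phi Q v b) = _
    rw [pr_subst hb0 hZ0 hP]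
    simp only [hZ, hb']
    rcases i with j | l
    · rfl
    · change (cj (Q l)).subst (Sum.elim (fun j => (X (Sum.inr (Sum.inr (Sum.inl j))) :
        PS (T ⊕ Mi m d))) (fun i => (Zc Q i).subst iR)) = _
      have h1 := congrArg (fun f => f.subst (iR : Mi m d → PS (T ⊕ Mi m d))) (real' hQ l)
      rw [s_X z0_iR, ss (z0_elim (fun _ => z0_X _) (z0_Zc hQ.zero)) z0_iR] at h1
      change _ = (X (Sum.inr (Sum.inr (Sum.inr l))) : PS (T ⊕ Mi m d)) at h1
      rw [← h1]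
      congr 1
      funext i
      rcases i with j | i
      · simp only [Sum.elim_inl]
        rw [s_X z0_iR]
        rfl
      · rfl

end

end Pool.Agent.Lib.MP_2184e2_an.Loc.ExtrM

namespace Pool.Agent.Lib.MP_2184e2_an.Loc

open MvPowerSeries CalM SegM ShmM ExtrM in
/-- EXTR: linear relations with coefficients depending on parameters can be made parameter free. -/
theorem specEXTR : SpecEXTR := by
  intro m d n Q hQ T _ _ v b hv hb G W hrel α
  have hP := z0_Phi hQ.zero hv hb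
  have hinc : ∀ i, Z0 ((incG : T ⊕ Zi m d → PS (T ⊕ (Zi m d ⊕ Fin m))) i) :=
    z0_elim (fun _ => z0_X _) (fun _ => z0_X _)
  have hpt : ∀ i, Z0 (pt Q v b i) := by
    apply z0_elim
    · intro j
      exact z0_add (z0_subst (hv _) (fun _ => z0_X _)) (z0_X _)
    · apply z0_pr (z0_cjQ hQ.zero)
      · intro j
        exact z0_add (z0_subst (hb _) (fun _ => z0_X _)) (z0_X _)
      · intro i
        exact z0_add (z0_subst (hv _) (fun _ => z0_X _)) (z0_X _)
  have h1 := congrArg (fun f => xpart α (f.subst (Phi Q v b))) hrel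
  rw [s_zero hP, xpart_zero, s_sum hP, xpart_sum] at h1
  rw [← h1]
  apply Finset.sum_congr rfl
  intro k _
  rw [subst_mul (hs hP)]
  have h2 : ((G k).subst (pt Q v b)).subst (Phi Q v b) =
      (G k).subst (iR : Mi m d → PS (T ⊕ Mi m d)) := by
    rw [ss hpt hP]
    congr 1
    funext i
    exact pt_Phi hQ hv hb i
  have hc : ∀ i, Z0 ((Sum.elim (iL : T → PS (T ⊕ Mi m d))
      (fun i => (Zc Q i).subst (iR : Mi m d → PS (T ⊕ Mi m d)))) i) :=
    z0_elim z0_iL (fun i => z0_subst (z0_Zc hQ.zero i) z0_iR)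
  have h3 : ((W k).subst (incG : T ⊕ Zi m d → PS (T ⊕ (Zi m d ⊕ Fin m)))).subst (Phi Q v b) =
      ((W k).subst (shm v)).subst (Sum.elim (iL : T → PS (T ⊕ Mi m d))
        (fun i => (Zc Q i).subst (iR : Mi m d → PS (T ⊕ Mi m d)))) := by
    rw [ss hinc hP, ss (z0_shm hv) hc]
    congr 1
    funext i
    rcases i with t | i
    · change (X (Sum.inl t) : PS (T ⊕ (Zi m d ⊕ Fin m))).subst (Phi Q v b) =
        (X (Sum.inl t) : PS (T ⊕ Zi m d)).subst _
      rw [s_X hP, s_X hc]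
      rfl
    · change (X (Sum.inr (Sum.inl i)) : PS (T ⊕ (Zi m d ⊕ Fin m))).subst (Phi Q v b) =
        ((X (Sum.inr i) : PS (T ⊕ Zi m d)) - (v i).subst iL).subst _
      rw [s_X hP, subst_sub (hs hc), s_X hc, ss z0_iL hc]
      have h4 : (fun t : T => ((iL : T → PS (T ⊕ Zi m d)) t).subst
          (Sum.elim (iL : T → PS (T ⊕ Mi m d))
            (fun i => (Zc Q i).subst (iR : Mi m d → PS (T ⊕ Mi m d))))) = iL := by
        funext t
        exact s_X hc (Sum.inl t)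
      rw [h4]
      rfl
  rw [h2, h3, xpart_mul_iR, xpart_subst _ (z0_Zc hQ.zero)]

end Pool.Agent.Lib.MP_2184e2_an.Loc
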