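import Pool.Agent.Lib.MP_2184e2_an.Loc.SpecF

section
/-!
# GERM, part 1: tools (truncation, Taylor's formula, convergent series)
-/
set_option autoImplicit false

namespace Pool.Agent.Lib.MP_2184e2_an.Loc

open MvPowerSeries Filter Topology

noncomputable section

namespace GermM

/-! ### equality up to a degree -/

/-- equality of the coefficients of degree `< k` -/
def Eq (k : ℕ) {ι : Type} (f g : PS ι) : Prop := ∀ n : ι →₀ ℕ, n.degree < k → coeff n f = coeff n g

theorem Eq.add {k : ℕ} {ι : Type} {f g f' g' : PS ι} (h : Eq k f g) (h' : Eq k f' g') :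
    Eq k (f + f') (g + g') := by
  intro n hn
  rw [map_add, map_add, h n hn, h' n hn]

theorem Eq.sub {k : ℕ} {ι : Type} {f g f' g' : PS ι} (h : Eq k f g) (h' : Eq k f' g') :
    Eq k (f - f') (g - g') := by
  intro n hn
  rw [map_sub, map_sub, h n hn, h' n hn]

theorem Eq.refl (k : ℕ) {ι : Type} (f : PS ι) : Eq k f f := fun _ _ => rfl

theorem Eq.mul {k : ℕ} {ι : Type} {f g f' g' : PS ι} (h : Eq k f g) (h' : Eq k f' g') :
    Eq k (f * f') (g * g') := by
  classical
  intro n hn
  rw [coeff_mul, coeff_mul]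
  refine Finset.sum_congr rfl fun p hp => ?_
  rw [Finset.HasAntidiagonal.mem_antidiagonal] at hp
  have h1 : p.1.degree + p.2.degree = n.degree := by rw [← map_add, hp]
  rw [h p.1 (by omega), h' p.2 (by omega)]

theorem Eq.sum {k : ℕ} {ι κ : Type} (s : Finset κ) {f g : κ → PS ι} (h : ∀ i, Eq k (f i) (g i)) :
    Eq k (∑ i ∈ s, f i) (∑ i ∈ s, g i) := by
  intro n hn
  rw [map_sum, map_sum]
  exact Finset.sum_congr rfl fun i _ => h i n hn

theorem hs {κ ι : Type} [Finite κ] {a : κ → PS ι} (ha : ∀ i, Z0 (a i)) : HasSubst a :=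
  hasSubst_of_constantCoeff_zero ha

theorem subst_trunc {κ ι : Type} [Finite κ] [Finite ι] (F : PS κ) {a : κ → PS ι}
    (ha : ∀ i, Z0 (a i)) {k l : ℕ} (hkl : k ≤ l) :
    Eq k (F.subst a) (MvPolynomial.aeval a (F.truncTotal l)) := by
  intro n hn
  have h := truncTotal_subst_eq_truncTotal_truncTotal_subst (k := l) (f := F) ha
  have h2 := congrArg (fun P : MvPolynomial ι ℂ => MvPolynomial.coeff n P) h
  rw [coeff_truncTotal _ (hn.trans_le hkl), coeff_truncTotal _ (hn.trans_le hkl), subst_coe] at h2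
  exact h2

theorem trunc_pderiv' {κ : Type} [Finite κ] (F : PS κ) (k : ℕ) (i : κ) :
    (pderiv ℂ i F).truncTotal k =
      (((MvPolynomial.pderiv i (F.truncTotal (k + 1)) : MvPolynomial κ ℂ) : PS κ)).truncTotal k := by
  classical
  ext d
  by_cases hd : d.degree < k
  · have hd' : (d + Finsupp.single i 1).degree < k + 1 := by
      rw [map_add, Finsupp.degree_single]; omega
    rw [coeff_truncTotal _ hd, coeff_truncTotal _ hd, ← pderiv_coe, coeff_pderiv, coeff_pderiv,
      MvPolynomial.coeff_coe, coeff_truncTotal _ hd']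
  · push Not at hd
    rw [coeff_truncTotal_eq_zero _ hd, coeff_truncTotal_eq_zero _ hd]

theorem subst_pderiv_trunc {κ ι : Type} [Finite κ] [Finite ι] (F : PS κ) {a : κ → PS ι}
    (ha : ∀ i, Z0 (a i)) (k : ℕ) (i : κ) :
    Eq k ((pderiv ℂ i F).subst a)
      (MvPolynomial.aeval a (MvPolynomial.pderiv i (F.truncTotal (k + 1)))) := by
  intro n hn
  rw [subst_trunc _ ha le_rfl n hn, trunc_pderiv', ← subst_trunc _ ha le_rfl n hn, subst_coe]

/-! ### Taylor's formula -/

theorem poly_taylor {κ : Type} [Fintype κ] [DecidableEq κ] {A : Type} [CommRing A] [Algebra ℂ A]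
    (a b : κ → A) (t : A) (P : MvPolynomial κ ℂ) :
    t ^ 2 ∣ MvPolynomial.aeval (fun i => a i + t * b i) P - MvPolynomial.aeval a P -
      t * ∑ i, b i * MvPolynomial.aeval a (MvPolynomial.pderiv i P) := by
  induction P using MvPolynomial.induction_on with
  | C c => simp
  | add p q hp hq =>
    have h := dvd_add hp hq
    have e : ∀ u v : A, u = v → t ^ 2 ∣ u → t ^ 2 ∣ v := fun u v huv hu => huv ▸ hu
    refine e _ _ ?_ h
    simp only [map_add, mul_add, Finset.sum_add_distrib]
    ring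
  | mul_X p i hp =>
    obtain ⟨c, hc⟩ := hp
    have h1 : MvPolynomial.aeval (fun i => a i + t * b i) p = MvPolynomial.aeval a p +
      t * ∑ i, b i * MvPolynomial.aeval a (MvPolynomial.pderiv i p) + t ^ 2 * c := by
      rw [← hc]; ring
    have h2 : ∑ j, b j * MvPolynomial.aeval a (MvPolynomial.pderiv j (p * MvPolynomial.X i)) =
        MvPolynomial.aeval a p * b i +
          a i * ∑ j, b j * MvPolynomial.aeval a (MvPolynomial.pderiv j p) := by
      have h3 : ∀ j, b j * MvPolynomial.aeval a (MvPolynomial.pderiv j (p * MvPolynomial.X i)) =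
          (if j = i then MvPolynomial.aeval a p * b i else 0) +
          a i * (b j * MvPolynomial.aeval a (MvPolynomial.pderiv j p)) := by
        intro j
        rw [Derivation.leibniz, map_add, smul_eq_mul, smul_eq_mul, map_mul, map_mul,
          MvPolynomial.aeval_X]
        by_cases hj : j = i
        · subst hj
          rw [MvPolynomial.pderiv_X_self, if_pos rfl, map_one]
          ring
        · rw [MvPolynomial.pderiv_X_of_ne (Ne.symm hj), if_neg hj, map_zero]
          ring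
      rw [Finset.sum_congr rfl fun j _ => h3 j, Finset.sum_add_distrib, Finset.mul_sum]
      simp
    refine ⟨b i * (∑ j, b j * MvPolynomial.aeval a (MvPolynomial.pderiv j p)) +
      c * (a i + t * b i), ?_⟩
    rw [h2, map_mul, map_mul, MvPolynomial.aeval_X, MvPolynomial.aeval_X, h1]
    ring

/-- Taylor's formula of order two for the increment `X j ^ m * b`. -/
theorem taylor {κ ι : Type} [Fintype κ] [DecidableEq κ] [Finite ι] (F : PS κ) (a b : κ → PS ι)
    (j : ι) (m : ℕ) (ha : ∀ i, Z0 (a i)) (hab : ∀ i, Z0 (a i + X j ^ m * b i)) :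
    (X j : PS ι) ^ (2 * m) ∣ F.subst (fun i => a i + X j ^ m * b i) - F.subst a -
      X j ^ m * ∑ i, b i * (pderiv ℂ i F).subst a := by
  rw [X_pow_dvd_iff]
  intro n hn
  set k := n.degree + 1 with hk
  have hnk : n.degree < k := by omega
  have h1 : Eq k (F.subst (fun i => a i + X j ^ m * b i) - F.subst a -
      X j ^ m * ∑ i, b i * (pderiv ℂ i F).subst a)
      (MvPolynomial.aeval (fun i => a i + X j ^ m * b i) (F.truncTotal (k + 1)) -
        MvPolynomial.aeval a (F.truncTotal (k + 1)) -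
        X j ^ m * ∑ i, b i * MvPolynomial.aeval a
          (MvPolynomial.pderiv i (F.truncTotal (k + 1)))) := by
    refine ((subst_trunc F hab (by omega)).sub (subst_trunc F ha (by omega))).sub
      ((Eq.refl k _).mul (Eq.sum _ fun i => (Eq.refl k _).mul (subst_pderiv_trunc F ha k i)))
  rw [h1 n hnk]
  have h2 := poly_taylor a b ((X j : PS ι) ^ m) (F.truncTotal (k + 1))
  rw [← pow_mul, Nat.mul_comm m 2] at h2
  exact X_pow_dvd_iff.1 h2 n hn

/-- congruence -/
theorem congr_dvd {κ ι : Type} [Fintype κ] [DecidableEq κ] [Finite ι] (F : PS κ) (a a' : κ → PS ι)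
    (j : ι) (m : ℕ) (ha : ∀ i, Z0 (a i)) (ha' : ∀ i, Z0 (a' i))
    (h : ∀ i, (X j : PS ι) ^ m ∣ a' i - a i) :
    (X j : PS ι) ^ m ∣ F.subst a' - F.subst a := by
  choose b hb using h
  have e : (fun i => a i + X j ^ m * b i) = a' := by
    funext i; rw [← hb i]; ring
  have h2 := taylor F a b j m ha (by
    intro i
    have : a i + X j ^ m * b i = a' i := congrFun e i
    rw [this]; exact ha' i)
  rw [e] at h2
  have h3 : (X j : PS ι) ^ m ∣ (X j : PS ι) ^ (2 * m) := pow_dvd_pow _ (by omega)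
  have h4 := dvd_add (h3.trans h2) (Dvd.intro (∑ i, b i * (pderiv ℂ i F).subst a) rfl)
  rwa [sub_add_cancel] at h4

/-! ### the ring of convergent series -/

section conv

variable (hCNV : SpecCNV)
include hCNV

/-- the subring of convergent power series -/
def cR (ι : Type) [Finite ι] : Subring (PS ι) where
  carrier := {f | Conv f}
  mul_mem' {f g} hf hg := ((hCNV.1 ℂ _ hCNV.2 ι).1 f g hf hg).2.1
  one_mem' := by
    have := (hCNV.1 ℂ _ hCNV.2 ι).2.1 1
    rwa [map_one] at this
  add_mem' {f g} hf hg := ((hCNV.1 ℂ _ hCNV.2 ι).1 f g hf hg).1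
  zero_mem' := by
    have := (hCNV.1 ℂ _ hCNV.2 ι).2.1 0
    rwa [map_zero] at this
  neg_mem' {f} hf := ((hCNV.1 ℂ _ hCNV.2 ι).1 f f hf hf).2.2.1

theorem mem_cR {ι : Type} [Finite ι] {f : PS ι} : f ∈ cR hCNV ι ↔ Conv f := Iff.rfl

theorem conv_C {ι : Type} [Finite ι] (c : ℂ) : Conv (C c : PS ι) := (hCNV.1 ℂ _ hCNV.2 ι).2.1 c

theorem conv_X {ι : Type} [Finite ι] (i : ι) : Conv (X i : PS ι) := (hCNV.1 ℂ _ hCNV.2 ι).2.2.1 i

theorem conv_pderiv {ι : Type} [Finite ι] (i : ι) {f : PS ι} (hf : Conv f) :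
    Conv (pderiv ℂ i f) := (hCNV.1 ℂ _ hCNV.2 ι).2.2.2 f i hf

theorem conv_poly {ι : Type} [Finite ι] (P : MvPolynomial ι ℂ) : Conv (P : PS ι) := by
  induction P using MvPolynomial.induction_on with
  | C c => rw [MvPolynomial.coe_C]; exact conv_C hCNV c
  | add p q hp hq => rw [MvPolynomial.coe_add]; exact (cR hCNV ι).add_mem hp hq
  | mul_X p i hp =>
    rw [MvPolynomial.coe_mul, MvPolynomial.coe_X]
    exact (cR hCNV ι).mul_mem hp (conv_X hCNV i)

theorem conv_subst (hCNS : SpecCNS) {κ ι : Type} [Finite κ] [Finite ι] {f : PS κ}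
    {a : κ → PS ι} (hf : Conv f) (ha : ∀ i, Conv (a i)) (h0 : ∀ i, Z0 (a i)) :
    Conv (f.subst a) :=
  hCNS ℂ _ hCNV.2 κ ι f a hf fun i => ⟨ha i, h0 i⟩

omit hCNV in
/-- division by powers of a variable -/
theorem conv_div {ι : Type} {j : ι} {m : ℕ} {f g : PS ι} (h : f = X j ^ m * g) (hf : Conv f) :
    Conv g := by
  obtain ⟨C, hC, hb⟩ := hf
  refine ⟨(max 1 C) ^ (m + 1), by positivity, fun n => ?_⟩
  have h1 : coeff n g = coeff (Finsupp.single j m + n) f := by
    rw [h, X_pow_eq, coeff_add_monomial_mul, one_mul]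
  have h2 := hb (Finsupp.single j m + n)
  simp only at h2 ⊢
  rw [h1]
  refine h2.trans ?_
  rw [map_add, Finsupp.degree_single, ← pow_mul]
  calc C ^ (m + n.degree + 1) ≤ (max 1 C) ^ (m + n.degree + 1) :=
        pow_le_pow_left₀ hC.le (le_max_right _ _) _
    _ ≤ (max 1 C) ^ ((m + 1) * (n.degree + 1)) := by
        apply pow_le_pow_right₀ (le_max_left _ _)
        nlinarith

end conv

end GermM

end

end Pool.Agent.Lib.MP_2184e2_an.Loc
end

section
/-!
# GERM, part 2: relations, the rank, absence of relations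
-/
set_option autoImplicit false

namespace Pool.Agent.Lib.MP_2184e2_an.Loc

open MvPowerSeries Filter Topology

noncomputable section

namespace GermM

theorem ss {κ ι μ : Type} [Finite κ] [Finite ι] {a : κ → PS ι} {b : ι → PS μ}
    (ha : ∀ i, Z0 (a i)) (hb : ∀ i, Z0 (b i)) (f : PS κ) :
    (f.subst a).subst b = f.subst (fun s => (a s).subst b) :=
  subst_comp_subst_apply (hs ha) (hs hb) f

theorem z0_subst {κ ι : Type} [Finite κ] {a : κ → PS ι} (ha : ∀ i, Z0 (a i)) {f : PS κ}
    (hf : Z0 f) : Z0 (f.subst a) := constantCoeff_subst_eq_zero (hs ha) ha hf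

theorem z0_X {ι : Type} (i : ι) : Z0 (X i : PS ι) := constantCoeff_X i

theorem z0_crv {k : ℕ} {v : Fin k → PS Unit} (hv : ∀ j, Z0 (v j)) : ∀ i, Z0 (crv v i) := by
  rintro (i | j)
  · exact z0_X _
  · exact hv j

theorem z0_add {ι : Type} {f g : PS ι} (hf : Z0 f) (hg : Z0 g) : Z0 (f + g) := by
  unfold Z0 at *; rw [map_add, hf, hg, add_zero]

theorem z0_sub {ι : Type} {f g : PS ι} (hf : Z0 f) (hg : Z0 g) : Z0 (f - g) := by
  unfold Z0 at *; rw [map_sub, hf, hg, sub_zero]

theorem z0_mul {ι : Type} {f g : PS ι} (hf : Z0 f) : Z0 (f * g) := by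
  unfold Z0 at *; rw [map_mul, hf, zero_mul]

theorem z0_mul' {ι : Type} {f g : PS ι} (hg : Z0 g) : Z0 (f * g) := by
  unfold Z0 at *; rw [map_mul, hg, mul_zero]

theorem subst_zero' {κ ι : Type} [Finite κ] {a : κ → PS ι} (ha : ∀ i, Z0 (a i)) :
    (0 : PS κ).subst a = 0 := by
  rw [← coe_substAlgHom (hs ha), map_zero]

theorem subst_X' {κ ι : Type} [Finite κ] {a : κ → PS ι} (ha : ∀ i, Z0 (a i)) (i : κ) :
    (X i : PS κ).subst a = a i := subst_X (hs ha) i

theorem subst_one' {κ ι : Type} [Finite κ] {a : κ → PS ι} (ha : ∀ i, Z0 (a i)) :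
    (1 : PS κ).subst a = 1 := by
  rw [← coe_substAlgHom (hs ha), map_one]

/-! ### the embedding of `PS Unit` -/

/-- substitution of a variable in a series of one variable -/
def em {ι : Type} (i : ι) (f : PS Unit) : PS ι := f.subst (fun _ => (X i : PS ι))

theorem em_z0 {ι : Type} (i : ι) : ∀ _ : Unit, Z0 (X i : PS ι) := fun _ => z0_X i

theorem em_subst {ι μ : Type} [Finite ι] (i : ι) (f : PS Unit) {b : ι → PS μ}
    (hb : ∀ i, Z0 (b i)) : (em i f).subst b = f.subst (fun _ => b i) := by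
  unfold em
  rw [ss (em_z0 i) hb]
  congr 1
  funext _
  exact subst_X' hb i

theorem subst_unit_self (f : PS Unit) : f.subst (fun _ => (X () : PS Unit)) = f := by
  have h := congrFun (subst_self (σ := Unit) (R := ℂ)) f
  exact h

theorem em_mul {ι : Type} (i : ι) (f g : PS Unit) : em i (f * g) = em i f * em i g :=
  subst_mul (hs (em_z0 i)) f g

theorem em_add {ι : Type} (i : ι) (f g : PS Unit) : em i (f + g) = em i f + em i g :=
  subst_add (hs (em_z0 i)) f g

theorem em_X {ι : Type} (i : ι) : em i (X ()) = X i := subst_X' (em_z0 i) ()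

theorem em_pow {ι : Type} (i : ι) (f : PS Unit) (n : ℕ) : em i (f ^ n) = em i f ^ n :=
  subst_pow (hs (em_z0 i)) f n

theorem em_sum {ι κ : Type} (i : ι) (s : Finset κ) (f : κ → PS Unit) :
    em i (∑ j ∈ s, f j) = ∑ j ∈ s, em i (f j) := by
  unfold em
  rw [← coe_substAlgHom (hs (em_z0 i)), map_sum]

theorem em_const {ι : Type} [Finite ι] (i : ι) (f : PS Unit) :
    constantCoeff (em i f) = constantCoeff f := by
  have h1 : Z0 (f - C (constantCoeff f)) := by
    unfold Z0; rw [map_sub, constantCoeff_C, sub_self]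
  have h2 := z0_subst (em_z0 i) h1
  rw [subst_sub (hs (em_z0 i)), subst_C] at h2
  unfold Z0 at h2
  rw [map_sub, constantCoeff_C, sub_eq_zero] at h2
  exact h2

theorem em_pderiv (hCHN : SpecCHN) {ι : Type} [Finite ι] {i j : ι} (hij : i ≠ j) (f : PS Unit) :
    pderiv ℂ j (em i f) = 0 := by
  unfold em
  rw [hCHN ℂ Unit ι f _ (em_z0 i) j]
  simp [pderiv_X_of_ne hij]

/-! ### relations -/

variable {M : ℕ}

/-- a convergent relation of `u` -/
def Rel (u : Fin M → PS Unit) (R : PS (Unit ⊕ Fin M)) : Prop := Conv R ∧ R.subst (crv u) = 0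

/-- the matrix of partial derivatives -/
def Mt {I : Type} (R : I → PS (Unit ⊕ Fin M)) (g : I → Fin M) (w : Fin M → PS Unit) :
    Matrix I I (PS Unit) :=
  Matrix.of fun i j => (pderiv ℂ (Sum.inr (g j)) (R i)).subst (crv w)

/-- there are `I` relations with a nonzero minor -/
def HasR (u : Fin M → PS Unit) (I : Type) [Fintype I] [DecidableEq I] : Prop :=
  ∃ (R : I → PS (Unit ⊕ Fin M)) (g : I → Fin M), (∀ i, Rel u (R i)) ∧ (Mt R g u).det ≠ 0

theorem HasR.reindex {u : Fin M → PS Unit} {I I' : Type} [Fintype I] [DecidableEq I]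
    [Fintype I'] [DecidableEq I'] (e : I' ≃ I) (h : HasR u I) : HasR u I' := by
  obtain ⟨R, g, h1, h2⟩ := h
  refine ⟨R ∘ e, g ∘ e, fun i => h1 (e i), ?_⟩
  have : Mt (R ∘ e) (g ∘ e) u = (Mt R g u).submatrix e e := rfl
  rw [this, Matrix.det_submatrix_equiv_self]
  exact h2

theorem Mt_inj {I : Type} [Fintype I] [DecidableEq I] {R : I → PS (Unit ⊕ Fin M)} {g : I → Fin M}
    {w : Fin M → PS Unit} (h : (Mt R g w).det ≠ 0) : Function.Injective g := by
  intro i j hij
  by_contra hne
  apply h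
  apply Matrix.det_zero_of_column_eq hne
  intro l
  simp only [Mt, Matrix.of_apply, hij]

theorem HasR.le {u : Fin M → PS Unit} {r : ℕ} (h : HasR u (Fin r)) : r ≤ M := by
  obtain ⟨R, g, _, h2⟩ := h
  have := Fintype.card_le_of_injective g (Mt_inj h2)
  simpa using this

theorem hasR_zero (u : Fin M → PS Unit) : HasR u (Fin 0) :=
  ⟨fun i => i.elim0, fun i => i.elim0, fun i => i.elim0, by simp⟩

/-! ### absence of relations -/

theorem coeff_crv0 {k : ℕ} (f : PS (Unit ⊕ Fin k)) (n : Unit ⊕ Fin k →₀ ℕ)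
    (hn : ∀ j, n (Sum.inr j) = 0) :
    coeff (Finsupp.single () (n (Sum.inl ()))) (f.subst (crv (0 : Fin k → PS Unit))) =
      coeff n f := by
  classical
  have h0 : ∀ j : Fin k, Z0 ((0 : Fin k → PS Unit) j) := fun j => by
    show constantCoeff (0 : PS Unit) = 0
    rw [map_zero]
  have hprod : ∀ d : Unit ⊕ Fin k →₀ ℕ,
      (d.prod fun s m => crv (0 : Fin k → PS Unit) s ^ m) =
        (X () : PS Unit) ^ d (Sum.inl ()) * ∏ j : Fin k, (0 : PS Unit) ^ d (Sum.inr j) := by
    intro d
    rw [Finsupp.prod_fintype _ _ (fun i => pow_zero _), Fintype.prod_sum_type]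
    congr 1
    simp [crv]
  rw [coeff_subst (hs (z0_crv h0)), finsum_eq_single _ n]
  · have h1 : ∏ j : Fin k, (0 : PS Unit) ^ n (Sum.inr j) = 1 := by
      apply Finset.prod_eq_one
      intro j _
      rw [hn j, pow_zero]
    rw [hprod, h1, mul_one, coeff_X_pow, if_pos rfl, smul_eq_mul, mul_one]
  · intro d hd
    rw [hprod]
    by_cases h1 : ∀ j, d (Sum.inr j) = 0
    · have h2 : d (Sum.inl ()) ≠ n (Sum.inl ()) := by
        intro h3
        apply hd
        ext s
        rcases s with s | j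
        · exact h3
        · rw [h1 j, hn j]
      have h3 : ∏ j : Fin k, (0 : PS Unit) ^ d (Sum.inr j) = 1 := by
        apply Finset.prod_eq_one
        intro j _
        rw [h1 j, pow_zero]
      rw [h3, mul_one, coeff_X_pow, if_neg, smul_zero]
      intro h4
      apply h2
      have := DFunLike.congr_fun h4 ()
      simpa using this.symm
    · push Not at h1
      obtain ⟨j, hj⟩ := h1
      rw [Finset.prod_eq_zero (Finset.mem_univ j) (zero_pow hj), mul_zero, map_zero, smul_zero]

/-- the shift of the variables by the curve -/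
def sft {k : ℕ} (v : Fin k → PS Unit) : Unit ⊕ Fin k → PS (Unit ⊕ Fin k) :=
  Sum.elim (fun _ => X (Sum.inl ())) (fun j => em (Sum.inl ()) (v j) + X (Sum.inr j))

theorem z0_em {ι : Type} (i : ι) {f : PS Unit} (hf : Z0 f) : Z0 (em i f) :=
  z0_subst (em_z0 i) hf

theorem z0_sft {k : ℕ} {v : Fin k → PS Unit} (hv : ∀ j, Z0 (v j)) : ∀ i, Z0 (sft v i) := by
  rintro (i | j)
  · exact z0_X _
  · exact z0_add (z0_em _ (hv j)) (z0_X _)

theorem pderiv_sft (hCHN : SpecCHN) {k : ℕ} {v : Fin k → PS Unit} (hv : ∀ j, Z0 (v j))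
    (S : PS (Unit ⊕ Fin k)) (j : Fin k) :
    pderiv ℂ (Sum.inr j) (S.subst (sft v)) = (pderiv ℂ (Sum.inr j) S).subst (sft v) := by
  classical
  rw [hCHN ℂ (Unit ⊕ Fin k) (Unit ⊕ Fin k) S _ (z0_sft hv) (Sum.inr j), Fintype.sum_sum_type]
  have h1 : ∀ i : Unit, pderiv ℂ (Sum.inr j) (sft v (Sum.inl i)) = 0 := fun i =>
    pderiv_X_of_ne (by simp)
  have h2 : ∀ i : Fin k, pderiv ℂ (Sum.inr j) (sft v (Sum.inr i)) = if i = j then 1 else 0 := by
    intro i
    show pderiv ℂ (Sum.inr j) (em (Sum.inl ()) (v i) + X (Sum.inr i)) = _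
    rw [map_add, em_pderiv hCHN (by simp), zero_add]
    by_cases hij : i = j
    · subst hij; rw [if_pos rfl, pderiv_X_self]
    · rw [if_neg hij, pderiv_X_of_ne]
      intro h; exact hij (Sum.inr_injective h)
  simp [h1, h2]

/-- A curve such that derivatives of relations are relations has no relations. -/
theorem norel (hCHN : SpecCHN) (hCNV : SpecCNV) {k : ℕ} {v : Fin k → PS Unit}
    (hv : ∀ j, Z0 (v j))
    (hp : ∀ S : PS (Unit ⊕ Fin k), Conv S → S.subst (crv v) = 0 →
      ∀ j, (pderiv ℂ (Sum.inr j) S).subst (crv v) = 0)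
    (R : PS (Unit ⊕ Fin k)) (hR : Conv R) (hR0 : R.subst (crv v) = 0) : R = 0 := by
  classical
  have h0 : ∀ j : Fin k, Z0 ((0 : Fin k → PS Unit) j) := fun j => by
    show constantCoeff (0 : PS Unit) = 0
    rw [map_zero]
  have claim : ∀ (N : ℕ) (S : PS (Unit ⊕ Fin k)), Conv S → S.subst (crv v) = 0 →
      ∀ n : Unit ⊕ Fin k →₀ ℕ, ∑ j, n (Sum.inr j) = N → coeff n (S.subst (sft v)) = 0 := by
    intro N
    induction N with
    | zero =>
      intro S hS hS0 n hn
      have hn' : ∀ j, n (Sum.inr j) = 0 := fun j =>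
        (Finset.sum_eq_zero_iff.1 hn) j (Finset.mem_univ j)
      rw [← coeff_crv0 _ n hn', ss (z0_sft hv) (z0_crv h0)]
      have : (fun s => (sft v s).subst (crv (0 : Fin k → PS Unit))) = crv v := by
        funext s
        rcases s with s | j
        · exact subst_X' (z0_crv h0) _
        · show (em (Sum.inl ()) (v j) + X (Sum.inr j)).subst (crv (0 : Fin k → PS Unit)) = v j
          rw [subst_add (hs (z0_crv h0)), em_subst _ _ (z0_crv h0), subst_X' (z0_crv h0)]
          show (v j).subst (fun _ => (X () : PS Unit)) + 0 = v j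
          rw [subst_unit_self, add_zero]
      rw [this, hS0, map_zero]
    | succ N ih =>
      intro S hS hS0 n hn
      obtain ⟨j, hj⟩ : ∃ j, n (Sum.inr j) ≠ 0 := by
        by_contra hcon
        push Not at hcon
        rw [Finset.sum_eq_zero fun j _ => hcon j] at hn
        omega
      have hle : Finsupp.single (Sum.inr j) 1 ≤ n := by
        rw [Finsupp.single_le_iff]; omega
      set n' := n - Finsupp.single (Sum.inr j) 1 with hn'
      have hnn : n' + Finsupp.single (Sum.inr j) 1 = n := tsub_add_cancel_of_le hle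
      have h1 := ih (pderiv ℂ (Sum.inr j) S) (conv_pderiv hCNV _ hS) (hp S hS hS0 j) n' (by
        have h2 : ∑ i, n (Sum.inr i) = ∑ i, n' (Sum.inr i) + 1 := by
          rw [← hnn]
          simp only [Finsupp.add_apply, Finset.sum_add_distrib]
          congr 1
          rw [Finset.sum_eq_single j]
          · simp
          · intro i _ hij
            rw [Finsupp.single_apply, if_neg]
            intro h; exact hij (Sum.inr_injective h).symm
          · simp
        omega)
      rw [← pderiv_sft hCHN hv, coeff_pderiv, hnn] at h1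
      rcases mul_eq_zero.1 h1 with h2 | h2
      · exact h2
      · exfalso
        exact Nat.cast_add_one_ne_zero (R := ℂ) (n' (Sum.inr j)) h2
  have hW : R.subst (sft v) = 0 := by
    ext n
    rw [claim _ R hR hR0 n rfl, map_zero]
  -- the inverse substitution
  set a : Unit ⊕ Fin k → PS (Unit ⊕ Fin k) :=
    Sum.elim (fun _ => X (Sum.inl ())) (fun j => X (Sum.inr j) - em (Sum.inl ()) (v j)) with ha
  have haz : ∀ i, Z0 (a i) := by
    rintro (i | j)
    · exact z0_X _
    · exact z0_sub (z0_X _) (z0_em _ (hv j))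
  have h1 : (R.subst (sft v)).subst a = R := by
    rw [ss (z0_sft hv) haz]
    have : (fun s => (sft v s).subst a) = (X : Unit ⊕ Fin k → PS (Unit ⊕ Fin k)) := by
      funext s
      rcases s with s | j
      · exact subst_X' haz _
      · show (em (Sum.inl ()) (v j) + X (Sum.inr j)).subst a = _
        rw [subst_add (hs haz), em_subst _ _ haz, subst_X' haz]
        show em (Sum.inl ()) (v j) + (X (Sum.inr j) - em (Sum.inl ()) (v j)) = X (Sum.inr j)
        ring
    rw [this, subst_self]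
    rfl
  rw [← h1, hW, subst_zero' haz]

/-- If `u` has a graph form with convergent functions and `r` is the maximal rank then derivatives of
relations are relations. -/
theorem hp_of (hCHN : SpecCHN) (hCNV : SpecCNV) (hCNS : SpecCNS) {r k : ℕ} (u : Fin M → PS Unit)
    (hu0 : ∀ i, Z0 (u i))
    (g : Fin r → Fin M) (E : Fin M ≃ Fin r ⊕ Fin k) (hE : ∀ i, E (g i) = Sum.inl i)
    (Ψ : Fin r → PS (Unit ⊕ Fin k)) (hΨ : ∀ i, Conv (Ψ i) ∧ Z0 (Ψ i))
    (hu : ∀ i, u (g i) = (Ψ i).subst (crv fun j => u (E.symm (Sum.inr j))))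
    (hno : ¬ HasR u (Fin (r + 1))) (S : PS (Unit ⊕ Fin k)) (hS : Conv S)
    (hS0 : S.subst (crv fun j => u (E.symm (Sum.inr j))) = 0) (j : Fin k) :
    (pderiv ℂ (Sum.inr j) S).subst (crv fun j => u (E.symm (Sum.inr j))) = 0 := by
  classical
  by_contra hne
  apply hno
  set b : Unit ⊕ Fin k → PS (Unit ⊕ Fin M) :=
    Sum.elim (fun _ => X (Sum.inl ())) (fun j => X (Sum.inr (E.symm (Sum.inr j)))) with hb
  have hbz : ∀ i, Z0 (b i) := by
    rintro (i | j)
    · exact z0_X _
    · exact z0_X _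
  have hbc : ∀ i, Conv (b i) := by
    rintro (i | j)
    · exact conv_X hCNV _
    · exact conv_X hCNV _
  have hcu := z0_crv hu0
  have hbu : (fun s => (b s).subst (crv u)) = crv fun j => u (E.symm (Sum.inr j)) := by
    funext s
    rcases s with s | j
    · exact subst_X' hcu _
    · exact subst_X' hcu _
  -- derivatives of `F.subst b`
  have hd1 : ∀ (F : PS (Unit ⊕ Fin k)) (i : Fin r),
      pderiv ℂ (Sum.inr (g i)) (F.subst b) = 0 := by
    intro F i
    rw [hCHN ℂ _ _ F b hbz]
    apply Finset.sum_eq_zero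
    rintro (s | l) _
    · show _ * pderiv ℂ _ (X (Sum.inl ())) = 0
      rw [pderiv_X_of_ne (by simp), mul_zero]
    · show _ * pderiv ℂ _ (X (Sum.inr (E.symm (Sum.inr l)))) = 0
      rw [pderiv_X_of_ne, mul_zero]
      intro h
      have h2 := Sum.inr_injective h
      have h3 := congrArg E h2
      rw [E.apply_symm_apply, hE] at h3
      exact absurd h3 (by simp)
  have hd2 : ∀ (F : PS (Unit ⊕ Fin k)) (l : Fin k),
      pderiv ℂ (Sum.inr (E.symm (Sum.inr l))) (F.subst b) =
        (pderiv ℂ (Sum.inr l) F).subst b := by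
    intro F l
    rw [hCHN ℂ _ _ F b hbz, Finset.sum_eq_single (Sum.inr l)]
    · show _ * pderiv ℂ _ (X (Sum.inr (E.symm (Sum.inr l)))) = _
      rw [pderiv_X_self, mul_one]
    · rintro (s | l') _ hl
      · show _ * pderiv ℂ _ (X (Sum.inl ())) = 0
        rw [pderiv_X_of_ne (by simp), mul_zero]
      · show _ * pderiv ℂ _ (X (Sum.inr (E.symm (Sum.inr l')))) = 0
        rw [pderiv_X_of_ne, mul_zero]
        intro h
        apply hl
        rw [Sum.inr_injective (E.symm.injective (Sum.inr_injective h))]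
    · intro h; exact absurd (Finset.mem_univ _) h
  -- the relations
  have hmain : HasR u (Fin r ⊕ Unit) := by
    refine ⟨Sum.elim (fun i => X (Sum.inr (g i)) - (Ψ i).subst b) (fun _ => S.subst b),
      Sum.elim g (fun _ => E.symm (Sum.inr j)), ?_, ?_⟩
    · rintro (i | i)
      · refine ⟨(cR hCNV _).sub_mem (conv_X hCNV _) (conv_subst hCNV hCNS (hΨ i).1 hbc hbz), ?_⟩
        show (X (Sum.inr (g i)) - (Ψ i).subst b).subst (crv u) = 0
        rw [subst_sub (hs hcu), subst_X' hcu, ss hbz hcu, hbu, ← hu i]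
        exact sub_self _
      · refine ⟨conv_subst hCNV hCNS hS hbc hbz, ?_⟩
        show (S.subst b).subst (crv u) = 0
        rw [ss hbz hcu, hbu, hS0]
    · have hM : Mt (Sum.elim (fun i => X (Sum.inr (g i)) - (Ψ i).subst b) (fun _ => S.subst b))
          (Sum.elim g (fun _ => E.symm (Sum.inr j))) u =
          Matrix.fromBlocks 1 (Matrix.of fun i (_ : Unit) => (pderiv ℂ
            (Sum.inr (E.symm (Sum.inr j))) (X (Sum.inr (g i)) - (Ψ i).subst b)).subst (crv u)) 0
            (Matrix.of fun (_ _ : Unit) =>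
              (pderiv ℂ (Sum.inr j) S).subst (crv fun j => u (E.symm (Sum.inr j)))) := by
        refine Matrix.ext fun i l => ?_
        rcases i with i | i <;> rcases l with l | l
        · show (pderiv ℂ (Sum.inr (g l)) (X (Sum.inr (g i)) - (Ψ i).subst b)).subst (crv u) =
            (1 : Matrix (Fin r) (Fin r) (PS Unit)) i l
          rw [map_sub, hd1, sub_zero, Matrix.one_apply]
          by_cases hil : i = l
          · subst hil
            rw [pderiv_X_self, if_pos rfl, subst_one' hcu]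
          · rw [if_neg hil, pderiv_X_of_ne, subst_zero' hcu]
            intro h
            apply hil
            have h3 := congrArg E (Sum.inr_injective h)
            rw [hE, hE] at h3
            exact Sum.inl_injective h3
        · rfl
        · show (pderiv ℂ (Sum.inr (g l)) (S.subst b)).subst (crv u) = 0
          rw [hd1, subst_zero' hcu]
        · show (pderiv ℂ (Sum.inr (E.symm (Sum.inr j))) (S.subst b)).subst (crv u) = _
          rw [hd2, ss hbz hcu, hbu]
          rfl
      rw [hM, Matrix.det_fromBlocks_zero₂₁, Matrix.det_one, one_mul, Matrix.det_unique]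
      exact hne
  exact hmain.reindex ((finSumFinEquiv (m := r) (n := 1)).symm.trans
    (Equiv.sumCongr (Equiv.refl _) (Equiv.ofUnique (Fin 1) Unit)))

end GermM

end

end Pool.Agent.Lib.MP_2184e2_an.Loc
end

section
/-!
# GERM, part 3: the main step
-/
set_option autoImplicit false

namespace Pool.Agent.Lib.MP_2184e2_an.Loc

open MvPowerSeries Filter Topology

noncomputable section

namespace GermM

variable {M : ℕ}

theorem det_congr_dvd {A : Type} [CommRing A] {I : Type} [Fintype I] [DecidableEq I] (d : A)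
    (P Q : Matrix I I A) (h : ∀ i j, d ∣ P i j - Q i j) : d ∣ P.det - Q.det := by
  set π := Ideal.Quotient.mk (Ideal.span {d}) with hπ
  have h1 : π.mapMatrix P = π.mapMatrix Q := by
    refine Matrix.ext fun i j => ?_
    show π (P i j) = π (Q i j)
    rw [Ideal.Quotient.eq, Ideal.mem_span_singleton]
    exact h i j
  have h2 : π P.det = π Q.det := by rw [RingHom.map_det, RingHom.map_det, h1]
  rw [Ideal.Quotient.eq, Ideal.mem_span_singleton] at h2
  exact h2

theorem X_dvd_of_z0 {f : PS Unit} (h : Z0 f) : (X () : PS Unit) ∣ f := by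
  rw [X_dvd_iff]
  intro m hm
  have : m = 0 := by ext; exact hm
  rw [this]
  exact h

theorem lin_eq {ι : Type} (f : PS ι) (i : ι) : lin f i = constantCoeff (pderiv ℂ i f) := by
  rw [← coeff_zero_eq_constantCoeff_apply, coeff_pderiv]
  simp [lin]

theorem conv_det (hCNV : SpecCNV) {ι : Type} [Finite ι] {I : Type} [Fintype I] [DecidableEq I]
    (P : Matrix I I (PS ι)) (h : ∀ i j, Conv (P i j)) : Conv P.det := by
  rw [Matrix.det_apply]
  refine (cR hCNV ι).sum_mem fun σ _ => ?_
  have h1 : ∏ i, P (σ i) i ∈ cR hCNV ι := (cR hCNV ι).prod_mem fun i _ => h _ _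
  rcases Int.units_eq_one_or (Equiv.Perm.sign σ) with h2 | h2
  · rw [h2, one_smul]; exact h1
  · rw [h2, Units.neg_smul, one_smul]; exact (cR hCNV ι).neg_mem h1

/-- Taylor's formula for a relation. -/
theorem expand (hCNV : SpecCNV) (hCNS : SpecCNS) {κ : Type} [Finite κ] (i₀ : κ)
    (R : PS (Unit ⊕ Fin M)) (hR : Conv R) (T : Fin M → PS Unit)
    (hT : ∀ m, Conv (T m) ∧ Z0 (T m)) (f : Fin M → PS κ) (hf : ∀ m, Conv (f m) ∧ Z0 (f m))
    (e : ℕ) :
    ∃ q : PS κ, Conv q ∧ R.subst (Sum.elim (fun _ => X i₀)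
        (fun m => em i₀ (T m) + X i₀ ^ (e + 1) * f m)) =
      em i₀ (R.subst (crv T)) + X i₀ ^ (e + 1) *
        ∑ m, f m * em i₀ ((pderiv ℂ (Sum.inr m) R).subst (crv T)) + X i₀ ^ (2 * (e + 1)) * q := by
  classical
  set a : Unit ⊕ Fin M → PS κ := fun s => em i₀ (crv T s) with ha
  set b : Unit ⊕ Fin M → PS κ := Sum.elim (fun _ => 0) f with hb
  have hcT := z0_crv fun m => (hT m).2
  have ha0 : ∀ s, Z0 (a s) := fun s => z0_em _ (hcT s)
  have hab : (fun s => a s + X i₀ ^ (e + 1) * b s) = Sum.elim (fun _ => X i₀)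
        (fun m => em i₀ (T m) + X i₀ ^ (e + 1) * f m) := by
    funext s
    rcases s with s | m
    · show em i₀ (X ()) + X i₀ ^ (e + 1) * 0 = X i₀
      rw [em_X, mul_zero, add_zero]
    · rfl
  have hab0 : ∀ s, Z0 (a s + X i₀ ^ (e + 1) * b s) := by
    intro s
    rcases s with s | m
    · show Z0 (em i₀ (X ()) + X i₀ ^ (e + 1) * 0)
      rw [em_X, mul_zero, add_zero]
      exact z0_X _
    · exact z0_add (ha0 _) (z0_mul' (hf m).2)
  obtain ⟨q, hq⟩ := taylor R a b i₀ (e + 1) ha0 hab0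
  have hsub : ∀ F : PS (Unit ⊕ Fin M), F.subst a = em i₀ (F.subst (crv T)) := by
    intro F
    unfold em
    rw [ss hcT (em_z0 i₀)]
    rfl
  have hsum : ∑ s, b s * (pderiv ℂ s R).subst a =
      ∑ m, f m * em i₀ ((pderiv ℂ (Sum.inr m) R).subst (crv T)) := by
    rw [Fintype.sum_sum_type]
    simp only [hb, Sum.elim_inl, Sum.elim_inr, zero_mul, Finset.sum_const_zero, zero_add, hsub]
  rw [hab, hsub, hsum] at hq
  have heq : R.subst (Sum.elim (fun _ => X i₀)
        (fun m => em i₀ (T m) + X i₀ ^ (e + 1) * f m)) =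
      em i₀ (R.subst (crv T)) + X i₀ ^ (e + 1) *
        ∑ m, f m * em i₀ ((pderiv ℂ (Sum.inr m) R).subst (crv T)) + X i₀ ^ (2 * (e + 1)) * q := by
    rw [← hq]; ring
  refine ⟨q, ?_, heq⟩
  have hem : ∀ h : PS Unit, Conv h → Conv (em i₀ h) := fun h hh =>
    conv_subst hCNV hCNS hh (fun _ => conv_X hCNV i₀) (em_z0 i₀)
  have hcc : ∀ s, Conv (crv T s) := by
    rintro (s | m)
    · exact conv_X hCNV _
    · exact (hT m).1
  refine conv_div hq ?_
  have hXc : Conv (X i₀ : PS κ) := conv_X hCNV i₀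
  refine (cR hCNV κ).sub_mem ((cR hCNV κ).sub_mem ?_ ?_) ?_
  · refine conv_subst hCNV hCNS hR ?_ ?_
    · rintro (s | m)
      · exact hXc
      · exact (cR hCNV κ).add_mem (hem _ (hT m).1)
          ((cR hCNV κ).mul_mem ((cR hCNV κ).pow_mem hXc _) (hf m).1)
    · rw [← hab]; exact hab0
  · exact hem _ (conv_subst hCNV hCNS hR hcc hcT)
  · refine (cR hCNV κ).mul_mem ((cR hCNV κ).pow_mem hXc _) ((cR hCNV κ).sum_mem fun m _ => ?_)
    exact (cR hCNV κ).mul_mem (hf m).1
      (hem _ (conv_subst hCNV hCNS (conv_pderiv hCNV _ hR) hcc hcT))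

/-- The main step: after a blow up of order `e + 1` the curve is a graph. -/
theorem step (hCNV : SpecCNV) (hCNS : SpecCNS) (hIFT : SpecIFT) {r k : ℕ}
    (y : Fin M → PS Unit) (hy0 : ∀ m, Z0 (y m)) (R : Fin r → PS (Unit ⊕ Fin M))
    (hR : ∀ i, Rel y (R i)) (g : Fin r → Fin M) (E : Fin M ≃ Fin r ⊕ Fin k)
    (hE : ∀ i, E (g i) = Sum.inl i) (e : ℕ)
    (he : ¬ (X () : PS Unit) ^ (e + 1) ∣ (Mt R g y).det)
    (hall : ∀ g' : Fin r → Fin M, (X () : PS Unit) ^ e ∣ (Mt R g' y).det)
    (T u : Fin M → PS Unit) (hT : ∀ m, Conv (T m) ∧ Z0 (T m)) (hu0 : ∀ m, Z0 (u m))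
    (hyT : ∀ m, y m = T m + X () ^ (e + 1) * u m) :
    ∃ Ψ : Fin r → PS (Unit ⊕ Fin k), (∀ i, Conv (Ψ i) ∧ Z0 (Ψ i)) ∧
      ∀ i, u (g i) = (Ψ i).subst (crv fun j => u (E.symm (Sum.inr j))) := by
  classical
  have hcT := z0_crv fun m => (hT m).2
  have hcy := z0_crv hy0
  have hcc : ∀ s, Conv (crv T s) := by
    rintro (s | m)
    · exact conv_X hCNV _
    · exact (hT m).1
  -- comparison of the matrices at `y` and at `T`
  have hcongr : ∀ g' : Fin r → Fin M,
      (X () : PS Unit) ^ (e + 2) ∣ (Mt R g' y).det - (Mt R g' T).det := by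
    intro g'
    apply det_congr_dvd
    intro i j
    show (X () : PS Unit) ^ (e + 2) ∣ (pderiv ℂ (Sum.inr (g' j)) (R i)).subst (crv y) -
      (pderiv ℂ (Sum.inr (g' j)) (R i)).subst (crv T)
    apply congr_dvd _ _ _ _ _ hcT hcy
    rintro (s | m)
    · show _ ∣ X () - X ()
      rw [sub_self]; exact dvd_zero _
    · show (X () : PS Unit) ^ (e + 2) ∣ y m - T m
      obtain ⟨w, hw⟩ := X_dvd_of_z0 (hu0 m)
      refine ⟨w, ?_⟩
      rw [hyT m, hw]; ring
  -- the cofactors
  set D : Fin r → Fin M → PS Unit := fun i m => (pderiv ℂ (Sum.inr m) (R i)).subst (crv T) with hD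
  have hDc : ∀ i m, Conv (D i m) := fun i m =>
    conv_subst hCNV hCNS (conv_pderiv hCNV _ (hR i).1) hcc hcT
  set A : Matrix (Fin r) (Fin r) (PS Unit) := Mt R g T with hA
  have hadj : ∀ i l, Conv (A.adjugate i l) := by
    intro i l
    rw [Matrix.adjugate_apply]
    apply conv_det hCNV
    intro a b
    rw [Matrix.updateRow_apply]
    split_ifs
    · rw [Pi.single_apply]
      split_ifs
      · exact (cR hCNV _).one_mem
      · exact (cR hCNV _).zero_mem
    · exact hDc _ _
  have hcof : ∀ i m, ∑ l, A.adjugate i l * D l m = (Mt R (Function.update g i m) T).det := by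
    intro i m
    have h1 : (A.updateCol i fun l => D l m) = Mt R (Function.update g i m) T := by
      refine Matrix.ext fun a b => ?_
      rw [Matrix.updateCol_apply]
      show _ = D a (Function.update g i m b)
      rw [Function.update_apply]
      split_ifs <;> rfl
    rw [← h1, ← Matrix.cramer_apply, Matrix.cramer_eq_adjugate_mulVec]
    rfl
  have hdvd : ∀ i m, (X () : PS Unit) ^ e ∣ ∑ l, A.adjugate i l * D l m := by
    intro i m
    rw [hcof]
    have h1 := (pow_dvd_pow (X () : PS Unit) (show e ≤ e + 2 by omega)).trans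
      (hcongr (Function.update g i m))
    have h2 := dvd_sub (hall (Function.update g i m)) h1
    rwa [sub_sub_cancel] at h2
  choose B hB using hdvd
  have hBc : ∀ i m, Conv (B i m) := fun i m => conv_div (hB i m) ((cR hCNV _).sum_mem fun l _ =>
    (cR hCNV _).mul_mem (hadj i l) (hDc l m))
  have hXne : ∀ n : ℕ, (X () : PS Unit) ^ n ≠ 0 := fun n => pow_ne_zero n (by
    intro h
    have h2 := congrArg (pderiv ℂ ()) h
    rw [pderiv_X_self, map_zero] at h2
    exact one_ne_zero h2)
  -- the diagonal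
  have hmul : ∀ i j, ∑ l, A.adjugate i l * D l (g j) = if i = j then A.det else 0 := by
    intro i j
    have h1 := congrFun (congrFun (Matrix.adjugate_mul A) i) j
    rw [Matrix.mul_apply, Matrix.smul_apply, Matrix.one_apply, smul_eq_mul, mul_ite, mul_one,
      mul_zero] at h1
    exact h1
  have hB0 : ∀ i j, i ≠ j → B i (g j) = 0 := by
    intro i j hij
    have h1 := hB i (g j)
    rw [hmul, if_neg hij] at h1
    rcases mul_eq_zero.1 h1.symm with h2 | h2
    · exact absurd h2 (hXne e)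
    · exact h2
  have hB1 : ∀ i, constantCoeff (B i (g i)) ≠ 0 := by
    intro i hcon
    apply he
    obtain ⟨w, hw⟩ := X_dvd_of_z0 hcon
    have h1 := hB i (g i)
    rw [hmul, if_pos rfl, hw] at h1
    have h2 : (X () : PS Unit) ^ (e + 1) ∣ A.det := ⟨w, by rw [h1]; ring⟩
    have h3 := (pow_dvd_pow (X () : PS Unit) (show e + 1 ≤ e + 2 by omega)).trans (hcongr g)
    have h4 := dvd_add h3 h2
    rwa [sub_add_cancel] at h4
  -- the target ring
  set i₀ : (Unit ⊕ Fin k) ⊕ Fin r := Sum.inl (Sum.inl ()) with hi₀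
  set f : Fin M → PS ((Unit ⊕ Fin k) ⊕ Fin r) := fun m =>
    Sum.elim (fun i => X (Sum.inr i)) (fun j => X (Sum.inl (Sum.inr j))) (E m) with hf
  have hfc : ∀ m, Conv (f m) ∧ Z0 (f m) := by
    intro m
    simp only [hf]
    rcases E m with i | j
    · exact ⟨conv_X hCNV _, z0_X _⟩
    · exact ⟨conv_X hCNV _, z0_X _⟩
  have hex := fun i => expand hCNV hCNS i₀ (R i) (hR i).1 T hT f hfc e
  choose q hqc hq using hex
  -- the curve
  set v : Fin k → PS Unit := fun j => u (E.symm (Sum.inr j)) with hv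
  have hv0 : ∀ j, Z0 (v j) := fun j => hu0 _
  set s : (Unit ⊕ Fin k) ⊕ Fin r → PS Unit := Sum.elim (crv v) (fun i => u (g i)) with hs'
  have hs0 : ∀ i, Z0 (s i) := by
    rintro (i | i)
    · exact z0_crv hv0 i
    · exact hu0 _
  have hsem : ∀ h : PS Unit, (em i₀ h).subst s = h := by
    intro h
    rw [em_subst _ _ hs0]
    exact subst_unit_self h
  have hsX : (X i₀ : PS ((Unit ⊕ Fin k) ⊕ Fin r)).subst s = X () := subst_X' hs0 _
  have hsf : ∀ m, (f m).subst s = u m := by
    intro m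
    simp only [hf]
    rcases hm : E m with i | j
    · show (X (Sum.inr i) : PS ((Unit ⊕ Fin k) ⊕ Fin r)).subst s = u m
      rw [subst_X' hs0]
      show u (g i) = u m
      have : g i = m := E.injective (by rw [hE, hm])
      rw [this]
    · show (X (Sum.inl (Sum.inr j)) : PS ((Unit ⊕ Fin k) ⊕ Fin r)).subst s = u m
      rw [subst_X' hs0]
      show u (E.symm (Sum.inr j)) = u m
      rw [← hm, E.symm_apply_apply]
  have hsH : ∀ i, ((R i).subst (Sum.elim (fun _ => X i₀)
      (fun m => em i₀ (T m) + X i₀ ^ (e + 1) * f m))).subst s = 0 := by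
    intro i
    rw [ss ?_ hs0]
    · have : (fun t => (Sum.elim (fun _ => X i₀)
          (fun m => em i₀ (T m) + X i₀ ^ (e + 1) * f m) t :
            PS ((Unit ⊕ Fin k) ⊕ Fin r)).subst s) = crv y := by
        funext t
        rcases t with t | m
        · exact hsX
        · show (em i₀ (T m) + X i₀ ^ (e + 1) * f m).subst s = y m
          rw [subst_add (hs hs0), subst_mul (hs hs0), subst_pow (hs hs0), hsem, hsX, hsf, hyT m]
      rw [this]
      exact (hR i).2
    · rintro (t | m)
      · exact z0_X _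
      · exact z0_add (z0_em _ (hT m).2) (z0_mul' (hfc m).2)
  -- the combination `K`
  set c : Fin r → PS Unit := fun i => ∑ l, A.adjugate i l * (R l).subst (crv T) with hc
  set q' : Fin r → PS ((Unit ⊕ Fin k) ⊕ Fin r) := fun i =>
    ∑ l, em i₀ (A.adjugate i l) * q l with hq'
  have hK : ∀ i, ∑ l, em i₀ (A.adjugate i l) * (R l).subst (Sum.elim (fun _ => X i₀)
      (fun m => em i₀ (T m) + X i₀ ^ (e + 1) * f m)) =
      em i₀ (c i) + X i₀ ^ (2 * e + 1) * ∑ m, f m * em i₀ (B i m) +
        X i₀ ^ (2 * e + 2) * q' i := by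
    intro i
    have h1 : ∀ l, em i₀ (A.adjugate i l) * (R l).subst (Sum.elim (fun _ => X i₀)
        (fun m => em i₀ (T m) + X i₀ ^ (e + 1) * f m)) =
        em i₀ (A.adjugate i l * (R l).subst (crv T)) +
          X i₀ ^ (e + 1) * ∑ m, f m * em i₀ (A.adjugate i l * D l m) +
          X i₀ ^ (2 * e + 2) * (em i₀ (A.adjugate i l) * q l) := by
      intro l
      rw [hq l]
      have h2 : ∑ m, f m * em i₀ (A.adjugate i l * D l m) =
          em i₀ (A.adjugate i l) * ∑ m, f m * em i₀ (D l m) := by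
        rw [Finset.mul_sum]
        refine Finset.sum_congr rfl fun m _ => ?_
        rw [em_mul]; ring
      rw [h2, em_mul, show 2 * (e + 1) = 2 * e + 2 by ring]
      ring
    rw [Finset.sum_congr rfl fun l _ => h1 l, Finset.sum_add_distrib, Finset.sum_add_distrib,
      ← em_sum, ← Finset.mul_sum, ← Finset.mul_sum, Finset.sum_comm]
    congr 2
    have h3 : ∀ m, ∑ l, f m * em i₀ (A.adjugate i l * D l m) =
        X i₀ ^ e * (f m * em i₀ (B i m)) := by
      intro m
      rw [← Finset.mul_sum, ← em_sum, hB, em_mul, em_pow, em_X]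
      ring
    rw [Finset.sum_congr rfl fun m _ => h3 m, ← Finset.mul_sum]
    ring
  -- evaluation on the curve
  have hKs : ∀ i, c i + X () ^ (2 * e + 1) * ∑ m, u m * B i m +
      X () ^ (2 * e + 2) * (q' i).subst s = 0 := by
    intro i
    have h1 := congrArg (fun F : PS ((Unit ⊕ Fin k) ⊕ Fin r) => F.subst s) (hK i)
    have h2 : (∑ l, em i₀ (A.adjugate i l) * (R l).subst (Sum.elim (fun _ => X i₀)
        (fun m => em i₀ (T m) + X i₀ ^ (e + 1) * f m))).subst s = 0 := by
      rw [← coe_substAlgHom (hs hs0), map_sum]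
      apply Finset.sum_eq_zero
      intro l _
      rw [map_mul, coe_substAlgHom, hsH, mul_zero]
    have h3 : (∑ m, f m * em i₀ (B i m)).subst s = ∑ m, u m * B i m := by
      rw [← coe_substAlgHom (hs hs0), map_sum]
      refine Finset.sum_congr rfl fun m _ => ?_
      rw [map_mul, coe_substAlgHom, hsf, hsem]
    rw [h2, subst_add (hs hs0), subst_add (hs hs0), subst_mul (hs hs0), subst_mul (hs hs0),
      subst_pow (hs hs0), subst_pow (hs hs0), hsem, hsX, h3] at h1
    exact h1.symm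
  have hcd : ∀ i, (X () : PS Unit) ^ (2 * e + 2) ∣ c i := by
    intro i
    have h1 : (X () : PS Unit) ∣ ∑ m, u m * B i m :=
      Finset.dvd_sum fun m _ => (X_dvd_of_z0 (hu0 m)).mul_right _
    obtain ⟨w, hw⟩ := h1
    refine ⟨-(w + (q' i).subst s), ?_⟩
    have h2 := hKs i
    rw [hw] at h2
    linear_combination h2
  choose c' hc' using hcd
  have hcc' : ∀ i, Conv (c i) := fun i => (cR hCNV _).sum_mem fun l _ =>
    (cR hCNV _).mul_mem (hadj i l) (conv_subst hCNV hCNS (hR l).1 hcc hcT)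
  have hc'c : ∀ i, Conv (c' i) := fun i => conv_div (hc' i) (hcc' i)
  have hem : ∀ h : PS Unit, Conv h → Conv (em i₀ h) := fun h hh =>
    conv_subst hCNV hCNS hh (fun _ => conv_X hCNV i₀) (em_z0 i₀)
  have hq'c : ∀ i, Conv (q' i) := fun i => (cR hCNV _).sum_mem fun l _ =>
    (cR hCNV _).mul_mem (hem _ (hadj i l)) (hqc l)
  -- the system for the implicit function theorem
  set G : Fin r → PS ((Unit ⊕ Fin k) ⊕ Fin r) := fun i =>
    X i₀ * em i₀ (c' i) + ∑ m, f m * em i₀ (B i m) + X i₀ * q' i with hG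
  have hGc : ∀ i, Conv (G i) ∧ Z0 (G i) := by
    intro i
    refine ⟨?_, ?_⟩
    · refine (cR hCNV _).add_mem ((cR hCNV _).add_mem ?_ ?_) ?_
      · exact (cR hCNV _).mul_mem (conv_X hCNV _) (hem _ (hc'c i))
      · exact (cR hCNV _).sum_mem fun m _ => (cR hCNV _).mul_mem (hfc m).1 (hem _ (hBc i m))
      · exact (cR hCNV _).mul_mem (conv_X hCNV _) (hq'c i)
    · refine z0_add (z0_add (z0_mul (z0_X _)) ?_) (z0_mul (z0_X _))
      unfold Z0
      rw [map_sum]
      exact Finset.sum_eq_zero fun m _ => z0_mul (hfc m).2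
  have hGs : ∀ i, (G i).subst s = 0 := by
    intro i
    have h1 : (G i).subst s = X () * c' i + ∑ m, u m * B i m + X () * (q' i).subst s := by
      have h3 : (∑ m, f m * em i₀ (B i m)).subst s = ∑ m, u m * B i m := by
        rw [← coe_substAlgHom (hs hs0), map_sum]
        refine Finset.sum_congr rfl fun m _ => ?_
        rw [map_mul, coe_substAlgHom, hsf, hsem]
      simp only [hG]
      rw [subst_add (hs hs0), subst_add (hs hs0), subst_mul (hs hs0), subst_mul (hs hs0),
        hsem, hsX, h3]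
    have h2 : X () ^ (2 * e + 1) * (G i).subst s = 0 := by
      rw [h1]
      have h3 := hKs i
      rw [hc' i] at h3
      linear_combination h3
    rcases mul_eq_zero.1 h2 with h3 | h3
    · exact absurd h3 (hXne _)
    · exact h3
  have hlin : ∀ i j, lin (G i) (Sum.inr j) = constantCoeff (B i (g j)) := by
    intro i j
    have hX : pderiv ℂ (Sum.inr j) (X i₀ : PS ((Unit ⊕ Fin k) ⊕ Fin r)) = 0 :=
      pderiv_X_of_ne (by simp [hi₀])
    have hfm : ∀ m, constantCoeff (pderiv ℂ (Sum.inr j) (f m)) = if m = g j then 1 else 0 := by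
      intro m
      simp only [hf]
      rcases hm : E m with i' | j'
      · show constantCoeff (pderiv ℂ (Sum.inr j) (X (Sum.inr i'))) = _
        by_cases hij : i' = j
        · subst hij
          have : g i' = m := E.injective (by rw [hE, hm])
          rw [pderiv_X_self, if_pos this.symm, map_one]
        · rw [pderiv_X_of_ne (by simpa using hij), if_neg, map_zero]
          intro h
          rw [h, hE] at hm
          exact hij (Sum.inl_injective hm).symm
      · show constantCoeff (pderiv ℂ (Sum.inr j) (X (Sum.inl (Sum.inr j')))) = _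
        rw [pderiv_X_of_ne (by simp), if_neg, map_zero]
        intro h
        rw [h, hE] at hm
        exact absurd hm (by simp)
    rw [lin_eq]
    simp only [hG]
    rw [map_add, map_add, map_add, map_add, map_sum, map_sum, Derivation.leibniz,
      Derivation.leibniz, hX]
    simp only [smul_eq_mul, mul_zero, add_zero, map_mul]
    have hXi : constantCoeff (X i₀ : PS ((Unit ⊕ Fin k) ⊕ Fin r)) = 0 := z0_X _
    rw [hXi, zero_mul, zero_mul, zero_add, add_zero, Finset.sum_eq_single (g j)]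
    · rw [Derivation.leibniz, smul_eq_mul, smul_eq_mul, map_add, map_mul, map_mul,
        show constantCoeff (f (g j)) = 0 from (hfc _).2, hfm, if_pos rfl, em_const]
      ring
    · intro m _ hm
      rw [Derivation.leibniz, smul_eq_mul, smul_eq_mul, map_add, map_mul, map_mul,
        show constantCoeff (f m) = 0 from (hfc _).2, hfm, if_neg hm]
      ring
    · intro h; exact absurd (Finset.mem_univ _) h
  have hdet : Matrix.det (Matrix.of fun i j => lin (G i) (Sum.inr j)) ≠ 0 := by
    have h1 : (Matrix.of fun i j => lin (G i) (Sum.inr j)) =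
        Matrix.diagonal fun i => constantCoeff (B i (g i)) := by
      refine Matrix.ext fun i j => ?_
      show lin (G i) (Sum.inr j) = _
      rw [hlin, Matrix.diagonal_apply]
      by_cases hij : i = j
      · subst hij; rw [if_pos rfl]
      · rw [if_neg hij, hB0 i j hij, map_zero]
    rw [h1, Matrix.det_diagonal]
    exact Finset.prod_ne_zero_iff.2 fun i _ => hB1 i
  obtain ⟨Ψ, hΨ, _, hΨ3⟩ := hIFT (Unit ⊕ Fin k) r G hGc hdet
  refine ⟨Ψ, hΨ, ?_⟩
  exact hΨ3 Unit (crv v) (fun i => u (g i)) (z0_crv hv0) (fun i => hu0 _) hGs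

end GermM

end

end Pool.Agent.Lib.MP_2184e2_an.Loc
end

section
/-!
# GERM: formal curve germs
-/
set_option autoImplicit false

namespace Pool.Agent.Lib.MP_2184e2_an.Loc

open MvPowerSeries Filter Topology

noncomputable section

namespace GermM

/-- blow up: remove the terms of degree `≤ n` and divide by `X ^ n` -/
def bl (n : ℕ) (f : PS Unit) : PS Unit :=
  fun d => if d = 0 then 0 else coeff (d + Finsupp.single () n) f

/-- truncation in degrees `≤ n` -/
def tr (n : ℕ) (f : PS Unit) : PS Unit := ((f.truncTotal (n + 1) : MvPolynomial Unit ℂ) : PS Unit)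

theorem coeff_bl (n : ℕ) (f : PS Unit) (d : Unit →₀ ℕ) :
    coeff d (bl n f) = if d = 0 then 0 else coeff (d + Finsupp.single () n) f := rfl

theorem z0_bl (n : ℕ) (f : PS Unit) : Z0 (bl n f) := by
  unfold Z0
  rw [← coeff_zero_eq_constantCoeff_apply, coeff_bl, if_pos rfl]

theorem bl_bl (m n : ℕ) (f : PS Unit) : bl m (bl n f) = bl (m + n) f := by
  apply MvPowerSeries.ext
  intro d
  rw [coeff_bl, coeff_bl, coeff_bl]
  by_cases hd : d = 0
  · rw [if_pos hd, if_pos hd]
  · rw [if_neg hd, if_neg hd, if_neg, Finsupp.single_add, add_assoc]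
    intro h
    apply hd
    rw [add_eq_zero] at h
    exact h.1

theorem tr_add (n : ℕ) (f : PS Unit) : f = tr n f + X () ^ n * bl n f := by
  classical
  apply MvPowerSeries.ext
  intro d
  rw [map_add]
  show coeff d f = MvPowerSeries.coeff d ((f.truncTotal (n + 1) : MvPolynomial Unit ℂ) : PS Unit) +
    coeff d (X () ^ n * bl n f)
  rw [MvPolynomial.coeff_coe, X_pow_eq, coeff_monomial_mul, one_mul]
  have hdeg : d.degree = d () := by
    rw [Finsupp.degree_eq_sum]; simp
  by_cases hd : d.degree < n + 1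
  · rw [coeff_truncTotal _ hd]
    have h2 : (if Finsupp.single () n ≤ d then coeff (d - Finsupp.single () n) (bl n f) else 0) =
        0 := by
      split_ifs with h
      · rw [coeff_bl, if_pos]
        have h3 : n ≤ d () := by rwa [Finsupp.single_le_iff] at h
        ext
        show d () - (Finsupp.single () n) () = 0
        rw [Finsupp.single_eq_same]
        omega
      · rfl
    rw [h2, add_zero]
  · have h3 : Finsupp.single () n ≤ d := by
      rw [Finsupp.single_le_iff]; omega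
    rw [coeff_truncTotal_eq_zero _ (by omega), if_pos h3, coeff_bl, if_neg,
      tsub_add_cancel_of_le h3, zero_add]
    intro h
    have h4 := DFunLike.congr_fun h ()
    simp only [Finsupp.tsub_apply, Finsupp.single_eq_same, Finsupp.coe_zero, Pi.zero_apply] at h4
    omega

theorem z0_tr (n : ℕ) {f : PS Unit} (hf : Z0 f) : Z0 (tr n f) := by
  unfold Z0 tr
  rw [← coeff_zero_eq_constantCoeff_apply, MvPolynomial.coeff_coe, coeff_truncTotal _ (by simp)]
  exact hf

theorem exists_not_dvd {f : PS Unit} (hf : f ≠ 0) : ∃ e : ℕ, ¬ (X () : PS Unit) ^ (e + 1) ∣ f := by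
  by_contra hcon
  push Not at hcon
  apply hf
  apply MvPowerSeries.ext
  intro d
  rw [map_zero]
  exact X_pow_dvd_iff.1 (hcon (d ())) d (by omega)

end GermM

open GermM in
/-- GERM: every formal curve germ is a convergent image of a formal curve without convergent
relations. -/
theorem specGERM (hCNV : SpecCNV) (hCNS : SpecCNS) (hCHN : SpecCHN) (hIFT : SpecIFT) :
    SpecGERM := by
  classical
  intro M y hy
  -- the maximal rank
  obtain ⟨r, ⟨n, hn⟩, hmax⟩ : ∃ r : ℕ, (∃ n : ℕ, HasR (fun m => bl n (y m)) (Fin r)) ∧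
      ¬ ∃ n : ℕ, HasR (fun m => bl n (y m)) (Fin (r + 1)) := by
    set P : ℕ → Prop := fun r => ∃ n : ℕ, HasR (fun m => bl n (y m)) (Fin r) with hP
    have hP0 : P 0 := ⟨0, hasR_zero _⟩
    have hPM : ∀ r, P r → r ≤ M := fun r ⟨n, hn⟩ => hn.le
    refine ⟨Nat.findGreatest P M, Nat.findGreatest_spec (Nat.zero_le M) hP0, fun h => ?_⟩
    exact Nat.findGreatest_is_greatest (Nat.lt_succ_self _) (hPM _ h) h
  set y' : Fin M → PS Unit := fun m => bl n (y m) with hy'
  have hy'0 : ∀ m, Z0 (y' m) := fun m => z0_bl n (y m)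
  -- the minimal order
  have hQ : ∃ e : ℕ, ∃ (R : Fin r → PS (Unit ⊕ Fin M)) (g : Fin r → Fin M),
      (∀ i, Rel y' (R i)) ∧ ¬ (X () : PS Unit) ^ (e + 1) ∣ (Mt R g y').det := by
    obtain ⟨R, g, h1, h2⟩ := hn
    obtain ⟨e, he⟩ := exists_not_dvd h2
    exact ⟨e, R, g, h1, he⟩
  set e := Nat.find hQ with he'
  obtain ⟨R, g, hR, he⟩ := Nat.find_spec hQ
  have hall : ∀ g' : Fin r → Fin M, (X () : PS Unit) ^ e ∣ (Mt R g' y').det := by
    intro g'
    rcases Nat.eq_zero_or_pos e with h0 | h0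
    · rw [h0, pow_zero]; exact one_dvd _
    · by_contra hcon
      have h1 : e - 1 < Nat.find hQ := by omega
      apply Nat.find_min hQ h1
      refine ⟨R, g', hR, ?_⟩
      rwa [show e - 1 + 1 = e by omega]
  have hdet : (Mt R g y').det ≠ 0 := fun h => he (by rw [h]; exact dvd_zero _)
  have hg := Mt_inj hdet
  -- the splitting of the coordinates
  obtain ⟨k, E, hE⟩ : ∃ (k : ℕ) (E : Fin M ≃ Fin r ⊕ Fin k), ∀ i, E (g i) = Sum.inl i := by
    refine ⟨Fintype.card ↥(Set.range g)ᶜ, (Equiv.Set.sumCompl (Set.range g)).symm.trans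
      (Equiv.sumCongr (Equiv.ofInjective g hg).symm (Fintype.equivFin _)), fun i => ?_⟩
    rw [Equiv.trans_apply, Equiv.Set.sumCompl_symm_apply_of_mem (Set.mem_range_self i)]
    show Sum.inl _ = Sum.inl i
    congr 1
    exact Equiv.ofInjective_symm_apply hg i
  have hT : ∀ m, Conv (tr (e + 1) (y' m)) ∧ Z0 (tr (e + 1) (y' m)) := fun m =>
    ⟨conv_poly hCNV _, z0_tr _ (hy'0 m)⟩
  obtain ⟨Ψ, hΨ, hu⟩ := step hCNV hCNS hIFT y' hy'0 R hR g E hE e he hall
    (fun m => tr (e + 1) (y' m)) (fun m => bl (e + 1) (y' m)) hT (fun m => z0_bl _ _)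
    (fun m => tr_add (e + 1) (y' m))
  set u : Fin M → PS Unit := fun m => bl (e + 1) (y' m) with hu'
  set v : Fin k → PS Unit := fun j => u (E.symm (Sum.inr j)) with hv
  have hu0 : ∀ m, Z0 (u m) := fun m => z0_bl _ _
  have hv0 : ∀ j, Z0 (v j) := fun j => hu0 _
  have hno : ¬ HasR u (Fin (r + 1)) := by
    intro h
    apply hmax
    refine ⟨e + 1 + n, ?_⟩
    have : u = fun m => bl (e + 1 + n) (y m) := by
      funext m
      exact bl_bl _ _ _
    rw [← this]
    exact h
  have hcv := z0_crv hv0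
  have hem : ∀ f : PS Unit, (em (Sum.inl ()) f : PS (Unit ⊕ Fin k)).subst (crv v) = f := by
    intro f
    rw [em_subst _ _ hcv]
    exact subst_unit_self f
  have hX : (X (Sum.inl ()) : PS (Unit ⊕ Fin k)).subst (crv v) = X () := subst_X' hcv _
  have hemc : ∀ f : PS Unit, Conv f → Conv (em (Sum.inl ()) f : PS (Unit ⊕ Fin k)) := fun f hf =>
    conv_subst hCNV hCNS hf (fun _ => conv_X hCNV _) (em_z0 _)
  -- the coordinates of `u`
  set W : Fin M → PS (Unit ⊕ Fin k) := fun m => Sum.elim Ψ (fun j => X (Sum.inr j)) (E m) with hW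
  have hWc : ∀ m, Conv (W m) ∧ Z0 (W m) := by
    intro m
    simp only [hW]
    rcases E m with i | j
    · exact hΨ i
    · exact ⟨conv_X hCNV _, z0_X _⟩
  have hWu : ∀ m, (W m).subst (crv v) = u m := by
    intro m
    simp only [hW]
    rcases hm : E m with i | j
    · show (Ψ i).subst (crv v) = u m
      rw [← hu i]
      have : g i = m := E.injective (by rw [hE, hm])
      rw [this]
    · show (X (Sum.inr j) : PS (Unit ⊕ Fin k)).subst (crv v) = u m
      rw [subst_X' hcv]
      show u (E.symm (Sum.inr j)) = u m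
      rw [← hm, E.symm_apply_apply]
  refine ⟨k, v, fun m => em (Sum.inl ()) (tr n (y m)) + X (Sum.inl ()) ^ n *
    (em (Sum.inl ()) (tr (e + 1) (y' m)) + X (Sum.inl ()) ^ (e + 1) * W m), hv0, ?_, ?_, ?_⟩
  · intro m
    refine ⟨?_, ?_⟩
    · have hXc : Conv (X (Sum.inl ()) : PS (Unit ⊕ Fin k)) := conv_X hCNV _
      refine (cR hCNV _).add_mem (hemc _ (conv_poly hCNV _)) ((cR hCNV _).mul_mem
        ((cR hCNV _).pow_mem hXc _) ((cR hCNV _).add_mem (hemc _ (hT m).1)
          ((cR hCNV _).mul_mem ((cR hCNV _).pow_mem hXc _) (hWc m).1)))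
    · exact z0_add (z0_em _ (z0_tr _ (hy m))) (z0_mul' (z0_add (z0_em _ (hT m).2)
        (z0_mul' (hWc m).2)))
  · intro m
    rw [subst_add (hs hcv), subst_mul (hs hcv), subst_add (hs hcv), subst_mul (hs hcv),
      subst_pow (hs hcv), subst_pow (hs hcv), hem, hem, hX, hWu]
    have h1 : y' m = tr (e + 1) (y' m) + X () ^ (e + 1) * u m := tr_add (e + 1) (y' m)
    rw [← h1]
    exact (tr_add n (y m)).symm
  · exact fun S hS hS0 => norel hCHN hCNV hv0 (fun F hF hF0 j =>
      hp_of hCHN hCNV hCNS u hu0 g E hE Ψ hΨ hu hno F hF hF0 j) S hS hS0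

end

end Pool.Agent.Lib.MP_2184e2_an.Loc
end

section
/-! # MP_2184e2_an, local theorem: lemmas on `part` (used in LA, LA1) -/
set_option autoImplicit false

namespace Pool.Agent.Lib.MP_2184e2_an.Loc

open MvPowerSeries Filter Topology
open scoped ContDiff LaurentPolynomial

noncomputable section

namespace PartM

variable {ι κ ν : Type}

/-- the first half of an exponent -/
abbrev nl (n : ι ⊕ ν →₀ ℕ) : ι →₀ ℕ := n.comapDomain Sum.inl Sum.inl_injective.injOn

/-- the second half of an exponent -/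
abbrev nr (n : ι ⊕ ν →₀ ℕ) : ν →₀ ℕ := n.comapDomain Sum.inr Sum.inr_injective.injOn

theorem se (n : ι ⊕ ν →₀ ℕ) : (nl n).sumElim (nr n) = n :=
  Finsupp.comapDomain_sumElim_comapDomain n

theorem nl_se (a : ι →₀ ℕ) (b : ν →₀ ℕ) : nl (a.sumElim b) = a :=
  Finsupp.comapDomain_inl_sumElim a b

theorem nr_se (a : ι →₀ ℕ) (b : ν →₀ ℕ) : nr (a.sumElim b) = b :=
  Finsupp.comapDomain_inr_sumElim a b

theorem coeff_part (a : ι →₀ ℕ) (b : ν →₀ ℕ) (f : PS (ι ⊕ ν)) :
    coeff a (part b f) = coeff (a.sumElim b) f := rfl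

theorem se_inj {a a' : ι →₀ ℕ} {b b' : ν →₀ ℕ} (h : a.sumElim b = a'.sumElim b') :
    a = a' ∧ b = b' :=
  ⟨by rw [← nl_se a b, h, nl_se], by rw [← nr_se a b, h, nr_se]⟩

theorem nl_add (p q : ι ⊕ ν →₀ ℕ) : nl (p + q) = nl p + nl q := by
  ext i
  rfl

theorem nr_add (p q : ι ⊕ ν →₀ ℕ) : nr (p + q) = nr p + nr q := by
  ext i
  rfl

theorem part_add (b : ν →₀ ℕ) (f g : PS (ι ⊕ ν)) : part b (f + g) = part b f + part b g := by
  ext a
  simp [coeff_part]

theorem part_sub (b : ν →₀ ℕ) (f g : PS (ι ⊕ ν)) : part b (f - g) = part b f - part b g := by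
  ext a
  simp [coeff_part]

theorem part_zero (b : ν →₀ ℕ) : part b (0 : PS (ι ⊕ ν)) = 0 := by
  ext a
  simp [coeff_part]

theorem part_ext {f g : PS (ι ⊕ ν)} (h : ∀ b, part b f = part b g) : f = g := by
  ext n
  rw [← se n, ← coeff_part, ← coeff_part, h]

theorem hsIL : HasSubst (iL : ι → PS (ι ⊕ ν)) :=
  HasSubst.X_comp (f := (Function.Embedding.inl : ι ↪ ι ⊕ ν))

theorem coeff_iL [DecidableEq ν] (g : PS ι) (a : ι →₀ ℕ) (b : ν →₀ ℕ) :
    coeff (a.sumElim b) (g.subst (iL : ι → PS (ι ⊕ ν))) = if b = 0 then coeff a g else 0 := by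
  have h0 : g.subst (iL : ι → PS (ι ⊕ ν)) = rename (Function.Embedding.inl : ι ↪ ι ⊕ ν) g :=
    (rename_eq_subst (f := (Function.Embedding.inl : ι ↪ ι ⊕ ν)) (p := g)).symm
  rw [h0]
  split_ifs with h
  · subst h
    have := coeff_embDomain_rename (Function.Embedding.inl : ι ↪ ι ⊕ ν) g a
    rwa [Finsupp.embDomain_inl] at this
  · apply coeff_rename_eq_zero
    rintro ⟨c, hc⟩
    apply h
    have h1 := congrArg nr hc
    rw [nr_se] at h1
    rw [← h1]
    ext j
    change (Finsupp.mapDomain (Function.Embedding.inl : ι ↪ ι ⊕ ν) c) (Sum.inr j) = 0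
    rw [← Finsupp.embDomain_eq_mapDomain, Finsupp.embDomain_inl]
    rfl

/-- multiplication by a series in the first variables -/
theorem part_iL_mul (g : PS ι) (f : PS (ι ⊕ ν)) (b : ν →₀ ℕ) :
    part b (g.subst (iL : ι → PS (ι ⊕ ν)) * f) = g * part b f := by
  classical
  ext a
  rw [coeff_part, coeff_mul, coeff_mul]
  symm
  apply Finset.sum_of_injOn (fun p : (ι →₀ ℕ) × (ι →₀ ℕ) =>
    ((p.1.sumElim 0, p.2.sumElim b) : (ι ⊕ ν →₀ ℕ) × (ι ⊕ ν →₀ ℕ)))
  · intro p _ q _ h
    have h1 := se_inj (congrArg Prod.fst h)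
    have h2 := se_inj (congrArg Prod.snd h)
    exact Prod.ext h1.1 h2.1
  · intro p hp
    rw [Finset.mem_coe, Finset.HasAntidiagonal.mem_antidiagonal] at hp ⊢
    change p.1.sumElim 0 + p.2.sumElim b = _
    rw [← Finsupp.sumElim_add, hp, zero_add]
  · intro p hp hp'
    rw [Finset.HasAntidiagonal.mem_antidiagonal] at hp
    by_cases h : nr p.1 = 0
    · exfalso
      apply hp'
      refine ⟨(nl p.1, nl p.2), ?_, ?_⟩
      · rw [Finset.mem_coe, Finset.HasAntidiagonal.mem_antidiagonal]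
        change nl p.1 + nl p.2 = a
        rw [← nl_add, hp, nl_se]
      · have h1 : nr p.2 = b := by
          have := congrArg nr hp
          rwa [nr_add, nr_se, h, zero_add] at this
        refine Prod.ext ?_ ?_
        · change (nl p.1).sumElim 0 = p.1
          rw [← h, se]
        · change (nl p.2).sumElim b = p.2
          rw [← h1, se]
    · rw [← se p.1, coeff_iL, if_neg h, zero_mul]
  · intro p _
    rw [coeff_iL, if_pos rfl, coeff_part]

/-- the lift of a substitution -/
def lft (a : ι → PS κ) : ι ⊕ ν → PS (κ ⊕ ν) :=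
  Sum.elim (fun i => (a i).subst iL) (fun j => X (Sum.inr j))

theorem z0_iL {g : PS ι} (hg : Z0 g) : Z0 (g.subst (iL : ι → PS (ι ⊕ ν))) := by
  classical
  have h : (0 : ι ⊕ ν →₀ ℕ) = (0 : ι →₀ ℕ).sumElim (0 : ν →₀ ℕ) := by simp
  rw [Z0, ← coeff_zero_eq_constantCoeff_apply, h, coeff_iL, if_pos rfl,
    coeff_zero_eq_constantCoeff_apply]
  exact hg

theorem z0_lft {a : ι → PS κ} (ha : ∀ i, Z0 (a i)) (x : ι ⊕ ν) : Z0 (lft (ν := ν) a x) := by
  rcases x with i | j
  · exact z0_iL (ha i)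
  · simp [lft, Z0]

theorem hs_z [Finite ι] {a : ι → PS κ} (ha : ∀ i, Z0 (a i)) : HasSubst a :=
  hasSubst_of_constantCoeff_zero ha

/-- the parts of a lifted substitution -/
theorem part_lft [Finite ι] [Finite ν] {a : ι → PS κ} (ha : ∀ i, Z0 (a i)) (f : PS (ι ⊕ ν))
    (b : ν →₀ ℕ) : part b (f.subst (lft a)) = (part b f).subst a := by
  classical
  have := Fintype.ofFinite ι
  have := Fintype.ofFinite ν
  ext c
  rw [coeff_part, coeff_subst (hs_z (z0_lft ha)), coeff_subst (hs_z ha)]
  have h1 : ∀ d : ι ⊕ ν →₀ ℕ, coeff (c.sumElim b) (d.prod fun s e => lft (ν := ν) a s ^ e) =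
      if nr d = b then coeff c ((nl d).prod fun s e => a s ^ e) else 0 := by
    intro d
    have h2 : (d.prod fun s e => lft (ν := ν) a s ^ e) =
        ((nl d).prod fun s e => a s ^ e).subst (iL : κ → PS (κ ⊕ ν)) *
          monomial ((0 : κ →₀ ℕ).sumElim (nr d)) 1 := by
      rw [Finsupp.prod_fintype _ _ (fun t => pow_zero _),
        Finsupp.prod_fintype _ _ (fun t => pow_zero _), Fintype.prod_sum_type]
      congr 1
      · rw [← substAlgHom_apply hsIL, map_prod]
        refine Finset.prod_congr rfl fun i _ => ?_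
        rw [map_pow, substAlgHom_apply]
        rfl
      · have h3 : ∀ n : ν →₀ ℕ, ∏ j : ν, (X (Sum.inr j) : PS (κ ⊕ ν)) ^ n j =
            monomial ((0 : κ →₀ ℕ).sumElim n) 1 := by
          intro n
          simp only [X_pow_eq]
          rw [prod_monomial]
          simp only [Finset.prod_const_one]
          congr 2
          refine Finsupp.ext fun x => ?_
          rw [Finsupp.finsetSum_apply]
          rcases x with i | j
          · rw [Finsupp.sumElim_inl, Finsupp.zero_apply]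
            refine Finset.sum_eq_zero fun k _ => ?_
            rw [Finsupp.single_apply, if_neg (by simp)]
          · rw [Finsupp.sumElim_inr, Finset.sum_eq_single j]
            · simp
            · intro k _ hk
              rw [Finsupp.single_apply, if_neg (by simpa using hk)]
            · simp
        exact h3 (nr d)
    rw [h2, ← coeff_part, part_iL_mul]
    have h4 : part b (monomial ((0 : κ →₀ ℕ).sumElim (nr d)) 1 : PS (κ ⊕ ν)) =
        if nr d = b then 1 else 0 := by
      ext x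
      rw [coeff_part, coeff_monomial]
      split_ifs with h5 h6 h6
      · rw [(se_inj h5).1]
        simp
      · exact absurd (se_inj h5).2.symm h6
      · subst h6
        rw [coeff_one, if_neg]
        intro h7
        apply h5
        rw [h7]
      · simp
    rw [h4]
    split_ifs
    · rw [mul_one]
    · rw [mul_zero, map_zero]
  simp only [h1]
  set F : (ι ⊕ ν →₀ ℕ) → ℂ := fun d =>
    coeff d f • (if nr d = b then coeff c ((nl d).prod fun s e => a s ^ e) else 0) with hF
  have hg : Function.Injective (fun p : ι →₀ ℕ => p.sumElim b) := fun p q h => (se_inj h).1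
  have h5 : ∑ᶠ d, F d = ∑ᶠ d ∈ Set.range (fun p : ι →₀ ℕ => p.sumElim b), F d := by
    rw [← finsum_mem_univ]
    apply finsum_mem_inter_support_eq'
    intro d hd
    refine ⟨fun _ => ⟨nl d, ?_⟩, fun _ => Set.mem_univ _⟩
    by_contra h
    apply hd
    simp only [hF]
    rw [if_neg, smul_zero]
    intro h6
    apply h
    change (nl d).sumElim b = d
    rw [← h6, se]
  rw [h5, finsum_mem_range hg]
  refine finsum_congr fun p => ?_
  simp only [hF]
  rw [nr_se, nl_se, if_pos rfl]
  rfl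

/-- the ideal of series all of whose parts of order `≤ J` vanish -/
def IJ (ι ν : Type) (J : ℕ) : Ideal (PS (ι ⊕ ν)) where
  carrier := {f | ∀ n, (nr n).degree ≤ J → coeff n f = 0}
  add_mem' := by
    intro f g hf hg n hn
    rw [map_add, hf n hn, hg n hn, add_zero]
  zero_mem' := by
    intro n _
    exact map_zero _
  smul_mem' := by
    classical
    intro c f hf n hn
    rw [smul_eq_mul, coeff_mul]
    refine Finset.sum_eq_zero fun p hp => ?_
    rw [Finset.HasAntidiagonal.mem_antidiagonal] at hp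
    rw [hf p.2, mul_zero]
    have h1 := congrArg nr hp
    rw [nr_add] at h1
    have h2 := congrArg Finsupp.degree h1
    rw [map_add] at h2
    omega

theorem mem_IJ {J : ℕ} {f : PS (ι ⊕ ν)} :
    f ∈ IJ ι ν J ↔ ∀ b : ν →₀ ℕ, b.degree ≤ J → part b f = 0 := by
  constructor
  · intro h b hb
    ext a
    exact h (a.sumElim b) (by rwa [nr_se])
  · intro h n hn
    have h1 := congrArg (coeff (nl n)) (h (nr n) hn)
    rwa [coeff_part, se, map_zero] at h1

/-- congruent series modulo `IJ` -/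
theorem subst_congr {μ : Type} {J : ℕ} {a a' : μ → PS (ι ⊕ ν)} (ha : HasSubst a)
    (ha' : HasSubst a') (h : ∀ i, a i - a' i ∈ IJ ι ν J) (f : PS μ) :
    f.subst a - f.subst a' ∈ IJ ι ν J := by
  intro n hn
  rw [map_sub, coeff_subst ha, coeff_subst ha', sub_eq_zero]
  refine finsum_congr fun d => ?_
  congr 1
  have h1 : (d.prod fun s e => a s ^ e) - (d.prod fun s e => a' s ^ e) ∈ IJ ι ν J := by
    rw [← Ideal.Quotient.eq, Finsupp.prod, Finsupp.prod, map_prod, map_prod]
    refine Finset.prod_congr rfl fun i _ => ?_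
    rw [map_pow, map_pow, Ideal.Quotient.eq.2 (h i)]
  have h2 := h1 n hn
  rwa [map_sub, sub_eq_zero] at h2

theorem part_pderiv (b : ν →₀ ℕ) (x : ι) (f : PS (ι ⊕ ν)) :
    part b (pderiv ℂ (Sum.inl x) f) = pderiv ℂ x (part b f) := by
  ext a
  rw [coeff_part, coeff_pderiv, coeff_pderiv, coeff_part]
  have h1 : a.sumElim b + Finsupp.single (Sum.inl x) 1 =
      (a + Finsupp.single x 1).sumElim b := by
    conv_rhs => rw [← add_zero b, Finsupp.sumElim_add, Finsupp.sumElim_single_zero]
  rw [h1, Finsupp.sumElim_inl]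

theorem pderiv_mem {J : ℕ} {f : PS (ι ⊕ ν)} (hf : f ∈ IJ ι ν J) (x : ι) :
    pderiv ℂ (Sum.inl x) f ∈ IJ ι ν J := by
  rw [mem_IJ] at hf ⊢
  intro b hb
  rw [part_pderiv, hf b hb, map_zero]

/-- the weight with respect to the second variables -/
def wt : ι ⊕ ν → ℕ := Sum.elim (fun _ => 0) (fun _ => 1)

theorem weight_wt (n : ι ⊕ ν →₀ ℕ) : Finsupp.weight (wt : ι ⊕ ν → ℕ) n = (nr n).degree := by
  rw [Finsupp.weight_apply]
  conv_lhs => rw [← se n]
  rw [Finsupp.sum_sumElim]
  have h1 : (nl n).sum ((fun i c => c • (wt i : ℕ)) ∘ (Sum.inl : ι → ι ⊕ ν)) = 0 := by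
    apply Finset.sum_eq_zero
    intro i _
    simp [wt]
  rw [h1, zero_add, Finsupp.sum, Finsupp.degree_apply]
  apply Finset.sum_congr rfl
  intro i _
  simp [wt]

/-- in the domain of power series the orders with respect to the second variables add up -/
theorem order_cancel {J e : ℕ} {f g : PS (ι ⊕ ν)} (hf : f ∉ IJ ι ν e)
    (hfg : f * g ∈ IJ ι ν (J + e)) : g ∈ IJ ι ν J := by
  have h1 : f.weightedOrder wt ≤ e := by
    by_contra hcon
    apply hf
    intro n hn
    apply coeff_eq_zero_of_lt_weightedOrder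
    rw [weight_wt]
    refine lt_of_le_of_lt ?_ (not_le.1 hcon)
    exact_mod_cast hn
  have h2 : ((J + e + 1 : ℕ) : ℕ∞) ≤ (f * g).weightedOrder wt := by
    apply nat_le_weightedOrder
    intro d hd
    rw [weight_wt] at hd
    exact hfg d (by omega)
  rw [weightedOrder_mul] at h2
  have h3 : ((J + 1 : ℕ) : ℕ∞) ≤ g.weightedOrder wt := by
    by_contra hcon
    rw [not_le] at hcon
    have h4 : g.weightedOrder wt ≤ (J : ℕ∞) := by
      rw [Nat.cast_add, Nat.cast_one] at hcon
      exact Order.lt_add_one_iff_of_not_isMax (by simp) |>.1 hcon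
    have h5 : ((J + e + 1 : ℕ) : ℕ∞) ≤ ((e + J : ℕ) : ℕ∞) := by
      refine h2.trans ?_
      rw [Nat.cast_add]
      exact add_le_add h1 h4
    have h6 : J + e + 1 ≤ e + J := by exact_mod_cast h5
    omega
  intro n hn
  apply coeff_eq_zero_of_lt_weightedOrder
  rw [weight_wt]
  refine lt_of_lt_of_le ?_ h3
  exact_mod_cast Nat.lt_succ_of_le hn

end PartM

end

end Pool.Agent.Lib.MP_2184e2_an.Loc
end

section
/-! # MP_2184e2_an, local theorem, module SL2 -/
set_option autoImplicit false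

namespace Pool.Agent.Lib.MP_2184e2_an.Loc

open MvPowerSeries Filter Topology
open scoped ContDiff LaurentPolynomial

noncomputable section

namespace Sl2M

/-- orthogonality of characters -/
theorem orth {L : ℕ} (hL : L ≠ 0) {ζ : ℂ} (hζ : IsPrimitiveRoot ζ L) {n d : ℕ} (hn : n < L)
    (hd : d < L) :
    ∑ j ∈ Finset.range L, (ζ ^ j) ^ n * ((ζ ^ j) ^ d)⁻¹ = if n = d then (L : ℂ) else 0 := by
  have hz : ζ ≠ 0 := hζ.ne_zero hL
  have h1 : ∀ j, (ζ ^ j) ^ n * ((ζ ^ j) ^ d)⁻¹ = (ζ ^ n * (ζ ^ d)⁻¹) ^ j := by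
    intro j
    rw [mul_pow, inv_pow, ← pow_mul, ← pow_mul, ← pow_mul, ← pow_mul, mul_comm j n, mul_comm j d]
  simp only [h1]
  split_ifs with h
  · subst h
    simp [mul_inv_cancel₀ (pow_ne_zero n hz)]
  · have hne : ζ ^ n * (ζ ^ d)⁻¹ ≠ 1 := by
      intro h2
      apply h
      apply hζ.pow_inj hn hd
      have h3 : ζ ^ d ≠ 0 := pow_ne_zero d hz
      field_simp at h2
      exact h2
    rw [geom_sum_eq hne]
    have h4 : (ζ ^ n * (ζ ^ d)⁻¹) ^ L = 1 := by
      rw [mul_pow, inv_pow, ← pow_mul, ← pow_mul, mul_comm n L, mul_comm d L, pow_mul, pow_mul,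
        hζ.pow_eq_one]
      simp
    rw [h4, sub_self, zero_div]

/-- Cauchy's estimate for the coefficients of a polynomial on the torus -/
theorem cauchy {T : Type} [Fintype T] [DecidableEq T] (S : Finset (T →₀ ℕ)) (c : (T →₀ ℕ) → ℂ)
    {L : ℕ} (hL : L ≠ 0) (hS : ∀ n ∈ S, ∀ t, n t < L) {M : ℝ}
    (hM : ∀ x : T → ℂ, (∀ t, ‖x t‖ = 1) → ‖∑ n ∈ S, c n * ∏ t, x t ^ n t‖ ≤ M) :
    ∀ d ∈ S, ‖c d‖ ≤ M := by
  intro d hd
  set ζ : ℂ := Complex.exp (2 * Real.pi * Complex.I / L) with hζdef
  have hζ : IsPrimitiveRoot ζ L := Complex.isPrimitiveRoot_exp L hL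
  have hζ1 : ‖ζ‖ = 1 := hζ.norm'_eq_one hL
  let Ω : Finset (T → ℕ) := Fintype.piFinset fun _ => Finset.range L
  have hcard : (Ω.card : ℝ) = (L : ℝ) ^ Fintype.card T := by
    simp [Ω, Fintype.card_piFinset]
  have key : ∑ u ∈ Ω, (∑ n ∈ S, c n * ∏ t, (ζ ^ u t) ^ n t) * ∏ t, ((ζ ^ u t) ^ d t)⁻¹ =
      (L : ℂ) ^ Fintype.card T * c d := by
    calc ∑ u ∈ Ω, (∑ n ∈ S, c n * ∏ t, (ζ ^ u t) ^ n t) * ∏ t, ((ζ ^ u t) ^ d t)⁻¹
        = ∑ u ∈ Ω, ∑ n ∈ S, c n * ∏ t, ((ζ ^ u t) ^ n t * ((ζ ^ u t) ^ d t)⁻¹) := by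
          refine Finset.sum_congr rfl fun u _ => ?_
          rw [Finset.sum_mul]
          refine Finset.sum_congr rfl fun n _ => ?_
          rw [Finset.prod_mul_distrib, mul_assoc]
      _ = ∑ n ∈ S, c n * ∑ u ∈ Ω, ∏ t, ((ζ ^ u t) ^ n t * ((ζ ^ u t) ^ d t)⁻¹) := by
          rw [Finset.sum_comm]
          exact Finset.sum_congr rfl fun n _ => by rw [Finset.mul_sum]
      _ = ∑ n ∈ S, c n * ∏ t : T, (if n t = d t then (L : ℂ) else 0) := by
          refine Finset.sum_congr rfl fun n hn => ?_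
          congr 1
          rw [← Finset.prod_univ_sum (fun _ => Finset.range L)
            (fun t j => (ζ ^ j) ^ n t * ((ζ ^ j) ^ d t)⁻¹)]
          exact Finset.prod_congr rfl fun t _ => orth hL hζ (hS n hn t) (hS d hd t)
      _ = ∑ n ∈ S, if n = d then c d * (L : ℂ) ^ Fintype.card T else 0 := by
          refine Finset.sum_congr rfl fun n _ => ?_
          split_ifs with h
          · subst h
            simp
          · obtain ⟨t, ht⟩ : ∃ t, n t ≠ d t := by
              by_contra hcon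
              push Not at hcon
              exact h (Finsupp.ext hcon)
            rw [Finset.prod_eq_zero (Finset.mem_univ t) (by rw [if_neg ht]), mul_zero]
      _ = (L : ℂ) ^ Fintype.card T * c d := by
          rw [Finset.sum_ite_eq' S d, if_pos hd, mul_comm]
  have hnorm : ‖∑ u ∈ Ω, (∑ n ∈ S, c n * ∏ t, (ζ ^ u t) ^ n t) * ∏ t, ((ζ ^ u t) ^ d t)⁻¹‖ ≤
      Ω.card * M := by
    refine (norm_sum_le _ _).trans ?_
    rw [← nsmul_eq_mul]
    refine Finset.sum_le_card_nsmul _ _ _ fun u _ => ?_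
    rw [norm_mul]
    have h1 : ‖∏ t, ((ζ ^ u t) ^ d t)⁻¹‖ = 1 := by
      rw [norm_prod]
      refine Finset.prod_eq_one fun t _ => ?_
      rw [norm_inv, norm_pow, norm_pow, hζ1]
      simp
    rw [h1, mul_one]
    exact hM _ fun t => by rw [norm_pow, hζ1, one_pow]
  rw [key, norm_mul, hcard, norm_pow, Complex.norm_natCast] at hnorm
  have hpos : (0 : ℝ) < (L : ℝ) ^ Fintype.card T := pow_pos (by positivity) _
  exact le_of_mul_le_mul_left hnorm hpos

/-- Cauchy's estimate in one variable -/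
theorem cauchy1 (q : Polynomial ℂ) {r M : ℝ} (hr : 0 < r)
    (hM : ∀ x : ℂ, ‖x‖ = r → ‖q.eval x‖ ≤ M) (j : ℕ) : ‖q.coeff j‖ * r ^ j ≤ M := by
  classical
  rcases lt_or_ge q.natDegree j with hj | hj
  · rw [Polynomial.coeff_eq_zero_of_natDegree_lt hj, norm_zero, zero_mul]
    exact (norm_nonneg _).trans (hM (r : ℂ) (by simp [abs_of_pos hr]))
  let S : Finset (Unit →₀ ℕ) := (Finset.range (q.natDegree + 1)).image (Finsupp.single ())
  have h1 := cauchy S (fun n => q.coeff (n ()) * (r : ℂ) ^ n ()) (L := q.natDegree + 1)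
    (Nat.succ_ne_zero _) (by
      intro n hn t
      obtain ⟨i, hi, rfl⟩ := Finset.mem_image.1 hn
      simpa using hi) (M := M) (by
      intro x hx
      have h2 : ∑ n ∈ S, (q.coeff (n ()) * (r : ℂ) ^ n ()) * ∏ t, x t ^ n t =
          q.eval ((r : ℂ) * x ()) := by
        rw [Finset.sum_image (fun a _ b _ h => Finsupp.single_injective () h),
          Polynomial.eval_eq_sum_range]
        refine Finset.sum_congr rfl fun i _ => ?_
        simp only [Finsupp.single_eq_same, Finset.univ_unique, PUnit.default_eq_unit,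
          Finset.prod_singleton]
        rw [mul_pow, mul_assoc]
      rw [h2]
      apply hM
      rw [norm_mul, hx, mul_one, Complex.norm_real, Real.norm_eq_abs, abs_of_pos hr])
    (Finsupp.single () j) (Finset.mem_image.2 ⟨j, Finset.mem_range.2 (by omega), rfl⟩)
  simp only [Finsupp.single_eq_same] at h1
  rw [norm_mul, norm_pow, Complex.norm_real, Real.norm_eq_abs, abs_of_pos hr] at h1
  exact h1

/-- a polynomial bounded by `M` for `|x| ≤ r` has value at most `(k + 1) M / r ^ k` at `1` -/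
theorem at_one (q : Polynomial ℂ) {k : ℕ} (hk : q.natDegree ≤ k) {r M : ℝ} (hr : 0 < r)
    (hr1 : r ≤ 1) (hM : ∀ x : ℂ, ‖x‖ = r → ‖q.eval x‖ ≤ M) :
    ‖q.eval 1‖ ≤ (k + 1) * (M * (r ^ k)⁻¹) := by
  have hM0 : 0 ≤ M := (norm_nonneg _).trans (hM (r : ℂ) (by simp [abs_of_pos hr]))
  rw [Polynomial.eval_eq_sum_range' (Nat.lt_succ_of_le hk)]
  refine (norm_sum_le _ _).trans ?_
  have : ∀ j ∈ Finset.range (k + 1), ‖q.coeff j * 1 ^ j‖ ≤ M * (r ^ k)⁻¹ := by
    intro j hj
    have h1 := cauchy1 q hr hM j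
    rw [one_pow, mul_one]
    have h2 : ‖q.coeff j‖ ≤ M * (r ^ j)⁻¹ := by
      rw [← div_eq_mul_inv, le_div_iff₀ (pow_pos hr j)]
      exact h1
    refine h2.trans (mul_le_mul_of_nonneg_left ?_ hM0)
    apply inv_anti₀ (pow_pos hr k)
    exact pow_le_pow_of_le_one hr.le hr1 (Nat.le_of_lt_succ (Finset.mem_range.1 hj))
  have h3 := Finset.sum_le_card_nsmul _ _ _ this
  rw [Finset.card_range, nsmul_eq_mul] at h3
  push_cast at h3
  exact h3

/-- the homogeneous parts, as functions -/
def pv {T : Type} [Fintype T] [DecidableEq T] (f : PS T) (k : ℕ) (l : T → ℂ) : ℂ :=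
  ∑ n ∈ Finset.finsuppAntidiag Finset.univ k, coeff n f * ∏ t, l t ^ n t

theorem mem_fa {T : Type} [Fintype T] [DecidableEq T] {k : ℕ} {n : T →₀ ℕ} :
    n ∈ Finset.finsuppAntidiag (Finset.univ : Finset T) k ↔ n.degree = k := by
  rw [Finset.mem_finsuppAntidiag, Finsupp.degree_eq_sum]
  simp

theorem coeff_line {T : Type} [Fintype T] [DecidableEq T] (f : PS T) (l : T → ℂ) (m : Unit →₀ ℕ) :
    coeff m (f.subst (lineS l)) = pv f m.degree l := by
  have hs : HasSubst (lineS l) := hasSubst_of_constantCoeff_zero fun t => by simp [lineS]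
  rw [coeff_subst hs]
  have h1 : ∀ n : T →₀ ℕ, coeff m (n.prod fun t e => lineS l t ^ e) =
      if n.degree = m.degree then ∏ t, l t ^ n t else 0 := by
    intro n
    rw [Finsupp.prod_fintype _ _ (fun t => pow_zero _)]
    have h2 : ∏ t, lineS l t ^ n t =
        (C (∏ t, l t ^ n t) : PS Unit) * X () ^ n.degree := by
      simp only [lineS, mul_pow, Finset.prod_mul_distrib, Finset.prod_pow_eq_pow_sum, map_prod,
        map_pow]
      rw [Finsupp.degree_eq_sum]
    rw [h2, coeff_C_mul, coeff_X_pow]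
    have h3 : m = Finsupp.single () m.degree := by
      ext
      simp [Finsupp.degree_eq_sum]
    have h4 : (m = Finsupp.single () n.degree) ↔ n.degree = m.degree := by
      constructor
      · intro h
        rw [h]
        simp
      · intro h
        rw [h]
        exact h3
    simp only [h4]
    split_ifs <;> simp
  simp only [h1, smul_eq_mul]
  rw [finsum_eq_sum_of_support_subset (s := Finset.finsuppAntidiag Finset.univ m.degree)]
  · refine Finset.sum_congr rfl fun n hn => ?_
    rw [if_pos (mem_fa.1 hn)]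
  · intro n hn
    rw [Finset.mem_coe, mem_fa]
    by_contra h
    apply hn
    change coeff n f * (if n.degree = m.degree then _ else _) = 0
    rw [if_neg h, mul_zero]

theorem pv_cont {T : Type} [Fintype T] [DecidableEq T] (f : PS T) (k : ℕ) : Continuous (pv f k) := by
  unfold pv
  fun_prop

/-- restriction to a line -/
theorem pv_line {T : Type} [Fintype T] [DecidableEq T] (f : PS T) (k : ℕ) (a v : T → ℂ) :
    ∃ q : Polynomial ℂ, q.natDegree ≤ k ∧ ∀ x : ℂ, q.eval x = pv f k (a + x • v) := by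
  refine ⟨∑ n ∈ Finset.finsuppAntidiag Finset.univ k, Polynomial.C (coeff n f) *
    ∏ t, (Polynomial.C (a t) + Polynomial.X * Polynomial.C (v t)) ^ n t, ?_, ?_⟩
  · refine Polynomial.natDegree_sum_le_of_forall_le _ _ fun n hn => ?_
    refine (Polynomial.natDegree_C_mul_le _ _).trans ?_
    refine (Polynomial.natDegree_prod_le _ _).trans ?_
    have h1 : ∀ t ∈ Finset.univ, ((Polynomial.C (a t) + Polynomial.X * Polynomial.C (v t)) ^
        n t).natDegree ≤ n t := by
      intro t _
      refine (Polynomial.natDegree_pow_le).trans ?_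
      have h2 : (Polynomial.C (a t) + Polynomial.X * Polynomial.C (v t)).natDegree ≤ 1 := by
        refine (Polynomial.natDegree_add_le _ _).trans (max_le (by simp) ?_)
        exact (Polynomial.natDegree_mul_C_le _ _).trans Polynomial.natDegree_X_le
      calc n t * _ ≤ n t * 1 := Nat.mul_le_mul_left _ h2
        _ = n t := mul_one _
    refine (Finset.sum_le_sum h1).trans ?_
    have h3 := mem_fa.1 hn
    rw [Finsupp.degree_eq_sum] at h3
    exact h3.le
  · intro x
    rw [pv, Polynomial.eval_finsetSum]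
    refine Finset.sum_congr rfl fun n _ => ?_
    rw [Polynomial.eval_mul, Polynomial.eval_C, Polynomial.eval_prod]
    congr 1
    refine Finset.prod_congr rfl fun t _ => ?_
    rw [Polynomial.eval_pow, Polynomial.eval_add, Polynomial.eval_mul, Polynomial.eval_C,
      Polynomial.eval_X, Polynomial.eval_C]
    rfl

end Sl2M

open Sl2M in
theorem specSL2 : SpecSL2 := by
  intro T _ _ f U hU hUne hconv
  -- Baire
  let W : ℕ → Set (T → ℂ) := fun N => (⋂ k : ℕ, {l | ‖pv f k l‖ ≤ (N : ℝ) ^ (k + 1)}) ∪ Uᶜ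
  have hWc : ∀ N, IsClosed (W N) := fun N =>
    (isClosed_iInter fun k => isClosed_le (pv_cont f k).norm continuous_const).union
      hU.isClosed_compl
  have hWu : ⋃ N, W N = Set.univ := by
    refine Set.eq_univ_of_forall fun l => ?_
    by_cases hl : l ∈ U
    · obtain ⟨C, hC, hb⟩ := hconv l hl
      obtain ⟨N, hN⟩ := exists_nat_ge C
      refine Set.mem_iUnion.2 ⟨N, Or.inl (Set.mem_iInter.2 fun k => ?_)⟩
      have h1 := hb (Finsupp.single () k)
      rw [coeff_line] at h1
      have h2 : (Finsupp.single () k : Unit →₀ ℕ).degree = k := by simp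
      rw [h2] at h1
      exact h1.trans (pow_le_pow_left₀ hC.le hN _)
    · exact Set.mem_iUnion.2 ⟨0, Or.inr hl⟩
  obtain ⟨l₀, hl₀U, hl₀⟩ := (dense_iUnion_interior_of_closed hWc hWu).inter_open_nonempty U hU hUne
  obtain ⟨N, hN⟩ := Set.mem_iUnion.1 hl₀
  obtain ⟨ρ, hρ, hball⟩ := Metric.isOpen_iff.1 (hU.inter isOpen_interior) l₀ ⟨hl₀U, hN⟩
  have hbound : ∀ l, ‖l - l₀‖ < ρ → ∀ k, ‖pv f k l‖ ≤ (N : ℝ) ^ (k + 1) := by
    intro l hl k
    obtain ⟨h1, h2⟩ := hball (by rwa [Metric.mem_ball, dist_eq_norm] : l ∈ Metric.ball l₀ ρ)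
    rcases interior_subset h2 with h3 | h3
    · exact Set.mem_iInter.1 h3 k
    · exact absurd h1 h3
  -- the radius
  set Λ : ℝ := 1 + ‖l₀‖ with hΛ
  have hΛ1 : 1 ≤ Λ := by rw [hΛ]; linarith [norm_nonneg l₀]
  set r : ℝ := min 1 (ρ / (2 * Λ)) with hr
  have hr0 : 0 < r := lt_min one_pos (by positivity)
  have hr1 : r ≤ 1 := min_le_left _ _
  have hrρ : r * Λ < ρ := by
    have h1 : r ≤ ρ / (2 * Λ) := min_le_right _ _
    calc r * Λ ≤ ρ / (2 * Λ) * Λ := mul_le_mul_of_nonneg_right h1 (by linarith)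
      _ = ρ / 2 := by field_simp
      _ < ρ := by linarith
  have hval : ∀ l : T → ℂ, (∀ t, ‖l t‖ = 1) → ∀ k,
      ‖pv f k l‖ ≤ (k + 1) * ((N : ℝ) ^ (k + 1) * (r ^ k)⁻¹) := by
    intro l hl k
    have hl1 : ‖l‖ ≤ 1 := (pi_norm_le_iff_of_nonneg zero_le_one).2 fun t => (hl t).le
    obtain ⟨q, hq, hqe⟩ := pv_line f k l₀ (l - l₀)
    have h1 := at_one q hq hr0 hr1 (M := (N : ℝ) ^ (k + 1)) (by
      intro x hx
      rw [hqe]
      apply hbound
      rw [add_sub_cancel_left, norm_smul, hx]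
      refine lt_of_le_of_lt (mul_le_mul_of_nonneg_left ?_ hr0.le) hrρ
      exact (norm_sub_le _ _).trans (by rw [hΛ]; linarith))
    rw [hqe] at h1
    have h2 : l₀ + (1 : ℂ) • (l - l₀) = l := by rw [one_smul]; abel
    rwa [h2] at h1
  have hN0 : (0 : ℝ) ≤ N := Nat.cast_nonneg N
  refine ⟨2 * (N + 1) / r, by positivity, fun n => ?_⟩
  have h1 := cauchy (Finset.finsuppAntidiag Finset.univ n.degree) (fun n => coeff n f)
    (L := n.degree + 1) (Nat.succ_ne_zero _) (by
      intro m hm t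
      have h2 := mem_fa.1 hm
      rw [Finsupp.degree_eq_sum] at h2
      have h3 : m t ≤ ∑ i, m i := Finset.single_le_sum (f := fun i => m i) (fun _ _ => Nat.zero_le _) (Finset.mem_univ t)
      omega) (M := (n.degree + 1) * ((N : ℝ) ^ (n.degree + 1) * (r ^ n.degree)⁻¹))
      (fun x hx => hval x hx n.degree) n (mem_fa.2 rfl)
  refine h1.trans ?_
  set k := n.degree with hk
  have h2 : ((k : ℝ) + 1) ≤ 2 ^ (k + 1) := by
    have : k + 1 ≤ 2 ^ (k + 1) := Nat.lt_two_pow_self.le
    exact_mod_cast this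
  have h3 : (N : ℝ) ^ (k + 1) ≤ (N + 1 : ℝ) ^ (k + 1) := pow_le_pow_left₀ hN0 (by linarith) _
  have h4 : (r ^ k)⁻¹ ≤ (r ^ (k + 1))⁻¹ := by
    apply inv_anti₀ (pow_pos hr0 _)
    exact pow_le_pow_of_le_one hr0.le hr1 (Nat.le_succ k)
  calc ((k : ℝ) + 1) * ((N : ℝ) ^ (k + 1) * (r ^ k)⁻¹)
      ≤ 2 ^ (k + 1) * ((N + 1 : ℝ) ^ (k + 1) * (r ^ (k + 1))⁻¹) := by
        refine mul_le_mul h2 (mul_le_mul h3 h4 (by positivity) (by positivity)) (by positivity)
          (by positivity)
    _ = (2 * (N + 1) / r) ^ (k + 1) := by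
        rw [div_pow, mul_pow, div_eq_mul_inv, mul_assoc]

end

end Pool.Agent.Lib.MP_2184e2_an.Loc
end

section
/-! # MP_2184e2_an, local theorem, module LA -/
set_option autoImplicit false

namespace Pool.Agent.Lib.MP_2184e2_an.Loc

open MvPowerSeries Filter Topology
open scoped ContDiff LaurentPolynomial

noncomputable section

namespace LaM

open PartM Sl2M

variable {T ν : Type} [Fintype T] [DecidableEq T] [Fintype ν] [DecidableEq ν] {N : ℕ}

theorem z0_line (l : T → ℂ) (t : T) : Z0 (lineS l t) := by simp [lineS, Z0]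

/-- the substitution `x = l τ` in `(x, w, s)` -/
def sb (l : T → ℂ) : (T ⊕ Fin N) ⊕ ν → PS ((Unit ⊕ Fin N) ⊕ ν) :=
  Sum.elim (Sum.elim (fun t => C (l t) * X (Sum.inl (Sum.inl ()))) (fun k => X (Sum.inl (Sum.inr k))))
    (fun j => X (Sum.inr j))

theorem z0_sb (l : T → ℂ) (x : (T ⊕ Fin N) ⊕ ν) : Z0 (sb (N := N) (ν := ν) l x) := by
  rcases x with (t | k) | j <;> simp [sb, Z0]

theorem subst_C' {σ τ : Type} {a : σ → PS τ} (ha : HasSubst a) (c : ℂ) :
    (C c : PS σ).subst a = C c := by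
  rw [← coe_substAlgHom ha]
  exact (substAlgHom ha).commutes c

theorem lft_line_inl (l : T → ℂ) (t : T) :
    lft (ν := ν) (lineS l) (Sum.inl t) = C (l t) * X (Sum.inl ()) := by
  change (C (l t) * X () : PS Unit).subst (iL : Unit → PS (Unit ⊕ ν)) = _
  rw [subst_mul hsIL, subst_X hsIL, subst_C' hsIL]
  rfl

/-- substituting the solution after `x = l τ` -/
theorem sb_insY (l : T → ℂ) {Y : Fin N → PS (T ⊕ ν)} (hY : ∀ i, Z0 (Y i))
    (F : PS ((T ⊕ Fin N) ⊕ ν)) :
    (F.subst (sb l)).subst (insY fun i => (Y i).subst (lft (lineS l))) =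
      (F.subst (insY Y)).subst (lft (lineS l)) := by
  have hl : HasSubst (lft (ν := ν) (lineS l)) := hs_z (z0_lft (z0_line l))
  have hY' : ∀ i, Z0 ((Y i).subst (lft (ν := ν) (lineS l))) := fun i =>
    constantCoeff_subst_eq_zero hl (z0_lft (z0_line l)) (hY i)
  have h1 : HasSubst (insY fun i => (Y i).subst (lft (ν := ν) (lineS l))) := by
    apply hs_z
    rintro ((t | k) | j)
    · simp [insY, Z0]
    · exact hY' k
    · simp [insY, Z0]
  have h2 : HasSubst (insY Y) := by
    apply hs_z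
    rintro ((t | k) | j)
    · simp [insY, Z0]
    · exact hY k
    · simp [insY, Z0]
  rw [subst_comp_subst_apply (hs_z (z0_sb l)) h1, subst_comp_subst_apply h2 hl]
  congr 1
  funext x
  rcases x with (t | k) | j
  · change (C (l t) * X (Sum.inl (Sum.inl ())) : PS ((Unit ⊕ Fin N) ⊕ ν)).subst _ =
      (X (Sum.inl t) : PS (T ⊕ ν)).subst _
    rw [subst_mul h1, subst_X h1, subst_C' h1, subst_X hl, lft_line_inl]
    rfl
  · change (X (Sum.inl (Sum.inr k)) : PS ((Unit ⊕ Fin N) ⊕ ν)).subst _ = (Y k).subst _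
    rw [subst_X h1]
    rfl
  · change (X (Sum.inr j) : PS ((Unit ⊕ Fin N) ⊕ ν)).subst _ = (X (Sum.inr j) : PS (T ⊕ ν)).subst _
    rw [subst_X h1, subst_X hl]
    rfl

end LaM

open PartM Sl2M LaM in
theorem specLA (hLA1 : SpecLA1) (hSL2 : SpecSL2) (hSCS : SpecSCS) (hSCR : SpecSCR)
    (hCHN : SpecCHN) : SpecLA := by
  classical
  intro T _ _ ν _ _ N Θ Y hΘ hY hrel hdet
  set D : PS (T ⊕ ν) := Matrix.det (Matrix.of fun i k =>
      (pderiv ℂ (Sum.inl (Sum.inr k)) (Θ i)).subst (insY Y)) with hD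
  -- a nonvanishing homogeneous part of `D`
  obtain ⟨n, hn⟩ : ∃ n, coeff n D ≠ 0 := by
    by_contra hcon
    push Not at hcon
    exact hdet (ext fun n => by rw [hcon n, map_zero])
  set b := nr n with hb
  set k := (nl n).degree with hk
  let U : Set (T → ℂ) := {l | pv (part b D) k l ≠ 0}
  have hU : IsOpen U := isOpen_ne_fun (pv_cont _ _) continuous_const
  have hUne : U.Nonempty := by
    by_contra hcon
    rw [Set.not_nonempty_iff_eq_empty] at hcon
    have h1 : ∀ l, pv (part b D) k l = 0 := by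
      intro l
      by_contra h
      have : l ∈ U := h
      rw [hcon] at this
      exact this
    have h2 := cauchy (Finset.finsuppAntidiag Finset.univ k) (fun m => coeff m (part b D))
      (L := k + 1) (Nat.succ_ne_zero _) (by
        intro m hm t
        have h2 := mem_fa.1 hm
        rw [Finsupp.degree_eq_sum] at h2
        have h3 : m t ≤ ∑ i, m i := Finset.single_le_sum (f := fun i => m i)
          (fun _ _ => Nat.zero_le _) (Finset.mem_univ t)
        omega) (M := 0) (fun x _ => by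
          have h3 := h1 x
          rw [pv] at h3
          rw [h3, norm_zero]) (nl n) (mem_fa.2 rfl)
    rw [coeff_part, hb, se] at h2
    exact hn (norm_le_zero_iff.1 h2)
  -- the solution along the lines `l ∈ U`
  have hline : ∀ l ∈ U, ∀ i, SC ((Y i).subst (lft (lineS l))) := by
    intro l hl
    have hls : HasSubst (lft (ν := ν) (lineS l)) := hs_z (z0_lft (z0_line l))
    obtain ⟨hadd, hC, -, -, hX, -⟩ := hSCR (Unit ⊕ Fin N) ν
    refine hLA1 ν N (fun i => (Θ i).subst (sb l)) (fun i => (Y i).subst (lft (lineS l))) ?_ ?_ ?_ ?_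
    · intro i
      have h1 := hSCS.1 (T ⊕ Fin N) ν (Unit ⊕ Fin N) ν (Θ i)
        (fun x => sb (N := N) (ν := ν) l (Sum.inl x)) (fun j => X (Sum.inr j)) (hΘ i) (by
          rintro (t | j)
          · refine ⟨?_, z0_sb l _⟩
            exact (hadd _ _ (hC _) (hX _)).2.1
          · exact ⟨hX _, z0_sb l _⟩) (by
          intro j
          refine ⟨hX _, ?_⟩
          ext a
          rw [coeff_part, coeff_X, if_neg, map_zero]
          intro h
          have h2 := congrArg (fun m => m (Sum.inr j)) h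
          simp at h2)
      have h2 : (Sum.elim (fun x => sb (N := N) (ν := ν) l (Sum.inl x)) fun j => X (Sum.inr j)) =
          sb l := by
        funext x
        rcases x with (t | j) | j <;> rfl
      rwa [h2] at h1
    · intro i
      exact constantCoeff_subst_eq_zero hls (z0_lft (z0_line l)) (hY i)
    · intro i
      rw [sb_insY l hY, hrel i, ← coe_substAlgHom hls, map_zero]
    · have h1 : (Matrix.of fun i k => (pderiv ℂ (Sum.inl (Sum.inr k)) ((Θ i).subst (sb l))).subst
          (insY fun i => (Y i).subst (lft (ν := ν) (lineS l)))) =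
          (substAlgHom hls : PS (T ⊕ ν) →ₐ[ℂ] PS (Unit ⊕ ν)).toRingHom.mapMatrix
            (Matrix.of fun i k => (pderiv ℂ (Sum.inl (Sum.inr k)) (Θ i)).subst (insY Y)) := by
        ext1 i k'
        rw [RingHom.mapMatrix_apply, Matrix.map_apply, Matrix.of_apply, Matrix.of_apply]
        change _ = substAlgHom hls _
        rw [substAlgHom_apply, ← sb_insY l hY]
        congr 1
        rw [hCHN ℂ _ _ (Θ i) (sb l) (z0_sb l), Finset.sum_eq_single (Sum.inl (Sum.inr k'))]
        · have : sb (N := N) (ν := ν) l (Sum.inl (Sum.inr k')) = X (Sum.inl (Sum.inr k')) := rfl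
          rw [this, pderiv_X_self, mul_one]
        · rintro ((t | j) | j) _ hne
          · have : sb (N := N) (ν := ν) l (Sum.inl (Sum.inl t)) =
              C (l t) * X (Sum.inl (Sum.inl ())) := rfl
            rw [this, Derivation.leibniz, pderiv_C, pderiv_X_of_ne (by simp)]
            simp
          · have : sb (N := N) (ν := ν) l (Sum.inl (Sum.inr j)) = X (Sum.inl (Sum.inr j)) := rfl
            rw [this, pderiv_X_of_ne, mul_zero]
            intro h
            apply hne
            rw [Sum.inl.injEq, Sum.inr.injEq] at h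
            rw [h]
          · have : sb (N := N) (ν := ν) l (Sum.inr j) = X (Sum.inr j) := rfl
            rw [this, pderiv_X_of_ne (by simp), mul_zero]
        · intro h
          exact absurd (Finset.mem_univ _) h
      rw [h1, ← RingHom.map_det, ← hD]
      change substAlgHom hls D ≠ 0
      rw [substAlgHom_apply]
      intro h
      apply hl
      have h2 := part_lft (z0_line l) D b
      rw [h, part_zero] at h2
      have h3 := coeff_line (part b D) l (Finsupp.single () k)
      rw [← h2, map_zero] at h3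
      have h4 : (Finsupp.single () k : Unit →₀ ℕ).degree = k := by simp
      rw [h4] at h3
      exact h3.symm
  intro i β
  apply hSL2 T (part β (Y i)) U hU hUne
  intro l hl
  rw [← part_lft (z0_line l)]
  exact hline l hl i β

end

end Pool.Agent.Lib.MP_2184e2_an.Loc
end

section
/-! # MP_2184e2_an, local theorem, module LA1 -/
set_option autoImplicit false

namespace Pool.Agent.Lib.MP_2184e2_an.Loc

open MvPowerSeries Filter Topology
open scoped ContDiff LaurentPolynomial

noncomputable section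

namespace La1M

open PartM

theorem z0_crv {k : ℕ} {v : Fin k → PS Unit} (hv : ∀ j, Z0 (v j)) (x : Unit ⊕ Fin k) :
    Z0 (crv v x) := by
  rcases x with t | j
  · simp [crv, Z0]
  · exact hv j

/-- a series independent of the variables `f_q` -/
theorem subst_indep {k : ℕ} {f : PS (Unit ⊕ Fin k)} (hf : ∀ q, pderiv ℂ (Sum.inr q) f = 0)
    {v : Fin k → PS Unit} (hv : ∀ j, Z0 (v j)) :
    f.subst (crv v) = f.subst (crv (0 : Fin k → PS Unit)) := by
  classical
  have h0 : ∀ j, Z0 ((0 : Fin k → PS Unit) j) := fun j => by simp [Z0]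
  refine MvPowerSeries.ext fun n => ?_
  rw [coeff_subst (hs_z (z0_crv hv)), coeff_subst (hs_z (z0_crv h0))]
  refine finsum_congr fun d => ?_
  by_cases hd : ∀ q, d (Sum.inr q) = 0
  · congr 2
    rw [Finsupp.prod_fintype _ _ (fun t => pow_zero _),
      Finsupp.prod_fintype _ _ (fun t => pow_zero _), Fintype.prod_sum_type, Fintype.prod_sum_type]
    congr 1
    refine Finset.prod_congr rfl fun q _ => ?_
    rw [hd q, pow_zero, pow_zero]
  · push Not at hd
    obtain ⟨q, hq⟩ := hd
    have h1 : coeff d f = 0 := by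
      have h2 := congrArg (coeff (d - Finsupp.single (Sum.inr q) 1)) (hf q)
      have h3 : Finsupp.single (Sum.inr q) 1 ≤ d := by
        rw [Finsupp.single_le_iff]
        omega
      rw [coeff_pderiv, tsub_add_cancel_of_le h3, map_zero] at h2
      rcases mul_eq_zero.1 h2 with h4 | h4
      · exact h4
      · exfalso
        have h5 : (((d - Finsupp.single (Sum.inr q) 1 : Unit ⊕ Fin k →₀ ℕ) (Sum.inr q) + 1 : ℕ) : ℂ)
            = 0 := by
          push_cast
          exact h4
        exact absurd (Nat.cast_eq_zero.1 h5) (Nat.succ_ne_zero _)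
    rw [h1, zero_smul, zero_smul]

/-- the insertion of `Y^J(τ, f, s)` -/
def ins {ν : Type} {N k : ℕ} (YJ : Fin N → PS ((Unit ⊕ Fin k) ⊕ ν)) :
    (Unit ⊕ Fin N) ⊕ ν → PS ((Unit ⊕ Fin k) ⊕ ν) :=
  Sum.elim (Sum.elim (fun _ => X (Sum.inl (Sum.inl ()))) YJ) (fun j => X (Sum.inr j))

theorem z0_ins {ν : Type} {N k : ℕ} {YJ : Fin N → PS ((Unit ⊕ Fin k) ⊕ ν)} (hYJ : ∀ i, Z0 (YJ i))
    (x : (Unit ⊕ Fin N) ⊕ ν) : Z0 (ins YJ x) := by
  rcases x with (t | i) | j
  · simp [ins, Z0]
  · exact hYJ i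
  · simp [ins, Z0]

theorem z0_insY {T ν : Type} {N : ℕ} {Y : Fin N → PS (T ⊕ ν)} (hY : ∀ i, Z0 (Y i))
    (x : (T ⊕ Fin N) ⊕ ν) : Z0 (insY Y x) := by
  rcases x with (t | i) | j
  · simp [insY, Z0]
  · exact hY i
  · simp [insY, Z0]

theorem part_zero_X {ι ν : Type} (j : ν) : part 0 (X (Sum.inr j) : PS (ι ⊕ ν)) = 0 := by
  classical
  ext a
  rw [coeff_part, coeff_X, if_neg, map_zero]
  intro h
  have h2 := congrArg (fun m => m (Sum.inr j)) h
  simp at h2

end La1M

open PartM La1M in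
theorem specLA1 (hGERM : SpecGERM) (hSCR : SpecSCR) (hSCS : SpecSCS) (hCHN : SpecCHN)
    (hCNS : SpecCNS) (hCNV : SpecCNV) : SpecLA1 := by
  classical
  intro ν _ _ N Θ Y hΘ hY hrel hdet
  obtain ⟨hCNV1, hnm⟩ := hCNV
  set D : PS (Unit ⊕ ν) := Matrix.det (Matrix.of fun i k =>
      (pderiv ℂ (Sum.inl (Sum.inr k)) (Θ i)).subst (insY Y)) with hD
  obtain ⟨e₀, he₀⟩ : ∃ e, D ∉ IJ Unit ν e := by
    by_contra hcon
    push Not at hcon
    exact hdet (ext fun n => by rw [map_zero]; exact hcon (nr n).degree n le_rfl)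
  intro i₀ β
  set J := β.degree + e₀ with hJ
  -- the finite family of coefficients
  have hfin : Finite {b : ν →₀ ℕ // b.degree ≤ J} := (Finsupp.finite_of_degree_le J).to_subtype
  obtain ⟨M, ⟨e⟩⟩ := Finite.exists_equiv_fin (Fin N × {b : ν →₀ ℕ // b.degree ≤ J})
  let c : Fin N → (ν →₀ ℕ) → ℂ := fun i b => constantCoeff (part b (Y i))
  obtain ⟨k, v, Φ, hv, hΦ, hΦv, hnr⟩ := hGERM M
    (fun m => part (e.symm m).2.1 (Y (e.symm m).1) - C (c (e.symm m).1 (e.symm m).2.1)) (by
      intro m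
      simp [Z0, c])
  have hcrv : HasSubst (crv v) := hs_z (z0_crv hv)
  let Φ' : Fin N → (ν →₀ ℕ) → PS (Unit ⊕ Fin k) := fun i b =>
    if h : b.degree ≤ J then Φ (e (i, ⟨b, h⟩)) + C (c i b) else 0
  have hΦ'conv : ∀ i b, Conv (Φ' i b) := by
    intro i b
    simp only [Φ']
    obtain ⟨hA, hC, -⟩ := hCNV1 ℂ (fun c => ‖c‖) hnm (Unit ⊕ Fin k)
    split_ifs with h
    · exact (hA _ _ (hΦ _).1 (hC _)).1
    · have := hC 0
      rw [map_zero] at this
      exact this
  have hΦ'v : ∀ i b, b.degree ≤ J → (Φ' i b).subst (crv v) = part b (Y i) := by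
    intro i b hb
    simp only [Φ']
    rw [dif_pos hb, subst_add hcrv, hΦv]
    have h1 : (C (c i b) : PS (Unit ⊕ Fin k)).subst (crv v) = C (c i b) := by
      rw [← coe_substAlgHom hcrv]
      exact (substAlgHom hcrv).commutes _
    rw [h1, Equiv.symm_apply_apply]
    ring
  let YJ : Fin N → PS ((Unit ⊕ Fin k) ⊕ ν) := fun i n => coeff (nl n) (Φ' i (nr n))
  have hpart : ∀ i b, part b (YJ i) = Φ' i b := by
    intro i b
    ext a
    change coeff (nl (a.sumElim b)) (Φ' i (nr (a.sumElim b))) = _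
    rw [nl_se, nr_se]
  have hYJ0 : ∀ i, Z0 (YJ i) := by
    intro i
    have h1 : (0 : (Unit ⊕ Fin k) ⊕ ν →₀ ℕ) = (0 : Unit ⊕ Fin k →₀ ℕ).sumElim (0 : ν →₀ ℕ) := by
      simp
    have h2 : (0 : Unit ⊕ ν →₀ ℕ) = (0 : Unit →₀ ℕ).sumElim (0 : ν →₀ ℕ) := by simp
    rw [Z0, ← coeff_zero_eq_constantCoeff_apply, h1, ← coeff_part, hpart]
    simp only [Φ']
    rw [dif_pos (by simp), map_add, coeff_zero_eq_constantCoeff_apply, (hΦ _).2, zero_add,
      coeff_zero_C]
    simp only [c]
    rw [← coeff_zero_eq_constantCoeff_apply, coeff_part, ← h2, coeff_zero_eq_constantCoeff_apply]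
    exact hY i
  have hinsS : HasSubst (ins YJ) := hs_z (z0_ins hYJ0)
  have hlft : HasSubst (lft (ν := ν) (crv v)) := hs_z (z0_lft (z0_crv hv))
  have hSCY : ∀ i, SC (YJ i) := fun i b => by rw [hpart]; exact hΦ'conv i b
  -- the congruence modulo order `> J`
  have hcong : ∀ F : PS ((Unit ⊕ Fin N) ⊕ ν),
      (F.subst (ins YJ)).subst (lft (crv v)) - F.subst (insY Y) ∈ IJ Unit ν J := by
    intro F
    rw [subst_comp_subst_apply hinsS hlft]
    have hcomp : HasSubst (fun x => (ins YJ x).subst (lft (ν := ν) (crv v))) :=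
      hs_z fun x => constantCoeff_subst_eq_zero hlft (z0_lft (z0_crv hv)) (z0_ins hYJ0 x)
    refine subst_congr hcomp (hs_z (z0_insY hY)) ?_ F
    rintro ((t | i) | j)
    · change (X (Sum.inl (Sum.inl ())) : PS ((Unit ⊕ Fin k) ⊕ ν)).subst (lft (crv v)) -
        X (Sum.inl ()) ∈ _
      rw [subst_X hlft]
      change (X () : PS Unit).subst (iL : Unit → PS (Unit ⊕ ν)) - X (Sum.inl ()) ∈ _
      rw [subst_X hsIL]
      change (X (Sum.inl ()) : PS (Unit ⊕ ν)) - X (Sum.inl ()) ∈ _
      rw [sub_self]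
      exact Ideal.zero_mem _
    · change (YJ i).subst (lft (crv v)) - Y i ∈ _
      rw [mem_IJ]
      intro b hb
      rw [part_sub, part_lft (z0_crv hv), hpart, hΦ'v i b hb, sub_self]
    · change (X (Sum.inr j) : PS ((Unit ⊕ Fin k) ⊕ ν)).subst (lft (crv v)) - X (Sum.inr j) ∈ _
      rw [subst_X hlft]
      change (X (Sum.inr j) : PS (Unit ⊕ ν)) - X (Sum.inr j) ∈ _
      rw [sub_self]
      exact Ideal.zero_mem _
  -- the relations hold modulo order `> J`
  have hR : ∀ i, (Θ i).subst (ins YJ) ∈ IJ (Unit ⊕ Fin k) ν J := by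
    intro i
    rw [mem_IJ]
    intro b hb
    refine hnr (part b ((Θ i).subst (ins YJ))) ?_ ?_
    · have h1 := hSCS.1 (Unit ⊕ Fin N) ν (Unit ⊕ Fin k) ν (Θ i)
        (fun x => ins YJ (Sum.inl x)) (fun j => X (Sum.inr j)) (hΘ i) (by
          rintro (t | j)
          · exact ⟨(hSCR (Unit ⊕ Fin k) ν).2.2.2.2.1 _, z0_ins hYJ0 _⟩
          · exact ⟨hSCY j, hYJ0 j⟩) (by
          intro j
          exact ⟨(hSCR (Unit ⊕ Fin k) ν).2.2.2.2.1 _, part_zero_X j⟩)
      have h2 : (Sum.elim (fun x => ins YJ (Sum.inl x)) fun j => X (Sum.inr j)) = ins YJ := by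
        funext x
        rcases x with (t | j) | j <;> rfl
      rw [h2] at h1
      exact h1 b
    · rw [← part_lft (z0_crv hv)]
      have h1 := mem_IJ.1 (hcong (Θ i)) b hb
      rwa [hrel i, sub_zero] at h1
  -- the matrix of derivatives
  set Mx : Matrix (Fin N) (Fin N) (PS ((Unit ⊕ Fin k) ⊕ ν)) := Matrix.of fun i k' =>
    (pderiv ℂ (Sum.inl (Sum.inr k')) (Θ i)).subst (ins YJ) with hMx
  have hΔ : Mx.det ∉ IJ (Unit ⊕ Fin k) ν e₀ := by
    intro hΔ
    apply he₀
    have h1 : Mx.det.subst (lft (crv v)) ∈ IJ Unit ν e₀ := by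
      rw [mem_IJ] at hΔ ⊢
      intro b hb
      rw [part_lft (z0_crv hv), hΔ b hb, ← coe_substAlgHom hcrv, map_zero]
    have h2 : Mx.det.subst (lft (crv v)) - D ∈ IJ Unit ν J := by
      rw [← Ideal.Quotient.eq, ← coe_substAlgHom hlft]
      have h3 : substAlgHom hlft Mx.det =
          ((substAlgHom hlft : PS ((Unit ⊕ Fin k) ⊕ ν) →ₐ[ℂ] PS (Unit ⊕ ν)).toRingHom.mapMatrix
            Mx).det := by
        rw [← RingHom.map_det]
        rfl
      rw [h3, hD, RingHom.map_det, RingHom.map_det]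
      congr 1
      ext1 i k'
      rw [RingHom.mapMatrix_apply, RingHom.mapMatrix_apply, RingHom.mapMatrix_apply,
        Matrix.map_apply, Matrix.map_apply, Matrix.map_apply, Matrix.of_apply, hMx,
        Matrix.of_apply, Ideal.Quotient.eq]
      change substAlgHom hlft _ - _ ∈ _
      rw [substAlgHom_apply]
      exact hcong _
    have h3 : Mx.det.subst (lft (crv v)) - D ∈ IJ Unit ν e₀ := by
      rw [mem_IJ] at h2 ⊢
      intro b hb
      exact h2 b (by omega)
    have h4 := Ideal.sub_mem _ h1 h3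
    rwa [sub_sub_cancel] at h4
  have hder : ∀ q : Fin k, ∀ k' : Fin N,
      pderiv ℂ (Sum.inl (Sum.inr q)) (YJ k') ∈ IJ (Unit ⊕ Fin k) ν β.degree := by
    intro q k'
    apply order_cancel hΔ
    rw [← hJ]
    let g : Fin N → PS ((Unit ⊕ Fin k) ⊕ ν) := fun k' => pderiv ℂ (Sum.inl (Sum.inr q)) (YJ k')
    have h1 : ∀ i, (Mx.mulVec g) i ∈ IJ (Unit ⊕ Fin k) ν J := by
      intro i
      have h2 : (Mx.mulVec g) i = pderiv ℂ (Sum.inl (Sum.inr q)) ((Θ i).subst (ins YJ)) := by
        rw [hCHN ℂ _ _ (Θ i) (ins YJ) (z0_ins hYJ0), Fintype.sum_sum_type, Fintype.sum_sum_type]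
        have h3 : ∑ x : Unit, (pderiv ℂ (Sum.inl (Sum.inl x)) (Θ i)).subst (ins YJ) *
            pderiv ℂ (Sum.inl (Sum.inr q)) (ins YJ (Sum.inl (Sum.inl x))) = 0 := by
          refine Finset.sum_eq_zero fun x _ => ?_
          have : ins YJ (Sum.inl (Sum.inl x)) = X (Sum.inl (Sum.inl ())) := rfl
          rw [this, pderiv_X_of_ne (by simp), mul_zero]
        have h4 : ∑ x : ν, (pderiv ℂ (Sum.inr x) (Θ i)).subst (ins YJ) *
            pderiv ℂ (Sum.inl (Sum.inr q)) (ins YJ (Sum.inr x)) = 0 := by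
          refine Finset.sum_eq_zero fun x _ => ?_
          have : ins YJ (Sum.inr x) = X (Sum.inr x) := rfl
          rw [this, pderiv_X_of_ne (by simp), mul_zero]
        rw [h3, h4, zero_add, add_zero]
        rfl
      rw [h2]
      exact pderiv_mem (hR i) _
    have h2 : Mx.det * g k' = ∑ i, Mx.adjugate k' i * (Mx.mulVec g) i := by
      have h3 : Mx.adjugate.mulVec (Mx.mulVec g) = Mx.det • g := by
        rw [Matrix.mulVec_mulVec, Matrix.adjugate_mul, Matrix.smul_mulVec, Matrix.one_mulVec]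
      have h4 := congrFun h3 k'
      rw [Pi.smul_apply, smul_eq_mul] at h4
      rw [← h4]
      rfl
    change Mx.det * g k' ∈ _
    rw [h2]
    exact Ideal.sum_mem _ fun i _ => Ideal.mul_mem_left _ _ (h1 i)
  -- conclusion
  have hind : ∀ q, pderiv ℂ (Sum.inr q) (Φ' i₀ β) = 0 := by
    intro q
    rw [← hpart, ← part_pderiv]
    exact mem_IJ.1 (hder q i₀) β le_rfl
  rw [← hΦ'v i₀ β (by omega), subst_indep hind hv]
  obtain ⟨-, hC, hX, -⟩ := hCNV1 ℂ (fun c => ‖c‖) hnm Unit
  apply hCNS ℂ (fun c => ‖c‖) hnm (Unit ⊕ Fin k) Unit _ _ (hΦ'conv i₀ β)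
  rintro (t | j)
  · exact ⟨hX (), by simp [crv, Z0]⟩
  · refine ⟨?_, by simp [crv, Z0]⟩
    have := hC 0
    rw [map_zero] at this
    exact this

end

end Pool.Agent.Lib.MP_2184e2_an.Loc
end
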