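import Pool.Agent.Lib.MP_2184e2_an.Loc.SpecF

/-!
# MP_2184e2_an, local theorem: analytic modules

Convergent power series as functions, Taylor expansions of CR functions, approximation of CR
functions (Baouendi-Treves), analytic discs (Bishop equation), a Hopf type lemma, and the local
theorem in coordinates (`SpecLOC`).
-/

set_option autoImplicit false

namespace Pool.Agent.Lib.MP_2184e2_an.Loc

open MvPowerSeries Filter Topology Set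
open scoped ContDiff LaurentPolynomial ComplexConjugate

noncomputable section

/-- a real point as a complex point -/
def rl {κ : Type} (x : κ → ℝ) : κ → ℂ := fun k => (x k : ℂ)

/-- **EVA** (convergent power series as functions).

Proof.  If `‖coeff n f‖ ≤ C^(deg n + 1)` and all `‖x i‖ ≤ ρ` with `C ρ ≤ 1/2` then
`‖coeff n f * x^n‖ ≤ C 2^(-deg n)`, summable over `n : ι →₀ ℕ` (`ι` finite; the product of geometric
series).  So `ev f` is near `0` a locally uniform limit of polynomials, hence analytic (for instance: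
group by degree, `∑_k f_k(x)` with homogeneous polynomials `f_k`, a power series in the sense of
`HasFPowerSeriesOnBall`, or use `DifferentiableOn` and Osgood/`analyticAt` for several variables,
or `AnalyticAt` of uniform limits).  Sum and product: absolutely convergent families (Cauchy
product).  Derivative: differentiate termwise.  Conjugation: termwise.  Last statement: all
derivatives of `ev f` in real directions vanish at `0` and they are `n! coeff n f` (by the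
derivative formula, by induction); or restrict to lines. -/
def SpecEVA : Prop :=
  ∀ (ι : Type) [Fintype ι] [DecidableEq ι],
    (∀ f : PS ι, Conv f → AnalyticAt ℂ (ev f) 0 ∧ ev f 0 = constantCoeff f) ∧
    (∀ f g : PS ι, Conv f → Conv g → ∀ᶠ x in 𝓝 (0 : ι → ℂ),
      ev (f + g) x = ev f x + ev g x ∧ ev (f * g) x = ev f x * ev g x ∧ ev (-f) x = -ev f x) ∧
    (∀ (c : ℂ) (x : ι → ℂ), ev (C c : PS ι) x = c) ∧
    (∀ (i : ι) (x : ι → ℂ), ev (X i : PS ι) x = x i) ∧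
    (∀ (f : PS ι) (i : ι), Conv f → ∀ᶠ x in 𝓝 (0 : ι → ℂ),
      fderiv ℂ (ev f) x (Pi.single i 1) = ev (pderiv ℂ i f) x) ∧
    (∀ (f : PS ι) (x : ι → ℂ), ev (cj f) (fun i => conj (x i)) = conj (ev f x)) ∧
    (∀ f : PS ι, Conv f → (∀ᶠ x in 𝓝 (0 : ι → ℝ), ev f (rl x) = 0) → f = 0)

/-- **EVS** (evaluation of a substitution).

Proof.  With the weighted norms `w_R` of CNS: for `‖x‖ < R` small all `w_R(a_i) ≤ ρ`,
`w_ρ(f) < ∞`, and `∑_m ∑_n |f_m| |coeff n (a^m)| |x^n| ≤ ∑_m |f_m| ∏ w_R(a_i)^(m_i) < ∞`; exchange the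
two summations (`ev (a^m) x = ∏ (ev (a_i) x)^(m_i)` by the product rule, on the fixed ball
`‖x‖ < R`). -/
def SpecEVS : Prop :=
  ∀ (κ ι : Type) [Fintype κ] [DecidableEq κ] [Fintype ι] [DecidableEq ι] (f : PS κ)
    (a : κ → PS ι), Conv f → (∀ i, Conv (a i) ∧ Z0 (a i)) →
    ∀ᶠ x in 𝓝 (0 : ι → ℂ), ev (f.subst a) x = ev f fun i => ev (a i) x

/-- **RAP** (analytic functions are convergent power series).

Proof.  Let `g` have the power series `∑_k p_k(x, …, x)` on a ball, `‖p_k‖ ≤ C^(k+1)`.  Then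
`p_k(x, …, x) = ∑_{s : Fin k → ι} (∏ x_{s j}) p_k(e_{s 0}, …, e_{s (k-1)})`; let `F_n` be the sum of
`p_k(e_s)` over all `s` with content `n` (`k = deg n`): at most `|ι|^k` terms, so
`|F_n| ≤ (|ι| + 1)^k C^(k+1)`.  For the real case the values `p_k(e_s)` are complex numbers
(`g` is complex valued, the space is real).  If `g` is real valued then `cj F = F`, by EVA
(conjugation and uniqueness). -/
def SpecRAP : Prop :=
  ∀ (ι : Type) [Fintype ι] [DecidableEq ι],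
    (∀ g : (ι → ℝ) → ℂ, AnalyticAt ℝ g 0 → ∃ F : PS ι, Conv F ∧
      ∀ᶠ x in 𝓝 (0 : ι → ℝ), g x = ev F (rl x)) ∧
    (∀ g : (ι → ℂ) → ℂ, AnalyticAt ℂ g 0 → ∃ F : PS ι, Conv F ∧
      ∀ᶠ x in 𝓝 (0 : ι → ℂ), g x = ev F x)

/-- **TAY** (formal Taylor expansion).

Proof.  For `g` smooth at `0` let the coefficient `n` of `T g` be
`(1/n!) iteratedFDeriv ℝ (deg n) g 0 (v)`, where `v` lists each basis vector `e_i` with multiplicity
`n i` (in any order: the iterated derivative of a function smooth at `0` is symmetric); `T g = 0` if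
`g` is not smooth at `0`.  `germ`, `zero` are clear, `der`: the coefficient `n` of
`pderiv k (T g)` is `(n_k + 1) ∂^(n + e_k) g(0)/(n + e_k)! = ∂^n (∂_k g)(0)/n!`. -/
def SpecTAY : Prop :=
  ∀ (κ : Type) [Fintype κ] [DecidableEq κ], ∃ T : ((κ → ℝ) → ℂ) → PS κ, IsTay T

/-- **TAYM** (Taylor expansion is compatible with the algebraic operations).

Proof.  `IsTay` determines `T g` for smooth `g`: a power series is determined by its constant term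
and its derivatives (`MvPowerSeries.pderiv.ext`), so by induction on the degree: (*) if `Φ` is a
class of pairs `(g, G)`, `g` smooth at `0`, `G : PS κ`, with `constantCoeff G = g 0` and
`(pd g k, pderiv k G) ∈ Φ` up to germ equality for all `k`, then `T g = G` for all pairs in `Φ`
(compare coefficients of degree `≤ j` by induction on `j`).
Sums: `Φ = {(g + h, T g + T h)}`.  Products: `Φ` = all pairs (finite sums `∑ g_i h_i`,
`∑ T g_i T h_i`), by the Leibniz rules on both sides.  Conjugation: `(conj g, cj (T g))`.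
Convergent series: `(ev F ∘ rl, F)` by EVA.  Composition: the class of all finite sums
`(∑ h_i · (ev F_i ∘ g), ∑ T h_i (F_i).subst (T g))` with `F_i` convergent, `g = (g_1, …)` fixed
smooth with `g(0) = 0`; the chain rules on both sides (CHN; EVA for `fderiv (ev F)`, CNV, CNS)
stay in the class. -/
def SpecTAYM : Prop :=
  ∀ (κ : Type) [Fintype κ] [DecidableEq κ] (T : ((κ → ℝ) → ℂ) → PS κ), IsTay T →
    (∀ g h, ContDiffAt ℝ ∞ g 0 → ContDiffAt ℝ ∞ h 0 →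
      T (fun x => g x + h x) = T g + T h ∧ T (fun x => g x * h x) = T g * T h) ∧
    (∀ g, ContDiffAt ℝ ∞ g 0 → T (fun x => conj (g x)) = cj (T g)) ∧
    (∀ F : PS κ, Conv F → T (fun x => ev F (rl x)) = F) ∧
    (∀ (ι : Type) [Fintype ι] [DecidableEq ι] (F : PS ι) (g : (κ → ℝ) → ι → ℂ), Conv F →
      (∀ i, ContDiffAt ℝ ∞ (fun x => g x i) 0) → g 0 = 0 →
      T (fun x => ev F (g x)) = F.subst fun i => T fun x => g x i)

/-- **TAYF** (functions with zero Taylor expansion are flat).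

Proof.  By induction on `k`, for all smooth `g` with `T g = 0` at the same time.  `k = 0`:
continuity.  `k + 1`: the derivatives `pd g j` have zero expansions, so `‖pd g j x‖ ≤ C ‖x‖^k` near
`0`, hence `‖fderiv ℝ g x‖ ≤ C' ‖x‖^k` there, and `g 0 = 0`; by the mean value inequality on the
segment from `0` to `x`, `‖g x‖ ≤ C' ‖x‖^(k+1)`. -/
def SpecTAYF : Prop :=
  ∀ (κ : Type) [Fintype κ] [DecidableEq κ] (T : ((κ → ℝ) → ℂ) → PS κ), IsTay T →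
    ∀ g : (κ → ℝ) → ℂ, ContDiffAt ℝ ∞ g 0 → T g = 0 → ∀ k : ℕ, ∃ C : ℝ,
      ∀ᶠ x in 𝓝 (0 : κ → ℝ), ‖g x‖ ≤ C * ‖x‖ ^ k

/-- the formal CR equations -/
def FCR {m d : ℕ} (φ : Fin d → PS (Ki m d)) (G : PS (Ki m d)) : Prop :=
  ∀ c : Ki m d → PS (Ki m d), (∀ i, ∑ k, c k * pderiv ℂ k (Zs φ i) = 0) →
    ∑ k, c k * pderiv ℂ k G = 0

/-- **TOHF** (formal CR functions are power series in `Z`).

Proof (uses INV, CHN, CNS, CNV).  Let `u = (x, s)`, `Ĵ` the matrix of the `u`-derivatives of `Zs φ`,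
whose constant term is the identity.  For each `j` the field `c^j` with `y_j`-component `det Ĵ`, the
other `y`-components `0` and `u`-components `-adj(Ĵ) ∂_{y_j} Zs` kills `Zs`.  So
(*) `det Ĵ ∂_{y_j} G = ∑_k (adj(Ĵ) ∂_{y_j} Zs)_k ∂_{u_k} G`.  The series `H.subst Zs` satisfy FCR by
the chain rule.  Let `θ(u) = Zs|_{y=0} = (x, s + iφ(x, 0, s))`, with identity linear part, `b` its
formal inverse (INV; convergent), and `H = G|_{y=0}.subst b`; so `G' = G - H.subst Zs` satisfies (*)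
and `G'|_{y=0} = 0`.  Claim: `G' = 0`.  Otherwise let `e` be the lowest degree in `y` of the
monomials of `G'`; `e ≥ 1`.  Take a monomial of `G'` with `y`-degree `e` and `j` with `y_j` in it:
`∂_{y_j} G'` has a nonzero part of `y`-degree `e - 1`, and as `det Ĵ` is a unit, so has the left
side of (*) (lowest parts: `ℂ[[u]][[y]]` is a domain), whereas the right side has only monomials of
`y`-degree `≥ e` (`∂_{u_k}` preserves the `y`-degree).  Contradiction.  If `G` is convergent then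
so is `H`, by CNS. -/
def SpecTOHF : Prop :=
  ∀ (m d : ℕ) (φ : Fin d → PS (Ki m d)), IsPhi φ → ∀ G : PS (Ki m d), FCR φ G →
    ∃ H : PS (Zi m d), G = H.subst (Zs φ) ∧ (Conv G → Conv H)

/-- **TOH** (Taylor expansions of CR functions).

Proof (uses TOHF, TAYM, EVA, EVS).  Let `J(x)` be the matrix of the `u`-derivatives of `Zm φ` (with
`u = (x, s)`) and `c^j` the function valued field with `y_j`-component `det J`, other `y`-components
`0`, `u`-components `-adj(J) ∂_{y_j} Zm`: it kills all components of `Zm φ` at every point near `0`,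
so by `CRat` it kills `g`.  Take Taylor expansions of this identity: with the corresponding formal
fields `ĉ^j`, `∑ ĉ^j_k ∂_k (T g) = 0`.  If `c` is any formal field killing `Zs φ`, then
`det Ĵ · c - ∑_j c_{y_j} ĉ^j` has no `y`-components and kills `Zs φ`, so its `u`-part is killed by `Ĵ`,
which is invertible: it is `0`.  So `det Ĵ ∑ c_k ∂_k (T g) = 0`, `FCR φ (T g)`, and TOHF applies. -/
def SpecTOH : Prop :=
  ∀ (m d : ℕ) (φ : Fin d → PS (Ki m d)), IsPhi φ →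
    ∀ T : ((Ki m d → ℝ) → ℂ) → PS (Ki m d), IsTay T →
    ∀ g : (Ki m d → ℝ) → ℂ, ContDiffAt ℝ ∞ g 0 → (∀ᶠ x in 𝓝 (0 : Ki m d → ℝ), CRat (Zm φ) g x) →
    ∃ H : PS (Zi m d), T g = H.subst (Zs φ) ∧ (Conv (T g) → Conv H)

/-- `Q` is the complex defining function of the graph `φ` -/
def IsQ {m d : ℕ} (φ : Fin d → PS (Ki m d)) (Q : Fin d → PS (Mi m d)) : Prop :=
  ∀ l, Zs φ (Sum.inr l) =
    (Q l).subst (Sum.elim (fun j => Zs φ (Sum.inl j)) (fun i => cj (Zs φ i)))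

/-- **QFR** (complex defining functions of a graph).

Proof (uses IFT, CNS, CHN).  Put `x = (z + χ)/2`, `y = (z - χ)/(2i)`.  Let `S(z, χ, τ)` be the solution
of `S - iφ(x, y, S) = τ` (IFT: unknown `S`, parameters `(z, χ, τ)`; linear part in `S` the identity)
and `Q(z, χ, τ) = S + iφ(x, y, S) = τ + 2iφ(x, y, S)`.  It is convergent, without constant term, with
linear part `τ` (`φ` has order `≥ 2`).  `IsQ`: with `z = x + iy`, `χ = x - iy`,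
`τ = s - iφ(x, y, s)` (`cj` of `Zs`, as `φ` is real) the solution `S` is `s` by uniqueness (IFT).
Reality: `Q̄(χ, z, w) = w - 2iφ(x, y, S')` where `S' + iφ(x, y, S') = w` (conjugate the equation and
exchange `z, χ`: `x ↦ x`, `y ↦ -(…)` conjugated, i.e. `x̄(χ, z) = x`, `ȳ(χ, z) = (χ - z)/(-2i) = y`),
so `τ := Q̄(χ, z, w) = S' - iφ(x, y, S')`; hence `S(z, χ, τ) = S'` by uniqueness and
`Q(z, χ, τ) = S' + iφ(x, y, S') = w`.  Curves: for real `a` take `x = a_z t`, `y = 0`, `s = a_w t`: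
`Z(t) = (a_z t, a_w t + iφ(a_z t, 0, a_w t))`. -/
def SpecQFR : Prop :=
  ∀ (m d : ℕ) (φ : Fin d → PS (Ki m d)), IsPhi φ → ∃ Q : Fin d → PS (Mi m d), IsSeg0 Q ∧ IsQ φ Q

/-- **QFL** (the Levi form in terms of `Q`).

Proof.  The quadratic part of `Q_l` is that of `τ + 2iφ_l((z + χ)/2, (z - χ)/(2i), S)`, where
`S ≡ τ` modulo order 2; this can be read off from `IsQ` (compare the coefficients of degree 2 in
`IsQ`, where `Zs (inl j) = x_j + i y_j` etc.: the terms of `Q_l` of degree 2 without `τ` give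
`Q_l(z, χ, 0)_2 + (-iφ_l)_2 = (iφ_l)_2` for `s = 0`, i.e.
`Q_l(x + iy, x - iy, 0)_2 = 2i φ_l(x, y, 0)_2`; note that the terms with a factor `τ` contribute
monomials with a factor `s` or of degree `≥ 3`).  Write
`φ_l(x, y, 0)_2 = A(z, z) + conj(A(z, z)) + L(z, z̄)`, `z = x + iy`, `L` hermitian.  Then
`∑_{jk} co2 (Q l) (inl j) (inr (inl k)) e_j β_k` is the polarization of `2i L_l`, and for `e = a`,
`β = ā` it is `2i L_l(a, ā)`, where `L_l(a, ā) = (q(a) + q(ia))/2 = lev φ a l`, `q(a) = qd φ a l`,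
since `A(ia, ia) = -A(a, a)`.  So with `e i = a i`, `β i = conj (a i)` the matrix of `LeviQ` is `2i`
times the matrix of `LSpan`. -/
def SpecQFL : Prop :=
  ∀ (m d : ℕ) (φ : Fin d → PS (Ki m d)) (Q : Fin d → PS (Mi m d)), IsPhi φ → IsSeg0 Q → IsQ φ Q →
    LSpan φ → LeviQ Q

/-- **REL** (the formal map of a smooth CR map, and conversely).

Proof (uses TAYM, INV).  Let `e : Mi m d → PS (Ki m d)` be
`Sum.elim (Zs φ ∘ inl) (cj ∘ Zs φ)`: its linear part `(x, y, s) ↦ (x + iy, x - iy, s)` is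
invertible, so (INV, after reindexing) `F.subst e = 0 → F = 0`.  By `IsQ`,
`(Zc Q i).subst e = Zs φ i`, and `(ζc i).subst e = cj (Zs φ i)`.  So
`(ρ.subst (argH Q H)).subst e = ρ.subst (Sum.elim (H_j.subst Zs) (cj (H_j.subst Zs)))
 = ρ.subst (Sum.elim (T g_j) (T ḡ_j)) = T (ρ(g, ḡ)) = 0`.  `Z0 (H j)` as `g 0 = 0`.
Second part: the same computation read backwards: `ρ.subst (Sum.elim (H_j.subst Zs) (cj …)) = 0`,
evaluate at real points near `0` (EVA, EVS, CNS). -/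
def SpecREL : Prop :=
  ∀ (m d N : ℕ) (φ : Fin d → PS (Ki m d)) (Q : Fin d → PS (Mi m d)) (ρ : PS (Fin N ⊕ Fin N))
    (H : Fin N → PS (Zi m d)), IsPhi φ → IsSeg0 Q → IsQ φ Q → Conv ρ → Z0 ρ →
    (∀ (T : ((Ki m d → ℝ) → ℂ) → PS (Ki m d)) (g : (Ki m d → ℝ) → Fin N → ℂ), IsTay T →
      (∀ j, ContDiffAt ℝ ∞ (fun x => g x j) 0) → g 0 = 0 →
      (∀ᶠ x in 𝓝 (0 : Ki m d → ℝ), ev ρ (Sum.elim (g x) fun j => conj (g x j)) = 0) →
      (∀ j, T (fun x => g x j) = (H j).subst (Zs φ)) → IsMap Q ρ H) ∧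
    (IsMap Q ρ H → (∀ j, Conv (H j)) → ∀ᶠ x in 𝓝 (0 : Ki m d → ℝ),
      ev ρ (Sum.elim (fun j => ev (H j) (Zm φ x)) fun j => conj (ev (H j) (Zm φ x))) = 0)

/-! ## Approximation of CR functions -/

/-- the Jacobi matrix of a family of maps -/
def jW {ι : Type} [Fintype ι] [DecidableEq ι] (W : ℝ → (ι → ℝ) → ι → ℂ) (t : ℝ) (u : ι → ℝ) :
    Matrix ι ι ℂ := Matrix.of fun i k => fderiv ℝ (fun v => W t v i) u (Pi.single k 1)

/-- `adj(J) ∂_t W` -/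
def bW {ι : Type} [Fintype ι] [DecidableEq ι] (W : ℝ → (ι → ℝ) → ι → ℂ) (t : ℝ) (u : ι → ℝ) :
    ι → ℂ := (jW W t u).adjugate.mulVec fun i => deriv (fun r => W r u i) t

/-- **HOMI** (homotopy invariance of integrals of holomorphic type).

Proof.  Put `D = det J`, `J = jW W`, `b = bW W`.  Near `[0,1] × tsupport χ`: `b` is `C^1`, and
(Piola) `∂_t D = ∑_k ∂_k b_k`.  Indeed `∂_t D = tr(adj(J) ∂_t J) = ∑_{k,i} adj(J)_{ki} ∂_k ∂_t W_i`
(Jacobi's formula; `W` is `C²`) and `∑_k ∂_k b_k` has the additional terms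
`∑_i (∑_k ∂_k adj(J)_{ki}) ∂_t W_i`, where `∑_k ∂_k adj(J)_{ki} = 0`: as `J` is invertible,
`adj(J) = D J⁻¹` and `∑_k ∂_k (D (J⁻¹)_{ki}) = D ∑ (J⁻¹)_{lj} (∂_k J_{jl}) (J⁻¹)_{ki} -
D ∑ (J⁻¹)_{kj} (∂_k J_{jl}) (J⁻¹)_{li} = 0`, by exchanging `k` and `l` in the second sum, since
`∂_k J_{jl} = ∂_k ∂_l W_j = ∂_l J_{jk}`.  Let `F(t) = ∫ χ f D`.  Differentiation under the integral
(everything is continuous and `χ` has compact support):
`F'(t) = ∫ χ (∂_t f D + f ∂_t D) = ∫ χ ∑_k ∂_k(f b_k) = -∫ ∑_k (∂_k χ) f b_k` (integration by parts;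
the functions `χ f b_k` have compact support).  So `|F'(t)| ≤ K vol(tsupport χ)` and
`|F(1) - F(0)| ≤ K vol(tsupport χ)`. -/
def SpecHOMI : Prop :=
  ∀ (ι : Type) [Fintype ι] [DecidableEq ι] (W : ℝ → (ι → ℝ) → ι → ℂ) (f : ℝ → (ι → ℝ) → ℂ)
    (χ : (ι → ℝ) → ℝ) (K : ℝ), ContDiff ℝ ∞ χ → HasCompactSupport χ →
    (∀ t ∈ Icc (0 : ℝ) 1, ∀ u ∈ tsupport χ,
      ContDiffAt ℝ 2 (fun p : ℝ × (ι → ℝ) => W p.1 p.2) (t, u) ∧
      ContDiffAt ℝ 1 (fun p : ℝ × (ι → ℝ) => f p.1 p.2) (t, u) ∧ (jW W t u).det ≠ 0 ∧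
      (jW W t u).det * deriv (fun r => f r u) t =
        ∑ k, bW W t u k * fderiv ℝ (f t) u (Pi.single k 1) ∧
      ‖∑ k, (fderiv ℝ χ u (Pi.single k 1) : ℂ) * (bW W t u k * f t u)‖ ≤ K) →
    ‖(∫ u, (χ u : ℂ) * (f 1 u * (jW W 1 u).det)) - ∫ u, (χ u : ℂ) * (f 0 u * (jW W 0 u).det)‖ ≤
      K * (MeasureTheory.volume (tsupport χ)).toReal

/-- the point `(x, y, s)` with `u = (x, s)` -/
def Sl {m d : ℕ} (u : Zi m d → ℝ) (y : Fin m → ℝ) : Ki m d → ℝ :=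
  Sum.elim (Sum.elim (fun j => u (Sum.inl j)) y) (fun l => u (Sum.inr l))

/-- the Gauss kernel -/
def kr {ι : Type} [Fintype ι] (τ : ℝ) (w : ι → ℂ) : ℂ :=
  (((τ / Real.pi) ^ ((Fintype.card ι : ℝ) / 2) : ℝ) : ℂ) * Complex.exp (-(τ : ℂ) * ∑ i, w i ^ 2)

/-- the convolution of `h` with the Gauss kernel on the slice `y` -/
def IG {m d : ℕ} (φ : Fin d → PS (Ki m d)) (χ : (Zi m d → ℝ) → ℝ) (τ : ℝ) (h : (Ki m d → ℝ) → ℂ)
    (y : Fin m → ℝ) (ζ : Zi m d → ℂ) : ℂ :=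
  ∫ u : Zi m d → ℝ, (χ u : ℂ) * (h (Sl u y) * kr τ (fun i => ζ i - Zm φ (Sl u y) i) *
    (jW (fun _ v => Zm φ (Sl v y)) 0 u).det)

/-- cut-off functions -/
def IsCut {m d : ℕ} (R : ℝ) (χ : (Zi m d → ℝ) → ℝ) : Prop :=
  ContDiff ℝ ∞ χ ∧ tsupport χ ⊆ Metric.closedBall 0 R ∧
    (∀ u ∈ Metric.closedBall (0 : Zi m d → ℝ) (R / 2), χ u = 1) ∧ ∀ u, 0 ≤ χ u ∧ χ u ≤ 1

/-- **BTA** (changing the slice).

Proof (uses HOMI, EVA).  Let `Z(u, y) = Zm φ (Sl u y) = (x + iy, s + iφ(x, y, s))`, `u = (x, s)`;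
`|·|` Euclidean norms.  Choose `R₀` such that for `‖u‖, ‖y‖ ≤ R₀` everything is defined, `g` is
`C^1` and CR, `det Z_u ≠ 0`, and `|φ(u, y) - φ(u', y')|² ≤ (1/16)(|u - u'|² + |y - y'|²)` (`Dφ` is
small near `0`).  Let `r = R/(8(m+d+1))`, `‖u‖, ‖y‖ ≤ r`, and apply HOMI with
`W(t, u') = Z(u', ty) - Z(u, y)`, `f(t, u') = g(u', ty) kr τ (-W(t, u'))` (for fixed `u, y`).
`det J ∂_t f = ∑ b_k ∂_k f`: for `kr` by the chain rule (`J b = det J ∂_t W`), and for `g` by `CRat`: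
the vector `c` with `c_y = det J · y`, `c_u = -b` kills the components of `Zm φ`, hence `g`.
The difference of the two integrals is that of the Spec (`t = 1, 0`).  On the support of `∇χ`,
`‖u'‖ ≥ R/2`, so `|u' - u| ≥ 3R/8` and
`Re ∑ W_i² = |u' - u|² - |ty - y|² - |φ(u', ty) - φ(u, y)|² ≥ (15/16)|u' - u|² - (17/16)|y|² ≥ c R²`
with an absolute `c > 0` (`|y|² ≤ m r² ≤ R²/64`).  So the bound `K` of HOMI is
`C τ^((m+d)/2) exp(-c R² τ)`, which tends to `0` for `τ → ∞`, uniformly in `u, y`. -/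
def SpecBTA : Prop :=
  ∀ (m d : ℕ) (φ : Fin d → PS (Ki m d)), IsPhi φ → ∀ g : (Ki m d → ℝ) → ℂ,
    ContDiffAt ℝ 1 g 0 → (∀ᶠ x in 𝓝 (0 : Ki m d → ℝ), CRat (Zm φ) g x) →
    ∃ R₀ : ℝ, 0 < R₀ ∧ ∀ R, 0 < R → R ≤ R₀ → ∀ χ : (Zi m d → ℝ) → ℝ, IsCut R χ →
    ∀ ε : ℝ, 0 < ε → ∃ τ₀ : ℝ, ∀ τ ≥ τ₀, ∀ (u : Zi m d → ℝ) (y : Fin m → ℝ),
      ‖u‖ ≤ R / (8 * (m + d + 1)) → ‖y‖ ≤ R / (8 * (m + d + 1)) →
      ‖IG φ χ τ g y (Zm φ (Sl u y)) - IG φ χ τ g 0 (Zm φ (Sl u y))‖ < ε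

/-- **BTB** (approximation on the slice).

Proof (uses HOMI, EVA).  Notation as in BTA.  (b) For `g = 1`: apply HOMI with
`W(t, u') = (x' - x, s' - s + it(φ(u', y) - φ(u, y)))`, `f = kr τ W`; `W_1 = Z(u', y) - Z(u, y)`,
`W_0 = u' - u`, whose Jacobi determinant is `1`.  On the support of `∇χ`:
`Re ∑ W_i² ≥ (15/16)|u' - u|² ≥ c R²`, so the difference tends to `0` uniformly, and
`∫ χ(u') kr τ (u' - u) du' → 1` uniformly for `‖u‖ ≤ r` (the Gauss integral; the part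
`‖u' - u‖ ≥ R/4` tends to `0`).  So `1_τ(u, y) := IG φ χ τ 1 y (Z(u, y)) → 1` uniformly.
(c) `|IG φ χ τ g y (Z(u,y)) - g(u, y) 1_τ(u, y)| ≤ C (τ/π)^(n/2) ∫_{‖u'‖ ≤ R} |g(u', y) - g(u, y)|
exp(-(15/16) τ |u' - u|²) du'`, and this tends to `0` uniformly since `g` is uniformly continuous
on the compact set `‖u‖, ‖y‖ ≤ R`. -/
def SpecBTB : Prop :=
  ∀ (m d : ℕ) (φ : Fin d → PS (Ki m d)), IsPhi φ → ∀ g : (Ki m d → ℝ) → ℂ,
    ContDiffAt ℝ 1 g 0 →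
    ∃ R₀ : ℝ, 0 < R₀ ∧ ∀ R, 0 < R → R ≤ R₀ → ∀ χ : (Zi m d → ℝ) → ℝ, IsCut R χ →
    ∀ ε : ℝ, 0 < ε → ∃ τ₀ : ℝ, ∀ τ ≥ τ₀, ∀ (u : Zi m d → ℝ) (y : Fin m → ℝ),
      ‖u‖ ≤ R / (8 * (m + d + 1)) → ‖y‖ ≤ R / (8 * (m + d + 1)) →
      ‖IG φ χ τ g y (Zm φ (Sl u y)) - g (Sl u y)‖ < ε

/-- **BT** (CR functions are locally uniform limits of entire functions of `Z`).

Proof (uses BTA, BTB, EVA).  Take `R` the smaller of the two `R₀`, and small enough that `g` and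
`Z` are `C^1` on the support, `χ` a bump function, `P(ζ) = IG φ χ τ g 0 ζ` for large `τ`: it is entire in
`ζ` (integral over a compact set of a continuous function which is entire in `ζ`).
`r = R/(8(m+d+1))`. -/
def SpecBT : Prop :=
  ∀ (m d : ℕ) (φ : Fin d → PS (Ki m d)), IsPhi φ → ∀ g : (Ki m d → ℝ) → ℂ,
    ContDiffAt ℝ 1 g 0 → (∀ᶠ x in 𝓝 (0 : Ki m d → ℝ), CRat (Zm φ) g x) →
    ∃ r : ℝ, 0 < r ∧ ∀ ε : ℝ, 0 < ε → ∃ P : (Zi m d → ℂ) → ℂ, Differentiable ℂ P ∧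
      ∀ x, ‖x‖ < r → ‖g x - P (Zm φ x)‖ < ε

/-- **EXTD** (extension along discs).

Proof (uses BT).  Take `η = r`.  Let `P_k` be the entire function of BT for `ε = 1/k`.  On the circle
`A(ζ) = Zm φ (y)`, `‖y‖ < r`, so `P_k ∘ A` is a Cauchy sequence uniformly on the circle, hence (maximum
principle; `A` is holomorphic on a neighbourhood of the closed disc) uniformly on the closed disc;
its limit `E` is continuous there and holomorphic inside, and `E(ζ) = g(y)` on the circle.  The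
bound also follows from the maximum principle. -/
def SpecEXTD : Prop :=
  ∀ (m d : ℕ) (φ : Fin d → PS (Ki m d)), IsPhi φ → ∀ g : (Ki m d → ℝ) → ℂ,
    ContDiffAt ℝ 1 g 0 → (∀ᶠ x in 𝓝 (0 : Ki m d → ℝ), CRat (Zm φ) g x) →
    ∃ η : ℝ, 0 < η ∧ ∀ A : ℂ → Zi m d → ℂ, DifferentiableOn ℂ A (Metric.ball 0 64) →
      (∀ ζ : ℂ, ‖ζ‖ = 1 → ∃ y : Ki m d → ℝ, ‖y‖ < η ∧ A ζ = Zm φ y) →
      ∃ E : ℂ → ℂ, ContinuousOn E (Metric.closedBall 0 1) ∧
        DifferentiableOn ℂ E (Metric.ball 0 1) ∧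
        (∀ ζ : ℂ, ‖ζ‖ = 1 → ∀ y : Ki m d → ℝ, ‖y‖ < η → A ζ = Zm φ y → E ζ = g y) ∧
        ∀ B : ℝ, (∀ y : Ki m d → ℝ, ‖y‖ < η → ‖g y‖ ≤ B) → ∀ ζ : ℂ, ‖ζ‖ ≤ 1 → ‖E ζ‖ ≤ B

/-! ## Analytic discs -/

/-- complex conjugation on the circle, `∑ c_k ζ^k ↦ ∑ conj(c_k) ζ^(-k)` -/
def IsSt (st : ℂ[T;T⁻¹] →+* ℂ[T;T⁻¹]) : Prop :=
  ∀ (c : ℂ) (k : ℤ), st (LaurentPolynomial.C c * LaurentPolynomial.T k) =
    LaurentPolynomial.C (conj c) * LaurentPolynomial.T (-k)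

/-- the Hilbert transform, normalized to vanish at `ζ = 1` -/
def IsT1 (T1 : ℂ[T;T⁻¹] →+ ℂ[T;T⁻¹]) : Prop :=
  ∀ (c : ℂ) (k : ℤ), T1 (LaurentPolynomial.C c * LaurentPolynomial.T k) =
    LaurentPolynomial.C (-(Complex.I * (k.sign : ℂ) * c)) * (LaurentPolynomial.T k - 1)

/-- **LNM** (Laurent polynomials; elementary).

Proof.  `nL` is the `ℓ¹`-norm with the submultiplicative weight `64^|k|`.  `st` is the composition of
`LaurentPolynomial.invert` with the conjugation of the coefficients; `T1` is defined by linearity.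
`nL (T1 (c T^k)) ≤ |c| (64^|k| + 1) ≤ 2 nL (c T^k)` for `k ≠ 0`, and `0` for `k = 0`.
`st ∘ T1 = T1 ∘ st` on monomials: both give `i sgn(k) conj(c) (T^(-k) - 1)`.  For `k < 0` the
coefficient of `T^k` in `-T1 p + i p` is `i sgn(k) p_k + i p_k = 0`.  `evL ζ` is the evaluation, a
ring homomorphism for `ζ ≠ 0`. -/
def SpecLNM : Prop :=
  IsNm nL ∧ (∃ st, IsSt st) ∧ (∃ T1, IsT1 T1) ∧
    (∀ st, IsSt st → (∀ p, nL (st p) = nL p) ∧ (∀ p, st (st p) = p) ∧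
      ∀ (ζ : ℂ) (p : ℂ[T;T⁻¹]), ‖ζ‖ = 1 → evL ζ (st p) = conj (evL ζ p)) ∧
    (∀ T1, IsT1 T1 → (∀ p, nL (T1 p) ≤ 2 * nL p) ∧ (∀ p, evL 1 (T1 p) = 0) ∧
      (∀ st, IsSt st → ∀ p, st (T1 p) = T1 (st p)) ∧
      ∀ (p : ℂ[T;T⁻¹]) (k : ℤ), k < 0 → (-T1 p + LaurentPolynomial.C Complex.I * p).coeff k = 0) ∧
    (∀ ζ : ℂ, ζ ≠ 0 → (∀ p q, evL ζ (p + q) = evL ζ p + evL ζ q) ∧
      (∀ p q, evL ζ (p * q) = evL ζ p * evL ζ q) ∧ (∀ c, evL ζ (LaurentPolynomial.C c) = c) ∧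
      ∀ k : ℤ, evL ζ (LaurentPolynomial.T k) = ζ ^ k) ∧
    (∀ (ζ : ℂ) (p : ℂ[T;T⁻¹]), 1 / 64 ≤ ‖ζ‖ → ‖ζ‖ ≤ 64 → ‖evL ζ p‖ ≤ nL p) ∧
    (∀ (ζ : ℂ) (p : ℂ[T;T⁻¹]), (∀ k < 0, p.coeff k = 0) → ‖ζ‖ ≤ 64 → ‖evL ζ p‖ ≤ nL p)

/-- evaluation of the coefficients at `ζ` -/
def evS {κ : Type} (ζ : ℂ) (f : MvPowerSeries κ ℂ[T;T⁻¹]) : PS κ := fun n => evL ζ (coeff n f)

/-- evaluation at `(x, ζ)` -/
def evM {κ : Type} (f : MvPowerSeries κ ℂ[T;T⁻¹]) (x : κ → ℂ) (ζ : ℂ) : ℂ := ev (evS ζ f) x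

/-- no negative powers of `ζ` -/
def NN {κ : Type} (f : MvPowerSeries κ ℂ[T;T⁻¹]) : Prop :=
  ∀ (n : κ →₀ ℕ) (k : ℤ), k < 0 → (coeff n f).coeff k = 0

/-- **EVM** (evaluation of power series with Laurent polynomial coefficients).

Proof (uses LNM, CNS, EVA, EVS).  For `1/64 ≤ ‖ζ‖ ≤ 64` the coefficients of `evS ζ f` are bounded by
`nL (coeff n f) ≤ C^(deg n + 1)`, uniformly in `ζ`; so all series converge absolutely and uniformly
in `ζ` for `‖x‖ < R`, `2CR < 1`; each term is holomorphic in `ζ ≠ 0` (for `NN f` in all `ζ`, with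
the same bounds for `‖ζ‖ ≤ 64`).  `evS ζ` is a ring homomorphism compatible with substitution
(apply the ring homomorphism `evL ζ` to the coefficients:
`evS ζ (f.subst a) = f.subst (evS ζ ∘ a)` for `f : PS κ'`).  The evaluation of a substitution: as in
EVS, with bounds uniform in `ζ`.  Conjugation: termwise. -/
def SpecEVM : Prop :=
  ∀ (κ : Type) [Fintype κ] [DecidableEq κ],
    (∀ f : MvPowerSeries κ ℂ[T;T⁻¹], ConvN nL f → ∃ R : ℝ, 0 < R ∧ ∀ x : κ → ℂ, ‖x‖ < R →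
      DifferentiableOn ℂ (evM f x) {ζ | 1 / 64 < ‖ζ‖ ∧ ‖ζ‖ < 64} ∧
      (NN f → DifferentiableOn ℂ (evM f x) (Metric.ball 0 64))) ∧
    (∀ f : MvPowerSeries κ ℂ[T;T⁻¹], ConvN nL f → Z0 f → ∀ ε : ℝ, 0 < ε → ∃ R : ℝ, 0 < R ∧
      ∀ x : κ → ℂ, ‖x‖ < R → ∀ ζ : ℂ, ‖ζ‖ ≤ 64 → (1 / 64 ≤ ‖ζ‖ ∨ NN f) → ‖evM f x ζ‖ < ε) ∧
    (∀ f g : MvPowerSeries κ ℂ[T;T⁻¹], ConvN nL f → ConvN nL g → ∃ R : ℝ, 0 < R ∧
      ∀ x : κ → ℂ, ‖x‖ < R → ∀ ζ : ℂ, 1 / 64 ≤ ‖ζ‖ → ‖ζ‖ ≤ 64 →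
        evM (f + g) x ζ = evM f x ζ + evM g x ζ ∧ evM (f * g) x ζ = evM f x ζ * evM g x ζ ∧
        evM (-f) x ζ = -evM f x ζ) ∧
    (∀ (p : ℂ[T;T⁻¹]) (x : κ → ℂ) (ζ : ℂ), evM (C p : MvPowerSeries κ ℂ[T;T⁻¹]) x ζ = evL ζ p) ∧
    (∀ (k : κ) (x : κ → ℂ) (ζ : ℂ), ζ ≠ 0 →
      evM (X k : MvPowerSeries κ ℂ[T;T⁻¹]) x ζ = x k) ∧
    (∀ (ι : Type) [Fintype ι] [DecidableEq ι] (f : PS ι) (a : ι → MvPowerSeries κ ℂ[T;T⁻¹]),
      Conv f → (∀ i, ConvN nL (a i) ∧ Z0 (a i)) → ∃ R : ℝ, 0 < R ∧ ∀ x : κ → ℂ, ‖x‖ < R →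
        ∀ ζ : ℂ, 1 / 64 ≤ ‖ζ‖ → ‖ζ‖ ≤ 64 → evM (f.subst a) x ζ = ev f fun i => evM (a i) x ζ) ∧
    (∀ (ι : Type) [Fintype ι] [DecidableEq ι] (f : PS ι) (a : ι → MvPowerSeries κ ℂ[T;T⁻¹]),
      (∀ i, Z0 (a i)) → ∀ ζ : ℂ, ζ ≠ 0 → evS ζ (f.subst a) = f.subst fun i => evS ζ (a i)) ∧
    (∀ (f : MvPowerSeries κ ℂ[T;T⁻¹]) (ζ : ℂ), ConvN nL f → 1 / 64 ≤ ‖ζ‖ → ‖ζ‖ ≤ 64 →
      Conv (evS ζ f)) ∧
    (∀ st, IsSt st → ∀ (f : MvPowerSeries κ ℂ[T;T⁻¹]) (ζ : ℂ), ‖ζ‖ = 1 →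
      evS ζ (MvPowerSeries.map st f) = cj (evS ζ f) ∧
      ∀ x : κ → ℝ, evM (MvPowerSeries.map st f) (rl x) ζ = conj (evM f (rl x) ζ))

/-- the arguments `((z + z̄)/2, (z - z̄)/(2i), s)` -/
def argB {m d : ℕ} {κ : Type} (st : ℂ[T;T⁻¹] →+* ℂ[T;T⁻¹]) (z : Fin m → MvPowerSeries κ ℂ[T;T⁻¹])
    (s : Fin d → MvPowerSeries κ ℂ[T;T⁻¹]) : Ki m d → MvPowerSeries κ ℂ[T;T⁻¹] :=
  Sum.elim (Sum.elim
    (fun j => C (LaurentPolynomial.C (1 / 2)) * (z j + MvPowerSeries.map st (z j)))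
    (fun j => C (LaurentPolynomial.C (-Complex.I / 2)) * (z j - MvPowerSeries.map st (z j)))) s

/-- solutions of the Bishop equation `s = -T₁ φ(z, z̄, s)` -/
structure IsBish {m d : ℕ} {κ : Type} (φ : Fin d → PS (Ki m d)) (st : ℂ[T;T⁻¹] →+* ℂ[T;T⁻¹])
    (T1 : ℂ[T;T⁻¹] →+ ℂ[T;T⁻¹]) (z : Fin m → MvPowerSeries κ ℂ[T;T⁻¹])
    (s : Fin d → MvPowerSeries κ ℂ[T;T⁻¹]) : Prop where
  conv : ∀ l, ConvN nL (s l)
  zero : ∀ l, Z0 (s l)
  eq : ∀ l, s l = -mapA T1 ((φ l).subst (argB st z s))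

/-- **BSH** (solution of the Bishop equation).

Proof (uses FIX, LNM, CNV, CNS).  FIX with `S = ℂ[T;T⁻¹]`, `N = nL`, `T = T1`, `B = 2`,
`F_l = -φ_l` (reindexed: parameters the `2m` variables `(x, y)`, unknowns `s`; the linear part of
`φ` vanishes), `a` = the first `2m` components of `argB` (convergent, as `nL ∘ st = nL`).
Reality: `map st s` is also a solution: `map st (mapA T1 f) = mapA T1 (map st f)`,
`map st ((φ l).subst a) = (cj (φ l)).subst (map st ∘ a) = (φ l).subst (map st ∘ a)` (compare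
coefficients; `st (c • p) = conj c • st p`), and `map st (argB st z s) = argB st z (map st s)`.  By
uniqueness `map st s = s`.  The last statement is the last property of `T1` in LNM. -/
def SpecBSH : Prop :=
  ∀ (m d : ℕ) (φ : Fin d → PS (Ki m d)), IsPhi φ → ∀ st, IsSt st → ∀ T1, IsT1 T1 →
    ∀ (κ : Type) [Fintype κ] [DecidableEq κ] (z : Fin m → MvPowerSeries κ ℂ[T;T⁻¹]),
    (∀ j, ConvN nL (z j) ∧ Z0 (z j)) →
    ∃ s : Fin d → MvPowerSeries κ ℂ[T;T⁻¹], IsBish φ st T1 z s ∧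
      (∀ l, MvPowerSeries.map st (s l) = s l) ∧
      ∀ l, NN (s l + C (LaurentPolynomial.C Complex.I) * (φ l).subst (argB st z s))

/-- parameters `ε`, `ν`, `β = β' + i β''` -/
abbrev Pk (m d : ℕ) : Type := (Unit ⊕ Fin d) ⊕ (Fin m ⊕ Fin m)

/-- `p^± = (1 - ζ²)(1 ± iζ)` -/
def pPM (c : ℂ) : ℂ[T;T⁻¹] :=
  (1 - LaurentPolynomial.T 2) * (1 + LaurentPolynomial.C c * LaurentPolynomial.T 1)

/-- the `z`-components of the discs:
`ε [∑_i ((1 + ν_i) a_i p^+ ζ^(8(i+1)) + a_i p^- ζ^(8(i+1)+4)) + β (1 - ζ)/2]` -/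
def zz {m d : ℕ} (a : Fin d → Fin m → ℂ) (j : Fin m) : MvPowerSeries (Pk m d) ℂ[T;T⁻¹] :=
  X (Sum.inl (Sum.inl ())) * (∑ i : Fin d,
      ((1 + X (Sum.inl (Sum.inr i))) *
          C (LaurentPolynomial.C (a i j) * pPM Complex.I *
            LaurentPolynomial.T (8 * ((i : ℕ) + 1 : ℤ))) +
        C (LaurentPolynomial.C (a i j) * pPM (-Complex.I) *
          LaurentPolynomial.T (8 * ((i : ℕ) + 1 : ℤ) + 4))) +
    (X (Sum.inr (Sum.inl j)) + C (LaurentPolynomial.C Complex.I) * X (Sum.inr (Sum.inr j))) *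
      C (LaurentPolynomial.C (1 / 2) * (1 - LaurentPolynomial.T 1)))

/-- **SOLV** (the value of `s` at `ζ = -1`).

Proof (uses LNM, BSH for nothing; only the equation).  Grade by the degree in `ε`.  `zz` is divisible
by `ε`, and by the equation (`φ` has order `≥ 2`) `s` is divisible by `ε²` (induction: if `s` is
divisible by `ε^k` modulo higher total degree …; simplest: the solution is unique and can be
constructed inside the ideal `(ε²)`, or: let `j` be the smallest power of `ε` occurring in `s`;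
if `j ≤ 1` then the right side is divisible by `ε^min(2, 2j)`… for `j = 0`: the part of `s` without
`ε` satisfies `s₀ = -T1 φ(0, 0, s₀)`, so `s₀ = 0` by lowest degree; hence `j ≥ 1` and the right
side is divisible by `ε²`).  So `evS (-1) (s l) = ε² W_l`; `W_l` is convergent (division by a
variable) and real (`evS (-1)` and `map st`, or BSH).  Let `p` be `zz/ε`.  The `ε²`-part of
`φ_l(argB)` is the quadratic part of `φ_l` at `((p + p*)/2, (p - p*)/(2i))`, i.e.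
`A(p, p) + A(p, p)* + L(p, p*)`, `A = A_l`, `L = L_l` as in QFL.  Hence
`W_l(0, ν, β) = -T1(A(p, p) + A(p, p)* + L(p, p*))` at `ζ = -1`.
(1) `A(p, p)` has only powers `≥ 0` of `ζ`; for such `h`, `T1 (h + h*) = 2 Im h - 2 Im h(1)`, and
`p(1) = 0`, `p(-1) = β` as `(1 - ζ²)` vanishes at `±1`: this part contributes
`-2 Im A(β, β)`, quadratic in `β`.
(2) Cross terms of `L(p, p*)`: for two different exponents `N ≠ N'` among the `8(i+1)`,
`8(i+1) + 4` the product of the two summands is `ζ^(N - N') g(ζ)`, where `g` has exponents in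
`[-3, 3]` and `|N - N'| ≥ 4`, so all exponents have the same sign; the product `h` vanishes at `±1`,
hence `T1 h = ∓ i (h - h(1))` vanishes at `-1`.  The cross terms with `β (1 - ζ)/2` have exponents
in `±[N - 1, N + 3]`, `N ≥ 8`, and vanish at `±1`: the same.
(3) `L(β, β) |1 - ζ|²/4`, `|1 - ζ|² = 2 - ζ - ζ⁻¹`:
`T1` of it is `i(ζ - 1) - i(ζ⁻¹ - 1)`, which is `0` at `-1`.
(4) Diagonal terms: `(1 + ν_i)² L(a_i, a_i) |p^+|² + L(a_i, a_i) |p^-|²`, where on the circle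
`|p^+|² = (2 - ζ² - ζ⁻²)(2 + iζ - iζ⁻¹) = 4 + 3iζ - 3iζ⁻¹ - 2ζ² - 2ζ⁻² - iζ³ + iζ⁻³`, and `T1` of it
at `-1` is `-4 - 4 = -8` (its Hilbert transform is `3ζ + 2iζ² - ζ³ + 3ζ⁻¹ - 2iζ⁻² - ζ⁻³`, with
values `4` at `1` and `-4` at `-1`); for `|p^-|²` (replace `ζ` by `ζ⁻¹`) it is `8`.
Total: `W_l(0, ν, β) = 8 ∑_i ((1 + ν_i)² - 1) L_l(a_i, a_i) - 2 Im A_l(β, β)`, where
`L_l(a_i, a_i) = lev φ (a i) l`.  So `W_l` has no constant term and the coefficient of `ν_i` is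
`16 lev φ (a i) l`. -/
def SpecSOLV : Prop :=
  ∀ (m d : ℕ) (φ : Fin d → PS (Ki m d)), IsPhi φ → ∀ st, IsSt st → ∀ T1, IsT1 T1 →
    ∀ (a : Fin d → Fin m → ℂ) (s : Fin d → MvPowerSeries (Pk m d) ℂ[T;T⁻¹]),
    IsBish φ st T1 (zz a) s → (∀ l, MvPowerSeries.map st (s l) = s l) →
    ∃ W : Fin d → PS (Pk m d), (∀ l, Conv (W l) ∧ Z0 (W l) ∧ cj (W l) = W l) ∧
      (∀ l, evS (-1) (s l) = X (Sum.inl (Sum.inl ())) ^ 2 * W l) ∧
      ∀ i l, lin (W l) (Sum.inl (Sum.inr i)) = ((16 * lev φ (a i) l : ℝ) : ℂ)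

/-- **DISC** (small discs through any point near `0`).

Proof (uses BSH, SOLV, LNM, EVM, EVA, EVS, IFT, CNV, CNS).  Take `a` from `LSpan φ`, `z = zz a`
(convergent, `NN`), `s` from BSH, `w_l = s_l + iφ_l(argB)`, `W` from SOLV.
IFT for `G_l(ε, β, σ; ν) = W_l(ε, ν, β) - σ_l` (parameters `ε, β', β'', σ`): the linear part in `ν`
is `16 (lev φ (a i) l)`, invertible; let `ν = Ψ(ε, β, σ)`, real (`cj Ψ = Ψ` by uniqueness, as `W`
is real).  Let `δ > 0` be small: for real `|ε|, |β|, |σ| < δ` all evaluations below are valid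
and all quantities are as small as we want.  Given `x = (x', y', s')` with `0 < ‖x‖ < r`, put
`ε = (2‖x‖/δ)^(1/2)`, `β' = x'/ε`, `β'' = y'/ε`, `σ = s'/ε²`: then `|σ| ≤ δ/2`,
`|β| ≤ ‖x‖/ε = (‖x‖ δ/2)^(1/2)`, small for small `r`.  With `ν = Ψ(ε, β, σ)` put
`A(ζ) = (evM (zz a j) , evM (w_l))` at the real parameter point `(ε, ν, β', β'')`.  `A` is
holomorphic on `‖ζ‖ < 64` (`NN`).  `A(1) = 0`: `zz` vanishes at `ζ = 1`, `s = -T1(…)` vanishes at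
`ζ = 1`, and so `w = iφ(0, 0, 0) = 0`.  `A(-1)`: `z = ε β = x' + iy'`, `s = ε² W(ε, ν, β) = ε² σ = s'`,
`w = s' + iφ(x', y', s')`, so `A(-1) = Zm φ x`.  On the circle let `y(ζ)` be the vector of real parts,
imaginary parts of `z`, and `s` (real since `map st s = s`): `A(ζ) = Zm φ (y(ζ))`, `‖y(ζ)‖ < η`.
For `x = 0` take `A = 0`.  The bound `‖A ζ‖ < η` for `‖ζ‖ < 64` by EVM. -/
def SpecDISC : Prop :=
  ∀ (m d : ℕ) (φ : Fin d → PS (Ki m d)), IsPhi φ → LSpan φ → ∀ η : ℝ, 0 < η →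
    ∃ r : ℝ, 0 < r ∧ ∀ x : Ki m d → ℝ, ‖x‖ < r → ∃ A : ℂ → Zi m d → ℂ,
      DifferentiableOn ℂ A (Metric.ball 0 64) ∧ (∀ ζ : ℂ, ‖ζ‖ < 64 → ‖A ζ‖ < η) ∧
      A 1 = 0 ∧ A (-1) = Zm φ x ∧
      ∀ ζ : ℂ, ‖ζ‖ = 1 → ∃ y : Ki m d → ℝ, ‖y‖ < η ∧ A ζ = Zm φ y

/-! ## Uniqueness -/

/-- **HOPF** (a Hopf type lemma for flat boundary values).

Proof.  Let `R` be the rectangle, `z ↦ (z + iε)^(-2j)`, `ε > 0`, is holomorphic near `R`.  Cauchy's
theorem (`Complex.integral_boundary_rect_eq_zero_of_continuousOn_of_differentiableOn`):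
`∫_{-4}^{4} h(x)(x + iε)^(-2j) dx` = minus the integral over the other three sides, on which
`|z + iε| ≥ |z| ≥ 4` and `|h| ≤ B`: so its absolute value is `≤ 16 B 4^(-2j)`.  Let `ε → 0`: by the
flatness for `k = 2j`, `|h(x)(x + iε)^(-2j)| ≤ |h(x)| |x|^(-2j) ≤ C`, dominated convergence gives
`|∫_{-4}^{4} h(x) x^(-2j) dx| ≤ 16 B 4^(-2j)`, and for the real part:
`0 ≤ ∫_{-4}^{4} Re h(x) x^(-2j) dx ≤ 16 B 4^(-2j)`.  For `0 < δ < 4`:
`δ^(-2j) ∫_{-δ}^{δ} Re h ≤ 16 B 4^(-2j)`, i.e. `∫_{-δ}^{δ} Re h ≤ 16 B (δ/4)^(2j) → 0` for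
`j → ∞`.  So `∫_{-δ}^{δ} Re h = 0`, and the continuous function `Re h ≥ 0` vanishes on
`(-δ, δ)`. -/
def SpecHOPF : Prop :=
  ∀ h : ℂ → ℂ, ContinuousOn h (Icc (-4 : ℝ) 4 ×ℂ Icc (0 : ℝ) 4) →
    DifferentiableOn ℂ h (Ioo (-4 : ℝ) 4 ×ℂ Ioo (0 : ℝ) 4) →
    (∀ x ∈ Icc (-4 : ℝ) 4, 0 ≤ (h x).re) →
    (∀ k : ℕ, ∃ C : ℝ, ∀ x ∈ Icc (-4 : ℝ) 4, ‖h x‖ ≤ C * |x| ^ k) →
    ∀ x ∈ Ioo (-4 : ℝ) 4, (h x).re = 0

/-- **SECD** (the strict pseudoconvexity inequality for two points).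

Proof (uses EVA).  Let `P(u, v) = ev ρ (u, v̄)`, analytic near `0`.  For small `u, v` put
`c = u - v`: `P(u, u) - P(u, v) - P(v, u) + P(v, v) = ∫_0^1 ∫_0^1 ∑_{ij} ρ_{w_i ω_j}(v + tc,
conj(v) + t' conj(c)) c_i conj(c_j) dt dt'` (the function `(t, t') ↦ ev ρ (v + tc, v̄ + t'c̄)`; its
mixed second difference).  At `0` the matrix `ρ_{w_i ω_j}` is `co2 ρ (inl i) (inr j)`, and
`Re ∑ co2 c_i conj(c_j) ≥ 2κ |c|²` for some `κ > 0` by compactness of the sphere; near `0` the real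
part of the integrand is `≥ κ |c|²` by continuity.  Finally `P(v, u) = conj (P(u, v))` by
`IsTgt.real`, so if `P(u, u) = P(v, v) = 0` then `-2 Re P(u, v) ≥ κ |c|²`. -/
def SpecSECD : Prop :=
  ∀ (N : ℕ) (ρ : PS (Fin N ⊕ Fin N)), IsTgt ρ → ∃ κ : ℝ, 0 < κ ∧ ∃ r : ℝ, 0 < r ∧
    ∀ u v : Fin N → ℂ, ‖u‖ < r → ‖v‖ < r → ev ρ (Sum.elim u fun j => conj (u j)) = 0 →
      ev ρ (Sum.elim v fun j => conj (v j)) = 0 →
      κ * ∑ j, ‖u j - v j‖ ^ 2 ≤ -2 * (ev ρ (Sum.elim u fun j => conj (v j))).re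

/-- **LOC** (the local theorem in coordinates).

Proof (uses TAY, TAYM, TAYF, TOH, QFR, QFL, REL, FORMAL, EXTD, DISC, HOPF, SECD, EVA, EVS, CNS).
Let `T` be a Taylor operator, `T g_j = H_j.subst Zs` (TOH), `Q` from QFR; `LeviQ Q` by QFL;
`IsMap Q ρ H` by REL; so all `H_j` are convergent (FORMAL).  Let `v_j(x) = ev (H_j) (Zm φ x)`, smooth
near `0`, `ρ(v, v̄) = 0` near `0` (REL), and `T v_j = H_j.subst Zs = T g_j`, so `g - v` is flat at `0`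
(TAYF).  Choose `η > 0` so small that: `η` is at most the `η` of EXTD for all `g_j`; for `‖y‖ < η`
all properties assumed near `0` hold, `‖g y‖, ‖v y‖ < r₀` where `r₀` is such that SECD applies and
`ev ρ` is analytic on the polydisc of radius `2r₀`, and `ev (H_j)` is analytic with
`|ev (H_j) Z| < r₀` for `‖Z‖ < η`.  Let `r` be from DISC for this `η`, `‖x‖ < r` and `A` the disc.
`E_j` = extension of `g_j` along `A` (EXTD), `|E_j| ≤ sup |g_j| ≤ r₀`;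
`F_j(ζ) = conj (ev (H_j) (A(1/conj ζ)))`, holomorphic for `1/64 < ‖ζ‖` (as
`‖1/conj ζ‖ < 64`), in particular near the annulus `e^(-4) ≤ ‖ζ‖ ≤ 1`.  On the circle
`1/conj ζ = ζ`, `A(ζ) = Zm φ y`, `E_j(ζ) = g_j(y)`, `F_j(ζ) = conj (v_j(y))`.  Let
`ψ(ζ) = ev ρ (E(ζ), F(ζ))`, continuous on the annulus `e^(-4) ≤ ‖ζ‖ ≤ 1`, holomorphic inside, and
on the circle `-2 Re ψ ≥ κ ∑ |g_j(y) - v_j(y)|² ≥ 0` (SECD).  `h(z) = -ψ(e^(iz))` on the rectangle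
`[-4,4] × [0,4]`, `|e^(iz)| = e^(-Im z)`.  Flatness at `0`: for `ζ = e^(iθ)`,
`y = y(ζ)` is bounded by `‖A(ζ)‖` (its coordinates are real and imaginary parts of `A(ζ)`), and
`‖A(ζ)‖ ≤ C |θ|` since `A(1) = 0`; further `ψ(ζ) = ev ρ (g(y), conj v(y)) =
ev ρ (g(y), conj v(y)) - ev ρ (v(y), conj v(y))` is bounded by `C ‖g(y) - v(y)‖ ≤ C' ‖y‖^k`.  HOPF:
`Re ψ = 0` at `z = π`, i.e. `ζ = -1`: so `g(y) = v(y)` for the `y` with `A(-1) = Zm φ y`, and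
`A(-1) = Zm φ x` with `Zm φ` injective on real points near `0`
(`z = x' + iy'`, `Re w = s`), so `y = x` and `g(x) = v(x)`. -/
def SpecLOC : Prop :=
  ∀ (m d N : ℕ) (φ : Fin d → PS (Ki m d)) (ρ : PS (Fin N ⊕ Fin N))
    (g : (Ki m d → ℝ) → Fin N → ℂ), IsPhi φ → LSpan φ → IsTgt ρ →
    (∀ j, ContDiffAt ℝ ∞ (fun x => g x j) 0) → g 0 = 0 →
    (∀ j, ∀ᶠ x in 𝓝 (0 : Ki m d → ℝ), CRat (Zm φ) (fun y => g y j) x) →
    (∀ᶠ x in 𝓝 (0 : Ki m d → ℝ), ev ρ (Sum.elim (g x) fun j => conj (g x j)) = 0) →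
    ∃ H : Fin N → PS (Zi m d), (∀ j, Conv (H j)) ∧
      ∀ᶠ x in 𝓝 (0 : Ki m d → ℝ), ∀ j, g x j = ev (H j) (Zm φ x)

end

end Pool.Agent.Lib.MP_2184e2_an.Loc
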