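import Pool.Agent.Lib.MP_2184e2_an.Loc.Cnv
import Pool.Agent.Lib.MP_2184e2_an.Loc.SpecA

section
/-!
# MP_2184e2_an, local theorem: CNS (substitution preserves convergence)
-/
set_option autoImplicit false

namespace Pool.Agent.Lib.MP_2184e2_an.Loc

open MvPowerSeries Filter Topology
open scoped ContDiff LaurentPolynomial ENNReal

noncomputable section

namespace CNSM

open CNVM

variable {S : Type} [CommRing S] [Algebra ℂ S] {N : S → ℝ} {κ ι : Type}

lemma nE_finsum (hN : IsNm N) {β : Type} (g : β → S) (hg : g.support.Finite) :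
    nE N (∑ᶠ b, g b) ≤ ∑' b, nE N (g b) := by
  classical
  rw [finsum_eq_sum_of_support_subset g (s := hg.toFinset) (by simp)]
  exact (nE_sum hN _ _).trans (ENNReal.sum_le_tsum _)

/-- the weighted norm of a substitution, general form -/
lemma w_subst' [Fintype κ] (hN : IsNm N) (R : ℝ≥0∞) (f : PS κ) (a : κ → MvPowerSeries ι S)
    (ha : ∀ i, Z0 (a i)) :
    w N R (f.subst a) ≤ ∑' m : κ →₀ ℕ, ENNReal.ofReal ‖coeff m f‖ * ∏ i, w N R (a i) ^ m i := by
  have hs : HasSubst a := hasSubst_of_constantCoeff_zero ha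
  have h1 : ∀ n : ι →₀ ℕ, nE N (coeff n (f.subst a)) ≤ ∑' m : κ →₀ ℕ,
      ENNReal.ofReal ‖coeff m f‖ * nE N (coeff n (m.prod fun s e => a s ^ e)) := by
    intro n
    rw [coeff_subst hs]
    refine (nE_finsum hN _ (coeff_subst_finite hs f n)).trans ?_
    exact ENNReal.tsum_le_tsum fun m => nE_smul hN _ _
  calc w N R (f.subst a)
      ≤ ∑' n : ι →₀ ℕ, ∑' m : κ →₀ ℕ, ENNReal.ofReal ‖coeff m f‖ *
          (nE N (coeff n (m.prod fun s e => a s ^ e)) * R ^ n.degree) := by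
        refine ENNReal.tsum_le_tsum fun n => ?_
        refine (mul_le_mul' (h1 n) le_rfl).trans (le_of_eq ?_)
        rw [← ENNReal.tsum_mul_right]
        exact tsum_congr fun m => mul_assoc _ _ _
    _ = ∑' m : κ →₀ ℕ, ENNReal.ofReal ‖coeff m f‖ * w N R (m.prod fun s e => a s ^ e) := by
        rw [ENNReal.tsum_comm]
        exact tsum_congr fun m => ENNReal.tsum_mul_left
    _ ≤ _ := by
        refine ENNReal.tsum_le_tsum fun m => mul_le_mul' le_rfl ?_
        rw [Finsupp.prod_fintype _ _ fun i => pow_zero _]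
        exact (w_prod hN R _ _).trans (Finset.prod_le_prod' fun i _ => w_pow hN R _ _)

/-- the weighted norm of a substitution -/
lemma w_subst [Finite κ] (hN : IsNm N) (R ρ : ℝ≥0∞) (f : PS κ) (a : κ → MvPowerSeries ι S)
    (ha : ∀ i, Z0 (a i)) (h : ∀ i, w N R (a i) ≤ ρ) :
    w N R (f.subst a) ≤ w (fun c : ℂ => ‖c‖) ρ f := by
  have := Fintype.ofFinite κ
  refine (w_subst' hN R f a ha).trans (ENNReal.tsum_le_tsum fun m => ?_)
  refine mul_le_mul' le_rfl ?_
  rw [Finsupp.degree_eq_sum, ← Finset.prod_pow_eq_pow_sum]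
  exact Finset.prod_le_prod' fun i _ => pow_le_pow_left' (h i) _

/-- decay of the weighted norm of a series without constant term -/
lemma w_small (hN : IsNm N) {r r₀ : ℝ} (hr : 0 < r) (hrr : r ≤ r₀) (f : MvPowerSeries ι S)
    (hf : Z0 f) :
    w N (ENNReal.ofReal r) f ≤ ENNReal.ofReal (r / r₀) * w N (ENNReal.ofReal r₀) f := by
  have hr0 : 0 < r₀ := hr.trans_le hrr
  rw [w, w, ← ENNReal.tsum_mul_left]
  refine ENNReal.tsum_le_tsum fun n => ?_
  by_cases hn : n = 0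
  · rw [hn, coeff_zero_eq_constantCoeff_apply, hf, nE_zero hN, zero_mul, zero_mul, mul_zero]
  · have hd : 1 ≤ n.degree := by
      rw [Nat.one_le_iff_ne_zero]
      intro h
      exact hn ((Finsupp.degree_eq_zero_iff n).1 h)
    obtain ⟨k, hk⟩ : ∃ k, n.degree = k + 1 := ⟨n.degree - 1, by omega⟩
    rw [mul_left_comm]
    refine mul_le_mul' le_rfl ?_
    rw [← ENNReal.ofReal_pow hr.le, ← ENNReal.ofReal_pow hr0.le,
      ← ENNReal.ofReal_mul (by positivity), hk]
    refine ENNReal.ofReal_le_ofReal ?_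
    calc r ^ (k + 1) = r ^ k * r := pow_succ _ _
      _ ≤ r₀ ^ k * r := mul_le_mul_of_nonneg_right (pow_le_pow_left₀ hr.le hrr _) hr.le
      _ = r / r₀ * r₀ ^ (k + 1) := by
          rw [pow_succ]
          field_simp

/-- a finite family of convergent series without constant term is small at small radius -/
lemma exists_small [Finite κ] (hN : IsNm N) [Finite ι] (a : κ → MvPowerSeries ι S)
    (ha : ∀ i, ConvN N (a i) ∧ Z0 (a i)) (δ : ℝ) (hδ : 0 < δ) :
    ∃ r : ℝ, 0 < r ∧ ∀ i, w N (ENNReal.ofReal r) (a i) ≤ ENNReal.ofReal δ := by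
  have := Fintype.ofFinite κ
  have h1 : ∀ i, ∃ r : ℝ, 0 < r ∧ ∀ r' : ℝ, 0 < r' → r' ≤ r →
      w N (ENNReal.ofReal r') (a i) ≤ ENNReal.ofReal δ := by
    intro i
    obtain ⟨r₀, hr₀, h⟩ := (conv_iff hN _).1 (ha i).1
    set W : ℝ := (w N (ENNReal.ofReal r₀) (a i)).toReal with hW
    have hW0 : 0 ≤ W := ENNReal.toReal_nonneg
    refine ⟨min r₀ (δ * r₀ / (W + 1)), lt_min hr₀ (by positivity), fun r' h0 h1 => ?_⟩
    refine (w_small hN h0 (h1.trans (min_le_left _ _)) (a i) (ha i).2).trans ?_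
    rw [← ENNReal.ofReal_toReal h.ne, ← ENNReal.ofReal_mul (by positivity), ← hW]
    refine ENNReal.ofReal_le_ofReal ?_
    have h2 : r' ≤ δ * r₀ / (W + 1) := h1.trans (min_le_right _ _)
    rw [le_div_iff₀ (by positivity)] at h2
    rw [div_mul_eq_mul_div, div_le_iff₀ hr₀]
    nlinarith
  choose r hr hr' using h1
  rcases isEmpty_or_nonempty κ with hκ | hκ
  · exact ⟨1, one_pos, fun i => (hκ.false i).elim⟩
  · obtain ⟨i₀, -, hi₀⟩ := Finset.exists_min_image Finset.univ r Finset.univ_nonempty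
    exact ⟨r i₀, hr i₀, fun i => hr' i (r i₀) (hr i₀) (hi₀ i (Finset.mem_univ i))⟩

end CNSM

open CNVM CNSM

theorem specCNS : SpecCNS := by
  intro S _ _ N hN κ ι _ _ f a hf ha
  obtain ⟨ρ, hρ, h⟩ := (conv_iff isNm_norm f).1 hf
  obtain ⟨r, hr, h'⟩ := exists_small hN a ha ρ hρ
  exact (conv_iff hN _).2 ⟨r, hr, (w_subst hN _ _ f a (fun i => (ha i).2) h').trans_lt h⟩

end

end Pool.Agent.Lib.MP_2184e2_an.Loc
end

section
/-!
# MP_2184e2_an, local theorem: EVM (evaluation of power series with Laurent polynomial coefficients)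

The lemmas `EvmM.summ`, `EvmM.ev_add_R`, `EvmM.ev_mul_R`, `EvmM.ev_subst_R` are fixed-radius versions
of the statements of EVA and EVS, in terms of the weighted norms `CNVM.w`.
-/
set_option autoImplicit false

namespace Pool.Agent.Lib.MP_2184e2_an.Loc

open MvPowerSeries Filter Topology Set
open scoped ContDiff LaurentPolynomial ComplexConjugate ENNReal

noncomputable section

namespace EvmM

open CNVM CNSM

/-- the norm of `ℂ` -/
abbrev nC : ℂ → ℝ := fun c => ‖c‖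

section Ball

variable {κ : Type} [Fintype κ]

/-- the value of a monomial -/
def mon (x : κ → ℂ) (n : κ →₀ ℕ) : ℂ := n.prod fun i k => x i ^ k

omit [Fintype κ] in
lemma ev_eq (F : PS κ) (x : κ → ℂ) : ev F x = ∑' n : κ →₀ ℕ, coeff n F * mon x n := rfl

omit [Fintype κ] in
lemma mon_zero (x : κ → ℂ) : mon x 0 = 1 := by
  rw [mon, Finsupp.prod_zero_index]

omit [Fintype κ] in
lemma mon_add (x : κ → ℂ) (n m : κ →₀ ℕ) : mon x (n + m) = mon x n * mon x m := by
  classical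
  rw [mon, mon, mon]
  exact Finsupp.prod_add_index' (fun i => pow_zero _) fun i a b => pow_add _ _ _

lemma norm_mon {x : κ → ℂ} {R : ℝ} (hx : ‖x‖ ≤ R) (n : κ →₀ ℕ) : ‖mon x n‖ ≤ R ^ n.degree := by
  rw [mon, Finsupp.prod_fintype _ _ fun i => pow_zero _, norm_prod, Finsupp.degree_eq_sum,
    ← Finset.prod_pow_eq_pow_sum]
  refine Finset.prod_le_prod (fun i _ => norm_nonneg _) fun i _ => ?_
  rw [norm_pow]
  exact pow_le_pow_left₀ (norm_nonneg _) ((norm_le_pi_norm x i).trans hx) _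

lemma toReal_term {R : ℝ} (hR : 0 ≤ R) (c : ℂ) (k : ℕ) :
    (nE nC c * ENNReal.ofReal R ^ k).toReal = ‖c‖ * R ^ k := by
  rw [ENNReal.toReal_mul, ENNReal.toReal_pow, ENNReal.toReal_ofReal hR, nE,
    ENNReal.toReal_ofReal (norm_nonneg c)]

omit [Fintype κ] in
lemma summ_w {R : ℝ} (hR : 0 ≤ R) {F : PS κ} (hF : w nC (ENNReal.ofReal R) F < ⊤) :
    Summable (fun n : κ →₀ ℕ => ‖coeff n F‖ * R ^ n.degree) ∧
      ∑' n : κ →₀ ℕ, ‖coeff n F‖ * R ^ n.degree = (w nC (ENNReal.ofReal R) F).toReal := by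
  have h1 := ENNReal.summable_toReal hF.ne
  have h2 : (w nC (ENNReal.ofReal R) F).toReal =
      ∑' n : κ →₀ ℕ, (nE nC (coeff n F) * ENNReal.ofReal R ^ n.degree).toReal := by
    rw [w, ENNReal.tsum_toReal_eq]
    intro n
    exact ENNReal.ne_top_of_tsum_ne_top hF.ne n
  constructor
  · refine h1.congr fun n => ?_
    exact toReal_term hR _ _
  · rw [h2]
    exact tsum_congr fun n => (toReal_term hR _ _).symm

lemma summ {R : ℝ} {F : PS κ} (hF : w nC (ENNReal.ofReal R) F < ⊤) {x : κ → ℂ} (hx : ‖x‖ ≤ R) :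
    Summable fun n : κ →₀ ℕ => ‖coeff n F * mon x n‖ := by
  have hR : 0 ≤ R := (norm_nonneg x).trans hx
  refine Summable.of_nonneg_of_le (fun n => norm_nonneg _) (fun n => ?_) (summ_w hR hF).1
  rw [norm_mul]
  exact mul_le_mul_of_nonneg_left (norm_mon hx n) (norm_nonneg _)

lemma norm_ev {R : ℝ} {F : PS κ} (hF : w nC (ENNReal.ofReal R) F < ⊤) {x : κ → ℂ}
    (hx : ‖x‖ ≤ R) : ‖ev F x‖ ≤ (w nC (ENNReal.ofReal R) F).toReal := by
  have hR : 0 ≤ R := (norm_nonneg x).trans hx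
  rw [ev_eq, ← (summ_w hR hF).2]
  refine (norm_tsum_le_tsum_norm (summ hF hx)).trans ?_
  refine Summable.tsum_le_tsum (fun n => ?_) (summ hF hx) (summ_w hR hF).1
  rw [norm_mul]
  exact mul_le_mul_of_nonneg_left (norm_mon hx n) (norm_nonneg _)

lemma ev_add_R {R : ℝ} {F G : PS κ} (hF : w nC (ENNReal.ofReal R) F < ⊤)
    (hG : w nC (ENNReal.ofReal R) G < ⊤) {x : κ → ℂ} (hx : ‖x‖ ≤ R) :
    ev (F + G) x = ev F x + ev G x := by
  rw [ev_eq, ev_eq, ev_eq, ← (summ hF hx).of_norm.tsum_add (summ hG hx).of_norm]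
  refine tsum_congr fun n => ?_
  rw [map_add, add_mul]

omit [Fintype κ] in
lemma ev_neg_R (F : PS κ) (x : κ → ℂ) : ev (-F) x = -ev F x := by
  rw [ev_eq, ev_eq, ← tsum_neg]
  refine tsum_congr fun n => ?_
  rw [map_neg, neg_mul]

omit [Fintype κ] in
lemma tsum_anti [DecidableEq κ] {f g : (κ →₀ ℕ) → ℂ} (hf : Summable fun n => ‖f n‖)
    (hg : Summable fun n => ‖g n‖) :
    (∑' n, f n) * ∑' n, g n =
      ∑' n : κ →₀ ℕ, ∑ kl ∈ Finset.HasAntidiagonal.antidiagonal n, f kl.1 * g kl.2 :=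
  Summable.tsum_mul_tsum_eq_tsum_sum_antidiagonal hf.of_norm hg.of_norm
    (summable_mul_of_summable_norm hf hg)

lemma ev_mul_R {R : ℝ} {F G : PS κ} (hF : w nC (ENNReal.ofReal R) F < ⊤)
    (hG : w nC (ENNReal.ofReal R) G < ⊤) {x : κ → ℂ} (hx : ‖x‖ ≤ R) :
    ev (F * G) x = ev F x * ev G x := by
  classical
  have h1 := summ hF hx
  have h2 := summ hG hx
  rw [ev_eq F, ev_eq G, tsum_anti h1 h2, ev_eq]
  refine tsum_congr fun n => ?_
  rw [coeff_mul, Finset.sum_mul]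
  refine Finset.sum_congr rfl fun p hp => ?_
  have h6 : mon x n = mon x p.1 * mon x p.2 := by
    rw [← mon_add, Finset.HasAntidiagonal.mem_antidiagonal.1 hp]
  rw [h6]
  exact mul_mul_mul_comm _ _ _ _

omit [Fintype κ] in
lemma ev_C_R (c : ℂ) (x : κ → ℂ) : ev (C c : PS κ) x = c := by
  classical
  rw [ev_eq, tsum_eq_single 0]
  · rw [coeff_C, if_pos rfl, mon_zero, mul_one]
  · intro n hn
    rw [coeff_C, if_neg hn, zero_mul]

omit [Fintype κ] in
lemma ev_X_R (i : κ) (x : κ → ℂ) : ev (X i : PS κ) x = x i := by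
  classical
  rw [ev_eq, tsum_eq_single (Finsupp.single i 1)]
  · rw [coeff_X, if_pos rfl, one_mul, mon]
    have h := Finsupp.prod_single_index (a := i) (b := 1) (h := fun (i : κ) (k : ℕ) => x i ^ k)
      (pow_zero _)
    rw [h, pow_one]
  · intro n hn
    rw [coeff_X, if_neg hn, zero_mul]

lemma ev_pow_R {R : ℝ} {F : PS κ} (hF : w nC (ENNReal.ofReal R) F < ⊤) {x : κ → ℂ}
    (hx : ‖x‖ ≤ R) (k : ℕ) : ev (F ^ k) x = ev F x ^ k := by
  induction k with
  | zero =>
    rw [pow_zero, pow_zero]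
    have h : (1 : PS κ) = C 1 := (map_one _).symm
    rw [h, ev_C_R]
  | succ k ih =>
    rw [pow_succ, pow_succ, ev_mul_R _ hF hx, ih]
    exact (w_pow isNm_norm _ F k).trans_lt (ENNReal.pow_lt_top hF)

lemma ev_prod_R {ι : Type} {R : ℝ} (s : Finset ι) {F : ι → PS κ}
    (hF : ∀ i, w nC (ENNReal.ofReal R) (F i) < ⊤) {x : κ → ℂ} (hx : ‖x‖ ≤ R) :
    ev (∏ i ∈ s, F i) x = ∏ i ∈ s, ev (F i) x := by
  classical
  induction s using Finset.induction_on with
  | empty =>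
    rw [Finset.prod_empty, Finset.prod_empty]
    have h : (1 : PS κ) = C 1 := (map_one _).symm
    rw [h, ev_C_R]
  | insert a s ha ih =>
    rw [Finset.prod_insert ha, Finset.prod_insert ha, ev_mul_R (hF a) _ hx, ih]
    exact (w_prod isNm_norm _ s F).trans_lt (ENNReal.prod_lt_top fun i _ => hF i)

/-- evaluation of a substitution on a fixed ball -/
lemma ev_subst_R {ι : Type} [Fintype ι] {R ρ : ℝ} (f : PS ι) (b : ι → PS κ)
    (hf : w nC (ENNReal.ofReal ρ) f < ⊤) (hb0 : ∀ i, Z0 (b i))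
    (hb : ∀ i, w nC (ENNReal.ofReal R) (b i) ≤ ENNReal.ofReal ρ) {x : κ → ℂ} (hx : ‖x‖ ≤ R) :
    ev (f.subst b) x = ev f fun i => ev (b i) x := by
  classical
  have hR : 0 ≤ R := (norm_nonneg x).trans hx
  have hs : HasSubst b := hasSubst_of_constantCoeff_zero hb0
  have hb' : ∀ i, w nC (ENNReal.ofReal R) (b i) < ⊤ := fun i =>
    (hb i).trans_lt ENNReal.ofReal_lt_top
  set P : (ι →₀ ℕ) → PS κ := fun m => m.prod fun s e => b s ^ e with hP
  have hPe : ∀ m, P m = ∏ i, b i ^ m i := fun m =>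
    Finsupp.prod_fintype _ _ fun i => pow_zero _
  have hw : ∀ m, w nC (ENNReal.ofReal R) (P m) ≤ ENNReal.ofReal ρ ^ m.degree := by
    intro m
    rw [hPe]
    refine (w_prod isNm_norm _ _ _).trans ?_
    rw [Finsupp.degree_eq_sum, ← Finset.prod_pow_eq_pow_sum]
    exact Finset.prod_le_prod' fun i _ =>
      (w_pow isNm_norm _ _ _).trans (pow_le_pow_left' (hb i) _)
  have hw' : ∀ m, w nC (ENNReal.ofReal R) (P m) < ⊤ := fun m =>
    (hw m).trans_lt (ENNReal.pow_lt_top ENNReal.ofReal_lt_top)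
  set g : (κ →₀ ℕ) → (ι →₀ ℕ) → ℂ := fun n m =>
    coeff m f * (coeff n (P m) * mon x n) with hg
  -- the double family is absolutely summable
  have hE : ∑' q : (κ →₀ ℕ) × (ι →₀ ℕ), ENNReal.ofReal ‖g q.1 q.2‖ < ⊤ := by
    have h1 : ∑' q : (κ →₀ ℕ) × (ι →₀ ℕ), ENNReal.ofReal ‖g q.1 q.2‖ =
        ∑' m : ι →₀ ℕ, ∑' n : κ →₀ ℕ, ENNReal.ofReal ‖g n m‖ := by
      rw [ENNReal.tsum_prod', ENNReal.tsum_comm]
    rw [h1]
    refine lt_of_le_of_lt ?_ hf
    rw [w]
    refine ENNReal.tsum_le_tsum fun m => ?_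
    refine le_trans ?_ (mul_le_mul' le_rfl (hw m))
    rw [w, ← ENNReal.tsum_mul_left]
    refine ENNReal.tsum_le_tsum fun n => ?_
    rw [hg]
    simp only [norm_mul]
    rw [ENNReal.ofReal_mul (norm_nonneg _), ENNReal.ofReal_mul (norm_nonneg _),
      ← ENNReal.ofReal_pow hR]
    exact mul_le_mul' le_rfl (mul_le_mul' le_rfl (ENNReal.ofReal_le_ofReal (norm_mon hx n)))
  have hS : Summable (fun q : (κ →₀ ℕ) × (ι →₀ ℕ) => g q.1 q.2) := by
    apply Summable.of_norm
    have h := ENNReal.summable_toReal hE.ne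
    refine h.congr fun q => ?_
    rw [ENNReal.toReal_ofReal (norm_nonneg _)]
  have h1 : ev (f.subst b) x = ∑' n : κ →₀ ℕ, ∑' m : ι →₀ ℕ, g n m := by
    rw [ev_eq]
    refine tsum_congr fun n => ?_
    have hfin := coeff_subst_finite hs f n
    have h2 : (fun m : ι →₀ ℕ => g n m) = fun m => (coeff m f • coeff n (P m)) * mon x n := by
      funext m
      rw [hg, smul_eq_mul]
      ring
    rw [coeff_subst hs, h2, tsum_mul_right, tsum_eq_finsum hfin]
  have h3 : ev f (fun i => ev (b i) x) = ∑' m : ι →₀ ℕ, ∑' n : κ →₀ ℕ, g n m := by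
    rw [ev_eq]
    refine tsum_congr fun m => ?_
    rw [hg]
    simp only
    rw [tsum_mul_left]
    congr 1
    rw [← ev_eq, hPe, ev_prod_R _ (fun i => (w_pow isNm_norm _ _ _).trans_lt
      (ENNReal.pow_lt_top (hb' i))) hx, mon, Finsupp.prod_fintype _ _ fun i => pow_zero _]
    exact Finset.prod_congr rfl fun i _ => (ev_pow_R (hb' i) hx _).symm
  rw [h1, h3]
  exact (Summable.tsum_comm (f := fun n m => g n m) hS).symm

end Ball

section Laur

variable {κ : Type}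

lemma coeff_evS (ζ : ℂ) (f : MvPowerSeries κ ℂ[T;T⁻¹]) (n : κ →₀ ℕ) :
    coeff n (evS ζ f) = evL ζ (coeff n f) := rfl

/-- the weighted norm of `evS ζ f` -/
lemma w_evS (hLNM : SpecLNM) (R : ℝ≥0∞) (f : MvPowerSeries κ ℂ[T;T⁻¹]) {ζ : ℂ} (h1 : ‖ζ‖ ≤ 64)
    (h2 : 1 / 64 ≤ ‖ζ‖ ∨ NN f) : w nC R (evS ζ f) ≤ w nL R f := by
  obtain ⟨-, -, -, -, -, -, h6, h7⟩ := hLNM
  refine ENNReal.tsum_le_tsum fun n => mul_le_mul' ?_ le_rfl
  rw [coeff_evS]
  refine ENNReal.ofReal_le_ofReal ?_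
  rcases h2 with h2 | h2
  · exact h6 ζ _ h2 h1
  · exact h7 ζ _ (h2 n) h1

/-- `evL ζ` as a ring homomorphism -/
def evR (hLNM : SpecLNM) (ζ : ℂ) (hζ : ζ ≠ 0) : ℂ[T;T⁻¹] →+* ℂ where
  toFun := evL ζ
  map_zero' := by
    have h := (hLNM.2.2.2.2.2.1 ζ hζ).1 0 0
    rw [add_zero] at h
    exact left_eq_add.1 h
  map_one' := by
    have h := (hLNM.2.2.2.2.2.1 ζ hζ).2.2.1 1
    rwa [map_one] at h
  map_add' := (hLNM.2.2.2.2.2.1 ζ hζ).1
  map_mul' := (hLNM.2.2.2.2.2.1 ζ hζ).2.1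

lemma evS_eq_map (hLNM : SpecLNM) {ζ : ℂ} (hζ : ζ ≠ 0) (f : MvPowerSeries κ ℂ[T;T⁻¹]) :
    evS ζ f = MvPowerSeries.map (evR hLNM ζ hζ) f := by
  ext n
  rw [coeff_map, coeff_evS]
  rfl

lemma evR_alg (hLNM : SpecLNM) {ζ : ℂ} (hζ : ζ ≠ 0) (c : ℂ) :
    evR hLNM ζ hζ (algebraMap ℂ ℂ[T;T⁻¹] c) = c := by
  rw [← LaurentPolynomial.C_eq_algebraMap]
  exact (hLNM.2.2.2.2.2.1 ζ hζ).2.2.1 c

lemma evS_subst (hLNM : SpecLNM) {ζ : ℂ} (hζ : ζ ≠ 0) {ι : Type} [Finite ι] (f : PS ι)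
    (a : ι → MvPowerSeries κ ℂ[T;T⁻¹]) (ha : ∀ i, Z0 (a i)) :
    evS ζ (f.subst a) = f.subst fun i => evS ζ (a i) := by
  have hs : HasSubst a := hasSubst_of_constantCoeff_zero ha
  have hz : ∀ i, constantCoeff (evS ζ (a i)) = 0 := by
    intro i
    rw [evS_eq_map hLNM hζ, constantCoeff_map, show constantCoeff (a i) = 0 from ha i, map_zero]
  have hs' : HasSubst (fun i => evS ζ (a i)) := hasSubst_of_constantCoeff_zero hz
  rw [evS_eq_map hLNM hζ]
  ext n
  set h := evR hLNM ζ hζ with hh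
  have e0 : ∀ r, h r = h.toAddMonoidHom r := fun r => rfl
  rw [coeff_subst hs', coeff_map, coeff_subst hs, e0, AddMonoidHom.map_finsum _
    (coeff_subst_finite hs _ _)]
  apply finsum_congr
  intro m
  rw [← e0, Algebra.smul_def, map_mul, hh, evR_alg, ← hh, ← coeff_map h, smul_eq_mul]
  congr 2
  unfold Finsupp.prod
  rw [map_prod]
  apply Finset.prod_congr rfl
  intro i _
  rw [map_pow]
  simp only [evS_eq_map hLNM hζ, hh]

lemma z0_evS {f : MvPowerSeries κ ℂ[T;T⁻¹]} (hLNM : SpecLNM) {ζ : ℂ} (hζ : ζ ≠ 0) (hf : Z0 f) :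
    Z0 (evS ζ f) := by
  show constantCoeff (evS ζ f) = 0
  rw [evS_eq_map hLNM hζ, constantCoeff_map, show constantCoeff f = 0 from hf, map_zero]

/-- each coefficient is holomorphic in `ζ ≠ 0` -/
lemma diff_evL (p : ℂ[T;T⁻¹]) {U : Set ℂ} (hU : ∀ ζ ∈ U, ζ ≠ 0) :
    DifferentiableOn ℂ (fun ζ => evL ζ p) U := by
  unfold evL Finsupp.sum
  refine DifferentiableOn.fun_sum fun k _ => ?_
  intro ζ hζ
  exact ((differentiableAt_zpow.2 (Or.inl (hU ζ hζ))).const_mul _).differentiableWithinAt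

lemma diff_evL' (p : ℂ[T;T⁻¹]) (hp : ∀ k < 0, p.coeff k = 0) (U : Set ℂ) :
    DifferentiableOn ℂ (fun ζ => evL ζ p) U := by
  unfold evL Finsupp.sum
  refine DifferentiableOn.fun_sum fun k hk => ?_
  intro ζ hζ
  have hk0 : 0 ≤ k := by
    by_contra h
    exact Finsupp.mem_support_iff.1 hk (hp k (not_le.1 h))
  exact ((differentiableAt_zpow.2 (Or.inr hk0)).const_mul _).differentiableWithinAt

lemma conj_mon (x : κ → ℝ) (n : κ →₀ ℕ) : conj (mon (rl x) n) = mon (rl x) n := by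
  unfold mon Finsupp.prod
  rw [map_prod]
  refine Finset.prod_congr rfl fun i _ => ?_
  rw [map_pow]
  congr 1
  exact Complex.conj_ofReal _

lemma ev_cj_real (F : PS κ) (x : κ → ℝ) : ev (cj F) (rl x) = conj (ev F (rl x)) := by
  rw [ev_eq, ev_eq, ← Complex.conjCLE_apply, Complex.conjCLE.map_tsum]
  refine tsum_congr fun n => ?_
  rw [Complex.conjCLE_apply, map_mul, conj_mon]
  rfl

end Laur

end EvmM

open CNVM CNSM EvmM

theorem specEVM (hLNM : SpecLNM) : SpecEVM := by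
  intro κ _ _
  have hne : ∀ ζ : ℂ, 1 / 64 ≤ ‖ζ‖ → ζ ≠ 0 := by
    intro ζ h h0
    rw [h0, norm_zero] at h
    norm_num at h
  have hNm : IsNm nL := hLNM.1
  refine ⟨fun f hf => ?_, fun f hf hf0 ε hε => ?_, fun f g hf hg => ?_, fun p x ζ => ?_,
    fun k x ζ hζ => ?_, fun ι _ _ f a hf ha => ?_, fun ι _ _ f a ha ζ hζ => ?_,
    fun f ζ hf h1 h2 => ?_, fun st hst f ζ hζ => ?_⟩
  · obtain ⟨R, hR, h⟩ := (conv_iff hNm f).1 hf
    refine ⟨R, hR, fun x hx => ?_⟩
    have hu : Summable fun n : κ →₀ ℕ => nL (coeff n f) * R ^ n.degree := by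
      have h1 := ENNReal.summable_toReal h.ne
      refine h1.congr fun n => ?_
      rw [ENNReal.toReal_mul, ENNReal.toReal_pow, ENNReal.toReal_ofReal hR.le, nE,
        ENNReal.toReal_ofReal (hNm.nonneg _)]
    have hfun : evM f x = fun ζ => ∑' n : κ →₀ ℕ, evL ζ (coeff n f) * mon x n := by
      funext ζ
      rfl
    have hb : ∀ (n : κ →₀ ℕ) (ζ : ℂ), ‖evL ζ (coeff n f)‖ ≤ nL (coeff n f) →
        ‖evL ζ (coeff n f) * mon x n‖ ≤ nL (coeff n f) * R ^ n.degree := by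
      intro n ζ h1
      rw [norm_mul]
      exact mul_le_mul h1 (norm_mon hx.le n) (norm_nonneg _) (hNm.nonneg _)
    constructor
    · rw [hfun]
      refine Complex.differentiableOn_tsum_of_summable_norm hu (fun n => ?_) ?_ fun n ζ hζ => ?_
      · exact (diff_evL _ fun ζ hζ => hne ζ hζ.1.le).mul_const _
      · exact (isOpen_lt continuous_const continuous_norm).inter
          (isOpen_lt continuous_norm continuous_const)
      · exact hb n ζ (hLNM.2.2.2.2.2.2.1 ζ _ hζ.1.le hζ.2.le)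
    · intro hNN
      rw [hfun]
      refine Complex.differentiableOn_tsum_of_summable_norm hu (fun n => ?_) Metric.isOpen_ball
        fun n ζ hζ => ?_
      · exact (diff_evL' _ (hNN n) _).mul_const _
      · rw [mem_ball_zero_iff] at hζ
        exact hb n ζ (hLNM.2.2.2.2.2.2.2 ζ _ (hNN n) hζ.le)
  · obtain ⟨R, hR, h⟩ := exists_small hNm (fun _ : Unit => f) (fun _ => ⟨hf, hf0⟩) (ε / 2)
      (half_pos hε)
    refine ⟨R, hR, fun x hx ζ h1 h2 => ?_⟩
    have h3 := (w_evS hLNM (ENNReal.ofReal R) f h1 h2).trans (h ())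
    have h4 : w nC (ENNReal.ofReal R) (evS ζ f) < ⊤ := h3.trans_lt ENNReal.ofReal_lt_top
    have h5 := norm_ev h4 hx.le
    have h6 := ENNReal.toReal_mono ENNReal.ofReal_ne_top h3
    rw [ENNReal.toReal_ofReal (half_pos hε).le] at h6
    have : ‖evM f x ζ‖ = ‖ev (evS ζ f) x‖ := rfl
    rw [this]
    linarith
  · obtain ⟨R, hR, h⟩ := (conv_iff hNm f).1 hf
    obtain ⟨R', hR', h'⟩ := (conv_iff hNm g).1 hg
    refine ⟨min R R', lt_min hR hR', fun x hx ζ h1 h2 => ?_⟩
    have h3 : w nL (ENNReal.ofReal (min R R')) f < ⊤ :=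
      (w_mono (ENNReal.ofReal_le_ofReal (min_le_left _ _)) f).trans_lt h
    have h4 : w nL (ENNReal.ofReal (min R R')) g < ⊤ :=
      (w_mono (ENNReal.ofReal_le_ofReal (min_le_right _ _)) g).trans_lt h'
    have h5 := (w_evS hLNM _ f h2 (Or.inl h1)).trans_lt h3
    have h6 := (w_evS hLNM _ g h2 (Or.inl h1)).trans_lt h4
    have hζ := hne ζ h1
    refine ⟨?_, ?_, ?_⟩
    · show ev (evS ζ (f + g)) x = ev (evS ζ f) x + ev (evS ζ g) x
      rw [evS_eq_map hLNM hζ, map_add, ← evS_eq_map hLNM hζ, ← evS_eq_map hLNM hζ]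
      exact ev_add_R h5 h6 hx.le
    · show ev (evS ζ (f * g)) x = ev (evS ζ f) x * ev (evS ζ g) x
      rw [evS_eq_map hLNM hζ, map_mul, ← evS_eq_map hLNM hζ, ← evS_eq_map hLNM hζ]
      exact ev_mul_R h5 h6 hx.le
    · show ev (evS ζ (-f)) x = -ev (evS ζ f) x
      rw [evS_eq_map hLNM hζ, map_neg, ← evS_eq_map hLNM hζ]
      exact ev_neg_R _ _
  · show ev (evS ζ (C p)) x = evL ζ p
    have h0 : evL ζ (0 : ℂ[T;T⁻¹]) = 0 := by
      unfold evL
      simp
    have h1 : evS ζ (C p : MvPowerSeries κ ℂ[T;T⁻¹]) = C (evL ζ p) := by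
      classical
      ext n
      rw [coeff_evS, coeff_C, coeff_C]
      split_ifs with hn
      · rfl
      · exact h0
    rw [h1, ev_C_R]
  · show ev (evS ζ (X k)) x = x k
    rw [evS_eq_map hLNM hζ, map_X, ev_X_R]
  · obtain ⟨ρ, hρ, h⟩ := (conv_iff isNm_norm f).1 hf
    obtain ⟨R, hR, h'⟩ := exists_small hNm a ha ρ hρ
    refine ⟨R, hR, fun x hx ζ h1 h2 => ?_⟩
    have hζ := hne ζ h1
    show ev (evS ζ (f.subst a)) x = ev f fun i => ev (evS ζ (a i)) x
    rw [evS_subst hLNM hζ f a fun i => (ha i).2]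
    exact ev_subst_R f _ h (fun i => z0_evS hLNM hζ (ha i).2)
      (fun i => (w_evS hLNM _ _ h2 (Or.inl h1)).trans (h' i)) hx.le
  · exact evS_subst hLNM hζ f a ha
  · obtain ⟨R, hR, h⟩ := (conv_iff hNm f).1 hf
    exact (conv_iff isNm_norm _).2 ⟨R, hR, (w_evS hLNM _ f h2 (Or.inl h1)).trans_lt h⟩
  · have h1 : evS ζ (MvPowerSeries.map st f) = cj (evS ζ f) := by
      ext n
      rw [coeff_evS, coeff_map]
      exact (hLNM.2.2.2.1 st hst).2.2 ζ _ hζ
    refine ⟨h1, fun x => ?_⟩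
    show ev (evS ζ (MvPowerSeries.map st f)) (rl x) = conj (ev (evS ζ f) (rl x))
    rw [h1, ev_cj_real]

end

end Pool.Agent.Lib.MP_2184e2_an.Loc
end

section
/-!
# MP_2184e2_an, local theorem: EVS (evaluation of a substitution)
-/
set_option autoImplicit false

namespace Pool.Agent.Lib.MP_2184e2_an.Loc

open MvPowerSeries Filter Topology
open scoped ContDiff LaurentPolynomial ENNReal

noncomputable section

namespace EvsM

open CNVM CNSM

variable {ι : Type}

/-- the monomial `x ^ n` -/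
def mn (n : ι →₀ ℕ) (x : ι → ℂ) : ℂ := n.prod fun i k => x i ^ k

/-- the norm as a size function -/
abbrev Nc : ℂ → ℝ := fun c => ‖c‖

lemma mn_add (n m : ι →₀ ℕ) (x : ι → ℂ) : mn (n + m) x = mn n x * mn m x := by
  classical
  unfold mn
  exact Finsupp.prod_add_index' (fun i => pow_zero _) fun i a b => pow_add _ _ _

lemma norm_mn_le (n : ι →₀ ℕ) (x : ι → ℂ) {R : ℝ} (hx : ∀ i, ‖x i‖ ≤ R) :
    ‖mn n x‖ ≤ R ^ n.degree := by
  unfold mn
  rw [Finsupp.prod, norm_prod, Finsupp.degree_apply, ← Finset.prod_pow_eq_pow_sum]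
  refine Finset.prod_le_prod (fun i _ => norm_nonneg _) fun i _ => ?_
  rw [norm_pow]
  exact pow_le_pow_left₀ (norm_nonneg _) (hx i) _

/-- absolute convergence from a finite sum in `ℝ≥0∞` -/
lemma summable_of {β : Type} (F : β → ℂ) (G : β → ℝ≥0∞) (h : ∀ b, ENNReal.ofReal ‖F b‖ ≤ G b)
    (hG : ∑' b, G b < ⊤) : Summable fun b => ‖F b‖ := by
  have h1 : ∑' b, ENNReal.ofReal ‖F b‖ ≠ ⊤ := ((ENNReal.tsum_le_tsum h).trans_lt hG).ne
  have h2 : ∀ b, ENNReal.ofReal ‖F b‖ = ((‖F b‖₊ : NNReal) : ℝ≥0∞) := fun b => by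
    rw [ofReal_norm]; rfl
  simp only [h2] at h1
  have h3 := ENNReal.tsum_coe_ne_top_iff_summable.1 h1
  exact (NNReal.summable_coe).2 h3

lemma summable_ev {R : ℝ} (hR : 0 ≤ R) (f : PS ι) (hf : w Nc (ENNReal.ofReal R) f < ⊤)
    (x : ι → ℂ) (hx : ∀ i, ‖x i‖ ≤ R) : Summable fun n => ‖coeff n f * mn n x‖ := by
  refine summable_of _ (fun n => nE Nc (coeff n f) * ENNReal.ofReal R ^ n.degree) (fun n => ?_) hf
  rw [norm_mul, ENNReal.ofReal_mul (norm_nonneg _), ← ENNReal.ofReal_pow hR]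
  exact mul_le_mul' le_rfl (ENNReal.ofReal_le_ofReal (norm_mn_le n x hx))

lemma ev_def (f : PS ι) (x : ι → ℂ) : ev f x = ∑' n : ι →₀ ℕ, coeff n f * mn n x := rfl

lemma ev_mul {R : ℝ} (hR : 0 ≤ R) (f g : PS ι)
    (hf : w Nc (ENNReal.ofReal R) f < ⊤) (hg : w Nc (ENNReal.ofReal R) g < ⊤)
    (x : ι → ℂ) (hx : ∀ i, ‖x i‖ ≤ R) : ev (f * g) x = ev f x * ev g x := by
  classical
  have h1 := summable_ev hR f hf x hx
  have h2 := summable_ev hR g hg x hx
  have h12 : Summable fun p : (ι →₀ ℕ) × (ι →₀ ℕ) =>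
      (coeff p.1 f * mn p.1 x) * (coeff p.2 g * mn p.2 x) :=
    summable_mul_of_summable_norm (R := ℂ) (f := fun n : ι →₀ ℕ => coeff n f * mn n x)
      (g := fun n : ι →₀ ℕ => coeff n g * mn n x) h1 h2
  have h4 : (∑' n : ι →₀ ℕ, coeff n f * mn n x) * (∑' n : ι →₀ ℕ, coeff n g * mn n x) =
      ∑' n : ι →₀ ℕ, ∑ p ∈ Finset.HasAntidiagonal.antidiagonal n,
        (coeff p.1 f * mn p.1 x) * (coeff p.2 g * mn p.2 x) :=
    Summable.tsum_mul_tsum_eq_tsum_sum_antidiagonal (f := fun n : ι →₀ ℕ => coeff n f * mn n x)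
      (g := fun n : ι →₀ ℕ => coeff n g * mn n x) h1.of_norm h2.of_norm h12
  rw [ev_def, ev_def, ev_def, h4]
  refine tsum_congr fun n => ?_
  rw [coeff_mul, Finset.sum_mul]
  refine Finset.sum_congr rfl fun p hp => ?_
  have h3 : n = p.1 + p.2 := (Finset.HasAntidiagonal.mem_antidiagonal.1 hp).symm
  rw [h3, mn_add]
  ring

lemma ev_one (x : ι → ℂ) : ev (1 : PS ι) x = 1 := by
  classical
  rw [ev_def, tsum_eq_single 0]
  · rw [coeff_one, if_pos rfl]
    simp [mn]
  · intro n hn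
    rw [coeff_one, if_neg hn, zero_mul]

lemma ev_pow {R : ℝ} (hR : 0 ≤ R) (f : PS ι)
    (hf : w Nc (ENNReal.ofReal R) f < ⊤) (x : ι → ℂ) (hx : ∀ i, ‖x i‖ ≤ R) (k : ℕ) :
    w Nc (ENNReal.ofReal R) (f ^ k) < ⊤ ∧ ev (f ^ k) x = ev f x ^ k := by
  induction k with
  | zero =>
    rw [pow_zero, pow_zero, ev_one]
    exact ⟨(w_one isNm_norm _).trans_lt ENNReal.one_lt_top, rfl⟩
  | succ k ih =>
    rw [pow_succ, pow_succ, ev_mul hR _ _ ih.1 hf x hx, ih.2]
    exact ⟨(w_mul isNm_norm _ _ _).trans_lt (ENNReal.mul_lt_top ih.1 hf), rfl⟩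

lemma ev_prod {κ : Type} [DecidableEq κ] {R : ℝ} (hR : 0 ≤ R) (s : Finset κ)
    (a : κ → PS ι) (ha : ∀ i, w Nc (ENNReal.ofReal R) (a i) < ⊤)
    (x : ι → ℂ) (hx : ∀ i, ‖x i‖ ≤ R) :
    w Nc (ENNReal.ofReal R) (∏ i ∈ s, a i) < ⊤ ∧
      ev (∏ i ∈ s, a i) x = ∏ i ∈ s, ev (a i) x := by
  induction s using Finset.induction_on with
  | empty =>
    rw [Finset.prod_empty, Finset.prod_empty, ev_one]
    exact ⟨(w_one isNm_norm _).trans_lt ENNReal.one_lt_top, rfl⟩
  | insert i s hi ih =>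
    rw [Finset.prod_insert hi, Finset.prod_insert hi, ev_mul hR _ _ (ha i) ih.1 x hx, ih.2]
    exact ⟨(w_mul isNm_norm _ _ _).trans_lt (ENNReal.mul_lt_top (ha i) ih.1), rfl⟩

lemma ev_mon {κ : Type} [Fintype κ] [DecidableEq κ] {R : ℝ} (hR : 0 ≤ R)
    (a : κ → PS ι) (ha : ∀ i, w Nc (ENNReal.ofReal R) (a i) < ⊤)
    (x : ι → ℂ) (hx : ∀ i, ‖x i‖ ≤ R) (m : κ →₀ ℕ) :
    ev (m.prod fun i k => a i ^ k) x = mn m fun i => ev (a i) x := by
  rw [Finsupp.prod_fintype _ _ fun i => pow_zero _, mn, Finsupp.prod_fintype _ _ fun i => pow_zero _]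
  rw [(ev_prod hR Finset.univ (fun i => a i ^ m i) (fun i => (ev_pow hR _ (ha i) x hx _).1)
    x hx).2]
  exact Finset.prod_congr rfl fun i _ => (ev_pow hR _ (ha i) x hx _).2

/-- evaluation of a substitution on a polydisc of explicit size -/
theorem ev_subst {κ : Type} [Fintype κ] [DecidableEq κ] (f : PS κ)
    (a : κ → PS ι) (ha : ∀ i, Z0 (a i)) {R ρ : ℝ} (hR : 0 ≤ R)
    (hf : w Nc (ENNReal.ofReal ρ) f < ⊤)
    (h : ∀ i, w Nc (ENNReal.ofReal R) (a i) ≤ ENNReal.ofReal ρ)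
    (x : ι → ℂ) (hx : ∀ i, ‖x i‖ ≤ R) :
    ev (f.subst a) x = ev f fun i => ev (a i) x := by
  have hs : HasSubst a := hasSubst_of_constantCoeff_zero ha
  have hw : ∀ i, w Nc (ENNReal.ofReal R) (a i) < ⊤ := fun i => (h i).trans_lt ENNReal.ofReal_lt_top
  -- the double series
  have hsum : Summable fun p : (κ →₀ ℕ) × (ι →₀ ℕ) =>
      ‖coeff p.1 f * (coeff p.2 (p.1.prod fun i k => a i ^ k) * mn p.2 x)‖ := by
    refine summable_of _ (fun p : (κ →₀ ℕ) × (ι →₀ ℕ) => nE Nc (coeff p.1 f) *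
      (nE Nc (coeff p.2 (p.1.prod fun i k => a i ^ k)) * ENNReal.ofReal R ^ p.2.degree))
      (fun p => ?_) ?_
    · rw [norm_mul, norm_mul, ENNReal.ofReal_mul (norm_nonneg _),
        ENNReal.ofReal_mul (norm_nonneg _), ← ENNReal.ofReal_pow hR]
      exact mul_le_mul' le_rfl (mul_le_mul' le_rfl (ENNReal.ofReal_le_ofReal
        (norm_mn_le p.2 x hx)))
    · rw [ENNReal.tsum_prod (f := fun (m : κ →₀ ℕ) (n : ι →₀ ℕ) => nE Nc (coeff m f) *
        (nE Nc (coeff n (m.prod fun i k => a i ^ k)) * ENNReal.ofReal R ^ n.degree))]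
      refine lt_of_le_of_lt (ENNReal.tsum_le_tsum fun m => ?_) hf
      rw [ENNReal.tsum_mul_left]
      refine mul_le_mul' le_rfl ?_
      change w Nc (ENNReal.ofReal R) (m.prod fun i k => a i ^ k) ≤ _
      rw [Finsupp.prod_fintype _ _ fun i => pow_zero _, Finsupp.degree_eq_sum,
        ← Finset.prod_pow_eq_pow_sum]
      refine (w_prod isNm_norm _ _ _).trans (Finset.prod_le_prod' fun i _ => ?_)
      exact (w_pow isNm_norm _ _ _).trans (pow_le_pow_left' (h i) _)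
  have hsum' := hsum.of_norm
  rw [ev_def, ev_def]
  have h1 : ∀ n : ι →₀ ℕ, coeff n (f.subst a) * mn n x =
      ∑' m : κ →₀ ℕ, coeff m f * (coeff n (m.prod fun i k => a i ^ k) * mn n x) := by
    intro n
    rw [coeff_subst hs]
    have h2 : (Function.support fun m : κ →₀ ℕ =>
        coeff m f • coeff n (m.prod fun s e => a s ^ e)).Finite := coeff_subst_finite hs f n
    rw [← tsum_eq_finsum (L := SummationFilter.unconditional _) h2, ← tsum_mul_right]
    refine tsum_congr fun m => ?_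
    rw [smul_eq_mul, mul_assoc]
  simp only [h1]
  have h3 : ∑' n : ι →₀ ℕ, ∑' m : κ →₀ ℕ,
      coeff m f * (coeff n (m.prod fun i k => a i ^ k) * mn n x) =
      ∑' m : κ →₀ ℕ, ∑' n : ι →₀ ℕ,
      coeff m f * (coeff n (m.prod fun i k => a i ^ k) * mn n x) :=
    Summable.tsum_comm (f := fun (m : κ →₀ ℕ) (n : ι →₀ ℕ) =>
      coeff m f * (coeff n (m.prod fun i k => a i ^ k) * mn n x)) hsum'
  rw [h3]
  refine tsum_congr fun m => ?_
  rw [tsum_mul_left, ← ev_mon hR a hw x hx m]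
  rfl

end EvsM

open CNVM CNSM EvsM

theorem specEVS : SpecEVS := by
  intro κ ι _ _ _ _ f a hf ha
  obtain ⟨ρ, hρ, h⟩ := (conv_iff isNm_norm f).1 hf
  obtain ⟨r, hr, h'⟩ := exists_small isNm_norm a ha ρ hρ
  have h1 : ∀ᶠ x in 𝓝 (0 : ι → ℂ), ‖x‖ < r := by
    have := Metric.ball_mem_nhds (0 : ι → ℂ) hr
    filter_upwards [this] with x hx
    simpa using hx
  filter_upwards [h1] with x hx
  exact ev_subst f a (fun i => (ha i).2) hr.le h h' x fun i => (norm_le_pi_norm x i).trans hx.le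

end

end Pool.Agent.Lib.MP_2184e2_an.Loc
end

section
/-!
# MP_2184e2_an, local theorem: EXTD
-/
set_option autoImplicit false

namespace Pool.Agent.Lib.MP_2184e2_an.Loc.ExtdM

open Complex Set Filter Topology Metric

lemma max_le {f : ℂ → ℂ} (hf : DiffContOnCl ℂ f (ball 0 1)) {B : ℝ}
    (hB : ∀ ζ : ℂ, ‖ζ‖ = 1 → ‖f ζ‖ ≤ B) : ∀ ζ : ℂ, ‖ζ‖ ≤ 1 → ‖f ζ‖ ≤ B := by
  intro ζ hζ
  refine Complex.norm_le_of_forall_mem_frontier_norm_le isBounded_ball hf ?_ ?_
  · intro z hz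
    rw [frontier_ball 0 one_ne_zero, mem_sphere_zero_iff_norm] at hz
    exact hB z hz
  · rw [closure_ball 0 one_ne_zero, mem_closedBall_zero_iff]
    exact hζ

lemma lim_of (F : ℕ → ℂ → ℂ) (hF : ∀ k, DifferentiableOn ℂ (F k) (ball 0 64)) (G : ℂ → ℂ)
    (hG : ∀ k, ∀ ζ : ℂ, ‖ζ‖ = 1 → ‖F k ζ - G ζ‖ ≤ 1 / ((k : ℝ) + 1)) :
    ∃ E : ℂ → ℂ, ContinuousOn E (closedBall 0 1) ∧ DifferentiableOn ℂ E (ball 0 1) ∧
      ∀ ζ : ℂ, ‖ζ‖ = 1 → E ζ = G ζ := by
  have hsub : closedBall (0 : ℂ) 1 ⊆ ball 0 64 := by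
    intro z hz
    rw [mem_closedBall_zero_iff] at hz
    rw [mem_ball_zero_iff]; linarith
  have hdc : ∀ k, DiffContOnCl ℂ (F k) (ball 0 1) := by
    intro k
    refine DifferentiableOn.diffContOnCl ?_
    rw [closure_ball 0 one_ne_zero]
    exact (hF k).mono hsub
  have hbd : ∀ k l, ∀ ζ : ℂ, ‖ζ‖ ≤ 1 → ‖F k ζ - F l ζ‖ ≤ 1 / ((k : ℝ) + 1) + 1 / ((l : ℝ) + 1) := by
    intro k l
    refine max_le (f := fun ζ => F k ζ - F l ζ) ((hdc k).sub (hdc l)) ?_
    intro ζ hζ
    calc ‖F k ζ - F l ζ‖ = ‖(F k ζ - G ζ) - (F l ζ - G ζ)‖ := by ring_nf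
      _ ≤ ‖F k ζ - G ζ‖ + ‖F l ζ - G ζ‖ := norm_sub_le _ _
      _ ≤ _ := add_le_add (hG k ζ hζ) (hG l ζ hζ)
  have ht0 : Tendsto (fun k : ℕ => 1 / ((k : ℝ) + 1)) atTop (𝓝 0) :=
    tendsto_one_div_add_atTop_nhds_zero_nat
  have hcau : UniformCauchySeqOn F atTop (closedBall (0 : ℂ) 1) := by
    rw [Metric.uniformCauchySeqOn_iff]
    intro ε hε
    obtain ⟨n, hn⟩ := (ht0.eventually (gt_mem_nhds (half_pos hε))).exists_forall_of_atTop
    refine ⟨n, ?_⟩
    intro k hk l hl ζ hζ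
    rw [dist_eq_norm]
    refine (hbd k l ζ (mem_closedBall_zero_iff.1 hζ)).trans_lt ?_
    linarith [hn k hk, hn l hl]
  have hpt : ∀ ζ ∈ closedBall (0 : ℂ) 1, ∃ e, Tendsto (fun k => F k ζ) atTop (𝓝 e) := by
    intro ζ hζ
    exact cauchySeq_tendsto_of_complete (hcau.cauchySeq hζ)
  classical
  choose! E hE using hpt
  have hunif : TendstoUniformlyOn F E atTop (closedBall (0 : ℂ) 1) :=
    hcau.tendstoUniformlyOn_of_tendsto hE
  refine ⟨E, ?_, ?_, ?_⟩
  · refine hunif.continuousOn (Eventually.of_forall fun k => ?_).frequently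
    exact ((hF k).mono hsub).continuousOn
  · refine (hunif.mono ball_subset_closedBall).tendstoLocallyUniformlyOn.differentiableOn
      (Eventually.of_forall fun k => ?_) isOpen_ball
    exact (hF k).mono (ball_subset_closedBall.trans hsub)
  · intro ζ hζ
    have h1 := hE ζ (by rw [mem_closedBall_zero_iff, hζ])
    have h2 : Tendsto (fun k => F k ζ) atTop (𝓝 (G ζ)) := by
      rw [tendsto_iff_norm_sub_tendsto_zero]
      exact squeeze_zero (fun _ => norm_nonneg _) (fun k => hG k ζ hζ) ht0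
    exact tendsto_nhds_unique h1 h2

end Pool.Agent.Lib.MP_2184e2_an.Loc.ExtdM

namespace Pool.Agent.Lib.MP_2184e2_an.Loc

open Complex Set Filter Topology Metric ExtdM

theorem specEXTD (hBT : SpecBT) : SpecEXTD := by
  intro m d φ hφ g hg hcr
  obtain ⟨r, hr, hP⟩ := hBT m d φ hφ g hg hcr
  refine ⟨r, hr, ?_⟩
  intro A hA hcirc
  have hk : ∀ k : ℕ, 0 < 1 / ((k : ℝ) + 1) := fun k => by positivity
  choose P hPd hPb using fun k : ℕ => hP (1 / ((k : ℝ) + 1)) (hk k)
  choose! y hy1 hy2 using hcirc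
  obtain ⟨E, hE1, hE2, hE3⟩ := lim_of (fun k ζ => P k (A ζ))
    (fun k => (hPd k).comp_differentiableOn hA) (fun ζ => g (y ζ)) (by
      intro k ζ hζ
      rw [norm_sub_rev]
      have := hPb k (y ζ) (hy1 ζ hζ)
      rw [← hy2 ζ hζ] at this
      exact this.le)
  have huniq : ∀ ζ : ℂ, ‖ζ‖ = 1 → ∀ y' : Ki m d → ℝ, ‖y'‖ < r → A ζ = Zm φ y' → E ζ = g y' := by
    intro ζ hζ y' hy' hAy
    rw [hE3 ζ hζ]
    have ht0 : Tendsto (fun k : ℕ => 1 / ((k : ℝ) + 1)) atTop (𝓝 0) :=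
      tendsto_one_div_add_atTop_nhds_zero_nat
    have h1 : Tendsto (fun k => P k (A ζ)) atTop (𝓝 (g (y ζ))) := by
      rw [tendsto_iff_norm_sub_tendsto_zero]
      refine squeeze_zero (fun _ => norm_nonneg _) (fun k => ?_) ht0
      have := hPb k (y ζ) (hy1 ζ hζ)
      rw [← hy2 ζ hζ] at this
      rw [norm_sub_rev]; exact this.le
    have h2 : Tendsto (fun k => P k (A ζ)) atTop (𝓝 (g y')) := by
      rw [tendsto_iff_norm_sub_tendsto_zero]
      refine squeeze_zero (fun _ => norm_nonneg _) (fun k => ?_) ht0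
      have := hPb k y' hy'
      rw [← hAy] at this
      rw [norm_sub_rev]; exact this.le
    exact tendsto_nhds_unique h1 h2
  refine ⟨E, hE1, hE2, huniq, ?_⟩
  intro B hB ζ hζ
  refine max_le ?_ ?_ ζ hζ
  · refine ⟨hE2, ?_⟩
    rw [closure_ball 0 one_ne_zero]
    exact hE1
  · intro z hz
    rw [huniq z hz (y z) (hy1 z hz) (hy2 z hz)]
    exact hB _ (hy1 z hz)

end Pool.Agent.Lib.MP_2184e2_an.Loc
end

section
/-!
# MP_2184e2_an, local theorem: FIX (fixed point theorem with convergence)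
-/
set_option autoImplicit false

namespace Pool.Agent.Lib.MP_2184e2_an.Loc

open MvPowerSeries Filter Topology
open scoped ContDiff LaurentPolynomial ENNReal

noncomputable section

namespace FIXM

open CNVM CNSM

section Lo

variable {S : Type} [CommRing S] {ι : Type}

/-- all coefficients of degree `< k` vanish -/
def Lo (k : ℕ) (f : MvPowerSeries ι S) : Prop := ∀ n : ι →₀ ℕ, n.degree < k → coeff n f = 0

lemma Lo.mono {j k : ℕ} (h : j ≤ k) {f : MvPowerSeries ι S} (hf : Lo k f) : Lo j f :=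
  fun n hn => hf n (hn.trans_le h)

lemma Lo.add {k : ℕ} {f g : MvPowerSeries ι S} (hf : Lo k f) (hg : Lo k g) : Lo k (f + g) :=
  fun n hn => by rw [map_add, hf n hn, hg n hn, add_zero]

lemma Lo.neg {k : ℕ} {f : MvPowerSeries ι S} (hf : Lo k f) : Lo k (-f) :=
  fun n hn => by rw [map_neg, hf n hn, neg_zero]

lemma Lo.sub {k : ℕ} {f g : MvPowerSeries ι S} (hf : Lo k f) (hg : Lo k g) : Lo k (f - g) :=
  fun n hn => by rw [map_sub, hf n hn, hg n hn, sub_zero]

lemma Lo_zero (k : ℕ) : Lo k (0 : MvPowerSeries ι S) := fun n _ => by rw [map_zero]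

lemma Lo_triv (f : MvPowerSeries ι S) : Lo 0 f := fun n hn => absurd hn (Nat.not_lt_zero _)

lemma Lo.mul {j k : ℕ} {f g : MvPowerSeries ι S} (hf : Lo j f) (hg : Lo k g) :
    Lo (j + k) (f * g) := by
  classical
  intro n hn
  rw [coeff_mul]
  refine Finset.sum_eq_zero fun p hp => ?_
  have h1 : p.1 + p.2 = n := Finset.HasAntidiagonal.mem_antidiagonal.1 hp
  have h2 : p.1.degree + p.2.degree = n.degree := by rw [← map_add, h1]
  rcases lt_or_ge p.1.degree j with h | h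
  · rw [hf _ h, zero_mul]
  · rw [hg _ (by omega), mul_zero]

lemma Lo_one {f : MvPowerSeries ι S} (hf : Z0 f) : Lo 1 f := by
  intro n hn
  have h1 : n = 0 := (Finsupp.degree_eq_zero_iff n).1 (by omega)
  rw [h1, coeff_zero_eq_constantCoeff_apply]
  exact hf

lemma eq_of_Lo {f g : MvPowerSeries ι S} (h : ∀ k, Lo k (f - g)) : f = g := by
  ext n
  have := h (n.degree + 1) n (Nat.lt_succ_self _)
  rw [map_sub, sub_eq_zero] at this
  exact this

variable {α : Type}

lemma prod_Lo_one (u : α → MvPowerSeries ι S) (hu : ∀ s, Lo 1 (u s)) (l : List α)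
    (hl : l ≠ []) : Lo 1 (l.map u).prod := by
  cases l with
  | nil => exact absurd rfl hl
  | cons s l =>
    rw [List.map_cons, List.prod_cons]
    exact ((hu s).mul (Lo_triv _)).mono le_rfl

lemma prod_diff (u u' : α → MvPowerSeries ι S) (hu : ∀ s, Lo 1 (u s)) (hu' : ∀ s, Lo 1 (u' s))
    (k : ℕ) (h : ∀ s, Lo k (u s - u' s)) (l : List α) :
    Lo k ((l.map u).prod - (l.map u').prod) ∧
      (2 ≤ l.length → Lo (k + 1) ((l.map u).prod - (l.map u').prod)) := by
  induction l with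
  | nil =>
    refine ⟨?_, fun h => absurd h (by simp)⟩
    simp only [List.map_nil, sub_self]
    exact Lo_zero _
  | cons s l ih =>
    have h1 : (List.map u (s :: l)).prod - (List.map u' (s :: l)).prod =
        u s * ((l.map u).prod - (l.map u').prod) + (u s - u' s) * (l.map u').prod := by
      rw [List.map_cons, List.map_cons, List.prod_cons, List.prod_cons]
      ring
    rw [h1]
    have h2 : Lo (k + 1) (u s * ((l.map u).prod - (l.map u').prod)) := by
      have := (hu s).mul ih.1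
      rwa [add_comm] at this
    refine ⟨(h2.mono (Nat.le_succ k)).add ?_, fun hl => h2.add ?_⟩
    · exact (h s).mul (Lo_triv _)
    · refine (h s).mul (prod_Lo_one u' hu' l ?_)
      rintro rfl
      simp at hl

lemma prod_eq (x : α → MvPowerSeries ι S) (m : α →₀ ℕ) :
    m.prod (fun s e => x s ^ e) = ((Finsupp.toMultiset m).toList.map x).prod := by
  have h1 : ((Finsupp.toMultiset m).toList.map x).prod = ((Finsupp.toMultiset m).map x).prod := by
    conv_rhs => rw [← Multiset.coe_toList (Finsupp.toMultiset m)]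
    rw [Multiset.map_coe, Multiset.prod_coe]
  rw [h1, Finsupp.toMultiset_map, Finsupp.prod_toMultiset,
    Finsupp.prod_mapDomain_index (fun _ => pow_zero _) (fun _ _ _ => pow_add _ _ _)]

lemma length_eq (m : α →₀ ℕ) : (Finsupp.toMultiset m).toList.length = m.degree := by
  rw [Multiset.length_toList, Finsupp.card_toMultiset, Finsupp.degree_apply, Finsupp.sum]
  rfl

lemma deg_one {m : α →₀ ℕ} (hm : m.degree = 1) : ∃ s, m = Finsupp.single s 1 := by
  have h1 : Multiset.card (Finsupp.toMultiset m) = 1 := by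
    rw [← Multiset.length_toList, length_eq, hm]
  obtain ⟨s, hs⟩ := Multiset.card_eq_one.1 h1
  refine ⟨s, ?_⟩
  classical
  rw [← Finsupp.toMultiset_toFinsupp m, hs, Multiset.toFinsupp_singleton]

end Lo

section Main

variable {S : Type} [CommRing S] [Algebra ℂ S] {κ ι : Type} [Finite κ] {r : ℕ}

lemma z0_elim {a : κ → MvPowerSeries ι S} (ha : ∀ k, Z0 (a k)) {y : Fin r → MvPowerSeries ι S}
    (hy : ∀ i, Z0 (y i)) : ∀ s, Z0 (Sum.elim a y s) := by
  rintro (k | i)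
  · exact ha k
  · exact hy i

lemma subst_diff (F : PS (κ ⊕ Fin r)) (hlin : ∀ j, lin F (Sum.inr j) = 0)
    {a : κ → MvPowerSeries ι S} (ha : ∀ k, Z0 (a k)) {y y' : Fin r → MvPowerSeries ι S}
    (hy : ∀ i, Z0 (y i)) (hy' : ∀ i, Z0 (y' i)) (k : ℕ) (h : ∀ j, Lo k (y j - y' j)) :
    Lo (k + 1) (F.subst (Sum.elim a y) - F.subst (Sum.elim a y')) := by
  classical
  intro n hn
  have hs := hasSubst_of_constantCoeff_zero (z0_elim ha hy)
  have hs' := hasSubst_of_constantCoeff_zero (z0_elim ha hy')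
  rw [map_sub, coeff_subst hs, coeff_subst hs', sub_eq_zero]
  refine finsum_congr fun m => ?_
  rcases Nat.lt_trichotomy m.degree 1 with hm | hm | hm
  · have h0 : m = 0 := (Finsupp.degree_eq_zero_iff m).1 (by omega)
    rw [h0, Finsupp.prod_zero_index, Finsupp.prod_zero_index]
  · obtain ⟨s, hs1⟩ := deg_one hm
    rw [hs1]
    rcases s with s | s
    · have h5 : ∀ z : Fin r → MvPowerSeries ι S,
          ((Finsupp.single (Sum.inl s : κ ⊕ Fin r) 1).prod fun t e => Sum.elim a z t ^ e) = a s := by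
        intro z
        rw [Finsupp.prod_single_index (h := fun t e => Sum.elim a z t ^ e) (pow_zero _), pow_one]
        rfl
      rw [h5 y, h5 y']
    · have h1 : coeff (Finsupp.single (Sum.inr s : κ ⊕ Fin r) 1) F = 0 := hlin s
      rw [h1, zero_smul, zero_smul]
  · have h1 := (prod_diff (Sum.elim a y) (Sum.elim a y') (fun s => Lo_one (z0_elim ha hy s))
      (fun s => Lo_one (z0_elim ha hy' s)) k ?_ (Finsupp.toMultiset m).toList).2 ?_ n hn
    · rw [← prod_eq, ← prod_eq, map_sub, sub_eq_zero] at h1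
      rw [h1]
    · rintro (s | s)
      · simp only [Sum.elim_inl, sub_self]
        exact Lo_zero _
      · exact h s
    · rw [length_eq]
      omega

lemma subst_z0 (F : PS (κ ⊕ Fin r)) (hF : Z0 F)
    {a : κ → MvPowerSeries ι S} (ha : ∀ k, Z0 (a k)) {y : Fin r → MvPowerSeries ι S}
    (hy : ∀ i, Z0 (y i)) : coeff 0 (F.subst (Sum.elim a y)) = 0 := by
  classical
  have hs := hasSubst_of_constantCoeff_zero (z0_elim ha hy)
  rw [coeff_subst hs]
  refine (finsum_congr fun m => ?_).trans finsum_zero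
  by_cases hm : m = 0
  · have h1 : coeff m F = 0 := by
      rw [hm, coeff_zero_eq_constantCoeff_apply]
      exact hF
    rw [h1, zero_smul]
  · have h1 : Lo 1 (m.prod fun s e => Sum.elim a y s ^ e) := by
      rw [prod_eq]
      refine prod_Lo_one _ (fun s => Lo_one (z0_elim ha hy s)) _ fun hl => ?_
      have h2 := length_eq m
      rw [hl, List.length_nil] at h2
      exact hm ((Finsupp.degree_eq_zero_iff m).1 h2.symm)
    rw [h1 0 (by rw [map_zero]; exact Nat.one_pos), smul_zero]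

lemma coeff_mapA (T : S →+ S) (f : MvPowerSeries ι S) (n : ι →₀ ℕ) :
    coeff n (mapA T f) = T (coeff n f) := rfl

lemma mapA_sub_Lo (T : S →+ S) {k : ℕ} {f g : MvPowerSeries ι S} (h : Lo k (f - g)) :
    Lo k (mapA T f - mapA T g) := by
  intro n hn
  rw [map_sub, coeff_mapA, coeff_mapA, ← map_sub, ← map_sub, h n hn, map_zero]

/-- the map whose fixed points are considered -/
def Ph (T : S →+ S) (F : Fin r → PS (κ ⊕ Fin r)) (a : κ → MvPowerSeries ι S)
    (y : Fin r → MvPowerSeries ι S) : Fin r → MvPowerSeries ι S :=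
  fun i => mapA T ((F i).subst (Sum.elim a y))

/-- the iterates -/
def Yk (T : S →+ S) (F : Fin r → PS (κ ⊕ Fin r)) (a : κ → MvPowerSeries ι S) :
    ℕ → Fin r → MvPowerSeries ι S
  | 0 => fun _ => 0
  | k + 1 => Ph T F a (Yk T F a k)

/-- the diagonal of a sequence of power series -/
def dg (f : ℕ → MvPowerSeries ι S) : MvPowerSeries ι S := fun n => coeff n (f (n.degree + 1))

lemma coeff_dg (f : ℕ → MvPowerSeries ι S) (n : ι →₀ ℕ) :
    coeff n (dg f) = coeff n (f (n.degree + 1)) := rfl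

/-- the limit -/
def Y (T : S →+ S) (F : Fin r → PS (κ ⊕ Fin r)) (a : κ → MvPowerSeries ι S) :
    Fin r → MvPowerSeries ι S :=
  fun i => dg fun k => Yk T F a k i

variable (T : S →+ S) (F : Fin r → PS (κ ⊕ Fin r)) (a : κ → MvPowerSeries ι S)

lemma Ph_z0 (hF : ∀ i, Z0 (F i)) (ha : ∀ k, Z0 (a k)) {y : Fin r → MvPowerSeries ι S}
    (hy : ∀ i, Z0 (y i)) (i : Fin r) : Z0 (Ph T F a y i) := by
  rw [Z0, ← coeff_zero_eq_constantCoeff_apply, Ph, coeff_mapA, subst_z0 (F i) (hF i) ha hy,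
    map_zero]

lemma Ph_diff (hlin : ∀ i j, lin (F i) (Sum.inr j) = 0) (ha : ∀ k, Z0 (a k))
    {y y' : Fin r → MvPowerSeries ι S}
    (hy : ∀ i, Z0 (y i)) (hy' : ∀ i, Z0 (y' i)) (k : ℕ) (h : ∀ j, Lo k (y j - y' j)) (i : Fin r) :
    Lo (k + 1) (Ph T F a y i - Ph T F a y' i) :=
  mapA_sub_Lo T (subst_diff (F i) (hlin i) ha hy hy' k h)

lemma Yk_z0 (hF : ∀ i, Z0 (F i)) (ha : ∀ k, Z0 (a k)) (k : ℕ) (i : Fin r) :
    Z0 (Yk T F a k i) := by
  induction k generalizing i with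
  | zero => exact map_zero _
  | succ k ih => exact Ph_z0 T F a hF ha ih i

lemma Yk_step (hF : ∀ i, Z0 (F i)) (hlin : ∀ i j, lin (F i) (Sum.inr j) = 0)
    (ha : ∀ k, Z0 (a k)) (k : ℕ) (i : Fin r) : Lo k (Yk T F a (k + 1) i - Yk T F a k i) := by
  induction k generalizing i with
  | zero => exact Lo_triv _
  | succ k ih =>
    exact Ph_diff T F a hlin ha (Yk_z0 T F a hF ha (k + 1)) (Yk_z0 T F a hF ha k) k ih i

lemma Yk_le (hF : ∀ i, Z0 (F i)) (hlin : ∀ i j, lin (F i) (Sum.inr j) = 0)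
    (ha : ∀ k, Z0 (a k)) (k l : ℕ) (hkl : k ≤ l) (i : Fin r) :
    Lo k (Yk T F a l i - Yk T F a k i) := by
  induction l, hkl using Nat.le_induction with
  | base => rw [sub_self]; exact Lo_zero _
  | succ l hl ih =>
    have h1 := (Yk_step T F a hF hlin ha l i).mono hl
    have h2 := h1.add ih
    rwa [sub_add_sub_cancel] at h2

lemma Y_Yk (hF : ∀ i, Z0 (F i)) (hlin : ∀ i j, lin (F i) (Sum.inr j) = 0)
    (ha : ∀ k, Z0 (a k)) (k : ℕ) (i : Fin r) : Lo k (Y T F a i - Yk T F a k i) := by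
  intro n hn
  have h1 : coeff n (Y T F a i) = coeff n (Yk T F a (n.degree + 1) i) :=
    coeff_dg (fun k => Yk T F a k i) n
  have h2 := Yk_le T F a hF hlin ha (n.degree + 1) k hn i n (Nat.lt_succ_self _)
  rw [map_sub, sub_eq_zero] at h2
  rw [map_sub, h1, h2, sub_self]

lemma Y_z0 (hF : ∀ i, Z0 (F i)) (hlin : ∀ i j, lin (F i) (Sum.inr j) = 0)
    (ha : ∀ k, Z0 (a k)) (i : Fin r) : Z0 (Y T F a i) := by
  have h1 := Y_Yk T F a hF hlin ha 1 i 0 (by rw [map_zero]; exact Nat.one_pos)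
  rw [map_sub, sub_eq_zero, coeff_zero_eq_constantCoeff_apply,
    coeff_zero_eq_constantCoeff_apply] at h1
  rw [Z0, h1]
  exact Yk_z0 T F a hF ha 1 i

lemma Y_fix (hF : ∀ i, Z0 (F i)) (hlin : ∀ i j, lin (F i) (Sum.inr j) = 0)
    (ha : ∀ k, Z0 (a k)) (i : Fin r) : Y T F a i = Ph T F a (Y T F a) i := by
  refine eq_of_Lo fun k => ?_
  have h1 := Y_Yk T F a hF hlin ha (k + 1) i
  have h2 := Ph_diff T F a hlin ha (Y_z0 T F a hF hlin ha) (Yk_z0 T F a hF ha k) k
    (fun j => Y_Yk T F a hF hlin ha k j) i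
  have h3 := h1.sub h2
  have h4 : Y T F a i - Yk T F a (k + 1) i - (Ph T F a (Y T F a) i - Ph T F a (Yk T F a k) i) =
      Y T F a i - Ph T F a (Y T F a) i := by
    have : Yk T F a (k + 1) i = Ph T F a (Yk T F a k) i := rfl
    rw [this]
    ring
  rw [h4] at h3
  exact h3.mono (Nat.le_succ k)

lemma fix_unique (hlin : ∀ i j, lin (F i) (Sum.inr j) = 0) (ha : ∀ k, Z0 (a k))
    {y y' : Fin r → MvPowerSeries ι S} (hy : ∀ i, Z0 (y i)) (hy' : ∀ i, Z0 (y' i))
    (h : ∀ i, y i = Ph T F a y i) (h' : ∀ i, y' i = Ph T F a y' i) : y = y' := by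
  have key : ∀ k i, Lo k (y i - y' i) := by
    intro k
    induction k with
    | zero => exact fun i => Lo_triv _
    | succ k ih =>
      intro i
      rw [h i, h' i]
      exact Ph_diff T F a hlin ha hy hy' k ih i
  funext i
  exact eq_of_Lo fun k => key k i

end Main

section Conv

variable {S : Type} [CommRing S] [Algebra ℂ S] {N : S → ℝ} {κ ι : Type} [Fintype κ] {r : ℕ}

lemma w_mapA (hN : IsNm N) (T : S →+ S) (B : ℝ) (hB : 0 ≤ B) (hT : ∀ s, N (T s) ≤ B * N s)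
    (R : ℝ≥0∞) (f : MvPowerSeries ι S) : w N R (mapA T f) ≤ ENNReal.ofReal B * w N R f := by
  rw [w, w, ← ENNReal.tsum_mul_left]
  refine ENNReal.tsum_le_tsum fun n => ?_
  rw [coeff_mapA, ← mul_assoc]
  refine mul_le_mul' ?_ le_rfl
  rw [nE, nE, ← ENNReal.ofReal_mul hB]
  exact ENNReal.ofReal_le_ofReal (hT _)

lemma w_step (hN : IsNm N) (F : PS (κ ⊕ Fin r)) (hF : Z0 F)
    (hlin : ∀ j, lin F (Sum.inr j) = 0) {x : κ ⊕ Fin r → MvPowerSeries ι S}
    (hx : ∀ s, Z0 (x s)) {R : ℝ≥0∞} {s δ ρ : ℝ} (hs : 0 ≤ s) (hsδ : s ≤ δ) (hδρ : δ ≤ ρ)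
    (hρ : 0 < ρ)
    (h1 : ∀ k, w N R (x (Sum.inl k)) ≤ ENNReal.ofReal s)
    (h2 : ∀ j, w N R (x (Sum.inr j)) ≤ ENNReal.ofReal δ) :
    w N R (F.subst x) ≤
      ENNReal.ofReal (s / ρ + (δ / ρ) ^ 2) * w (fun c : ℂ => ‖c‖) (ENNReal.ofReal ρ) F := by
  classical
  have hδ : 0 ≤ δ := hs.trans hsδ
  refine (w_subst' hN R F x hx).trans ?_
  rw [w, ← ENNReal.tsum_mul_left]
  refine ENNReal.tsum_le_tsum fun m => ?_
  have hall : ∀ t, w N R (x t) ≤ ENNReal.ofReal δ := by
    rintro (t | t)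
    · exact (h1 t).trans (ENNReal.ofReal_le_ofReal hsδ)
    · exact h2 t
  have hc : ENNReal.ofReal ‖coeff m F‖ * ∏ i, w N R (x i) ^ m i ≤
      ENNReal.ofReal ‖coeff m F‖ * (ENNReal.ofReal (s / ρ + (δ / ρ) ^ 2) *
        ENNReal.ofReal ρ ^ m.degree) := by
    rcases Nat.lt_trichotomy m.degree 1 with hm | hm | hm
    · have h0 : m = 0 := (Finsupp.degree_eq_zero_iff m).1 (by omega)
      have h3 : coeff m F = 0 := by
        rw [h0, coeff_zero_eq_constantCoeff_apply]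
        exact hF
      rw [h3, norm_zero, ENNReal.ofReal_zero, zero_mul, zero_mul]
    · obtain ⟨t, ht⟩ := deg_one hm
      rcases t with t | t
      · refine mul_le_mul' le_rfl ?_
        have h3 : ∏ i, w N R (x i) ^ m i = w N R (x (Sum.inl t)) := by
          rw [Finset.prod_eq_single (Sum.inl t)]
          · rw [ht, Finsupp.single_eq_same, pow_one]
          · intro b _ hb
            rw [ht, Finsupp.single_eq_of_ne hb, pow_zero]
          · intro h
            exact absurd (Finset.mem_univ _) h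
        rw [h3, hm, pow_one, ← ENNReal.ofReal_mul (by positivity)]
        refine (h1 t).trans (ENNReal.ofReal_le_ofReal ?_)
        rw [add_mul, div_mul_cancel₀ _ hρ.ne']
        have : 0 ≤ (δ / ρ) ^ 2 * ρ := by positivity
        linarith
      · have h3 : coeff m F = 0 := by rw [ht]; exact hlin t
        rw [h3, norm_zero, ENNReal.ofReal_zero, zero_mul, zero_mul]
    · refine mul_le_mul' le_rfl ?_
      have h3 : ∏ i, w N R (x i) ^ m i ≤ ENNReal.ofReal δ ^ m.degree := by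
        rw [Finsupp.degree_eq_sum, ← Finset.prod_pow_eq_pow_sum]
        exact Finset.prod_le_prod' fun i _ => pow_le_pow_left' (hall i) _
      refine h3.trans ?_
      obtain ⟨k, hk⟩ : ∃ k, m.degree = k + 2 := ⟨m.degree - 2, by omega⟩
      rw [← ENNReal.ofReal_pow hδ, ← ENNReal.ofReal_pow hρ.le,
        ← ENNReal.ofReal_mul (by positivity), hk]
      refine ENNReal.ofReal_le_ofReal ?_
      calc δ ^ (k + 2) = δ ^ 2 * δ ^ k := by ring
        _ ≤ δ ^ 2 * ρ ^ k :=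
            mul_le_mul_of_nonneg_left (pow_le_pow_left₀ hδ hδρ _) (by positivity)
        _ = (δ / ρ) ^ 2 * ρ ^ (k + 2) := by
            rw [div_pow, pow_add ρ k 2]
            field_simp
        _ ≤ (s / ρ + (δ / ρ) ^ 2) * ρ ^ (k + 2) :=
            mul_le_mul_of_nonneg_right (by linarith [show 0 ≤ s / ρ by positivity])
              (by positivity)
  refine hc.trans (le_of_eq ?_)
  rw [nE]
  ring

end Conv

end FIXM

open CNVM CNSM FIXM

theorem specFIX : SpecFIX := by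
  intro S _ _ N hN T B hT κ ι _ _ r F hF hlin a ha
  refine ⟨⟨Y T F a, Y_z0 T F a hF hlin ha, Y_fix T F a hF hlin ha, fun hFc hac => ?_⟩,
    fun y y' hy hy' h h' => fix_unique T F a hlin ha hy hy' h h'⟩
  have := Fintype.ofFinite κ
  set B' : ℝ := max B 0 with hB'
  have hB0 : 0 ≤ B' := le_max_right _ _
  have hT' : ∀ s, N (T s) ≤ B' * N s := fun s =>
    (hT s).trans (mul_le_mul_of_nonneg_right (le_max_left _ _) (hN.nonneg s))
  -- common radius for the F i
  obtain ⟨ρ, W, hρ, hW, hρW⟩ : ∃ ρ W : ℝ, 0 < ρ ∧ 0 ≤ W ∧ ∀ i,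
      w (fun c : ℂ => ‖c‖) (ENNReal.ofReal ρ) (F i) ≤ ENNReal.ofReal W := by
    have h1 : ∀ i, ∃ ρ : ℝ, 0 < ρ ∧ w (fun c : ℂ => ‖c‖) (ENNReal.ofReal ρ) (F i) < ⊤ :=
      fun i => (conv_iff isNm_norm (F i)).1 (hFc i)
    choose ρ h2 h3 using h1
    rcases isEmpty_or_nonempty (Fin r) with hr | hr
    · exact ⟨1, 0, one_pos, le_rfl, fun i => (hr.false i).elim⟩
    · obtain ⟨i₀, -, hi₀⟩ := Finset.exists_min_image Finset.univ ρ Finset.univ_nonempty
      have h4 : ∀ i, w (fun c : ℂ => ‖c‖) (ENNReal.ofReal (ρ i₀)) (F i) < ⊤ := fun i =>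
        (w_mono (ENNReal.ofReal_le_ofReal (hi₀ i (Finset.mem_univ i))) _).trans_lt (h3 i)
      refine ⟨ρ i₀, ∑ i, (w (fun c : ℂ => ‖c‖) (ENNReal.ofReal (ρ i₀)) (F i)).toReal, h2 i₀,
        Finset.sum_nonneg fun i _ => ENNReal.toReal_nonneg, fun i => ?_⟩
      rw [← ENNReal.ofReal_toReal (h4 i).ne]
      refine ENNReal.ofReal_le_ofReal ?_
      exact Finset.single_le_sum (f := fun i =>
        (w (fun c : ℂ => ‖c‖) (ENNReal.ofReal (ρ i₀)) (F i)).toReal)
        (fun i _ => ENNReal.toReal_nonneg) (Finset.mem_univ i)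
  set D : ℝ := 2 * (B' + 1) * (W + 1) with hD
  have hD0 : 0 < D := by positivity
  set δ : ℝ := min ρ (ρ ^ 2 / D) with hδ
  have hδ0 : 0 < δ := lt_min hρ (by positivity)
  set s : ℝ := min δ (δ * ρ / D) with hs
  have hs0 : 0 < s := lt_min hδ0 (by positivity)
  obtain ⟨R, hR, hRa⟩ := exists_small hN a (fun k => ⟨hac k, ha k⟩) s hs0
  have hBW : B' * W ≤ D / 2 := by
    rw [hD]
    nlinarith
  have hest : B' * ((s / ρ + (δ / ρ) ^ 2) * W) ≤ δ := by
    have h1 : s / ρ ≤ δ / D := by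
      rw [div_le_div_iff₀ hρ hD0]
      have : s ≤ δ * ρ / D := min_le_right _ _
      rwa [le_div_iff₀ hD0] at this
    have h2 : (δ / ρ) ^ 2 ≤ δ / D := by
      rw [div_pow, div_le_div_iff₀ (by positivity) hD0]
      have : δ ≤ ρ ^ 2 / D := min_le_right _ _
      rw [le_div_iff₀ hD0] at this
      nlinarith
    have h3 : s / ρ + (δ / ρ) ^ 2 ≤ 2 * (δ / D) := by linarith
    have h4 : 0 ≤ s / ρ + (δ / ρ) ^ 2 := by positivity
    calc B' * ((s / ρ + (δ / ρ) ^ 2) * W) = (B' * W) * (s / ρ + (δ / ρ) ^ 2) := by ring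
      _ ≤ D / 2 * (2 * (δ / D)) := mul_le_mul hBW h3 h4 (by positivity)
      _ = δ := by field_simp
  have hk : ∀ k i, w N (ENNReal.ofReal R) (Yk T F a k i) ≤ ENNReal.ofReal δ := by
    intro k
    induction k with
    | zero =>
      intro i
      have h0 : w N (ENNReal.ofReal R) (0 : MvPowerSeries ι S) = 0 := by
        rw [w, ENNReal.tsum_eq_zero]
        intro n
        rw [map_zero, nE_zero hN, zero_mul]
      show w N (ENNReal.ofReal R) (0 : MvPowerSeries ι S) ≤ _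
      rw [h0]
      exact zero_le'
    | succ k ih =>
      intro i
      show w N (ENNReal.ofReal R) (mapA T ((F i).subst (Sum.elim a (Yk T F a k)))) ≤ _
      refine (w_mapA hN T B' hB0 hT' _ _).trans ?_
      have h1 := w_step hN (F i) (hF i) (hlin i) (z0_elim ha (Yk_z0 T F a hF ha k)) hs0.le
        (min_le_left _ _ : s ≤ δ) (min_le_left _ _ : δ ≤ ρ) hρ (R := ENNReal.ofReal R)
        (fun k => hRa k) (fun j => ih j)
      refine (mul_le_mul' le_rfl (h1.trans (mul_le_mul' le_rfl (hρW i)))).trans ?_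
      rw [← ENNReal.ofReal_mul (by positivity), ← ENNReal.ofReal_mul hB0]
      exact ENNReal.ofReal_le_ofReal hest
  intro i
  refine (conv_iff hN _).2 ⟨R, hR, ?_⟩
  refine lt_of_le_of_lt ?_ (ENNReal.ofReal_lt_top (r := δ))
  rw [w, ENNReal.tsum_eq_iSup_sum]
  refine iSup_le fun G => ?_
  set k : ℕ := G.sup (fun n => n.degree) + 1 with hkdef
  have h1 : ∑ n ∈ G, nE N (coeff n (Y T F a i)) * ENNReal.ofReal R ^ n.degree =
      ∑ n ∈ G, nE N (coeff n (Yk T F a k i)) * ENNReal.ofReal R ^ n.degree := by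
    refine Finset.sum_congr rfl fun n hn => ?_
    have h2 : n.degree < k := Nat.lt_succ_of_le (Finset.le_sup (f := fun n => n.degree) hn)
    have h3 := Y_Yk T F a hF hlin ha k i n h2
    rw [map_sub, sub_eq_zero] at h3
    rw [h3]
  rw [h1]
  exact (ENNReal.sum_le_tsum _).trans (hk k i)

end

end Pool.Agent.Lib.MP_2184e2_an.Loc
end

section
/-!
# MP_2184e2_an, local theorem, module HOMI
-/
set_option autoImplicit false
set_option linter.unusedSectionVars false

namespace Pool.Agent.Lib.MP_2184e2_an.Loc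

open Filter Topology Set MeasureTheory
open scoped ContDiff

namespace HomiM

noncomputable section

variable {ι : Type} [Fintype ι] [DecidableEq ι]

/-- the determinant as a real continuous multilinear map -/
def detM (ι : Type) [Fintype ι] [DecidableEq ι] :
    ContinuousMultilinearMap ℝ (fun _ : ι => ι → ℂ) ℂ :=
  { (Matrix.detRowAlternating (n := ι) (R := ℂ)).toMultilinearMap.restrictScalars ℝ with
    cont := by
      change Continuous fun M : ι → ι → ℂ => Matrix.det (M : Matrix ι ι ℂ)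
      exact Continuous.matrix_det continuous_id }

theorem detM_apply (M : Matrix ι ι ℂ) : detM ι M = M.det := rfl

section det

variable {E : Type*} [NormedAddCommGroup E] [NormedSpace ℝ E]

theorem hasFDerivAt_det {M : E → Matrix ι ι ℂ} {x : E}
    (h : ∀ i k, DifferentiableAt ℝ (fun y => M y i k) x) :
    DifferentiableAt ℝ (fun y => (M y).det) x ∧
    ∀ v, fderiv ℝ (fun y => (M y).det) x v =
      ∑ i, ∑ k, (M x).adjugate k i * fderiv ℝ (fun y => M y i k) x v := by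
  have hM : HasFDerivAt (fun y => (fun i k => M y i k : ι → ι → ℂ))
      (ContinuousLinearMap.pi fun i => ContinuousLinearMap.pi fun k =>
        fderiv ℝ (fun y => M y i k) x) x := by
    rw [hasFDerivAt_pi']
    intro i
    rw [hasFDerivAt_pi']
    intro k
    exact (h i k).hasFDerivAt
  have h1 := ((detM ι).hasFDerivAt (M x)).comp x hM
  refine ⟨h1.differentiableAt, fun v => ?_⟩
  have h2 : fderiv ℝ (fun y => (M y).det) x = _ := h1.fderiv
  rw [h2]
  refine (ContinuousMultilinearMap.linearDeriv_apply (detM ι) (fun i k => M x i k)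
    (fun i k => fderiv ℝ (fun y => M y i k) x v)).trans ?_
  refine Finset.sum_congr rfl fun i _ => ?_
  have h3 : detM ι (Function.update (M x) i (fun k => fderiv ℝ (fun y => M y i k) x v)) =
      (Matrix.updateRow (M x) i (fun k => fderiv ℝ (fun y => M y i k) x v)).det := rfl
  have h4 := Matrix.cramer_transpose_apply (M x) (fun k => fderiv ℝ (fun y => M y i k) x v) i
  rw [Matrix.cramer_eq_adjugate_mulVec, ← Matrix.adjugate_transpose] at h4
  refine h3.trans (h4.symm.trans ?_)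
  rw [Matrix.mulVec, dotProduct]
  rfl

theorem adjugate_differentiableAt {M : E → Matrix ι ι ℂ} {x : E}
    (h : ∀ i k, DifferentiableAt ℝ (fun y => M y i k) x) (i k : ι) :
    DifferentiableAt ℝ (fun y => (M y).adjugate i k) x := by
  have h1 : (fun y => (M y).adjugate i k) =
      fun y => ((M y).updateRow k (Pi.single i 1)).det := by
    funext y; rw [Matrix.adjugate_apply]
  rw [h1]
  refine (hasFDerivAt_det (M := fun y => (M y).updateRow k (Pi.single i 1)) fun a b => ?_).1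
  by_cases hab : a = k
  · subst hab
    simp only [Matrix.updateRow_self]
    exact differentiableAt_const _
  · simp only [Matrix.updateRow_ne hab]
    exact h a b

theorem det_contDiffAt {M : E → Matrix ι ι ℂ} {x : E} {n : ℕ∞ω}
    (h : ∀ i k, ContDiffAt ℝ n (fun y => M y i k) x) :
    ContDiffAt ℝ n (fun y => (M y).det) x := by
  have hM : ContDiffAt ℝ n (fun y => (fun i k => M y i k : ι → ι → ℂ)) x := by
    rw [contDiffAt_pi]
    intro i
    rw [contDiffAt_pi]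
    intro k
    exact h i k
  exact ((detM ι).contDiff.contDiffAt).comp x hM

theorem adjugate_contDiffAt {M : E → Matrix ι ι ℂ} {x : E} {n : ℕ∞ω}
    (h : ∀ i k, ContDiffAt ℝ n (fun y => M y i k) x) (i k : ι) :
    ContDiffAt ℝ n (fun y => (M y).adjugate i k) x := by
  have h1 : (fun y => (M y).adjugate i k) =
      fun y => ((M y).updateRow k (Pi.single i 1)).det := by
    funext y; rw [Matrix.adjugate_apply]
  rw [h1]
  refine det_contDiffAt (M := fun y => (M y).updateRow k (Pi.single i 1)) fun a b => ?_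
  by_cases hab : a = k
  · subst hab
    simp only [Matrix.updateRow_self]
    exact contDiffAt_const
  · simp only [Matrix.updateRow_ne hab]
    exact h a b

end det

/-! ### the Piola identity -/

/-- the Jacobi matrix as a function on space-time -/
def Jm (w : ι → ℝ × (ι → ℝ) → ℂ) (p : ℝ × (ι → ℝ)) : Matrix ι ι ℂ :=
  Matrix.of fun i k => fderiv ℝ (w i) p (0, Pi.single k 1)

/-- `adj(J) ∂_t W` on space-time -/
def bm (w : ι → ℝ × (ι → ℝ) → ℂ) (p : ℝ × (ι → ℝ)) : ι → ℂ :=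
  (Jm w p).adjugate.mulVec fun i => fderiv ℝ (w i) p (1, 0)

theorem entry_contDiffAt {w : ι → ℝ × (ι → ℝ) → ℂ} {p : ℝ × (ι → ℝ)}
    (hw : ∀ i, ContDiffAt ℝ 2 (w i) p) (i : ι) (v : ℝ × (ι → ℝ)) :
    ContDiffAt ℝ 1 (fun q => fderiv ℝ (w i) q v) p := by
  have h1 : ContDiffAt ℝ 1 (fderiv ℝ (w i)) p := (hw i).fderiv_right (m := 1) (by norm_num)
  exact h1.clm_apply contDiffAt_const

theorem fderiv_entry {w : ι → ℝ × (ι → ℝ) → ℂ} {p : ℝ × (ι → ℝ)}
    (hw : ∀ i, ContDiffAt ℝ 2 (w i) p) (i : ι) (v v' : ℝ × (ι → ℝ)) :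
    fderiv ℝ (fun q => fderiv ℝ (w i) q v) p v' = fderiv ℝ (fderiv ℝ (w i)) p v' v := by
  have h1 : ContDiffAt ℝ 1 (fderiv ℝ (w i)) p := (hw i).fderiv_right (m := 1) (by norm_num)
  have h2 : DifferentiableAt ℝ (fderiv ℝ (w i)) p := h1.differentiableAt (by norm_num)
  rw [fderiv_clm_apply h2 (differentiableAt_const _)]
  simp

theorem symm2 {w : ι → ℝ × (ι → ℝ) → ℂ} {p : ℝ × (ι → ℝ)}
    (hw : ∀ i, ContDiffAt ℝ 2 (w i) p) (i : ι) (v v' : ℝ × (ι → ℝ)) :
    fderiv ℝ (fderiv ℝ (w i)) p v' v = fderiv ℝ (fderiv ℝ (w i)) p v v' :=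
  (hw i).isSymmSndFDerivAt (by simp) v' v

theorem Jm_contDiffAt {w : ι → ℝ × (ι → ℝ) → ℂ} {p : ℝ × (ι → ℝ)}
    (hw : ∀ i, ContDiffAt ℝ 2 (w i) p) (i k : ι) :
    ContDiffAt ℝ 1 (fun q => Jm w q i k) p :=
  entry_contDiffAt hw i _

theorem bm_contDiffAt {w : ι → ℝ × (ι → ℝ) → ℂ} {p : ℝ × (ι → ℝ)}
    (hw : ∀ i, ContDiffAt ℝ 2 (w i) p) (k : ι) :
    ContDiffAt ℝ 1 (fun q => bm w q k) p := by
  have h : (fun q => bm w q k) =
      fun q => ∑ i, (Jm w q).adjugate k i * fderiv ℝ (w i) q (1, 0) := by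
    funext q; rfl
  rw [h]
  refine ContDiffAt.sum fun i _ => ?_
  exact (adjugate_contDiffAt (Jm_contDiffAt hw) k i).mul (entry_contDiffAt hw i _)

/-- the divergence of the rows of the adjugate vanishes -/
theorem div_adjugate {w : ι → ℝ × (ι → ℝ) → ℂ} {p : ℝ × (ι → ℝ)}
    (hw : ∀ i, ContDiffAt ℝ 2 (w i) p) (hdet : (Jm w p).det ≠ 0) (i : ι) :
    ∑ k, fderiv ℝ (fun q => (Jm w q).adjugate k i) p (0, Pi.single k 1) = 0 := by
  have hJ : ∀ i k, DifferentiableAt ℝ (fun q => Jm w q i k) p := fun i k =>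
    (Jm_contDiffAt hw i k).differentiableAt (by norm_num)
  have hA : ∀ k i, DifferentiableAt ℝ (fun q => (Jm w q).adjugate k i) p :=
    fun k i => adjugate_differentiableAt hJ k i
  have hD := hasFDerivAt_det hJ
  set q : ι → ℂ := fun i => ∑ k, fderiv ℝ (fun q => (Jm w q).adjugate k i) p (0, Pi.single k 1)
    with hq
  suffices hq0 : q = 0 from congrFun hq0 i
  refine Matrix.eq_zero_of_vecMul_eq_zero hdet ?_
  funext l
  -- differentiate `adj(J) J = det J`
  have key : ∀ k : ι, ∑ i, (fderiv ℝ (fun q => (Jm w q).adjugate k i) p (0, Pi.single k 1) *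
      Jm w p i l + (Jm w p).adjugate k i * fderiv ℝ (fun q => Jm w q i l) p (0, Pi.single k 1)) =
      if k = l then fderiv ℝ (fun q => (Jm w q).det) p (0, Pi.single k 1) else 0 := by
    intro k
    have h1 : (fun q => ∑ i, (Jm w q).adjugate k i * Jm w q i l) =
        fun q => if k = l then (Jm w q).det else 0 := by
      funext q
      have := congrFun (congrFun (Matrix.adjugate_mul (Jm w q)) k) l
      rw [Matrix.mul_apply] at this
      rw [this, Matrix.smul_apply, Matrix.one_apply]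
      split_ifs <;> simp
    have h2 : fderiv ℝ (fun q => ∑ i, (Jm w q).adjugate k i * Jm w q i l) p
        (0, Pi.single k 1) = ∑ i, (fderiv ℝ (fun q => (Jm w q).adjugate k i) p
          (0, Pi.single k 1) * Jm w p i l + (Jm w p).adjugate k i *
            fderiv ℝ (fun q => Jm w q i l) p (0, Pi.single k 1)) := by
      rw [fderiv_fun_sum fun i _ => (hA k i).fun_mul (hJ i l)]
      rw [_root_.sum_apply]
      refine Finset.sum_congr rfl fun i _ => ?_
      rw [fderiv_fun_mul (hA k i) (hJ i l)]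
      simp only [_root_.add_apply, _root_.smul_apply, smul_eq_mul]
      ring
    rw [← h2, h1]
    split_ifs with hkl
    · rfl
    · simp
  have h3 : ∑ k, ∑ i, (fderiv ℝ (fun q => (Jm w q).adjugate k i) p (0, Pi.single k 1) *
      Jm w p i l + (Jm w p).adjugate k i * fderiv ℝ (fun q => Jm w q i l) p (0, Pi.single k 1)) =
      fderiv ℝ (fun q => (Jm w q).det) p (0, Pi.single l 1) := by
    rw [Finset.sum_congr rfl fun k _ => key k]
    simp
  rw [hD.2] at h3
  have h4 : ∑ k, ∑ i, (Jm w p).adjugate k i *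
      fderiv ℝ (fun q => Jm w q i l) p (0, Pi.single k 1) =
      ∑ i, ∑ k, (Jm w p).adjugate k i *
        fderiv ℝ (fun q => Jm w q i k) p (0, Pi.single l 1) := by
    rw [Finset.sum_comm]
    refine Finset.sum_congr rfl fun i _ => Finset.sum_congr rfl fun k _ => ?_
    congr 1
    change fderiv ℝ (fun q => fderiv ℝ (w i) q (0, Pi.single l 1)) p (0, Pi.single k 1) =
      fderiv ℝ (fun q => fderiv ℝ (w i) q (0, Pi.single k 1)) p (0, Pi.single l 1)
    rw [fderiv_entry hw, fderiv_entry hw, symm2 hw]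
  rw [Finset.sum_congr rfl fun k _ => Finset.sum_add_distrib, Finset.sum_add_distrib, h4] at h3
  have h5 : ∑ k, ∑ i, fderiv ℝ (fun q => (Jm w q).adjugate k i) p (0, Pi.single k 1) *
      Jm w p i l = 0 := by
    have := add_eq_right.mp h3
    exact this
  change ∑ i, q i * Jm w p i l = 0
  rw [← h5, Finset.sum_comm]
  refine Finset.sum_congr rfl fun i _ => ?_
  rw [hq, Finset.sum_mul]

theorem piola {w : ι → ℝ × (ι → ℝ) → ℂ} {p : ℝ × (ι → ℝ)}
    (hw : ∀ i, ContDiffAt ℝ 2 (w i) p) (hdet : (Jm w p).det ≠ 0) :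
    fderiv ℝ (fun q => (Jm w q).det) p (1, 0) =
      ∑ k, fderiv ℝ (fun q => bm w q k) p (0, Pi.single k 1) := by
  have hJ : ∀ i k, DifferentiableAt ℝ (fun q => Jm w q i k) p := fun i k =>
    (Jm_contDiffAt hw i k).differentiableAt (by norm_num)
  have hA : ∀ k i, DifferentiableAt ℝ (fun q => (Jm w q).adjugate k i) p :=
    fun k i => adjugate_differentiableAt hJ k i
  have hT : ∀ i, DifferentiableAt ℝ (fun q => fderiv ℝ (w i) q (1, 0)) p := fun i =>
    (entry_contDiffAt hw i _).differentiableAt (by norm_num)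
  have h1 : ∀ k, fderiv ℝ (fun q => bm w q k) p (0, Pi.single k 1) =
      ∑ i, (fderiv ℝ (fun q => (Jm w q).adjugate k i) p (0, Pi.single k 1) *
        fderiv ℝ (w i) p (1, 0) + (Jm w p).adjugate k i *
          fderiv ℝ (fderiv ℝ (w i)) p (0, Pi.single k 1) (1, 0)) := by
    intro k
    have h : (fun q => bm w q k) =
        fun q => ∑ i, (Jm w q).adjugate k i * fderiv ℝ (w i) q (1, 0) := by
      funext q; rfl
    rw [h, fderiv_fun_sum fun i _ => (hA k i).fun_mul (hT i), _root_.sum_apply]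
    refine Finset.sum_congr rfl fun i _ => ?_
    rw [fderiv_fun_mul (hA k i) (hT i)]
    simp only [_root_.add_apply, _root_.smul_apply, smul_eq_mul]
    rw [fderiv_entry hw]
    ring
  rw [Finset.sum_congr rfl fun k _ => h1 k, (hasFDerivAt_det hJ).2]
  rw [Finset.sum_congr rfl fun k _ => Finset.sum_add_distrib, Finset.sum_add_distrib]
  have h2 : ∑ k, ∑ i, fderiv ℝ (fun q => (Jm w q).adjugate k i) p (0, Pi.single k 1) *
        fderiv ℝ (w i) p (1, 0) = 0 := by
    rw [Finset.sum_comm]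
    refine Finset.sum_eq_zero fun i _ => ?_
    rw [← Finset.sum_mul, div_adjugate hw hdet, zero_mul]
  rw [h2, zero_add, Finset.sum_comm]
  refine Finset.sum_congr rfl fun k _ => Finset.sum_congr rfl fun i _ => ?_
  congr 1
  change fderiv ℝ (fun q => fderiv ℝ (w i) q (0, Pi.single k 1)) p (1, 0) = _
  rw [fderiv_entry hw, symm2 hw]


/-! ### comparison of `jW`, `bW` with the space-time objects -/

theorem fderiv_slice {h : ℝ × (ι → ℝ) → ℂ} {q : ℝ × (ι → ℝ)} (hh : DifferentiableAt ℝ h q)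
    (v : ι → ℝ) : fderiv ℝ (fun y => h (q.1, y)) q.2 v = fderiv ℝ h q (0, v) := by
  have h1 : HasFDerivAt (fun y => h (q.1, y))
      ((fderiv ℝ h (q.1, q.2)).comp (ContinuousLinearMap.inr ℝ ℝ (ι → ℝ))) q.2 :=
    HasFDerivAt.comp q.2 (by exact hh.hasFDerivAt) (hasFDerivAt_prodMk_right q.1 q.2)
  rw [h1.fderiv]
  rfl

theorem hasDerivAt_slice {h : ℝ × (ι → ℝ) → ℂ} {q : ℝ × (ι → ℝ)} (hh : DifferentiableAt ℝ h q) :
    HasDerivAt (fun r => h (r, q.2)) (fderiv ℝ h q (1, 0)) q.1 := by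
  have h1 : HasFDerivAt (fun r => h (r, q.2))
      ((fderiv ℝ h (q.1, q.2)).comp (ContinuousLinearMap.inl ℝ ℝ (ι → ℝ))) q.1 :=
    HasFDerivAt.comp q.1 (by exact hh.hasFDerivAt) (hasFDerivAt_prodMk_left q.1 q.2)
  exact h1.hasDerivAt

theorem contDiffAt_slice {h : ℝ × (ι → ℝ) → ℂ} {t : ℝ} {u : ι → ℝ} {n : ℕ∞ω}
    (hh : ContDiffAt ℝ n h (t, u)) : ContDiffAt ℝ n (fun y => h (t, y)) u :=
  ContDiffAt.comp u hh (contDiffAt_const.prodMk contDiffAt_id)

theorem jW_eq {W : ℝ → (ι → ℝ) → ι → ℂ} {q : ℝ × (ι → ℝ)}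
    (h : ∀ i, DifferentiableAt ℝ (fun p : ℝ × (ι → ℝ) => W p.1 p.2 i) q) :
    jW W q.1 q.2 = Jm (fun i (p : ℝ × (ι → ℝ)) => W p.1 p.2 i) q := by
  ext i k
  exact fderiv_slice (h i) _

theorem bW_eq {W : ℝ → (ι → ℝ) → ι → ℂ} {q : ℝ × (ι → ℝ)}
    (h : ∀ i, DifferentiableAt ℝ (fun p : ℝ × (ι → ℝ) => W p.1 p.2 i) q) :
    bW W q.1 q.2 = bm (fun i (p : ℝ × (ι → ℝ)) => W p.1 p.2 i) q := by
  rw [bW, bm, jW_eq h]
  congr 1
  funext i
  exact (hasDerivAt_slice (h i)).deriv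

/-! ### cut-off functions -/

theorem cut_continuous {χ : (ι → ℝ) → ℝ} (hχ : Continuous χ) {h : (ι → ℝ) → ℂ}
    (hh : ∀ u ∈ tsupport χ, ContinuousAt h u) : Continuous fun u => (χ u : ℂ) * h u := by
  rw [continuous_iff_continuousAt]
  intro u
  by_cases hu : u ∈ tsupport χ
  · exact ((Complex.continuous_ofReal.comp hχ).continuousAt).mul (hh u hu)
  · rw [notMem_tsupport_iff_eventuallyEq] at hu
    have h1 : (fun u => (χ u : ℂ) * h u) =ᶠ[𝓝 u] fun _ => 0 := by
      filter_upwards [hu] with v hv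
      simp [hv]
    exact (continuousAt_const (y := (0 : ℂ))).congr h1.symm

theorem cut_compact {χ : (ι → ℝ) → ℝ} (hs : HasCompactSupport χ) (h : (ι → ℝ) → ℂ) :
    HasCompactSupport fun u => (χ u : ℂ) * h u :=
  (hs.comp_left (g := fun x : ℝ => (x : ℂ)) Complex.ofReal_zero).mul_right

theorem cut_integrable {χ : (ι → ℝ) → ℝ} (hχ : Continuous χ) (hs : HasCompactSupport χ)
    {h : (ι → ℝ) → ℂ} (hh : ∀ u ∈ tsupport χ, ContinuousAt h u) :
    Integrable fun u => (χ u : ℂ) * h u :=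
  (cut_continuous hχ hh).integrable_of_hasCompactSupport (cut_compact hs h)

theorem ibp {χ : (ι → ℝ) → ℝ} (hχ : ContDiff ℝ ∞ χ) (hs : HasCompactSupport χ)
    {g : (ι → ℝ) → ℂ} (hg : ∀ u ∈ tsupport χ, ContDiffAt ℝ 1 g u) (v : ι → ℝ) :
    Integrable (fun u => (χ u : ℂ) * fderiv ℝ g u v) ∧
    Integrable (fun u => ((fderiv ℝ χ u v : ℝ) : ℂ) * g u) ∧
    ∫ u, (χ u : ℂ) * fderiv ℝ g u v = -∫ u, ((fderiv ℝ χ u v : ℝ) : ℂ) * g u := by
  have h1 : Integrable (fun u => (χ u : ℂ) * fderiv ℝ g u v) := by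
    refine cut_integrable hχ.continuous hs fun u hu => ?_
    have := ((hg u hu).fderiv_right (m := 0) (by norm_num)).continuousAt
    exact this.clm_apply continuousAt_const
  have hχ' : Continuous fun u => fderiv ℝ χ u v := by
    have := (hχ.fderiv_right (m := 0) (by simp)).continuous
    exact this.clm_apply continuous_const
  have hs' : HasCompactSupport fun u => fderiv ℝ χ u v := hs.mono' (by
    exact (subset_tsupport _).trans (tsupport_fderiv_apply_subset ℝ v))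
  have h2 : Integrable (fun u => ((fderiv ℝ χ u v : ℝ) : ℂ) * g u) := by
    refine cut_integrable hχ' hs' fun u hu => ?_
    exact (hg u (tsupport_fderiv_apply_subset ℝ v hu)).continuousAt
  have h3 : Integrable (fun u => (χ u : ℂ) * g u) :=
    cut_integrable hχ.continuous hs fun u hu => (hg u hu).continuousAt
  have hd : ∀ u, DifferentiableAt ℝ (fun u => (χ u : ℂ)) u := fun u =>
    (Complex.ofRealCLM.differentiableAt).comp u (hχ.differentiable (by simp) u)
  have hf : ∀ u, fderiv ℝ (fun u => (χ u : ℂ)) u v = ((fderiv ℝ χ u v : ℝ) : ℂ) := by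
    intro u
    have := (Complex.ofRealCLM.hasFDerivAt).comp u (hχ.differentiable (by simp) u).hasFDerivAt
    have h5 : fderiv ℝ (fun u => (χ u : ℂ)) u = _ := this.fderiv
    rw [h5]
    rfl
  refine ⟨h1, h2, ?_⟩
  have h4 := integral_mul_fderiv_eq_neg_fderiv_mul_of_integrable (μ := volume) (𝕜 := ℂ)
    (f := fun u => (χ u : ℂ)) (g := g) (v := v) (by simpa only [hf] using h2) h1 h3
    (fun u _ => hd u) (fun u hu => ?_)
  · simpa only [hf] using h4
  · have hu' : u ∈ tsupport χ := by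
      refine (tsupport_comp_subset (g := fun x : ℝ => (x : ℂ)) Complex.ofReal_zero χ) ?_
      exact hu
    exact (hg u hu').differentiableAt (by norm_num)


/-! ### the main argument -/

theorem main (w : ι → ℝ × (ι → ℝ) → ℂ) (f : ℝ × (ι → ℝ) → ℂ) (χ : (ι → ℝ) → ℝ) (K : ℝ)
    (hχ : ContDiff ℝ ∞ χ) (hs : HasCompactSupport χ)
    (H : ∀ t ∈ Icc (0 : ℝ) 1, ∀ u ∈ tsupport χ, (∀ i, ContDiffAt ℝ 2 (w i) (t, u)) ∧
      ContDiffAt ℝ 1 f (t, u) ∧ (Jm w (t, u)).det ≠ 0 ∧
      (Jm w (t, u)).det * fderiv ℝ f (t, u) (1, 0) =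
        ∑ k, bm w (t, u) k * fderiv ℝ f (t, u) (0, Pi.single k 1) ∧
      ‖∑ k, (fderiv ℝ χ u (Pi.single k 1) : ℂ) * (bm w (t, u) k * f (t, u))‖ ≤ K) :
    ‖(∫ u, (χ u : ℂ) * (f (1, u) * (Jm w (1, u)).det)) -
      ∫ u, (χ u : ℂ) * (f (0, u) * (Jm w (0, u)).det)‖ ≤ K * (volume (tsupport χ)).toReal := by
  have hSc : IsCompact (tsupport χ) := hs
  have hSm : MeasurableSet (tsupport χ) := hSc.isClosed.measurableSet
  set G : ℝ × (ι → ℝ) → ℂ := fun q => f q * (Jm w q).det with hG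
  have hGc : ∀ t ∈ Icc (0 : ℝ) 1, ∀ u ∈ tsupport χ, ContDiffAt ℝ 1 G (t, u) := by
    intro t ht u hu
    obtain ⟨h1, h2, -, -, -⟩ := H t ht u hu
    exact h2.mul (det_contDiffAt (Jm_contDiffAt h1))
  have hK : 0 ≤ K * (volume (tsupport χ)).toReal := by
    by_cases he : (tsupport χ).Nonempty
    · obtain ⟨u, hu⟩ := he
      exact mul_nonneg ((norm_nonneg _).trans (H 0 (by simp) u hu).2.2.2.2) ENNReal.toReal_nonneg
    · rw [not_nonempty_iff_eq_empty] at he
      simp [he]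
  -- the derivative of the integrand
  set G' : ℝ × (ι → ℝ) → ℂ := fun q => fderiv ℝ G q (1, 0) with hG'
  have hG'c : ContinuousOn (fun q : ℝ × (ι → ℝ) => (χ q.2 : ℂ) * G' q)
      (Icc (0 : ℝ) 1 ×ˢ tsupport χ) := by
    rintro ⟨t, u⟩ ⟨ht, hu⟩
    have h1 : ContinuousAt (fderiv ℝ G) (t, u) :=
      ((hGc t ht u hu).fderiv_right (m := 0) (by norm_num)).continuousAt
    have h2 : ContinuousAt (fun q : ℝ × (ι → ℝ) => (χ q.2 : ℂ)) (t, u) :=
      (Complex.continuous_ofReal.comp (hχ.continuous.comp continuous_snd)).continuousAt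
    exact (h2.mul (h1.clm_apply continuousAt_const)).continuousWithinAt
  obtain ⟨M, hM⟩ := (isCompact_Icc.prod hSc).exists_bound_of_continuousOn hG'c
  have hGc0 : ContinuousOn (fun q : ℝ × (ι → ℝ) => (χ q.2 : ℂ) * G q)
      (Icc (0 : ℝ) 1 ×ˢ tsupport χ) := by
    rintro ⟨t, u⟩ ⟨ht, hu⟩
    have h2 : ContinuousAt (fun q : ℝ × (ι → ℝ) => (χ q.2 : ℂ)) (t, u) :=
      (Complex.continuous_ofReal.comp (hχ.continuous.comp continuous_snd)).continuousAt
    exact (h2.mul (hGc t ht u hu).continuousAt).continuousWithinAt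
  obtain ⟨M0, hM0⟩ := (isCompact_Icc.prod hSc).exists_bound_of_continuousOn hGc0
  have hbI : ∀ c : ℝ, Integrable ((tsupport χ).indicator fun _ : ι → ℝ => c) := by
    intro c
    rw [integrable_indicator_iff hSm]
    exact integrableOn_const hSc.measure_lt_top.ne
  have hz : ∀ u, u ∉ tsupport χ → (χ u : ℂ) = 0 := by
    intro u hu
    rw [image_eq_zero_of_notMem_tsupport hu]; simp
  set F : ℝ → ℂ := fun t => ∫ u, (χ u : ℂ) * G (t, u) with hF
  have hGs : ∀ t ∈ Icc (0 : ℝ) 1, ∀ u ∈ tsupport χ, ContinuousAt (fun v => G (t, v)) u :=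
    fun t ht u hu => (contDiffAt_slice (hGc t ht u hu)).continuousAt
  have hFc : ContinuousOn F (Icc 0 1) := by
    refine continuousOn_of_dominated (bound := (tsupport χ).indicator fun _ => M0)
      (fun t ht => ?_) (fun t ht => ?_) (hbI M0) ?_
    · exact (cut_continuous hχ.continuous (hGs t ht)).aestronglyMeasurable
    · refine Eventually.of_forall fun u => ?_
      by_cases hu : u ∈ tsupport χ
      · rw [indicator_of_mem hu]
        exact hM0 (t, u) ⟨ht, hu⟩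
      · rw [indicator_of_notMem hu, hz u hu]; simp
    · refine Eventually.of_forall fun u => ?_
      by_cases hu : u ∈ tsupport χ
      · intro t ht
        have h1 : ContinuousAt (fun r : ℝ => (r, u)) t := by fun_prop
        have h2 : ContinuousAt (fun r => G (r, u)) t :=
          ContinuousAt.comp (f := fun r : ℝ => (r, u)) (hGc t ht u hu).continuousAt h1
        exact (continuousAt_const.mul h2).continuousWithinAt
      · simp only [hz u hu, zero_mul]
        exact continuousOn_const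
  -- differentiation under the integral
  have hFd : ∀ t ∈ Ioo (0 : ℝ) 1, HasDerivAt F (∫ u, (χ u : ℂ) * G' (t, u)) t := by
    intro t ht
    refine (hasDerivAt_integral_of_dominated_loc_of_deriv_le (s := Ioo (0 : ℝ) 1)
      (F := fun r u => (χ u : ℂ) * G (r, u)) (F' := fun r u => (χ u : ℂ) * G' (r, u))
      (bound := (tsupport χ).indicator fun _ => M) (Ioo_mem_nhds ht.1 ht.2) ?_ ?_ ?_ ?_
      (hbI M) ?_).2
    · filter_upwards [Ioo_mem_nhds ht.1 ht.2] with r hr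
      exact (cut_continuous hχ.continuous (hGs r ⟨hr.1.le, hr.2.le⟩)).aestronglyMeasurable
    · exact cut_integrable hχ.continuous hs (hGs t ⟨ht.1.le, ht.2.le⟩)
    · refine (cut_continuous hχ.continuous fun u hu => ?_).aestronglyMeasurable
      have h1 : ContinuousAt (fderiv ℝ G) (t, u) :=
        ((hGc t ⟨ht.1.le, ht.2.le⟩ u hu).fderiv_right (m := 0) (by norm_num)).continuousAt
      have h2 : ContinuousAt (fun v : ι → ℝ => (t, v)) u := by fun_prop
      have h3 : ContinuousAt (fun v => fderiv ℝ G (t, v)) u :=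
        ContinuousAt.comp (f := fun v : ι → ℝ => (t, v)) h1 h2
      exact h3.clm_apply continuousAt_const
    · refine Eventually.of_forall fun u r hr => ?_
      by_cases hu : u ∈ tsupport χ
      · rw [indicator_of_mem hu]
        exact hM (r, u) ⟨⟨hr.1.le, hr.2.le⟩, hu⟩
      · rw [indicator_of_notMem hu, hz u hu]; simp
    · refine Eventually.of_forall fun u r hr => ?_
      by_cases hu : u ∈ tsupport χ
      · have h1 : HasDerivAt (fun r => G (r, u)) (G' (r, u)) r :=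
          hasDerivAt_slice (q := (r, u))
            ((hGc r ⟨hr.1.le, hr.2.le⟩ u hu).differentiableAt (by norm_num))
        exact h1.const_mul _
      · simp only [hz u hu, zero_mul]
        exact hasDerivAt_const _ _
  -- the bound of the derivative
  have hFb : ∀ t ∈ Ioo (0 : ℝ) 1, ‖∫ u, (χ u : ℂ) * G' (t, u)‖ ≤
      K * (volume (tsupport χ)).toReal := by
    intro t ht
    have ht' : t ∈ Icc (0 : ℝ) 1 := ⟨ht.1.le, ht.2.le⟩
    have hgc : ∀ k, ∀ u ∈ tsupport χ,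
        ContDiffAt ℝ 1 (fun v => bm w (t, v) k * f (t, v)) u := by
      intro k u hu
      exact contDiffAt_slice (h := fun q => bm w q k * f q)
        ((bm_contDiffAt (H t ht' u hu).1 k).mul (H t ht' u hu).2.1)
    have h1 : ∀ u, (χ u : ℂ) * G' (t, u) =
        ∑ k, (χ u : ℂ) * fderiv ℝ (fun v => bm w (t, v) k * f (t, v)) u (Pi.single k 1) := by
      intro u
      by_cases hu : u ∈ tsupport χ
      · rw [← Finset.mul_sum]
        congr 1
        obtain ⟨hw, hf, hdet, heq, -⟩ := H t ht' u hu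
        have hfd : DifferentiableAt ℝ f (t, u) := hf.differentiableAt (by norm_num)
        have hJ : ∀ i k, DifferentiableAt ℝ (fun q => Jm w q i k) (t, u) := fun i k =>
          (Jm_contDiffAt hw i k).differentiableAt (by norm_num)
        have hb : ∀ k, DifferentiableAt ℝ (fun q => bm w q k) (t, u) := fun k =>
          (bm_contDiffAt hw k).differentiableAt (by norm_num)
        have h2 : ∀ k, fderiv ℝ (fun v => bm w (t, v) k * f (t, v)) u (Pi.single k 1) =
            bm w (t, u) k * fderiv ℝ f (t, u) (0, Pi.single k 1) +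
              f (t, u) * fderiv ℝ (fun q => bm w q k) (t, u) (0, Pi.single k 1) := by
          intro k
          rw [fderiv_slice (h := fun q => bm w q k * f q) (q := (t, u)) ((hb k).mul hfd)]
          rw [fderiv_fun_mul (hb k) hfd]
          simp only [_root_.add_apply, _root_.smul_apply, smul_eq_mul]
        rw [Finset.sum_congr rfl fun k _ => h2 k, Finset.sum_add_distrib, ← heq,
          ← Finset.mul_sum, ← piola hw hdet]
        rw [hG', hG]
        simp only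
        rw [fderiv_fun_mul hfd (hasFDerivAt_det hJ).1]
        simp only [_root_.add_apply, _root_.smul_apply, smul_eq_mul]
        ring
      · simp [hz u hu]
    rw [integral_congr_ae (Eventually.of_forall h1)]
    rw [integral_finsetSum _ fun k _ => (ibp hχ hs (hgc k) (Pi.single k 1)).1]
    rw [Finset.sum_congr rfl fun k _ => (ibp hχ hs (hgc k) (Pi.single k 1)).2.2]
    rw [Finset.sum_neg_distrib, norm_neg,
      ← integral_finsetSum _ fun k _ => (ibp hχ hs (hgc k) (Pi.single k 1)).2.1]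
    rw [← setIntegral_eq_integral_of_forall_compl_eq_zero (s := tsupport χ)]
    · refine norm_setIntegral_le_of_norm_le_const hSc.measure_lt_top fun u hu => ?_
      exact (H t ht' u hu).2.2.2.2
    · intro u hu
      refine Finset.sum_eq_zero fun k _ => ?_
      have : fderiv ℝ χ u = 0 := by
        have := fun h => hu (tsupport_fderiv_subset ℝ (f := χ) h)
        exact image_eq_zero_of_notMem_tsupport this
      rw [this]; simp
  -- conclusion
  set C := K * (volume (tsupport χ)).toReal with hC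
  have hmv : ∀ x ∈ Ioo (0 : ℝ) 1, ∀ y ∈ Ioo (0 : ℝ) 1, ‖F y - F x‖ ≤ C := by
    intro x hx y hy
    have h1 := Convex.norm_image_sub_le_of_norm_hasDerivWithin_le (f := F) (s := Ioo (0 : ℝ) 1)
      (C := C) (fun z hz => (hFd z hz).hasDerivWithinAt) hFb (convex_Ioo 0 1) hx hy
    refine h1.trans ?_
    have h2 : ‖y - x‖ ≤ 1 := by
      rw [Real.norm_eq_abs, abs_le]
      constructor <;> linarith [hx.1, hx.2, hy.1, hy.2]
    nlinarith [norm_nonneg (y - x)]
  have hcl : closure (Ioo (0 : ℝ) 1 ×ˢ Ioo (0 : ℝ) 1) = Icc 0 1 ×ˢ Icc 0 1 := by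
    rw [closure_prod_eq, closure_Ioo (by norm_num)]
  have h01 : ((0 : ℝ), (1 : ℝ)) ∈ closure (Ioo (0 : ℝ) 1 ×ˢ Ioo (0 : ℝ) 1) := by
    rw [hcl]; simp
  have hcont : ContinuousOn (fun q : ℝ × ℝ => ‖F q.2 - F q.1‖)
      (closure (Ioo (0 : ℝ) 1 ×ˢ Ioo (0 : ℝ) 1)) := by
    rw [hcl]
    refine ContinuousOn.norm (ContinuousOn.sub ?_ ?_)
    · exact hFc.comp continuousOn_snd fun q hq => hq.2
    · exact hFc.comp continuousOn_fst fun q hq => hq.1
  have := ContinuousWithinAt.closure_le h01 ((hcont _ h01).mono subset_closure)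
    (continuousWithinAt_const (b := C)) (fun q hq => hmv q.1 hq.1 q.2 hq.2)
  exact this

end

end HomiM

open HomiM in
theorem specHOMI : SpecHOMI := by
  intro ι _ _ W f χ K hχ hs H
  have hd : ∀ t ∈ Icc (0 : ℝ) 1, ∀ u ∈ tsupport χ, ∀ i,
      ContDiffAt ℝ 2 (fun p : ℝ × (ι → ℝ) => W p.1 p.2 i) (t, u) := by
    intro t ht u hu i
    exact contDiffAt_pi.1 (H t ht u hu).1 i
  have hd' : ∀ t ∈ Icc (0 : ℝ) 1, ∀ u ∈ tsupport χ, ∀ i,
      DifferentiableAt ℝ (fun p : ℝ × (ι → ℝ) => W p.1 p.2 i) (t, u) :=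
    fun t ht u hu i => (hd t ht u hu i).differentiableAt (by norm_num)
  have hJ : ∀ t ∈ Icc (0 : ℝ) 1, ∀ u ∈ tsupport χ,
      jW W t u = Jm (fun i (p : ℝ × (ι → ℝ)) => W p.1 p.2 i) (t, u) :=
    fun t ht u hu => jW_eq (q := (t, u)) (hd' t ht u hu)
  have hb : ∀ t ∈ Icc (0 : ℝ) 1, ∀ u ∈ tsupport χ,
      bW W t u = bm (fun i (p : ℝ × (ι → ℝ)) => W p.1 p.2 i) (t, u) :=
    fun t ht u hu => bW_eq (q := (t, u)) (hd' t ht u hu)
  have hI : ∀ t ∈ Icc (0 : ℝ) 1, ∫ u, (χ u : ℂ) * (f t u * (jW W t u).det) =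
      ∫ u, (χ u : ℂ) * ((fun p : ℝ × (ι → ℝ) => f p.1 p.2) (t, u) *
        (Jm (fun i (p : ℝ × (ι → ℝ)) => W p.1 p.2 i) (t, u)).det) := by
    intro t ht
    refine integral_congr_ae (Eventually.of_forall fun u => ?_)
    by_cases hu : u ∈ tsupport χ
    · simp only
      rw [hJ t ht u hu]
    · simp only
      rw [image_eq_zero_of_notMem_tsupport hu]
      simp
  rw [hI 1 (by simp), hI 0 (by simp)]
  refine main (fun i (p : ℝ × (ι → ℝ)) => W p.1 p.2 i) (fun p : ℝ × (ι → ℝ) => f p.1 p.2)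
    χ K hχ hs ?_
  intro t ht u hu
  obtain ⟨-, h2, h3, h4, h5⟩ := H t ht u hu
  have hfd : DifferentiableAt ℝ (fun p : ℝ × (ι → ℝ) => f p.1 p.2) (t, u) :=
    h2.differentiableAt (by norm_num)
  rw [hJ t ht u hu] at h3 h4
  rw [hb t ht u hu] at h4 h5
  refine ⟨hd t ht u hu, h2, h3, ?_, h5⟩
  have h6 : deriv (fun r => f r u) t =
      fderiv ℝ (fun p : ℝ × (ι → ℝ) => f p.1 p.2) (t, u) (1, 0) :=
    (hasDerivAt_slice (h := fun p : ℝ × (ι → ℝ) => f p.1 p.2) (q := (t, u)) hfd).deriv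
  have h7 : ∀ k, fderiv ℝ (f t) u (Pi.single k 1) =
      fderiv ℝ (fun p : ℝ × (ι → ℝ) => f p.1 p.2) (t, u) (0, Pi.single k 1) := fun k =>
    fderiv_slice (h := fun p : ℝ × (ι → ℝ) => f p.1 p.2) (q := (t, u)) hfd _
  rw [← h6, h4]
  exact Finset.sum_congr rfl fun k _ => by rw [h7 k]

end Pool.Agent.Lib.MP_2184e2_an.Loc
end

section
/-!
# MP_2184e2_an, local theorem: the disc argument of LOC (abstract form)
-/
set_option autoImplicit false

namespace Pool.Agent.Lib.MP_2184e2_an.Loc.LocM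

open Filter Topology Set Metric
open scoped ComplexConjugate

noncomputable section

theorem norm_exp_I (z : ℂ) : ‖Complex.exp (Complex.I * z)‖ = Real.exp (-z.im) := by
  rw [Complex.norm_exp]
  congr 1
  simp

theorem norm_exp_I_conj (z : ℂ) : ‖Complex.exp (Complex.I * conj z)‖ = Real.exp z.im := by
  rw [norm_exp_I]
  simp

theorem exp_four : Real.exp 4 < 64 := by
  have h1 : Real.exp 4 = Real.exp 1 ^ 4 := by
    rw [← Real.exp_nat_mul]; norm_num
  have h2 := Real.exp_one_lt_d9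
  have h3 : Real.exp 1 < 2.8 := by linarith
  have h0 : 0 < Real.exp 1 := Real.exp_pos 1
  rw [h1]
  calc Real.exp 1 ^ 4 < 2.8 ^ 4 := by gcongr
    _ < 64 := by norm_num

/-- the data of the disc argument -/
structure Dat {N : ℕ} {ι K : Type} [Fintype ι] [Fintype K] (P : (Fin N ⊕ Fin N → ℂ) → ℂ)
    (r₀ b L κ η : ℝ) (Zr : (K → ℝ) → ι → ℂ) (g : (K → ℝ) → Fin N → ℂ)
    (V : Fin N → (ι → ℂ) → ℂ) : Prop where
  b0 : 0 ≤ b
  br : b < r₀
  κ0 : 0 < κ
  L0 : 0 ≤ L
  hP : DifferentiableOn ℂ P (ball 0 r₀)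
  hL : ∀ p ∈ ball (0 : Fin N ⊕ Fin N → ℂ) r₀, ∀ q ∈ ball (0 : Fin N ⊕ Fin N → ℂ) r₀,
    ‖P p - P q‖ ≤ L * ‖p - q‖
  sec : ∀ u v : Fin N → ℂ, ‖u‖ < r₀ → ‖v‖ < r₀ → P (Sum.elim u fun j => conj (u j)) = 0 →
      P (Sum.elim v fun j => conj (v j)) = 0 →
      κ * ∑ j, ‖u j - v j‖ ^ 2 ≤ -2 * (P (Sum.elim u fun j => conj (v j))).re
  Zn : ∀ y, ‖y‖ < η → ‖y‖ ≤ ‖Zr y‖
  gb : ∀ y, ‖y‖ < η → ‖g y‖ ≤ b
  gP : ∀ y, ‖y‖ < η → P (Sum.elim (g y) fun j => conj (g y j)) = 0
  vP : ∀ y, ‖y‖ < η → P (Sum.elim (fun j => V j (Zr y)) fun j => conj (V j (Zr y))) = 0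
  Vd : ∀ j, DifferentiableOn ℂ (V j) (ball 0 η)
  Vb : ∀ j, ∀ Z ∈ ball (0 : ι → ℂ) η, ‖V j Z‖ ≤ b
  flat : ∀ k : ℕ, ∃ C : ℝ, ∀ᶠ y in 𝓝 (0 : K → ℝ), ∀ j, ‖g y j - V j (Zr y)‖ ≤ C * ‖y‖ ^ k

variable {N : ℕ} {ι K : Type} [Fintype ι] [Fintype K] {P : (Fin N ⊕ Fin N → ℂ) → ℂ}
    {r₀ b L κ η : ℝ} {Zr : (K → ℝ) → ι → ℂ} {g : (K → ℝ) → Fin N → ℂ}
    {V : Fin N → (ι → ℂ) → ℂ}

theorem core (hH : SpecHOPF) (D : Dat P r₀ b L κ η Zr g V) (A : ℂ → ι → ℂ)
    (hA : DifferentiableOn ℂ A (ball 0 64)) (hAη : ∀ ζ : ℂ, ‖ζ‖ < 64 → ‖A ζ‖ < η)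
    (hA1 : A 1 = 0) (hAc : ∀ ζ : ℂ, ‖ζ‖ = 1 → ∃ y : K → ℝ, ‖y‖ < η ∧ A ζ = Zr y)
    (E : Fin N → ℂ → ℂ) (hEc : ∀ j, ContinuousOn (E j) (closedBall 0 1))
    (hEd : ∀ j, DifferentiableOn ℂ (E j) (ball 0 1))
    (hEb : ∀ j, ∀ ζ : ℂ, ‖ζ‖ = 1 → ∀ y : K → ℝ, ‖y‖ < η → A ζ = Zr y → E j ζ = g y j) :
    ∀ y, ‖y‖ < η → A (-1) = Zr y → ∀ j, g y j = V j (Zr y) := by
  classical
  -- maximum principle
  have hEn : ∀ j, ∀ ζ : ℂ, ‖ζ‖ ≤ 1 → ‖E j ζ‖ ≤ b := by
    intro j ζ hζ
    have h1 : DiffContOnCl ℂ (E j) (ball 0 1) := by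
      refine ⟨hEd j, ?_⟩
      rw [closure_ball (0 : ℂ) one_ne_zero]
      exact hEc j
    refine Complex.norm_le_of_forall_mem_frontier_norm_le isBounded_ball h1 (fun z hz => ?_)
      (by rw [closure_ball (0 : ℂ) one_ne_zero]; simpa using hζ)
    rw [frontier_ball (0 : ℂ) one_ne_zero, mem_sphere_zero_iff_norm] at hz
    obtain ⟨y, hy, hy'⟩ := hAc z hz
    rw [hEb j z hz y hy hy']
    exact (norm_le_pi_norm (g y) j).trans (D.gb y hy)
  let e : ℂ → ℂ := fun z => Complex.exp (Complex.I * z)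
  have he : Differentiable ℂ e := by
    intro z
    exact (Complex.differentiable_exp _).comp z ((differentiable_id.const_mul Complex.I) z)
  let F : ℂ → Fin N ⊕ Fin N → ℂ := fun z =>
    Sum.elim (fun j => E j (e z)) (fun j => conj (V j (A (e (conj z)))))
  let h : ℂ → ℂ := fun z => -P (F z)
  have h64 : ∀ z : ℂ, z.im ≤ 4 → ‖e (conj z)‖ < 64 := by
    intro z hz
    change ‖Complex.exp (Complex.I * conj z)‖ < 64
    rw [norm_exp_I_conj]
    exact (Real.exp_le_exp.2 hz).trans_lt exp_four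
  have hle1 : ∀ z : ℂ, 0 ≤ z.im → ‖e z‖ ≤ 1 := by
    intro z hz
    change ‖Complex.exp (Complex.I * z)‖ ≤ 1
    rw [norm_exp_I]
    exact Real.exp_le_one_iff.2 (by linarith)
  have hlt1 : ∀ z : ℂ, 0 < z.im → ‖e z‖ < 1 := by
    intro z hz
    change ‖Complex.exp (Complex.I * z)‖ < 1
    rw [norm_exp_I, ← Real.exp_zero]
    exact Real.exp_lt_exp.2 (by linarith)
  have hFb : ∀ z : ℂ, 0 ≤ z.im → z.im ≤ 4 → ‖F z‖ ≤ b := by
    intro z h0 h4
    rw [pi_norm_le_iff_of_nonneg D.b0]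
    rintro (j | j)
    · exact hEn j _ (hle1 z h0)
    · change ‖conj (V j (A (e (conj z))))‖ ≤ b
      rw [RCLike.norm_conj]
      exact D.Vb j _ (by rw [mem_ball_zero_iff]; exact hAη _ (h64 z h4))
  have hFr : ∀ z : ℂ, 0 ≤ z.im → z.im ≤ 4 → F z ∈ ball (0 : Fin N ⊕ Fin N → ℂ) r₀ := by
    intro z h0 h4
    rw [mem_ball_zero_iff]
    exact (hFb z h0 h4).trans_lt D.br
  -- continuity
  have hcont : ContinuousOn h (Icc (-4 : ℝ) 4 ×ℂ Icc (0 : ℝ) 4) := by
    have hF : ContinuousOn F (Icc (-4 : ℝ) 4 ×ℂ Icc (0 : ℝ) 4) := by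
      rw [continuousOn_pi]
      rintro (j | j)
      · change ContinuousOn (fun z => E j (e z)) _
        refine (hEc j).comp he.continuous.continuousOn fun z hz => ?_
        rw [mem_closedBall_zero_iff]
        exact hle1 z hz.2.1
      · change ContinuousOn (fun z => conj (V j (A (e (conj z))))) _
        refine Complex.continuous_conj.comp_continuousOn ?_
        refine (D.Vd j).continuousOn.comp (t := ball 0 η) ?_ fun z hz => ?_
        · refine hA.continuousOn.comp (t := ball 0 64)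
            (he.continuous.comp Complex.continuous_conj).continuousOn fun z hz => ?_
          rw [mem_ball_zero_iff]
          exact h64 z hz.2.2
        · rw [mem_ball_zero_iff]
          exact hAη _ (h64 z hz.2.2)
    refine ContinuousOn.neg (D.hP.continuousOn.comp hF fun z hz => hFr z hz.2.1 hz.2.2)
  have hdiff : DifferentiableOn ℂ h (Ioo (-4 : ℝ) 4 ×ℂ Ioo (0 : ℝ) 4) := by
    intro z hz
    have h0 : 0 < z.im := hz.2.1
    have h4 : z.im < 4 := hz.2.2
    refine DifferentiableAt.differentiableWithinAt ?_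
    have hF : DifferentiableAt ℂ F z := by
      rw [differentiableAt_pi]
      rintro (j | j)
      · change DifferentiableAt ℂ (fun z => E j (e z)) z
        have h1 : DifferentiableAt ℂ (E j) (e z) :=
          (hEd j).differentiableAt (isOpen_ball.mem_nhds (by
            rw [mem_ball_zero_iff]; exact hlt1 z h0))
        exact h1.comp z (he z)
      · change DifferentiableAt ℂ (fun z => conj (V j (A (e (conj z))))) z
        have h2 : DifferentiableAt ℂ (fun w => V j (A (e w))) (conj z) := by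
          have h3 : DifferentiableAt ℂ A (e (conj z)) :=
            hA.differentiableAt (isOpen_ball.mem_nhds (by
              rw [mem_ball_zero_iff]; exact h64 z h4.le))
          have h4' : DifferentiableAt ℂ (V j) (A (e (conj z))) :=
            (D.Vd j).differentiableAt (isOpen_ball.mem_nhds (by
              rw [mem_ball_zero_iff]; exact hAη _ (h64 z h4.le)))
          exact h4'.comp (conj z) (h3.comp (conj z) (he (conj z)))
        have h5 := h2.conj_conj
        rw [Complex.conj_conj] at h5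
        exact h5
    have h1 : DifferentiableAt ℂ P (F z) :=
      D.hP.differentiableAt (isOpen_ball.mem_nhds (hFr z h0.le h4.le))
    exact (h1.comp z hF).neg
  -- boundary values
  have hbd : ∀ x : ℝ, ∀ y, ‖y‖ < η → A (e x) = Zr y →
      h x = -P (Sum.elim (g y) fun j => conj (V j (Zr y))) := by
    intro x y hy hAy
    have hx1 : ‖e x‖ = 1 := by
      change ‖Complex.exp (Complex.I * x)‖ = 1
      rw [norm_exp_I]; simp
    have hF : F x = Sum.elim (g y) fun j => conj (V j (Zr y)) := by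
      funext i
      rcases i with j | j
      · exact hEb j _ hx1 y hy hAy
      · change conj (V j (A (e (conj (x : ℂ))))) = conj (V j (Zr y))
        rw [Complex.conj_ofReal, hAy]
    change -P (F x) = _
    rw [hF]
  have hvn : ∀ y, ‖y‖ < η → ∀ x : ℝ, A (e x) = Zr y → ‖Zr y‖ < η := by
    intro y hy x hx
    rw [← hx]
    refine hAη _ ?_
    change ‖Complex.exp (Complex.I * x)‖ < 64
    rw [norm_exp_I]; simp
  have hVn : ∀ y, ‖Zr y‖ < η → ‖fun j => V j (Zr y)‖ ≤ b := by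
    intro y hy
    rw [pi_norm_le_iff_of_nonneg D.b0]
    intro j
    exact D.Vb j _ (by rwa [mem_ball_zero_iff])
  have hsec : ∀ x : ℝ, ∀ y, ‖y‖ < η → A (e x) = Zr y →
      κ * ∑ j, ‖g y j - V j (Zr y)‖ ^ 2 ≤ 2 * (h x).re := by
    intro x y hy hAy
    rw [hbd x y hy hAy, Complex.neg_re]
    have h1 := D.sec (g y) (fun j => V j (Zr y)) ((D.gb y hy).trans_lt D.br)
      ((hVn y (hvn y hy x hAy)).trans_lt D.br) (D.gP y hy) (D.vP y hy)
    linarith
  have hx1 : ∀ x : ℝ, ‖e x‖ = 1 := by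
    intro x
    change ‖Complex.exp (Complex.I * x)‖ = 1
    rw [norm_exp_I]; simp
  have hpos : ∀ x ∈ Icc (-4 : ℝ) 4, 0 ≤ (h x).re := by
    intro x _
    obtain ⟨y, hy, hy'⟩ := hAc (e x) (hx1 x)
    have h1 := hsec x y hy hy'
    have h2 : 0 ≤ κ * ∑ j, ‖g y j - V j (Zr y)‖ ^ 2 :=
      mul_nonneg D.κ0.le (Finset.sum_nonneg fun j _ => by positivity)
    linarith
  have hLip : ∀ x : ℝ, ∀ y, ‖y‖ < η → A (e x) = Zr y → ∀ c : ℝ, 0 ≤ c →
      (∀ j, ‖g y j - V j (Zr y)‖ ≤ c) → ‖h x‖ ≤ L * c := by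
    intro x y hy hAy c hc hcj
    rw [hbd x y hy hAy, norm_neg]
    have hvb := hVn y (hvn y hy x hAy)
    have hmem : ∀ u : Fin N → ℂ, ‖u‖ ≤ b → (Sum.elim u fun j => conj (V j (Zr y))) ∈
        ball (0 : Fin N ⊕ Fin N → ℂ) r₀ := by
      intro u hu
      rw [mem_ball_zero_iff]
      refine lt_of_le_of_lt ?_ D.br
      rw [pi_norm_le_iff_of_nonneg D.b0]
      rintro (j | j)
      · exact (norm_le_pi_norm u j).trans hu
      · change ‖conj (V j (Zr y))‖ ≤ b
        rw [RCLike.norm_conj]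
        exact (norm_le_pi_norm (fun j => V j (Zr y)) j).trans hvb
    have h1 := D.hL _ (hmem (g y) (D.gb y hy)) _ (hmem (fun j => V j (Zr y)) hvb)
    rw [D.vP y hy, sub_zero] at h1
    refine h1.trans (mul_le_mul_of_nonneg_left ?_ D.L0)
    rw [pi_norm_le_iff_of_nonneg hc]
    rintro (j | j)
    · exact hcj j
    · change ‖conj (V j (Zr y)) - conj (V j (Zr y))‖ ≤ c
      rw [sub_self, norm_zero]
      exact hc
  -- the disc near `ζ = 1`
  obtain ⟨C₁, hC₁, δ₁, hδ₁, hA0⟩ : ∃ C₁ : ℝ, 0 ≤ C₁ ∧ ∃ δ₁ : ℝ, 0 < δ₁ ∧ ∀ x : ℝ, |x| < δ₁ →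
      ‖A (e x)‖ ≤ C₁ * |x| := by
    have h1 : DifferentiableAt ℂ (fun w : ℂ => A (e w)) 0 := by
      have h3 : DifferentiableAt ℂ A (e 0) :=
        hA.differentiableAt (isOpen_ball.mem_nhds (by
          rw [mem_ball_zero_iff]
          have := hx1 0
          rw [Complex.ofReal_zero] at this
          rw [this]; norm_num))
      exact h3.comp 0 (he 0)
    have h2 := h1.isBigO_sub
    rw [Asymptotics.isBigO_iff'] at h2
    obtain ⟨c, hc, hc'⟩ := h2
    rw [Metric.eventually_nhds_iff] at hc'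
    obtain ⟨δ, hδ, hδ'⟩ := hc'
    refine ⟨c, hc.le, δ, hδ, fun x hx => ?_⟩
    have h3 := hδ' (y := (x : ℂ)) (by rw [dist_zero_right, Complex.norm_real]; exact hx)
    have he0 : e 0 = 1 := by
      change Complex.exp (Complex.I * 0) = 1
      rw [mul_zero, Complex.exp_zero]
    rw [he0, hA1, sub_zero, sub_zero, Complex.norm_real] at h3
    exact h3
  have hflat : ∀ k : ℕ, ∃ C : ℝ, ∀ x ∈ Icc (-4 : ℝ) 4, ‖h x‖ ≤ C * |x| ^ k := by
    intro k
    obtain ⟨C, hC⟩ := D.flat k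
    rw [Metric.eventually_nhds_iff] at hC
    obtain ⟨ε, hε, hε'⟩ := hC
    obtain ⟨δ, hδ, hδ1, hδ2⟩ : ∃ δ : ℝ, 0 < δ ∧ δ ≤ δ₁ ∧ C₁ * δ ≤ ε := by
      refine ⟨min δ₁ (ε / (C₁ + 1)), lt_min hδ₁ (div_pos hε (by linarith)), min_le_left _ _, ?_⟩
      calc C₁ * min δ₁ (ε / (C₁ + 1)) ≤ C₁ * (ε / (C₁ + 1)) :=
            mul_le_mul_of_nonneg_left (min_le_right _ _) hC₁
        _ ≤ ε := by
          rw [mul_div_assoc', div_le_iff₀ (by linarith)]
          nlinarith
    refine ⟨L * (|C| * C₁ ^ k) + L * (2 * b) / δ ^ k, fun x _ => ?_⟩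
    obtain ⟨y, hy, hy'⟩ := hAc (e x) (hx1 x)
    have ha : 0 ≤ L * (|C| * C₁ ^ k) := mul_nonneg D.L0 (by positivity)
    have hb : 0 ≤ L * (2 * b) / δ ^ k :=
      div_nonneg (mul_nonneg D.L0 (by linarith [D.b0])) (by positivity)
    rw [add_mul]
    rcases lt_or_ge |x| δ with hxδ | hxδ
    · have h1 : ‖y‖ ≤ C₁ * |x| := by
        refine (D.Zn y hy).trans ?_
        rw [← hy']
        exact hA0 x (hxδ.trans_le hδ1)
      have h2 : ‖y‖ < ε := by
        rcases eq_or_lt_of_le hC₁ with h0 | h0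
        · rw [← h0, zero_mul] at h1
          exact h1.trans_lt hε
        · exact h1.trans_lt ((mul_lt_mul_of_pos_left hxδ h0).trans_le hδ2)
      have h3 := hε' (y := y) (by rw [dist_zero_right]; exact h2)
      have h4 : ‖h x‖ ≤ L * (|C| * (C₁ * |x|) ^ k) := by
        refine hLip x y hy hy' _ (by positivity) fun j => ?_
        refine (h3 j).trans ?_
        calc C * ‖y‖ ^ k ≤ |C| * ‖y‖ ^ k := by
              gcongr; exact le_abs_self C
          _ ≤ |C| * (C₁ * |x|) ^ k := by gcongr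
      calc ‖h x‖ ≤ L * (|C| * (C₁ * |x|) ^ k) := h4
        _ = L * (|C| * C₁ ^ k) * |x| ^ k := by rw [mul_pow]; ring
        _ ≤ _ := le_add_of_nonneg_right (mul_nonneg hb (by positivity))
    · have h4 : ‖h x‖ ≤ L * (2 * b) := by
        refine hLip x y hy hy' _ (by linarith [D.b0]) fun j => ?_
        have h5 := (norm_le_pi_norm (g y) j).trans (D.gb y hy)
        have h6 := D.Vb j (Zr y) (by rw [mem_ball_zero_iff]; exact hvn y hy x hy')
        calc ‖g y j - V j (Zr y)‖ ≤ ‖g y j‖ + ‖V j (Zr y)‖ := norm_sub_le _ _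
          _ ≤ 2 * b := by linarith
      have h5 : L * (2 * b) ≤ L * (2 * b) / δ ^ k * |x| ^ k := by
        rw [div_mul_eq_mul_div, le_div_iff₀ (by positivity)]
        exact mul_le_mul_of_nonneg_left (by gcongr) (mul_nonneg D.L0 (by linarith [D.b0]))
      calc ‖h x‖ ≤ L * (2 * b) := h4
        _ ≤ _ := h5
        _ ≤ _ := le_add_of_nonneg_left (mul_nonneg ha (by positivity))
  -- conclusion
  have hfin := hH h hcont hdiff hpos hflat Real.pi
    ⟨by linarith [Real.pi_pos], Real.pi_lt_four⟩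
  intro y hy hAy j
  have heπ : e (Real.pi : ℂ) = -1 := by
    change Complex.exp (Complex.I * Real.pi) = -1
    rw [mul_comm, Complex.exp_pi_mul_I]
  have h1 := hsec Real.pi y hy (by rw [heπ]; exact hAy)
  rw [hfin, mul_zero] at h1
  have h2 : ∑ j, ‖g y j - V j (Zr y)‖ ^ 2 ≤ 0 := by
    by_contra hcon
    push Not at hcon
    have := mul_pos D.κ0 hcon
    linarith
  have h3 : ‖g y j - V j (Zr y)‖ ^ 2 ≤ 0 :=
    (Finset.single_le_sum (f := fun j => ‖g y j - V j (Zr y)‖ ^ 2)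
      (fun i _ => by positivity) (Finset.mem_univ j)).trans h2
  have h4 : ‖g y j - V j (Zr y)‖ = 0 := by
    have := norm_nonneg (g y j - V j (Zr y))
    nlinarith
  exact sub_eq_zero.1 (norm_eq_zero.1 h4)

end

end Pool.Agent.Lib.MP_2184e2_an.Loc.LocM
end
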