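import Pool.Agent.Lib.MP_2184e2_an.Loc.SpecG
import Pool.Agent.Lib.MP_2184e2_an.Loc.SpecA
import Pool.Agent.Lib.MP_2184e2_an.Loc.Cnv

section
/-! # CRT: CR maps in coordinates -/
set_option autoImplicit false

namespace Pool.Agent.Lib.MP_2184e2_an.Loc

open MvPowerSeries Filter Topology Set
open scoped ContDiff ComplexConjugate

namespace CrtM

/-- the complexified differential -/
lemma sum_pd {n : ℕ} {κ : Type} [Fintype κ] [DecidableEq κ] {h : (κ → ℝ) → Fin n → ℂ}
    {x : κ → ℝ} (hh : DifferentiableAt ℝ h x) (c : κ → ℂ) (j : Fin n) :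
    ∑ k, c k * pd (fun y => h y j) k x =
      fderiv ℝ h x (fun k => (c k).re) j + Complex.I * fderiv ℝ h x (fun k => (c k).im) j := by
  have h1 : ∀ k, pd (fun y => h y j) k x = fderiv ℝ h x (Pi.single k 1) j := by
    intro k
    unfold pd
    have := (hasFDerivAt_pi'.1 hh.hasFDerivAt j).fderiv
    rw [this]
    rfl
  have h2 : ∀ a : κ → ℝ, fderiv ℝ h x a j = ∑ k, (a k : ℂ) * fderiv ℝ h x (Pi.single k 1) j := by
    intro a
    have e : a = ∑ k, a k • (Pi.single k (1 : ℝ) : κ → ℝ) := by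
      ext i
      simp [Finset.sum_apply, Pi.single_apply]
    conv_lhs => rw [e, map_sum]
    rw [Finset.sum_apply]
    refine Finset.sum_congr rfl fun k _ => ?_
    rw [map_smul]
    simp
  rw [h2, h2, Finset.mul_sum, ← Finset.sum_add_distrib]
  refine Finset.sum_congr rfl fun k _ => ?_
  rw [h1]
  conv_lhs => rw [← Complex.re_add_im (c k)]
  ring

end CrtM

open CrtM

theorem specCRT (hP : SpecPARC) : SpecCRT := by
  intro n c₁ m d M₁ M₂ f hf hM₁ p π φ σ hσ
  obtain ⟨G, hG, hGf, -⟩ := hf p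
  have hσ0 : σ 0 = p := hσ.zero
  have hσd : ContDiffAt ℝ ∞ σ 0 := hσ.ana.contDiffAt
  have hGσ : ContDiffAt ℝ ∞ (fun x => G (σ x)) 0 := by
    have : ContDiffAt ℝ ∞ G (σ 0) := by rw [hσ0]; exact hG
    exact this.comp (0 : Ki m d → ℝ) hσd
  have hcont : Tendsto σ (𝓝 0) (𝓝 (p : Fin n → ℂ)) := by
    have := hσ.ana.continuousAt
    unfold ContinuousAt at this
    rwa [hσ0] at this
  -- `G = f` on `M₁` near `p`
  have hGf' : ∀ᶠ w in 𝓝 (p : Fin n → ℂ), ∀ h : w ∈ M₁, G w = f ⟨w, h⟩ := by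
    rw [Metric.eventually_nhds_iff] at hGf ⊢
    obtain ⟨ε, hε, h⟩ := hGf
    refine ⟨ε, hε, fun w hw hwM => ?_⟩
    exact h (y := ⟨w, hwM⟩) hw
  have hGp : G p = f p := hGf.self_of_nhds
  have hGs : ∀ᶠ w in 𝓝 (p : Fin n → ℂ), ContDiffAt ℝ 1 G w := by
    have : ContDiffAt ℝ 1 G p := hG.of_le (by exact_mod_cast le_top)
    exact this.eventually (by simp)
  refine ⟨fun x => G (σ x) - f p, ?_, ?_, ?_, ?_⟩
  · intro j
    have h1 := (contDiffAt_pi.1 hGσ) j
    exact h1.sub contDiffAt_const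
  · show G (σ 0) - f p = 0
    rw [hσ0, hGp, sub_self]
  · intro j
    have hcr := hP n c₁ m d M₁ p π φ σ hM₁ p.2 hσ
    have hσs : ∀ᶠ x in 𝓝 (0 : Ki m d → ℝ), ContDiffAt ℝ 1 σ x := by
      have : ContDiffAt ℝ 1 σ 0 := hσd.of_le (by exact_mod_cast le_top)
      exact this.eventually (by simp)
    filter_upwards [hcr, hσs, hσ.mem, hσ.rng, hcont.eventually hGs,
      hcont.eventually (eventually_eventually_nhds.2 hGf')] with x h1 h2 h3 h4 h5 h6
    intro c hc
    have hsd : DifferentiableAt ℝ σ x := h2.differentiableAt (by norm_num)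
    have hGd : DifferentiableAt ℝ G (σ x) := h5.differentiableAt (by norm_num)
    -- the smooth map at `w = σ x`
    obtain ⟨K, hK, hKf, hKv⟩ := hf ⟨σ x, h3⟩
    have hKd : DifferentiableAt ℝ K (σ x) :=
      hK.differentiableAt (by simp)
    have hKf' : ∀ᶠ w in 𝓝 (σ x), ∀ h : w ∈ M₁, K w = f ⟨w, h⟩ := by
      rw [Metric.eventually_nhds_iff] at hKf ⊢
      obtain ⟨ε, hε, h⟩ := hKf
      refine ⟨ε, hε, fun w hw hwM => ?_⟩
      exact h (y := ⟨w, hwM⟩) hw
    have hGK : ∀ u ∈ tangent M₁ (σ x), fderiv ℝ G (σ x) u = fderiv ℝ K (σ x) u := by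
      intro u hu
      have h7 : ∀ᶠ w in 𝓝[M₁] (σ x), (G - K) w = 0 := by
        filter_upwards [nhdsWithin_le_nhds h6, nhdsWithin_le_nhds hKf', self_mem_nhdsWithin]
          with w hw1 hw2 hw3
        simp only [Pi.sub_apply]
        rw [hw1 hw3, hw2 hw3, sub_self]
      have h8 := fderiv_tangent (M := M₁) h3 (hGd.sub hKd) h7 hu
      rw [fderiv_sub hGd hKd] at h8
      simpa [sub_eq_zero] using h8
    set a : Ki m d → ℝ := fun k => (c k).re with ha
    set b : Ki m d → ℝ := fun k => (c k).im with hb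
    have e1 : ∀ i, fderiv ℝ σ x a i + Complex.I * fderiv ℝ σ x b i = 0 := by
      intro i
      rw [← sum_pd hsd c i]
      exact h1 i c hc
    have e2 : fderiv ℝ σ x a = -(Complex.I • fderiv ℝ σ x b) := by
      ext i
      have := e1 i
      simp only [Pi.neg_apply, Pi.smul_apply, smul_eq_mul]
      exact eq_neg_of_add_eq_zero_left this
    set v := fderiv ℝ σ x b with hv
    have hvt : v ∈ tangent M₁ (σ x) := (h4 v).2 ⟨b, rfl⟩
    have hIt : Complex.I • v ∈ tangent M₁ (σ x) := by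
      have : -(Complex.I • v) ∈ tangent M₁ (σ x) := (h4 _).2 ⟨a, e2⟩
      simpa using neg_mem this
    have hvc : v ∈ ctangent M₁ (σ x) := ⟨hvt, hIt⟩
    have e3 := (hKv v hvc).2
    have hcomp : HasFDerivAt (fun y => G (σ y) - (f p : Fin n → ℂ)) ((fderiv ℝ G (σ x)).comp (fderiv ℝ σ x)) x :=
      (hGd.hasFDerivAt.comp x hsd.hasFDerivAt).sub_const _
    have e4 := sum_pd (h := fun y => G (σ y) - (f p : Fin n → ℂ)) hcomp.differentiableAt c j
    rw [hcomp.fderiv] at e4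
    rw [e4]
    show (fderiv ℝ G (σ x)) (fderiv ℝ σ x a) j +
      Complex.I * (fderiv ℝ G (σ x)) (fderiv ℝ σ x b) j = 0
    rw [e2, ← hv, map_neg, hGK _ hIt, hGK _ hvt, e3]
    simp
  · filter_upwards [hcont.eventually hGf'] with x hx h
    show G (σ x) - f p = _
    rw [hx h]

end Pool.Agent.Lib.MP_2184e2_an.Loc
end

section
/-!
# MP_2184e2_an, module DISC: small analytic discs through any point near `0`
-/
set_option autoImplicit false

namespace Pool.Agent.Lib.MP_2184e2_an.Loc.DiscM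

open MvPowerSeries Filter Topology Set
open scoped ContDiff LaurentPolynomial ComplexConjugate

noncomputable section

/-! ### no negative powers -/

/-- polynomials in `ζ` -/
def Rg : Subring ℂ[T;T⁻¹] := (Polynomial.toLaurent (R := ℂ)).range

theorem coeff_of_mem {p : ℂ[T;T⁻¹]} (hp : p ∈ Rg) (k : ℤ) (hk : k < 0) : p.coeff k = 0 := by
  obtain ⟨q, rfl⟩ := hp
  by_contra h
  have h1 : k ∈ (Polynomial.toLaurent q).coeff.support := Finsupp.mem_support_iff.2 h
  rw [LaurentPolynomial.support_coeff_toLaurent] at h1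
  obtain ⟨n, -, hn⟩ := Finset.mem_map.1 h1
  have : (0 : ℤ) ≤ k := by rw [← hn]; exact Int.natCast_nonneg n
  omega

theorem C_mem (c : ℂ) : LaurentPolynomial.C c ∈ Rg := ⟨Polynomial.C c, Polynomial.toLaurent_C c⟩

theorem T_mem (n : ℕ) : (LaurentPolynomial.T (n : ℤ) : ℂ[T;T⁻¹]) ∈ Rg :=
  ⟨Polynomial.X ^ n, by rw [Polynomial.toLaurent_X_pow]⟩

theorem T_mem' {k : ℤ} (hk : 0 ≤ k) : (LaurentPolynomial.T k : ℂ[T;T⁻¹]) ∈ Rg := by
  have h := T_mem k.toNat
  rwa [Int.toNat_of_nonneg hk] at h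

variable {κ : Type}

/-- all coefficients are polynomials in `ζ` -/
def In (f : MvPowerSeries κ ℂ[T;T⁻¹]) : Prop := ∀ n, coeff n f ∈ Rg

theorem In.nn {f : MvPowerSeries κ ℂ[T;T⁻¹]} (h : In f) : NN f := fun n k hk =>
  coeff_of_mem (h n) k hk

theorem In.add {f g : MvPowerSeries κ ℂ[T;T⁻¹]} (hf : In f) (hg : In g) : In (f + g) := by
  intro n
  rw [map_add]
  exact Rg.add_mem (hf n) (hg n)

theorem In.mul {f g : MvPowerSeries κ ℂ[T;T⁻¹]} (hf : In f) (hg : In g) : In (f * g) := by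
  classical
  intro n
  rw [coeff_mul]
  exact Rg.sum_mem fun i _ => Rg.mul_mem (hf _) (hg _)

theorem In_C {p : ℂ[T;T⁻¹]} (hp : p ∈ Rg) : In (C p : MvPowerSeries κ ℂ[T;T⁻¹]) := by
  classical
  intro n
  rw [coeff_C]
  split_ifs
  · exact hp
  · exact Rg.zero_mem

theorem In_X (i : κ) : In (X i : MvPowerSeries κ ℂ[T;T⁻¹]) := by
  classical
  intro n
  rw [coeff_X]
  split_ifs
  · exact Rg.one_mem
  · exact Rg.zero_mem

theorem In_one : In (1 : MvPowerSeries κ ℂ[T;T⁻¹]) := by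
  have h := In_C (κ := κ) (Rg.one_mem)
  rwa [map_one] at h

theorem In_sum {ι : Type} (s : Finset ι) (f : ι → MvPowerSeries κ ℂ[T;T⁻¹]) (h : ∀ i ∈ s, In (f i)) :
    In (∑ i ∈ s, f i) := by
  intro n
  rw [map_sum]
  exact Rg.sum_mem fun i hi => h i hi n

theorem pPM_mem (c : ℂ) : pPM c ∈ Rg := by
  unfold pPM
  exact Rg.mul_mem (Rg.sub_mem Rg.one_mem (T_mem' (by norm_num)))
    (Rg.add_mem Rg.one_mem (Rg.mul_mem (C_mem c) (T_mem' (by norm_num))))

theorem In_zz {m d : ℕ} (a : Fin d → Fin m → ℂ) (j : Fin m) : In (zz a j) := by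
  unfold zz
  refine (In_X _).mul ((In_sum _ _ fun i _ => ?_).add (((In_X _).add ((In_C (C_mem _)).mul (In_X _))).mul
    (In_C ?_)))
  · refine ((In_one.add (In_X _)).mul (In_C ?_)).add (In_C ?_)
    · exact Rg.mul_mem (Rg.mul_mem (C_mem _) (pPM_mem _)) (T_mem' (by positivity))
    · exact Rg.mul_mem (Rg.mul_mem (C_mem _) (pPM_mem _)) (T_mem' (by positivity))
  · exact Rg.mul_mem (C_mem _) (Rg.sub_mem Rg.one_mem (T_mem' (by norm_num)))

/-! ### convergence of `zz` -/

section conv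

variable (hCNV : SpecCNV) (hN : IsNm nL) [Finite κ]

include hCNV hN

theorem cadd {f g : MvPowerSeries κ ℂ[T;T⁻¹]} (hf : ConvN nL f) (hg : ConvN nL g) :
    ConvN nL (f + g) := ((hCNV.1 _ nL hN κ).1 f g hf hg).1

theorem cmul {f g : MvPowerSeries κ ℂ[T;T⁻¹]} (hf : ConvN nL f) (hg : ConvN nL g) :
    ConvN nL (f * g) := ((hCNV.1 _ nL hN κ).1 f g hf hg).2.1

theorem csub {f g : MvPowerSeries κ ℂ[T;T⁻¹]} (hf : ConvN nL f) (hg : ConvN nL g) :
    ConvN nL (f - g) := ((hCNV.1 _ nL hN κ).1 f g hf hg).2.2.2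

theorem cC (c : ℂ[T;T⁻¹]) : ConvN nL (C c : MvPowerSeries κ ℂ[T;T⁻¹]) := (hCNV.1 _ nL hN κ).2.1 c

theorem cX (i : κ) : ConvN nL (X i : MvPowerSeries κ ℂ[T;T⁻¹]) := (hCNV.1 _ nL hN κ).2.2.1 i

theorem csum {ι : Type} (s : Finset ι) (f : ι → MvPowerSeries κ ℂ[T;T⁻¹])
    (h : ∀ i ∈ s, ConvN nL (f i)) : ConvN nL (∑ i ∈ s, f i) := by
  classical
  induction s using Finset.induction_on with
  | empty =>
    rw [Finset.sum_empty, ← map_zero (C (σ := κ) (R := ℂ[T;T⁻¹]))]
    exact cC hCNV hN 0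
  | insert a s ha ih =>
    rw [Finset.sum_insert ha]
    exact cadd hCNV hN (h a (Finset.mem_insert_self a s))
      (ih fun i hi => h i (Finset.mem_insert_of_mem hi))

omit [Finite κ] in
theorem conv_zz {m d : ℕ} (a : Fin d → Fin m → ℂ) (j : Fin m) : ConvN nL (zz a j) := by
  unfold zz
  refine cmul hCNV hN (cX hCNV hN _) (cadd hCNV hN (csum hCNV hN _ _ fun i _ => ?_)
    (cmul hCNV hN (cadd hCNV hN (cX hCNV hN _) (cmul hCNV hN (cC hCNV hN _) (cX hCNV hN _)))
      (cC hCNV hN _)))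
  refine cadd hCNV hN (cmul hCNV hN (cadd hCNV hN ?_ (cX hCNV hN _)) (cC hCNV hN _)) (cC hCNV hN _)
  rw [← map_one (C (σ := Pk m d) (R := ℂ[T;T⁻¹]))]
  exact cC hCNV hN 1

end conv

theorem Z0_zz {m d : ℕ} (a : Fin d → Fin m → ℂ) (j : Fin m) : Z0 (zz a j) := by
  unfold Z0 zz
  rw [map_mul, constantCoeff_X, zero_mul]

/-! ### evaluation as a ring homomorphism -/

/-- evaluation at `ζ ≠ 0` -/
def evH (hL : SpecLNM) (ζ : ℂ) (hζ : ζ ≠ 0) : ℂ[T;T⁻¹] →+* ℂ where
  toFun := evL ζ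
  map_one' := by
    have h := (hL.2.2.2.2.2.1 ζ hζ).2.2.1 1
    rwa [map_one] at h
  map_mul' := (hL.2.2.2.2.2.1 ζ hζ).2.1
  map_zero' := by
    have h := (hL.2.2.2.2.2.1 ζ hζ).2.2.1 0
    rwa [map_zero] at h
  map_add' := (hL.2.2.2.2.2.1 ζ hζ).1

theorem evH_C (hL : SpecLNM) (ζ : ℂ) (hζ : ζ ≠ 0) (c : ℂ) : evH hL ζ hζ (LaurentPolynomial.C c) = c :=
  (hL.2.2.2.2.2.1 ζ hζ).2.2.1 c

theorem evH_T (hL : SpecLNM) (ζ : ℂ) (hζ : ζ ≠ 0) (k : ℤ) :
    evH hL ζ hζ (LaurentPolynomial.T k) = ζ ^ k := (hL.2.2.2.2.2.1 ζ hζ).2.2.2 k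

theorem evS_eq (hL : SpecLNM) (ζ : ℂ) (hζ : ζ ≠ 0) (f : MvPowerSeries κ ℂ[T;T⁻¹]) :
    evS ζ f = MvPowerSeries.map (evH hL ζ hζ) f := by
  ext n
  rw [coeff_map]
  rfl

theorem evH_pPM (hL : SpecLNM) (ζ : ℂ) (hζ : ζ ≠ 0) (h2 : ζ ^ 2 = 1) (c : ℂ) :
    evH hL ζ hζ (pPM c) = 0 := by
  unfold pPM
  rw [map_mul, map_sub, map_one, evH_T]
  have : ζ ^ (2 : ℤ) = 1 := by exact_mod_cast h2
  rw [this, sub_self, zero_mul]

/-- the value of `zz` at `ζ = ± 1` -/
theorem evS_zz (hL : SpecLNM) {m d : ℕ} (a : Fin d → Fin m → ℂ) (j : Fin m) (ζ : ℂ) (hζ : ζ ≠ 0)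
    (h2 : ζ ^ 2 = 1) : evS ζ (zz a j) = X (Sum.inl (Sum.inl ())) *
      ((X (Sum.inr (Sum.inl j)) + C Complex.I * X (Sum.inr (Sum.inr j))) * C ((1 - ζ) / 2)) := by
  rw [evS_eq hL ζ hζ]
  unfold zz
  simp only [map_mul, map_add, map_sum, map_one, MvPowerSeries.map_X, MvPowerSeries.map_C, evH_pPM hL ζ hζ h2,
    evH_C, mul_zero, zero_mul, map_zero, add_zero, Finset.sum_const_zero, zero_add, map_sub, evH_T]
  congr 2
  rw [← map_one (C (σ := Pk m d) (R := ℂ))]
  simp only [← map_sub, ← map_mul]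
  congr 1
  rw [zpow_one]
  ring

/-! ### the derivative of `ev f` at `0` -/

section open_map

variable {κ : Type} [Fintype κ] [DecidableEq κ]

omit [Fintype κ] [DecidableEq κ] in
theorem ev_zero (g : PS κ) : ev g 0 = constantCoeff g := by
  unfold ev
  rw [tsum_eq_single 0]
  · rw [Finsupp.prod_zero_index, mul_one, coeff_zero_eq_constantCoeff_apply]
  · intro n hn
    obtain ⟨i, hi⟩ := Finsupp.ne_iff.1 hn
    have hp : (n.prod fun i k => (0 : κ → ℂ) i ^ k) = 0 := by
      refine Finset.prod_eq_zero (i := i) (Finsupp.mem_support_iff.2 hi) ?_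
      exact zero_pow hi
    rw [hp, mul_zero]

omit [Fintype κ] [DecidableEq κ] in
theorem constantCoeff_pderiv (f : PS κ) (i : κ) : constantCoeff (pderiv ℂ i f) = lin f i := by
  rw [← coeff_zero_eq_constantCoeff_apply, coeff_pderiv]
  simp [lin]

theorem fderiv_ev (hEVA : SpecEVA) {f : PS κ} (hf : Conv f) (i : κ) :
    fderiv ℂ (ev f) 0 (Pi.single i 1) = lin f i := by
  have h := ((hEVA κ).2.2.2.2.1 f i hf).self_of_nhds
  rw [h, ← constantCoeff_pderiv, ev_zero]

/-- the real linear form of the linear coefficients -/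
def lf (f : PS κ) : (κ → ℝ) →L[ℝ] ℝ :=
  ∑ k, (lin f k).re • ContinuousLinearMap.proj k

omit [DecidableEq κ] in
theorem lf_apply (f : PS κ) (v : κ → ℝ) : lf f v = ∑ k, (lin f k).re * v k := by
  unfold lf
  rw [_root_.sum_apply]
  rfl

theorem strict_re (hEVA : SpecEVA) {f : PS κ} (hf : Conv f) :
    HasStrictFDerivAt (fun x : κ → ℝ => (ev f (rl x)).re) (lf f) 0 := by
  have h1 : HasStrictFDerivAt (ev f) (fderiv ℂ (ev f) 0) 0 := ((hEVA κ).1 f hf).1.hasStrictFDerivAt
  have h2 : HasStrictFDerivAt (ev f) ((fderiv ℂ (ev f) 0).restrictScalars ℝ) 0 :=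
    h1.restrictScalars ℝ
  set R : (κ → ℝ) →L[ℝ] (κ → ℂ) := ContinuousLinearMap.pi fun k =>
    Complex.ofRealCLM.comp (ContinuousLinearMap.proj k) with hR
  have h3 : HasStrictFDerivAt (rl : (κ → ℝ) → κ → ℂ) R 0 := R.hasStrictFDerivAt
  have h0 : (rl (0 : κ → ℝ) : κ → ℂ) = 0 := by
    funext k
    simp [rl]
  have h2' : HasStrictFDerivAt (ev f) ((fderiv ℂ (ev f) 0).restrictScalars ℝ) (rl (0 : κ → ℝ)) := by
    rw [h0]; exact h2
  have h4 := Complex.reCLM.hasStrictFDerivAt.comp (0 : κ → ℝ) (h2'.comp (0 : κ → ℝ) h3)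
  refine (h4.congr_fderiv ?_)
  refine ContinuousLinearMap.ext fun v => ?_
  rw [lf_apply]
  have e1 : R v = ∑ k, (v k : ℂ) • (Pi.single k 1 : κ → ℂ) := by
    funext i
    rw [Finset.sum_apply, Finset.sum_eq_single i]
    · simp [hR]
    · intro j _ hj
      simp [hj.symm]
    · simp
  have e2 : fderiv ℂ (ev f) 0 (R v) = ∑ k, (v k : ℂ) * lin f k := by
    rw [e1, map_sum]
    refine Finset.sum_congr rfl fun k _ => ?_
    rw [map_smul, fderiv_ev hEVA hf, smul_eq_mul]
  change (fderiv ℂ (ev f) 0 (R v)).re = _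
  rw [e2, Complex.re_sum]
  refine Finset.sum_congr rfl fun k _ => ?_
  rw [Complex.re_ofReal_mul, mul_comm]

end open_map

/-! ### the map `(ε, ν, β) ↦ (ε, W(ε, ν, β), β)` -/

section FF

variable {m d : ℕ} (W : Fin d → PS (Pk m d))

/-- the map -/
def FF (p : Pk m d → ℝ) : Pk m d → ℝ :=
  Sum.elim (Sum.elim (fun _ => p (Sum.inl (Sum.inl ()))) fun l => (ev (W l) (rl p)).re)
    fun b => p (Sum.inr b)

/-- its derivative -/
def dFF : (Pk m d → ℝ) →L[ℝ] (Pk m d → ℝ) :=
  ContinuousLinearMap.pi (Sum.elim (Sum.elim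
    (fun _ => ContinuousLinearMap.proj (Sum.inl (Sum.inl ()))) fun l => lf (W l))
    fun b => ContinuousLinearMap.proj (Sum.inr b))

theorem strict_FF (hEVA : SpecEVA) (hW : ∀ l, Conv (W l)) :
    HasStrictFDerivAt (FF W) (dFF W) 0 := by
  rw [hasStrictFDerivAt_pi']
  rintro ((_ | l) | b)
  · exact (ContinuousLinearMap.proj (R := ℝ) (φ := fun _ : Pk m d => ℝ)
      (Sum.inl (Sum.inl ()))).hasStrictFDerivAt
  · exact strict_re hEVA (hW l)
  · exact (ContinuousLinearMap.proj (R := ℝ) (φ := fun _ : Pk m d => ℝ)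
      (Sum.inr b)).hasStrictFDerivAt

theorem FF_nhds (hEVA : SpecEVA) (hW : ∀ l, Conv (W l)) (h0 : ∀ l, Z0 (W l))
    (L : Matrix (Fin d) (Fin d) ℝ) (hL : L.det ≠ 0)
    (hlin : ∀ i l, lin (W l) (Sum.inl (Sum.inr i)) = ((L i l : ℝ) : ℂ)) :
    map (FF W) (𝓝 0) = 𝓝 0 := by
  have hF0 : FF W 0 = 0 := by
    have h1 : (rl (0 : Pk m d → ℝ) : Pk m d → ℂ) = 0 := by
      funext k
      simp [rl]
    funext k
    rcases k with (_ | l) | b
    · rfl
    · change (ev (W l) (rl 0)).re = 0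
      rw [h1, ev_zero, h0 l, Complex.zero_re]
    · rfl
  have hinj : Function.Injective (dFF W) := by
    rw [injective_iff_map_eq_zero]
    intro v hv
    have e1 : v (Sum.inl (Sum.inl ())) = 0 := congrFun hv (Sum.inl (Sum.inl ()))
    have e2 : ∀ b, v (Sum.inr b) = 0 := fun b => congrFun hv (Sum.inr b)
    have e3 : ∀ l, lf (W l) v = 0 := fun l => congrFun hv (Sum.inl (Sum.inr l))
    have e4 : Matrix.vecMul (fun i => v (Sum.inl (Sum.inr i))) L = 0 := by
      funext l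
      have h1 := e3 l
      rw [lf_apply, Fintype.sum_sum_type, Fintype.sum_sum_type] at h1
      simp only [e1, e2, mul_zero, Finset.sum_const_zero, add_zero, zero_add, hlin,
        Complex.ofReal_re] at h1
      change ∑ i, v (Sum.inl (Sum.inr i)) * L i l = 0
      rw [← h1]
      exact Finset.sum_congr rfl fun i _ => mul_comm _ _
    have e5 := Matrix.eq_zero_of_vecMul_eq_zero hL e4
    funext k
    rcases k with (u | l) | b
    · exact e1
    · exact congrFun e5 l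
    · exact e2 b
  have hsurj : (dFF W).range = ⊤ := by
    have h1 : Function.Surjective ((dFF W : (Pk m d → ℝ) →L[ℝ] (Pk m d → ℝ)) :
        (Pk m d → ℝ) →ₗ[ℝ] (Pk m d → ℝ)) := LinearMap.injective_iff_surjective.1 hinj
    exact LinearMap.range_eq_top.2 h1
  have h := (strict_FF W hEVA hW).map_nhds_eq_of_surj hsurj
  rw [hF0] at h
  exact h

/-- Solving `ε β = x' + i y'`, `ε² W = s'`. -/
theorem solve (hEVA : SpecEVA) (hW : ∀ l, Conv (W l)) (h0 : ∀ l, Z0 (W l))
    (L : Matrix (Fin d) (Fin d) ℝ) (hL : L.det ≠ 0)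
    (hlin : ∀ i l, lin (W l) (Sum.inl (Sum.inr i)) = ((L i l : ℝ) : ℂ))
    {U : Set (Pk m d → ℝ)} (hU : U ∈ 𝓝 0) : ∃ r : ℝ, 0 < r ∧ ∀ x : Ki m d → ℝ, ‖x‖ < r → x ≠ 0 →
      ∃ p ∈ U, (∀ j, p (Sum.inl (Sum.inl ())) * p (Sum.inr (Sum.inl j)) = x (Sum.inl (Sum.inl j))) ∧
        (∀ j, p (Sum.inl (Sum.inl ())) * p (Sum.inr (Sum.inr j)) = x (Sum.inl (Sum.inr j))) ∧
        ∀ l, p (Sum.inl (Sum.inl ())) ^ 2 * (ev (W l) (rl p)).re = x (Sum.inr l) := by
  have h1 : FF W '' U ∈ 𝓝 (0 : Pk m d → ℝ) := by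
    rw [← FF_nhds W hEVA hW h0 L hL hlin]
    exact image_mem_map hU
  obtain ⟨δ, hδ, hball⟩ := Metric.mem_nhds_iff.1 h1
  refine ⟨min (2 * δ) (δ ^ 3 / 2), by positivity, fun x hx hx0 => ?_⟩
  have hn : 0 < ‖x‖ := norm_pos_iff.2 hx0
  have hx1 : ‖x‖ < 2 * δ := hx.trans_le (min_le_left _ _)
  have hx2 : ‖x‖ < δ ^ 3 / 2 := hx.trans_le (min_le_right _ _)
  set e : ℝ := √(2 * ‖x‖ / δ) with he
  have he2 : e ^ 2 = 2 * ‖x‖ / δ := Real.sq_sqrt (by positivity)
  have he0 : 0 < e := Real.sqrt_pos.2 (by positivity)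
  have hed : e < δ := by
    have h2 : e ^ 2 < δ ^ 2 := by
      rw [he2, div_lt_iff₀ hδ]
      linarith [hx2, show δ ^ 2 * δ = δ ^ 3 by ring]
    exact lt_of_pow_lt_pow_left₀ 2 hδ.le h2
  have hxe : ‖x‖ / e < δ := by
    rw [div_lt_iff₀ he0]
    have h2 : ‖x‖ ^ 2 < (δ * e) ^ 2 := by
      rw [mul_pow, he2]
      have h3 : δ ^ 2 * (2 * ‖x‖ / δ) = 2 * δ * ‖x‖ := by field_simp
      rw [h3, pow_two]
      exact mul_lt_mul_of_pos_right hx1 hn
    exact lt_of_pow_lt_pow_left₀ 2 (by positivity) h2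
  have hxe2 : ‖x‖ / e ^ 2 < δ := by
    rw [he2]
    have h3 : ‖x‖ / (2 * ‖x‖ / δ) = δ / 2 := by field_simp
    rw [h3]
    linarith
  have hxk : ∀ k, |x k| ≤ ‖x‖ := fun k => norm_le_pi_norm x k
  set q : Pk m d → ℝ := Sum.elim (Sum.elim (fun _ => e) fun l => x (Sum.inr l) / e ^ 2)
    (Sum.elim (fun j => x (Sum.inl (Sum.inl j)) / e) fun j => x (Sum.inl (Sum.inr j)) / e) with hq
  have hqn : ‖q‖ < δ := by
    rw [pi_norm_lt_iff hδ]
    rintro ((_ | l) | (j | j))
    · change |e| < δ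
      rwa [abs_of_pos he0]
    · change |x (Sum.inr l) / e ^ 2| < δ
      rw [abs_div, abs_of_pos (pow_pos he0 2)]
      exact (div_le_div_of_nonneg_right (hxk _) (by positivity)).trans_lt hxe2
    · change |x (Sum.inl (Sum.inl j)) / e| < δ
      rw [abs_div, abs_of_pos he0]
      exact (div_le_div_of_nonneg_right (hxk _) (by positivity)).trans_lt hxe
    · change |x (Sum.inl (Sum.inr j)) / e| < δ
      rw [abs_div, abs_of_pos he0]
      exact (div_le_div_of_nonneg_right (hxk _) (by positivity)).trans_lt hxe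
  obtain ⟨p, hp, hpq⟩ := hball (by rw [Metric.mem_ball, dist_zero_right]; exact hqn)
  have p1 : p (Sum.inl (Sum.inl ())) = e := congrFun hpq (Sum.inl (Sum.inl ()))
  have p2 : ∀ l, (ev (W l) (rl p)).re = x (Sum.inr l) / e ^ 2 := fun l =>
    congrFun hpq (Sum.inl (Sum.inr l))
  have p3 : ∀ j, p (Sum.inr (Sum.inl j)) = x (Sum.inl (Sum.inl j)) / e := fun j =>
    congrFun hpq (Sum.inr (Sum.inl j))
  have p4 : ∀ j, p (Sum.inr (Sum.inr j)) = x (Sum.inl (Sum.inr j)) / e := fun j =>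
    congrFun hpq (Sum.inr (Sum.inr j))
  refine ⟨p, hp, fun j => ?_, fun j => ?_, fun l => ?_⟩
  · rw [p1, p3]; field_simp
  · rw [p1, p4]; field_simp
  · rw [p1, p2]; field_simp

end FF

/-! ### small points -/

section small

variable {κ : Type} [Fintype κ]

theorem ev_of_R {P : (κ → ℂ) → Prop} (h : ∃ R : ℝ, 0 < R ∧ ∀ x : κ → ℂ, ‖x‖ < R → P x) :
    ∀ᶠ p in 𝓝 (0 : κ → ℝ), P (rl p) := by
  obtain ⟨R, hR, h⟩ := h
  filter_upwards [Metric.ball_mem_nhds (0 : κ → ℝ) hR] with p hp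
  apply h
  rw [Metric.mem_ball, dist_zero_right] at hp
  rw [pi_norm_lt_iff hR]
  intro k
  have h1 : ‖rl p k‖ = ‖p k‖ := Complex.norm_real _
  rw [h1]
  exact (norm_le_pi_norm p k).trans_lt hp

theorem ev_of_nhds {P : (κ → ℂ) → Prop} (h : ∀ᶠ x in 𝓝 (0 : κ → ℂ), P x) :
    ∀ᶠ p in 𝓝 (0 : κ → ℝ), P (rl p) := by
  obtain ⟨R, hR, h1⟩ := Metric.eventually_nhds_iff.1 h
  exact ev_of_R ⟨R, hR, fun x hx => h1 (by rwa [dist_zero_right])⟩

end small

/-! ### the embedding near `0` -/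

section Zm

variable {m d : ℕ}

theorem Zm_near (hEVA : SpecEVA) (hCNV : SpecCNV) {φ : Fin d → PS (Ki m d)} (hφ : IsPhi φ) :
    ∀ᶠ y in 𝓝 (0 : Ki m d → ℝ), (∀ j, Zm φ y (Sum.inl j) =
        (y (Sum.inl (Sum.inl j)) : ℂ) + Complex.I * (y (Sum.inl (Sum.inr j)) : ℂ)) ∧
      ∀ l, Zm φ y (Sum.inr l) = (y (Sum.inr l) : ℂ) + Complex.I * ev (φ l) (rl y) := by
  obtain ⟨-, H2, H3, H4, -⟩ := hEVA (Ki m d)
  obtain ⟨K1, K2, K3, -⟩ := hCNV.1 ℂ (fun c : ℂ => ‖c‖) hCNV.2 (Ki m d)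
  have hCI : ∀ f : PS (Ki m d), Conv f → Conv (C Complex.I * f) := fun f hf =>
    (K1 _ _ (K2 Complex.I) hf).2.1
  refine Filter.Eventually.and ?_ ?_
  · refine eventually_all.2 fun j => ?_
    refine ev_of_nhds (P := fun x => ev (Zs φ (Sum.inl j)) x =
      x (Sum.inl (Sum.inl j)) + Complex.I * x (Sum.inl (Sum.inr j))) ?_
    filter_upwards [H2 (X (Sum.inl (Sum.inl j))) (C Complex.I * X (Sum.inl (Sum.inr j))) (K3 _)
      (hCI _ (K3 _)), H2 (C Complex.I) (X (Sum.inl (Sum.inr j))) (K2 _) (K3 _)] with x h1 h2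
    change ev (X (Sum.inl (Sum.inl j)) + C Complex.I * X (Sum.inl (Sum.inr j))) x = _
    rw [h1.1, h2.2.1, H3, H4, H4]
  · refine eventually_all.2 fun l => ?_
    refine ev_of_nhds (P := fun x => ev (Zs φ (Sum.inr l)) x =
      x (Sum.inr l) + Complex.I * ev (φ l) x) ?_
    filter_upwards [H2 (X (Sum.inr l)) (C Complex.I * φ l) (K3 _) (hCI _ (hφ.conv l)),
      H2 (C Complex.I) (φ l) (K2 _) (hφ.conv l)] with x h1 h2
    change ev (X (Sum.inr l) + C Complex.I * φ l) x = _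
    rw [h1.1, h2.2.1, H3, H4]

/-- the value of `zz` at `± 1`, evaluated -/
theorem ev_lin (hEVA : SpecEVA) (hCNV : SpecCNV) (j : Fin m) (c : ℂ) :
    ∀ᶠ p in 𝓝 (0 : Pk m d → ℝ), ev (X (Sum.inl (Sum.inl ())) *
      ((X (Sum.inr (Sum.inl j)) + C Complex.I * X (Sum.inr (Sum.inr j))) * C c) : PS (Pk m d))
      (rl p) = (p (Sum.inl (Sum.inl ())) : ℂ) *
        (((p (Sum.inr (Sum.inl j)) : ℂ) + Complex.I * (p (Sum.inr (Sum.inr j)) : ℂ)) * c) := by
  obtain ⟨-, H2, H3, H4, -⟩ := hEVA (Pk m d)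
  obtain ⟨K1, K2, K3, -⟩ := hCNV.1 ℂ (fun c : ℂ => ‖c‖) hCNV.2 (Pk m d)
  have c1 : Conv (C Complex.I * X (Sum.inr (Sum.inr j)) : PS (Pk m d)) :=
    (K1 _ _ (K2 Complex.I) (K3 _)).2.1
  have c2 : Conv (X (Sum.inr (Sum.inl j)) + C Complex.I * X (Sum.inr (Sum.inr j)) : PS (Pk m d)) :=
    (K1 _ _ (K3 _) c1).1
  have c3 : Conv ((X (Sum.inr (Sum.inl j)) + C Complex.I * X (Sum.inr (Sum.inr j))) * C c :
    PS (Pk m d)) := (K1 _ _ c2 (K2 c)).2.1
  refine ev_of_nhds (P := fun x => ev (X (Sum.inl (Sum.inl ())) *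
      ((X (Sum.inr (Sum.inl j)) + C Complex.I * X (Sum.inr (Sum.inr j))) * C c) : PS (Pk m d)) x =
      x (Sum.inl (Sum.inl ())) * ((x (Sum.inr (Sum.inl j)) + Complex.I * x (Sum.inr (Sum.inr j))) *
        c)) ?_
  filter_upwards [H2 _ _ (K3 (Sum.inl (Sum.inl ()))) c3, H2 _ _ c2 (K2 c),
    H2 _ _ (K3 (Sum.inr (Sum.inl j))) c1, H2 _ _ (K2 Complex.I) (K3 (Sum.inr (Sum.inr j)))] with x
    h1 h2 h3 h4
  rw [h1.2.1, h2.2.1, h3.1, h4.2.1, H3, H3, H4, H4, H4]

theorem ev_sq (hEVA : SpecEVA) (hCNV : SpecCNV) {f : PS (Pk m d)} (hf : Conv f) :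
    ∀ᶠ p in 𝓝 (0 : Pk m d → ℝ), ev (X (Sum.inl (Sum.inl ())) ^ 2 * f) (rl p) =
      (p (Sum.inl (Sum.inl ())) : ℂ) ^ 2 * ev f (rl p) := by
  obtain ⟨-, H2, H3, H4, -⟩ := hEVA (Pk m d)
  obtain ⟨K1, K2, K3, -⟩ := hCNV.1 ℂ (fun c : ℂ => ‖c‖) hCNV.2 (Pk m d)
  have c1 : Conv (X (Sum.inl (Sum.inl ())) * X (Sum.inl (Sum.inl ())) : PS (Pk m d)) :=
    (K1 _ _ (K3 _) (K3 _)).2.1
  refine ev_of_nhds (P := fun x => ev (X (Sum.inl (Sum.inl ())) ^ 2 * f) x =
    x (Sum.inl (Sum.inl ())) ^ 2 * ev f x) ?_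
  filter_upwards [H2 _ _ c1 hf, H2 _ _ (K3 (Sum.inl (Sum.inl ()))) (K3 (Sum.inl (Sum.inl ())))] with
    x h1 h2
  rw [pow_two, h1.2.1, h2.2.1, H4, pow_two]

theorem ev_real (hEVA : SpecEVA) {κ : Type} [Fintype κ] [DecidableEq κ] {f : PS κ} (hf : cj f = f)
    (p : κ → ℝ) : ev f (rl p) = ((ev f (rl p)).re : ℂ) := by
  obtain ⟨-, -, -, -, -, H6, -⟩ := hEVA κ
  have h := H6 f (rl p)
  rw [hf] at h
  have h1 : (fun i => conj (rl p i)) = rl p := by
    funext i
    exact Complex.conj_ofReal _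
  rw [h1] at h
  exact (Complex.conj_eq_iff_re.1 h.symm).symm

theorem Z0_subst {κ ι S : Type} [CommRing S] [Algebra ℂ S] [Finite κ] {f : PS κ}
    {a : κ → MvPowerSeries ι S} (hf : Z0 f) (ha : ∀ i, Z0 (a i)) : Z0 (f.subst a) := by
  have hs : HasSubst a := hasSubst_of_constantCoeff_zero ha
  exact constantCoeff_subst_eq_zero hs ha hf

end Zm

end

end Pool.Agent.Lib.MP_2184e2_an.Loc.DiscM

namespace Pool.Agent.Lib.MP_2184e2_an.Loc

open MvPowerSeries Filter Topology Set DiscM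
open scoped ContDiff LaurentPolynomial ComplexConjugate

noncomputable section

theorem specDISC (hLNM : SpecLNM) (hBSH : SpecBSH) (hSOLV : SpecSOLV) (hEVM : SpecEVM)
    (hEVA : SpecEVA) (hCNV : SpecCNV) (hCNS : SpecCNS) : SpecDISC := by
  intro m d φ hφ hsp η hη
  obtain ⟨a, ha⟩ := hsp
  have hLNM' := hLNM
  obtain ⟨hN, ⟨st, hst⟩, ⟨T1, hT1⟩, hstp, hT1p, -, -, -⟩ := hLNM'
  have hz : ∀ j, ConvN nL (zz a j) ∧ Z0 (zz a j) := fun j => ⟨conv_zz hCNV hN a j, Z0_zz a j⟩
  obtain ⟨s, hs, hsr, hsn⟩ := hBSH m d φ hφ st hst T1 hT1 (Pk m d) (zz a) hz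
  obtain ⟨W, hW, hW2, hW3⟩ := hSOLV m d φ hφ st hst T1 hT1 a s hs hsr
  have hL : (Matrix.of fun i l : Fin d => 16 * lev φ (a i) l).det ≠ 0 := by
    have h1 : (Matrix.of fun i l : Fin d => 16 * lev φ (a i) l) =
        (16 : ℝ) • Matrix.of fun i l : Fin d => lev φ (a i) l := by
      ext i l
      rfl
    rw [h1, Matrix.det_smul]
    exact mul_ne_zero (by positivity) ha
  -- the arguments
  have cst : ∀ f : MvPowerSeries (Pk m d) ℂ[T;T⁻¹], ConvN nL f → ConvN nL (MvPowerSeries.map st f) := by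
    rintro f ⟨B, hB, hf⟩
    refine ⟨B, hB, fun n => ?_⟩
    rw [coeff_map, (hstp st hst).1]
    exact hf n
  have zst : ∀ f : MvPowerSeries (Pk m d) ℂ[T;T⁻¹], Z0 f → Z0 (MvPowerSeries.map st f) := by
    intro f hf
    unfold Z0 at hf ⊢
    rw [constantCoeff_map, hf, map_zero]
  have cB : ∀ i, ConvN nL (argB st (zz a) s i) ∧ Z0 (argB st (zz a) s i) := by
    rintro ((j | j) | l)
    · refine ⟨cmul hCNV hN (cC hCNV hN _) (cadd hCNV hN (hz j).1 (cst _ (hz j).1)), ?_⟩
      change constantCoeff (C _ * (zz a j + MvPowerSeries.map st (zz a j))) = 0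
      rw [map_mul, map_add, (hz j).2, zst _ (hz j).2, add_zero, mul_zero]
    · refine ⟨cmul hCNV hN (cC hCNV hN _) (csub hCNV hN (hz j).1 (cst _ (hz j).1)), ?_⟩
      change constantCoeff (C _ * (zz a j - MvPowerSeries.map st (zz a j))) = 0
      rw [map_mul, map_sub, (hz j).2, zst _ (hz j).2, sub_zero, mul_zero]
    · exact ⟨hs.conv l, hs.zero l⟩
  have cφ : ∀ l, ConvN nL ((φ l).subst (argB st (zz a) s)) := fun l =>
    hCNS _ nL hN _ _ (φ l) _ (hφ.conv l) cB
  have zφ : ∀ l, Z0 ((φ l).subst (argB st (zz a) s)) := fun l =>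
    Z0_subst (hφ.zero l) fun i => (cB i).2
  set w : Fin d → MvPowerSeries (Pk m d) ℂ[T;T⁻¹] := fun l =>
    s l + C (LaurentPolynomial.C Complex.I) * (φ l).subst (argB st (zz a) s) with hw
  have cIφ : ∀ l, ConvN nL (C (LaurentPolynomial.C Complex.I) * (φ l).subst (argB st (zz a) s)) :=
    fun l => cmul hCNV hN (cC hCNV hN _) (cφ l)
  have cw : ∀ l, ConvN nL (w l) := fun l => cadd hCNV hN (hs.conv l) (cIφ l)
  have zw : ∀ l, Z0 (w l) := by
    intro l
    change constantCoeff (s l + C (LaurentPolynomial.C Complex.I) *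
      (φ l).subst (argB st (zz a) s)) = 0
    rw [map_add, map_mul, hs.zero l, zφ l, mul_zero, add_zero]
  obtain ⟨M1, M2, M3, M4, -, M6, -, -, M9⟩ := hEVM (Pk m d)
  obtain ⟨η', hη', hZ⟩ := Metric.eventually_nhds_iff.1
    ((Zm_near hEVA hCNV hφ).and (Metric.ball_mem_nhds (0 : Ki m d → ℝ) hη))
  simp only [dist_zero_right] at hZ
  -- small parameters
  have U1 : ∀ᶠ p in 𝓝 (0 : Pk m d → ℝ), ∀ j,
      DifferentiableOn ℂ (evM (zz a j) (rl p)) (Metric.ball 0 64) :=
    eventually_all.2 fun j => (ev_of_R (M1 _ (hz j).1)).mono fun p hp => hp.2 (In_zz a j).nn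
  have U2 : ∀ᶠ p in 𝓝 (0 : Pk m d → ℝ), ∀ l,
      DifferentiableOn ℂ (evM (w l) (rl p)) (Metric.ball 0 64) :=
    eventually_all.2 fun l => (ev_of_R (M1 _ (cw l))).mono fun p hp => hp.2 (hsn l)
  have hmin : 0 < min η η' := lt_min hη hη'
  have U3 : ∀ᶠ p in 𝓝 (0 : Pk m d → ℝ), ∀ j, ∀ ζ : ℂ, ‖ζ‖ ≤ 64 →
      ‖evM (zz a j) (rl p) ζ‖ < min η η' :=
    eventually_all.2 fun j => (ev_of_R (M2 _ (hz j).1 (hz j).2 _ hmin)).mono
      fun p hp ζ hζ => hp ζ hζ (Or.inr (In_zz a j).nn)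
  have U4 : ∀ᶠ p in 𝓝 (0 : Pk m d → ℝ), ∀ l, ∀ ζ : ℂ, ‖ζ‖ ≤ 64 →
      ‖evM (w l) (rl p) ζ‖ < min η η' :=
    eventually_all.2 fun l => (ev_of_R (M2 _ (cw l) (zw l) _ hmin)).mono
      fun p hp ζ hζ => hp ζ hζ (Or.inr (hsn l))
  have U5 : ∀ᶠ p in 𝓝 (0 : Pk m d → ℝ), ∀ l, ∀ ζ : ℂ, ‖ζ‖ ≤ 64 → 1 / 64 ≤ ‖ζ‖ →
      ‖evM (s l) (rl p) ζ‖ < min η η' :=
    eventually_all.2 fun l => (ev_of_R (M2 _ (hs.conv l) (hs.zero l) _ hmin)).mono
      fun p hp ζ hζ hζ2 => hp ζ hζ (Or.inl hζ2)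
  have U6 : ∀ᶠ p in 𝓝 (0 : Pk m d → ℝ), ∀ l, ∀ ζ : ℂ, 1 / 64 ≤ ‖ζ‖ → ‖ζ‖ ≤ 64 →
      evM (w l) (rl p) ζ = evM (s l) (rl p) ζ +
        Complex.I * ev (φ l) fun i => evM (argB st (zz a) s i) (rl p) ζ := by
    refine eventually_all.2 fun l => ?_
    filter_upwards [ev_of_R (M3 _ _ (hs.conv l) (cIφ l)),
      ev_of_R (M3 _ _ (cC hCNV hN (LaurentPolynomial.C Complex.I)) (cφ l)),
      ev_of_R (M6 _ (φ l) _ (hφ.conv l) cB)] with p h1 h2 h3 ζ hζ1 hζ2
    change evM (s l + C (LaurentPolynomial.C Complex.I) *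
      (φ l).subst (argB st (zz a) s)) (rl p) ζ = _
    rw [(h1 ζ hζ1 hζ2).1, (h2 ζ hζ1 hζ2).2.1, h3 ζ hζ1 hζ2, M4]
    have hζ0 : ζ ≠ 0 := by
      rintro rfl
      rw [norm_zero] at hζ1
      norm_num at hζ1
    rw [((hLNM.2.2.2.2.2.1 ζ hζ0).2.2.1 Complex.I)]
  have U7 : ∀ᶠ p in 𝓝 (0 : Pk m d → ℝ), ∀ j, ∀ ζ : ℂ, ‖ζ‖ = 1 →
      evM (argB st (zz a) s (Sum.inl (Sum.inl j))) (rl p) ζ = ((evM (zz a j) (rl p) ζ).re : ℂ) := by
    refine eventually_all.2 fun j => ?_
    filter_upwards [ev_of_R (M3 _ _ (cC hCNV hN (LaurentPolynomial.C (1 / 2)))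
      (cadd hCNV hN (hz j).1 (cst _ (hz j).1))),
      ev_of_R (M3 _ _ (hz j).1 (cst _ (hz j).1))] with p h1 h2 ζ hζ
    have hζ1 : 1 / 64 ≤ ‖ζ‖ := by rw [hζ]; norm_num
    have hζ2 : ‖ζ‖ ≤ 64 := by rw [hζ]; norm_num
    have hζ0 : ζ ≠ 0 := by
      rintro rfl
      rw [norm_zero] at hζ
      exact zero_ne_one hζ
    change evM (C (LaurentPolynomial.C (1 / 2)) * (zz a j + MvPowerSeries.map st (zz a j)))
      (rl p) ζ = _
    rw [(h1 ζ hζ1 hζ2).2.1, (h2 ζ hζ1 hζ2).1, M4, ((M9 st hst _ ζ hζ).2 p),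
      ((hLNM.2.2.2.2.2.1 ζ hζ0).2.2.1 (1 / 2)), Complex.add_conj]
    push_cast
    ring
  have U8 : ∀ᶠ p in 𝓝 (0 : Pk m d → ℝ), ∀ j, ∀ ζ : ℂ, ‖ζ‖ = 1 →
      evM (argB st (zz a) s (Sum.inl (Sum.inr j))) (rl p) ζ = ((evM (zz a j) (rl p) ζ).im : ℂ) := by
    refine eventually_all.2 fun j => ?_
    have cneg : ConvN nL (-MvPowerSeries.map st (zz a j)) :=
      ((hCNV.1 _ nL hN _).1 _ _ (cst _ (hz j).1) (cst _ (hz j).1)).2.2.1
    filter_upwards [ev_of_R (M3 _ _ (cC hCNV hN (LaurentPolynomial.C (-Complex.I / 2)))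
      (cadd hCNV hN (hz j).1 cneg)),
      ev_of_R (M3 _ _ (hz j).1 cneg),
      ev_of_R (M3 _ _ (cst _ (hz j).1) (cst _ (hz j).1))] with p h1 h2 h3 ζ hζ
    have hζ1 : 1 / 64 ≤ ‖ζ‖ := by rw [hζ]; norm_num
    have hζ2 : ‖ζ‖ ≤ 64 := by rw [hζ]; norm_num
    have hζ0 : ζ ≠ 0 := by
      rintro rfl
      rw [norm_zero] at hζ
      exact zero_ne_one hζ
    change evM (C (LaurentPolynomial.C (-Complex.I / 2)) *
      (zz a j - MvPowerSeries.map st (zz a j))) (rl p) ζ = _
    rw [sub_eq_add_neg, (h1 ζ hζ1 hζ2).2.1, (h2 ζ hζ1 hζ2).1, (h3 ζ hζ1 hζ2).2.2, M4,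
      ((M9 st hst _ ζ hζ).2 p), ((hLNM.2.2.2.2.2.1 ζ hζ0).2.2.1 (-Complex.I / 2)),
      ← sub_eq_add_neg, Complex.sub_conj]
    have hI : Complex.I * Complex.I = -1 := Complex.I_mul_I
    push_cast
    linear_combination (-((evM (zz a j) (rl p) ζ).im : ℂ)) * hI
  have U9 : ∀ᶠ p in 𝓝 (0 : Pk m d → ℝ), ∀ j, evM (zz a j) (rl p) 1 = 0 ∧
      evM (zz a j) (rl p) (-1) = (p (Sum.inl (Sum.inl ())) : ℂ) *
        ((p (Sum.inr (Sum.inl j)) : ℂ) + Complex.I * (p (Sum.inr (Sum.inr j)) : ℂ)) := by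
    refine eventually_all.2 fun j => ?_
    filter_upwards [ev_lin hEVA hCNV (d := d) j ((1 - 1) / 2),
      ev_lin hEVA hCNV (d := d) j ((1 - -1) / 2)] with p h1 h2
    constructor
    · unfold evM
      rw [evS_zz hLNM a j 1 one_ne_zero (by norm_num), h1]
      ring
    · unfold evM
      rw [evS_zz hLNM a j (-1) (by norm_num) (by norm_num), h2]
      ring
  have U10 : ∀ᶠ p in 𝓝 (0 : Pk m d → ℝ), ∀ l, evM (s l) (rl p) (-1) =
      (p (Sum.inl (Sum.inl ())) : ℂ) ^ 2 * ((ev (W l) (rl p)).re : ℂ) := by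
    refine eventually_all.2 fun l => ?_
    filter_upwards [ev_sq hEVA hCNV (hW l).1] with p h1
    unfold evM
    rw [hW2 l, h1, ev_real hEVA (hW l).2.2 p]
    simp only [Complex.ofReal_re]
  have hs1 : ∀ (l) (x : Pk m d → ℂ), evM (s l) x 1 = 0 := by
    intro l x
    have h1 : evS 1 (s l) = 0 := by
      ext n
      change evL 1 (coeff n (s l)) = _
      rw [hs.eq l]
      have h2 : coeff n (-mapA T1 ((φ l).subst (argB st (zz a) s))) =
          -(T1 (coeff n ((φ l).subst (argB st (zz a) s)))) := by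
        rw [map_neg]
        rfl
      have h3 : evL 1 (-(T1 (coeff n ((φ l).subst (argB st (zz a) s))))) =
          -evL 1 (T1 (coeff n ((φ l).subst (argB st (zz a) s)))) :=
        map_neg (evH hLNM 1 one_ne_zero) _
      rw [h2, h3, (hT1p T1 hT1).2.1, neg_zero, map_zero]
    unfold evM
    rw [h1]
    unfold ev
    simp
  have hU := ((((((((U1.and U2).and U3).and U4).and U5).and U6).and U7).and U8).and U9).and U10
  obtain ⟨r, hr, hsolve⟩ := solve W hEVA (fun l => (hW l).1) (fun l => (hW l).2.1) _ hL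
    (fun i l => hW3 i l) hU
  have hZm0 : Zm φ 0 = 0 := by
    have h := (hZ (y := 0) (by rw [norm_zero]; exact hη')).1
    have h0 : (rl (0 : Ki m d → ℝ) : Ki m d → ℂ) = 0 := by
      funext k
      simp [rl]
    funext i
    rcases i with j | l
    · rw [h.1 j]
      simp
    · rw [h.2 l, h0, ev_zero, hφ.zero l]
      simp
  refine ⟨min r η', lt_min hr hη', fun x hx => ?_⟩
  by_cases hx0 : x = 0
  · subst hx0
    refine ⟨fun _ => 0, differentiableOn_const _, fun ζ _ => ?_, rfl, hZm0.symm, fun ζ _ =>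
      ⟨0, ?_, hZm0.symm⟩⟩
    · rw [norm_zero]; exact hη
    · rw [norm_zero]; exact hη
  obtain ⟨p, ⟨⟨⟨⟨⟨⟨⟨⟨⟨u1, u2⟩, u3⟩, u4⟩, u5⟩, u6⟩, u7⟩, u8⟩, u9⟩, u10⟩, q1, q2, q3⟩ :=
    hsolve x (hx.trans_le (min_le_left _ _)) hx0
  set A : ℂ → Zi m d → ℂ := fun ζ => Sum.elim (fun j => evM (zz a j) (rl p) ζ)
    fun l => evM (w l) (rl p) ζ with hA
  set y : ℂ → Ki m d → ℝ := fun ζ => Sum.elim (Sum.elim (fun j => (evM (zz a j) (rl p) ζ).re)
    fun j => (evM (zz a j) (rl p) ζ).im) fun l => (evM (s l) (rl p) ζ).re with hy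
  have hcirc : ∀ ζ : ℂ, ‖ζ‖ = 1 → ‖y ζ‖ < min η η' ∧ A ζ = Zm φ (y ζ) := by
    intro ζ hζ
    have hζ1 : 1 / 64 ≤ ‖ζ‖ := by rw [hζ]; norm_num
    have hζ2 : ‖ζ‖ ≤ 64 := by rw [hζ]; norm_num
    have hyn : ‖y ζ‖ < min η η' := by
      rw [pi_norm_lt_iff hmin]
      rintro ((j | j) | l)
      · exact (Complex.abs_re_le_norm _).trans_lt (u3 j ζ hζ2)
      · exact (Complex.abs_im_le_norm _).trans_lt (u3 j ζ hζ2)
      · exact (Complex.abs_re_le_norm _).trans_lt (u5 l ζ hζ2 hζ1)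
    refine ⟨hyn, ?_⟩
    have hZ1 := (hZ (y := y ζ) (hyn.trans_le (min_le_right _ _))).1
    have hsre : ∀ l, evM (s l) (rl p) ζ = ((evM (s l) (rl p) ζ).re : ℂ) := by
      intro l
      have h1 := (M9 st hst (s l) ζ hζ).2 p
      rw [hsr l] at h1
      exact (Complex.conj_eq_iff_re.1 h1.symm).symm
    have harg : (fun i => evM (argB st (zz a) s i) (rl p) ζ) = rl (y ζ) := by
      funext i
      rcases i with (j | j) | l
      · exact u7 j ζ hζ
      · exact u8 j ζ hζ
      · exact hsre l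
    funext i
    rcases i with j | l
    · rw [hZ1.1 j]
      change evM (zz a j) (rl p) ζ = _
      conv_lhs => rw [← Complex.re_add_im (evM (zz a j) (rl p) ζ)]
      rw [mul_comm Complex.I]
      rfl
    · rw [hZ1.2 l]
      change evM (w l) (rl p) ζ = _
      rw [u6 l ζ hζ1 hζ2, harg, hsre l]
      rfl
  have hy1 : y 1 = 0 := by
    funext i
    rcases i with (j | j) | l
    · change (evM (zz a j) (rl p) 1).re = 0
      rw [(u9 j).1, Complex.zero_re]
    · change (evM (zz a j) (rl p) 1).im = 0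
      rw [(u9 j).1, Complex.zero_im]
    · change (evM (s l) (rl p) 1).re = 0
      rw [hs1, Complex.zero_re]
  have hy2 : y (-1) = x := by
    have e1 : ∀ j, evM (zz a j) (rl p) (-1) =
        (x (Sum.inl (Sum.inl j)) : ℂ) + Complex.I * (x (Sum.inl (Sum.inr j)) : ℂ) := by
      intro j
      rw [(u9 j).2, ← q1 j, ← q2 j]
      push_cast
      ring
    funext i
    rcases i with (j | j) | l
    · change (evM (zz a j) (rl p) (-1)).re = _
      rw [e1 j]
      simp
    · change (evM (zz a j) (rl p) (-1)).im = _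
      rw [e1 j]
      simp
    · change (evM (s l) (rl p) (-1)).re = _
      rw [u10 l, ← q3 l]
      norm_cast
  refine ⟨A, ?_, fun ζ hζ => ?_, ?_, ?_, fun ζ hζ => ⟨y ζ, ?_, (hcirc ζ hζ).2⟩⟩
  · rw [differentiableOn_pi]
    rintro (j | l)
    · exact u1 j
    · exact u2 l
  · rw [pi_norm_lt_iff hη]
    rintro (j | l)
    · exact (u3 j ζ hζ.le).trans_le (min_le_left _ _)
    · exact (u4 l ζ hζ.le).trans_le (min_le_left _ _)
  · rw [(hcirc 1 norm_one).2, hy1, hZm0]
  · rw [(hcirc (-1) (by rw [norm_neg, norm_one])).2, hy2]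
  · exact (hcirc ζ hζ).1.trans_le (min_le_left _ _)

end

end Pool.Agent.Lib.MP_2184e2_an.Loc
end

section
/-!
# Module EVA: convergent power series as functions
-/
set_option autoImplicit false

namespace Pool.Agent.Lib.MP_2184e2_an.Loc

open MvPowerSeries Filter Topology Set
open scoped ContDiff ComplexConjugate

noncomputable section

namespace EvaM

variable {ι : Type}

/-- monomials as functions -/
def mon {R : Type} [CommMonoid R] (n : ι →₀ ℕ) (x : ι → R) : R := n.prod fun i k => x i ^ k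

theorem mon_zero {R : Type} [CommMonoid R] (x : ι → R) : mon (0 : ι →₀ ℕ) x = 1 :=
  Finsupp.prod_zero_index

theorem mon_add {R : Type} [CommMonoid R] (n m : ι →₀ ℕ) (x : ι → R) :
    mon (n + m) x = mon n x * mon m x := by
  classical
  exact Finsupp.prod_add_index' (fun _ => pow_zero _) (fun _ _ _ => pow_add _ _ _)

theorem mon_single {R : Type} [CommMonoid R] (i : ι) (k : ℕ) (x : ι → R) :
    mon (Finsupp.single i k) x = x i ^ k := Finsupp.prod_single_index (pow_zero _)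

theorem mon_fintype [Fintype ι] {R : Type} [CommMonoid R] (n : ι →₀ ℕ) (x : ι → R) :
    mon n x = ∏ i, x i ^ n i := Finsupp.prod_fintype _ _ fun _ => pow_zero _

theorem degree_fintype [Fintype ι] (n : ι →₀ ℕ) : n.degree = ∑ i, n i := by
  exact Finsupp.degree_eq_sum n

theorem degree_single' (i : ι) (k : ℕ) : (Finsupp.single i k).degree = k :=
  Finsupp.degree_single i k

theorem norm_mon_le (n : ι →₀ ℕ) {x : ι → ℂ} {r : ℝ} (hx : ∀ i, ‖x i‖ ≤ r) :
    ‖mon n x‖ ≤ r ^ n.degree := by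
  classical
  induction n using Finsupp.induction_linear with
  | zero => simp [mon_zero]
  | add n m hn hm =>
    rw [mon_add, norm_mul, map_add, pow_add]
    exact mul_le_mul hn hm (norm_nonneg _) ((norm_nonneg _).trans hn)
  | single i k =>
    rw [mon_single, norm_pow, degree_single']
    exact pow_le_pow_left₀ (norm_nonneg _) (hx i) k

theorem ev_eq (f : PS ι) (x : ι → ℂ) : ev f x = ∑' n, coeff n f * mon n x := rfl

section Fin

variable [Fintype ι]

/-- geometric series in several variables -/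
theorem summable_geo {r : ℝ} (h0 : 0 ≤ r) (h1 : r < 1) :
    Summable fun n : ι →₀ ℕ => r ^ n.degree := by
  classical
  have key : Summable fun g : ι → ℕ => ∏ i, r ^ g i := by
    refine summable_of_sum_le (c := (∏ _i : ι, (1 - r)⁻¹)) (fun g => Finset.prod_nonneg
      fun i _ => pow_nonneg h0 _) fun s => ?_
    obtain ⟨K, hK⟩ : ∃ K : ℕ, ∀ g ∈ s, ∀ i, g i < K := by
      refine ⟨(∑ g ∈ s, ∑ i, g i) + 1, fun g hg i => ?_⟩
      have h1 : g i ≤ ∑ i, g i := Finset.single_le_sum (fun _ _ => Nat.zero_le _)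
        (Finset.mem_univ i)
      have h2 : (∑ i, g i) ≤ ∑ g ∈ s, ∑ i, g i :=
        Finset.single_le_sum (f := fun g : ι → ℕ => ∑ i, g i) (fun _ _ => Nat.zero_le _) hg
      omega
    have hsub : s ⊆ Fintype.piFinset fun _ : ι => Finset.range K := by
      intro g hg
      rw [Fintype.mem_piFinset]
      exact fun i => Finset.mem_range.2 (hK g hg i)
    calc ∑ g ∈ s, ∏ i, r ^ g i ≤ ∑ g ∈ Fintype.piFinset fun _ : ι => Finset.range K,
          ∏ i, r ^ g i :=
          Finset.sum_le_sum_of_subset_of_nonneg hsub fun g _ _ => Finset.prod_nonneg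
            fun i _ => pow_nonneg h0 _
      _ = ∏ _i : ι, ∑ k ∈ Finset.range K, r ^ k := (Finset.prod_univ_sum _ _).symm
      _ ≤ ∏ _i : ι, (1 - r)⁻¹ := by
          refine Finset.prod_le_prod (fun _ _ => Finset.sum_nonneg fun k _ => pow_nonneg h0 _)
            fun _ _ => ?_
          rw [← tsum_geometric_of_lt_one h0 h1]
          exact (summable_geometric_of_lt_one h0 h1).sum_le_tsum _ fun k _ => pow_nonneg h0 _
  have h2 := (Finsupp.equivFunOnFinite : (ι →₀ ℕ) ≃ (ι → ℕ)).summable_iff.2 key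
  refine h2.congr fun n => ?_
  simp only [Function.comp_apply, Finsupp.equivFunOnFinite_apply]
  rw [Finset.prod_pow_eq_pow_sum, degree_fintype]

/-- the convergence radius in the form of a summable majorant -/
theorem exists_major {f : PS ι} (hf : Conv f) : ∃ r : ℝ, 0 < r ∧
    Summable fun n : ι →₀ ℕ => ‖coeff n f‖ * r ^ n.degree := by
  obtain ⟨C, hC, h⟩ := hf
  refine ⟨1 / (2 * C), by positivity, ?_⟩
  refine Summable.of_nonneg_of_le (fun n => by positivity) (fun n => ?_)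
    ((summable_geo (ι := ι) (r := 1 / 2) (by norm_num) (by norm_num)).mul_left C)
  have h1 := h n
  simp only at h1
  calc ‖coeff n f‖ * (1 / (2 * C)) ^ n.degree
      ≤ C ^ (n.degree + 1) * (1 / (2 * C)) ^ n.degree := by gcongr
    _ = C * (1 / 2) ^ n.degree := by
        rw [pow_succ, one_div, one_div, mul_inv, mul_pow]
        have : C ^ n.degree * (C⁻¹) ^ n.degree = 1 := by
          rw [← mul_pow, mul_inv_cancel₀ hC.ne', one_pow]
        calc C ^ n.degree * C * ((2⁻¹ : ℝ) ^ n.degree * C⁻¹ ^ n.degree)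
            = C * (2⁻¹ : ℝ) ^ n.degree * (C ^ n.degree * C⁻¹ ^ n.degree) := by ring
          _ = C * (2⁻¹ : ℝ) ^ n.degree := by rw [this, mul_one]

omit [Fintype ι] in
theorem summable_norm_ev {f : PS ι} {r : ℝ}
    (hs : Summable fun n : ι →₀ ℕ => ‖coeff n f‖ * r ^ n.degree) {x : ι → ℂ}
    (hx : ∀ i, ‖x i‖ ≤ r) : Summable fun n : ι →₀ ℕ => ‖coeff n f * mon n x‖ := by
  refine Summable.of_nonneg_of_le (fun n => norm_nonneg _) (fun n => ?_) hs
  rw [norm_mul]
  exact mul_le_mul_of_nonneg_left (norm_mon_le n hx) (norm_nonneg _)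

theorem eventually_le {r : ℝ} (hr : 0 < r) : ∀ᶠ x in 𝓝 (0 : ι → ℂ), ∀ i, ‖x i‖ ≤ r := by
  have : ∀ᶠ x in 𝓝 (0 : ι → ℂ), ‖x‖ < r := by
    have := Metric.ball_mem_nhds (0 : ι → ℂ) hr
    filter_upwards [this] with x hx
    simpa using hx
  filter_upwards [this] with x hx i
  exact (norm_le_pi_norm x i).trans hx.le

theorem ev_zero (f : PS ι) : ev f 0 = constantCoeff f := by
  classical
  rw [ev_eq, tsum_eq_single (0 : ι →₀ ℕ)]
  · rw [mon_zero, mul_one]
    rfl
  · intro n hn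
    obtain ⟨i, hi⟩ : ∃ i, n i ≠ 0 := by
      by_contra hcon
      push Not at hcon
      exact hn (Finsupp.ext hcon)
    rw [mon_fintype, Finset.prod_eq_zero (Finset.mem_univ i), mul_zero]
    simp [hi]

omit [Fintype ι] in
theorem ev_C (c : ℂ) (x : ι → ℂ) : ev (C c : PS ι) x = c := by
  classical
  rw [ev_eq, tsum_eq_single (0 : ι →₀ ℕ)]
  · rw [mon_zero, mul_one, coeff_zero_C]
  · intro n hn
    rw [coeff_C, if_neg hn, zero_mul]

omit [Fintype ι] in
theorem ev_X (i : ι) (x : ι → ℂ) : ev (X i : PS ι) x = x i := by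
  classical
  rw [ev_eq, tsum_eq_single (Finsupp.single i 1)]
  · rw [mon_single, pow_one, coeff_X, if_pos rfl, one_mul]
  · intro n hn
    rw [coeff_X, if_neg hn, zero_mul]

theorem ev_cj (f : PS ι) (x : ι → ℂ) : ev (cj f) (fun i => conj (x i)) = conj (ev f x) := by
  classical
  rw [ev_eq, ev_eq]
  have : conj (∑' n, coeff n f * mon n x) = ∑' n, conj (coeff n f * mon n x) := tsum_star
  rw [this]
  refine tsum_congr fun n => ?_
  rw [map_mul]
  congr 1
  rw [mon_fintype, mon_fintype, map_prod]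
  exact Finset.prod_congr rfl fun i _ => (map_pow _ _ _).symm

theorem cauchy {A : Type} [AddCommMonoid A] [Finset.HasAntidiagonal A] (f g : A → ℂ)
    (hf : Summable fun x => ‖f x‖) (hg : Summable fun x => ‖g x‖) :
    ((∑' n, f n) * ∑' n, g n) = ∑' n, ∑ kl ∈ Finset.HasAntidiagonal.antidiagonal n, f kl.1 * g kl.2 :=
  Summable.tsum_mul_tsum_eq_tsum_sum_antidiagonal hf.of_norm hg.of_norm
    (summable_mul_of_summable_norm hf hg)

theorem ev_ops {f g : PS ι} (hf : Conv f) (hg : Conv g) : ∀ᶠ x in 𝓝 (0 : ι → ℂ),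
      ev (f + g) x = ev f x + ev g x ∧ ev (f * g) x = ev f x * ev g x ∧ ev (-f) x = -ev f x := by
  classical
  obtain ⟨r, hr, hs⟩ := exists_major hf
  obtain ⟨r', hr', hs'⟩ := exists_major hg
  filter_upwards [eventually_le hr, eventually_le hr'] with x hx hx'
  have h1 := summable_norm_ev hs hx
  have h2 := summable_norm_ev hs' hx'
  refine ⟨?_, ?_, ?_⟩
  · rw [ev_eq, ev_eq, ev_eq, ← h1.of_norm.tsum_add h2.of_norm]
    refine tsum_congr fun n => ?_
    rw [map_add, add_mul]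
  · rw [ev_eq, ev_eq, ev_eq, cauchy (fun n => coeff n f * mon n x) (fun n => coeff n g * mon n x)
      h1 h2]
    refine tsum_congr fun n => ?_
    rw [coeff_mul, Finset.sum_mul]
    refine Finset.sum_congr rfl fun p hp => ?_
    rw [← Finset.HasAntidiagonal.mem_antidiagonal.1 hp, mon_add]
    ring
  · rw [ev_eq, ev_eq, ← tsum_neg]
    refine tsum_congr fun n => ?_
    rw [map_neg, neg_mul]

/-! ## Analyticity -/

omit [Fintype ι] in
theorem mon_list (n : ι →₀ ℕ) (x : ι → ℂ) : mon n x = ((Finsupp.toMultiset n).map x).prod := by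
  classical
  induction n using Finsupp.induction_linear with
  | zero => simp [mon_zero]
  | add n m hn hm => rw [mon_add, hn, hm, map_add, Multiset.map_add, Multiset.prod_add]
  | single i k =>
    rw [mon_single, Finsupp.toMultiset_single, Multiset.map_nsmul, Multiset.prod_nsmul,
      Multiset.map_singleton, Multiset.prod_singleton]

omit [Fintype ι] in
theorem exists_seq {k : ℕ} {n : ι →₀ ℕ} (h : n.degree = k) :
    ∃ s : Fin k → ι, ∀ x : ι → ℂ, mon n x = ∏ j, x (s j) := by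
  classical
  have hl : (Finsupp.toMultiset n).toList.length = k := by
    rw [Multiset.length_toList, Finsupp.card_toMultiset, ← h]
    rfl
  subst hl
  refine ⟨fun j => (Finsupp.toMultiset n).toList[j], fun x => ?_⟩
  have h1 := Fin.prod_univ_fun_getElem (Finsupp.toMultiset n).toList x
  refine Eq.trans ?_ h1.symm
  rw [mon_list]
  conv_lhs => rw [← Multiset.coe_toList (Finsupp.toMultiset n)]
  rw [Multiset.map_coe, Multiset.prod_coe]

theorem exists_mlin (k : ℕ) (n : ι →₀ ℕ) :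
    ∃ M : ContinuousMultilinearMap ℂ (fun _ : Fin k => ι → ℂ) ℂ,
      ‖M‖ ≤ 1 ∧ (n.degree = k → ∀ x : ι → ℂ, M (fun _ => x) = mon n x) := by
  by_cases h : n.degree = k
  swap
  · exact ⟨0, by simp, fun h' => (h h').elim⟩
  obtain ⟨s, hs⟩ := exists_seq h
  refine ⟨(ContinuousMultilinearMap.mkPiAlgebra ℂ (Fin k) ℂ).compContinuousLinearMap
    fun j => ContinuousLinearMap.proj (s j), ?_, fun _ x => ?_⟩
  · refine ContinuousMultilinearMap.opNorm_le_bound zero_le_one fun m => ?_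
    rw [ContinuousMultilinearMap.compContinuousLinearMap_apply,
      ContinuousMultilinearMap.mkPiAlgebra_apply, one_mul, norm_prod]
    exact Finset.prod_le_prod (fun _ _ => norm_nonneg _) fun j _ => norm_le_pi_norm (m j) (s j)
  · rw [ContinuousMultilinearMap.compContinuousLinearMap_apply,
      ContinuousMultilinearMap.mkPiAlgebra_apply, hs]
    rfl

theorem finite_deg (k : ℕ) : {n : ι →₀ ℕ | n.degree = k}.Finite := by
  classical
  refine (Finset.finsuppAntidiag (Finset.univ : Finset ι) k).finite_toSet.subset fun n hn => ?_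
  rw [Finset.mem_coe, Finset.mem_finsuppAntidiag]
  exact ⟨(degree_fintype n).symm.trans hn, Finset.subset_univ _⟩

theorem analyticAt_ev {f : PS ι} (hf : Conv f) : AnalyticAt ℂ (ev f) 0 := by
  classical
  obtain ⟨r, hr, hs⟩ := exists_major hf
  choose M hM1 hM2 using exists_mlin (ι := ι)
  let S : ℕ → Finset (ι →₀ ℕ) := fun k => (finite_deg k).toFinset
  have hS : ∀ k n, n ∈ S k ↔ n.degree = k := fun k n => by
    simp only [S, Set.Finite.mem_toFinset, Set.mem_ofPred_eq]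
  let p : FormalMultilinearSeries ℂ (ι → ℂ) ℂ := fun k => ∑ n ∈ S k, coeff n f • M k n
  have hp : ∀ k (y : ι → ℂ), (p k fun _ => y) = ∑ n ∈ S k, coeff n f * mon n y := by
    intro k y
    simp only [p]
    rw [_root_.sum_apply]
    refine Finset.sum_congr rfl fun n hn => ?_
    rw [_root_.smul_apply, hM2 k n ((hS k n).1 hn), smul_eq_mul]
  let r' : NNReal := ⟨r, hr.le⟩
  have hball : HasFPowerSeriesOnBall (ev f) p 0 (r' : ENNReal) := by
    refine ⟨p.le_radius_of_bound (∑' n : ι →₀ ℕ, ‖coeff n f‖ * r ^ n.degree) fun k => ?_, ?_,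
      fun {y} hy => ?_⟩
    · calc ‖p k‖ * r ^ k ≤ (∑ n ∈ S k, ‖coeff n f‖) * r ^ k := by
            refine mul_le_mul_of_nonneg_right ?_ (pow_nonneg hr.le _)
            refine (norm_sum_le _ _).trans (Finset.sum_le_sum fun n _ => ?_)
            rw [norm_smul]
            exact mul_le_of_le_one_right (norm_nonneg _) (hM1 k n)
        _ = ∑ n ∈ S k, ‖coeff n f‖ * r ^ n.degree := by
            rw [Finset.sum_mul]
            exact Finset.sum_congr rfl fun n hn => by rw [(hS k n).1 hn]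
        _ ≤ _ := hs.sum_le_tsum _ fun n _ => by positivity
    · exact_mod_cast hr
    · have hy' : ∀ i, ‖y i‖ ≤ r := by
        intro i
        have h1 : ‖y‖ < (r' : ℝ) := by simpa using hy
        have h2 : ‖y‖ < r := h1
        exact (norm_le_pi_norm y i).trans h2.le
      have h := (summable_norm_ev hs hy').of_norm.hasSum
      have h2 := (Equiv.sigmaFiberEquiv fun n : ι →₀ ℕ => n.degree).hasSum_iff.2 h
      rw [zero_add]
      refine h2.sigma fun k => ?_
      have : Fintype {n : ι →₀ ℕ // n.degree = k} := (finite_deg k).fintype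
      rw [hp, Finset.sum_subtype (S k) (hS k)]
      exact hasSum_fintype _
  exact hball.analyticAt

/-! ## Derivatives -/

theorem differentiable_mon (n : ι →₀ ℕ) : Differentiable ℂ fun x : ι → ℂ => mon n x := by
  simp only [mon_fintype]
  fun_prop

omit [Fintype ι] in
theorem mon_erase [DecidableEq ι] (n : ι →₀ ℕ) (i : ι) (x : ι → ℂ) :
    mon n x = x i ^ n i * mon (n.erase i) x := by
  conv_lhs => rw [← Finsupp.single_add_erase i n]
  rw [mon_add, mon_single]

omit [Fintype ι] in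
theorem mon_erase_line [DecidableEq ι] (n : ι →₀ ℕ) (i : ι) (x : ι → ℂ) (t : ℂ) :
    mon (n.erase i) (x + t • Pi.single i 1) = mon (n.erase i) x := by
  refine Finsupp.prod_congr fun j hj => ?_
  have hji : j ≠ i := by
    rintro rfl
    rw [Finsupp.mem_support_iff, Finsupp.erase_same] at hj
    exact hj rfl
  simp [hji]

omit [Fintype ι] in
theorem hasDerivAt_mon [DecidableEq ι] (n : ι →₀ ℕ) (i : ι) (x : ι → ℂ) :
    HasDerivAt (fun t : ℂ => mon n (x + t • Pi.single i 1))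
      (n i * x i ^ (n i - 1) * mon (n.erase i) x) 0 := by
  have h1 : (fun t : ℂ => mon n (x + t • Pi.single i 1)) =
      fun t : ℂ => (x i + t) ^ n i * mon (n.erase i) x := by
    funext t
    rw [mon_erase n i, mon_erase_line]
    simp
  rw [h1]
  have h2 : HasDerivAt (fun t : ℂ => x i + t) 1 0 := (hasDerivAt_id (0 : ℂ)).const_add (x i)
  have h3 := (h2.pow (n i)).mul_const (mon (n.erase i) x)
  simpa using h3

theorem ev_fderiv [DecidableEq ι] {f : PS ι} (hf : Conv f) (i : ι) : ∀ᶠ x in 𝓝 (0 : ι → ℂ),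
    fderiv ℂ (ev f) x (Pi.single i 1) = ev (pderiv ℂ i f) x := by
  obtain ⟨r, hr, hs⟩ := exists_major hf
  filter_upwards [eventually_le (ι := ι) (half_pos hr), (analyticAt_ev hf).eventually_analyticAt]
    with x hx hax
  have hline : HasDerivAt (fun t : ℂ => ev f (x + t • Pi.single i 1))
      (fderiv ℂ (ev f) x (Pi.single i 1)) 0 := by
    have h1 : HasFDerivAt (ev f) (fderiv ℂ (ev f) x) (x + (0 : ℂ) • Pi.single i 1) := by
      rw [zero_smul, add_zero]
      exact hax.differentiableAt.hasFDerivAt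
    have h2 : HasDerivAt (fun t : ℂ => x + t • (Pi.single i 1 : ι → ℂ)) (Pi.single i 1) 0 := by
      simpa using ((hasDerivAt_id (0 : ℂ)).smul_const (Pi.single i (1 : ℂ) : ι → ℂ)).const_add x
    exact h1.comp_hasDerivAt 0 h2
  have H := Complex.hasSum_deriv_of_summable_norm
    (F := fun n (t : ℂ) => coeff n f * mon n (x + t • (Pi.single i 1 : ι → ℂ)))
    (U := Metric.ball (0 : ℂ) (r / 2)) (z := 0) hs
    (fun n => ((differentiable_const _).mul ((differentiable_mon n).comp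
      (by fun_prop))).differentiableOn) Metric.isOpen_ball
    (fun n w hw => by
      rw [norm_mul]
      refine mul_le_mul_of_nonneg_left (norm_mon_le n fun j => ?_) (norm_nonneg _)
      have hw' : ‖w‖ < r / 2 := by simpa using hw
      have h3 : ‖(w • (Pi.single i 1 : ι → ℂ)) j‖ ≤ r / 2 := by
        rw [Pi.smul_apply, norm_smul]
        have : ‖(Pi.single i 1 : ι → ℂ) j‖ ≤ 1 := by
          by_cases hj : j = i
          · subst hj; simp
          · simp [hj]
        calc ‖w‖ * ‖(Pi.single i 1 : ι → ℂ) j‖ ≤ ‖w‖ * 1 := by gcongr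
          _ ≤ r / 2 := by rw [mul_one]; exact hw'.le
      calc ‖(x + w • (Pi.single i 1 : ι → ℂ)) j‖ ≤ ‖x j‖ + ‖(w • (Pi.single i 1 : ι → ℂ)) j‖ :=
            norm_add_le _ _
        _ ≤ r / 2 + r / 2 := add_le_add (hx j) h3
        _ = r := add_halves r) (Metric.mem_ball_self (half_pos hr))
  have e1 : deriv (fun w : ℂ => ∑' n, coeff n f * mon n (x + w • (Pi.single i 1 : ι → ℂ))) 0 =
      fderiv ℂ (ev f) x (Pi.single i 1) := hline.deriv
  have e2 : ∀ n : ι →₀ ℕ,
      deriv (fun t : ℂ => coeff n f * mon n (x + t • (Pi.single i 1 : ι → ℂ))) 0 =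
        coeff n f * (n i * x i ^ (n i - 1) * mon (n.erase i) x) := fun n =>
    ((hasDerivAt_mon n i x).const_mul (coeff n f)).deriv
  rw [e1] at H
  simp only [e2] at H
  have hinj : Function.Injective fun m : ι →₀ ℕ => m + Finsupp.single i 1 :=
    add_left_injective _
  have H2 := (hinj.hasSum_iff (fun n hn => by
    have hni : n i = 0 := by
      by_contra hne
      exact hn ⟨n - Finsupp.single i 1, tsub_add_cancel_of_le
        (Finsupp.single_le_iff.2 (Nat.one_le_iff_ne_zero.2 hne))⟩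
    rw [hni]
    simp)).2 H
  rw [← H2.tsum_eq, ev_eq]
  refine tsum_congr fun m => ?_
  have hm : (m + Finsupp.single i 1 : ι →₀ ℕ) i = m i + 1 := by simp
  have hm2 : (m + Finsupp.single i 1).erase i = m.erase i := by
    ext j
    by_cases hj : j = i
    · subst hj; simp
    · simp [hj, Finsupp.erase_ne]
  simp only [Function.comp_apply]
  rw [hm, hm2, coeff_pderiv, mon_erase m i]
  push_cast
  ring

/-! ## Uniqueness -/

omit [Fintype ι] in
theorem rl_zero : rl (0 : ι → ℝ) = 0 := by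
  funext k
  simp [rl]

omit [Fintype ι] in
theorem continuous_rl : Continuous (rl : (ι → ℝ) → ι → ℂ) :=
  continuous_pi fun k => Complex.continuous_ofReal.comp (continuous_apply k)

theorem ev_unique (hCNV : SpecCNV) [DecidableEq ι] (k : ℕ) : ∀ f : PS ι, Conv f →
    (∀ᶠ x in 𝓝 (0 : ι → ℝ), ev f (rl x) = 0) → ∀ n : ι →₀ ℕ, n.degree = k → coeff n f = 0 := by
  induction k with
  | zero =>
    intro f hf h0 n hn
    have h1 : n = 0 := by
      rwa [Finsupp.degree_eq_zero_iff] at hn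
    have h2 := h0.self_of_nhds
    rw [rl_zero, ev_zero] at h2
    rw [h1]
    exact h2
  | succ k ih =>
    intro f hf h0 n hn
    obtain ⟨i, hi⟩ : ∃ i, n i ≠ 0 := by
      by_contra hcon
      push Not at hcon
      have : n = 0 := Finsupp.ext hcon
      rw [this] at hn
      simp at hn
    obtain ⟨m, rfl⟩ : ∃ m, n = m + Finsupp.single i 1 :=
      ⟨n - Finsupp.single i 1, (tsub_add_cancel_of_le
        (Finsupp.single_le_iff.2 (Nat.one_le_iff_ne_zero.2 hi))).symm⟩
    have hm : m.degree = k := by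
      rw [map_add, degree_single'] at hn
      omega
    have hpd : Conv (pderiv ℂ i f) := ((hCNV.1 ℂ _ hCNV.2 ι).2.2.2 f i hf)
    have hev : ∀ᶠ x in 𝓝 (0 : ι → ℝ), ev (pderiv ℂ i f) (rl x) = 0 := by
      have ht : Tendsto (rl : (ι → ℝ) → ι → ℂ) (𝓝 0) (𝓝 0) := by
        have := (continuous_rl (ι := ι)).tendsto 0
        rwa [rl_zero] at this
      filter_upwards [h0.eventually_nhds, ht.eventually (ev_fderiv hf i),
        ht.eventually (analyticAt_ev hf).eventually_analyticAt] with x hx0 hxd hxa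
      rw [← hxd]
      have h1 : HasFDerivAt (ev f) ((fderiv ℂ (ev f) (rl x)).restrictScalars ℝ)
          (rl (x + (0 : ℝ) • Pi.single i 1)) := by
        rw [zero_smul, add_zero]
        exact hxa.differentiableAt.hasFDerivAt.restrictScalars ℝ
      have h2 : HasDerivAt (fun t : ℝ => rl (x + t • (Pi.single i 1 : ι → ℝ)))
          (Pi.single i 1 : ι → ℂ) 0 := by
        rw [hasDerivAt_pi]
        intro j
        simp only [rl, Pi.add_apply, Pi.smul_apply, smul_eq_mul]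
        have h3 : HasDerivAt (fun t : ℝ => x j + t * (Pi.single i 1 : ι → ℝ) j)
            ((Pi.single i 1 : ι → ℝ) j) 0 := by
          simpa using ((hasDerivAt_id (0 : ℝ)).mul_const
            ((Pi.single i 1 : ι → ℝ) j)).const_add (x j)
        have h4 := h3.ofReal_comp
        have h5 : (((Pi.single i 1 : ι → ℝ) j : ℝ) : ℂ) = (Pi.single i 1 : ι → ℂ) j := by
          by_cases hj : j = i
          · subst hj; simp
          · simp [hj]
        rw [h5] at h4
        exact h4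
      have h6 := h1.comp_hasDerivAt (0 : ℝ) h2
      have h7 : (ev f ∘ fun t : ℝ => rl (x + t • (Pi.single i 1 : ι → ℝ))) =ᶠ[𝓝 0]
          fun _ => (0 : ℂ) := by
        have ht2 : Tendsto (fun t : ℝ => x + t • (Pi.single i 1 : ι → ℝ)) (𝓝 0) (𝓝 x) := by
          have : Continuous fun t : ℝ => x + t • (Pi.single i 1 : ι → ℝ) := by fun_prop
          have h := this.tendsto 0
          simpa using h
        exact ht2.eventually hx0
      exact (h6.unique ((hasDerivAt_const (0 : ℝ) (0 : ℂ)).congr_of_eventuallyEq h7))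
    have h8 := ih _ hpd hev m hm
    rw [coeff_pderiv] at h8
    have h9 : ((m i : ℂ) + 1) ≠ 0 := by exact_mod_cast Nat.succ_ne_zero (m i)
    exact (mul_eq_zero.1 h8).resolve_right h9

end Fin

end EvaM

theorem specEVA (hCNV : SpecCNV) : SpecEVA := by
  intro ι _ _
  refine ⟨fun f hf => ⟨EvaM.analyticAt_ev hf, EvaM.ev_zero f⟩, fun f g hf hg => EvaM.ev_ops hf hg,
    EvaM.ev_C, EvaM.ev_X, fun f i hf => EvaM.ev_fderiv hf i, EvaM.ev_cj, fun f hf h => ?_⟩
  ext n
  rw [EvaM.ev_unique hCNV _ f hf h n rfl]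
  simp

end

end Pool.Agent.Lib.MP_2184e2_an.Loc
end

section
/-!
# MP_2184e2_an, local theorem: module FIN
-/
set_option autoImplicit false

namespace Pool.Agent.Lib.MP_2184e2_an.Loc

theorem specFIN (hMN1 : SpecMN1) (hGLU : SpecGLU) : SpecFIN := by
  intro n c₁ m₁ c₂ m₂ M₁ M₂ h1 h2 hL1 hL2 f hf
  have h := hMN1 n c₁ m₁ c₂ m₂ M₁ M₂ h1 h2 hL1 hL2 f hf
  exact ⟨h, fun hg => hGLU n c₁ m₁ M₁ M₂ h1 hg f h⟩

end Pool.Agent.Lib.MP_2184e2_an.Loc
end

section
/-! # GLU: gluing of local extensions -/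
set_option autoImplicit false

namespace Pool.Agent.Lib.MP_2184e2_an.Loc

open MvPowerSeries Filter Topology Set
open scoped ContDiff ComplexConjugate

theorem specGLU (hU : SpecUNQ) : SpecGLU := by
  intro n c m M M₂ hM hcm f hloc
  have h1 : ∀ p : M, ∃ (F : (Fin n → ℂ) → (Fin n → ℂ)) (r : ℝ), 0 < r ∧
      AnalyticOnNhd ℂ F (Metric.ball (p : Fin n → ℂ) r) ∧
      ∀ w : M, (w : Fin n → ℂ) ∈ Metric.ball (p : Fin n → ℂ) r → F w = f w := by
    intro p
    obtain ⟨F, hF, hw⟩ := hloc p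
    obtain ⟨r1, hr1, h1⟩ := Metric.eventually_nhds_iff.1 hF.eventually_analyticAt
    obtain ⟨r2, hr2, h2⟩ := Metric.eventually_nhds_iff.1 hw
    refine ⟨F, min r1 r2, lt_min hr1 hr2, fun w hw => h1 (lt_of_lt_of_le hw (min_le_left _ _)),
      fun w hw => h2 (lt_of_lt_of_le hw (min_le_right _ _))⟩
  choose F r hr hF hf using h1
  have key : ∀ (p q : M) (w : Fin n → ℂ), r q ≤ r p →
      w ∈ Metric.ball (p : Fin n → ℂ) (r p / 3) → w ∈ Metric.ball (q : Fin n → ℂ) (r q / 3) →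
      F p w = F q w := by
    intro p q w hqp hwp hwq
    have hqB : (q : Fin n → ℂ) ∈ Metric.ball (p : Fin n → ℂ) (r p) := by
      have h2 : dist (q : Fin n → ℂ) w < r q / 3 := by
        rw [dist_comm]; exact hwq
      have h3 : dist w (p : Fin n → ℂ) < r p / 3 := hwp
      have h4 := dist_triangle (q : Fin n → ℂ) w p
      have h5 := hr p
      rw [Metric.mem_ball]
      linarith
    have hqq : (q : Fin n → ℂ) ∈ Metric.ball (q : Fin n → ℂ) (r q) :=
      Metric.mem_ball_self (hr q)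
    have hev : ∀ᶠ w in 𝓝 (q : Fin n → ℂ), (F p - F q) w = 0 := by
      refine hU n c m M hM hcm q q.2 (F p - F q) ((hF p _ hqB).sub (hF q _ hqq)) ?_
      have h3 : ∀ᶠ w in 𝓝[M] (q : Fin n → ℂ), w ∈ Metric.ball (p : Fin n → ℂ) (r p) ∧
          w ∈ Metric.ball (q : Fin n → ℂ) (r q) :=
        nhdsWithin_le_nhds ((Metric.isOpen_ball.inter Metric.isOpen_ball).mem_nhds ⟨hqB, hqq⟩)
      filter_upwards [h3, self_mem_nhdsWithin] with z hz hzM
      have e1 := hf p ⟨z, hzM⟩ hz.1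
      have e2 := hf q ⟨z, hzM⟩ hz.2
      simp only [Pi.sub_apply]
      rw [e1, e2, sub_self]
    have hconv : IsPreconnected (Metric.ball (p : Fin n → ℂ) (r p) ∩
        Metric.ball (q : Fin n → ℂ) (r q)) :=
      ((convex_ball (p : Fin n → ℂ) (r p)).inter (convex_ball (q : Fin n → ℂ) (r q))).isPreconnected
    have hA : AnalyticOnNhd ℂ (F p) (Metric.ball (p : Fin n → ℂ) (r p) ∩
        Metric.ball (q : Fin n → ℂ) (r q)) := (hF p).mono inter_subset_left
    have hB : AnalyticOnNhd ℂ (F q) (Metric.ball (p : Fin n → ℂ) (r p) ∩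
        Metric.ball (q : Fin n → ℂ) (r q)) := (hF q).mono inter_subset_right
    have hEq : F p =ᶠ[𝓝 (q : Fin n → ℂ)] F q := by
      filter_upwards [hev] with z hz
      exact sub_eq_zero.1 hz
    have h6 := hA.eqOn_of_preconnected_of_eventuallyEq hB hconv ⟨hqB, hqq⟩ hEq
    have h7 := hr p
    have h8 := hr q
    exact h6 ⟨Metric.ball_subset_ball (by linarith) hwp, Metric.ball_subset_ball (by linarith) hwq⟩
  have key2 : ∀ (p q : M) (w : Fin n → ℂ),
      w ∈ Metric.ball (p : Fin n → ℂ) (r p / 3) → w ∈ Metric.ball (q : Fin n → ℂ) (r q / 3) →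
      F p w = F q w := by
    intro p q w h1 h2
    rcases le_total (r q) (r p) with h | h
    · exact key p q w h h1 h2
    · exact (key q p w h h2 h1).symm
  classical
  refine ⟨⋃ p : M, Metric.ball (p : Fin n → ℂ) (r p / 3),
    isOpen_iUnion fun p => Metric.isOpen_ball, ?_, ?_⟩
  · intro z hz
    exact mem_iUnion.2 ⟨⟨z, hz⟩, Metric.mem_ball_self (by have := hr ⟨z, hz⟩; positivity)⟩
  · let G : (Fin n → ℂ) → (Fin n → ℂ) := fun w =>
      if h : ∃ p : M, w ∈ Metric.ball (p : Fin n → ℂ) (r p / 3) then F h.choose w else 0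
    have hG : ∀ (p : M) (w : Fin n → ℂ), w ∈ Metric.ball (p : Fin n → ℂ) (r p / 3) →
        G w = F p w := by
      intro p w hw
      have h : ∃ p : M, w ∈ Metric.ball (p : Fin n → ℂ) (r p / 3) := ⟨p, hw⟩
      show (if h : ∃ p : M, w ∈ Metric.ball (p : Fin n → ℂ) (r p / 3) then F h.choose w else 0) = _
      rw [dif_pos h]
      exact key2 _ _ _ h.choose_spec hw
    refine ⟨G, ?_, ?_⟩
    · intro w hw
      obtain ⟨p, hp⟩ := mem_iUnion.1 hw
      have h1 : AnalyticAt ℂ (F p) w := hF p w (Metric.ball_subset_ball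
        (by have := hr p; linarith) hp)
      refine h1.congr ?_
      filter_upwards [Metric.isOpen_ball.mem_nhds hp] with z hz
      exact (hG p z hz).symm
    · intro z
      have hz : (z : Fin n → ℂ) ∈ Metric.ball (z : Fin n → ℂ) (r z / 3) :=
        Metric.mem_ball_self (by have := hr z; positivity)
      rw [hG z z hz]
      exact hf z z (Metric.mem_ball_self (hr z))

end Pool.Agent.Lib.MP_2184e2_an.Loc
end

section
/-!
# MP_2184e2_an, local theorem: HOPF
-/
set_option autoImplicit false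

namespace Pool.Agent.Lib.MP_2184e2_an.Loc.HopfM

open Complex Set Filter Topology MeasureTheory intervalIntegral

/-- the closed rectangle -/
abbrev Rc : Set ℂ := Icc (-4 : ℝ) 4 ×ℂ Icc (0 : ℝ) 4

lemma ne_zero {ε : ℝ} (hε : 0 < ε) {z : ℂ} (hz : z ∈ Rc) : z + ε * I ≠ 0 := by
  intro h0
  have h1 := congrArg Complex.im h0
  have h2 : 0 ≤ z.im := (mem_reProdIm.1 hz).2.1
  simp at h1
  linarith

lemma inv_bound {w : ℂ} (hw : 4 ≤ ‖w‖) (n : ℕ) : ‖(w ^ n)⁻¹‖ ≤ (4 ^ n)⁻¹ := by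
  rw [norm_inv, norm_pow]
  have : (0 : ℝ) < 4 ^ n := by positivity
  exact inv_anti₀ this (pow_le_pow_left₀ (by norm_num) hw n)

lemma cauchy_bound (h : ℂ → ℂ) (hc : ContinuousOn h Rc)
    (hd : DifferentiableOn ℂ h (Ioo (-4 : ℝ) 4 ×ℂ Ioo (0 : ℝ) 4)) (B : ℝ)
    (hB : ∀ z ∈ Rc, ‖h z‖ ≤ B) (n : ℕ) (ε : ℝ) (hε : 0 < ε) :
    ‖∫ x in (-4:ℝ)..4, h x * (((x : ℂ) + ε * I) ^ n)⁻¹‖ ≤ 16 * (B * (4 ^ n)⁻¹) := by
  set f : ℂ → ℂ := fun z => h z * ((z + ε * I) ^ n)⁻¹ with hf
  have hfc : ContinuousOn f Rc := by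
    refine hc.mul (ContinuousOn.inv₀ (by fun_prop) ?_)
    intro z hz
    exact pow_ne_zero _ (ne_zero hε hz)
  have hsub : (Ioo (-4 : ℝ) 4 ×ℂ Ioo (0 : ℝ) 4) ⊆ Rc := by
    intro z hz
    rw [mem_reProdIm] at hz ⊢
    exact ⟨Ioo_subset_Icc_self hz.1, Ioo_subset_Icc_self hz.2⟩
  have hfd : DifferentiableOn ℂ f (Ioo (-4 : ℝ) 4 ×ℂ Ioo (0 : ℝ) 4) := by
    refine hd.mul (DifferentiableOn.inv (by fun_prop) ?_)
    intro z hz
    exact pow_ne_zero _ (ne_zero hε (hsub hz))
  have hcau := Complex.integral_boundary_rect_eq_zero_of_continuousOn_of_differentiableOn f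
    (-4 : ℂ) (4 + 4 * I) (by simpa [uIcc_of_le] using hfc) (by simpa using hfd)
  have hfb : ∀ z ∈ Rc, 4 ≤ ‖z + ε * I‖ → ‖f z‖ ≤ B * (4 ^ n)⁻¹ := by
    intro z hz h4
    rw [hf]
    simp only [norm_mul]
    exact mul_le_mul (hB z hz) (inv_bound h4 n) (norm_nonneg _) ((norm_nonneg _).trans (hB z hz))
  have e1 : ‖∫ x in (-4:ℝ)..4, f (x + 4 * I)‖ ≤ (B * (4 ^ n)⁻¹) * |4 - (-4)| := by
    refine intervalIntegral.norm_integral_le_of_norm_le_const ?_
    intro x hx
    rw [uIoc_of_le (by norm_num)] at hx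
    refine hfb _ ?_ ?_
    · rw [mem_reProdIm]; simp; exact ⟨hx.1.le, hx.2⟩
    · refine le_trans ?_ (Complex.abs_im_le_norm _)
      simp
      rw [abs_of_nonneg (by linarith)]; linarith
  have e2 : ‖∫ y in (0:ℝ)..4, f (4 + y * I)‖ ≤ (B * (4 ^ n)⁻¹) * |4 - 0| := by
    refine intervalIntegral.norm_integral_le_of_norm_le_const ?_
    intro x hx
    rw [uIoc_of_le (by norm_num)] at hx
    refine hfb _ ?_ ?_
    · rw [mem_reProdIm]; simp; exact ⟨hx.1.le, hx.2⟩
    · refine le_trans ?_ (Complex.abs_re_le_norm _)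
      simp
  have e3 : ‖∫ y in (0:ℝ)..4, f (-4 + y * I)‖ ≤ (B * (4 ^ n)⁻¹) * |4 - 0| := by
    refine intervalIntegral.norm_integral_le_of_norm_le_const ?_
    intro x hx
    rw [uIoc_of_le (by norm_num)] at hx
    refine hfb _ ?_ ?_
    · rw [mem_reProdIm]; simp; exact ⟨hx.1.le, hx.2⟩
    · refine le_trans ?_ (Complex.abs_re_le_norm _)
      simp
  have heq : ∫ x in (-4:ℝ)..4, f x = (∫ x in (-4:ℝ)..4, f (x + 4 * I)) -
      I • (∫ y in (0:ℝ)..4, f (4 + y * I)) + I • (∫ y in (0:ℝ)..4, f (-4 + y * I)) := by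
    have h1 : (∫ x in (-4:ℝ)..4, f x) - (∫ x in (-4:ℝ)..4, f (x + 4 * I)) +
        I • (∫ y in (0:ℝ)..4, f (4 + y * I)) - I • (∫ y in (0:ℝ)..4, f (-4 + y * I)) = 0 := by
      simpa using hcau
    linear_combination h1
  rw [heq]
  refine (norm_add_le _ _).trans ?_
  refine (add_le_add_left (norm_sub_le _ _) _).trans ?_
  rw [norm_smul, norm_smul, Complex.norm_I, one_mul, one_mul]
  norm_num at e1 e2 e3
  linarith

lemma limit_bound (h : ℂ → ℂ) (hc : ContinuousOn h Rc)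
    (hd : DifferentiableOn ℂ h (Ioo (-4 : ℝ) 4 ×ℂ Ioo (0 : ℝ) 4)) (B : ℝ)
    (hB : ∀ z ∈ Rc, ‖h z‖ ≤ B) (n : ℕ) (C : ℝ)
    (hC : ∀ x ∈ Icc (-4 : ℝ) 4, ‖h x‖ ≤ C * |x| ^ n) :
    ‖∫ x in (-4:ℝ)..4, h x * ((x : ℂ) ^ n)⁻¹‖ ≤ 16 * (B * (4 ^ n)⁻¹) := by
  have hreal : ContinuousOn (fun x : ℝ => h x) (Icc (-4:ℝ) 4) := by
    refine hc.comp (by fun_prop) ?_
    intro x hx
    rw [mem_reProdIm]; simp; exact hx
  have ht : Tendsto (fun ε : ℝ => ∫ x in (-4:ℝ)..4, h x * (((x : ℂ) + ε * I) ^ n)⁻¹)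
      (𝓝[>] 0) (𝓝 (∫ x in (-4:ℝ)..4, h x * ((x : ℂ) ^ n)⁻¹)) := by
    refine intervalIntegral.tendsto_integral_filter_of_dominated_convergence (fun _ => |C|)
      ?_ ?_ ?_ ?_
    · filter_upwards [self_mem_nhdsWithin] with ε hε
      refine ContinuousOn.aestronglyMeasurable ?_ measurableSet_uIoc
      rw [uIoc_of_le (by norm_num)]
      refine (hreal.mono Ioc_subset_Icc_self).mul (ContinuousOn.inv₀ (by fun_prop) ?_)
      intro x hx
      refine pow_ne_zero _ (ne_zero hε ?_)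
      rw [mem_reProdIm]; simp; exact ⟨hx.1.le, hx.2⟩
    · filter_upwards [self_mem_nhdsWithin] with ε hε
      have hε' : (0 : ℝ) < ε := hε
      refine Eventually.of_forall ?_
      intro x hx
      rw [uIoc_of_le (by norm_num)] at hx
      have hx' : x ∈ Icc (-4:ℝ) 4 := ⟨hx.1.le, hx.2⟩
      have h1 : |x| ≤ ‖(x : ℂ) + ε * I‖ := by
        refine le_trans ?_ (Complex.abs_re_le_norm _)
        simp
      have h0 : 0 < ‖(x : ℂ) + ε * I‖ := by
        rw [norm_pos_iff]
        refine ne_zero hε' ?_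
        rw [mem_reProdIm]; simp; exact hx'
      rw [norm_mul, norm_inv, norm_pow, ← div_eq_mul_inv, div_le_iff₀ (pow_pos h0 n)]
      refine (hC x hx').trans ?_
      exact mul_le_mul (le_abs_self C) (pow_le_pow_left₀ (abs_nonneg _) h1 n) (by positivity)
        (abs_nonneg _)
    · exact intervalIntegrable_const
    · have hz : ∀ᵐ x : ℝ, x ≠ 0 := by
        rw [ae_iff]; simp
      filter_upwards [hz] with x hx _
      have : ContinuousAt (fun ε : ℝ => h x * (((x : ℂ) + ε * I) ^ n)⁻¹) 0 := by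
        refine ContinuousAt.mul continuousAt_const (ContinuousAt.inv₀ (by fun_prop) ?_)
        simpa using pow_ne_zero n (show (x : ℂ) ≠ 0 by exact_mod_cast hx)
      have h2 := this.tendsto
      simp only [ofReal_zero, zero_mul, add_zero] at h2
      exact h2.mono_left nhdsWithin_le_nhds
  refine le_of_tendsto ht.norm ?_
  filter_upwards [self_mem_nhdsWithin] with ε hε
  exact cauchy_bound h hc hd B hB n ε hε

end Pool.Agent.Lib.MP_2184e2_an.Loc.HopfM

namespace Pool.Agent.Lib.MP_2184e2_an.Loc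

open Complex Set Filter Topology MeasureTheory intervalIntegral HopfM

theorem specHOPF : SpecHOPF := by
  intro h hc hd hpos hflat x0 hx0
  have hcomp : IsCompact Rc := isCompact_Icc.reProdIm isCompact_Icc
  obtain ⟨B, hB⟩ := hcomp.exists_bound_of_continuousOn hc
  have hreal : ContinuousOn (fun x : ℝ => h x) (Icc (-4:ℝ) 4) := by
    refine hc.comp (by fun_prop) ?_
    intro x hx
    rw [mem_reProdIm]; simp; exact hx
  have hre : ContinuousOn (fun x : ℝ => (h x).re) (Icc (-4:ℝ) 4) :=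
    Complex.continuous_re.comp_continuousOn hreal
  -- choose delta
  obtain ⟨δ, hδ1, hδ2⟩ : ∃ δ : ℝ, |x0| < δ ∧ δ < 4 :=
    exists_between (abs_lt.2 ⟨by linarith [hx0.1], hx0.2⟩)
  have h00 : h ((0 : ℝ) : ℂ) = 0 := by
    obtain ⟨C, hC⟩ := hflat 1
    have := hC 0 ⟨by norm_num, by norm_num⟩
    simpa using this
  have hδ0 : 0 < δ := (abs_nonneg x0).trans_lt hδ1
  have hsub : Icc (-δ) δ ⊆ Icc (-4:ℝ) 4 := 
    Icc_subset_Icc (by linarith) hδ2.le
  set J := ∫ x in (-δ)..δ, (h x).re with hJ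
  -- the key bound
  have key : ∀ j : ℕ, J ≤ 16 * B * ((δ / 4) ^ 2) ^ j := by
    intro j
    obtain ⟨C, hC⟩ := hflat (2 * j)
    have hlb := limit_bound h hc hd B hB (2 * j) C hC
    have hint : IntervalIntegrable (fun x : ℝ => h x * ((x : ℂ) ^ (2 * j))⁻¹) volume (-4) 4 := by
      rw [intervalIntegrable_iff]
      refine Integrable.mono' (g := fun _ => |C|)
        (intervalIntegrable_iff.1 (intervalIntegrable_const : IntervalIntegrable _ volume (-4) 4))
        ?_ ?_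
      · have m1 : AEStronglyMeasurable (fun x : ℝ => h x) (volume.restrict (uIoc (-4 : ℝ) 4)) := by
          refine ContinuousOn.aestronglyMeasurable ?_ measurableSet_uIoc
          rw [uIoc_of_le (by norm_num)]
          exact hreal.mono Ioc_subset_Icc_self
        have m2 : AEStronglyMeasurable (fun x : ℝ => ((x : ℂ) ^ (2 * j))⁻¹)
            (volume.restrict (uIoc (-4 : ℝ) 4)) :=
          ((Complex.measurable_ofReal.pow_const _).inv).aestronglyMeasurable
        exact m1.mul m2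
      · refine (ae_restrict_iff' measurableSet_uIoc).2 (Eventually.of_forall ?_)
        intro x hx
        rw [uIoc_of_le (by norm_num)] at hx
        have hx' : x ∈ Icc (-4:ℝ) 4 := ⟨hx.1.le, hx.2⟩
        rw [norm_mul, norm_inv, norm_pow, Complex.norm_real, Real.norm_eq_abs]
        by_cases h0 : x = 0
        · subst h0
          by_cases hj : j = 0
          · subst hj
            simpa using (hC 0 hx').trans (by simpa using le_abs_self C)
          · simp [hj]
        · have hp : 0 < |x| ^ (2 * j) := by positivity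
          rw [← div_eq_mul_inv, div_le_iff₀ hp]
          refine (hC x hx').trans ?_
          gcongr
          exact le_abs_self C
    have hre2 : ∫ x in (-4:ℝ)..4, (h x).re * (x ^ (2 * j))⁻¹ ≤ 16 * (B * (4 ^ (2 * j))⁻¹) := by
      have h1 : ∫ x in (-4:ℝ)..4, (h x).re * (x ^ (2 * j))⁻¹ =
          (∫ x in (-4:ℝ)..4, h x * ((x : ℂ) ^ (2 * j))⁻¹).re := by
        have := Complex.reCLM.intervalIntegral_comp_comm hint
        simp only [Complex.reCLM_apply] at this
        rw [← this]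
        refine intervalIntegral.integral_congr ?_
        intro x _
        simp only
        have : ((x : ℂ) ^ (2 * j))⁻¹ = (((x ^ (2 * j))⁻¹ : ℝ) : ℂ) := by push_cast; rfl
        rw [this, Complex.re_mul_ofReal]
      rw [h1]
      exact (Complex.re_le_norm _).trans hlb
    have hintr : IntervalIntegrable (fun x : ℝ => (h x).re * (x ^ (2 * j))⁻¹) volume (-4) 4 := by
      have h3 : IntervalIntegrable (fun x : ℝ => (h x * ((x : ℂ) ^ (2 * j))⁻¹).re) volume (-4) 4 := by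
        rw [intervalIntegrable_iff] at hint ⊢
        exact hint.re
      refine h3.congr ?_
      intro x _
      have : ((x : ℂ) ^ (2 * j))⁻¹ = (((x ^ (2 * j))⁻¹ : ℝ) : ℂ) := by push_cast; rfl
      simp only
      rw [this, Complex.re_mul_ofReal]
    -- compare
    have hnn : ∀ x ∈ Icc (-4:ℝ) 4, 0 ≤ (h x).re * (x ^ (2 * j))⁻¹ := by
      intro x hx
      refine mul_nonneg (hpos x hx) (inv_nonneg.2 ?_)
      rw [pow_mul]; positivity
    have hmono : ∫ x in (-δ)..δ, (h x).re * (x ^ (2 * j))⁻¹ ≤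
        ∫ x in (-4:ℝ)..4, (h x).re * (x ^ (2 * j))⁻¹ := by
      refine intervalIntegral.integral_mono_interval (by linarith) (by linarith) hδ2.le ?_ hintr
      refine (ae_restrict_iff' measurableSet_Ioc).2 (Eventually.of_forall ?_)
      intro x hx
      exact hnn x ⟨hx.1.le, hx.2⟩
    have hJle : J ≤ δ ^ (2 * j) * ∫ x in (-δ)..δ, (h x).re * (x ^ (2 * j))⁻¹ := by
      rw [hJ, ← intervalIntegral.integral_const_mul]
      refine intervalIntegral.integral_mono_on (by linarith) ?_ ?_ ?_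
      · exact (hre.mono hsub).intervalIntegrable_of_Icc (by linarith)
      · refine (hintr.mono_set ?_).const_mul _
        rw [uIcc_of_le (by linarith), uIcc_of_le (by norm_num)]
        exact hsub
      · intro x hx
        by_cases hx00 : x = 0
        · subst hx00
          rw [h00]; simp
        · have hp : 0 < x ^ (2 * j) := by rw [pow_mul]; positivity
          have hle : x ^ (2 * j) ≤ δ ^ (2 * j) := by
            rw [pow_mul, pow_mul]
            exact pow_le_pow_left₀ (by positivity) (sq_le_sq' hx.1 hx.2) j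
          have h1 : 1 ≤ δ ^ (2 * j) * (x ^ (2 * j))⁻¹ := by
            rw [← div_eq_mul_inv, le_div_iff₀ hp, one_mul]; exact hle
          have h2 := hpos x (hsub hx)
          calc (h x).re = (h x).re * 1 := by ring
            _ ≤ (h x).re * (δ ^ (2 * j) * (x ^ (2 * j))⁻¹) := mul_le_mul_of_nonneg_left h1 h2
            _ = δ ^ (2 * j) * ((h x).re * (x ^ (2 * j))⁻¹) := by ring
    have hB0 : 0 ≤ B := (norm_nonneg _).trans (hB 0 (by rw [mem_reProdIm]; simp))
    calc J ≤ δ ^ (2 * j) * (16 * (B * (4 ^ (2 * j))⁻¹)) :=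
          hJle.trans (mul_le_mul_of_nonneg_left (hmono.trans hre2) (by positivity))
      _ = 16 * B * ((δ / 4) ^ 2) ^ j := by
          rw [← pow_mul, div_pow]; field_simp
  have hlim : Tendsto (fun j : ℕ => 16 * B * ((δ / 4) ^ 2) ^ j) atTop (𝓝 (16 * B * 0)) := by
    refine (tendsto_pow_atTop_nhds_zero_of_lt_one (by positivity) ?_).const_mul _
    have : δ / 4 < 1 := by linarith
    have h1 : 0 ≤ δ / 4 := by positivity
    nlinarith
  have hJ0 : J ≤ 0 := by
    have h1 : J ≤ 16 * B * 0 := ge_of_tendsto' hlim key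
    simpa using h1
  by_contra hne
  have hx0' : x0 ∈ Icc (-4:ℝ) 4 := Ioo_subset_Icc_self hx0
  have hpos0 : 0 < (h x0).re := lt_of_le_of_ne (hpos x0 hx0') (Ne.symm hne)
  have : 0 < J := by
    refine intervalIntegral.integral_pos (by linarith) (hre.mono hsub) ?_ ⟨x0, ?_, hpos0⟩
    · intro x hx
      exact hpos x (hsub (Ioc_subset_Icc_self hx))
    · rw [abs_lt] at hδ1
      exact ⟨hδ1.1.le, hδ1.2.le⟩
  linarith

end Pool.Agent.Lib.MP_2184e2_an.Loc
end

section
/-!
# LNM: Laurent polynomials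
-/
set_option autoImplicit false

namespace Pool.Agent.Lib.MP_2184e2_an.Loc

open MvPowerSeries Filter Topology Set
open scoped ContDiff LaurentPolynomial ComplexConjugate

noncomputable section

namespace LNMM

/-- the weight -/
def wt (k : ℤ) : ℝ := (64 : ℝ) ^ k.natAbs

theorem wt_pos (k : ℤ) : 0 < wt k := by unfold wt; positivity

theorem wt_one_le (k : ℤ) : 1 ≤ wt k := one_le_pow₀ (by norm_num)

theorem wt_zero : wt 0 = 1 := by simp [wt]

theorem wt_neg (k : ℤ) : wt (-k) = wt k := by simp [wt]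

theorem wt_add (j k : ℤ) : wt (j + k) ≤ wt j * wt k := by
  unfold wt
  rw [← pow_add]
  exact pow_le_pow_right₀ (by norm_num) (Int.natAbs_add_le j k)

theorem nL_eq (p : ℂ[T;T⁻¹]) {s : Finset ℤ} (hs : p.coeff.support ⊆ s) :
    nL p = ∑ k ∈ s, ‖p.coeff k‖ * wt k := by
  unfold nL wt
  exact Finsupp.sum_of_support_subset _ hs _ (by simp)

theorem evL_eq (ζ : ℂ) (p : ℂ[T;T⁻¹]) {s : Finset ℤ} (hs : p.coeff.support ⊆ s) :
    evL ζ p = ∑ k ∈ s, p.coeff k * ζ ^ k := by
  unfold evL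
  exact Finsupp.sum_of_support_subset _ hs _ (by simp)

theorem nL_nonneg (p : ℂ[T;T⁻¹]) : 0 ≤ nL p := by
  rw [nL_eq p subset_rfl]
  exact Finset.sum_nonneg fun k _ => mul_nonneg (norm_nonneg _) (wt_pos k).le

theorem nL_zero : nL 0 = 0 := by
  rw [nL_eq 0 (s := ∅) (by simp)]
  simp

theorem nL_add (p q : ℂ[T;T⁻¹]) : nL (p + q) ≤ nL p + nL q := by
  classical
  set s := p.coeff.support ∪ q.coeff.support ∪ (p + q).coeff.support with hs
  rw [nL_eq p (s := s) (fun k hk => Finset.mem_union_left _ (Finset.mem_union_left _ hk)),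
    nL_eq q (s := s) (fun k hk => Finset.mem_union_left _ (Finset.mem_union_right _ hk)),
    nL_eq (p + q) (s := s) (by intro k hk; exact Finset.mem_union_right _ hk),
    ← Finset.sum_add_distrib]
  apply Finset.sum_le_sum
  intro k _
  rw [← add_mul]
  apply mul_le_mul_of_nonneg_right _ (wt_pos k).le
  exact norm_add_le _ _

theorem nL_neg (p : ℂ[T;T⁻¹]) : nL (-p) = nL p := by
  rw [nL_eq p subset_rfl, nL_eq (-p) (s := p.coeff.support)
    (by rw [AddMonoidAlgebra.coeff_neg, Finsupp.support_neg])]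
  apply Finset.sum_congr rfl
  intro k _
  rw [AddMonoidAlgebra.coeff_neg, Finsupp.neg_apply, norm_neg]

theorem nL_sum {ι : Type*} (s : Finset ι) (f : ι → ℂ[T;T⁻¹]) :
    nL (∑ i ∈ s, f i) ≤ ∑ i ∈ s, nL (f i) := by
  classical
  induction s using Finset.induction_on with
  | empty => simp [nL_zero]
  | insert a s ha ih =>
    rw [Finset.sum_insert ha, Finset.sum_insert ha]
    exact (nL_add _ _).trans (by linarith)

theorem nL_single (c : ℂ) (k : ℤ) :
    nL (AddMonoidAlgebra.single k c : ℂ[T;T⁻¹]) = ‖c‖ * wt k := by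
  unfold nL wt
  rw [AddMonoidAlgebra.coeff_single, Finsupp.sum_single_index (by simp)]

theorem nL_CT (c : ℂ) (k : ℤ) :
    nL (LaurentPolynomial.C c * LaurentPolynomial.T k) = ‖c‖ * wt k := by
  rw [← LaurentPolynomial.single_eq_C_mul_T, nL_single]

theorem evL_add (ζ : ℂ) (p q : ℂ[T;T⁻¹]) : evL ζ (p + q) = evL ζ p + evL ζ q := by
  unfold evL
  rw [AddMonoidAlgebra.coeff_add]
  exact Finsupp.sum_add_index' (by simp) (by intros; ring)

theorem evL_zero (ζ : ℂ) : evL ζ 0 = 0 := by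
  rw [evL_eq ζ 0 (s := ∅) (by simp)]
  simp

theorem evL_single (ζ c : ℂ) (k : ℤ) :
    evL ζ (AddMonoidAlgebra.single k c : ℂ[T;T⁻¹]) = c * ζ ^ k := by
  unfold evL
  rw [AddMonoidAlgebra.coeff_single, Finsupp.sum_single_index (by simp)]

theorem evL_CT (ζ c : ℂ) (k : ℤ) :
    evL ζ (LaurentPolynomial.C c * LaurentPolynomial.T k) = c * ζ ^ k := by
  rw [← LaurentPolynomial.single_eq_C_mul_T, evL_single]

/-- `evL ζ` as an additive homomorphism -/
def evH (ζ : ℂ) : ℂ[T;T⁻¹] →+ ℂ where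
  toFun := evL ζ
  map_zero' := evL_zero ζ
  map_add' := evL_add ζ

theorem evH_apply (ζ : ℂ) (p : ℂ[T;T⁻¹]) : evH ζ p = evL ζ p := rfl

theorem nL_mul (p q : ℂ[T;T⁻¹]) : nL (p * q) ≤ nL p * nL q := by
  rw [AddMonoidAlgebra.mul_def, nL_eq p subset_rfl, nL_eq q subset_rfl]
  unfold Finsupp.sum
  rw [Finset.sum_mul]
  refine (nL_sum _ _).trans (Finset.sum_le_sum fun j _ => ?_)
  rw [Finset.mul_sum]
  refine (nL_sum _ _).trans (Finset.sum_le_sum fun k _ => ?_)
  rw [nL_single, norm_mul]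
  have h := wt_add j k
  have : ‖p.coeff j‖ * wt j * (‖q.coeff k‖ * wt k) =
      ‖p.coeff j‖ * ‖q.coeff k‖ * (wt j * wt k) := by ring
  rw [this]
  exact mul_le_mul_of_nonneg_left h (by positivity)

theorem evL_mul {ζ : ℂ} (hζ : ζ ≠ 0) (p q : ℂ[T;T⁻¹]) :
    evL ζ (p * q) = evL ζ p * evL ζ q := by
  rw [← evH_apply, AddMonoidAlgebra.mul_def, evL_eq ζ p subset_rfl, evL_eq ζ q subset_rfl]
  unfold Finsupp.sum
  rw [Finset.sum_mul, map_sum]
  apply Finset.sum_congr rfl
  intro j _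
  rw [Finset.mul_sum, map_sum]
  apply Finset.sum_congr rfl
  intro k _
  rw [evH_apply, evL_single, zpow_add₀ hζ]
  ring

theorem isNm : IsNm nL where
  nonneg := nL_nonneg
  neg := nL_neg
  add := nL_add
  mul := nL_mul
  alg c := by
    have : (algebraMap ℂ ℂ[T;T⁻¹] c) = AddMonoidAlgebra.single 0 c := by
      rw [← LaurentPolynomial.C_eq_algebraMap, LaurentPolynomial.single_eq_C]
    rw [this, nL_single, wt_zero, mul_one]

theorem exists_st : ∃ st : ℂ[T;T⁻¹] →+* ℂ[T;T⁻¹], IsSt st := by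
  refine ⟨(LaurentPolynomial.invert (R := ℂ)).toAlgHom.toRingHom.comp
    (AddMonoidAlgebra.mapRingHom ℤ (starRingEnd ℂ)), ?_⟩
  intro c k
  rw [← LaurentPolynomial.single_eq_C_mul_T]
  have h1 : AddMonoidAlgebra.mapRingHom ℤ (starRingEnd ℂ) (AddMonoidAlgebra.single k c) =
      AddMonoidAlgebra.single k (conj c) := AddMonoidAlgebra.mapRingHom_single _ _ _
  have h2 : (LaurentPolynomial.invert (R := ℂ)) (AddMonoidAlgebra.mapRingHom ℤ (starRingEnd ℂ)
      (AddMonoidAlgebra.single k c)) =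
      LaurentPolynomial.C (conj c) * LaurentPolynomial.T (-k) := by
    rw [h1, LaurentPolynomial.single_eq_C_mul_T, map_mul, LaurentPolynomial.invert_C,
      LaurentPolynomial.invert_T]
  exact h2

/-- the Hilbert transform -/
def hil : ℂ[T;T⁻¹] →+ ℂ[T;T⁻¹] :=
  (Finsupp.liftAddHom fun k : ℤ =>
    ({ toFun := fun c : ℂ => LaurentPolynomial.C (-(Complex.I * (k.sign : ℂ) * c)) *
          (LaurentPolynomial.T k - 1)
       map_zero' := by simp
       map_add' := fun a b => by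
        rw [← add_mul, ← map_add]
        congr 2
        ring } : ℂ →+ ℂ[T;T⁻¹])).comp
    (AddMonoidAlgebra.coeffAddEquiv : ℂ[T;T⁻¹] ≃+ (ℤ →₀ ℂ)).toAddMonoidHom

theorem exists_T1 : ∃ T1 : ℂ[T;T⁻¹] →+ ℂ[T;T⁻¹], IsT1 T1 := by
  refine ⟨hil, ?_⟩
  intro c k
  rw [← LaurentPolynomial.single_eq_C_mul_T]
  unfold hil
  rw [AddMonoidHom.comp_apply]
  have : (AddMonoidAlgebra.coeffAddEquiv : ℂ[T;T⁻¹] ≃+ (ℤ →₀ ℂ)).toAddMonoidHom
      (AddMonoidAlgebra.single k c) = Finsupp.single k c := rfl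
  rw [this, Finsupp.liftAddHom_apply_single]
  rfl

theorem coeff_CT (c : ℂ) (j k : ℤ) :
    (LaurentPolynomial.C c * LaurentPolynomial.T j : ℂ[T;T⁻¹]).coeff k =
      if j = k then c else 0 := by
  rw [← LaurentPolynomial.single_eq_C_mul_T, AddMonoidAlgebra.coeff_single, Finsupp.single_apply]

theorem coeff_one (k : ℤ) : (1 : ℂ[T;T⁻¹]).coeff k = if (0 : ℤ) = k then 1 else 0 := by
  have := coeff_CT 1 0 k
  rwa [map_one, LaurentPolynomial.T_zero, one_mul] at this

theorem coeff_C_mul (c : ℂ) (p : ℂ[T;T⁻¹]) (k : ℤ) :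
    (LaurentPolynomial.C c * p).coeff k = c * p.coeff k := by
  rw [← LaurentPolynomial.smul_eq_C_mul, AddMonoidAlgebra.coeff_smul, Finsupp.smul_apply,
    smul_eq_mul]

theorem st_coeff {st : ℂ[T;T⁻¹] →+* ℂ[T;T⁻¹]} (hst : IsSt st) (p : ℂ[T;T⁻¹]) (k : ℤ) :
    (st p).coeff k = conj (p.coeff (-k)) := by
  induction p using LaurentPolynomial.induction_on' with
  | add p q hp hq =>
    rw [map_add, AddMonoidAlgebra.coeff_add, Finsupp.add_apply, hp, hq,
      AddMonoidAlgebra.coeff_add, Finsupp.add_apply, map_add]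
  | C_mul_T j c =>
    rw [hst, coeff_CT, coeff_CT]
    by_cases h : j = -k
    · subst h; simp
    · rw [if_neg (by omega), if_neg h, map_zero]

theorem nL_finsum (p : ℂ[T;T⁻¹]) : nL p = ∑ᶠ k : ℤ, ‖p.coeff k‖ * wt k := by
  rw [nL_eq p subset_rfl]
  symm
  apply finsum_eq_sum_of_support_subset
  intro k hk
  rw [Function.mem_support] at hk
  rw [Finset.mem_coe, Finsupp.mem_support_iff]
  intro h
  apply hk
  rw [h]
  simp

end LNMM

open LNMM in
/-- LNM -/
theorem specLNM : SpecLNM := by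
  refine ⟨isNm, exists_st, exists_T1, ?_, ?_, ?_, ?_, ?_⟩
  · intro st hst
    refine ⟨?_, ?_, ?_⟩
    · intro p
      rw [nL_finsum, nL_finsum]
      rw [← finsum_comp_equiv (Equiv.neg ℤ)]
      apply finsum_congr
      intro k
      rw [st_coeff hst, Complex.norm_conj]
      simp [wt_neg]
    · intro p
      ext k
      rw [st_coeff hst, st_coeff hst, neg_neg, Complex.conj_conj]
    · intro ζ p hζ
      induction p using LaurentPolynomial.induction_on' with
      | add p q hp hq => rw [map_add, evL_add, evL_add, hp, hq, map_add]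
      | C_mul_T k c =>
        rw [hst, evL_CT, evL_CT, map_mul, map_zpow₀]
        have h0 : ζ ≠ 0 := by
          intro h; rw [h, norm_zero] at hζ; exact zero_ne_one hζ
        have : conj ζ = ζ⁻¹ := by
          rw [Complex.inv_def, Complex.normSq_eq_norm_sq, hζ]
          simp
        rw [this, inv_zpow', ]
  · intro T1 hT1
    have hT0 : ∀ (c : ℂ) (k : ℤ), nL (T1 (LaurentPolynomial.C c * LaurentPolynomial.T k)) ≤
        2 * (‖c‖ * wt k) := by
      intro c k
      rw [hT1]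
      refine (isNm.mul _ _).trans ?_
      have e1 : nL (LaurentPolynomial.C (-(Complex.I * (k.sign : ℂ) * c))) ≤ ‖c‖ := by
        have := nL_CT (-(Complex.I * (k.sign : ℂ) * c)) 0
        rw [LaurentPolynomial.T_zero, mul_one, wt_zero, mul_one] at this
        rw [this, norm_neg, norm_mul, norm_mul, Complex.norm_I, one_mul]
        have h2 : ‖(k.sign : ℂ)‖ ≤ 1 := by
          rcases Int.sign_trichotomy k with h | h | h <;> rw [h] <;> simp
        have := mul_le_mul_of_nonneg_right h2 (norm_nonneg c)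
        linarith
      have e2 : nL (LaurentPolynomial.T k - 1 : ℂ[T;T⁻¹]) ≤ 2 * wt k := by
        rw [sub_eq_add_neg]
        refine (nL_add _ _).trans ?_
        rw [nL_neg]
        have h1 := nL_CT 1 k
        have h2 := nL_CT 1 0
        rw [map_one, one_mul, norm_one, one_mul] at h1
        rw [map_one, one_mul, norm_one, one_mul, LaurentPolynomial.T_zero, wt_zero] at h2
        rw [h1, h2]
        linarith [wt_one_le k]
      calc _ ≤ ‖c‖ * (2 * wt k) := mul_le_mul e1 e2 (nL_nonneg _) (norm_nonneg _)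
        _ = 2 * (‖c‖ * wt k) := by ring
    refine ⟨?_, ?_, ?_, ?_⟩
    · intro p
      have hp : p = ∑ k ∈ p.coeff.support, LaurentPolynomial.C (p.coeff k) *
          LaurentPolynomial.T k := by
        conv_lhs => rw [← AddMonoidAlgebra.sum_coeff_single p]
        unfold Finsupp.sum
        apply Finset.sum_congr rfl
        intro k _
        rw [LaurentPolynomial.single_eq_C_mul_T]
      rw [nL_eq p subset_rfl]
      conv_lhs => rw [hp, map_sum]
      refine (nL_sum _ _).trans ?_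
      rw [Finset.mul_sum]
      exact Finset.sum_le_sum fun k _ => hT0 _ _
    · intro p
      induction p using LaurentPolynomial.induction_on' with
      | add p q hp hq => rw [map_add, evL_add, hp, hq, add_zero]
      | C_mul_T k c =>
        rw [hT1, evL_mul one_ne_zero, sub_eq_add_neg, evL_add]
        have h1 := evL_CT 1 1 k
        have h2 := evL_CT 1 (-1) 0
        rw [map_one, one_mul] at h1
        rw [map_neg, map_one, LaurentPolynomial.T_zero, mul_one] at h2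
        rw [h1, h2]
        simp
    · intro st hst p
      induction p using LaurentPolynomial.induction_on' with
      | add p q hp hq => rw [map_add, map_add, map_add, map_add, hp, hq]
      | C_mul_T k c =>
        rw [hT1, hst, hT1, map_mul, map_sub, map_one]
        have h1 := hst (-(Complex.I * (k.sign : ℂ) * c)) 0
        rw [LaurentPolynomial.T_zero, mul_one, neg_zero, LaurentPolynomial.T_zero, mul_one] at h1
        have h2 := hst 1 k
        rw [map_one, one_mul, map_one, map_one, one_mul] at h2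
        rw [h1, h2]
        congr 2
        rw [Int.sign_neg]
        simp
    · intro p k hk
      induction p using LaurentPolynomial.induction_on' with
      | add p q hp hq =>
        have : -T1 (p + q) + LaurentPolynomial.C Complex.I * (p + q) =
            (-T1 p + LaurentPolynomial.C Complex.I * p) +
              (-T1 q + LaurentPolynomial.C Complex.I * q) := by
          rw [map_add]; ring
        rw [this, AddMonoidAlgebra.coeff_add, Finsupp.add_apply, hp, hq, add_zero]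
      | C_mul_T j c =>
        rw [hT1, AddMonoidAlgebra.coeff_add, Finsupp.add_apply, AddMonoidAlgebra.coeff_neg,
          Finsupp.neg_apply, coeff_C_mul, coeff_C_mul, coeff_CT]
        have h1 := coeff_CT 1 j k
        rw [map_one, one_mul] at h1
        have h2 : ¬ ((0 : ℤ) = k) := by omega
        rw [AddMonoidAlgebra.coeff_sub, Finsupp.sub_apply, h1, coeff_one, if_neg h2]
        by_cases h : j = k
        · subst h
          simp only [if_true]
          rw [Int.sign_eq_neg_one_of_neg hk]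
          push_cast
          ring
        · simp only [h, if_false]; ring
  · intro ζ hζ
    refine ⟨evL_add ζ, evL_mul hζ, ?_, ?_⟩
    · intro c
      have := evL_CT ζ c 0
      rwa [LaurentPolynomial.T_zero, mul_one, zpow_zero, mul_one] at this
    · intro k
      have := evL_CT ζ 1 k
      rwa [map_one, one_mul, one_mul] at this
  · intro ζ p h1 h2
    rw [evL_eq ζ p subset_rfl, nL_eq p subset_rfl]
    refine (norm_sum_le _ _).trans (Finset.sum_le_sum fun k _ => ?_)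
    rw [norm_mul, norm_zpow]
    apply mul_le_mul_of_nonneg_left _ (norm_nonneg _)
    have hpos : 0 < ‖ζ‖ := by linarith
    unfold wt
    rcases le_or_gt 0 k with hk | hk
    · obtain ⟨n, rfl⟩ := Int.eq_ofNat_of_zero_le hk
      rw [zpow_natCast, Int.natAbs_natCast]
      exact pow_le_pow_left₀ hpos.le h2 n
    · obtain ⟨n, hn⟩ := Int.eq_ofNat_of_zero_le (by omega : 0 ≤ -k)
      have : k = -(n : ℤ) := by omega
      rw [this, zpow_neg, zpow_natCast, Int.natAbs_neg, Int.natAbs_natCast, ← inv_pow]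
      apply pow_le_pow_left₀ (by positivity)
      rw [inv_le_comm₀ hpos (by norm_num)]
      linarith
  · intro ζ p h0 h2
    rw [evL_eq ζ p subset_rfl, nL_eq p subset_rfl]
    refine (norm_sum_le _ _).trans (Finset.sum_le_sum fun k _ => ?_)
    rw [norm_mul, norm_zpow]
    rcases le_or_gt 0 k with hk | hk
    · apply mul_le_mul_of_nonneg_left _ (norm_nonneg _)
      unfold wt
      obtain ⟨n, rfl⟩ := Int.eq_ofNat_of_zero_le hk
      rw [zpow_natCast, Int.natAbs_natCast]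
      exact pow_le_pow_left₀ (norm_nonneg _) h2 n
    · rw [h0 k hk]; simp

end

end Pool.Agent.Lib.MP_2184e2_an.Loc
end

section
/-!
# MP_2184e2_an, local theorem: module LEVD
-/
set_option autoImplicit false

namespace Pool.Agent.Lib.MP_2184e2_an.Loc

open MvPowerSeries Filter Topology Set
open scoped ContDiff ComplexConjugate

noncomputable section

namespace LevdM

variable {n : ℕ} {M : Set (Fin n → ℂ)} {p : Fin n → ℂ}

/-- the derivative of `dr(Z)` along `M` -/
lemma key {r : (Fin n → ℂ) → ℝ} (hp : p ∈ M) (hr : ContDiffAt ℝ ∞ r p)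
    (h0 : ∀ᶠ w in 𝓝[M] p, ∀ u ∈ tangent M w, fderiv ℝ r w u = 0)
    {Z : (Fin n → ℂ) → Fin n → ℂ} (hZ : DifferentiableAt ℝ Z p)
    (hZt : ∀ᶠ w in 𝓝[M] p, Z w ∈ tangent M w) {u : Fin n → ℂ} (hu : u ∈ tangent M p) :
    fderiv ℝ (fderiv ℝ r) p u (Z p) + fderiv ℝ r p (fderiv ℝ Z p u) = 0 := by
  have hd : DifferentiableAt ℝ (fderiv ℝ r) p :=
    ((hr.of_le (m := 2) (WithTop.coe_le_coe.2 le_top)).fderiv_right (m := 1)
      (by norm_num)).differentiableAt (by norm_num)
  have h1 : HasFDerivAt (fun w => fderiv ℝ r w (Z w)) _ p :=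
    hd.hasFDerivAt.clm_apply hZ.hasFDerivAt
  have h2 := fderiv_tangent (M := M) hp h1.differentiableAt
    (by filter_upwards [h0, hZt] with w hw1 hw2 using hw1 _ hw2) hu
  rw [h1.fderiv] at h2
  simpa [add_comm] using h2

end LevdM

theorem specLEVD : SpecLEVD := by
  intro n M p hp r hr hr0 X hX hXt
  have hr2 : ContDiffAt ℝ 2 r p := hr.of_le (m := 2) (WithTop.coe_le_coe.2 le_top)
  have hdiff : ∀ᶠ w in 𝓝 p, DifferentiableAt ℝ r w :=
    (hr2.eventually (by norm_num)).mono fun w hw => hw.differentiableAt (by norm_num)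
  have h0 : ∀ᶠ w in 𝓝[M] p, ∀ u ∈ tangent M w, fderiv ℝ r w u = 0 := by
    filter_upwards [eventually_eventually_nhdsWithin.2 hr0, self_mem_nhdsWithin,
      hdiff.filter_mono nhdsWithin_le_nhds] with w hw1 hw2 hw3 u hu
    exact fderiv_tangent hw2 hw3 hw1 hu
  have hXd : DifferentiableAt ℝ X p := hX.differentiableAt (by simp)
  have hIX : HasFDerivAt (𝕜 := ℝ) (fun w => Complex.I • X w) (Complex.I • fderiv ℝ X p) p :=
    hXd.hasFDerivAt.const_smul Complex.I
  have hXp : X p ∈ ctangent M p := hXt.self_of_nhdsWithin hp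
  have e1 := LevdM.key hp hr h0 hXd (hXt.mono fun w hw => hw.1) hXp.1
  have e2 := LevdM.key hp hr h0 hIX.differentiableAt (hXt.mono fun w hw => hw.2) hXp.2
  rw [hIX.fderiv] at e2
  have hbr : VectorField.lieBracket ℝ X (fun w => Complex.I • X w) p =
      Complex.I • fderiv ℝ X p (X p) - fderiv ℝ X p (Complex.I • X p) := by
    rw [VectorField.lieBracket, hIX.fderiv]
    rfl
  have hI : Complex.I • (Complex.I • fderiv ℝ X p (X p) - fderiv ℝ X p (Complex.I • X p)) =
      -(fderiv ℝ X p (X p)) - Complex.I • fderiv ℝ X p (Complex.I • X p) := by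
    rw [smul_sub, smul_smul, Complex.I_mul_I, neg_one_smul]
  rw [hbr, hI, map_sub, map_neg]
  have e3 : (Complex.I • fderiv ℝ X p) (Complex.I • X p) =
      Complex.I • fderiv ℝ X p (Complex.I • X p) := rfl
  rw [e3] at e2
  linarith

end

end Pool.Agent.Lib.MP_2184e2_an.Loc
end

section
/-!
# MP_2184e2_an, local theorem: derivatives of convergent power series as functions

Consequences of `SpecEVA` used in the geometric modules.
-/
set_option autoImplicit false

namespace Pool.Agent.Lib.MP_2184e2_an.Loc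

open MvPowerSeries Filter Topology Set
open scoped ContDiff ComplexConjugate

noncomputable section

namespace EvbM

section Conv

variable {κ : Type} [Finite κ] {f g : PS κ}

lemma conv_add (hf : Conv f) (hg : Conv g) : Conv (f + g) :=
  ((specCNV.1 ℂ _ specCNV.2 κ).1 f g hf hg).1

lemma conv_mul (hf : Conv f) (hg : Conv g) : Conv (f * g) :=
  ((specCNV.1 ℂ _ specCNV.2 κ).1 f g hf hg).2.1

lemma conv_neg (hf : Conv f) : Conv (-f) :=
  ((specCNV.1 ℂ _ specCNV.2 κ).1 f f hf hf).2.2.1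

lemma conv_sub (hf : Conv f) (hg : Conv g) : Conv (f - g) :=
  ((specCNV.1 ℂ _ specCNV.2 κ).1 f g hf hg).2.2.2

lemma conv_C (c : ℂ) : Conv (C c : PS κ) := (specCNV.1 ℂ _ specCNV.2 κ).2.1 c

lemma conv_X (i : κ) : Conv (X i : PS κ) := (specCNV.1 ℂ _ specCNV.2 κ).2.2.1 i

lemma conv_zero : Conv (0 : PS κ) := by
  have := conv_C (κ := κ) 0
  rwa [map_zero] at this

lemma conv_pderiv (hf : Conv f) (i : κ) : Conv (pderiv ℂ i f) :=
  (specCNV.1 ℂ _ specCNV.2 κ).2.2.2 f i hf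

end Conv

section Ev

variable {κ : Type} [Fintype κ] [DecidableEq κ]

/-- `rl` as a continuous linear map -/
def rlL (κ : Type) [Fintype κ] : (κ → ℝ) →L[ℝ] (κ → ℂ) :=
  ContinuousLinearMap.pi fun k => Complex.ofRealCLM.comp (ContinuousLinearMap.proj k)

omit [DecidableEq κ] in
lemma rlL_apply (x : κ → ℝ) : rlL κ x = rl x := rfl

omit [DecidableEq κ] in
lemma tendsto_rl : Tendsto (rl : (κ → ℝ) → κ → ℂ) (𝓝 0) (𝓝 0) := by
  have := (rlL κ).continuous.tendsto 0
  rw [map_zero] at this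
  exact this

/-- the complex derivative of `ev F` -/
lemma hasFDerivAt_ev (hEVA : SpecEVA) {F : PS κ} (hF : Conv F) :
    ∀ᶠ x in 𝓝 (0 : κ → ℂ), HasFDerivAt (𝕜 := ℂ) (ev F)
      (∑ i, ev (pderiv ℂ i F) x • (ContinuousLinearMap.proj i : (κ → ℂ) →L[ℂ] ℂ)) x := by
  obtain ⟨h1, h2, h3, h4, h5, h6, h7⟩ := hEVA κ
  have hd : ∀ᶠ x in 𝓝 (0 : κ → ℂ), DifferentiableAt ℂ (ev F) x :=
    (h1 F hF).1.eventually_analyticAt.mono fun x hx => hx.differentiableAt
  filter_upwards [hd, eventually_all.2 fun i => h5 F i hF] with x hx hx2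
  have h8 : fderiv ℂ (ev F) x =
      ∑ i, ev (pderiv ℂ i F) x • (ContinuousLinearMap.proj i : (κ → ℂ) →L[ℂ] ℂ) := by
    ext v
    have hv : v = ∑ i, v i • (Pi.single i (1 : ℂ) : κ → ℂ) := by
      rw [← Finset.univ_sum_single v]
      refine Finset.sum_congr rfl fun i _ => ?_
      ext k
      by_cases hk : k = i
      · subst hk; simp
      · simp [Pi.single_eq_of_ne hk]
    conv_lhs => rw [hv]
    rw [map_sum, ContinuousLinearMap.sum_apply]
    refine Finset.sum_congr rfl fun i _ => ?_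
    rw [map_smul, hx2 i]
    simp [mul_comm]
  rw [← h8]
  exact hx.hasFDerivAt

/-- the real derivative of `ev F` at real points -/
lemma hasFDerivAt_rl (hEVA : SpecEVA) {F : PS κ} (hF : Conv F) :
    ∀ᶠ x in 𝓝 (0 : κ → ℝ), HasFDerivAt (𝕜 := ℝ) (fun y => ev F (rl y))
      (∑ i, ev (pderiv ℂ i F) (rl x) •
        (Complex.ofRealCLM.comp (ContinuousLinearMap.proj i : (κ → ℝ) →L[ℝ] ℝ))) x := by
  filter_upwards [tendsto_rl.eventually (hasFDerivAt_ev hEVA hF)] with x hx
  have h1 := (hx.restrictScalars ℝ).comp x (rlL κ).hasFDerivAt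
  refine h1.congr_fderiv ?_
  ext v
  simp [rlL_apply, rl]

/-- `ev F` is real analytic at real points near `0` -/
lemma analyticAt_rl (hEVA : SpecEVA) {F : PS κ} (hF : Conv F) :
    AnalyticAt ℝ (fun y : κ → ℝ => ev F (rl y)) 0 := by
  have h1 : AnalyticAt ℂ (ev F) (rlL κ 0) := by
    rw [map_zero]; exact ((hEVA κ).1 F hF).1
  exact (h1.restrictScalars (𝕜 := ℝ)).comp ((rlL κ).analyticAt 0)

lemma pd_rl (hEVA : SpecEVA) {F : PS κ} (hF : Conv F) :
    ∀ᶠ x in 𝓝 (0 : κ → ℝ), ∀ k, pd (fun y => ev F (rl y)) k x = ev (pderiv ℂ k F) (rl x) := by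
  filter_upwards [hasFDerivAt_rl hEVA hF] with x hx k
  rw [pd, hx.fderiv, ContinuousLinearMap.sum_apply, Finset.sum_eq_single k]
  · simp
  · intro i _ hi
    simp [Pi.single_eq_of_ne hi]
  · simp

lemma ev_zero (hEVA : SpecEVA) {F : PS κ} (hF : Conv F) : ev F 0 = constantCoeff F :=
  ((hEVA κ).1 F hF).2

end Ev

section Graph

variable {m d : ℕ} {φ : Fin d → PS (Ki m d)}

lemma conv_Zs (hφ : IsPhi φ) (i : Zi m d) : Conv (Zs φ i) := by
  rcases i with j | l
  · exact conv_add (conv_X _) (conv_mul (conv_C _) (conv_X _))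
  · exact conv_add (conv_X _) (conv_mul (conv_C _) (hφ.conv l))

lemma Zm_apply (x : Ki m d → ℝ) (i : Zi m d) : Zm φ x i = ev (Zs φ i) (rl x) := rfl

lemma ev_Zs (hEVA : SpecEVA) (hφ : IsPhi φ) : ∀ᶠ x in 𝓝 (0 : Ki m d → ℂ),
    (∀ j, ev (Zs φ (Sum.inl j)) x = x (Sum.inl (Sum.inl j)) +
      Complex.I * x (Sum.inl (Sum.inr j))) ∧
    ∀ l, ev (Zs φ (Sum.inr l)) x = x (Sum.inr l) + Complex.I * ev (φ l) x := by
  obtain ⟨h1, h2, h3, h4, h5, h6, h7⟩ := hEVA (Ki m d)
  have e1 := eventually_all.2 fun j : Fin m => h2 (X (Sum.inl (Sum.inl j)))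
    (C Complex.I * X (Sum.inl (Sum.inr j))) (conv_X _) (conv_mul (conv_C _) (conv_X _))
  have e2 := eventually_all.2 fun j : Fin m => h2 (C Complex.I) (X (Sum.inl (Sum.inr j)))
    (conv_C _) (conv_X _)
  have e3 := eventually_all.2 fun l : Fin d => h2 (X (Sum.inr l))
    (C Complex.I * φ l) (conv_X _) (conv_mul (conv_C _) (hφ.conv l))
  have e4 := eventually_all.2 fun l : Fin d => h2 (C Complex.I) (φ l) (conv_C _) (hφ.conv l)
  filter_upwards [e1, e2, e3, e4] with x g1 g2 g3 g4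
  refine ⟨fun j => ?_, fun l => ?_⟩
  · show ev (X (Sum.inl (Sum.inl j)) + C Complex.I * X (Sum.inl (Sum.inr j))) x = _
    rw [(g1 j).1, (g2 j).2.1, h3, h4, h4]
  · show ev (X (Sum.inr l) + C Complex.I * φ l) x = _
    rw [(g3 l).1, (g4 l).2.1, h3, h4]

/-- `Zm` in coordinates -/
lemma Zm_eq (hEVA : SpecEVA) (hφ : IsPhi φ) : ∀ᶠ x in 𝓝 (0 : Ki m d → ℝ),
    (∀ j, Zm φ x (Sum.inl j) = x (Sum.inl (Sum.inl j)) +
      Complex.I * x (Sum.inl (Sum.inr j))) ∧
    ∀ l, Zm φ x (Sum.inr l) = x (Sum.inr l) + Complex.I * ev (φ l) (rl x) := by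
  filter_upwards [tendsto_rl.eventually (ev_Zs hEVA hφ)] with x hx
  exact ⟨fun j => hx.1 j, fun l => hx.2 l⟩

end Graph

/-- the real linear map `rc` -/
def rcL (m d : ℕ) : (Zi m d → ℂ) →L[ℝ] (Ki m d → ℝ) :=
  ContinuousLinearMap.pi (Sum.elim (Sum.elim
    (fun j => Complex.reCLM.comp (ContinuousLinearMap.proj (Sum.inl j)))
    (fun j => Complex.imCLM.comp (ContinuousLinearMap.proj (Sum.inl j))))
    (fun l => Complex.reCLM.comp (ContinuousLinearMap.proj (Sum.inr l))))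

lemma rcL_apply {m d : ℕ} (Z : Zi m d → ℂ) : rcL m d Z = rc Z := by
  funext k
  rcases k with (j | j) | l <;> rfl

end EvbM

end

end Pool.Agent.Lib.MP_2184e2_an.Loc
end

section
/-!
# MP_2184e2_an, local theorem: module LVS
-/
set_option autoImplicit false

namespace Pool.Agent.Lib.MP_2184e2_an.Loc

open MvPowerSeries Filter Topology Set
open scoped ContDiff ComplexConjugate NNReal

noncomputable section

namespace LvsM

/-- a spanning family of vectors of `ℝ ^ d` contains a basis -/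
lemma exists_det {d : ℕ} {α : Type*} (g : α → Fin d → ℝ)
    (h : Submodule.span ℝ (Set.range g) = ⊤) :
    ∃ a : Fin d → α, Matrix.det (Matrix.of fun i l : Fin d => g (a i) l) ≠ 0 := by
  obtain ⟨b, hb, hspan, hli⟩ := exists_linearIndependent ℝ (Set.range g)
  rw [h] at hspan
  have hB : ⊤ ≤ Submodule.span ℝ (Set.range (Subtype.val : b → Fin d → ℝ)) := by
    rw [Subtype.range_coe, hspan]
  let B := Module.Basis.mk hli hB
  let e : Fin d ≃ b := (Pi.basisFun ℝ (Fin d)).indexEquiv B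
  have hch : ∀ i : Fin d, ∃ x : α, g x = (e i : Fin d → ℝ) := fun i => hb (e i).2
  choose a ha using hch
  refine ⟨a, ?_⟩
  have h1 : LinearIndependent ℝ (fun i => g (a i)) := by
    have : (fun i => g (a i)) = (Subtype.val : b → Fin d → ℝ) ∘ e := funext ha
    rw [this]
    exact hli.comp e e.injective
  have h2 : IsUnit (Matrix.of fun i l : Fin d => g (a i) l) :=
    Matrix.linearIndependent_rows_iff_isUnit.1 h1
  exact ((Matrix.isUnit_iff_isUnit_det _).1 h2).ne_zero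

end LvsM

theorem specLVS (hLEVF : SpecLEVF) : SpecLVS := by
  intro n m d M p π φ σ hp hpar hL
  apply LvsM.exists_det (fun (a : Fin m → ℂ) (l : Fin d) => lev φ a l)
  -- the linear map to `ℝ ^ d`
  let T : tangent M p →ₗ[ℝ] (Fin d → ℝ) :=
    { toFun := fun b l => (π (b : Fin n → ℂ) (Sum.inr l)).re
      map_add' := fun x y => by funext l; simp
      map_smul' := fun c x => by
        funext l
        have : π ((c • x : tangent M p) : Fin n → ℂ) = c • π (x : Fin n → ℂ) := by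
          rw [Submodule.coe_smul]
          exact (π.restrictScalars ℝ).map_smul c (x : Fin n → ℂ)
        simp [this] }
  have hker : ctangentIn M p ≤ LinearMap.ker T := by
    intro b hb
    rw [LinearMap.mem_ker]
    funext l
    have hb' : (b : Fin n → ℂ) ∈ ctangent M p := hb
    have := hpar.ctan _ hb' l
    show (π (b : Fin n → ℂ) (Sum.inr l)).re = 0
    rw [this]; rfl
  let Tb : Normal M p →ₗ[ℝ] (Fin d → ℝ) := (ctangentIn M p).liftQ T hker
  set S : Submodule ℝ (Fin d → ℝ) :=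
    Submodule.span ℝ (Set.range fun (a : Fin m → ℂ) (l : Fin d) => lev φ a l) with hS
  have h1 : Submodule.span ℝ (leviSet M p) = ⊤ := by
    apply Submodule.eq_top_of_nonempty_interior'
    refine (hL p hp).2.2.mono (interior_mono ?_)
    exact Submodule.span_le_restrictScalars ℝ≥0 ℝ (leviSet M p)
  have h2 : Submodule.span ℝ (leviSet M p) ≤ S.comap Tb := by
    rw [Submodule.span_le]
    rintro ν ⟨v, hv, -, hν⟩
    obtain ⟨b, rfl⟩ := Submodule.Quotient.mk_surjective _ ν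
    have h3 := hLEVF n m d M p π φ σ hp hpar v hv b b.2 hν
    show Tb (Submodule.Quotient.mk b) ∈ S
    have h4 : Tb (Submodule.Quotient.mk b) =
        (-4 : ℝ) • fun l => lev φ (fun j => π v (Sum.inl j)) l := by
      funext l
      exact h3 l
    rw [h4]
    exact S.smul_mem _ (Submodule.subset_span ⟨_, rfl⟩)
  rw [h1] at h2
  rw [eq_top_iff]
  intro y _
  obtain ⟨v, hv, hv2⟩ := hpar.onto2 0 y
  have h5 : Tb (Submodule.Quotient.mk ⟨v, hv⟩) ∈ S := h2 (x := Submodule.Quotient.mk ⟨v, hv⟩) trivial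
  have h6 : Tb (Submodule.Quotient.mk ⟨v, hv⟩) = y := by
    funext l
    show (π v (Sum.inr l)).re = y l
    rw [hv2]
    simp
  rwa [h6] at h5

end

end Pool.Agent.Lib.MP_2184e2_an.Loc
end
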