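import Pool.Agent.Lib.MP_2184e2_an.Loc.Lvs
import Pool.Agent.Lib.MP_2184e2_an.Loc.LocCore

section
/-!
# MP_2184e2_an, local theorem: module LEVF
-/
set_option autoImplicit false

namespace Pool.Agent.Lib.MP_2184e2_an.Loc

open MvPowerSeries Filter Topology Set
open scoped ContDiff ComplexConjugate

noncomputable section

namespace LevfM

open EvbM

/-- one variable: the derivative of `t ↦ ev G t` -/
lemma deriv_ev1 (hEVA : SpecEVA) {G : PS Unit} (hG : Conv G) :
    ∀ᶠ t : ℝ in 𝓝 0, HasDerivAt (fun t : ℝ => ev G (fun _ => (t : ℂ)))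
      (ev (pderiv ℂ () G) (fun _ => (t : ℂ))) t := by
  let A : ℝ →L[ℝ] (Unit → ℝ) := ContinuousLinearMap.pi fun _ => ContinuousLinearMap.id ℝ ℝ
  have hA : Tendsto A (𝓝 0) (𝓝 0) := by
    have := A.continuous.tendsto 0
    rwa [map_zero] at this
  filter_upwards [hA.eventually (hasFDerivAt_rl hEVA hG)] with t ht
  have h1 := ht.comp t A.hasFDerivAt
  have h2 : HasDerivAt (fun t : ℝ => ev G (rl (A t))) _ t := h1.hasDerivAt
  refine HasDerivAt.congr_deriv (f := fun t : ℝ => ev G (rl (A t))) h2 ?_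
  simp [A]
  rfl

/-- the second derivative of a function along a line -/
lemma second_deriv {E : Type*} [NormedAddCommGroup E] [NormedSpace ℝ E] {r : E → ℝ} {p : E}
    (hr : ContDiffAt ℝ 2 r p) (v : E) {g' : ℝ → ℝ} {c : ℝ}
    (h1 : ∀ᶠ t : ℝ in 𝓝 0, HasDerivAt (fun t : ℝ => r (p + t • v)) (g' t) t)
    (h2 : HasDerivAt g' c 0) : fderiv ℝ (fderiv ℝ r) p v v = c := by
  have hd : DifferentiableAt ℝ (fderiv ℝ r) p :=
    (hr.fderiv_right (m := 1) (by norm_num)).differentiableAt (by norm_num)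
  have hdiff : ∀ᶠ w in 𝓝 p, DifferentiableAt ℝ r w :=
    (hr.eventually (by norm_num)).mono fun w hw => hw.differentiableAt (by norm_num)
  have hl : ∀ t : ℝ, HasDerivAt (fun t : ℝ => p + t • v) v t := fun t => by
    have := ((hasDerivAt_id t).smul_const v).const_add p
    simpa using this
  have hc : Tendsto (fun t : ℝ => p + t • v) (𝓝 0) (𝓝 p) := by
    have := (hl 0).continuousAt.tendsto
    simpa using this
  have h3 : ∀ᶠ t : ℝ in 𝓝 0, fderiv ℝ r (p + t • v) v = g' t := by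
    filter_upwards [hc.eventually hdiff, h1] with t ht ht2
    exact (ht.hasFDerivAt.comp_hasDerivAt t (hl t)).unique ht2
  have h4 : HasDerivAt (fun t : ℝ => fderiv ℝ r (p + t • v) v)
      (fderiv ℝ (fderiv ℝ r) p v v) 0 := by
    have hd' : HasFDerivAt (fderiv ℝ r) (fderiv ℝ (fderiv ℝ r) p) (p + (0 : ℝ) • v) := by
      rw [zero_smul, add_zero]; exact hd.hasFDerivAt
    have h5 := hd'.comp_hasDerivAt 0 (hl 0)
    have h6 := h5.clm_apply (hasDerivAt_const (0 : ℝ) v)
    simpa using h6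
  exact h4.unique (h2.congr_of_eventuallyEq h3)

/-- the restriction of `ev F` to a real line through `0` in the `z`-direction -/
lemma ev_line (hEVA : SpecEVA) (hEVS : SpecEVS) {m d : ℕ} {F : PS (Ki m d)} (hF : Conv F)
    (a : Fin m → ℂ) :
    Conv (F.subst (ray (d := d) a)) ∧ ∀ᶠ t : ℝ in 𝓝 0,
      ev F (rl (t • (Sum.elim (Sum.elim (fun j => (a j).re) (fun j => (a j).im)) 0 :
        Ki m d → ℝ))) = ev (F.subst (ray (d := d) a)) (fun _ => (t : ℂ)) := by
  obtain ⟨h1, h2, h3, h4, h5, h6, h7⟩ := hEVA Unit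
  have hray : ∀ k, Conv (ray (d := d) a k) ∧ Z0 (ray (d := d) a k) := by
    intro k
    rcases k with (j | j) | l
    · exact ⟨conv_mul (conv_C _) (conv_X _), by simp [ray, Z0]⟩
    · exact ⟨conv_mul (conv_C _) (conv_X _), by simp [ray, Z0]⟩
    · exact ⟨conv_zero, by simp [ray, Z0]⟩
  refine ⟨specCNS ℂ _ specCNV.2 _ _ F _ hF hray, ?_⟩
  have e1 := eventually_all.2 fun j : Fin m =>
    h2 (C ((a j).re : ℂ)) (X ()) (conv_C _) (conv_X _)
  have e2 := eventually_all.2 fun j : Fin m =>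
    h2 (C ((a j).im : ℂ)) (X ()) (conv_C _) (conv_X _)
  have ht : Tendsto (fun t : ℝ => (fun _ => (t : ℂ) : Unit → ℂ)) (𝓝 0) (𝓝 0) := by
    rw [tendsto_pi_nhds]
    intro _
    have := Complex.continuous_ofReal.tendsto 0
    simpa using this
  filter_upwards [ht.eventually (hEVS _ _ F _ hF hray), ht.eventually e1, ht.eventually e2]
    with t g1 g2 g3
  rw [g1]
  congr 1
  funext k
  rcases k with (j | j) | l
  · show (((t • (Sum.elim (Sum.elim (fun j => (a j).re) (fun j => (a j).im)) 0 :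
        Ki m d → ℝ)) (Sum.inl (Sum.inl j)) : ℝ) : ℂ) = ev (C ((a j).re : ℂ) * X ()) _
    rw [(g2 j).2.1, h3, h4]
    simp [mul_comm]
  · show (((t • (Sum.elim (Sum.elim (fun j => (a j).re) (fun j => (a j).im)) 0 :
        Ki m d → ℝ)) (Sum.inl (Sum.inr j)) : ℝ) : ℂ) = ev (C ((a j).im : ℂ) * X ()) _
    rw [(g3 j).2.1, h3, h4]
    simp [mul_comm]
  · show (((t • (Sum.elim (Sum.elim (fun j => (a j).re) (fun j => (a j).im)) 0 :
        Ki m d → ℝ)) (Sum.inr l) : ℝ) : ℂ) = ev (0 : PS Unit) _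
    have h8 := h3 0 (fun _ => (t : ℂ))
    rw [map_zero] at h8
    rw [h8]
    simp

lemma coeff_pp (G : PS Unit) : constantCoeff (pderiv ℂ () (pderiv ℂ () G)) =
    2 * coeff (Finsupp.single () 2) G := by
  rw [← coeff_zero_eq_constantCoeff_apply, coeff_pderiv, coeff_pderiv, zero_add,
    ← Finsupp.single_add]
  simp
  ring

variable {n m d : ℕ}

/-- the defining function `Im (π(w - p))_l - Re φ_l(…)` -/
def rfun (π : (Fin n → ℂ) →L[ℂ] (Zi m d → ℂ)) (F : PS (Ki m d)) (l : Fin d) (p w : Fin n → ℂ) :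
    ℝ :=
  (π (w - p) (Sum.inr l)).im - (ev F (rl (rc (π (w - p))))).re

/-- the real linear map `v ↦ rc (π v)` -/
def Am (π : (Fin n → ℂ) →L[ℂ] (Zi m d → ℂ)) : (Fin n → ℂ) →L[ℝ] (Ki m d → ℝ) :=
  (rcL m d).comp (π.restrictScalars ℝ)

lemma Am_apply (π : (Fin n → ℂ) →L[ℂ] (Zi m d → ℂ)) (v : Fin n → ℂ) :
    Am π v = rc (π v) := rcL_apply _

/-- the real linear map `v ↦ Im (π v)_l` -/
def Lm (π : (Fin n → ℂ) →L[ℂ] (Zi m d → ℂ)) (l : Fin d) : (Fin n → ℂ) →L[ℝ] ℝ :=
  Complex.imCLM.comp ((ContinuousLinearMap.proj (R := ℝ) (φ := fun _ : Zi m d => ℂ)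
    (Sum.inr l)).comp (π.restrictScalars ℝ))

lemma Lm_apply (π : (Fin n → ℂ) →L[ℂ] (Zi m d → ℂ)) (l : Fin d) (v : Fin n → ℂ) :
    Lm π l v = (π v (Sum.inr l)).im := rfl

lemma rfun_eq (π : (Fin n → ℂ) →L[ℂ] (Zi m d → ℂ)) (F : PS (Ki m d)) (l : Fin d)
    (p : Fin n → ℂ) : rfun π F l p = fun w => Lm π l (w - p) -
      Complex.reCLM (ev F (rl (Am π (w - p)))) := by
  funext w
  rw [Am_apply]
  rfl

lemma sub_tendsto (π : (Fin n → ℂ) →L[ℂ] (Zi m d → ℂ)) (p : Fin n → ℂ) :
    Tendsto (fun w => Am π (w - p)) (𝓝 p) (𝓝 0) := by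
  have h : Continuous fun w => Am π (w - p) := (Am π).continuous.comp (continuous_id.sub continuous_const)
  have := h.tendsto p
  simpa using this

lemma rfun_analyticAt (hEVA : SpecEVA) (π : (Fin n → ℂ) →L[ℂ] (Zi m d → ℂ)) {F : PS (Ki m d)}
    (hF : Conv F) (l : Fin d) (p : Fin n → ℂ) : AnalyticAt ℝ (rfun π F l p) p := by
  rw [rfun_eq]
  have h1 : AnalyticAt ℝ (fun w : Fin n → ℂ => w - p) p := analyticAt_id.sub analyticAt_const
  have h2 : AnalyticAt ℝ (fun w : Fin n → ℂ => Am π (w - p)) p :=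
    ((Am π).analyticAt _).fun_comp h1
  have h3 : AnalyticAt ℝ (fun y : Ki m d → ℝ => ev F (rl y)) (Am π (p - p)) := by
    rw [sub_self, map_zero]
    exact analyticAt_rl hEVA hF
  have h4 : AnalyticAt ℝ (fun w : Fin n → ℂ => ev F (rl (Am π (w - p)))) p :=
    AnalyticAt.fun_comp (g := fun y : Ki m d → ℝ => ev F (rl y)) h3 h2
  exact (((Lm π l).analyticAt _).fun_comp h1).sub ((Complex.reCLM.analyticAt _).fun_comp h4)

/-- the differential of `rfun` at `p` -/
lemma rfun_fderiv (hEVA : SpecEVA) (π : (Fin n → ℂ) →L[ℂ] (Zi m d → ℂ)) {F : PS (Ki m d)}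
    (hF : Conv F) (hlin : ∀ k, lin F k = 0) (l : Fin d) (p : Fin n → ℂ) (u : Fin n → ℂ) :
    fderiv ℝ (rfun π F l p) p u = (π u (Sum.inr l)).im := by
  have h0 := (hasFDerivAt_rl hEVA hF).self_of_nhds
  have h1 : (∑ i, ev (pderiv ℂ i F) (rl 0) •
      (Complex.ofRealCLM.comp (ContinuousLinearMap.proj i : (Ki m d → ℝ) →L[ℝ] ℝ))) = 0 := by
    refine Finset.sum_eq_zero fun i _ => ?_
    have h2 : ev (pderiv ℂ i F) (rl 0) = 0 := by
      have h3 : (rl (0 : Ki m d → ℝ)) = 0 := by funext k; simp [rl]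
      rw [h3, ev_zero hEVA (conv_pderiv hF i), ← coeff_zero_eq_constantCoeff_apply,
        coeff_pderiv, zero_add]
      have := hlin i
      rw [lin] at this
      rw [this, zero_mul]
    rw [h2]
    ext x
    simp
  rw [h1] at h0
  have h2 : HasFDerivAt (fun w : Fin n → ℂ => w - p) (ContinuousLinearMap.id ℝ (Fin n → ℂ)) p :=
    (hasFDerivAt_id p).sub_const p
  have h3 : HasFDerivAt (fun w : Fin n → ℂ => Am π (w - p))
      ((Am π).comp (ContinuousLinearMap.id ℝ (Fin n → ℂ))) p :=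
    (Am π).hasFDerivAt.comp p h2
  have h4 : HasFDerivAt (𝕜 := ℝ) (fun w : Fin n → ℂ => ev F (rl (Am π (w - p))))
      ((0 : (Ki m d → ℝ) →L[ℝ] ℂ).comp
        ((Am π).comp (ContinuousLinearMap.id ℝ (Fin n → ℂ)))) p := by
    refine HasFDerivAt.comp p (g := fun y : Ki m d → ℝ => ev F (rl y)) ?_ h3
    rw [sub_self, map_zero]
    exact h0
  have h5 : HasFDerivAt (𝕜 := ℝ) (rfun π F l p)
      ((Lm π l).comp (ContinuousLinearMap.id ℝ (Fin n → ℂ)) -
        Complex.reCLM.comp ((0 : (Ki m d → ℝ) →L[ℝ] ℂ).comp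
        ((Am π).comp (ContinuousLinearMap.id ℝ (Fin n → ℂ))))) p := by
    rw [rfun_eq]
    exact ((Lm π l).hasFDerivAt.comp p h2).sub (Complex.reCLM.hasFDerivAt.comp p h4)
  rw [h5.fderiv]
  simp [Lm_apply]

/-- the second differential of `rfun` at `p` in complex tangent directions -/
lemma rfun_fderiv2 (hEVA : SpecEVA) (hEVS : SpecEVS) (π : (Fin n → ℂ) →L[ℂ] (Zi m d → ℂ))
    {F : PS (Ki m d)} (hF : Conv F) (l : Fin d) (p : Fin n → ℂ) (v : Fin n → ℂ)
    (hv : ∀ l, π v (Sum.inr l) = 0) :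
    fderiv ℝ (fderiv ℝ (rfun π F l p)) p v v =
      -2 * (coeff (Finsupp.single () 2)
        (F.subst (ray (d := d) fun j => π v (Sum.inl j)))).re := by
  set a : Fin m → ℂ := fun j => π v (Sum.inl j) with ha
  obtain ⟨hG, hGt⟩ := ev_line hEVA hEVS (d := d) hF a
  set G := F.subst (ray (d := d) a) with hGdef
  have hcd : ContDiffAt ℝ 2 (rfun π F l p) p := (rfun_analyticAt hEVA π hF l p).contDiffAt
  have hAv : Am π v = (Sum.elim (Sum.elim (fun j => (a j).re) (fun j => (a j).im)) 0 :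
      Ki m d → ℝ) := by
    rw [Am_apply]
    funext k
    rcases k with (j | j) | l
    · rfl
    · rfl
    · show (π v (Sum.inr l)).re = 0
      rw [hv l]; rfl
  have hline : ∀ᶠ t : ℝ in 𝓝 0, rfun π F l p (p + t • v) =
      -(ev G (fun _ => (t : ℂ))).re := by
    filter_upwards [hGt] with t ht
    rw [rfun_eq]
    simp only [add_sub_cancel_left]
    rw [map_smul, map_smul, hAv, ht, Lm_apply, hv l]
    simp
  have h1 : ∀ᶠ t : ℝ in 𝓝 0, HasDerivAt (fun t : ℝ => rfun π F l p (p + t • v))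
      (-(ev (pderiv ℂ () G) (fun _ => (t : ℂ))).re) t := by
    filter_upwards [eventually_eventually_nhds.2 hline, deriv_ev1 hEVA hG] with t h2 h3
    have h4 : HasDerivAt (fun t : ℝ => -(ev G (fun _ => (t : ℂ))).re)
        (-(ev (pderiv ℂ () G) (fun _ => (t : ℂ))).re) t :=
      (Complex.reCLM.hasFDerivAt.comp_hasDerivAt t h3).neg
    exact h4.congr_of_eventuallyEq h2
  have h2 : HasDerivAt (fun t : ℝ => -(ev (pderiv ℂ () G) (fun _ => (t : ℂ))).re)
      (-(ev (pderiv ℂ () (pderiv ℂ () G)) (fun _ => ((0 : ℝ) : ℂ))).re) 0 :=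
    (Complex.reCLM.hasFDerivAt.comp_hasDerivAt 0
      (deriv_ev1 hEVA (conv_pderiv hG ())).self_of_nhds).neg
  rw [second_deriv hcd v h1 h2]
  have h3 : (fun _ => ((0 : ℝ) : ℂ) : Unit → ℂ) = 0 := by funext; simp
  rw [h3, ev_zero hEVA (conv_pderiv (conv_pderiv hG ()) ()), coeff_pp]
  simp

/-- `rfun` vanishes on `M` near `p` -/
lemma rfun_zero (hEVA : SpecEVA) {M : Set (Fin n → ℂ)} {p : Fin n → ℂ}
    {π : (Fin n → ℂ) →L[ℂ] (Zi m d → ℂ)}
    {φ : Fin d → PS (Ki m d)} {σ : (Ki m d → ℝ) → (Fin n → ℂ)} (hpar : IsPar M p π φ σ)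
    (l : Fin d) : ∀ᶠ w in 𝓝[M] p, rfun π (φ l) l p w = 0 := by
  have ht : Tendsto (fun w => Am π (w - p)) (𝓝[M] p) (𝓝 0) :=
    (sub_tendsto π p).mono_left nhdsWithin_le_nhds
  filter_upwards [hpar.surj, ht.eventually hpar.graph, ht.eventually (Zm_eq hEVA hpar.phi)]
    with w h1 h2 h3
  rw [Am_apply] at h2 h3
  rw [h1] at h2
  rw [rfun]
  conv_lhs => rw [h2]
  rw [h3.2 l, ← h2]
  simp

end LevfM

open LevfM in
theorem specLEVF (hEVA : SpecEVA) (hEVS : SpecEVS) (hLEVD : SpecLEVD) : SpecLEVF := by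
  intro n m d M p π φ σ hp hpar v hv b hb hLevi l
  obtain ⟨Y, hY, hYt, hYp, hbr, hmk⟩ := hLevi
  have h1 := hLEVD n M p hp (rfun π (φ l) l p)
    ((rfun_analyticAt hEVA π (hpar.phi.conv l) l p).contDiffAt) (rfun_zero hEVA hpar l) Y hY hYt
  rw [hYp, rfun_fderiv hEVA π (hpar.phi.conv l) (hpar.phi.lin l)] at h1
  have hIv : Complex.I • v ∈ ctangent M p := (ctangent M p).smul_mem _ hv
  rw [rfun_fderiv2 hEVA hEVS π (hpar.phi.conv l) l p v (hpar.ctan v hv),
    rfun_fderiv2 hEVA hEVS π (hpar.phi.conv l) l p _ (hpar.ctan _ hIv)] at h1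
  have h2 : b - VectorField.lieBracket ℝ Y (fun w => Complex.I • Y w) p ∈ ctangent M p := by
    have h3 := (Submodule.Quotient.eq _).1 hmk
    exact h3
  have h4 := hpar.ctan _ h2 l
  rw [map_sub] at h4
  have h5 : π b (Sum.inr l) =
      π (VectorField.lieBracket ℝ Y (fun w => Complex.I • Y w) p) (Sum.inr l) := by
    rw [Pi.sub_apply, sub_eq_zero] at h4
    exact h4
  have h6 : (π (Complex.I • VectorField.lieBracket ℝ Y (fun w => Complex.I • Y w) p)
      (Sum.inr l)).im =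
      (π (VectorField.lieBracket ℝ Y (fun w => Complex.I • Y w) p) (Sum.inr l)).re := by
    rw [map_smul]
    simp
  have h7 : (fun j => π (Complex.I • v) (Sum.inl j)) =
      Complex.I • fun j : Fin m => π v (Sum.inl j) := by
    rw [map_smul]; rfl
  rw [h5, ← h6, h1, h7]
  rw [lev, qd, qd]
  ring

end

end Pool.Agent.Lib.MP_2184e2_an.Loc
end

section
/-!
# MP_2184e2_an, local theorem: module PARA
-/
set_option autoImplicit false

namespace Pool.Agent.Lib.MP_2184e2_an.Loc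

open MvPowerSeries Filter Topology Set
open scoped ContDiff ComplexConjugate

noncomputable section

namespace ParaM

open EvbM

/-- local analytic parametrization of a regular zero set -/
lemma exists_param {V Y X : Type} [NormedAddCommGroup V] [NormedSpace ℝ V]
    [FiniteDimensional ℝ V] [NormedAddCommGroup Y] [NormedSpace ℝ Y] [FiniteDimensional ℝ Y]
    [NormedAddCommGroup X] [NormedSpace ℝ X] [FiniteDimensional ℝ X] (ρ : V → Y)
    (A : V →L[ℝ] X) (p : V) (hρ : AnalyticAt ℝ ρ p) (hρ0 : ρ p = 0)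
    (hinj : ∀ v, fderiv ℝ ρ p v = 0 → A v = 0 → v = 0)
    (hdim : Module.finrank ℝ V = Module.finrank ℝ Y + Module.finrank ℝ X) :
    ∃ σ : X → V, AnalyticAt ℝ σ 0 ∧ σ 0 = p ∧
      (∀ᶠ x in 𝓝 (0 : X), ρ (σ x) = 0 ∧ A (σ x - p) = x) ∧
      ∀ᶠ w in 𝓝 p, ρ w = 0 → σ (A (w - p)) = w := by
  have : CompleteSpace V := FiniteDimensional.complete ℝ V
  let Φ : V → Y × X := fun w => (ρ w, A (w - p))
  have hsub : AnalyticAt ℝ (fun w : V => w - p) p := analyticAt_id.sub analyticAt_const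
  have hΦ : AnalyticAt ℝ Φ p := hρ.prod ((A.analyticAt _).fun_comp hsub)
  have hΦ0 : Φ p = 0 := by
    show (ρ p, A (p - p)) = 0
    rw [hρ0, sub_self, map_zero]; rfl
  have hD : HasFDerivAt Φ ((fderiv ℝ ρ p).prod A) p := by
    refine hρ.differentiableAt.hasFDerivAt.prodMk ?_
    have h1 : HasFDerivAt (fun w : V => w - p) (ContinuousLinearMap.id ℝ V) p :=
      (hasFDerivAt_id p).sub_const p
    have h2 := A.hasFDerivAt.comp p h1
    rwa [ContinuousLinearMap.comp_id] at h2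
  have hDinj : Function.Injective ((fderiv ℝ ρ p).prod A).toLinearMap := by
    rw [injective_iff_map_eq_zero]
    intro v hv
    have h1 : (fderiv ℝ ρ p v, A v) = (0, 0) := hv
    rw [Prod.mk.injEq] at h1
    exact hinj v h1.1 h1.2
  let e : V ≃ₗ[ℝ] (Y × X) := LinearEquiv.ofInjectiveOfFinrankEq _ hDinj
    (by rw [hdim, Module.finrank_prod])
  let E : V ≃L[ℝ] (Y × X) := e.toContinuousLinearEquiv
  have hE : (E : V →L[ℝ] Y × X) = (fderiv ℝ ρ p).prod A := by
    ext v <;> rfl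
  have hs : HasStrictFDerivAt Φ (E : V →L[ℝ] Y × X) p := by
    rw [hE, ← hD.fderiv]
    exact hΦ.hasStrictFDerivAt
  let g := hs.localInverse Φ E p
  have hg : AnalyticAt ℝ g (Φ p) := by
    refine OpenPartialHomeomorph.analyticAt_symm' (hs.toOpenPartialHomeomorph Φ) (i := E)
      hs.mem_toOpenPartialHomeomorph_source ?_ ?_
    · exact hΦ
    · rw [hE]
      exact hD.fderiv
  rw [hΦ0] at hg
  have hg0 : g 0 = p := by
    have := hs.localInverse_apply_image
    rw [hΦ0] at this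
    exact this
  have hin : AnalyticAt ℝ (fun x : X => ((0 : Y), x)) 0 := analyticAt_const.prod analyticAt_id
  have hri := hs.eventually_right_inverse
  have hli := hs.eventually_left_inverse
  rw [hΦ0] at hri
  refine ⟨fun x => g (0, x), ?_, hg0, ?_, ?_⟩
  · exact AnalyticAt.fun_comp (g := g) (f := fun x : X => ((0 : Y), x)) hg hin
  · have ht : Tendsto (fun x : X => ((0 : Y), x)) (𝓝 0) (𝓝 0) := hin.continuousAt.tendsto
    filter_upwards [ht.eventually hri] with x hx
    have h1 : (ρ (g (0, x)), A (g (0, x) - p)) = (0, x) := hx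
    rw [Prod.mk.injEq] at h1
    exact h1
  · filter_upwards [hli] with w hw h0
    have h1 : g (ρ w, A (w - p)) = w := hw
    rw [h0] at h1
    exact h1

end ParaM

open ParaM EvbM in
theorem specPARA (hEVA : SpecEVA) (hRAP : SpecRAP) (hTAN : SpecTAN) (hPARL : SpecPARL) :
    SpecPARA := by
  intro n c m M hCR p hp
  obtain ⟨ρ, hρ, hρs, h0, hT, hdim⟩ := hTAN n c M hCR.1 p hp
  obtain ⟨d, hd, π, htan, hctan, honto, hinj, honto2⟩ :=
    hPARL n m (tangent M p) (ctangent M p) (fun v => Iff.rfl) (hCR.2 p hp)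
  have hdims : 2 * n = c + 2 * m + d := by omega
  have hρ0 : ρ p = 0 := (h0.self_of_nhds).1 hp
  have hTp := hT.self_of_nhdsWithin hp
  have hfV : Module.finrank ℝ (Fin n → ℂ) = 2 * n := by
    rw [Module.finrank_pi_fintype]
    simp [Complex.finrank_real_complex, mul_comm]
  let A : (Fin n → ℂ) →L[ℝ] (Ki m d → ℝ) := (rcL m d).comp (π.restrictScalars ℝ)
  have hA : ∀ v, A v = rc (π v) := fun v => rcL_apply _
  have hAinj : ∀ v, fderiv ℝ ρ p v = 0 → A v = 0 → v = 0 := by
    intro v hv hAv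
    have hvT : v ∈ tangent M p := (hTp v).2 hv
    apply hinj v hvT
    rw [hA] at hAv
    funext i
    rcases i with j | l
    · exact Complex.ext (congrFun hAv (Sum.inl (Sum.inl j))) (congrFun hAv (Sum.inl (Sum.inr j)))
    · exact Complex.ext (congrFun hAv (Sum.inr l)) (htan v hvT l)
  obtain ⟨σ, hσ, hσ0, hσ1, hσ2⟩ := exists_param ρ A p hρ hρ0 hAinj (by
    rw [hfV, Module.finrank_fin_fun, Module.finrank_fintype_fun_eq_card]
    simp only [Fintype.card_sum, Fintype.card_fin]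
    omega)
  have hσt : Tendsto σ (𝓝 0) (𝓝 p) := by
    have := hσ.continuousAt.tendsto
    rwa [hσ0] at this
  have hmem : ∀ᶠ x in 𝓝 (0 : Ki m d → ℝ), σ x ∈ M := by
    filter_upwards [hσt.eventually h0, hσ1] with x h1 h2
    exact h1.2 h2.1
  have hana : ∀ᶠ x in 𝓝 (0 : Ki m d → ℝ), AnalyticAt ℝ σ x := hσ.eventually_analyticAt
  have hAσ : ∀ᶠ x in 𝓝 (0 : Ki m d → ℝ), ∀ u, A (fderiv ℝ σ x u) = u := by
    filter_upwards [eventually_eventually_nhds.2 hσ1, hana] with x h1 h2 u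
    have h3 : HasFDerivAt (𝕜 := ℝ) (fun y => A (σ y - p)) (A.comp (fderiv ℝ σ x)) x :=
      A.hasFDerivAt.comp x (h2.differentiableAt.hasFDerivAt.sub_const p)
    have h4 : HasFDerivAt (𝕜 := ℝ) (fun y => A (σ y - p)) (ContinuousLinearMap.id ℝ _) x :=
      (hasFDerivAt_id x).congr_of_eventuallyEq (h1.mono fun y hy => hy.2)
    exact congrArg (fun L : (Ki m d → ℝ) →L[ℝ] (Ki m d → ℝ) => L u) (h3.unique h4)
  have hσM : Tendsto σ (𝓝 0) (𝓝[M] p) := tendsto_nhdsWithin_iff.2 ⟨hσt, hmem⟩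
  have hρan : ∀ᶠ w in 𝓝 p, AnalyticAt ℝ ρ w := hρ.eventually_analyticAt
  have hrng : ∀ᶠ x in 𝓝 (0 : Ki m d → ℝ), ∀ v, v ∈ tangent M (σ x) ↔
      ∃ k, fderiv ℝ σ x k = v := by
    filter_upwards [hmem, hana, hAσ, hσM.eventually hT, eventually_eventually_nhds.2 hσ1,
      hσt.eventually hρan] with x h1 h2 h3 h4 h5 h6
    have h7 : ∀ k, fderiv ℝ σ x k ∈ tangent M (σ x) := by
      intro k
      rw [h4]
      have h8 : HasFDerivAt (𝕜 := ℝ) (fun y => ρ (σ y))
          ((fderiv ℝ ρ (σ x)).comp (fderiv ℝ σ x)) x :=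
        h6.differentiableAt.hasFDerivAt.comp x h2.differentiableAt.hasFDerivAt
      have h9 : HasFDerivAt (𝕜 := ℝ) (fun y => ρ (σ y)) (0 : (Ki m d → ℝ) →L[ℝ] (Fin c → ℝ)) x :=
        (hasFDerivAt_const (0 : Fin c → ℝ) x).congr_of_eventuallyEq (h5.mono fun y hy => hy.1)
      exact congrArg (fun L : (Ki m d → ℝ) →L[ℝ] (Fin c → ℝ) => L k) (h8.unique h9)
    have hSinj : Function.Injective (fderiv ℝ σ x).toLinearMap := by
      intro u v huv
      have : fderiv ℝ σ x u = fderiv ℝ σ x v := huv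
      rw [← h3 u, ← h3 v, this]
    obtain ⟨_, _, _, _, _, hdimx⟩ := hTAN n c M hCR.1 (σ x) h1
    have hle : LinearMap.range (fderiv ℝ σ x).toLinearMap ≤ tangent M (σ x) := by
      rintro _ ⟨k, rfl⟩
      exact h7 k
    have heq : LinearMap.range (fderiv ℝ σ x).toLinearMap = tangent M (σ x) := by
      refine Submodule.eq_of_le_of_finrank_le hle ?_
      rw [LinearMap.finrank_range_of_inj hSinj, Module.finrank_fintype_fun_eq_card]
      simp only [Fintype.card_sum, Fintype.card_fin]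
      omega
    intro v
    rw [← heq]
    exact Iff.rfl
  have htan0 : ∀ u l, (π (fderiv ℝ σ 0 u) (Sum.inr l)).im = 0 := by
    intro u l
    apply htan
    have h3 := hrng.self_of_nhds
    rw [hσ0] at h3
    exact (h3 _).2 ⟨u, rfl⟩
  -- the functions whose power series are `φ`
  let q : Fin d → (Ki m d → ℝ) → ℂ := fun l x => (((π (σ x - p)) (Sum.inr l)).im : ℂ)
  have hq : ∀ l, AnalyticAt ℝ (q l) 0 := by
    intro l
    let B : (Fin n → ℂ) →L[ℝ] ℂ := Complex.ofRealCLM.comp (Complex.imCLM.comp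
      ((ContinuousLinearMap.proj (R := ℝ) (φ := fun _ : Zi m d => ℂ) (Sum.inr l)).comp
        (π.restrictScalars ℝ)))
    exact (B.analyticAt _).fun_comp (hσ.sub analyticAt_const)
  have hqd : ∀ l k, pd (q l) k 0 = 0 := by
    intro l k
    let B : (Fin n → ℂ) →L[ℝ] ℂ := Complex.ofRealCLM.comp (Complex.imCLM.comp
      ((ContinuousLinearMap.proj (R := ℝ) (φ := fun _ : Zi m d => ℂ) (Sum.inr l)).comp
        (π.restrictScalars ℝ)))
    have h1 : HasFDerivAt (𝕜 := ℝ) (q l) (B.comp (fderiv ℝ σ 0)) 0 :=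
      B.hasFDerivAt.comp 0 (hσ.differentiableAt.hasFDerivAt.sub_const p)
    rw [pd, h1.fderiv]
    show (((π (fderiv ℝ σ 0 (Pi.single k 1)) (Sum.inr l)).im : ℝ) : ℂ) = 0
    rw [htan0, Complex.ofReal_zero]
  have hex : ∀ l, ∃ F : PS (Ki m d), Conv F ∧
      ∀ᶠ x in 𝓝 (0 : Ki m d → ℝ), q l x = ev F (rl x) := fun l =>
    (hRAP (Ki m d)).1 (q l) (hq l)
  choose φ hφ1 hφ2 using hex
  have hφ : IsPhi φ := by
    refine ⟨hφ1, fun l => ?_, fun l => ?_, fun l k => ?_⟩
    · obtain ⟨_, e2, _, _, _, e6, e7⟩ := hEVA (Ki m d)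
      have hcj : Conv (cj (φ l)) := by
        obtain ⟨C, hC, h⟩ := hφ1 l
        refine ⟨C, hC, fun k => ?_⟩
        have : ‖coeff k (cj (φ l))‖ = ‖coeff k (φ l)‖ := by
          rw [cj, coeff_map]
          exact Complex.norm_conj _
        exact this.trans_le (h k)
      rw [← sub_eq_zero]
      refine e7 _ (conv_sub hcj (hφ1 l)) ?_
      filter_upwards [hφ2 l, tendsto_rl.eventually (e2 (cj (φ l)) (-φ l) hcj (conv_neg (hφ1 l))),
        tendsto_rl.eventually (e2 (φ l) (φ l) (hφ1 l) (hφ1 l))] with x h1 h2 h3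
      rw [sub_eq_add_neg, h2.1, h3.2.2]
      have h4 := e6 (φ l) (rl x)
      have h5 : (fun i => conj (rl x i)) = rl x := by
        funext i
        simp [rl]
      rw [h5] at h4
      rw [h4, ← h1]
      simp [q]
    · have h1 := (hφ2 l).self_of_nhds
      have h2 : rl (0 : Ki m d → ℝ) = 0 := by funext k; simp [rl]
      rw [h2, ev_zero hEVA (hφ1 l)] at h1
      rw [Z0, ← h1]
      show (((π (σ 0 - p)) (Sum.inr l)).im : ℂ) = 0
      rw [hσ0, sub_self, map_zero]
      simp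
    · have h1 := (pd_rl hEVA (hφ1 l)).self_of_nhds k
      have h2 : rl (0 : Ki m d → ℝ) = 0 := by funext k; simp [rl]
      rw [h2, ev_zero hEVA (conv_pderiv (hφ1 l) k), ← coeff_zero_eq_constantCoeff_apply,
        coeff_pderiv, zero_add] at h1
      have h3 : pd (fun y => ev (φ l) (rl y)) k 0 = pd (q l) k 0 := by
        rw [pd, pd, (Filter.EventuallyEq.fderiv_eq (hφ2 l))]
      rw [h3, hqd] at h1
      rw [lin]
      simpa using h1.symm
  refine ⟨d, π, φ, σ, hdims, hφ, hσ, hσ0, hmem, ?_, ?_, hrng, htan, hctan, honto, hinj, honto2⟩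
  · filter_upwards [hσ1, Zm_eq hEVA hφ, eventually_all.2 hφ2] with x h1 h2 h3
    have h4 := h1.2
    rw [hA] at h4
    funext i
    rcases i with j | l
    · have h5 : (π (σ x - p) (Sum.inl j)).re = x (Sum.inl (Sum.inl j)) :=
        congrFun h4 (Sum.inl (Sum.inl j))
      have h6 : (π (σ x - p) (Sum.inl j)).im = x (Sum.inl (Sum.inr j)) :=
        congrFun h4 (Sum.inl (Sum.inr j))
      rw [h2.1 j, ← h5, ← h6, mul_comm, Complex.re_add_im]
    · have h5 : (π (σ x - p) (Sum.inr l)).re = x (Sum.inr l) := congrFun h4 (Sum.inr l)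
      rw [h2.2 l, ← h5, ← h3 l]
      show _ = _ + Complex.I * (((π (σ x - p)) (Sum.inr l)).im : ℂ)
      rw [mul_comm, Complex.re_add_im]
  · filter_upwards [hσ2.filter_mono nhdsWithin_le_nhds, h0.filter_mono nhdsWithin_le_nhds,
      self_mem_nhdsWithin] with w h1 h2 h3
    have h4 := h1 (h2.1 h3)
    rw [hA] at h4
    exact h4

end

end Pool.Agent.Lib.MP_2184e2_an.Loc
end

section
/-!
# MP_2184e2_an, local theorem: module PARC
-/
set_option autoImplicit false

namespace Pool.Agent.Lib.MP_2184e2_an.Loc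

open MvPowerSeries Filter Topology Set
open scoped ContDiff ComplexConjugate

noncomputable section

namespace ParcM

open EvbM

/-- real parts -/
def reK (κ : Type) [Fintype κ] : (κ → ℂ) →L[ℝ] (κ → ℝ) :=
  ContinuousLinearMap.pi fun k => Complex.reCLM.comp (ContinuousLinearMap.proj k)

/-- imaginary parts -/
def imK (κ : Type) [Fintype κ] : (κ → ℂ) →L[ℝ] (κ → ℝ) :=
  ContinuousLinearMap.pi fun k => Complex.imCLM.comp (ContinuousLinearMap.proj k)

section

variable {κ : Type} [Fintype κ] {n : ℕ}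

/-- the complexification of a real linear map -/
def cx (S : (κ → ℝ) →L[ℝ] (Fin n → ℂ)) : (κ → ℂ) →L[ℝ] (Fin n → ℂ) :=
  S.comp (reK κ) + Complex.I • S.comp (imK κ)

lemma cx_apply (S : (κ → ℝ) →L[ℝ] (Fin n → ℂ)) (c : κ → ℂ) :
    cx S c = S (fun k => (c k).re) + Complex.I • S (fun k => (c k).im) := rfl

lemma cx_sum [DecidableEq κ] (S : (κ → ℝ) →L[ℝ] (Fin n → ℂ)) (c : κ → ℂ) :
    cx S c = ∑ k, c k • S (Pi.single k 1) := by
  have h : ∀ u : κ → ℝ, S u = ∑ k, (u k : ℂ) • S (Pi.single k 1) := by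
    intro u
    have hu : u = ∑ k, u k • (Pi.single k (1 : ℝ) : κ → ℝ) := by
      rw [← Finset.univ_sum_single u]
      refine Finset.sum_congr rfl fun i _ => ?_
      ext k
      by_cases hk : k = i
      · subst hk; simp
      · simp [Pi.single_eq_of_ne hk]
    conv_lhs => rw [hu]
    rw [map_sum]
    refine Finset.sum_congr rfl fun k _ => ?_
    rw [map_smul]
    ext i
    simp
  rw [cx_apply, h (fun k => (c k).re), h (fun k => (c k).im), Finset.smul_sum,
    ← Finset.sum_add_distrib]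
  refine Finset.sum_congr rfl fun k _ => ?_
  rw [smul_smul, ← add_smul, mul_comm Complex.I, Complex.re_add_im]

lemma cx_continuous : Continuous (cx : ((κ → ℝ) →L[ℝ] (Fin n → ℂ)) → _) := by
  unfold cx
  fun_prop

end

lemma surjNear (X E F : Type) [TopologicalSpace X] [NormedAddCommGroup E] [NormedSpace ℝ E]
    [NormedAddCommGroup F] [NormedSpace ℝ F] [FiniteDimensional ℝ F] (A : X → (E →L[ℝ] F)) (p : X)
    (hA : ContinuousAt A p) (hs : Function.Surjective (A p)) :
    ∀ᶠ w in 𝓝 p, Function.Surjective (A w) := by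
  obtain ⟨R, hR⟩ := (A p).toLinearMap.exists_rightInverse_of_surjective
    (LinearMap.range_eq_top.2 hs)
  let R' : F →L[ℝ] E := LinearMap.toContinuousLinearMap R
  have : CompleteSpace F := FiniteDimensional.complete ℝ F
  have h1 : (A p).comp R' = 1 := by
    ext x
    exact LinearMap.congr_fun hR x
  have h2 : ContinuousAt (fun w => (A w).comp R') p := hA.clm_comp continuousAt_const
  have h3 : ∀ᶠ w in 𝓝 p, IsUnit ((A w).comp R') := by
    refine h2.eventually (Units.isOpen.mem_nhds ?_)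
    show IsUnit ((A p).comp R')
    rw [h1]
    exact isUnit_one
  refine h3.mono fun w hw y => ?_
  obtain ⟨u, hu⟩ := hw
  refine ⟨R' ((↑u⁻¹ : F →L[ℝ] F) y), ?_⟩
  have h4 : ((A w).comp R') ((↑u⁻¹ : F →L[ℝ] F) y) = y := by
    rw [← hu]
    have := congrArg (fun L : F →L[ℝ] F => L y) u.mul_inv
    exact this
  exact h4

/-- the linear algebra of the CR equations -/
lemma core {n m d : ℕ} (S : (Ki m d → ℝ) →L[ℝ] (Fin n → ℂ))
    (π : (Fin n → ℂ) →L[ℂ] (Zi m d → ℂ)) (T : Submodule ℝ (Fin n → ℂ))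
    (Tc : Submodule ℂ (Fin n → ℂ)) (hTc : ∀ v, v ∈ Tc → v ∈ T ∧ Complex.I • v ∈ T)
    (hr : ∀ v, v ∈ T → ∃ k, S k = v) (hS : Function.Injective S)
    (hdim : Module.finrank ℂ Tc = m)
    (hB : Function.Surjective ((π.restrictScalars ℝ).comp (cx S))) (c : Ki m d → ℂ)
    (hc : π (cx S c) = 0) : cx S c = 0 := by
  -- the inverse of `S` on `T`
  have hinv : ∀ v : Tc, ∃ b : (Ki m d → ℝ) × (Ki m d → ℝ), S b.1 = -(Complex.I • (v : Fin n → ℂ)) ∧
      S b.2 = v := by
    intro v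
    obtain ⟨h1, h2⟩ := hTc v v.2
    obtain ⟨a, ha⟩ := hr _ (T.neg_mem h2)
    obtain ⟨b, hb⟩ := hr _ h1
    exact ⟨(a, b), ha, hb⟩
  choose g hg1 hg2 using hinv
  have hgadd : ∀ v w, g (v + w) = g v + g w := by
    intro v w
    refine Prod.ext (hS ?_) (hS ?_)
    · rw [Prod.fst_add, map_add, hg1, hg1, hg1, Submodule.coe_add, smul_add, neg_add]
    · rw [Prod.snd_add, map_add, hg2, hg2, hg2, Submodule.coe_add]
  have hgsmul : ∀ (r : ℝ) (v : Tc), g (r • v) = r • g v := by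
    intro r v
    refine Prod.ext (hS ?_) (hS ?_)
    · rw [Prod.smul_fst, map_smul, hg1, hg1, Submodule.coe_smul_of_tower, smul_neg,
        smul_comm]
    · rw [Prod.smul_snd, map_smul, hg2, hg2, Submodule.coe_smul_of_tower]
  let G : Tc →ₗ[ℝ] (Ki m d → ℂ) :=
    { toFun := fun v k => ((g v).1 k : ℂ) + Complex.I * ((g v).2 k : ℂ)
      map_add' := fun v w => by
        funext k
        simp only [hgadd, Prod.fst_add, Prod.snd_add, Pi.add_apply, Complex.ofReal_add]
        ring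
      map_smul' := fun r v => by
        funext k
        simp only [hgsmul, Prod.smul_fst, Prod.smul_snd, Pi.smul_apply, smul_eq_mul,
          Complex.ofReal_mul, RingHom.id_apply, Complex.real_smul]
        ring }
  have hGre : ∀ v, (fun k => (G v k).re) = (g v).1 := fun v => by
    funext k
    simp [G]
  have hGim : ∀ v, (fun k => (G v k).im) = (g v).2 := fun v => by
    funext k
    simp [G]
  have hGker : ∀ v, cx S (G v) = 0 := by
    intro v
    rw [cx_apply, hGre, hGim, hg1, hg2]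
    simp
  have hGinj : Function.Injective G := by
    rw [injective_iff_map_eq_zero]
    intro v hv
    have h1 : (g v).2 = 0 := by
      rw [← hGim, hv]
      rfl
    have h2 := hg2 v
    rw [h1, map_zero] at h2
    exact Subtype.ext h2.symm
  let A : (Ki m d → ℂ) →ₗ[ℝ] (Fin n → ℂ) := (cx S).toLinearMap
  let B : (Ki m d → ℂ) →ₗ[ℝ] (Zi m d → ℂ) := ((π.restrictScalars ℝ).comp (cx S)).toLinearMap
  have hAB : LinearMap.ker A ≤ LinearMap.ker B := by
    intro u hu
    rw [LinearMap.mem_ker] at hu ⊢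
    show π (cx S u) = 0
    have : cx S u = 0 := hu
    rw [this, map_zero]
  let G' : Tc →ₗ[ℝ] LinearMap.ker A := G.codRestrict _ fun v => hGker v
  have hG' : Function.Injective G' := fun v w h => hGinj (congrArg Subtype.val h)
  have h1 : Module.finrank ℝ Tc ≤ Module.finrank ℝ (LinearMap.ker A) :=
    LinearMap.finrank_le_finrank_of_injective hG'
  rw [finrank_real_of_complex, hdim] at h1
  have h2 := LinearMap.finrank_range_add_finrank_ker B
  have h3 : LinearMap.range B = ⊤ := LinearMap.range_eq_top.2 hB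
  have hfin : ∀ ι : Type, ∀ [Fintype ι], Module.finrank ℝ (ι → ℂ) = 2 * Fintype.card ι := by
    intro ι _
    rw [Module.finrank_pi_fintype]
    simp [Complex.finrank_real_complex, mul_comm]
  rw [h3, finrank_top, hfin, hfin] at h2
  simp only [Fintype.card_sum, Fintype.card_fin] at h2
  have h4 : LinearMap.ker A = LinearMap.ker B :=
    Submodule.eq_of_le_of_finrank_le hAB (by omega)
  have h5 : c ∈ LinearMap.ker B := hc
  rw [← h4] at h5
  exact h5

end ParcM

open ParcM EvbM in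
theorem specPARC (hEVA : SpecEVA) : SpecPARC := by
  intro n c m d M p π φ σ hCR hp hpar
  -- rc (π (σ y - p)) = y near 0
  have hrc : ∀ᶠ y in 𝓝 (0 : Ki m d → ℝ), rcL m d (π (σ y - p)) = y := by
    filter_upwards [hpar.graph, Zm_eq hEVA hpar.phi] with y h1 h2
    rw [h1, rcL_apply]
    funext k
    rcases k with (j | j) | l
    · show (Zm φ y (Sum.inl j)).re = _
      rw [h2.1 j]; simp
    · show (Zm φ y (Sum.inl j)).im = _
      rw [h2.1 j]; simp
    · show (Zm φ y (Sum.inr l)).re = _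
      rw [h2.2 l]
      have h3 : conj (ev (φ l) (rl y)) = ev (φ l) (rl y) := by
        have h4 := (hEVA (Ki m d)).2.2.2.2.2.1 (φ l) (rl y)
        rw [hpar.phi.real l] at h4
        rw [← h4]
        congr 1
        funext k
        simp [rl]
      have h5 : (ev (φ l) (rl y)).im = 0 := Complex.conj_eq_iff_im.1 h3
      simp [h5]
  have hana : ∀ᶠ x in 𝓝 (0 : Ki m d → ℝ), AnalyticAt ℝ σ x := hpar.ana.eventually_analyticAt
  have hdπ : ∀ x, AnalyticAt ℝ σ x → HasFDerivAt (𝕜 := ℝ) (fun y => π (σ y - p))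
      ((π.restrictScalars ℝ).comp (fderiv ℝ σ x)) x := fun x hx =>
    (π.restrictScalars ℝ).hasFDerivAt.comp x (hx.differentiableAt.hasFDerivAt.sub_const p)
  have hd : ∀ᶠ x in 𝓝 (0 : Ki m d → ℝ), ∀ u, rcL m d (π (fderiv ℝ σ x u)) = u := by
    filter_upwards [eventually_eventually_nhds.2 hrc, hana] with x h1 h2 u
    have h3 : HasFDerivAt (𝕜 := ℝ) (fun y => rcL m d (π (σ y - p)))
        ((rcL m d).comp ((π.restrictScalars ℝ).comp (fderiv ℝ σ x))) x :=
      (rcL m d).hasFDerivAt.comp x (hdπ x h2)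
    have h4 : HasFDerivAt (𝕜 := ℝ) (fun y => rcL m d (π (σ y - p)))
        (ContinuousLinearMap.id ℝ _) x := (hasFDerivAt_id x).congr_of_eventuallyEq h1
    have h5 := h3.unique h4
    exact congrArg (fun L : (Ki m d → ℝ) →L[ℝ] (Ki m d → ℝ) => L u) h5
  have hinj : ∀ᶠ x in 𝓝 (0 : Ki m d → ℝ), Function.Injective (fderiv ℝ σ x) := by
    filter_upwards [hd] with x hx u v huv
    rw [← hx u, ← hx v, huv]
  -- surjectivity of B
  have hB0 : Function.Surjective ((π.restrictScalars ℝ).comp (cx (fderiv ℝ σ 0))) := by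
    have e1 := hd.self_of_nhds
    have e2 : ∀ u l, (π (fderiv ℝ σ 0 u) (Sum.inr l)).im = 0 := by
      intro u l
      apply hpar.tan
      have h3 := hpar.rng.self_of_nhds
      rw [hpar.zero] at h3
      exact (h3 _).2 ⟨u, rfl⟩
    have e3 : ∀ u, π (fderiv ℝ σ 0 u) =
        Sum.elim (fun j => (u (Sum.inl (Sum.inl j)) : ℂ) + Complex.I * u (Sum.inl (Sum.inr j)))
          (fun l => (u (Sum.inr l) : ℂ)) := by
      intro u
      have h3 := e1 u
      rw [rcL_apply] at h3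
      funext i
      rcases i with j | l
      · have h4 : (π (fderiv ℝ σ 0 u) (Sum.inl j)).re = u (Sum.inl (Sum.inl j)) :=
          congrFun h3 (Sum.inl (Sum.inl j))
        have h5 : (π (fderiv ℝ σ 0 u) (Sum.inl j)).im = u (Sum.inl (Sum.inr j)) :=
          congrFun h3 (Sum.inl (Sum.inr j))
        apply Complex.ext
        · simp [h4]
        · simp [h5]
      · have h4 : (π (fderiv ℝ σ 0 u) (Sum.inr l)).re = u (Sum.inr l) :=
          congrFun h3 (Sum.inr l)
        apply Complex.ext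
        · simp [h4]
        · simp [e2 u l]
    intro w
    refine ⟨Sum.elim (Sum.elim (fun j => w (Sum.inl j)) 0) (fun l => w (Sum.inr l)), ?_⟩
    show π (cx (fderiv ℝ σ 0) _) = w
    rw [cx_apply, map_add, map_smul, e3, e3]
    funext i
    rcases i with j | l
    · simp [mul_comm Complex.I]
    · simp [mul_comm Complex.I]
  have hcont : ContinuousAt (fun x => (π.restrictScalars ℝ).comp (cx (fderiv ℝ σ x))) 0 := by
    have h1 : ContinuousAt (fderiv ℝ σ) 0 := hpar.ana.fderiv.continuousAt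
    have h2 : ContinuousAt (fun x => cx (fderiv ℝ σ x)) 0 :=
      cx_continuous.continuousAt.comp h1
    exact continuousAt_const.clm_comp h2
  have hB : ∀ᶠ x in 𝓝 (0 : Ki m d → ℝ),
      Function.Surjective ((π.restrictScalars ℝ).comp (cx (fderiv ℝ σ x))) :=
    surjNear (Ki m d → ℝ) (Ki m d → ℂ) (Zi m d → ℂ) _ 0 hcont hB0
  filter_upwards [hana, hd, hinj, hB, hpar.mem, hpar.rng, eventually_eventually_nhds.2 hpar.graph]
    with x hx1 hx2 hx3 hx4 hx5 hx6 hx7 k c' hc'
  have hsum1 : π (cx (fderiv ℝ σ x) c') = 0 := by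
    rw [cx_sum]
    funext i
    have h1 := hc' i
    have h2 : ∀ k, pd (fun y => Zm φ y i) k x = π (fderiv ℝ σ x (Pi.single k 1)) i := by
      intro k
      have h3 : HasFDerivAt (𝕜 := ℝ) (fun y => Zm φ y)
          ((π.restrictScalars ℝ).comp (fderiv ℝ σ x)) x :=
        (hdπ x hx1).congr_of_eventuallyEq (hx7.mono fun y hy => hy.symm)
      have h4 := hasFDerivAt_pi'.1 h3 i
      rw [pd, h4.fderiv]
      rfl
    simp only [h2] at h1
    rw [map_sum]
    simpa using h1
  have hfin := core (fderiv ℝ σ x) π (tangent M (σ x)) (ctangent M (σ x)) (fun v hv => hv)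
    (fun v hv => (hx6 v).1 hv) hx3 (hCR.2 _ hx5) hx4 c' hsum1
  rw [cx_sum] at hfin
  have h5 : ∀ k', pd (fun y => σ y k) k' x = fderiv ℝ σ x (Pi.single k' 1) k := by
    intro k'
    have h6 := hasFDerivAt_pi'.1 hx1.differentiableAt.hasFDerivAt k
    rw [pd, h6.fderiv]
    rfl
  simp only [h5]
  have h7 := congrFun hfin k
  simpa using h7

end

end Pool.Agent.Lib.MP_2184e2_an.Loc
end
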