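import Pool.Agent.Lib.MP_2184e2_an.Loc.SpecA
import Pool.Agent.Lib.MP_2184e2_an.Loc.Lvs
import Pool.Agent.Lib.MP_2184e2_an.Loc.BSH

/-!
# SOLV: the value of `s` at `ζ = -1`
-/

set_option autoImplicit false
set_option linter.unusedSectionVars false

namespace Pool.Agent.Lib.MP_2184e2_an.Loc

open MvPowerSeries Filter Topology Set
open scoped ContDiff LaurentPolynomial ComplexConjugate

noncomputable section

namespace SOLVM

/-! ## Quadratic part of a substitution -/

section quad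

variable {ι : Type}

theorem exists_single_add {d : ι →₀ ℕ} (hd : d ≠ 0) : ∃ (i : ι) (d' : ι →₀ ℕ),
    d = Finsupp.single i 1 + d' := by
  obtain ⟨i, hi⟩ : ∃ i, d i ≠ 0 := by
    by_contra h
    push Not at h
    exact hd (Finsupp.ext h)
  refine ⟨i, d - Finsupp.single i 1, ?_⟩
  rw [add_tsub_cancel_of_le]
  rw [Finsupp.single_le_iff]
  exact Nat.one_le_iff_ne_zero.2 hi

theorem prod_single_add {S τ : Type} [CommRing S] (b : ι → MvPowerSeries τ S) (i : ι)
    (d' : ι →₀ ℕ) : (Finsupp.single i 1 + d').prod (fun s e => b s ^ e) =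
      b i * d'.prod fun s e => b s ^ e := by
  classical
  rw [Finsupp.prod_add_index' (by simp) (by intros; exact pow_add _ _ _),
    Finsupp.prod_single_index (by simp), pow_one]

variable [Fintype ι] [DecidableEq ι]

/-- the symmetric matrix of the quadratic part -/
def qM (φ : PS ι) (i j : ι) : ℂ :=
  coeff (Finsupp.single i 1 + Finsupp.single j 1) φ * (if i = j then 1 else 1 / 2)

theorem qM_symm (φ : PS ι) (i j : ι) : qM φ i j = qM φ j i := by
  unfold qM
  rw [add_comm]
  by_cases h : i = j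
  · subst h; rfl
  · rw [if_neg h, if_neg (fun h' => h h'.symm)]

/-- the quadratic part -/
def phi2 (φ : PS ι) : PS ι := ∑ i, ∑ j, C (qM φ i j) * (X i * X j)

theorem coeff_XX (d : ι →₀ ℕ) (i j : ι) : coeff d (X i * X j : PS ι) =
    if d = Finsupp.single i 1 + Finsupp.single j 1 then 1 else 0 := by
  rw [X_def, X_def, monomial_mul_monomial, coeff_monomial]
  simp

theorem coeff_phi2 (φ : PS ι) (d : ι →₀ ℕ) : coeff d (phi2 φ) =
    ∑ i, ∑ j, qM φ i j * (if d = Finsupp.single i 1 + Finsupp.single j 1 then 1 else 0) := by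
  unfold phi2
  rw [map_sum]
  apply Finset.sum_congr rfl
  intro i _
  rw [map_sum]
  apply Finset.sum_congr rfl
  intro j _
  rw [coeff_C_mul, coeff_XX]

theorem deg_single_add (i : ι) (d : ι →₀ ℕ) :
    (Finsupp.single i 1 + d).degree = 1 + d.degree := by
  rw [map_add, Finsupp.degree_single]

theorem coeff_phi3 (φ : PS ι) (h0 : Z0 φ) (h1 : ∀ i, lin φ i = 0) (d : ι →₀ ℕ) :
    coeff d (φ - phi2 φ) = 0 ∨ ∃ (i j k : ι) (d' : ι →₀ ℕ),
      d = Finsupp.single i 1 + (Finsupp.single j 1 + (Finsupp.single k 1 + d')) := by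
  have hne : ∀ d : ι →₀ ℕ, d.degree ≠ 2 → coeff d (phi2 φ) = 0 := by
    intro d hd
    rw [coeff_phi2]
    apply Finset.sum_eq_zero
    intro i _
    apply Finset.sum_eq_zero
    intro j _
    rw [if_neg, mul_zero]
    rintro rfl
    apply hd
    rw [deg_single_add, Finsupp.degree_single]
  by_cases hd : d = 0
  · subst hd
    left
    rw [map_sub, hne 0 (by simp), sub_zero]
    exact h0
  · obtain ⟨i, d1, rfl⟩ := exists_single_add hd
    by_cases hd1 : d1 = 0
    · subst hd1
      left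
      rw [map_sub, hne _ (by rw [deg_single_add]; simp), sub_zero, add_zero]
      exact h1 i
    · obtain ⟨j, d2, rfl⟩ := exists_single_add hd1
      by_cases hd2 : d2 = 0
      · subst hd2
        left
        rw [add_zero, map_sub, coeff_phi2, sub_eq_zero]
        have key : ∀ a b : ι, (Finsupp.single i 1 + Finsupp.single j 1 : ι →₀ ℕ) =
            Finsupp.single a 1 + Finsupp.single b 1 ↔ (i = a ∧ j = b) ∨ (i = b ∧ j = a) := by
          intro a b
          rw [Finsupp.single_add_single_eq_single_add_single one_ne_zero one_ne_zero]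
          simp
        simp_rw [key]
        by_cases hij : i = j
        · subst hij
          rw [Finset.sum_eq_single i, Finset.sum_eq_single i]
          · simp [qM]
          · intro b _ hb
            rw [if_neg, mul_zero]
            rintro (h | h)
            · exact hb h.2.symm
            · exact hb h.1.symm
          · intro h; exact absurd (Finset.mem_univ i) h
          · intro a _ ha
            apply Finset.sum_eq_zero
            intro b _
            rw [if_neg, mul_zero]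
            rintro (h | h)
            · exact ha h.1.symm
            · exact ha h.2.symm
          · intro h; exact absurd (Finset.mem_univ i) h
        · have h2 : ∀ a : ι, (∑ b, qM φ a b *
              (if (i = a ∧ j = b) ∨ (i = b ∧ j = a) then (1 : ℂ) else 0)) =
              (if i = a then qM φ a j else 0) + (if j = a then qM φ a i else 0) := by
            intro a
            by_cases ha : i = a
            · subst ha
              rw [Finset.sum_eq_single j]
              · rw [if_pos (Or.inl ⟨rfl, rfl⟩), if_pos rfl, if_neg (fun h => hij h.symm)]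
                ring
              · intro b _ hb
                rw [if_neg, mul_zero]
                rintro (h | h)
                · exact hb h.2.symm
                · exact hij h.2.symm
              · intro h; exact absurd (Finset.mem_univ j) h
            · by_cases hb : j = a
              · subst hb
                rw [Finset.sum_eq_single i]
                · rw [if_pos (Or.inr ⟨rfl, rfl⟩), if_neg ha, if_pos rfl]
                  ring
                · intro b _ hb
                  rw [if_neg, mul_zero]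
                  rintro (h | h)
                  · exact ha h.1
                  · exact hb h.1.symm
                · intro h; exact absurd (Finset.mem_univ i) h
              · rw [if_neg ha, if_neg hb, add_zero]
                apply Finset.sum_eq_zero
                intro b _
                rw [if_neg, mul_zero]
                rintro (h | h)
                · exact ha h.1
                · exact hb h.2
          simp_rw [h2]
          rw [Finset.sum_add_distrib, Finset.sum_ite_eq, Finset.sum_ite_eq]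
          simp only [Finset.mem_univ, if_true]
          rw [qM_symm φ j i]
          unfold qM
          rw [if_neg hij]
          ring
      · obtain ⟨k, d3, rfl⟩ := exists_single_add hd2
        right
        exact ⟨i, j, k, d3, rfl⟩

/-- the quadratic part of a substitution of series divisible by `X e` -/
theorem quad (φ : PS ι) (h0 : Z0 φ) (h1 : ∀ i, lin φ i = 0) {S τ : Type} [CommRing S]
    [Algebra ℂ S] (b : ι → MvPowerSeries τ S) (e : τ) (hb : ∀ i, X e ∣ b i) :
    X e ^ 3 ∣ φ.subst b - ∑ i, ∑ j, C (algebraMap ℂ S (qM φ i j)) * (b i * b j) := by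
  have hZ : ∀ i, constantCoeff (b i) = 0 := by
    intro i
    have := X_dvd_iff.1 (hb i) 0 (by simp)
    simpa using this
  have hH : HasSubst b := hasSubst_of_constantCoeff_zero hZ
  have e1 : φ.subst b = (phi2 φ).subst b + (φ - phi2 φ).subst b := by
    rw [← subst_add hH]
    congr 1
    ring
  have e2 : (phi2 φ).subst b = ∑ i, ∑ j, C (algebraMap ℂ S (qM φ i j)) * (b i * b j) := by
    rw [← substAlgHom_apply hH]
    unfold phi2
    rw [map_sum]
    apply Finset.sum_congr rfl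
    intro i _
    rw [map_sum]
    apply Finset.sum_congr rfl
    intro j _
    rw [map_mul, map_mul, substAlgHom_X, substAlgHom_X]
    congr 1
    have : (C (qM φ i j) : PS ι) = algebraMap ℂ (PS ι) (qM φ i j) := by
      rw [MvPowerSeries.algebraMap_apply]; rfl
    rw [this, AlgHom.commutes, MvPowerSeries.algebraMap_apply]
  rw [e1, e2, add_sub_cancel_left, X_pow_dvd_iff]
  intro m hm
  rw [coeff_subst hH]
  apply finsum_eq_zero_of_forall_eq_zero
  intro d
  rcases coeff_phi3 φ h0 h1 d with h | ⟨i, j, k, d', rfl⟩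
  · rw [h, zero_smul]
  · rw [prod_single_add, prod_single_add, prod_single_add]
    have : X e ^ 3 ∣ b i * (b j * (b k * d'.prod fun s e => b s ^ e)) := by
      have h3 : (X e : MvPowerSeries τ S) ^ 3 = X e * (X e * (X e * 1)) := by ring
      rw [h3]
      exact mul_dvd_mul (hb i) (mul_dvd_mul (hb j) (mul_dvd_mul (hb k) (one_dvd _)))
    rw [X_pow_dvd_iff.1 this m hm, smul_zero]

end quad

/-- first step: `s` is divisible by `ε` -/
theorem step1 {K L : Type} [Finite K] [Finite L] (φ : L → PS (K ⊕ L)) (h0 : ∀ l, Z0 (φ l))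
    (h1 : ∀ l i, lin (φ l) i = 0) {S τ : Type} [CommRing S] [Algebra ℂ S] (T : S →+ S)
    (b : K → MvPowerSeries τ S) (s : L → MvPowerSeries τ S) (e : τ) (hb : ∀ k, X e ∣ b k)
    (hs : ∀ l, Z0 (s l)) (heq : ∀ l, s l = -mapA T ((φ l).subst (Sum.elim b s))) :
    ∀ l, X e ∣ s l := by
  classical
  have hbZ : ∀ k, constantCoeff (b k) = 0 := by
    intro k
    have := X_dvd_iff.1 (hb k) 0 (by simp)
    simpa using this
  have hZ : ∀ i, constantCoeff ((Sum.elim b s : K ⊕ L → _) i) = 0 := by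
    rintro (k | l)
    · exact hbZ k
    · exact hs l
  have hH : HasSubst (Sum.elim b s) := hasSubst_of_constantCoeff_zero hZ
  have key : ∀ N : ℕ, ∀ (l : L) (n : τ →₀ ℕ), n.degree = N → n e = 0 → coeff n (s l) = 0 := by
    intro N
    induction N using Nat.strong_induction_on with
    | _ N ih =>
      intro l n hn hne
      rw [heq l, map_neg]
      have e1 : coeff n (mapA T ((φ l).subst (Sum.elim b s))) =
          T (coeff n ((φ l).subst (Sum.elim b s))) := rfl
      rw [e1, coeff_subst hH, finsum_eq_zero_of_forall_eq_zero, map_zero, neg_zero]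
      intro d
      by_cases hd : d = 0
      · subst hd
        have : coeff 0 (φ l) = 0 := h0 l
        rw [this, zero_smul]
      · obtain ⟨i, d1, rfl⟩ := exists_single_add hd
        by_cases hd1 : d1 = 0
        · subst hd1
          have : coeff (Finsupp.single i 1) (φ l) = 0 := h1 l i
          rw [add_zero, this, zero_smul]
        · obtain ⟨j, d2, rfl⟩ := exists_single_add hd1
          rw [prod_single_add, prod_single_add, coeff_mul]
          rw [Finset.sum_eq_zero, smul_zero]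
          rintro ⟨n1, n2⟩ hn12
          rw [Finset.HasAntidiagonal.mem_antidiagonal] at hn12
          simp only at hn12 ⊢
          by_cases hn2 : n2 = 0
          · subst hn2
            have : coeff 0 ((Sum.elim b s : K ⊕ L → _) j *
                d2.prod fun s_1 e => (Sum.elim b s : K ⊕ L → _) s_1 ^ e) = 0 := by
              rw [coeff_zero_eq_constantCoeff_apply, map_mul, hZ j, zero_mul]
            rw [this, mul_zero]
          · have hn1e : n1 e = 0 := by
              have := DFunLike.congr_fun hn12 e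
              rw [Finsupp.add_apply, hne] at this
              omega
            have hdeg : n1.degree < N := by
              have h2 : n1.degree + n2.degree = N := by rw [← map_add, hn12, hn]
              have h3 : n2.degree ≠ 0 := fun h => hn2 ((Finsupp.degree_eq_zero_iff n2).1 h)
              omega
            have : coeff n1 ((Sum.elim b s : K ⊕ L → _) i) = 0 := by
              rcases i with k | l'
              · exact X_dvd_iff.1 (hb k) n1 hn1e
              · exact ih _ hdeg l' n1 rfl hn1e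
            rw [this, zero_mul]
  intro l
  rw [X_dvd_iff]
  intro m hm
  exact key _ l m rfl hm

/-- second step -/
theorem step2 {K L : Type} [Fintype K] [Fintype L] [DecidableEq K] [DecidableEq L]
    (φ : PS (K ⊕ L)) (h0 : Z0 φ) (h1 : ∀ i, lin φ i = 0) {S τ : Type} [CommRing S] [Algebra ℂ S]
    (b : K → MvPowerSeries τ S) (s : L → MvPowerSeries τ S) (e : τ)
    (q : K → MvPowerSeries τ S) (hb : ∀ k, b k = X e * q k) (hs : ∀ l, X e ^ 2 ∣ s l) :
    X e ^ 3 ∣ φ.subst (Sum.elim b s) - X e ^ 2 *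
      ∑ k, ∑ k', C (algebraMap ℂ S (qM φ (Sum.inl k) (Sum.inl k'))) * (q k * q k') := by
  have hb' : ∀ k, X e ∣ b k := fun k => ⟨q k, hb k⟩
  have hs' : ∀ l, X e ∣ s l := fun l => (dvd_pow_self _ two_ne_zero).trans (hs l)
  have hq := quad φ h0 h1 (Sum.elim b s) e (by
    rintro (k | l)
    · exact hb' k
    · exact hs' l)
  have key : X e ^ 3 ∣ (∑ i, ∑ j, C (algebraMap ℂ S (qM φ i j)) *
      ((Sum.elim b s : K ⊕ L → _) i * (Sum.elim b s : K ⊕ L → _) j)) - X e ^ 2 *
      ∑ k, ∑ k', C (algebraMap ℂ S (qM φ (Sum.inl k) (Sum.inl k'))) * (q k * q k') := by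
    have h3 : (X e : MvPowerSeries τ S) ^ 3 = X e * X e ^ 2 := by ring
    have h3' : (X e : MvPowerSeries τ S) ^ 3 = X e ^ 2 * X e := by ring
    rw [Fintype.sum_sum_type]
    simp_rw [Fintype.sum_sum_type]
    simp only [Sum.elim_inl, Sum.elim_inr]
    rw [Finset.sum_add_distrib, Finset.sum_add_distrib]
    have e1 : (∑ k, ∑ k', C (algebraMap ℂ S (qM φ (Sum.inl k) (Sum.inl k'))) * (b k * b k')) =
        X e ^ 2 * ∑ k, ∑ k', C (algebraMap ℂ S (qM φ (Sum.inl k) (Sum.inl k'))) *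
          (q k * q k') := by
      rw [Finset.mul_sum]
      apply Finset.sum_congr rfl
      intro k _
      rw [Finset.mul_sum]
      apply Finset.sum_congr rfl
      intro k' _
      rw [hb, hb]
      ring
    rw [e1]
    have e2 : X e ^ 3 ∣ ∑ k, ∑ l, C (algebraMap ℂ S (qM φ (Sum.inl k) (Sum.inr l))) *
        (b k * s l) := by
      apply Finset.dvd_sum
      intro k _
      apply Finset.dvd_sum
      intro l _
      rw [h3]
      exact (mul_dvd_mul (hb' k) (hs l)).mul_left _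
    have e3 : X e ^ 3 ∣ ∑ l, ∑ k, C (algebraMap ℂ S (qM φ (Sum.inr l) (Sum.inl k))) *
        (s l * b k) := by
      apply Finset.dvd_sum
      intro l _
      apply Finset.dvd_sum
      intro k _
      rw [h3']
      exact (mul_dvd_mul (hs l) (hb' k)).mul_left _
    have e4 : X e ^ 3 ∣ ∑ l, ∑ l', C (algebraMap ℂ S (qM φ (Sum.inr l) (Sum.inr l'))) *
        (s l * s l') := by
      apply Finset.dvd_sum
      intro l _
      apply Finset.dvd_sum
      intro l' _
      rw [h3']
      exact (mul_dvd_mul (hs l) (hs' l')).mul_left _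
    have := dvd_add (dvd_add e2 e3) e4
    refine (dvd_of_eq rfl).trans (this.trans (dvd_of_eq ?_))
    ring
  have := dvd_add hq key
  refine this.trans (dvd_of_eq ?_)
  ring

/-- the coefficient -/
theorem coeff_step2 {S τ : Type} [CommRing S] (e : τ) (F G : MvPowerSeries τ S)
    (h : X e ^ 3 ∣ F - X e ^ 2 * G) (n : τ →₀ ℕ) (hn : n e = 0) :
    coeff (n + Finsupp.single e 2) F = coeff n G := by
  have h1 := X_pow_dvd_iff.1 h (n + Finsupp.single e 2) (by
    rw [Finsupp.add_apply, hn, Finsupp.single_eq_same]; norm_num)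
  rw [map_sub, sub_eq_zero] at h1
  rw [h1, X_pow_eq, add_comm, coeff_add_monomial_mul, one_mul]

/-! ## Laurent polynomials -/

section laurent

open LNMM

/-- exponents in `[a, b]` -/
def Sp (r : ℂ[T;T⁻¹]) (a b : ℤ) : Prop := ∀ k : ℤ, r.coeff k ≠ 0 → a ≤ k ∧ k ≤ b

/-- coefficients as a homomorphism -/
def cH (k : ℤ) : ℂ[T;T⁻¹] →+ ℂ where
  toFun p := p.coeff k
  map_zero' := by simp
  map_add' p q := by rw [AddMonoidAlgebra.coeff_add, Finsupp.add_apply]

theorem cH_apply (k : ℤ) (p : ℂ[T;T⁻¹]) : cH k p = p.coeff k := rfl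

theorem Sp.mul {r s : ℂ[T;T⁻¹]} {a b a' b' : ℤ} (hr : Sp r a b) (hs : Sp s a' b') :
    Sp (r * s) (a + a') (b + b') := by
  intro k hk
  rw [← cH_apply, AddMonoidAlgebra.mul_def] at hk
  unfold Finsupp.sum at hk
  rw [map_sum] at hk
  obtain ⟨j, _, hk⟩ := Finset.exists_ne_zero_of_sum_ne_zero hk
  rw [map_sum] at hk
  obtain ⟨i, _, hk⟩ := Finset.exists_ne_zero_of_sum_ne_zero hk
  rw [cH_apply, AddMonoidAlgebra.coeff_single, Finsupp.single_apply] at hk
  have h1 : j + i = k := by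
    by_contra h
    rw [if_neg h] at hk
    exact hk rfl
  rw [if_pos h1] at hk
  have h2 := hr j (left_ne_zero_of_mul hk)
  have h3 := hs i (right_ne_zero_of_mul hk)
  omega

theorem Sp.add {r s : ℂ[T;T⁻¹]} {a b : ℤ} (hr : Sp r a b) (hs : Sp s a b) :
    Sp (r + s) a b := by
  intro k hk
  rw [AddMonoidAlgebra.coeff_add, Finsupp.add_apply] at hk
  by_cases h : r.coeff k = 0
  · rw [h, zero_add] at hk
    exact hs k hk
  · exact hr k h

theorem Sp.neg {r : ℂ[T;T⁻¹]} {a b : ℤ} (hr : Sp r a b) : Sp (-r) a b := by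
  intro k hk
  rw [AddMonoidAlgebra.coeff_neg, Finsupp.neg_apply] at hk
  exact hr k (fun h => hk (by rw [h, neg_zero]))

theorem Sp.sub {r s : ℂ[T;T⁻¹]} {a b : ℤ} (hr : Sp r a b) (hs : Sp s a b) :
    Sp (r - s) a b := by
  rw [sub_eq_add_neg]
  exact hr.add hs.neg

theorem Sp.mono {r : ℂ[T;T⁻¹]} {a b a' b' : ℤ} (hr : Sp r a b) (h1 : a' ≤ a) (h2 : b ≤ b') :
    Sp r a' b' := fun k hk => ⟨h1.trans (hr k hk).1, (hr k hk).2.trans h2⟩

theorem sp_CT (c : ℂ) (j : ℤ) : Sp (LaurentPolynomial.C c * LaurentPolynomial.T j) j j := by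
  intro k hk
  rw [coeff_CT] at hk
  by_cases h : j = k
  · omega
  · rw [if_neg h] at hk
    exact absurd rfl hk

theorem sp_T (j : ℤ) : Sp (LaurentPolynomial.T j) j j := by
  have := sp_CT 1 j
  rwa [map_one, one_mul] at this

theorem sp_one : Sp 1 0 0 := by
  have := sp_T 0
  rwa [LaurentPolynomial.T_zero] at this

theorem Sp.st {st : ℂ[T;T⁻¹] →+* ℂ[T;T⁻¹]} (hst : IsSt st) {r : ℂ[T;T⁻¹]} {a b : ℤ}
    (hr : Sp r a b) : Sp (st r) (-b) (-a) := by
  intro k hk
  rw [st_coeff hst] at hk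
  have := hr (-k) (fun h => hk (by rw [h, map_zero]))
  omega

/-- the value of `T1` at `-1` -/
def Lam (T1 : ℂ[T;T⁻¹] →+ ℂ[T;T⁻¹]) : ℂ[T;T⁻¹] →+ ℂ := (evH (-1)).comp T1

theorem Lam_apply (T1 : ℂ[T;T⁻¹] →+ ℂ[T;T⁻¹]) (p : ℂ[T;T⁻¹]) : Lam T1 p = evL (-1) (T1 p) := rfl

variable {T1 : ℂ[T;T⁻¹] →+ ℂ[T;T⁻¹]}

theorem Lam_CT (h : IsT1 T1) (c : ℂ) (k : ℤ) :
    Lam T1 (LaurentPolynomial.C c * LaurentPolynomial.T k) =
      -(Complex.I * (k.sign : ℂ) * c) * ((-1) ^ k - 1) := by
  rw [Lam_apply, h, evL_mul (by norm_num)]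
  have h1 : ∀ c : ℂ, evL (-1) (LaurentPolynomial.C c) = c := by
    intro c
    have := evL_CT (-1) c 0
    rwa [LaurentPolynomial.T_zero, mul_one, zpow_zero, mul_one] at this
  have h2 : ∀ k : ℤ, evL (-1) (LaurentPolynomial.T k) = (-1) ^ k := by
    intro k
    have := evL_CT (-1) 1 k
    rwa [map_one, one_mul, one_mul] at this
  have h3 : evL (-1) (1 : ℂ[T;T⁻¹]) = 1 := by
    have := h1 1
    rwa [map_one] at this
  rw [h1, ← evH_apply, map_sub, evH_apply, evH_apply, h2, h3]

theorem Lam_C_mul (h : IsT1 T1) (c : ℂ) (p : ℂ[T;T⁻¹]) :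
    Lam T1 (LaurentPolynomial.C c * p) = c * Lam T1 p := by
  induction p using LaurentPolynomial.induction_on' with
  | add p q hp hq => rw [mul_add, map_add, map_add, hp, hq, mul_add]
  | C_mul_T j c' =>
    rw [← mul_assoc, ← map_mul, Lam_CT h, Lam_CT h]
    ring

theorem Lam_eq (h : IsT1 T1) (p : ℂ[T;T⁻¹]) :
    Lam T1 p = p.coeff.sum fun k c => -(Complex.I * (k.sign : ℂ) * c) * ((-1) ^ k - 1) := by
  induction p using LaurentPolynomial.induction_on' with
  | add p q hp hq =>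
    rw [map_add, hp, hq, AddMonoidAlgebra.coeff_add, Finsupp.sum_add_index' (by simp)
      (by intros; ring)]
  | C_mul_T j c' =>
    rw [Lam_CT h, ← LaurentPolynomial.single_eq_C_mul_T, AddMonoidAlgebra.coeff_single,
      Finsupp.sum_single_index (by simp)]

theorem Lam_pos (h : IsT1 T1) {p : ℂ[T;T⁻¹]} {a b : ℤ} (hp : Sp p a b) (ha : 0 < a)
    (h1 : evL 1 p = 0) (h2 : evL (-1) p = 0) : Lam T1 p = 0 := by
  rw [Lam_eq h]
  have e1 : (p.coeff.sum fun k c => -(Complex.I * (k.sign : ℂ) * c) * ((-1) ^ k - 1)) =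
      -Complex.I * (evL (-1) p - evL 1 p) := by
    unfold evL Finsupp.sum
    rw [← Finset.sum_sub_distrib, Finset.mul_sum]
    apply Finset.sum_congr rfl
    intro k hk
    have := (hp k (Finsupp.mem_support_iff.1 hk)).1
    have hs : k.sign = 1 := Int.sign_eq_one_of_pos (by omega)
    simp only [hs, one_zpow]
    push_cast
    ring
  rw [e1, h1, h2]
  ring

theorem Lam_neg (h : IsT1 T1) {p : ℂ[T;T⁻¹]} {a b : ℤ} (hp : Sp p a b) (hb : b < 0)
    (h1 : evL 1 p = 0) (h2 : evL (-1) p = 0) : Lam T1 p = 0 := by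
  rw [Lam_eq h]
  have e1 : (p.coeff.sum fun k c => -(Complex.I * (k.sign : ℂ) * c) * ((-1) ^ k - 1)) =
      Complex.I * (evL (-1) p - evL 1 p) := by
    unfold evL Finsupp.sum
    rw [← Finset.sum_sub_distrib, Finset.mul_sum]
    apply Finset.sum_congr rfl
    intro k hk
    have := (hp k (Finsupp.mem_support_iff.1 hk)).2
    have hs : k.sign = -1 := Int.sign_eq_neg_one_of_neg (by omega)
    simp only [hs, one_zpow]
    push_cast
    ring
  rw [e1, h1, h2]
  ring

/-- the basic Laurent polynomials -/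
def uu (c : ℂ) (N : ℤ) : ℂ[T;T⁻¹] := pPM c * LaurentPolynomial.T N

theorem sp_pPM (c : ℂ) : Sp (pPM c) 0 3 := by
  unfold pPM
  have h1 : Sp (1 - LaurentPolynomial.T 2 : ℂ[T;T⁻¹]) 0 2 :=
    (sp_one.mono le_rfl (by norm_num)).sub ((sp_T 2).mono (by norm_num) le_rfl)
  have h2 : Sp (1 + LaurentPolynomial.C c * LaurentPolynomial.T 1 : ℂ[T;T⁻¹]) 0 1 :=
    (sp_one.mono le_rfl (by norm_num)).add ((sp_CT c 1).mono (by norm_num) le_rfl)
  exact (h1.mul h2).mono (by norm_num) (by norm_num)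

theorem sp_uu (c : ℂ) (N : ℤ) : Sp (uu c N) N (N + 3) := by
  unfold uu
  exact ((sp_pPM c).mul (sp_T N)).mono (by omega) (by omega)

theorem evL_pPM (ζ c : ℂ) (hζ : ζ ≠ 0) (h2 : ζ ^ 2 = 1) : evL ζ (pPM c) = 0 := by
  unfold pPM
  rw [evL_mul hζ]
  have h1 : evL ζ (1 - LaurentPolynomial.T 2 : ℂ[T;T⁻¹]) = 0 := by
    have e1 := evL_CT ζ 1 2
    rw [map_one, one_mul, one_mul] at e1
    have e2 := evL_CT ζ 1 0
    rw [map_one, one_mul, one_mul, LaurentPolynomial.T_zero, zpow_zero] at e2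
    rw [← evH_apply, map_sub, evH_apply, evH_apply, e1, e2]
    have : ζ ^ (2 : ℤ) = ζ ^ 2 := by norm_cast
    rw [this, h2, sub_self]
  rw [h1, zero_mul]

theorem evL_uu (ζ c : ℂ) (N : ℤ) (hζ : ζ ≠ 0) (h2 : ζ ^ 2 = 1) : evL ζ (uu c N) = 0 := by
  unfold uu
  rw [evL_mul hζ, evL_pPM ζ c hζ h2, zero_mul]

theorem evL_st_uu {st : ℂ[T;T⁻¹] →+* ℂ[T;T⁻¹]} (hst : IsSt st) (hL : SpecLNM) (ζ c : ℂ) (N : ℤ)
    (hζ : ‖ζ‖ = 1) (h2 : ζ ^ 2 = 1) : evL ζ (st (uu c N)) = 0 := by
  have h0 : ζ ≠ 0 := by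
    intro h
    rw [h, norm_zero] at hζ
    norm_num at hζ
  rw [(hL.2.2.2.1 st hst).2.2 ζ _ hζ, evL_uu ζ c N h0 h2, map_zero]

theorem Lam_uu_uu (h : IsT1 T1) (c c' : ℂ) (N N' : ℤ) (hN : 0 < N) (hN' : 0 < N') :
    Lam T1 (uu c N * uu c' N') = 0 := by
  refine Lam_pos h ((sp_uu c N).mul (sp_uu c' N')) (by omega) ?_ ?_
  · rw [evL_mul (by norm_num), evL_uu 1 c N (by norm_num) (by norm_num), zero_mul]
  · rw [evL_mul (by norm_num), evL_uu (-1) c N (by norm_num) (by norm_num), zero_mul]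

theorem Lam_st_st (h : IsT1 T1) {st : ℂ[T;T⁻¹] →+* ℂ[T;T⁻¹]} (hst : IsSt st) (hL : SpecLNM)
    (c c' : ℂ) (N N' : ℤ) (hN : 0 < N) (hN' : 0 < N') :
    Lam T1 (st (uu c N) * st (uu c' N')) = 0 := by
  refine Lam_neg h (((sp_uu c N).st hst).mul ((sp_uu c' N').st hst)) (by omega) ?_ ?_
  · rw [evL_mul (by norm_num), evL_st_uu hst hL 1 c N (by norm_num) (by norm_num), zero_mul]
  · rw [evL_mul (by norm_num), evL_st_uu hst hL (-1) c N (by norm_num) (by norm_num), zero_mul]

theorem Lam_uu_st (h : IsT1 T1) {st : ℂ[T;T⁻¹] →+* ℂ[T;T⁻¹]} (hst : IsSt st)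
    (c c' : ℂ) (N N' : ℤ) (hN : N + 3 < N' ∨ N' + 3 < N) :
    Lam T1 (uu c N * st (uu c' N')) = 0 := by
  rcases hN with hN | hN
  · refine Lam_neg h ((sp_uu c N).mul ((sp_uu c' N').st hst)) (by omega) ?_ ?_
    · rw [evL_mul (by norm_num), evL_uu 1 c N (by norm_num) (by norm_num), zero_mul]
    · rw [evL_mul (by norm_num), evL_uu (-1) c N (by norm_num) (by norm_num), zero_mul]
  · refine Lam_pos h ((sp_uu c N).mul ((sp_uu c' N').st hst)) (by omega) ?_ ?_
    · rw [evL_mul (by norm_num), evL_uu 1 c N (by norm_num) (by norm_num), zero_mul]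
    · rw [evL_mul (by norm_num), evL_uu (-1) c N (by norm_num) (by norm_num), zero_mul]

theorem st_T {st : ℂ[T;T⁻¹] →+* ℂ[T;T⁻¹]} (hst : IsSt st) (k : ℤ) :
    st (LaurentPolynomial.T k) = LaurentPolynomial.T (-k) := by
  have := hst 1 k
  rwa [map_one, one_mul, map_one, map_one, one_mul] at this

theorem Lam_diag (h : IsT1 T1) {st : ℂ[T;T⁻¹] →+* ℂ[T;T⁻¹]} (hst : IsSt st)
    (c : ℂ) (N : ℤ) (hc : c * c = -1) (hc' : conj c = -c) :
    Lam T1 (uu c N * st (uu c N)) = 8 * Complex.I * c := by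
  have e1 : uu c N * st (uu c N) =
      LaurentPolynomial.C 4 * LaurentPolynomial.T 0 +
      LaurentPolynomial.C (3 * c) * LaurentPolynomial.T 1 +
      LaurentPolynomial.C (-3 * c) * LaurentPolynomial.T (-1) +
      LaurentPolynomial.C (-2) * LaurentPolynomial.T 2 +
      LaurentPolynomial.C (-2) * LaurentPolynomial.T (-2) +
      LaurentPolynomial.C (-c) * LaurentPolynomial.T 3 +
      LaurentPolynomial.C c * LaurentPolynomial.T (-3) := by
    unfold uu pPM
    have hT : (LaurentPolynomial.T N * LaurentPolynomial.T (-N) : ℂ[T;T⁻¹]) = 1 := by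
      rw [← LaurentPolynomial.T_add, add_neg_cancel, LaurentPolynomial.T_zero]
    have h1 : (LaurentPolynomial.T 1 * LaurentPolynomial.T (-1) : ℂ[T;T⁻¹]) = 1 := by
      rw [← LaurentPolynomial.T_add, add_neg_cancel, LaurentPolynomial.T_zero]
    have h2 : (LaurentPolynomial.T 2 : ℂ[T;T⁻¹]) = LaurentPolynomial.T 1 ^ 2 := by
      rw [LaurentPolynomial.T_pow]; norm_num
    have h3 : (LaurentPolynomial.T 3 : ℂ[T;T⁻¹]) = LaurentPolynomial.T 1 ^ 3 := by
      rw [LaurentPolynomial.T_pow]; norm_num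
    have h2' : (LaurentPolynomial.T (-2) : ℂ[T;T⁻¹]) = LaurentPolynomial.T (-1) ^ 2 := by
      rw [LaurentPolynomial.T_pow]; norm_num
    have h3' : (LaurentPolynomial.T (-3) : ℂ[T;T⁻¹]) = LaurentPolynomial.T (-1) ^ 3 := by
      rw [LaurentPolynomial.T_pow]; norm_num
    have hC : (LaurentPolynomial.C c * LaurentPolynomial.C c : ℂ[T;T⁻¹]) = -1 := by
      rw [← map_mul, hc, map_neg, map_one]
    rw [map_mul, map_mul, map_sub, map_add, map_mul, st_T hst, st_T hst, st_T hst, map_one,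
      BSHM.st_C hst, hc', LaurentPolynomial.T_zero]
    simp only [map_neg, map_mul, map_ofNat]
    rw [h2, h3, h2', h3']
    set t : ℂ[T;T⁻¹] := LaurentPolynomial.T 1
    set t' : ℂ[T;T⁻¹] := LaurentPolynomial.T (-1)
    set C' : ℂ[T;T⁻¹] := LaurentPolynomial.C c
    set n : ℂ[T;T⁻¹] := LaurentPolynomial.T N
    set n' : ℂ[T;T⁻¹] := LaurentPolynomial.T (-N)
    have hA : (1 - t ^ 2) * (1 - t' ^ 2) = 2 - t ^ 2 - t' ^ 2 := by
      linear_combination (t * t' + 1) * h1
    have hB : (1 + C' * t) * (1 + -C' * t') = 2 + C' * t - C' * t' := by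
      linear_combination (-(t * t')) * hC + h1
    linear_combination (1 - t ^ 2) * (1 - t' ^ 2) * ((1 + C' * t) * (1 + -C' * t')) * hT +
      ((1 + C' * t) * (1 + -C' * t')) * hA + (2 - t ^ 2 - t' ^ 2) * hB + (C' * t - C' * t') * h1
  rw [e1]
  simp only [map_add, Lam_CT h]
  have z3 : ((-1 : ℂ) ^ (3 : ℤ)) = -1 := by norm_num
  have z3' : ((-1 : ℂ) ^ (-3 : ℤ)) = -1 := by norm_num
  have z2 : ((-1 : ℂ) ^ (2 : ℤ)) = 1 := by norm_num
  have z2' : ((-1 : ℂ) ^ (-2 : ℤ)) = 1 := by norm_num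
  have z1 : ((-1 : ℂ) ^ (1 : ℤ)) = -1 := by norm_num
  have z1' : ((-1 : ℂ) ^ (-1 : ℤ)) = -1 := by norm_num
  have s3 : (3 : ℤ).sign = 1 := rfl
  have s3' : (-3 : ℤ).sign = -1 := rfl
  have s2 : (2 : ℤ).sign = 1 := rfl
  have s2' : (-2 : ℤ).sign = -1 := rfl
  have s1 : (1 : ℤ).sign = 1 := rfl
  have s1' : (-1 : ℤ).sign = -1 := rfl
  have s0 : (0 : ℤ).sign = 0 := rfl
  rw [z3, z3', z2, z2', z1, z1', s3, s3', s2, s2', s1, s1', s0]
  push_cast
  ring

end laurent


/-! ## Bilinear forms -/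

section bil

variable {K : Type} [Fintype K]

/-- the complex bilinear form -/
def bC (M : K → K → ℂ) (x y : K → ℂ) : ℂ := ∑ k, ∑ k', M k k' * (x k * y k')

/-- the same over Laurent polynomials -/
def Bf (M : K → K → ℂ) (q y : K → ℂ[T;T⁻¹]) : ℂ[T;T⁻¹] :=
  ∑ k, ∑ k', LaurentPolynomial.C (M k k') * (q k * y k')

theorem Bf_add_left (M : K → K → ℂ) (q q' y : K → ℂ[T;T⁻¹]) :
    Bf M (fun k => q k + q' k) y = Bf M q y + Bf M q' y := by
  unfold Bf
  rw [← Finset.sum_add_distrib]
  apply Finset.sum_congr rfl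
  intro k _
  rw [← Finset.sum_add_distrib]
  apply Finset.sum_congr rfl
  intro k' _
  ring

theorem Bf_add_right (M : K → K → ℂ) (q y y' : K → ℂ[T;T⁻¹]) :
    Bf M q (fun k => y k + y' k) = Bf M q y + Bf M q y' := by
  unfold Bf
  rw [← Finset.sum_add_distrib]
  apply Finset.sum_congr rfl
  intro k _
  rw [← Finset.sum_add_distrib]
  apply Finset.sum_congr rfl
  intro k' _
  ring

theorem Bf_sum_left {A : Type} (s : Finset A) (M : K → K → ℂ) (q : A → K → ℂ[T;T⁻¹])
    (y : K → ℂ[T;T⁻¹]) : Bf M (fun k => ∑ α ∈ s, q α k) y = ∑ α ∈ s, Bf M (q α) y := by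
  unfold Bf
  symm
  rw [Finset.sum_comm]
  apply Finset.sum_congr rfl
  intro k _
  rw [Finset.sum_comm]
  apply Finset.sum_congr rfl
  intro k' _
  rw [Finset.sum_mul, Finset.mul_sum]

theorem Bf_sum_right {A : Type} (s : Finset A) (M : K → K → ℂ) (q : K → ℂ[T;T⁻¹])
    (y : A → K → ℂ[T;T⁻¹]) : Bf M q (fun k => ∑ α ∈ s, y α k) = ∑ α ∈ s, Bf M q (y α) := by
  unfold Bf
  symm
  rw [Finset.sum_comm]
  apply Finset.sum_congr rfl
  intro k _
  rw [Finset.sum_comm]
  apply Finset.sum_congr rfl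
  intro k' _
  rw [Finset.mul_sum, Finset.mul_sum]

theorem Bf_symm (M : K → K → ℂ) (hM : ∀ k k', M k k' = M k' k) (q y : K → ℂ[T;T⁻¹]) :
    Bf M q y = Bf M y q := by
  unfold Bf
  rw [Finset.sum_comm]
  apply Finset.sum_congr rfl
  intro k _
  apply Finset.sum_congr rfl
  intro k' _
  rw [hM]
  ring

variable {T1 : ℂ[T;T⁻¹] →+ ℂ[T;T⁻¹]}

theorem Lam_Bf (h : IsT1 T1) (M : K → K → ℂ) (x y : K → ℂ) (u w : ℂ[T;T⁻¹]) :
    Lam T1 (Bf M (fun k => LaurentPolynomial.C (x k) * u) fun k => LaurentPolynomial.C (y k) * w) =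
      bC M x y * Lam T1 (u * w) := by
  unfold Bf bC
  rw [map_sum, Finset.sum_mul]
  apply Finset.sum_congr rfl
  intro k _
  rw [map_sum, Finset.sum_mul]
  apply Finset.sum_congr rfl
  intro k' _
  rw [← Lam_C_mul h]
  congr 1
  rw [map_mul, map_mul]
  ring

/-- conjugate vector -/
def cv (x : K → ℂ) : K → ℂ := fun k => conj (x k)

theorem Lam_bil (h : IsT1 T1) (st : ℂ[T;T⁻¹] →+* ℂ[T;T⁻¹]) {A : Type} [Fintype A] [DecidableEq A]
    (M : K → K → ℂ) (x : A → K → ℂ) (u : A → ℂ[T;T⁻¹]) (g : ℂ) (β : A)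
    (h1 : ∀ α, Lam T1 (u α * u β) = 0) (h2 : ∀ α, Lam T1 (st (u α) * st (u β)) = 0)
    (h3 : ∀ α, Lam T1 (u α * st (u β)) = if α = β then g else 0)
    (h4 : ∀ α, Lam T1 (st (u α) * u β) = if α = β then g else 0) :
    Lam T1 (Bf M (fun k => ∑ α, (LaurentPolynomial.C (x α k) * u α +
      LaurentPolynomial.C (cv (x α) k) * st (u α)))
      (fun k => LaurentPolynomial.C (x β k) * u β + LaurentPolynomial.C (cv (x β) k) * st (u β))) =
      g * (bC M (x β) (cv (x β)) + bC M (cv (x β)) (x β)) := by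
  rw [Bf_sum_left, map_sum, Finset.sum_eq_single β]
  · rw [Bf_add_left, Bf_add_right, Bf_add_right, map_add, map_add, map_add, Lam_Bf h, Lam_Bf h,
      Lam_Bf h, Lam_Bf h, h1, h2, h3, h4, if_pos rfl]
    ring
  · intro α _ hα
    rw [Bf_add_left, Bf_add_right, Bf_add_right, map_add, map_add, map_add, Lam_Bf h, Lam_Bf h,
      Lam_Bf h, Lam_Bf h, h1, h2, h3, h4, if_neg hα]
    ring
  · intro hβ
    exact absurd (Finset.mem_univ β) hβ

end bil


/-! ## The discs -/

section discs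

open LNMM BSHM

variable {m d : ℕ}

/-- `zz = ε pp` -/
def pp (a : Fin d → Fin m → ℂ) (j : Fin m) : MvPowerSeries (Pk m d) ℂ[T;T⁻¹] :=
  (∑ i : Fin d,
      ((1 + X (Sum.inl (Sum.inr i))) *
          C (LaurentPolynomial.C (a i j) * pPM Complex.I *
            LaurentPolynomial.T (8 * ((i : ℕ) + 1 : ℤ))) +
        C (LaurentPolynomial.C (a i j) * pPM (-Complex.I) *
          LaurentPolynomial.T (8 * ((i : ℕ) + 1 : ℤ) + 4))) +
    (X (Sum.inr (Sum.inl j)) + C (LaurentPolynomial.C Complex.I) * X (Sum.inr (Sum.inr j))) *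
      C (LaurentPolynomial.C (1 / 2) * (1 - LaurentPolynomial.T 1)))

theorem zz_eq (a : Fin d → Fin m → ℂ) (j : Fin m) :
    zz a j = X (Sum.inl (Sum.inl ())) * pp a j := rfl

/-- the exponents -/
def Nn (α : Fin d × Bool) : ℤ := bif α.2 then 8 * ((α.1 : ℕ) + 1 : ℤ) else 8 * ((α.1 : ℕ) + 1 : ℤ) + 4

/-- the sign -/
def sg (α : Fin d × Bool) : ℂ := bif α.2 then Complex.I else -Complex.I

/-- the Laurent polynomials -/
def ua (α : Fin d × Bool) : ℂ[T;T⁻¹] := uu (sg α) (Nn α)

theorem coeff0_pp (a : Fin d → Fin m → ℂ) (j : Fin m) :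
    coeff 0 (pp a j) = ∑ α : Fin d × Bool, LaurentPolynomial.C (a α.1 j) * ua α := by
  rw [coeff_zero_eq_constantCoeff_apply]
  unfold pp
  rw [map_add, map_sum, map_mul, map_add, map_mul, constantCoeff_X, constantCoeff_X, mul_zero,
    add_zero, zero_mul, add_zero, Fintype.sum_prod_type]
  apply Finset.sum_congr rfl
  intro i _
  rw [map_add, map_mul, map_add, constantCoeff_X, map_one, add_zero, one_mul, constantCoeff_C,
    constantCoeff_C, Fintype.sum_bool]
  simp only [ua, sg, Nn, uu, cond_true, cond_false]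
  ring

theorem coeff1_pp (a : Fin d → Fin m → ℂ) (j : Fin m) (i : Fin d) :
    coeff (Finsupp.single (Sum.inl (Sum.inr i)) 1) (pp a j) =
      LaurentPolynomial.C (a i j) * ua (i, true) := by
  classical
  have hne : (Finsupp.single (Sum.inl (Sum.inr i)) 1 : Pk m d →₀ ℕ) ≠ 0 := by
    rw [Ne, Finsupp.single_eq_zero]; norm_num
  unfold pp
  rw [map_add, map_sum, coeff_mul_C, map_add, MvPowerSeries.coeff_C_mul, coeff_index_single_X,
    coeff_index_single_X, if_neg (by simp), if_neg (by simp), mul_zero, add_zero, zero_mul,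
    add_zero, Finset.sum_eq_single i]
  · rw [map_add, coeff_mul_C, map_add, MvPowerSeries.coeff_one, if_neg hne, coeff_index_single_X, if_pos rfl,
      coeff_C, if_neg hne]
    simp only [ua, sg, Nn, uu, cond_true]
    ring
  · intro i' _ hi'
    rw [map_add, coeff_mul_C, map_add, MvPowerSeries.coeff_one, if_neg hne, coeff_index_single_X, if_neg,
      coeff_C, if_neg hne]
    · ring
    · simp only [Sum.inl.injEq, Sum.inr.injEq]
      exact fun h => hi' h.symm
  · intro h
    exact absurd (Finset.mem_univ i) h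

/-- `argB / ε` -/
def qq (st : ℂ[T;T⁻¹] →+* ℂ[T;T⁻¹]) (a : Fin d → Fin m → ℂ) :
    Fin m ⊕ Fin m → MvPowerSeries (Pk m d) ℂ[T;T⁻¹] :=
  Sum.elim
    (fun j => C (LaurentPolynomial.C (1 / 2)) * (pp a j + MvPowerSeries.map st (pp a j)))
    (fun j => C (LaurentPolynomial.C (-Complex.I / 2)) * (pp a j - MvPowerSeries.map st (pp a j)))

theorem argB_inl (st : ℂ[T;T⁻¹] →+* ℂ[T;T⁻¹]) (a : Fin d → Fin m → ℂ)
    (s : Fin d → MvPowerSeries (Pk m d) ℂ[T;T⁻¹]) (k : Fin m ⊕ Fin m) :
    argB st (zz a) s (Sum.inl k) = X (Sum.inl (Sum.inl ())) * qq st a k := by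
  rcases k with j | j
  · show C (LaurentPolynomial.C (1 / 2)) * (zz a j + MvPowerSeries.map st (zz a j)) =
      X (Sum.inl (Sum.inl ())) *
        (C (LaurentPolynomial.C (1 / 2)) * (pp a j + MvPowerSeries.map st (pp a j)))
    rw [zz_eq, map_mul, map_X]
    ring
  · show C (LaurentPolynomial.C (-Complex.I / 2)) * (zz a j - MvPowerSeries.map st (zz a j)) =
      X (Sum.inl (Sum.inl ())) *
        (C (LaurentPolynomial.C (-Complex.I / 2)) * (pp a j - MvPowerSeries.map st (pp a j)))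
    rw [zz_eq, map_mul, map_X]
    ring

/-- the real coordinates of a complex vector: `x = kap + conj kap` -/
def kap (x : Fin m → ℂ) : Fin m ⊕ Fin m → ℂ :=
  Sum.elim (fun j => 1 / 2 * x j) (fun j => -Complex.I / 2 * x j)

theorem q_of_p {st : ℂ[T;T⁻¹] →+* ℂ[T;T⁻¹]} (hst : IsSt st) (s : Finset (Fin d × Bool))
    (a : Fin d → Fin m → ℂ) (n : Pk m d →₀ ℕ)
    (h : ∀ j, coeff n (pp a j) = ∑ α ∈ s, LaurentPolynomial.C (a α.1 j) * ua α)
    (k : Fin m ⊕ Fin m) : coeff n (qq st a k) =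
      ∑ α ∈ s, (LaurentPolynomial.C (kap (a α.1) k) * ua α +
        LaurentPolynomial.C (cv (kap (a α.1)) k) * st (ua α)) := by
  rcases k with j | j
  · show coeff n (C (LaurentPolynomial.C (1 / 2)) * (pp a j + MvPowerSeries.map st (pp a j))) = _
    rw [MvPowerSeries.coeff_C_mul, map_add, coeff_map, h, map_sum, ← Finset.sum_add_distrib, Finset.mul_sum]
    apply Finset.sum_congr rfl
    intro α _
    have e1 : kap (a α.1) (Sum.inl j) = 1 / 2 * a α.1 j := rfl
    have e2 : cv (kap (a α.1)) (Sum.inl j) = 1 / 2 * conj (a α.1 j) := by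
      show conj (1 / 2 * a α.1 j) = _
      rw [map_mul, map_div₀, map_one, map_ofNat (starRingEnd ℂ) 2]
    rw [map_mul, st_C hst, e1, e2, map_mul, map_mul]
    ring
  · show coeff n (C (LaurentPolynomial.C (-Complex.I / 2)) *
      (pp a j - MvPowerSeries.map st (pp a j))) = _
    rw [MvPowerSeries.coeff_C_mul, map_sub, coeff_map, h, map_sum, ← Finset.sum_sub_distrib, Finset.mul_sum]
    apply Finset.sum_congr rfl
    intro α _
    have e1 : kap (a α.1) (Sum.inr j) = -Complex.I / 2 * a α.1 j := rfl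
    have e2 : cv (kap (a α.1)) (Sum.inr j) = -(-Complex.I / 2 * conj (a α.1 j)) := by
      show conj (-Complex.I / 2 * a α.1 j) = _
      rw [map_mul, map_div₀, map_neg, Complex.conj_I, map_ofNat (starRingEnd ℂ) 2]
      ring
    rw [map_mul, st_C hst, e1, e2, map_neg, map_mul, map_mul]
    ring

theorem coeff0_qq {st : ℂ[T;T⁻¹] →+* ℂ[T;T⁻¹]} (hst : IsSt st)
    (a : Fin d → Fin m → ℂ) (k : Fin m ⊕ Fin m) : coeff 0 (qq st a k) =
      ∑ α : Fin d × Bool, (LaurentPolynomial.C (kap (a α.1) k) * ua α +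
        LaurentPolynomial.C (cv (kap (a α.1)) k) * st (ua α)) :=
  q_of_p hst Finset.univ a 0 (coeff0_pp a) k

theorem coeff1_qq {st : ℂ[T;T⁻¹] →+* ℂ[T;T⁻¹]} (hst : IsSt st)
    (a : Fin d → Fin m → ℂ) (i : Fin d) (k : Fin m ⊕ Fin m) :
    coeff (Finsupp.single (Sum.inl (Sum.inr i)) 1) (qq st a k) =
      LaurentPolynomial.C (kap (a i) k) * ua (i, true) +
        LaurentPolynomial.C (cv (kap (a i)) k) * st (ua (i, true)) := by
  have := q_of_p hst {(i, true)} a (Finsupp.single (Sum.inl (Sum.inr i)) 1)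
    (fun j => by rw [Finset.sum_singleton, coeff1_pp]) k
  rwa [Finset.sum_singleton] at this

/-- coefficients of products -/
theorem coeff_single_mul {S τ : Type} [CommRing S] (t : τ) (f g : MvPowerSeries τ S) :
    coeff (Finsupp.single t 1) (f * g) = coeff 0 f * coeff (Finsupp.single t 1) g +
      coeff (Finsupp.single t 1) f * coeff 0 g := by
  classical
  rw [coeff_mul, Finsupp.antidiagonal_single, Finset.sum_map]
  have : (Finset.HasAntidiagonal.antidiagonal 1 : Finset (ℕ × ℕ)) = {(0, 1), (1, 0)} := rfl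
  rw [this, Finset.sum_pair (by simp)]
  simp

theorem Nn_pos (α : Fin d × Bool) : 0 < Nn α := by
  unfold Nn
  rcases α with ⟨i, b⟩
  cases b <;> simp <;> omega

theorem Nn_sep (α β : Fin d × Bool) (h : α ≠ β) : Nn α + 3 < Nn β ∨ Nn β + 3 < Nn α := by
  unfold Nn
  rcases α with ⟨i, b⟩
  rcases β with ⟨j, c⟩
  have hij : b = c → (i : ℕ) ≠ j := by
    rintro rfl h'
    exact h (by rw [Fin.ext h'])
  cases b <;> cases c <;> simp at hij ⊢ <;> omega

theorem sg_sq (α : Fin d × Bool) : sg α * sg α = -1 := by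
  unfold sg
  rcases α with ⟨i, b⟩
  cases b <;> simp

theorem sg_conj (α : Fin d × Bool) : conj (sg α) = -sg α := by
  unfold sg
  rcases α with ⟨i, b⟩
  cases b <;> simp

theorem Lam_ua_st {T1 : ℂ[T;T⁻¹] →+ ℂ[T;T⁻¹]} (h : IsT1 T1) {st : ℂ[T;T⁻¹] →+* ℂ[T;T⁻¹]}
    (hst : IsSt st) (α β : Fin d × Bool) :
    Lam T1 (ua α * st (ua β)) = if α = β then 8 * Complex.I * sg β else 0 := by
  by_cases hαβ : α = β
  · subst hαβ
    rw [if_pos rfl]
    exact Lam_diag h hst _ _ (sg_sq α) (sg_conj α)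
  · rw [if_neg hαβ]
    exact Lam_uu_st h hst _ _ _ _ (Nn_sep α β hαβ)

theorem Lam_q {T1 : ℂ[T;T⁻¹] →+ ℂ[T;T⁻¹]} (h : IsT1 T1) {st : ℂ[T;T⁻¹] →+* ℂ[T;T⁻¹]}
    (hst : IsSt st) (hL : SpecLNM) (a : Fin d → Fin m → ℂ)
    (M : Fin m ⊕ Fin m → Fin m ⊕ Fin m → ℂ) (β : Fin d × Bool) :
    Lam T1 (Bf M (fun k => coeff 0 (qq st a k))
      (fun k => LaurentPolynomial.C (kap (a β.1) k) * ua β +
        LaurentPolynomial.C (cv (kap (a β.1)) k) * st (ua β))) =
      8 * Complex.I * sg β * (bC M (kap (a β.1)) (cv (kap (a β.1))) +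
        bC M (cv (kap (a β.1))) (kap (a β.1))) := by
  simp_rw [coeff0_qq hst]
  refine Lam_bil h st M (fun α => kap (a α.1)) ua (8 * Complex.I * sg β) β ?_ ?_ ?_ ?_
  · intro α
    exact Lam_uu_uu h _ _ _ _ (Nn_pos α) (Nn_pos β)
  · intro α
    exact Lam_st_st h hst hL _ _ _ _ (Nn_pos α) (Nn_pos β)
  · intro α
    exact Lam_ua_st h hst α β
  · intro α
    rw [mul_comm, Lam_ua_st h hst β α]
    by_cases hαβ : α = β
    · subst hαβ; rfl
    · rw [if_neg hαβ, if_neg (fun h => hαβ h.symm)]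

/-- the sum of the two mixed terms -/
def Sg (M : Fin m ⊕ Fin m → Fin m ⊕ Fin m → ℂ) (x : Fin m → ℂ) : ℂ :=
  bC M (kap x) (cv (kap x)) + bC M (cv (kap x)) (kap x)

theorem Lam_qq0 {T1 : ℂ[T;T⁻¹] →+ ℂ[T;T⁻¹]} (h : IsT1 T1) {st : ℂ[T;T⁻¹] →+* ℂ[T;T⁻¹]}
    (hst : IsSt st) (hL : SpecLNM) (a : Fin d → Fin m → ℂ)
    (M : Fin m ⊕ Fin m → Fin m ⊕ Fin m → ℂ) :
    Lam T1 (Bf M (fun k => coeff 0 (qq st a k)) (fun k => coeff 0 (qq st a k))) = 0 := by
  have e1 : Bf M (fun k => coeff 0 (qq st a k)) (fun k => coeff 0 (qq st a k)) =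
      Bf M (fun k => coeff 0 (qq st a k)) (fun k => ∑ α : Fin d × Bool,
        (LaurentPolynomial.C (kap (a α.1) k) * ua α +
        LaurentPolynomial.C (cv (kap (a α.1)) k) * st (ua α))) := by
    congr 1
    funext k
    exact coeff0_qq hst a k
  rw [e1, Bf_sum_right, map_sum]
  simp_rw [Lam_q h hst hL]
  rw [Fintype.sum_prod_type]
  apply Finset.sum_eq_zero
  intro i _
  rw [Fintype.sum_bool]
  simp only [sg, cond_true, cond_false]
  ring

theorem Lam_qq1 {T1 : ℂ[T;T⁻¹] →+ ℂ[T;T⁻¹]} (h : IsT1 T1) {st : ℂ[T;T⁻¹] →+* ℂ[T;T⁻¹]}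
    (hst : IsSt st) (hL : SpecLNM) (a : Fin d → Fin m → ℂ)
    (M : Fin m ⊕ Fin m → Fin m ⊕ Fin m → ℂ) (i : Fin d) :
    Lam T1 (Bf M (fun k => coeff 0 (qq st a k))
      (fun k => coeff (Finsupp.single (Sum.inl (Sum.inr i)) 1) (qq st a k))) =
      -8 * Sg M (a i) := by
  have := Lam_q h hst hL a M (i, true)
  simp_rw [coeff1_qq hst]
  rw [this]
  simp only [sg, cond_true]
  unfold Sg
  linear_combination (8 * (bC M (kap (a i)) (cv (kap (a i))) +
    bC M (cv (kap (a i))) (kap (a i)))) * Complex.I_mul_I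

end discs


/-! ## The Levi form -/

section levi

variable {m d : ℕ}

theorem bC_conj {K : Type} [Fintype K] (M : K → K → ℂ) (hM : ∀ k k', conj (M k k') = M k k')
    (x y : K → ℂ) : conj (bC M x y) = bC M (cv x) (cv y) := by
  unfold bC
  rw [map_sum]
  apply Finset.sum_congr rfl
  intro k _
  rw [map_sum]
  apply Finset.sum_congr rfl
  intro k' _
  rw [map_mul, map_mul, hM]
  rfl

theorem cv_cv {K : Type} (x : K → ℂ) : cv (cv x) = x := by
  funext k
  exact Complex.conj_conj _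

/-- the real coordinates -/
def rc (x : Fin m → ℂ) : Fin m ⊕ Fin m → ℂ :=
  Sum.elim (fun j => ((x j).re : ℂ)) (fun j => ((x j).im : ℂ))

theorem rc_eq (x : Fin m → ℂ) (k : Fin m ⊕ Fin m) : rc x k = kap x k + cv (kap x) k := by
  rcases k with j | j
  · show ((x j).re : ℂ) = 1 / 2 * x j + conj (1 / 2 * x j)
    rw [map_mul, map_div₀, map_one, map_ofNat (starRingEnd ℂ) 2, Complex.re_eq_add_conj]
    ring
  · show ((x j).im : ℂ) = -Complex.I / 2 * x j + conj (-Complex.I / 2 * x j)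
    rw [map_mul, map_div₀, map_neg, Complex.conj_I, map_ofNat (starRingEnd ℂ) 2,
      Complex.im_eq_sub_conj]
    field_simp
    linear_combination (x j - conj (x j)) * Complex.I_mul_I

theorem kap_I (x : Fin m → ℂ) (k : Fin m ⊕ Fin m) :
    kap (Complex.I • x) k = Complex.I * kap x k := by
  rcases k with j | j
  · show 1 / 2 * (Complex.I * x j) = Complex.I * (1 / 2 * x j)
    ring
  · show -Complex.I / 2 * (Complex.I * x j) = Complex.I * (-Complex.I / 2 * x j)
    ring

theorem rc_I (x : Fin m → ℂ) (k : Fin m ⊕ Fin m) :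
    rc (Complex.I • x) k = Complex.I * (kap x k - cv (kap x) k) := by
  rw [rc_eq, kap_I]
  show Complex.I * kap x k + conj (kap (Complex.I • x) k) = _
  rw [kap_I, map_mul, Complex.conj_I]
  show _ = Complex.I * (kap x k - conj (kap x k))
  ring

theorem bC_rc {K : Type} [Fintype K] (M : K → K → ℂ) (x y p q : K → ℂ)
    (hp : ∀ k, p k = x k + y k) (hq : ∀ k, q k = Complex.I * (x k - y k)) :
    bC M p p + bC M q q = 2 * (bC M x y + bC M y x) := by
  unfold bC
  rw [← Finset.sum_add_distrib, ← Finset.sum_add_distrib, Finset.mul_sum]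
  apply Finset.sum_congr rfl
  intro k _
  rw [← Finset.sum_add_distrib, ← Finset.sum_add_distrib, Finset.mul_sum]
  apply Finset.sum_congr rfl
  intro k' _
  rw [hp, hp, hq, hq]
  linear_combination (M k k' * ((x k - y k) * (x k' - y k'))) * Complex.I_mul_I

/-- the matrix of `φ` in the `z`-directions -/
def Mz (φ : PS (Ki m d)) (k k' : Fin m ⊕ Fin m) : ℂ := qM φ (Sum.inl k) (Sum.inl k')

theorem qd_coeff (φ : PS (Ki m d)) (h0 : Z0 φ) (h1 : ∀ i, lin φ i = 0) (x : Fin m → ℂ) :
    coeff (Finsupp.single () 2) (φ.subst (ray (d := d) x)) = bC (Mz φ) (rc x) (rc x) := by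
  have h := step2 φ h0 h1 (fun k => ray (d := d) x (Sum.inl k)) (fun _ : Fin d => (0 : PS Unit)) ()
    (fun k => C (rc x k)) (by
      rintro (j | j)
      · show C ((x j).re : ℂ) * X () = X () * C ((x j).re : ℂ)
        ring
      · show C ((x j).im : ℂ) * X () = X () * C ((x j).im : ℂ)
        ring) (fun _ => dvd_zero _)
  have e : (Sum.elim (fun k => ray (d := d) x (Sum.inl k)) (fun _ : Fin d => (0 : PS Unit)) :
      Ki m d → PS Unit) = ray (d := d) x := by
    funext i
    rcases i with k | l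
    · rfl
    · rfl
  rw [e] at h
  have h2 := coeff_step2 () _ _ h 0 rfl
  rw [zero_add] at h2
  rw [h2, coeff_zero_eq_constantCoeff_apply, map_sum]
  unfold bC
  apply Finset.sum_congr rfl
  intro k _
  rw [map_sum]
  apply Finset.sum_congr rfl
  intro k' _
  rw [map_mul, map_mul, constantCoeff_C, constantCoeff_C, constantCoeff_C]
  rfl

theorem Mz_conj (φ : PS (Ki m d)) (hr : cj φ = φ) (k k' : Fin m ⊕ Fin m) :
    conj (Mz φ k k') = Mz φ k k' := by
  unfold Mz qM
  rw [map_mul]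
  congr 1
  · have := congrArg (coeff (Finsupp.single (Sum.inl k) 1 + Finsupp.single (Sum.inl k') 1)) hr
    unfold cj at this
    rwa [coeff_map] at this
  · split_ifs
    · exact map_one _
    · rw [map_div₀, map_one, map_ofNat (starRingEnd ℂ) 2]

theorem lev_eq (φ : Fin d → PS (Ki m d)) (hφ : IsPhi φ) (x : Fin m → ℂ) (l : Fin d) :
    ((lev φ x l : ℝ) : ℂ) = Sg (Mz (φ l)) x := by
  have hreal : conj (Sg (Mz (φ l)) x) = Sg (Mz (φ l)) x := by
    unfold Sg
    rw [map_add, bC_conj _ (Mz_conj _ (hφ.real l)), bC_conj _ (Mz_conj _ (hφ.real l)), cv_cv,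
      add_comm]
  have hre : ((Sg (Mz (φ l)) x).re : ℂ) = Sg (Mz (φ l)) x := Complex.conj_eq_iff_re.1 hreal
  rw [← hre]
  congr 1
  unfold lev qd
  rw [qd_coeff _ (hφ.zero l) (hφ.lin l), qd_coeff _ (hφ.zero l) (hφ.lin l), ← Complex.add_re,
    bC_rc (Mz (φ l)) (kap x) (cv (kap x)) (rc x) (rc (Complex.I • x)) (rc_eq x) (rc_I x)]
  unfold Sg
  rw [Complex.mul_re]
  norm_num

end levi


/-- the second coefficient -/
def Ww {κ : Type} (e : κ) (f : MvPowerSeries κ ℂ[T;T⁻¹]) : PS κ :=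
  fun n => evL (-1) (coeff (n + Finsupp.single e 2) f)

theorem coeff_Ww {κ : Type} (e : κ) (f : MvPowerSeries κ ℂ[T;T⁻¹]) (n : κ →₀ ℕ) :
    coeff n (Ww e f) = evL (-1) (coeff (n + Finsupp.single e 2) f) := rfl

end SOLVM

open SOLVM LNMM BSHM in
/-- SOLV -/
theorem specSOLV (hL : SpecLNM) : SpecSOLV := by
  intro m d φ hφ st hst T1 hT1 a s hB hreal
  have harg : ∀ k, X (Sum.inl (Sum.inl ())) ∣ argB st (zz a) s (Sum.inl k) :=
    fun k => ⟨qq st a k, argB_inl st a s k⟩
  have eqb : argB st (zz a) s = Sum.elim (fun k => argB st (zz a) s (Sum.inl k)) s := by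
    funext i
    rcases i with k | l
    · rfl
    · rfl
  have hs1 : ∀ l, X (Sum.inl (Sum.inl ())) ∣ s l :=
    step1 φ hφ.zero hφ.lin T1 (fun k => argB st (zz a) s (Sum.inl k)) s (Sum.inl (Sum.inl ()))
      harg hB.zero (by intro l; rw [← eqb]; exact hB.eq l)
  have hs2 : ∀ l, X (Sum.inl (Sum.inl ())) ^ 2 ∣ s l := by
    intro l
    have hall : ∀ i, X (Sum.inl (Sum.inl ())) ∣ argB st (zz a) s i := by
      rintro (k | l')
      · exact harg k
      · exact hs1 l'
    have hq := quad (φ l) (hφ.zero l) (hφ.lin l) (argB st (zz a) s) (Sum.inl (Sum.inl ())) hall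
    have h2 : X (Sum.inl (Sum.inl ())) ^ 2 ∣ (φ l).subst (argB st (zz a) s) := by
      have e1 : (φ l).subst (argB st (zz a) s) = ((φ l).subst (argB st (zz a) s) -
          ∑ i, ∑ j, C (algebraMap ℂ ℂ[T;T⁻¹] (qM (φ l) i j)) *
            (argB st (zz a) s i * argB st (zz a) s j)) +
          ∑ i, ∑ j, C (algebraMap ℂ ℂ[T;T⁻¹] (qM (φ l) i j)) *
            (argB st (zz a) s i * argB st (zz a) s j) := by ring
      rw [e1]
      apply dvd_add
      · exact (pow_dvd_pow _ (by norm_num)).trans hq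
      · apply Finset.dvd_sum
        intro i _
        apply Finset.dvd_sum
        intro j _
        rw [pow_two]
        exact (mul_dvd_mul (hall i) (hall j)).mul_left _
    rw [hB.eq l, X_pow_dvd_iff]
    intro n hn
    rw [map_neg, coeff_mapA, X_pow_dvd_iff.1 h2 n hn, map_zero, neg_zero]
  have hcoef : ∀ l (n : Pk m d →₀ ℕ), n (Sum.inl (Sum.inl ())) = 0 →
      evL (-1) (coeff (n + Finsupp.single (Sum.inl (Sum.inl ())) 2) (s l)) =
        -Lam T1 (coeff n (∑ k, ∑ k',
          C (algebraMap ℂ ℂ[T;T⁻¹] (qM (φ l) (Sum.inl k) (Sum.inl k'))) *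
            (qq st a k * qq st a k'))) := by
    intro l n hn
    have h := step2 (φ l) (hφ.zero l) (hφ.lin l) (fun k => argB st (zz a) s (Sum.inl k)) s
      (Sum.inl (Sum.inl ())) (qq st a) (argB_inl st a s) hs2
    rw [← eqb] at h
    have h2 := coeff_step2 (Sum.inl (Sum.inl ())) _ _ h n hn
    rw [hB.eq l, map_neg, coeff_mapA, h2, ← evH_apply, map_neg, evH_apply, Lam_apply]
  refine ⟨fun l => Ww (Sum.inl (Sum.inl ())) (s l),
    fun l => ⟨?_, ?_, ?_⟩, fun l => ?_, fun i l => ?_⟩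
  · -- convergence
    obtain ⟨B, hB0, hB1⟩ := hB.conv l
    refine ⟨max B 1 ^ 3, by positivity, fun n => ?_⟩
    show ‖evL (-1) (coeff (n + Finsupp.single (Sum.inl (Sum.inl ())) 2) (s l))‖ ≤ _
    refine (hL.2.2.2.2.2.2.1 (-1) _ (by norm_num) (by norm_num)).trans ((hB1 _).trans ?_)
    rw [map_add, Finsupp.degree_single, ← pow_mul]
    calc B ^ (n.degree + 2 + 1) ≤ max B 1 ^ (n.degree + 2 + 1) :=
          pow_le_pow_left₀ hB0.le (le_max_left _ _) _
      _ ≤ max B 1 ^ (3 * (n.degree + 1)) :=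
          pow_le_pow_right₀ (le_max_right _ _) (by omega)
  · -- constant term
    show evL (-1) (coeff (0 + Finsupp.single (Sum.inl (Sum.inl ())) 2) (s l)) = 0
    rw [hcoef l 0 rfl]
    have e1 : coeff 0 (∑ k, ∑ k',
          C (algebraMap ℂ ℂ[T;T⁻¹] (qM (φ l) (Sum.inl k) (Sum.inl k'))) *
            (qq st a k * qq st a k')) =
        Bf (Mz (φ l)) (fun k => coeff 0 (qq st a k)) (fun k => coeff 0 (qq st a k)) := by
      rw [coeff_zero_eq_constantCoeff_apply, map_sum]
      unfold Bf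
      apply Finset.sum_congr rfl
      intro k _
      rw [map_sum]
      apply Finset.sum_congr rfl
      intro k' _
      rw [map_mul, map_mul, constantCoeff_C, LaurentPolynomial.C_eq_algebraMap]
      rfl
    rw [e1, Lam_qq0 hT1 hst hL, neg_zero]
  · -- real
    refine MvPowerSeries.ext fun n => ?_
    unfold cj
    rw [coeff_map, coeff_Ww, ← (hL.2.2.2.1 st hst).2.2 (-1) _ (by norm_num), ← coeff_map, hreal l]
  · -- divisibility
    refine MvPowerSeries.ext fun n => ?_
    by_cases hn : 2 ≤ n (Sum.inl (Sum.inl ()))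
    · obtain ⟨n', rfl⟩ : ∃ n', n = Finsupp.single (Sum.inl (Sum.inl ())) 2 + n' := by
        refine ⟨n - Finsupp.single (Sum.inl (Sum.inl ())) 2, ?_⟩
        rw [add_tsub_cancel_of_le]
        rw [Finsupp.single_le_iff]
        exact hn
      rw [X_pow_eq, coeff_add_monomial_mul, one_mul, coeff_Ww, add_comm]
      rfl
    · push Not at hn
      rw [X_pow_dvd_iff.1 (Dvd.intro _ rfl) n hn]
      show evL (-1) (coeff n (s l)) = 0
      rw [X_pow_dvd_iff.1 (hs2 l) n hn, evL_zero]
  · -- linear coefficients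
    show evL (-1) (coeff (Finsupp.single (Sum.inl (Sum.inr i)) 1 +
      Finsupp.single (Sum.inl (Sum.inl ())) 2) (s l)) = _
    rw [hcoef l _ (by rw [Finsupp.single_apply, if_neg (by simp)])]
    have e1 : coeff (Finsupp.single (Sum.inl (Sum.inr i)) 1) (∑ k, ∑ k',
          C (algebraMap ℂ ℂ[T;T⁻¹] (qM (φ l) (Sum.inl k) (Sum.inl k'))) *
            (qq st a k * qq st a k')) =
        Bf (Mz (φ l)) (fun k => coeff 0 (qq st a k))
          (fun k => coeff (Finsupp.single (Sum.inl (Sum.inr i)) 1) (qq st a k)) +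
        Bf (Mz (φ l)) (fun k => coeff (Finsupp.single (Sum.inl (Sum.inr i)) 1) (qq st a k))
          (fun k => coeff 0 (qq st a k)) := by
      rw [map_sum]
      unfold Bf
      rw [← Finset.sum_add_distrib]
      apply Finset.sum_congr rfl
      intro k _
      rw [map_sum, ← Finset.sum_add_distrib]
      apply Finset.sum_congr rfl
      intro k' _
      rw [MvPowerSeries.coeff_C_mul, coeff_single_mul, LaurentPolynomial.C_eq_algebraMap, mul_add]
      rfl
    have e2 : ∀ k k', Mz (φ l) k k' = Mz (φ l) k' k := fun k k' => qM_symm _ _ _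
    rw [e1, Bf_symm _ e2 (fun k => coeff (Finsupp.single (Sum.inl (Sum.inr i)) 1) (qq st a k)),
      map_add, Lam_qq1 hT1 hst hL]
    have e3 := lev_eq φ hφ (a i) l
    push_cast
    rw [e3]
    ring

end

end Pool.Agent.Lib.MP_2184e2_an.Loc
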