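import Pool.Agent.Lib.MP_2184e2_an.Loc.Lvs
import Pool.Agent.Lib.MP_2184e2_an.Loc.SpecA

section
/-!
# Module RAP: analytic functions are convergent power series
-/
set_option autoImplicit false

namespace Pool.Agent.Lib.MP_2184e2_an.Loc

open MvPowerSeries Filter Topology Set
open scoped ContDiff ComplexConjugate

noncomputable section

namespace RapM

open EvaM

variable {ι : Type}

/-- the content of a sequence -/
def cont {k : ℕ} (s : Fin k → ι) : ι →₀ ℕ := ∑ j, Finsupp.single (s j) 1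

theorem degree_cont {k : ℕ} (s : Fin k → ι) : (cont s).degree = k := by
  rw [cont, map_sum]
  simp

theorem mon_cont {k : ℕ} {R : Type} [CommMonoid R] (s : Fin k → ι) (y : ι → R) :
    mon (cont s) y = ∏ j, y (s j) := by
  classical
  rw [cont]
  have h : ∀ T : Finset (Fin k), mon (∑ j ∈ T, Finsupp.single (s j) 1) y = ∏ j ∈ T, y (s j) := by
    intro T
    induction T using Finset.induction_on with
    | empty => simp [mon_zero]
    | insert a T ha ih => rw [Finset.sum_insert ha, Finset.prod_insert ha, mon_add, ih,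
        mon_single, pow_one]
  exact h _

theorem conv_of_le {f : PS ι} {C b : ℝ} (hC : 0 ≤ C) (hb : 0 ≤ b)
    (h : ∀ n : ι →₀ ℕ, ‖coeff n f‖ ≤ C * b ^ n.degree) : Conv f := by
  refine ⟨(C + 1) * (b + 1), by positivity, fun n => (h n).trans ?_⟩
  have h1 : C ≤ (C + 1) ^ (n.degree + 1) := by
    calc C ≤ C + 1 := by linarith
      _ = (C + 1) ^ 1 := (pow_one _).symm
      _ ≤ (C + 1) ^ (n.degree + 1) := pow_le_pow_right₀ (by linarith) (by omega)
  have h2 : b ^ n.degree ≤ (b + 1) ^ (n.degree + 1) := by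
    calc b ^ n.degree ≤ (b + 1) ^ n.degree := pow_le_pow_left₀ hb (by linarith) _
      _ ≤ (b + 1) ^ (n.degree + 1) := pow_le_pow_right₀ (by linarith) (by omega)
  rw [mul_pow]
  exact mul_le_mul h1 h2 (pow_nonneg hb _) (by positivity)

variable [Fintype ι]

/-- grouping by degree -/
theorem hasSum_deg {f : (ι →₀ ℕ) → ℂ} {a : ℂ} (h : HasSum f a) :
    HasSum (fun k => ∑ n ∈ (finite_deg (ι := ι) k).toFinset, f n) a := by
  classical
  have h2 := (Equiv.sigmaFiberEquiv fun n : ι →₀ ℕ => n.degree).hasSum_iff.2 h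
  refine h2.sigma fun k => ?_
  have : Fintype {n : ι →₀ ℕ // n.degree = k} := (finite_deg k).fintype
  rw [Finset.sum_subtype (finite_deg (ι := ι) k).toFinset (p := fun n => n.degree = k)
    (fun n => by rw [Set.Finite.mem_toFinset]; rfl)]
  exact hasSum_fintype _

/-- the homogeneous parts of a power series in coordinates -/
theorem apply_diag {𝕜 : Type} [NontriviallyNormedField 𝕜] [NormedAlgebra 𝕜 ℂ] [DecidableEq ι]
    {k : ℕ} (M : ContinuousMultilinearMap 𝕜 (fun _ : Fin k => ι → 𝕜) ℂ) (y : ι → 𝕜) :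
    M (fun _ => y) = ∑ s : Fin k → ι, algebraMap 𝕜 ℂ (∏ j, y (s j)) *
      M (fun j => Pi.single (s j) 1) := by
  have h1 : (fun _ : Fin k => y) = fun _ : Fin k => ∑ i, y i • (Pi.single i 1 : ι → 𝕜) := by
    funext _
    funext j
    simp [Finset.sum_apply, Pi.single_apply]
  rw [h1]
  have h2 := M.toMultilinearMap.map_sum
    (fun (_ : Fin k) (i : ι) => y i • (Pi.single i 1 : ι → 𝕜))
  have h3 : M (fun _ : Fin k => ∑ i, y i • (Pi.single i 1 : ι → 𝕜)) =
    ∑ s : Fin k → ι, M (fun j => y (s j) • (Pi.single (s j) 1 : ι → 𝕜)) := h2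
  rw [h3]
  refine Finset.sum_congr rfl fun s _ => ?_
  rw [M.map_smul_univ, Algebra.smul_def]

theorem rap {𝕜 : Type} [NontriviallyNormedField 𝕜] [NormedAlgebra 𝕜 ℂ] (g : (ι → 𝕜) → ℂ)
    (hg : AnalyticAt 𝕜 g 0) : ∃ F : PS ι, Conv F ∧
      ∀ᶠ y in 𝓝 (0 : ι → 𝕜), g y = ev F fun i => algebraMap 𝕜 ℂ (y i) := by
  classical
  obtain ⟨p, hp⟩ := hg
  obtain ⟨r, hr⟩ := hp
  let F : PS ι := fun n => ∑ s : Fin n.degree → ι with cont s = n,
    p n.degree (fun j => Pi.single (s j) 1)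
  have hF : ∀ k (n : ι →₀ ℕ), n.degree = k → coeff n F =
      ∑ s : Fin k → ι with cont s = n, p k (fun j => Pi.single (s j) 1) := by
    intro k n hn
    subst hn
    rfl
  obtain ⟨ρ, hρ0, hρ⟩ : ∃ ρ : NNReal, 0 < ρ ∧ (ρ : ENNReal) < r :=
    ENNReal.lt_iff_exists_nnreal_btwn.1 hr.r_pos |>.imp fun ρ h => ⟨by exact_mod_cast h.1, h.2⟩
  obtain ⟨C, hC, hpC⟩ := p.norm_mul_pow_le_of_lt_radius (hρ.trans_le hr.r_le)
  have hρ' : (0 : ℝ) < ρ := hρ0
  have hbd : ∀ n : ι →₀ ℕ, ‖coeff n F‖ ≤ C * ((Fintype.card ι : ℝ) / ρ) ^ n.degree := by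
    intro n
    rw [hF n.degree n rfl]
    have h1 : ∀ s : Fin n.degree → ι, ‖p n.degree (fun j => (Pi.single (s j) 1 : ι → 𝕜))‖ ≤
        C / ρ ^ n.degree := by
      intro s
      refine ((p n.degree).le_opNorm _).trans ?_
      have h2 : ∏ j, ‖(Pi.single (s j) 1 : ι → 𝕜)‖ ≤ 1 := by
        refine Finset.prod_le_one (fun _ _ => norm_nonneg _) fun j _ => ?_
        rw [pi_norm_le_iff_of_nonneg zero_le_one]
        intro i
        by_cases hi : i = s j
        · subst hi; simp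
        · simp [hi]
      calc ‖p n.degree‖ * ∏ j, ‖(Pi.single (s j) 1 : ι → 𝕜)‖ ≤ ‖p n.degree‖ * 1 := by gcongr
        _ = ‖p n.degree‖ := mul_one _
        _ ≤ C / ρ ^ n.degree := by
            rw [le_div_iff₀ (by positivity)]
            exact hpC n.degree
    calc ‖∑ s : Fin n.degree → ι with cont s = n, p n.degree (fun j => Pi.single (s j) 1)‖
        ≤ ∑ s : Fin n.degree → ι with cont s = n, ‖p n.degree (fun j => Pi.single (s j) 1)‖ :=
          norm_sum_le _ _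
      _ ≤ ∑ s : Fin n.degree → ι with cont s = n, C / ρ ^ n.degree :=
          Finset.sum_le_sum fun s _ => h1 s
      _ ≤ ∑ s : Fin n.degree → ι, C / ρ ^ n.degree :=
          Finset.sum_le_sum_of_subset_of_nonneg (Finset.filter_subset _ _)
            fun _ _ _ => by positivity
      _ = C * ((Fintype.card ι : ℝ) / ρ) ^ n.degree := by
          rw [Finset.sum_const, Finset.card_univ, Fintype.card_fun, Fintype.card_fin, nsmul_eq_mul,
            div_pow]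
          push_cast
          ring
  have hconv : Conv F := conv_of_le hC.le (by positivity) hbd
  refine ⟨F, hconv, ?_⟩
  obtain ⟨r₀, hr₀, hs⟩ := exists_major hconv
  have hev1 : ∀ᶠ y in 𝓝 (0 : ι → 𝕜), y ∈ Metric.eball (0 : ι → 𝕜) r :=
    Metric.eball_mem_nhds _ hr.r_pos
  have hev2 : ∀ᶠ y in 𝓝 (0 : ι → 𝕜), ∀ i, ‖algebraMap 𝕜 ℂ (y i)‖ ≤ r₀ := by
    have := Metric.ball_mem_nhds (0 : ι → 𝕜) hr₀
    filter_upwards [this] with y hy i
    rw [norm_algebraMap']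
    have hy' : ‖y‖ < r₀ := by simpa using hy
    exact (norm_le_pi_norm y i).trans hy'.le
  filter_upwards [hev1, hev2] with y hy1 hy2
  have hA := hr.hasSum hy1
  rw [zero_add] at hA
  have hB := hasSum_deg (summable_norm_ev hs hy2).of_norm.hasSum
  suffices hE : (fun k => p k fun _ => y) = fun k => ∑ n ∈ (finite_deg (ι := ι) k).toFinset,
      coeff n F * mon n fun i => algebraMap 𝕜 ℂ (y i) by
    rw [hE] at hA
    exact hA.unique hB
  funext k
  rw [apply_diag]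
  have hmaps : ∀ s ∈ (Finset.univ : Finset (Fin k → ι)),
      cont s ∈ (finite_deg (ι := ι) k).toFinset := by
    intro s _
    rw [Set.Finite.mem_toFinset]
    exact degree_cont s
  rw [← Finset.sum_fiberwise_of_maps_to hmaps]
  refine Finset.sum_congr rfl fun n hn => ?_
  have hn' : n.degree = k := by
    rw [Set.Finite.mem_toFinset] at hn
    exact hn
  rw [hF k n hn', Finset.sum_mul]
  refine Finset.sum_congr rfl fun s hs => ?_
  rw [Finset.mem_filter] at hs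
  rw [← hs.2, mon_cont, map_prod, mul_comm]

end RapM

theorem specRAP : SpecRAP := by
  intro ι _ _
  exact ⟨fun g hg => RapM.rap g hg, fun g hg => RapM.rap g hg⟩

end

end Pool.Agent.Lib.MP_2184e2_an.Loc
end

section
/-!
# MP_2184e2_an, local theorem: module SECD
-/
set_option autoImplicit false

namespace Pool.Agent.Lib.MP_2184e2_an.Loc

open MvPowerSeries Filter Topology Set
open scoped ContDiff ComplexConjugate

noncomputable section

namespace SecdM

lemma line {E : Type*} [NormedAddCommGroup E] [NormedSpace ℂ E] {f : E → ℂ} {q b : E} {t : ℝ}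
    (hf : DifferentiableAt ℂ f (q + (t : ℂ) • b)) :
    HasDerivAt (fun z : ℂ => f (q + z • b)) (fderiv ℂ f (q + (t : ℂ) • b) b) (t : ℂ) := by
  have h1 : HasDerivAt (fun z : ℂ => q + z • b) b (t : ℂ) := by
    have := ((hasDerivAt_id (t : ℂ)).smul_const b).const_add q
    simpa using this
  exact hf.hasFDerivAt.comp_hasDerivAt (t : ℂ) h1

lemma apply_fd {E : Type*} [NormedAddCommGroup E] [NormedSpace ℂ E] {g : E → E →L[ℂ] ℂ} {q b : E}
    (h : DifferentiableAt ℂ g q) :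
    HasFDerivAt (fun x => g x b) ((ContinuousLinearMap.apply ℂ ℂ b).comp (fderiv ℂ g q)) q :=
  (ContinuousLinearMap.apply ℂ ℂ b).hasFDerivAt.comp q h.hasFDerivAt

/-- The mixed second difference. -/
lemma mvt2 {E : Type*} [NormedAddCommGroup E] [NormedSpace ℂ E] {f : E → ℂ} {U : Set E}
    (hf : ∀ q ∈ U, AnalyticAt ℂ f q) {p a b : E}
    (hseg : ∀ s ∈ Icc (0 : ℝ) 1, ∀ t ∈ Icc (0 : ℝ) 1, p + (s : ℂ) • a + (t : ℂ) • b ∈ U) :
    ∃ s ∈ Icc (0 : ℝ) 1, ∃ t ∈ Icc (0 : ℝ) 1,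
      (f (p + a + b) - f (p + a) - f (p + b) + f p).re =
        (fderiv ℂ (fderiv ℂ f) (p + (s : ℂ) • a + (t : ℂ) • b) a b).re := by
  have h1 : ∀ t ∈ Icc (0 : ℝ) 1, p + a + (t : ℂ) • b ∈ U := by
    intro t ht
    have := hseg 1 ⟨zero_le_one, le_rfl⟩ t ht
    simpa using this
  have h0 : ∀ t ∈ Icc (0 : ℝ) 1, p + (t : ℂ) • b ∈ U := by
    intro t ht
    have := hseg 0 ⟨le_rfl, zero_le_one⟩ t ht
    simpa using this
  have hG : ∀ t ∈ Icc (0 : ℝ) 1, HasDerivAt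
      (fun t : ℝ => (f (p + a + (t : ℂ) • b) - f (p + (t : ℂ) • b)).re)
      (fderiv ℂ f (p + a + (t : ℂ) • b) b - fderiv ℂ f (p + (t : ℂ) • b) b).re t := by
    intro t ht
    exact ((line (hf _ (h1 t ht)).differentiableAt).sub
      (line (hf _ (h0 t ht)).differentiableAt)).real_of_complex
  obtain ⟨t, ht, ht2⟩ := exists_hasDerivAt_eq_slope _ _ (zero_lt_one' ℝ)
    (fun t ht => (hG t ht).continuousAt.continuousWithinAt)
    (fun t ht => hG t (Ioo_subset_Icc_self ht))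
  have ht' := Ioo_subset_Icc_self ht
  have hH : ∀ s ∈ Icc (0 : ℝ) 1, HasDerivAt
      (fun s : ℝ => (fderiv ℂ f (p + (t : ℂ) • b + (s : ℂ) • a) b).re)
      (fderiv ℂ (fderiv ℂ f) (p + (t : ℂ) • b + (s : ℂ) • a) a b).re s := by
    intro s hs
    have hq : p + (t : ℂ) • b + (s : ℂ) • a ∈ U := by
      have := hseg s hs t ht'
      rwa [add_right_comm] at this
    have h2 : DifferentiableAt ℂ (fderiv ℂ f) (p + (t : ℂ) • b + (s : ℂ) • a) :=
      (hf _ hq).fderiv.differentiableAt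
    have h3 : HasFDerivAt (fun q => fderiv ℂ f q b)
        ((ContinuousLinearMap.apply ℂ ℂ b).comp
          (fderiv ℂ (fderiv ℂ f) (p + (t : ℂ) • b + (s : ℂ) • a)))
        (p + (t : ℂ) • b + (s : ℂ) • a) := apply_fd h2
    have h4 := line (b := a) h3.differentiableAt
    rw [h3.fderiv] at h4
    exact h4.real_of_complex
  obtain ⟨s, hs, hs2⟩ := exists_hasDerivAt_eq_slope _ _ (zero_lt_one' ℝ)
    (fun s hs => (hH s hs).continuousAt.continuousWithinAt)
    (fun s hs => hH s (Ioo_subset_Icc_self hs))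
  refine ⟨s, Ioo_subset_Icc_self hs, t, ht', ?_⟩
  rw [show p + (s : ℂ) • a + (t : ℂ) • b = p + (t : ℂ) • b + (s : ℂ) • a from
    add_right_comm _ _ _, hs2]
  simp only [sub_zero, div_one] at ht2
  simp only [sub_zero, div_one]
  rw [← Complex.sub_re]
  have e1 : p + (t : ℂ) • b + ((1 : ℝ) : ℂ) • a = p + a + (t : ℂ) • b := by
    rw [Complex.ofReal_one, one_smul, add_right_comm]
  have e2 : p + (t : ℂ) • b + ((0 : ℝ) : ℂ) • a = p + (t : ℂ) • b := by
    rw [Complex.ofReal_zero, zero_smul, add_zero]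
  rw [e1, e2, ht2]
  rw [← Complex.sub_re]
  congr 1
  simp only [Complex.ofReal_one, Complex.ofReal_zero, one_smul, zero_smul, add_zero]
  ring

variable {N : ℕ}

/-- the Levi form -/
def Qf (ρ : PS (Fin N ⊕ Fin N)) (c : Fin N → ℂ) : ℝ :=
  (∑ i, ∑ j, co2 ρ (Sum.inl i) (Sum.inr j) * c i * conj (c j)).re

lemma Qf_smul (ρ : PS (Fin N ⊕ Fin N)) (t : ℝ) (c : Fin N → ℂ) :
    Qf ρ ((t : ℂ) • c) = t ^ 2 * Qf ρ c := by
  unfold Qf
  have : (∑ i, ∑ j, co2 ρ (Sum.inl i) (Sum.inr j) * ((t : ℂ) • c) i * conj (((t : ℂ) • c) j)) =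
      ((t ^ 2 : ℝ) : ℂ) * ∑ i, ∑ j, co2 ρ (Sum.inl i) (Sum.inr j) * c i * conj (c j) := by
    rw [Finset.mul_sum]
    refine Finset.sum_congr rfl fun i _ => ?_
    rw [Finset.mul_sum]
    refine Finset.sum_congr rfl fun j _ => ?_
    simp only [Pi.smul_apply, smul_eq_mul, map_mul, Complex.conj_ofReal]
    push_cast
    ring
  rw [this, Complex.re_ofReal_mul]

lemma cont_Qf (ρ : PS (Fin N ⊕ Fin N)) : Continuous (Qf ρ) := by
  unfold Qf
  fun_prop

lemma Qf_lower {ρ : PS (Fin N ⊕ Fin N)} (hρ : IsTgt ρ) :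
    ∃ m : ℝ, 0 < m ∧ ∀ c : Fin N → ℂ, m * ‖c‖ ^ 2 ≤ Qf ρ c := by
  by_cases hN : (Metric.sphere (0 : Fin N → ℂ) 1).Nonempty
  · obtain ⟨x, hx, hmin⟩ := (isCompact_sphere (0 : Fin N → ℂ) 1).exists_isMinOn hN
      (cont_Qf ρ).continuousOn
    have hx0 : x ≠ 0 := by
      rintro rfl
      simp at hx
    refine ⟨Qf ρ x, hρ.pos x hx0, fun c => ?_⟩
    by_cases hc : c = 0
    · subst hc
      simp [Qf]
    · have hn : 0 < ‖c‖ := norm_pos_iff.mpr hc
      have h1 : (((‖c‖⁻¹ : ℝ) : ℂ) • c) ∈ Metric.sphere (0 : Fin N → ℂ) 1 := by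
        rw [mem_sphere_zero_iff_norm, norm_smul, Complex.norm_real, norm_inv, norm_norm,
          inv_mul_cancel₀ hn.ne']
      have h2 : Qf ρ x ≤ Qf ρ (((‖c‖⁻¹ : ℝ) : ℂ) • c) := hmin h1
      rw [Qf_smul] at h2
      have h3 : Qf ρ c = ‖c‖ ^ 2 * ((‖c‖⁻¹) ^ 2 * Qf ρ c) := by
        field_simp
      rw [h3, mul_comm (Qf ρ x)]
      exact mul_le_mul_of_nonneg_left h2 (by positivity)
  · refine ⟨1, one_pos, fun c => ?_⟩
    have hc : c = 0 := by
      by_contra hc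
      have hn : 0 < ‖c‖ := norm_pos_iff.mpr hc
      apply hN
      refine ⟨((‖c‖⁻¹ : ℝ) : ℂ) • c, ?_⟩
      rw [mem_sphere_zero_iff_norm, norm_smul, Complex.norm_real, norm_inv, norm_norm,
        inv_mul_cancel₀ hn.ne']
    subst hc
    simp [Qf]

lemma coeff_two (ρ : PS (Fin N ⊕ Fin N)) (i j : Fin N) :
    constantCoeff (pderiv ℂ (Sum.inl i) (pderiv ℂ (Sum.inr j) ρ)) =
      co2 ρ (Sum.inl i) (Sum.inr j) := by
  rw [← coeff_zero_eq_constantCoeff_apply, coeff_pderiv, coeff_pderiv]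
  simp [co2]

lemma D2_zero (hEVA : SpecEVA) (hCNV : SpecCNV) {ρ : PS (Fin N ⊕ Fin N)} (hρ : Conv ρ)
    (c : Fin N → ℂ) :
    (fderiv ℂ (fderiv ℂ (ev ρ)) 0 (Sum.elim c 0) (Sum.elim 0 fun j => conj (c j))).re =
      Qf ρ c := by
  classical
  obtain ⟨h1, h2, h3, h4, h5, h6, h7⟩ := hEVA (Fin N ⊕ Fin N)
  have hc : ∀ (g : PS (Fin N ⊕ Fin N)) (i : Fin N ⊕ Fin N), Conv g → Conv (pderiv ℂ i g) :=
    fun g i hg => ((hCNV.1 ℂ _ hCNV.2 (Fin N ⊕ Fin N)).2.2.2 g i hg)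
  have hf := (h1 ρ hρ).1
  have hent : ∀ i j : Fin N, fderiv ℂ (fderiv ℂ (ev ρ)) 0 (Pi.single (Sum.inl i) 1)
      (Pi.single (Sum.inr j) 1) = co2 ρ (Sum.inl i) (Sum.inr j) := by
    intro i j
    have h8 : HasFDerivAt (fun q => fderiv ℂ (ev ρ) q (Pi.single (Sum.inr j) 1))
        ((ContinuousLinearMap.apply ℂ ℂ (Pi.single (Sum.inr j) 1 : Fin N ⊕ Fin N → ℂ)).comp
          (fderiv ℂ (fderiv ℂ (ev ρ)) 0)) 0 := apply_fd hf.fderiv.differentiableAt
    have h9 : (fun q => fderiv ℂ (ev ρ) q (Pi.single (Sum.inr j) 1)) =ᶠ[𝓝 0]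
        ev (pderiv ℂ (Sum.inr j) ρ) := h5 ρ (Sum.inr j) hρ
    have h10 := h9.fderiv_eq (𝕜 := ℂ)
    rw [h8.fderiv] at h10
    have h11 := congrArg (fun L => L (Pi.single (Sum.inl i) 1)) h10
    simp only [ContinuousLinearMap.comp_apply, ContinuousLinearMap.apply_apply] at h11
    rw [h11, (h5 _ (Sum.inl i) (hc ρ (Sum.inr j) hρ)).self_of_nhds,
      (h1 _ (hc _ _ (hc _ _ hρ))).2, coeff_two]
  have ea : (Sum.elim c 0 : Fin N ⊕ Fin N → ℂ) =
      ∑ i, c i • (Pi.single (Sum.inl i) 1 : Fin N ⊕ Fin N → ℂ) := by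
    funext k
    rcases k with k | k
    · simp [Finset.sum_apply, Pi.single_apply]
    · simp [Finset.sum_apply]
  have eb : (Sum.elim 0 (fun j => conj (c j)) : Fin N ⊕ Fin N → ℂ) =
      ∑ j, conj (c j) • (Pi.single (Sum.inr j) 1 : Fin N ⊕ Fin N → ℂ) := by
    funext k
    rcases k with k | k
    · simp [Finset.sum_apply]
    · simp [Finset.sum_apply, Pi.single_apply]
  rw [ea, eb]
  simp only [map_sum, map_smul, sum_apply, smul_apply, hent, smul_eq_mul]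
  unfold Qf
  congr 1
  simp only [Finset.mul_sum]
  rw [Finset.sum_comm]
  refine Finset.sum_congr rfl fun i _ => Finset.sum_congr rfl fun j _ => ?_
  ring

lemma real_sym (hEVA : SpecEVA) (hEVS : SpecEVS) (hCNV : SpecCNV) {ρ : PS (Fin N ⊕ Fin N)}
    (hρ : IsTgt ρ) : ∀ᶠ x in 𝓝 (0 : Fin N ⊕ Fin N → ℂ),
      ev ρ x = conj (ev ρ (Sum.elim (fun j => conj (x (Sum.inr j)))
        fun j => conj (x (Sum.inl j)))) := by
  classical
  obtain ⟨h1, h2, h3, h4, h5, h6, h7⟩ := hEVA (Fin N ⊕ Fin N)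
  have hcj : Conv (cj ρ) := by
    obtain ⟨C, hC, h⟩ := hρ.conv
    refine ⟨C, hC, fun n => ?_⟩
    have := h n
    simpa [cj] using this
  have hX : ∀ i : Fin N ⊕ Fin N, Conv (X i : PS (Fin N ⊕ Fin N)) ∧
      Z0 (X i : PS (Fin N ⊕ Fin N)) := fun i =>
    ⟨(hCNV.1 ℂ _ hCNV.2 (Fin N ⊕ Fin N)).2.2.1 i, by simp [Z0]⟩
  have h8 := hEVS (Fin N ⊕ Fin N) (Fin N ⊕ Fin N) (cj ρ)
    (Sum.elim (fun j => X (Sum.inr j)) (fun j => X (Sum.inl j))) hcj (by
      rintro (j | j)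
      · exact hX _
      · exact hX _)
  filter_upwards [h8] with x hx
  rw [hρ.real] at hx
  rw [hx]
  have e : (fun i => ev ((Sum.elim (fun j => X (Sum.inr j)) (fun j => X (Sum.inl j)) :
      Fin N ⊕ Fin N → PS (Fin N ⊕ Fin N)) i) x) = fun i => conj ((Sum.elim
        (fun j => conj (x (Sum.inr j))) fun j => conj (x (Sum.inl j)) :
        Fin N ⊕ Fin N → ℂ) i) := by
    funext i
    rcases i with i | i
    · simp [h4]
    · simp [h4]
  rw [e, h6]

lemma elim_norm {x y : Fin N → ℂ} {r : ℝ} (hr : 0 < r) (hx : ‖x‖ < r) (hy : ‖y‖ < r) :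
    ‖(Sum.elim x y : Fin N ⊕ Fin N → ℂ)‖ < r := by
  rw [pi_norm_lt_iff hr]
  rintro (i | i)
  · exact (norm_le_pi_norm x i).trans_lt hx
  · exact (norm_le_pi_norm y i).trans_lt hy

lemma norm_conj' (x : Fin N → ℂ) : ‖fun j => conj (x j)‖ = ‖x‖ := by
  apply le_antisymm
  · rw [pi_norm_le_iff_of_nonneg (norm_nonneg _)]
    intro i
    rw [Complex.norm_conj]
    exact norm_le_pi_norm x i
  · rw [pi_norm_le_iff_of_nonneg (norm_nonneg _)]
    intro i
    rw [← Complex.norm_conj]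
    exact norm_le_pi_norm (fun j => conj (x j)) i

end SecdM

open SecdM in
theorem specSECD (hEVA : SpecEVA) (hEVS : SpecEVS) (hCNV : SpecCNV) : SpecSECD := by
  intro N ρ hρ
  obtain ⟨m, hm, hQ⟩ := Qf_lower hρ
  have hf : AnalyticAt ℂ (ev ρ) 0 := ((hEVA (Fin N ⊕ Fin N)).1 ρ hρ.conv).1
  have hA := hf.eventually_analyticAt
  have hC : ∀ᶠ q in 𝓝 (0 : Fin N ⊕ Fin N → ℂ),
      ‖fderiv ℂ (fderiv ℂ (ev ρ)) q - fderiv ℂ (fderiv ℂ (ev ρ)) 0‖ < m / 2 := by
    have h1 := hf.fderiv.fderiv.continuousAt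
    have h2 := (Metric.tendsto_nhds.mp h1) (m / 2) (by positivity)
    filter_upwards [h2] with q hq
    rwa [dist_eq_norm] at hq
  have hS := real_sym hEVA hEVS hCNV hρ
  obtain ⟨r, hr, hball⟩ := Metric.eventually_nhds_iff_ball.mp (hA.and (hC.and hS))
  refine ⟨m / (2 * (N + 1)), by positivity, r / 3, by positivity, ?_⟩
  intro u v hu hv hu0 hv0
  set c : Fin N → ℂ := u - v with hc
  have hcn : ‖c‖ < 2 * (r / 3) := by
    calc ‖c‖ ≤ ‖u‖ + ‖v‖ := norm_sub_le u v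
      _ < 2 * (r / 3) := by linarith
  set p : Fin N ⊕ Fin N → ℂ := Sum.elim v fun j => conj (v j) with hp
  set a : Fin N ⊕ Fin N → ℂ := Sum.elim c 0 with ha
  set b : Fin N ⊕ Fin N → ℂ := Sum.elim 0 fun j => conj (c j) with hb
  have hseg : ∀ s ∈ Icc (0 : ℝ) 1, ∀ t ∈ Icc (0 : ℝ) 1,
      p + (s : ℂ) • a + (t : ℂ) • b ∈ Metric.ball (0 : Fin N ⊕ Fin N → ℂ) r := by
    intro s hs t ht
    have e : p + (s : ℂ) • a + (t : ℂ) • b =
        Sum.elim (v + (s : ℂ) • c) ((fun j => conj (v j)) + (t : ℂ) • fun j => conj (c j)) := by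
      funext k
      rcases k with k | k
      · simp [hp, ha, hb]
      · simp [hp, ha, hb]
    rw [e, mem_ball_zero_iff]
    have hb1 : ∀ s ∈ Icc (0 : ℝ) 1, ∀ w : Fin N → ℂ, ‖(s : ℂ) • w‖ ≤ ‖w‖ := by
      intro s hs w
      rw [norm_smul, Complex.norm_real, Real.norm_of_nonneg hs.1]
      exact mul_le_of_le_one_left (norm_nonneg _) hs.2
    apply elim_norm hr
    · calc ‖v + (s : ℂ) • c‖ ≤ ‖v‖ + ‖(s : ℂ) • c‖ := norm_add_le _ _
        _ ≤ ‖v‖ + ‖c‖ := by linarith [hb1 s hs c]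
        _ < r := by linarith
    · calc ‖(fun j => conj (v j)) + (t : ℂ) • fun j => conj (c j)‖
          ≤ ‖fun j => conj (v j)‖ + ‖(t : ℂ) • fun j => conj (c j)‖ := norm_add_le _ _
        _ ≤ ‖fun j => conj (v j)‖ + ‖fun j => conj (c j)‖ := by
          linarith [hb1 t ht (fun j => conj (c j))]
        _ = ‖v‖ + ‖c‖ := by rw [norm_conj', norm_conj']
        _ < r := by linarith
  obtain ⟨s, hs, t, ht, hst⟩ := mvt2 (fun q hq => (hball q hq).1) hseg
  have e1 : p + a + b = Sum.elim u fun j => conj (u j) := by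
    funext k
    rcases k with k | k
    · simp [hp, ha, hb, hc]
    · simp [hp, ha, hb, hc]
  have e2 : p + a = Sum.elim u fun j => conj (v j) := by
    funext k
    rcases k with k | k
    · simp [hp, ha, hc]
    · simp [hp, ha]
  have e3 : p + b = Sum.elim v fun j => conj (u j) := by
    funext k
    rcases k with k | k
    · simp [hp, hb]
    · simp [hp, hb, hc]
  rw [e1, e2, e3, hu0, hv0] at hst
  have hvu : ev ρ (Sum.elim v fun j => conj (u j)) =
      conj (ev ρ (Sum.elim u fun j => conj (v j))) := by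
    have hmem : (Sum.elim v fun j => conj (u j) : Fin N ⊕ Fin N → ℂ) ∈
        Metric.ball (0 : Fin N ⊕ Fin N → ℂ) r := by
      rw [mem_ball_zero_iff]
      apply elim_norm hr (by linarith)
      rw [norm_conj']
      linarith
    have := (hball _ hmem).2.2
    simpa using this
  rw [hvu] at hst
  have hst2 : -2 * (ev ρ (Sum.elim u fun j => conj (v j))).re =
      (fderiv ℂ (fderiv ℂ (ev ρ)) (p + (s : ℂ) • a + (t : ℂ) • b) a b).re := by
    rw [← hst]
    simp only [Complex.add_re, Complex.sub_re, Complex.conj_re, Complex.zero_re]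
    ring
  rw [hst2]
  have hq := (hball _ (hseg s hs t ht)).2.1
  set q := p + (s : ℂ) • a + (t : ℂ) • b with hqdef
  have hD0 := D2_zero hEVA hCNV hρ.conv c
  have hna : ‖a‖ ≤ ‖c‖ := by
    rw [pi_norm_le_iff_of_nonneg (norm_nonneg _)]
    rintro (i | i)
    · exact norm_le_pi_norm c i
    · simp [ha]
  have hnb : ‖b‖ ≤ ‖c‖ := by
    rw [pi_norm_le_iff_of_nonneg (norm_nonneg _)]
    rintro (i | i)
    · simp [hb]
    · simp only [hb, Sum.elim_inr]
      rw [Complex.norm_conj]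
      exact norm_le_pi_norm c i
  have hdiff : |(fderiv ℂ (fderiv ℂ (ev ρ)) q a b).re -
      (fderiv ℂ (fderiv ℂ (ev ρ)) 0 a b).re| ≤ m / 2 * ‖c‖ ^ 2 := by
    rw [← Complex.sub_re]
    refine (Complex.abs_re_le_norm _).trans ?_
    have h1 : fderiv ℂ (fderiv ℂ (ev ρ)) q a b - fderiv ℂ (fderiv ℂ (ev ρ)) 0 a b =
        (fderiv ℂ (fderiv ℂ (ev ρ)) q - fderiv ℂ (fderiv ℂ (ev ρ)) 0) a b := rfl
    rw [h1]
    calc ‖(fderiv ℂ (fderiv ℂ (ev ρ)) q - fderiv ℂ (fderiv ℂ (ev ρ)) 0) a b‖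
        ≤ ‖fderiv ℂ (fderiv ℂ (ev ρ)) q - fderiv ℂ (fderiv ℂ (ev ρ)) 0‖ * ‖a‖ * ‖b‖ :=
          ContinuousLinearMap.le_opNorm₂ _ _ _
      _ ≤ m / 2 * ‖c‖ * ‖c‖ := by gcongr
      _ = m / 2 * ‖c‖ ^ 2 := by ring
  rw [hD0] at hdiff
  have h1 := hQ c
  have h2 := (abs_le.mp hdiff).1
  have h3 : ∑ j, ‖u j - v j‖ ^ 2 ≤ (N + 1) * ‖c‖ ^ 2 := by
    calc ∑ j, ‖u j - v j‖ ^ 2 ≤ ∑ _j : Fin N, ‖c‖ ^ 2 := by
          refine Finset.sum_le_sum fun j _ => ?_
          have : ‖u j - v j‖ ≤ ‖c‖ := norm_le_pi_norm c j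
          gcongr
      _ = N * ‖c‖ ^ 2 := by simp
      _ ≤ (N + 1) * ‖c‖ ^ 2 := by nlinarith [sq_nonneg ‖c‖]
  calc m / (2 * (N + 1)) * ∑ j, ‖u j - v j‖ ^ 2
      ≤ m / (2 * (N + 1)) * ((N + 1) * ‖c‖ ^ 2) := by gcongr
    _ = m / 2 * ‖c‖ ^ 2 := by field_simp
    _ ≤ _ := by linarith

end

end Pool.Agent.Lib.MP_2184e2_an.Loc
end
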