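import Pool.Agent.Lib.MP_2184e2_an.Loc.Cal
import Pool.Agent.Lib.MP_2184e2_an.Loc.Cnv

/-!
# MP_2184e2_an, local theorem: module STEPP (the map at the next Segre point)
-/

set_option autoImplicit false

namespace Pool.Agent.Lib.MP_2184e2_an.Loc.SteppM

open MvPowerSeries Filter Topology CalM

noncomputable section

variable {N : ℕ} {T μ : Type}

theorem pderiv_comm' {ι : Type} (i j : ι) (f : PS ι) :
    pderiv ℂ i (pderiv ℂ j f) = pderiv ℂ j (pderiv ℂ i f) := by
  classical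
  by_cases h : i = j
  · rw [h]
  · ext n
    rw [coeff_pderiv, coeff_pderiv, coeff_pderiv, coeff_pderiv]
    have e : n + Finsupp.single i 1 + Finsupp.single j 1 =
        n + Finsupp.single j 1 + Finsupp.single i 1 := by
      rw [add_assoc, add_assoc, add_comm (Finsupp.single i 1)]
    rw [e]
    have h1 : (n + Finsupp.single i 1 : ι →₀ ℕ) j = n j := by
      rw [Finsupp.add_apply, Finsupp.single_apply, if_neg h, add_zero]
    have h2 : (n + Finsupp.single j 1 : ι →₀ ℕ) i = n i := by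
      rw [Finsupp.add_apply, Finsupp.single_apply, if_neg (Ne.symm h), add_zero]
    rw [h1, h2]
    ring

/-- the inclusion of the series in `(x, s)` into the series in `(x, w, s)` -/
def jw (N : ℕ) {T μ : Type} : T ⊕ μ → PS ((T ⊕ Fin N) ⊕ μ) :=
  Sum.elim (fun t => X (Sum.inl (Sum.inl t))) (fun s => X (Sum.inr s))

theorem z0_jw (i : T ⊕ μ) : Z0 (jw N i) := by
  rcases i with t | s
  · exact z0_X _
  · exact z0_X _

/-- the point `(w, h(x, s))` -/
def ww (h : Fin N → PS (T ⊕ μ)) : Fin N ⊕ Fin N → PS ((T ⊕ Fin N) ⊕ μ) :=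
  Sum.elim (fun k => X (Sum.inl (Sum.inr k))) (fun k => (h k).subst (jw N))

section
variable [Finite T] [Finite μ]

theorem z0_ww {h : Fin N → PS (T ⊕ μ)} (hh : ∀ k, Z0 (h k)) : ∀ i, Z0 (ww h i) := by
  rintro (k | k)
  · exact z0_X _
  · exact z0_subst (hh k) z0_jw

omit [Finite T] [Finite μ] in
theorem z0_insY {Y : Fin N → PS (T ⊕ μ)} (hY : ∀ k, Z0 (Y k)) : ∀ i, Z0 (insY Y i) := by
  rintro ((t | k) | s)
  · exact z0_X _
  · exact hY k
  · exact z0_X _

theorem jw_insY {Y : Fin N → PS (T ⊕ μ)} (hY : ∀ k, Z0 (Y k)) (g : PS (T ⊕ μ)) :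
    (g.subst (jw N)).subst (insY Y) = g := by
  rw [ss z0_jw (z0_insY hY)]
  have h1 : (fun i => (jw N i).subst (insY Y)) = fun i => (X i : PS (T ⊕ μ)) := by
    funext i
    rcases i with t | s
    · change (X (Sum.inl (Sum.inl t)) : PS ((T ⊕ Fin N) ⊕ μ)).subst (insY Y) = _
      rw [s_X (z0_insY hY)]
      rfl
    · change (X (Sum.inr s) : PS ((T ⊕ Fin N) ⊕ μ)).subst (insY Y) = _
      rw [s_X (z0_insY hY)]
      rfl
  rw [h1, s_self]

theorem ww_insY {Y h : Fin N → PS (T ⊕ μ)} (hY : ∀ k, Z0 (Y k)) (hh : ∀ k, Z0 (h k))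
    (f : PS (Fin N ⊕ Fin N)) :
    (f.subst (ww h)).subst (insY Y) = f.subst (Sum.elim Y h) := by
  rw [ss (z0_ww hh) (z0_insY hY)]
  congr 1
  funext i
  rcases i with k | k
  · change (X (Sum.inl (Sum.inr k)) : PS ((T ⊕ Fin N) ⊕ μ)).subst (insY Y) = _
    rw [s_X (z0_insY hY)]
    rfl
  · change ((h k).subst (jw N)).subst (insY Y) = _
    rw [jw_insY hY]
    rfl

end

section
variable [Fintype T] [Fintype μ]

theorem pd_jw (hCHN : SpecCHN) (g : PS (T ⊕ μ)) (k : Fin N) :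
    pderiv ℂ (Sum.inl (Sum.inr k)) (g.subst (jw N)) = 0 := by
  rw [hCHN ℂ _ _ g (jw N) z0_jw]
  apply Finset.sum_eq_zero
  rintro (t | s) _
  · have : pderiv ℂ (Sum.inl (Sum.inr k)) (jw N (Sum.inl t : T ⊕ μ)) = 0 :=
      pderiv_X_of_ne (by simp)
    rw [this, mul_zero]
  · have : pderiv ℂ (Sum.inl (Sum.inr k)) (jw N (Sum.inr s : T ⊕ μ)) = 0 :=
      pderiv_X_of_ne (by simp)
    rw [this, mul_zero]

theorem pd_ww (hCHN : SpecCHN) {h : Fin N → PS (T ⊕ μ)} (hh : ∀ k, Z0 (h k))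
    (f : PS (Fin N ⊕ Fin N)) (k : Fin N) :
    pderiv ℂ (Sum.inl (Sum.inr k)) (f.subst (ww h)) =
      (pderiv ℂ (Sum.inl k) f).subst (ww h) := by
  rw [hCHN ℂ _ _ f (ww h) (z0_ww hh), Finset.sum_eq_single (Sum.inl k)]
  · have : pderiv ℂ (Sum.inl (Sum.inr k)) (ww h (Sum.inl k)) = 1 := pderiv_X_self
    rw [this, mul_one]
  · rintro (l | l) _ hl
    · have : pderiv ℂ (Sum.inl (Sum.inr k)) (ww h (Sum.inl l)) = 0 :=
        pderiv_X_of_ne (by
          intro h2
          apply hl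
          rw [Sum.inr_injective (Sum.inl_injective h2)])
      rw [this, mul_zero]
    · have : pderiv ℂ (Sum.inl (Sum.inr k)) (ww h (Sum.inr l)) = 0 := pd_jw hCHN _ _
      rw [this, mul_zero]
  · intro h2
    exact absurd (Finset.mem_univ _) h2

theorem SC_jw (hSCS : SpecSCS) (hSCR : SpecSCR) {g : PS (T ⊕ μ)} (hg : SC g) :
    SC (g.subst (jw N)) := by
  obtain ⟨-, -, -, -, hX, -⟩ := hSCR (T ⊕ Fin N) μ
  have h2 : ∀ s : μ, part 0 (X (Sum.inr s) : PS ((T ⊕ Fin N) ⊕ μ)) = 0 := by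
    intro s
    classical
    ext n
    rw [coeff_part, coeff_X, coeff_zero, if_neg]
    intro h
    have h3 := DFunLike.congr_fun h (Sum.inr s)
    simp at h3
  exact hSCS.1 T μ (T ⊕ Fin N) μ g _ _ hg (fun i => ⟨hX _, z0_X _⟩) (fun j => ⟨hX _, h2 j⟩)

theorem SC_ww (hSCS : SpecSCS) (hSCR : SpecSCR) {h : Fin N → PS (T ⊕ μ)} (hh : ∀ k, Z0 (h k))
    (hs : ∀ k, SC (h k)) {f : PS (Fin N ⊕ Fin N)} (hf : Conv f) : SC (f.subst (ww h)) := by
  obtain ⟨-, -, -, -, hX, -⟩ := hSCR (T ⊕ Fin N) μ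
  apply hSCS.2.1 (Fin N ⊕ Fin N) (T ⊕ Fin N) μ f _ hf
  rintro (k | k)
  · exact ⟨hX _, z0_X _⟩
  · exact ⟨SC_jw hSCS hSCR (hs k), z0_subst (hh k) z0_jw⟩

theorem SC_sum (hSCR : SpecSCR) {ι ν α : Type} [Finite ι] [Finite ν] (s : Finset α)
    (f : α → PS (ι ⊕ ν)) (hf : ∀ k ∈ s, SC (f k)) : SC (∑ k ∈ s, f k) := by
  classical
  obtain ⟨h1, -, h3, -⟩ := hSCR ι ν
  induction s using Finset.induction with
  | empty =>
    rw [Finset.sum_empty]
    exact h3
  | insert a s ha ih =>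
    rw [Finset.sum_insert ha]
    exact (h1 _ _ (hf a (Finset.mem_insert_self _ _))
      (ih fun k hk => hf k (Finset.mem_insert_of_mem hk))).1

end

/-- proportional vectors: the transfer of linear relations -/
theorem transfer {R : Type} [CommRing R] [IsDomain R] {n : ℕ} {U V : Fin n → R} {a : Fin n}
    (h : ∀ i, U a * V i = U i * V a) (hU : U a ≠ 0) (hV : V a ≠ 0) (x : Fin n → R) :
    ∑ i, U i * x i = 0 ↔ ∑ i, V i * x i = 0 := by
  have key : V a * ∑ i, U i * x i = U a * ∑ i, V i * x i := by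
    rw [Finset.mul_sum, Finset.mul_sum]
    apply Finset.sum_congr rfl
    intro i _
    linear_combination -x i * h i
  constructor
  · intro h1
    rw [h1, mul_zero] at key
    exact (mul_eq_zero.1 key.symm).resolve_left hU
  · intro h1
    rw [h1, mul_zero] at key
    exact (mul_eq_zero.1 key).resolve_left hV

end

end Pool.Agent.Lib.MP_2184e2_an.Loc.SteppM

namespace Pool.Agent.Lib.MP_2184e2_an.Loc

open MvPowerSeries CalM SteppM

/-- STEPP. -/
theorem specSTEPP (hPTS : SpecPTS) (hCPT : SpecCPT) (hSCS : SpecSCS) (hSCR : SpecSCR)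
    (hCHN : SpecCHN) (hLSE : SpecLSE) (hLA : SpecLA) (hEXTR : SpecEXTR) (hSHM : SpecSHM)
    (hIBR : SpecIBR) (hANN : SpecANN) : SpecSTEPP := by
  classical
  intro m d N Q ρ H hQ hρ hH F V hmin T _ _ v a hv ha hPP hUU
  obtain ⟨P1, P2, P3, P4, P5, P6, P7⟩ := hPTS m d Q hQ T v a hv ha
  set vp : Zi m d → PS T := pr Q a (fun i => cj (v i)) with hvp
  set b : Fin m → PS T := fun j => cj (v (Sum.inl j)) with hb
  set p : Mi m d → PS (T ⊕ (Zi m d ⊕ Fin m)) := pt Q vp b with hp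
  set E' : T ⊕ Zi m d → PS (T ⊕ (Zi m d ⊕ Fin m)) := Sum.elim iL (dl Q v a) with hE'
  have zE : ∀ i, Z0 (E' i) := by
    rintro (t | i)
    · exact z0_X _
    · have h1 := (P4 i).2
      have h2 : coeff 0 (part 0 (dl Q v a i)) = 0 := by rw [h1, coeff_zero]
      change constantCoeff (dl Q v a i) = 0
      rw [coeff_part] at h2
      rw [← coeff_zero_eq_constantCoeff_apply, ← h2]
      congr 2
      ext i
      rcases i with i | i <;> simp
  have zv : ∀ i, Z0 (v i) := fun i => (hv i).2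
  have zvp : ∀ i, Z0 (vp i) := fun i => (P1 i).2
  have zb : ∀ j, Z0 (b j) := fun j => z0_cj (zv _)
  have zH := hH.zero
  have zsh : ∀ (u : Zi m d → PS T), (∀ i, Z0 (u i)) → ∀ i, Z0 (sh u i) := fun u hu i =>
    z0_add (z0_subst (hu i) (fun _ => z0_X _)) (z0_X _)
  have zinc : ∀ i, Z0 ((incG : T ⊕ Zi m d → PS (T ⊕ (Zi m d ⊕ Fin m))) i) := by
    rintro (t | i)
    · exact z0_X _
    · exact z0_X _
  have zZc : ∀ i, Z0 (Zc Q i) := by
    rintro (j | l)
    · exact z0_X _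
    · change Z0 ((Q l).subst _)
      apply z0_subst (hQ.zero l)
      rintro (j | i)
      · exact z0_X _
      · exact z0_X _
  have zζ : ∀ i, Z0 ((ζc : Zi m d → PS (Mi m d)) i) := fun i => z0_X _
  have zargH : ∀ i, Z0 (argH Q H i) := by
    rintro (j | j)
    · exact z0_subst (zH j) zZc
    · exact z0_subst (z0_cj (zH j)) zζ
  -- the unknown and the antiholomorphic components
  set Y : Fin N → PS (T ⊕ Zi m d) := fun k => (H k).subst (sh vp) with hY
  set Y' : Fin N → PS (T ⊕ (Zi m d ⊕ Fin m)) := fun k => (Y k).subst incG with hY'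
  set hbar : Fin N → PS (T ⊕ (Zi m d ⊕ Fin m)) := fun k => ((cj (H k)).subst ζc).subst p with hhb
  have zY : ∀ k, Z0 (Y k) := fun k => z0_subst (zH k) (zsh vp zvp)
  have zY' : ∀ k, Z0 (Y' k) := fun k => z0_subst (zY k) zinc
  have zhb : ∀ k, Z0 (hbar k) := fun k => z0_subst (z0_subst (z0_cj (zH k)) zζ) P2
  have shb : ∀ k, SC (hbar k) := by
    intro k
    have h1 : hbar k = (cj ((H k).subst (sh v))).subst E' := P5 (H k)
    rw [h1]
    exact P6 _ (hPP k)
  have eY' : ∀ k, Y' k = ((H k).subst (Zc Q)).subst p := fun k => (P3 (H k)).symm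
  have argp : (Sum.elim Y' hbar) = fun i => (argH Q H i).subst p := by
    funext i
    rcases i with k | k
    · exact eY' k
    · rfl
  have ins : ∀ f : PS (Fin N ⊕ Fin N), (f.subst (ww hbar)).subst (insY Y') =
      (f.subst (argH Q H)).subst p := by
    intro f
    rw [ww_insY zY' zhb, argp, ss zargH P2]
  -- the proportionality
  have prop : ∀ j ∈ F, ∃ (U : Fin N → PS (T ⊕ (Zi m d ⊕ Fin m))), (∀ i, SC (U i)) ∧
      ∀ x : Fin N → PS (T ⊕ (Zi m d ⊕ Fin m)),
        ∑ i, U i * x i = 0 ↔ ∑ i, ((cj (V j i)).subst ζc).subst p * x i = 0 := by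
    intro j hj
    obtain ⟨U, hU1, hU2, hU3⟩ := hUU j hj
    obtain ⟨c, hc⟩ : ∃ c, U c ≠ 0 := by
      by_contra hcon
      push Not at hcon
      exact hU2 (funext hcon)
    obtain ⟨S1, -, -, -⟩ := hSHM (Zi m d) T v zv
    have hVc : (V j c).subst (sh v) ≠ 0 := by
      intro h0
      have h1 := hU3 c j
      rw [h0, mul_zero] at h1
      have h2 := (mul_eq_zero.1 h1).resolve_left hc
      exact hmin.ne j hj (S1 _ h2)
    refine ⟨fun i => (cj (U i)).subst E', fun i => P6 _ (hU1 i), fun x => ?_⟩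
    have : IsDomain (PS (T ⊕ (Zi m d ⊕ Fin m))) := NoZeroDivisors.to_isDomain _
    apply transfer (a := c)
    · intro i
      rw [P5, P5, ← subst_mul (hs zE), ← subst_mul (hs zE), ← cj_mul, ← cj_mul, hU3]
    · intro h0
      exact hc (cj_eq_zero.1 (P7 _ h0))
    · intro h0
      rw [P5] at h0
      exact hVc (cj_eq_zero.1 (P7 _ h0))
  choose! U hUS hUT using prop
  -- the system
  have CV := specCNV
  have convd : ∀ (i : Fin N ⊕ Fin N) (f : PS (Fin N ⊕ Fin N)), Conv f → Conv (pderiv ℂ i f) :=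
    fun i f hf => (CV.1 ℂ _ CV.2 (Fin N ⊕ Fin N)).2.2.2 f i hf
  let R : Option {j // j ∈ F} → PS ((T ⊕ Fin N) ⊕ (Zi m d ⊕ Fin m)) := fun o => match o with
    | none => ρ.subst (ww hbar)
    | some j => ∑ i, (U j.1 i).subst (jw N) * (pderiv ℂ (Sum.inr i) ρ).subst (ww hbar)
  have RS : ∀ o, SC (R o) := by
    rintro (_ | ⟨j, hj⟩)
    · exact SC_ww hSCS hSCR zhb shb hρ.conv
    · apply SC_sum hSCR
      intro i _
      exact ((hSCR _ _).1 _ _ (SC_jw hSCS hSCR (hUS j hj i))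
        (SC_ww hSCS hSCR zhb shb (convd _ _ hρ.conv))).2.1
  have RY : ∀ o, (R o).subst (insY Y') = 0 := by
    rintro (_ | ⟨j, hj⟩)
    · change (ρ.subst (ww hbar)).subst (insY Y') = 0
      rw [ins, hH.rel, s_zero P2]
    · change (∑ i, (U j i).subst (jw N) * (pderiv ℂ (Sum.inr i) ρ).subst (ww hbar)).subst
        (insY Y') = 0
      rw [s_sum (z0_insY zY')]
      have h1 : ∀ i, ((U j i).subst (jw N) *
          (pderiv ℂ (Sum.inr i) ρ).subst (ww hbar)).subst (insY Y') =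
          U j i * ((pderiv ℂ (Sum.inr i) ρ).subst (argH Q H)).subst p := by
        intro i
        rw [subst_mul (hs (z0_insY zY')), jw_insY zY', ins]
      simp only [h1]
      rw [hUT j hj]
      have h2 := hIBR m d N Q ρ H hQ hρ zH (V j) (hmin.inV j hj)
      have h3 := congrArg (fun f => MvPowerSeries.subst p f) h2
      simp only [s_sum P2, s_zero P2] at h3
      rw [← h3]
      apply Finset.sum_congr rfl
      intro i _
      rw [subst_mul (hs P2)]
  have Rd : ∀ o k, (pderiv ℂ (Sum.inl (Sum.inr k)) (R o)).subst (insY Y') =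
      match o with
      | none => (G1 Q ρ H k).subst p
      | some j => ∑ i, U j.1 i * (G2 Q ρ H k i).subst p := by
    rintro (_ | ⟨j, hj⟩) k
    · change (pderiv ℂ (Sum.inl (Sum.inr k)) (ρ.subst (ww hbar))).subst (insY Y') = _
      rw [pd_ww hCHN zhb, ins]
      rfl
    · change (pderiv ℂ (Sum.inl (Sum.inr k)) (∑ i, (U j i).subst (jw N) *
        (pderiv ℂ (Sum.inr i) ρ).subst (ww hbar))).subst (insY Y') =
        ∑ i, U j i * (G2 Q ρ H k i).subst p
      rw [map_sum, s_sum (z0_insY zY')]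
      apply Finset.sum_congr rfl
      intro i _
      rw [Derivation.leibniz, pd_jw hCHN, smul_zero, add_zero, pd_ww hCHN zhb, smul_eq_mul,
        subst_mul (hs (z0_insY zY')), jw_insY zY', ins, pderiv_comm']
      rfl
  obtain ⟨C1, C2, C3, C4, C5, C6, C7⟩ := hCPT T (Zi m d) (Fin m)
  obtain ⟨D1, D2, D3, D4, D5, D6, D7⟩ := hCPT (T ⊕ Fin N) (Zi m d) (Fin m)
  have Csum : ∀ (f : Fin N → PS (T ⊕ (Zi m d ⊕ Fin m))) (γ : Fin m →₀ ℕ),
      cpart γ (∑ k, f k) = ∑ k, cpart γ (f k) := by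
    intro f γ
    exact map_sum (AddMonoidHom.mk' (fun g : PS (T ⊕ (Zi m d ⊕ Fin m)) => cpart γ g)
      (fun f g => C2 f g γ)) f Finset.univ
  let Θ : Option {j // j ∈ F} × (Fin m →₀ ℕ) → PS ((T ⊕ Fin N) ⊕ Zi m d) :=
    fun o => cpart o.2 (R o.1)
  let A : Option {j // j ∈ F} × (Fin m →₀ ℕ) → Fin N → PS (T ⊕ Zi m d) :=
    fun o k => (pderiv ℂ (Sum.inl (Sum.inr k)) (Θ o)).subst (insY Y)
  have hΘY : ∀ o, (Θ o).subst (insY Y) = 0 := by
    intro o
    change (cpart o.2 (R o.1)).subst (insY Y) = 0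
    rw [← C7 N _ Y o.2 zY]
    change cpart o.2 ((R o.1).subst (insY Y')) = 0
    rw [RY, C3]
  have hA : ∀ o k, A o k = cpart o.2 ((pderiv ℂ (Sum.inl (Sum.inr k)) (R o.1)).subst (insY Y')) := by
    intro o k
    change (pderiv ℂ (Sum.inl (Sum.inr k)) (cpart o.2 (R o.1))).subst (insY Y) = _
    rw [← D6, ← C7 N _ Y o.2 zY]
  have hSHMp := hSHM (Zi m d) T vp zvp
  have claim : ∀ W : Fin N → PS (T ⊕ Zi m d), (∀ o, ∑ k, A o k * W k = 0) → W = 0 := by
    intro W hW
    -- the relation without parameter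
    have rel : ∀ (o : Option {j // j ∈ F}), ∑ k, (W k).subst incG *
        (pderiv ℂ (Sum.inl (Sum.inr k)) (R o)).subst (insY Y') = 0 := by
      intro o
      apply C1
      intro γ
      rw [Csum]
      have h1 := hW (o, γ)
      rw [← h1]
      apply Finset.sum_congr rfl
      intro k _
      rw [C4, hA, mul_comm]
    have I1 : ∀ α, InV Q ρ H (fun k => xpart α ((W k).subst (shm vp))) := by
      intro α
      apply hEXTR m d N Q hQ T vp b zvp zb (G1 Q ρ H) W
      have h1 := rel none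
      simpa only [Rd] using h1
    have I2 : ∀ j ∈ F, ∀ α, ∑ k, (xpart α ((W k).subst (shm vp))).subst (Zc Q) *
        ∑ i, (cj (V j i)).subst ζc * G2 Q ρ H k i = 0 := by
      intro j hj
      apply hEXTR m d N Q hQ T vp b zvp zb
        (fun k => ∑ i, (cj (V j i)).subst ζc * G2 Q ρ H k i) W
      have h1 := rel (some ⟨j, hj⟩)
      simp only [Rd] at h1
      have h2 : ∑ i, U j i * ∑ k, (W k).subst incG * (G2 Q ρ H k i).subst p = 0 := by
        rw [← h1]
        simp only [Finset.mul_sum]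
        rw [Finset.sum_comm]
        apply Finset.sum_congr rfl
        intro k _
        apply Finset.sum_congr rfl
        intro i _
        ring
      rw [hUT j hj] at h2
      rw [← h2]
      simp only [Finset.mul_sum]
      rw [Finset.sum_comm]
      apply Finset.sum_congr rfl
      intro k _
      change (W k).subst incG * (∑ i, (cj (V j i)).subst ζc * G2 Q ρ H k i).subst p = _
      rw [s_sum P2, Finset.mul_sum]
      apply Finset.sum_congr rfl
      intro i _
      rw [subst_mul (hs P2)]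
      ring
    have I3 : ∀ α, (fun k => xpart α ((W k).subst (shm vp))) = 0 := by
      intro α
      exact hANN m d N Q ρ H hQ hρ zH F V hmin _ (I1 α) (fun j hj => I2 j hj α)
    funext k
    exact hSHMp.2.1 _ (fun α => congrFun (I3 α) k)
  have : IsDomain (PS (T ⊕ Zi m d)) := NoZeroDivisors.to_isDomain _
  obtain ⟨s, hs'⟩ := hLSE (PS (T ⊕ Zi m d)) N _ A claim
  exact hLA T (Zi m d) N (fun i => Θ (s i)) Y (fun i => D5 _ _ (RS _)) zY (fun i => hΘY _) hs'

end Pool.Agent.Lib.MP_2184e2_an.Loc
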