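import Pool.Agent.Lib.MP_2184e2_an.Loc.SubLib

section
/-!
# MP_2184e2_an, local theorem: the module FORMAL
-/
set_option autoImplicit false

namespace Pool.Agent.Lib.MP_2184e2_an.Loc

open MvPowerSeries SubM

theorem specFORMAL (hFMIN : SpecFMIN) (hSTEPU : SpecSTEPU) (hSTEPP : SpecSTEPP)
    (hEND : SpecEND) (hSHM : SpecSHM) (hSCR : SpecSCR) (hPTS : SpecPTS) : SpecFORMAL := by
  classical
  intro m d N Q ρ H hQ hL hρ hM
  obtain ⟨F, V, hmin⟩ := hFMIN m d N Q ρ H hQ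
  obtain ⟨K, a, ha, hK⟩ := hEND m d Q hQ hL
  have e0 : sh (fun _ => 0 : Zi m d → PS ((Unit ⊕ Fin m) ⊕ Fin d)) = iR := by
    funext i
    unfold sh iR
    rw [sZero (fun t => z0_X _), zero_add]
  have key : ∀ k, (∀ i, Conv (seg Q a k i) ∧ Z0 (seg Q a k i)) ∧ PP H (seg Q a k) ∧
      ∀ j ∈ F, UU (V j) (seg Q a k) := by
    intro k
    induction k with
    | zero =>
      refine ⟨fun i => ⟨?_, z0_zero⟩, fun j => ?_, fun j hj => ?_⟩
      · refine ⟨1, one_pos, fun n => ?_⟩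
        have e : coeff n (0 : PS ((Unit ⊕ Fin m) ⊕ Fin d)) = 0 := coeff_zero n
        show ‖coeff n (0 : PS ((Unit ⊕ Fin m) ⊕ Fin d))‖ ≤ _
        rw [e, norm_zero, one_pow]
        exact zero_le_one
      · have h := (hSCR ((Unit ⊕ Fin m) ⊕ Fin d) (Zi m d)).2.2.2.2.2.2.2.2.1 (H j)
        show SC ((H j).subst (sh (fun _ => 0 : Zi m d → PS ((Unit ⊕ Fin m) ⊕ Fin d))))
        rw [e0]
        exact h
      · refine ⟨fun b => (V j b).subst (sh (seg Q a 0)), fun b => ?_, ?_, fun b c => ?_⟩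
        · have h := (hSCR ((Unit ⊕ Fin m) ⊕ Fin d) (Zi m d)).2.2.2.2.2.2.2.2.1 (V j b)
          show SC ((V j b).subst (sh (fun _ => 0 : Zi m d → PS ((Unit ⊕ Fin m) ⊕ Fin d))))
          rw [e0]
          exact h
        · intro h
          exact hmin.ne j hj ((hSHM (Zi m d) ((Unit ⊕ Fin m) ⊕ Fin d) (fun _ => 0)
            (fun _ => z0_zero)).1 _ (congrFun h j))
        · exact mul_comm _ _
    | succ k ih =>
      obtain ⟨i1, i2, i3⟩ := ih
      have c := (hPTS m d Q hQ _ (seg Q a k) (a k) i1 (ha k)).1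
      have p : PP H (seg Q a (k + 1)) := hSTEPP m d N Q ρ H hQ hρ hM F V hmin _ _ _ i1 (ha k) i2 i3
      exact ⟨c, p, hSTEPU m d N Q ρ H hQ hρ hM F V hmin _ _ _ i1 (ha k) i2 p⟩
  intro j
  obtain ⟨k1, k2, _⟩ := key K
  apply hK
  have h := k2 j 0
  rw [(hSHM (Zi m d) _ (seg Q a K) fun i => (k1 i).2).2.2.2 (H j)] at h
  exact h

end Pool.Agent.Lib.MP_2184e2_an.Loc
end

section
/-!
# MP_2184e2_an, local theorem: the module PTS
-/
set_option autoImplicit false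

namespace Pool.Agent.Lib.MP_2184e2_an.Loc.PtsM

open MvPowerSeries Filter Topology SubM
open scoped ContDiff LaurentPolynomial

noncomputable section

variable {m d : ℕ} {T : Type}

/-- the inclusion of the parameters -/
abbrev LL (m d : ℕ) (T : Type) : T → PS (T ⊕ (Zi m d ⊕ Fin m)) := fun t => X (Sum.inl t)

theorem z0_LL (t : T) : Z0 (LL m d T t) := z0_X _

/-- the `Z`-part of `pt` -/
def zP (v : Zi m d → PS T) : Zi m d → PS (T ⊕ (Zi m d ⊕ Fin m)) :=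
  fun i => (v i).subst (LL m d T) + X (Sum.inr (Sum.inl i))

/-- the `χ`-part of `pt` -/
def bP (d : ℕ) (b : Fin m → PS T) : Fin m → PS (T ⊕ (Zi m d ⊕ Fin m)) :=
  fun j => (b j).subst (LL m d T) + X (Sum.inr (Sum.inr j))

theorem pt_eq (Q : Fin d → PS (Mi m d)) (v : Zi m d → PS T) (b : Fin m → PS T) :
    pt Q v b = Sum.elim (fun j => zP v (Sum.inl j)) (pr (cjQ Q) (bP d b) (zP v)) := rfl

theorem z0_zP [Finite T] {v : Zi m d → PS T} (hv : ∀ i, Z0 (v i)) (i : Zi m d) : Z0 (zP v i) :=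
  z0_add (z0_subst (hv i) z0_LL) (z0_X _)

theorem z0_bP [Finite T] {b : Fin m → PS T} (hb : ∀ i, Z0 (b i)) (j : Fin m) :
    Z0 (bP d b j) :=
  z0_add (z0_subst (hb j) z0_LL) (z0_X _)

theorem z0_pt [Finite T] {Q : Fin d → PS (Mi m d)} (hQ : IsSeg0 Q) {v : Zi m d → PS T}
    {b : Fin m → PS T} (hv : ∀ i, Z0 (v i)) (hb : ∀ i, Z0 (b i)) : ∀ i, Z0 (pt Q v b i) := by
  rw [pt_eq]
  exact z0_elim (fun j => z0_zP hv _) (z0_pr (z0_cjQ hQ.zero) (z0_bP hb) (z0_zP hv))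

theorem z0_sh [Finite T] {ι : Type} {v : ι → PS T} (hv : ∀ i, Z0 (v i)) : ∀ i, Z0 (sh v i) :=
  fun i => z0_add (z0_subst (hv i) fun t => z0_X _) (z0_X _)

theorem z0_incG {ι ν μ : Type} : ∀ i, Z0 ((incG : ι ⊕ ν → PS (ι ⊕ (ν ⊕ μ))) i) :=
  z0_elim (fun _ => z0_X _) fun _ => z0_X _

theorem sh_incG [Finite T] {v : Zi m d → PS T} (hv : ∀ i, Z0 (v i)) (i : Zi m d) :
    (sh v i).subst (incG : T ⊕ Zi m d → PS (T ⊕ (Zi m d ⊕ Fin m))) = zP v i := by
  unfold sh zP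
  rw [sAdd z0_incG, ss (fun t => z0_X _) z0_incG, sX z0_incG]
  congr 1
  congr 1
  funext t
  rw [sX z0_incG]
  rfl

theorem zc_pt [Finite T] {Q : Fin d → PS (Mi m d)} (hQ : IsSeg0 Q) {v : Zi m d → PS T}
    {b : Fin m → PS T} (hv : ∀ i, Z0 (v i)) (hb : ∀ i, Z0 (b i)) (i : Zi m d) :
    (Zc Q i).subst (pt Q v b) = zP v i := by
  have hp := z0_pt hQ hv hb
  unfold Zc
  rw [pr_subst (fun _ => z0_X _) (fun _ => z0_X _) hp]
  rcases i with i | l
  · unfold pr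
    rw [Sum.elim_inl, sX hp]
    rfl
  · unfold pr
    rw [Sum.elim_inr]
    rw [← real1 hQ (z0_bP hb) (z0_zP hv) l]
    congr 1
    funext x
    rcases x with x | x
    · rw [Sum.elim_inl, Sum.elim_inl, sX hp]
      rfl
    · rw [Sum.elim_inr, Sum.elim_inr, sX hp]
      rfl

theorem zζ {m d : ℕ} : ∀ i, Z0 ((ζc : Zi m d → PS (Mi m d)) i) := fun _ => z0_X _

theorem z0_Zc {Q : Fin d → PS (Mi m d)} (hQ : IsSeg0 Q) : ∀ i, Z0 (Zc Q i) :=
  z0_pr hQ.zero (fun _ => z0_X _) fun _ => z0_X _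

/-- `v⁺` -/
abbrev vp (Q : Fin d → PS (Mi m d)) (v : Zi m d → PS T) (a : Fin m → PS T) : Zi m d → PS T :=
  pr Q a fun i => cj (v i)

/-- `b = v̄_χ` -/
abbrev bb (v : Zi m d → PS T) : Fin m → PS T := fun j => cj (v (Sum.inl j))

theorem z0_vp {Q : Fin d → PS (Mi m d)} (hQ : IsSeg0 Q) {v : Zi m d → PS T}
    {a : Fin m → PS T} (hv : ∀ i, Z0 (v i)) (ha : ∀ i, Z0 (a i)) : ∀ i, Z0 (vp Q v a i) :=
  z0_pr hQ.zero ha fun i => z0_cj (hv i)

theorem z0_dl [Finite T] {Q : Fin d → PS (Mi m d)} (hQ : IsSeg0 Q) {v : Zi m d → PS T}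
    {a : Fin m → PS T} (hv : ∀ i, Z0 (v i)) (ha : ∀ i, Z0 (a i)) (i : Zi m d) :
    Z0 (dl Q v a i) :=
  z0_sub (z0_pt hQ (z0_vp hQ hv ha) (fun j => z0_cj (hv _)) _)
    (z0_subst (z0_cj (hv i)) fun t => z0_X _)

theorem dl_inl [Finite T] (Q : Fin d → PS (Mi m d)) (v : Zi m d → PS T)
    (a : Fin m → PS T) (j : Fin m) : dl Q v a (Sum.inl j) = X (Sum.inr (Sum.inr j)) := by
  unfold dl
  rw [pt_eq, Sum.elim_inr]
  unfold pr bP
  rw [Sum.elim_inl]
  exact add_sub_cancel_left _ _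

theorem dl_inr [Finite T] (Q : Fin d → PS (Mi m d)) (v : Zi m d → PS T)
    (a : Fin m → PS T) (l : Fin d) : dl Q v a (Sum.inr l) =
      (cj (Q l)).subst (Sum.elim (bP d (bb v)) (zP (vp Q v a))) -
        (cj (v (Sum.inr l))).subst (LL m d T) := rfl

theorem z0_iLdl [Finite T] {Q : Fin d → PS (Mi m d)} (hQ : IsSeg0 Q) {v : Zi m d → PS T}
    {a : Fin m → PS T} (hv : ∀ i, Z0 (v i)) (ha : ∀ i, Z0 (a i)) :
    ∀ i, Z0 ((Sum.elim (iL : T → PS (T ⊕ (Zi m d ⊕ Fin m))) (dl Q v a)) i) :=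
  z0_elim (fun t => z0_X _) (z0_dl hQ hv ha)

theorem zeta_pt [Finite T] {Q : Fin d → PS (Mi m d)} (hQ : IsSeg0 Q) {v : Zi m d → PS T}
    {a : Fin m → PS T} (hv : ∀ i, Z0 (v i)) (ha : ∀ i, Z0 (a i)) (f : PS (Zi m d)) :
    ((cj f).subst ζc).subst (pt Q (vp Q v a) (bb v)) =
        (cj (f.subst (sh v))).subst (Sum.elim iL (dl Q v a)) := by
  have hp := z0_pt hQ (z0_vp hQ hv ha) (b := bb v) (fun j => z0_cj (hv _))
  have hi := z0_iLdl hQ hv ha
  rw [ss zζ hp, cj_subst (z0_sh hv), ss (fun i => z0_cj (z0_sh hv i)) hi]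
  congr 1
  funext i
  unfold ζc
  rw [sX hp]
  unfold sh
  rw [cj_add, cj_X, cj_subst (fun _ => z0_X _), sAdd hi, sX hi, Sum.elim_inr,
    ss (fun i => z0_cj (z0_X _)) hi]
  have e : (fun i_1 : T => (cj (X (Sum.inl i_1) : PS (T ⊕ Zi m d))).subst
      (Sum.elim (iL : T → PS (T ⊕ (Zi m d ⊕ Fin m))) (dl Q v a))) = iL := by
    funext t
    rw [cj_X, sX hi]
    rfl
  rw [e]
  unfold dl
  exact (add_sub_cancel _ _).symm

theorem part0_LL [Finite T] (f : PS T) : part 0 (f.subst (LL m d T)) = f :=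
  part0_iL (ν := Zi m d ⊕ Fin m) f

theorem part0_dl [Finite T] {Q : Fin d → PS (Mi m d)} (hQ : IsSeg0 Q) {v : Zi m d → PS T}
    {a : Fin m → PS T} (hv : ∀ i, Z0 (v i)) (ha : ∀ i, Z0 (a i)) (i : Zi m d) :
    part 0 (dl Q v a i) = 0 := by
  rcases i with j | l
  · rw [dl_inl]
    exact part0_inr _
  · have hb : ∀ i, Z0 (bb v i) := fun j => z0_cj (hv _)
    rw [dl_inr, part0_sub, part0_LL,
      part0_subst (z0_elim (z0_bP hb) (z0_zP (z0_vp hQ hv ha)))]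
    have e : (fun i => part 0 ((Sum.elim (bP d (bb v)) (zP (vp Q v a)) :
        Mi m d → PS (T ⊕ (Zi m d ⊕ Fin m))) i)) =
        Sum.elim (fun j => cj (v (Sum.inl j))) (pr Q a fun i => cj (v i)) := by
      funext x
      rcases x with x | x
      · rw [Sum.elim_inl, Sum.elim_inl]
        unfold bP
        rw [part0_add, part0_LL, part0_inr, add_zero]
      · rw [Sum.elim_inr, Sum.elim_inr]
        unfold zP
        rw [part0_add, part0_LL, part0_inr, add_zero]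
    rw [e, real2 hQ ha (Z := fun i => cj (v i)) (fun i => z0_cj (hv i)), sub_self]

/-! ### the left inverse of `(x, σ) ↦ (x, dl)` -/

/-- `v̄ + σ` -/
def zt (v : Zi m d → PS T) : Zi m d → PS (T ⊕ Zi m d) :=
  fun i => (cj (v i)).subst (iL : T → PS (T ⊕ Zi m d)) + X (Sum.inr i)

theorem z0_iL {ι ν : Type} : ∀ i, Z0 ((iL : ι → PS (ι ⊕ ν)) i) := fun _ => z0_X _

theorem z0_zt [Finite T] {v : Zi m d → PS T} (hv : ∀ i, Z0 (v i)) (i : Zi m d) : Z0 (zt v i) :=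
  z0_add (z0_subst (z0_cj (hv i)) z0_iL) (z0_X _)

/-- the left inverse -/
def lv (Q : Fin d → PS (Mi m d)) (v : Zi m d → PS T) (a : Fin m → PS T) :
    T ⊕ (Zi m d ⊕ Fin m) → PS (T ⊕ Zi m d) :=
  Sum.elim iL (Sum.elim (Sum.elim (fun _ => 0)
    (fun l => pr Q (fun j => (a j).subst (iL : T → PS (T ⊕ Zi m d))) (zt v) (Sum.inr l) -
      (vp Q v a (Sum.inr l)).subst (iL : T → PS (T ⊕ Zi m d))))
    (fun j => X (Sum.inr (Sum.inl j))))

theorem z0_lv [Finite T] {Q : Fin d → PS (Mi m d)} (hQ : IsSeg0 Q) {v : Zi m d → PS T}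
    {a : Fin m → PS T} (hv : ∀ i, Z0 (v i)) (ha : ∀ i, Z0 (a i)) : ∀ i, Z0 (lv Q v a i) :=
  z0_elim z0_iL (z0_elim (z0_elim (fun _ => z0_zero) fun l =>
    z0_sub (z0_pr hQ.zero (fun j => z0_subst (ha j) z0_iL) (z0_zt hv) _)
      (z0_subst (z0_vp hQ hv ha _) z0_iL)) fun j => z0_X _)

theorem LL_lv [Finite T] {Q : Fin d → PS (Mi m d)} (hQ : IsSeg0 Q) {v : Zi m d → PS T}
    {a : Fin m → PS T} (hv : ∀ i, Z0 (v i)) (ha : ∀ i, Z0 (a i)) (f : PS T) :
    (f.subst (LL m d T)).subst (lv Q v a) = f.subst (iL : T → PS (T ⊕ Zi m d)) := by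
  rw [ss z0_LL (z0_lv hQ hv ha)]
  congr 1
  funext t
  rw [sX (z0_lv hQ hv ha)]
  rfl

theorem dl_lv [Finite T] {Q : Fin d → PS (Mi m d)} (hQ : IsSeg0 Q) {v : Zi m d → PS T}
    {a : Fin m → PS T} (hv : ∀ i, Z0 (v i)) (ha : ∀ i, Z0 (a i)) (i : Zi m d) :
    (dl Q v a i).subst (lv Q v a) = X (Sum.inr i) := by
  have hl := z0_lv hQ hv ha
  rcases i with j | l
  · rw [dl_inl, sX hl]
    rfl
  · have hb : ∀ i, Z0 (bb v i) := fun j => z0_cj (hv _)
    rw [dl_inr, sSub hl, LL_lv hQ hv ha,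
      ss (z0_elim (z0_bP hb) (z0_zP (z0_vp hQ hv ha))) hl]
    have ha' : ∀ j, Z0 ((a j).subst (iL : T → PS (T ⊕ Zi m d))) := fun j =>
      z0_subst (ha j) z0_iL
    have e : (fun i => ((Sum.elim (bP d (bb v)) (zP (vp Q v a)) :
        Mi m d → PS (T ⊕ (Zi m d ⊕ Fin m))) i).subst (lv Q v a)) =
        Sum.elim (fun j => zt v (Sum.inl j))
          (pr Q (fun j => (a j).subst (iL : T → PS (T ⊕ Zi m d))) (zt v)) := by
      funext x
      rcases x with x | x | x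
      · rw [Sum.elim_inl, Sum.elim_inl]
        unfold bP zt
        rw [sAdd hl, LL_lv hQ hv ha, sX hl]
        rfl
      · rw [Sum.elim_inr, Sum.elim_inr]
        unfold zP
        rw [sAdd hl, LL_lv hQ hv ha, sX hl]
        exact add_zero _
      · rw [Sum.elim_inr, Sum.elim_inr]
        unfold zP
        rw [sAdd hl, LL_lv hQ hv ha, sX hl]
        exact add_sub_cancel _ _
    rw [e, real2 hQ ha' (z0_zt hv)]
    unfold zt
    exact add_sub_cancel_left _ _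

theorem lv_left [Finite T] {Q : Fin d → PS (Mi m d)} (hQ : IsSeg0 Q) {v : Zi m d → PS T}
    {a : Fin m → PS T} (hv : ∀ i, Z0 (v i)) (ha : ∀ i, Z0 (a i)) (f : PS (T ⊕ Zi m d)) :
    (f.subst (Sum.elim iL (dl Q v a))).subst (lv Q v a) = f := by
  rw [ss (z0_iLdl hQ hv ha) (z0_lv hQ hv ha)]
  have e : (fun i => ((Sum.elim (iL : T → PS (T ⊕ (Zi m d ⊕ Fin m))) (dl Q v a)) i).subst
      (lv Q v a)) = X := by
    funext x
    rcases x with x | x
    · rw [Sum.elim_inl]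
      unfold iL
      rw [sX (z0_lv hQ hv ha)]
      rfl
    · rw [Sum.elim_inr, dl_lv hQ hv ha]
  rw [e, subst_self]
  rfl

end

end Pool.Agent.Lib.MP_2184e2_an.Loc.PtsM

namespace Pool.Agent.Lib.MP_2184e2_an.Loc

open MvPowerSeries SubM PtsM

theorem specPTS (hSCR : SpecSCR) (hSCS : SpecSCS) (hCNS : SpecCNS) (hCNV : SpecCNV) :
    SpecPTS := by
  intro m d Q hQ T _ _ v a hv ha
  have hv0 : ∀ i, Z0 (v i) := fun i => (hv i).2
  have ha0 : ∀ i, Z0 (a i) := fun i => (ha i).2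
  have hb0 : ∀ i, Z0 (bb v i) := fun j => z0_cj (hv0 _)
  have hnm : IsNm (fun c : ℂ => ‖c‖) := hCNV.2
  have cns : ∀ (κ ι : Type) [Finite κ] [Finite ι] (f : PS κ) (a : κ → PS ι), Conv f →
      (∀ i, Conv (a i) ∧ Z0 (a i)) → Conv (f.subst a) := fun κ ι _ _ f a hf h =>
    hCNS ℂ _ hnm κ ι f a hf h
  have cX : ∀ (ι : Type) [Finite ι] (i : ι), Conv (X i : PS ι) := fun ι _ i =>
    (hCNV.1 ℂ _ hnm ι).2.2.1 i
  have cadd : ∀ (ι : Type) [Finite ι] (f g : PS ι), Conv f → Conv g → Conv (f + g) :=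
    fun ι _ f g hf hg => ((hCNV.1 ℂ _ hnm ι).1 f g hf hg).1
  have csub : ∀ (ι : Type) [Finite ι] (f g : PS ι), Conv f → Conv g → Conv (f - g) :=
    fun ι _ f g hf hg => ((hCNV.1 ℂ _ hnm ι).1 f g hf hg).2.2.2
  have hvp : ∀ i, Conv (vp Q v a i) ∧ Z0 (vp Q v a i) := by
    intro i
    refine ⟨?_, z0_vp hQ hv0 ha0 i⟩
    rcases i with i | l
    · exact (ha i).1
    · apply cns _ _ _ _ (hQ.conv l)
      rintro (x | x)
      · exact ha x
      · exact ⟨conv_cj (hv x).1, z0_cj (hv0 x)⟩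
  have cLL : ∀ f : PS T, Conv f → Conv (f.subst (LL m d T)) := fun f hf =>
    cns _ _ f _ hf fun t => ⟨cX _ _, z0_X _⟩
  have czP : ∀ i, Conv (zP (vp Q v a) i) := fun i =>
    cadd _ _ _ (cLL _ (hvp i).1) (cX _ _)
  have cbP : ∀ i, Conv (bP d (bb v) i) := fun i =>
    cadd _ _ _ (cLL _ (conv_cj (hv _).1)) (cX _ _)
  have hdl : ∀ i, SC (dl Q v a i) := by
    intro i
    apply (hSCR T (Zi m d ⊕ Fin m)).2.2.2.2.2.2.1
    rcases i with j | l
    · rw [dl_inl]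
      exact cX _ _
    · rw [dl_inr]
      apply csub
      · apply cns _ _ _ _ (conv_cj (hQ.conv l))
        rintro (x | x)
        · exact ⟨cbP x, z0_bP hb0 x⟩
        · exact ⟨czP x, z0_zP (z0_vp hQ hv0 ha0) x⟩
      · exact cLL _ (conv_cj (hv _).1)
  refine ⟨hvp, z0_pt hQ (z0_vp hQ hv0 ha0) hb0, ?_, ?_, ?_, ?_, ?_⟩
  · intro f
    rw [ss (z0_Zc hQ) (z0_pt hQ (z0_vp hQ hv0 ha0) hb0), ss (z0_sh (z0_vp hQ hv0 ha0)) z0_incG]
    congr 1
    funext i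
    rw [sh_incG (z0_vp hQ hv0 ha0)]
    exact zc_pt hQ (z0_vp hQ hv0 ha0) hb0 i
  · exact fun i => ⟨hdl i, part0_dl hQ hv0 ha0 i⟩
  · exact fun f => zeta_pt hQ hv0 ha0 f
  · intro f hf
    apply hSCS.1 T (Zi m d) T (Zi m d ⊕ Fin m) (cj f) iL (dl Q v a) (sc_cj hf)
    · intro i
      exact ⟨(hSCR T (Zi m d ⊕ Fin m)).2.2.2.2.1 (Sum.inl i), z0_X _⟩
    · intro j
      exact ⟨hdl j, part0_dl hQ hv0 ha0 j⟩
  · intro f hf
    rw [← lv_left hQ hv0 ha0 f, hf, sZero (z0_lv hQ hv0 ha0)]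

end Pool.Agent.Lib.MP_2184e2_an.Loc
end

section
/-!
# MP_2184e2_an, local theorem: the module STEPU
-/
set_option autoImplicit false

namespace Pool.Agent.Lib.MP_2184e2_an.Loc.StepuM

open MvPowerSeries Filter Topology SubM PtsM
open scoped ContDiff LaurentPolynomial

noncomputable section

/-- the subring `ℂ{x}[[s]]` -/
def scRing (hSCR : SpecSCR) (ι ν : Type) [Finite ι] [Finite ν] : Subring (PS (ι ⊕ ν)) where
  carrier := {f | SC f}
  mul_mem' := fun {f g} hf hg => ((hSCR ι ν).1 f g hf hg).2.1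
  one_mem' := (hSCR ι ν).2.2.2.1
  add_mem' := fun {f g} hf hg => ((hSCR ι ν).1 f g hf hg).1
  zero_mem' := (hSCR ι ν).2.2.1
  neg_mem' := fun {f} hf => ((hSCR ι ν).1 f f hf hf).2.2.1

theorem dom (ι : Type) : IsDomain (PS ι) := NoZeroDivisors.to_isDomain _

/-- finite sums and `cpart` -/
theorem cpart_sum (hCPT : SpecCPT) {ι ν μ : Type} [Fintype ι] [Fintype ν] [Fintype μ]
    [DecidableEq ι] [DecidableEq ν] [DecidableEq μ] {α : Type} (s : Finset α)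
    (f : α → PS (ι ⊕ (ν ⊕ μ))) (γ : μ →₀ ℕ) :
    cpart γ (∑ i ∈ s, f i) = ∑ i ∈ s, cpart γ (f i) := by
  classical
  induction s using Finset.induction_on with
  | empty =>
    rw [Finset.sum_empty, Finset.sum_empty]
    exact (hCPT ι ν μ).2.2.1 γ
  | insert a s ha ih =>
    rw [Finset.sum_insert ha, Finset.sum_insert ha, ← ih]
    exact (hCPT ι ν μ).2.1 _ _ γ

theorem z0_argH {m d N : ℕ} {Q : Fin d → PS (Mi m d)} (hQ : IsSeg0 Q)
    {H : Fin N → PS (Zi m d)} (hH : ∀ j, Z0 (H j)) : ∀ i, Z0 (argH Q H i) :=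
  z0_elim (fun j => z0_subst (hH j) (z0_Zc hQ)) fun j => z0_subst (z0_cj (hH j)) zζ

/-- substitutions into `ρ(H(Z), H̄(ζ))` are in `ℂ{x}[[s]]` -/
theorem sc_G (hSCR : SpecSCR) (hSCS : SpecSCS) (hPTS : SpecPTS) {m d N : ℕ}
    {Q : Fin d → PS (Mi m d)} (hQ : IsSeg0 Q) {H : Fin N → PS (Zi m d)} (hH : ∀ j, Z0 (H j))
    {T : Type} [Fintype T] [DecidableEq T] {v : Zi m d → PS T} {a : Fin m → PS T}
    (hv : ∀ i, Conv (v i) ∧ Z0 (v i)) (ha : ∀ j, Conv (a j) ∧ Z0 (a j)) (h1 : PP H v)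
    (h2 : PP H (vp Q v a)) (F : PS (Fin N ⊕ Fin N)) (hF : Conv F) :
    SC ((F.subst (argH Q H)).subst (pt Q (vp Q v a) (bb v))) := by
  have hv0 : ∀ i, Z0 (v i) := fun i => (hv i).2
  have ha0 : ∀ i, Z0 (a i) := fun i => (ha i).2
  have hb0 : ∀ i, Z0 (bb v i) := fun j => z0_cj (hv0 _)
  have hp := z0_pt hQ (z0_vp hQ hv0 ha0) hb0
  obtain ⟨_, _, p3, _, p5, p6, _⟩ := hPTS m d Q hQ T v a hv ha
  rw [ss (z0_argH hQ hH) hp]
  apply hSCS.2.1 _ _ _ F _ hF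
  intro i
  refine ⟨?_, z0_subst (z0_argH hQ hH i) hp⟩
  rcases i with j | j
  · have e : (argH Q H (Sum.inl j)).subst (pt Q (vp Q v a) (bb v)) =
        ((H j).subst (sh (vp Q v a))).subst incG := p3 (H j)
    rw [e]
    have h := hSCS.1 T (Zi m d) T (Zi m d ⊕ Fin m) ((H j).subst (sh (vp Q v a)))
      (fun t => X (Sum.inl t)) (fun i => X (Sum.inr (Sum.inl i))) (h2 j)
      (fun t => ⟨(hSCR _ _).2.2.2.2.1 _, z0_X _⟩)
      (fun i => ⟨(hSCR _ _).2.2.2.2.1 _, part0_inr _⟩)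
    exact h
  · have e : (argH Q H (Sum.inr j)).subst (pt Q (vp Q v a) (bb v)) =
        (cj ((H j).subst (sh v))).subst (Sum.elim iL (dl Q v a)) := p5 (H j)
    rw [e]
    exact p6 _ (h1 j)

end

end Pool.Agent.Lib.MP_2184e2_an.Loc.StepuM

namespace Pool.Agent.Lib.MP_2184e2_an.Loc

open MvPowerSeries SubM PtsM StepuM

theorem specSTEPU (hPTS : SpecPTS) (hCPT : SpecCPT) (hSCS : SpecSCS) (hSCR : SpecSCR)
    (hLDE : SpecLDE) (hEXTR : SpecEXTR) (hSHM : SpecSHM) (hCNV : SpecCNV) : SpecSTEPU := by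
  classical
  intro m d N Q ρ H hQ hρ hM F V hmin T _ _ v a hv ha h1 h2 j hj
  have : IsDomain (PS (T ⊕ Zi m d)) := dom _
  have hv0 : ∀ i, Z0 (v i) := fun i => (hv i).2
  have ha0 : ∀ i, Z0 (a i) := fun i => (ha i).2
  have hb0 : ∀ i, Z0 (bb v i) := fun j => z0_cj (hv0 _)
  have hvp0 := z0_vp hQ hv0 ha0
  have hp := z0_pt hQ hvp0 hb0
  have hnm : IsNm (fun c : ℂ => ‖c‖) := hCNV.2
  obtain ⟨_, _, p3, _, _, _, _⟩ := hPTS m d Q hQ T v a hv ha
  -- the coefficients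
  set g : Fin N → PS (T ⊕ (Zi m d ⊕ Fin m)) :=
    fun k => (G1 Q ρ H k).subst (pt Q (vp Q v a) (bb v)) with hg
  have hgS : ∀ k, SC (g k) := fun k =>
    sc_G hSCR hSCS hPTS hQ hM.zero hv ha h1 h2 _ ((hCNV.1 ℂ _ hnm _).2.2.2 _ _ hρ.conv)
  have hcS : ∀ γ k, SC (cpart γ (g k)) := fun γ k => (hCPT _ _ _).2.2.2.2.1 _ _ (hgS k)
  have cw : ∀ (γ : Fin m →₀ ℕ) (W : Fin N → PS (T ⊕ Zi m d)),
      cpart γ (∑ k, (W k).subst (incG : T ⊕ Zi m d → PS (T ⊕ (Zi m d ⊕ Fin m))) * g k) =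
        ∑ k, W k * cpart γ (g k) := by
    intro γ W
    rw [cpart_sum hCPT]
    exact Finset.sum_congr rfl fun k _ => (hCPT _ _ _).2.2.2.1 _ _ _
  -- the solution over the big ring
  set x : Fin N → PS (T ⊕ Zi m d) := fun k => (V j k).subst (sh (vp Q v a)) with hx
  have hxj : x j ≠ 0 := fun h => hmin.ne j hj ((hSHM _ T _ hvp0).1 _ h)
  have hxl : ∀ l ∈ F, l ≠ j → x l = 0 := by
    intro l hl hlj
    rw [hx]
    simp only
    rw [hmin.off j hj l hl hlj, sZero (z0_sh hvp0)]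
  have hxg : ∑ k, (x k).subst (incG : T ⊕ Zi m d → PS (T ⊕ (Zi m d ⊕ Fin m))) * g k = 0 := by
    have h := hmin.inV j hj
    unfold InV at h
    have h' := congrArg (fun f => f.subst (pt Q (vp Q v a) (bb v))) h
    rw [sSum hp, sZero hp] at h'
    rw [← h']
    refine Finset.sum_congr rfl fun k _ => ?_
    rw [sMul hp]
    congr 1
    exact (p3 (V j k)).symm
  have hxc : ∀ γ : Fin m →₀ ℕ, ∑ k, cpart γ (g k) * x k = 0 := by
    intro γ
    have h := cw γ x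
    rw [hxg, (hCPT _ _ _).2.2.1] at h
    rw [h]
    exact Finset.sum_congr rfl fun k _ => mul_comm _ _
  -- descent
  obtain ⟨U, hU0, hUS, hU⟩ := hLDE (PS (T ⊕ Zi m d)) (scRing hSCR T (Zi m d)) N
    ((Fin m →₀ ℕ) ⊕ {l : Fin N // l ∈ F ∧ l ≠ j})
    (Sum.elim (fun γ k => cpart γ (g k)) (fun l k => if k = l.1 then 1 else 0))
    (by
      rintro (γ | l) k
      · exact hcS γ k
      · simp only [Sum.elim_inr]
        split_ifs
        · exact Subring.one_mem _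
        · exact Subring.zero_mem _) x (fun h => hxj (congrFun h j))
    (by
      rintro (γ | l)
      · exact hxc γ
      · simp only [Sum.elim_inr, ite_mul, one_mul, zero_mul, Finset.sum_ite_eq', Finset.mem_univ,
          if_true]
        exact hxl l.1 l.2.1 l.2.2)
  have hUl : ∀ l ∈ F, l ≠ j → U l = 0 := by
    intro l hl hlj
    have h := hU (Sum.inr ⟨l, hl, hlj⟩)
    simpa using h
  have hUc : ∀ γ : Fin m →₀ ℕ, ∑ k, cpart γ (g k) * U k = 0 := fun γ => hU (Sum.inl γ)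
  -- proportionality
  have hW : ∀ k, U j * x k - x j * U k = 0 := by
    set W : Fin N → PS (T ⊕ Zi m d) := fun k => U j * x k - x j * U k with hWd
    have hWg : ∑ k, (W k).subst (incG : T ⊕ Zi m d → PS (T ⊕ (Zi m d ⊕ Fin m))) * g k = 0 := by
      apply (hCPT _ _ _).1
      intro γ
      rw [cw]
      have e : ∑ k, W k * cpart γ (g k) =
          U j * (∑ k, cpart γ (g k) * x k) - x j * ∑ k, cpart γ (g k) * U k := by
        rw [Finset.mul_sum, Finset.mul_sum, ← Finset.sum_sub_distrib]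
        refine Finset.sum_congr rfl fun k _ => ?_
        rw [hWd]
        simp only
        ring
      rw [e, hxc, hUc, mul_zero, mul_zero, sub_zero]
    have hWl : ∀ l ∈ F, W l = 0 := by
      intro l hl
      rw [hWd]
      simp only
      by_cases hlj : l = j
      · subst hlj
        ring
      · rw [hxl l hl hlj, hUl l hl hlj]
        ring
    have hα := hEXTR m d N Q hQ T (vp Q v a) (bb v) hvp0 hb0 (fun k => G1 Q ρ H k) W hWg
    have hshm : ∀ i, Z0 (shm (vp Q v a) i) :=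
      z0_elim (fun _ => z0_X _) fun i => z0_sub (z0_X _) (z0_subst (hvp0 i) fun _ => z0_X _)
    have hdet : ∀ α : T →₀ ℕ, (fun k => xpart α ((W k).subst (shm (vp Q v a)))) = 0 := by
      intro α
      apply hmin.det _ (hα α)
      intro l hl
      rw [hWl l hl, sZero hshm]
      rfl
    intro k
    apply (hSHM (Zi m d) T (vp Q v a) hvp0).2.1
    intro α
    exact congrFun (hdet α) k
  refine ⟨U, hUS, hU0, fun b c => ?_⟩
  have e1 : x j * (U b * x c) = x j * (U c * x b) := by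
    have hb := sub_eq_zero.mp (hW b)
    have hc := sub_eq_zero.mp (hW c)
    calc x j * (U b * x c) = (x j * U b) * x c := by ring
      _ = (U j * x b) * x c := by rw [hb]
      _ = (U j * x c) * x b := by ring
      _ = (x j * U c) * x b := by rw [hc]
      _ = x j * (U c * x b) := by ring
  exact mul_left_cancel₀ hxj e1

end Pool.Agent.Lib.MP_2184e2_an.Loc
end
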