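import Pool.Agent.Lib.MP_2184e2_an.Loc.SpecB

/-!
# MP_2184e2_an, local theorem: formal modules (convergence of formal maps)

Notation of the docstrings: `𝓜` is the complexification `{(Z, ζ) : w = Q(z, ζ)}`, `Z = (z, w)`,
`ζ = (χ, τ)`, with coordinates `(z, ζ)`; by reality it is also `{τ = Q̄(χ, Z)}`, with coordinates
`(Z, χ)`.
-/

set_option autoImplicit false

namespace Pool.Agent.Lib.MP_2184e2_an.Loc

open MvPowerSeries Filter Topology
open scoped ContDiff LaurentPolynomial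

noncomputable section

/-- the formal curve `(τ, v(τ))` -/
def crv {k : ℕ} (v : Fin k → PS Unit) : Unit ⊕ Fin k → PS Unit := Sum.elim (fun _ => X ()) v

/-- **GERM** (every formal curve germ is a convergent image of a formal curve without convergent
relations).

Proof (uses IFT, CNS, CNV, CHN).  For `u ∈ (τℂ[[τ]])^M` let `𝒜(u)` be the set of convergent `R(τ, f)`
with `R(τ, u(τ)) = 0` and let `r(u)` be the largest `r` such that there are `R_1, …, R_r ∈ 𝒜(u)` with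
a nonzero `r × r` minor of the matrix `((∂R_i/∂f_j)(τ, u(τ)))`.  For `n ≥ 0` write
`y = T_n(τ) + τ^n u_n(τ)`, `T_n` the truncation of `y` in degrees `≤ n`, so `u_n ∈ (τℂ[[τ]])^M`.
If `u_n = cτ + τ u_{n+1}` and `R ∈ 𝒜(u_n)` then `R'(τ, f) = R(τ, cτ + τf)` is in `𝒜(u_{n+1})` and its
gradient at `u_{n+1}` is `τ` times the gradient of `R` at `u_n`.  So `r(u_n) ≤ r(u_{n+1}) ≤ M`;
choose `n` with `r(u_n)` maximal.  If the theorem holds for `u_n` with `Φ` then it holds for `y`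
with `T_n + τ^n Φ`.  So replace `y` by `u_n`: now `r(u_n) = r` for all `n ≥ 0` (the blow ups of
`u_n` are the later `u_{n'}`).
Choose `R_1, …, R_r ∈ 𝒜(y)` and `J ⊆ {1, …, M}`, `|J| = r`, such that the minor with columns `J` at
`(τ, y(τ))` is nonzero, of minimal order `e` among all such choices; let `J = {1, …, r}` (reindex by
`Fin M ≃ Fin r ⊕ Fin k`, `k = M - r`).  Let `T` be the truncation of `y` in degrees `≤ e + 1` and
`y = T + τ^(e+1) u`, `u = u_{e+1}`.  Let `A(τ) = (∂R_i/∂f_j(τ, T(τ)))_{j ∈ J}` and `B(τ)` the matrix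
of the other columns.  As `T ≡ y mod τ^(e+2)`, the `r × r` minors of `(A|B)` are congruent mod
`τ^(e+2)` to those at `y`: `det A = τ^e ε` with a unit `ε`, and all minors are divisible by `τ^e`;
by Cramer's rule (`(adj(A) B)_{ij}` is the minor of `A` with column `i` replaced by column `j` of
`B`) `adj(A) B = τ^e B'`.  All these series are convergent (division by `τ^e` preserves
convergence).  Taylor's formula:
`R_i(τ, T + τ^(e+1) f) = R_i(τ, T) + τ^(e+1) ∑_j (∂R_i/∂f_j)(τ, T) f_j + τ^(2e+2) q_i(τ, f)` with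
convergent `q_i` (of order `≥ 2` in `f`).  Multiply by `adj(A)`:
`adj(A) R(τ, T + τ^(e+1) f) = c(τ) + τ^(2e+1)(ε f_J + B' f_{J'}) + τ^(2e+2) q'(τ, f)`.
At `f = u(τ)` this vanishes, and `u` has no constant term, so `c` is divisible by `τ^(2e+2)`,
`c = τ^(2e+2) c'`.  Hence `G(τ, f) = τ c' + ε f_J + B' f_{J'} + τ q'(τ, f)` is convergent, has no
constant term, `G(τ, u(τ)) = 0`, and its linear part in `f_J` is `ε(0)` times the identity.  IFT:
`u_J = Ψ(τ, u_{J'})` with a convergent `Ψ`.  Put `v = u_{J'}`, `Φ_{J'} = T_{J'} + τ^(e+1) v`,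
`Φ_J = T_J + τ^(e+1) Ψ(τ, v)`.
No relations: let `R(τ, v)` be convergent with `R(τ, v(τ)) = 0`.  Then all
`(∂R/∂v_j)(τ, v(τ)) = 0`: otherwise the relations `f_i - Ψ_i(τ, f_{J'})` (`i ∈ J`) and
`R(τ, f_{J'})` of `u` would have a nonzero `(r + 1) × (r + 1)` minor, contradiction to
`r(u) = r`.  The same applies to `∂R/∂v_j`, and inductively all iterated `v`-derivatives of `R`
vanish at `(τ, v(τ))`, so `R(τ, v(τ) + h) = 0` in `ℂ[[τ, h]]` (its `h`-coefficients are these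
derivatives divided by factorials) and `R = 0` (substitute `h = f - v(τ)`). -/
def SpecGERM : Prop :=
  ∀ (M : ℕ) (y : Fin M → PS Unit), (∀ i, Z0 (y i)) →
    ∃ (k : ℕ) (v : Fin k → PS Unit) (Φ : Fin M → PS (Unit ⊕ Fin k)), (∀ j, Z0 (v j)) ∧
      (∀ i, Conv (Φ i) ∧ Z0 (Φ i)) ∧ (∀ i, (Φ i).subst (crv v) = y i) ∧
      ∀ R : PS (Unit ⊕ Fin k), Conv R → R.subst (crv v) = 0 → R = 0

/-- insertion of `Y(x, s)` for `w` in `Θ(x, w, s)` -/
def insY {T ν : Type} {N : ℕ} (Y : Fin N → PS (T ⊕ ν)) : (T ⊕ Fin N) ⊕ ν → PS (T ⊕ ν) :=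
  Sum.elim (Sum.elim (fun t => X (Sum.inl t)) Y) (fun j => X (Sum.inr j))

/-- formal solutions of systems over `ℂ{x, w}[[s]]` with nonzero Jacobian determinant (at the
solution) are in `ℂ{x}[[s]]` -/
def LAT (T : Type) : Prop :=
  ∀ (ν : Type) [Fintype ν] [DecidableEq ν] (N : ℕ) (Θ : Fin N → PS ((T ⊕ Fin N) ⊕ ν))
    (Y : Fin N → PS (T ⊕ ν)), (∀ i, SC (Θ i)) → (∀ i, Z0 (Y i)) →
    (∀ i, (Θ i).subst (insY Y) = 0) →
    Matrix.det (Matrix.of fun i k =>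
      (pderiv ℂ (Sum.inl (Sum.inr k)) (Θ i)).subst (insY Y)) ≠ 0 →
    ∀ i, SC (Y i)

/-- **LA1** (one parameter `x = τ`).

Proof (uses GERM, SCR, SCS, CHN, CNS).  Let `D(τ, s)` be the determinant, `e₀` the smallest `|b|`
with `part b D ≠ 0`.  Fix `β` and put `J = |β| + e₀`.  Let `Y = ∑_b y_b(τ) s^b`.  Apply GERM to the
finite family of all `y_{i,b} - y_{i,b}(0)`, `i < N`, `|b| ≤ J`: `y_{i,b}(τ) = Φ_{i,b}(τ, v(τ))` with
convergent `Φ_{i,b}(τ, f)` (the constants put back), `Φ_{i,0}` without constant term.  Put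
`Y^J(τ, f, s) = ∑_{|b| ≤ J} Φ_b(τ, f) s^b`.  The coefficients of `s^b`, `|b| ≤ J`, of
`Θ(τ, Y^J(τ, f, s), s)` are convergent in `(τ, f)` (SCS), and at `f = v(τ)` they are those of
`Θ(τ, Y, s)` (as `Y^J(τ, v(τ), s) ≡ Y` modulo order `> J` in `s`), so they vanish; by the
last property of GERM they vanish identically: `Θ(τ, Y^J(τ, f, s), s) = O(s^(J+1))`.  Differentiate
with respect to `f_q` (CHN): `∑_k Θ_{i,w_k}(τ, Y^J, s) ∂_{f_q} Y^J_k = O(s^(J+1))`, and multiply by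
the adjugate matrix: `Δ · ∂_{f_q} Y^J_k = O(s^(J+1))`, `Δ = det Θ_w(τ, Y^J(τ, f, s), s)`.  At
`f = v(τ)`, `Δ ≡ D` modulo order `> J` in `s`, so the order of `Δ` in `s` is some `e ≤ e₀`
(`e₀ ≤ J`).  In the domain `ℂ[[τ, f]][[s]]` orders in `s` add up, so
`∂_{f_q} Y^J_k = O(s^(J + 1 - e₀))`, in particular `∂_{f_q} Φ_{k,β} = 0` for all `q`.  So `Φ_{k,β}`
depends only on `τ` and `y_{k,β}(τ) = Φ_{k,β}(τ, 0)` is convergent. -/
def SpecLA1 : Prop := LAT Unit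

/-- the line through `l` -/
def lineS {T : Type} (l : T → ℂ) : T → PS Unit := fun t => C (l t) * X ()

/-- **SL2** (convergence on an open set of lines).

Proof.  `f(l τ) = ∑_k f_k(l) τ^k`, where `f_k` is the homogeneous part of degree `k` (as a polynomial
function).  `U` is the union over `C ∈ ℕ` of the sets
`U_C = {l ∈ U : ∀ k, |f_k(l)| ≤ C^(k+1)}`, relatively closed in `U`; by the Baire category theorem
(`U` is open and nonempty in the complete space `T → ℂ`) some `U_C` contains a closed polydisc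
`{l₀ + h : |h_t| ≤ ρ}`, `ρ > 0`.  Write `f_k(l₀ + h) = ∑_{|β| ≤ k} b_β h^β`.  Averaging
`f_k(l₀ + ρω) ω^(-β)` over `ω ∈ (μ_L)^T` (`L`-th roots of unity, `L > k`) gives
`|b_β| ≤ C^(k+1) ρ^(-|β|)` (or use the Cauchy integral).  The coefficients of
`f_k(h) = ∑ b_β (h - l₀)^β` are `a_α = ∑_{β ≥ α} b_β binom(β, α) (-l₀)^(β-α)`, so, with
`|l₀,t| ≤ Λ`, `Λ ≥ 1`, `ρ ≤ 1`: `|a_α| ≤ (k+1)^|T| C^(k+1) ρ^(-k) 2^k Λ^k`, at most `C'^(k+1)`. -/
def SpecSL2 : Prop :=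
  ∀ (T : Type) [Fintype T] [DecidableEq T] (f : PS T) (U : Set (T → ℂ)), IsOpen U → U.Nonempty →
    (∀ l ∈ U, Conv (f.subst (lineS l))) → Conv f

/-- **LA** (several parameters).

Proof (uses LA1, SL2, CNS, SCS).  For `l ∈ ℂ^T` substitute `x = l τ`: `Θ^l(τ, w, s) = Θ(lτ, w, s)`,
`Y^l(τ, s) = Y(lτ, s)`.  Each part of `Θ^l` is a substitution into a part of `Θ`, so `SC (Θ^l)`;
`Θ^l(τ, Y^l, s) = 0`, and the determinant for `(Θ^l, Y^l)` is `D(lτ, s)`.  As `D ≠ 0` there is `b`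
with `part b D ≠ 0`; let `P ≠ 0` be its lowest homogeneous part.  For `l` in the nonempty open set
`U = {P(l) ≠ 0}` (a nonzero polynomial does not vanish identically) `D(lτ, s) ≠ 0`, so by LA1
`SC (Y^l_i)`, i.e. `(part β Y_i)(lτ)` is convergent for all `β`.  By SL2 `part β Y_i` is convergent.
-/
def SpecLA : Prop := ∀ (T : Type) [Fintype T] [DecidableEq T], LAT T

/-- the inclusion of `PS (ι ⊕ ν)` into `PS (ι ⊕ (ν ⊕ μ))` -/
def incG {ι ν μ : Type} : ι ⊕ ν → PS (ι ⊕ (ν ⊕ μ)) :=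
  Sum.elim (fun t => X (Sum.inl t)) (fun i => X (Sum.inr (Sum.inl i)))

/-- `σ ↦ Z - v(x)` -/
def shm {ι T : Type} (v : ι → PS T) : T ⊕ ι → PS (T ⊕ ι) :=
  Sum.elim (fun t => X (Sum.inl t)) (fun i => X (Sum.inr i) - (v i).subst iL)

/-- the coefficient of `μ`-exponent `γ` -/
def cpart {ι ν μ : Type} (γ : μ →₀ ℕ) (f : PS (ι ⊕ (ν ⊕ μ))) : PS (ι ⊕ ν) :=
  fun a => coeff (a.mapDomain (Sum.map id Sum.inl) +
    γ.mapDomain (fun j => (Sum.inr (Sum.inr j) : ι ⊕ (ν ⊕ μ)))) f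

/-- **EXTR** (linear relations with coefficients depending on parameters can be made parameter
free).

Proof.  Reality, conjugated and with renamed variables, is `Q̄(χ, z, Q(z, χ, τ)) = τ` in
`PS (Mi m d)` (conjugate `IsSeg0.real` and substitute `z ↦ χ`, `χ ↦ z`, `w ↦ τ`).  Substitute in the
hypothesis `x ↦ x`, `σ ↦ Zc Q - v(x)`, `χ' ↦ χ - b(x)`, a substitution
`PS (T ⊕ (Zi m d ⊕ Fin m)) → PS (T ⊕ Mi m d)` (series without constant term).  Under it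
`v(x) + σ ↦ Zc Q = (z, Q(z, ζ))`, `b(x) + χ' ↦ χ` and `Q̄(b + χ', v + σ) ↦ Q̄(χ, z, Q(z, ζ)) = τ`, so
`pt Q v b ↦ (z, ζ)`, `(G k).subst (pt Q v b) ↦ G k` (not depending on `x`), and
`(W k).subst incG ↦ W_k(x, Zc Q - v(x)) = ((W k).subst (shm v))(x, Zc Q)`.  Take the coefficient of
`x^α` (`xpart α` commutes with multiplication by a series not depending on `x` and with the
substitution `Z ↦ Zc Q`). -/
def SpecEXTR : Prop :=
  ∀ (m d n : ℕ) (Q : Fin d → PS (Mi m d)), IsSeg0 Q → ∀ (T : Type) [Fintype T] [DecidableEq T]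
    (v : Zi m d → PS T) (b : Fin m → PS T), (∀ i, Z0 (v i)) → (∀ j, Z0 (b j)) →
    ∀ (G : Fin n → PS (Mi m d)) (W : Fin n → PS (T ⊕ Zi m d)),
    ∑ k, (W k).subst (incG : T ⊕ Zi m d → PS (T ⊕ (Zi m d ⊕ Fin m))) *
      (G k).subst (pt Q v b) = 0 →
    ∀ α : T →₀ ℕ, ∑ k, (xpart α ((W k).subst (shm v))).subst (Zc Q) * G k = 0

/-- **SHM** (shifting and unshifting; trivial facts on formal power series).

Proof.  `(sh v)` followed by `(shm v)` is the inclusion `iR`, so `f.subst (sh v)` is nonzero for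
nonzero `f`; `shm v` is invertible (inverse: `x ↦ x`, `σ ↦ σ + v(x)`); a power series with all
`xpart`s zero is zero. -/
def SpecSHM : Prop :=
  ∀ (ι T : Type) [Fintype ι] [Fintype T] (v : ι → PS T), (∀ i, Z0 (v i)) →
    (∀ f : PS ι, f.subst (sh v) = 0 → f = 0) ∧
    (∀ f : PS (T ⊕ ι), (∀ α, xpart α (f.subst (shm v)) = 0) → f = 0) ∧
    (∀ f : PS ι, (f.subst (sh v)).subst (shm v) = f.subst (iR : ι → PS (T ⊕ ι))) ∧
    (∀ f : PS ι, part 0 (f.subst (sh v)) = f.subst v)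

/-- **POS** (positivity).

Proof (uses CHN for nothing, only substitution calculus).  Suppose `W ≠ 0`, and let `e` be the
smallest degree occurring in some `W_k`, `P_k` the homogeneous part of `W_k` of degree `e`, not all
zero.  A nonzero polynomial does not vanish identically on real vectors: choose `a : Zi m d → ℝ`
with some `P_k(a) ≠ 0`, and the real curve `Z(t)` of `IsSeg0.curve` with tangent vector `a`.
Substitute `z = Z(t)_z`, `ζ = Z̄(t)` (`cj`, `t` real) in the hypothesis: `Zc Q ↦ Z(t)`,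
`ζc ↦ Z̄(t)`, so `∑ W_k(Z(t)) (W_l(Z(t)))^- ρ_{kl}(…) = 0` in `ℂ[[t]]`, where `^-` is `cj` and
`ρ_{kl}(…)` has the constant term `co2 ρ (inl k) (inr l)` (`H` has no constant term).  The
coefficient of `t^(2e)` is `∑ P_k(a) conj(P_l(a)) co2 ρ (inl k) (inr l)`, which has positive real
part by `IsTgt.pos`: contradiction. -/
def SpecPOS : Prop :=
  ∀ (m d N : ℕ) (Q : Fin d → PS (Mi m d)) (ρ : PS (Fin N ⊕ Fin N)) (H : Fin N → PS (Zi m d)),
    IsSeg0 Q → IsTgt ρ → (∀ j, Z0 (H j)) → ∀ W : Fin N → PS (Zi m d),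
    ∑ k, ∑ l, (W k).subst (Zc Q) * (cj (W l)).subst ζc * G2 Q ρ H k l = 0 → W = 0

/-- **FMIN** (existence of a minimal set of coordinates).

Proof.  `{W | InV W}` is closed under addition and multiplication by `PS (Zi m d)`.  Let `F` be a
finset of least cardinality such that every `W` with `InV W` and `W_l = 0` for `l ∈ F` is zero
(`F = univ` has this property).  For `j ∈ F` the set `F.erase j` does not have it: there is
`V_j ≠ 0` with `InV V_j`, vanishing on `F.erase j`; if `V_j j = 0` then `V_j` vanishes on `F`, so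
`V_j = 0`, contradiction. -/
def SpecFMIN : Prop :=
  ∀ (m d N : ℕ) (Q : Fin d → PS (Mi m d)) (ρ : PS (Fin N ⊕ Fin N)) (H : Fin N → PS (Zi m d)),
    IsSeg0 Q → ∃ F V, IsMin Q ρ H F V

/-- **IBR** (the conjugated relations).

Proof.  Conjugate `∑ V_k(Z) ρ_{w_k}(H(Z), H̄(ζ)) = 0` (an identity in the coordinates `(z, ζ)`, with
`Z = (z, Q(z, ζ))`) and rename `z ↦ χ`, `χ ↦ z`, `τ ↦ w`:
`∑ V̄_k(χ, Q̄(χ, Z)) ρ̄_{w_k}(H̄(χ, Q̄(χ, Z)), H(Z)) = 0` in `ℂ[[Z, χ]]`.  Substitute `w = Q(z, ζ)`;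
then `Q̄(χ, z, Q(z, ζ)) = τ` (see EXTR), so `∑ V̄_k(ζ) ρ̄_{w_k}(H̄(ζ), H(Z)) = 0`; and by
`IsTgt.real`, differentiated, `ρ̄_{w_k}(ω, w) = ρ_{ω_k}(w, ω)`. -/
def SpecIBR : Prop :=
  ∀ (m d N : ℕ) (Q : Fin d → PS (Mi m d)) (ρ : PS (Fin N ⊕ Fin N)) (H : Fin N → PS (Zi m d)),
    IsSeg0 Q → IsTgt ρ → (∀ j, Z0 (H j)) → ∀ V : Fin N → PS (Zi m d), InV Q ρ H V →
    ∑ k, (cj (V k)).subst ζc * (pderiv ℂ (Sum.inr k) ρ).subst (argH Q H) = 0

/-- **ANN** (the key positivity argument).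

Proof (uses POS).  Let `q = ∏_{j ∈ F} V_j j ≠ 0` and `p_j = W_j ∏_{i ∈ F, i ≠ j} V_i i`.  Then
`q W - ∑_{j ∈ F} p_j V_j` satisfies `InV` and vanishes in the coordinates `l ∈ F`
(`q W_l - p_l V_l l = 0`), so it is zero.  Conjugate and evaluate at `ζ`:
`q̄(ζ) W̄_i(ζ) = ∑_j p̄_j(ζ) V̄_{j,i}(ζ)`.  Hence
`q̄(ζ) ∑_{k,i} W_k(Z) W̄_i(ζ) ρ_{w_k ω_i} = ∑_j p̄_j(ζ) ∑_{k,i} W_k(Z) V̄_{j,i}(ζ) ρ_{w_k ω_i} = 0`, and
`q̄(ζ) ≠ 0` in the domain `PS (Mi m d)`; so POS gives `W = 0`. -/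
def SpecANN : Prop :=
  ∀ (m d N : ℕ) (Q : Fin d → PS (Mi m d)) (ρ : PS (Fin N ⊕ Fin N)) (H : Fin N → PS (Zi m d)),
    IsSeg0 Q → IsTgt ρ → (∀ j, Z0 (H j)) → ∀ F V, IsMin Q ρ H F V → ∀ W : Fin N → PS (Zi m d),
    InV Q ρ H W →
    (∀ j ∈ F, ∑ k, (W k).subst (Zc Q) * ∑ i, (cj (V j i)).subst ζc * G2 Q ρ H k i = 0) → W = 0

/-- **CPT** (calculus of `cpart`; routine).

Proof.  All statements by comparing coefficients; (4) as in CHN: a coefficient of either side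
involves only finitely many monomials of `Θ`, and for monomials the statement follows from (2). -/
def SpecCPT : Prop :=
  ∀ (ι ν μ : Type) [Fintype ι] [Fintype ν] [Fintype μ] [DecidableEq ι] [DecidableEq ν]
    [DecidableEq μ],
    (∀ f : PS (ι ⊕ (ν ⊕ μ)), (∀ γ, cpart γ f = 0) → f = 0) ∧
    (∀ (f g : PS (ι ⊕ (ν ⊕ μ))) (γ : μ →₀ ℕ), cpart γ (f + g) = cpart γ f + cpart γ g) ∧
    (∀ γ : μ →₀ ℕ, cpart γ (0 : PS (ι ⊕ (ν ⊕ μ))) = 0) ∧
    (∀ (W : PS (ι ⊕ ν)) (f : PS (ι ⊕ (ν ⊕ μ))) (γ : μ →₀ ℕ),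
      cpart γ (W.subst incG * f) = W * cpart γ f) ∧
    (∀ (f : PS (ι ⊕ (ν ⊕ μ))) (γ : μ →₀ ℕ), SC f → SC (cpart γ f)) ∧
    (∀ (f : PS (ι ⊕ (ν ⊕ μ))) (γ : μ →₀ ℕ) (i : ι),
      cpart γ (pderiv ℂ (Sum.inl i) f) = pderiv ℂ (Sum.inl i) (cpart γ f)) ∧
    (∀ (N : ℕ) (Θ : PS ((ι ⊕ Fin N) ⊕ (ν ⊕ μ))) (Y : Fin N → PS (ι ⊕ ν)) (γ : μ →₀ ℕ),
      (∀ i, Z0 (Y i)) → cpart γ (Θ.subst (insY fun i => (Y i).subst incG)) =
        (cpart γ Θ).subst (insY Y))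

/-- the deviation of `ζ(pt Q v⁺ b)` from `v̄(x)`, where `v⁺ = (a, Q(a, v̄))` and `b = v̄_χ` -/
def dl {m d : ℕ} {T : Type} (Q : Fin d → PS (Mi m d)) (v : Zi m d → PS T)
    (a : Fin m → PS T) : Zi m d → PS (T ⊕ (Zi m d ⊕ Fin m)) :=
  fun i => pt Q (pr Q a fun i => cj (v i)) (fun j => cj (v (Sum.inl j))) (Sum.inr i) -
    (cj (v i)).subst iL

/-- **PTS** (the points `(v⁺ + σ, ζ)` of the complexification near `(v⁺, v̄)`).

Proof (uses SCR, SCS, CNS, INV).  `v⁺ = pr Q a v̄` is convergent by CNS.  (2): substitute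
`pt Q v⁺ b` in `Zc Q = (z, Q(z, ζ))`: the `w`-component is
`Q(Z_z, χ, Q̄(χ, Z)) = Z_w` (`IsSeg0.real`), `Z = v⁺ + σ`, `χ = b + χ'`.  (3): for `i = inl j` the
deviation is `χ'_j`; for `i = inr l` it is `Q̄_l(b + χ', v⁺ + σ) - v̄_l`, convergent in all variables,
and at `σ = χ' = 0` equal to `Q̄_l(b, a, Q(a, v̄)) - v̄_l = 0` (conjugated reality, see EXTR).  (4):
`H̄_j(ζ) = (H̄_j(v̄ + σ))(x, σ = dl)` is `SC` by SCS and (3), as `SC (cj f) ↔ SC f` and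
`cj (f.subst (sh v)) = (cj f).subst (sh v̄)`.  (5): the substitution `(x, σ) ↦ (x, dl)` is injective
on power series because it has a left inverse: `χ' ↦ σ_χ`, `σ_z ↦ 0`, and `σ_w ↦` the solution `s`
of `Q̄_l(b + σ_χ, a, v⁺_w + s) - v̄_l = σ_{w,l}` (formal implicit function theorem: `INV` applied to
`(x, σ_χ, s) ↦ (x, σ_χ, Q̄(b + σ_χ, a, v⁺_w + s) - v̄)`, whose linear part is invertible, since
`lin3` gives the identity in the variables `s`). -/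
def SpecPTS : Prop :=
  ∀ (m d : ℕ) (Q : Fin d → PS (Mi m d)), IsSeg0 Q → ∀ (T : Type) [Fintype T] [DecidableEq T]
    (v : Zi m d → PS T) (a : Fin m → PS T), (∀ i, Conv (v i) ∧ Z0 (v i)) →
    (∀ j, Conv (a j) ∧ Z0 (a j)) →
    (∀ i, Conv (pr Q a (fun i => cj (v i)) i) ∧ Z0 (pr Q a (fun i => cj (v i)) i)) ∧
    (∀ i, Z0 (pt Q (pr Q a fun i => cj (v i)) (fun j => cj (v (Sum.inl j))) i)) ∧
    (∀ f : PS (Zi m d),
      (f.subst (Zc Q)).subst (pt Q (pr Q a fun i => cj (v i)) (fun j => cj (v (Sum.inl j)))) =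
        (f.subst (sh (pr Q a fun i => cj (v i)))).subst incG) ∧
    (∀ i, SC (dl Q v a i) ∧ part 0 (dl Q v a i) = 0) ∧
    (∀ f : PS (Zi m d),
      ((cj f).subst ζc).subst (pt Q (pr Q a fun i => cj (v i)) (fun j => cj (v (Sum.inl j)))) =
        (cj (f.subst (sh v))).subst (Sum.elim iL (dl Q v a))) ∧
    (∀ f : PS (T ⊕ Zi m d), SC f → SC ((cj f).subst (Sum.elim iL (dl Q v a)))) ∧
    (∀ f : PS (T ⊕ Zi m d), f.subst (Sum.elim iL (dl Q v a)) = 0 → f = 0)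

/-- **STEPU** (the vectors `V_j` at the next Segre point).

Proof (uses PTS, CPT, SCS, SCR, LDE, EXTR, SHM).  Write `v⁺ = pr Q a v̄`, `p = pt Q v⁺ v̄_χ`.  By PTS
`G1_k.subst p = ρ_{w_k}(H(v⁺ + σ), H̄(ζ))` is `SC` (SCS for the convergent `ρ_{w_k}` and the `SC`
series `H(v⁺ + σ)`, `H̄(ζ)` without constant terms).  Let `S` be the subring `{SC f}` of
`D = PS (T ⊕ Zi m d)`.  Consider the linear system for `x ∈ D^N` with rows
`(cpart γ (G1_k.subst p))_k`, `γ : Fin m →₀ ℕ`, and the unit vectors `e_l`, `l ∈ F`, `l ≠ j`; all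
entries are in `S`.  The vector `x_k = V_{j,k}(v⁺ + σ) = (V j k).subst (sh v⁺)` is a solution:
`∑_k x_k cpart γ (G1_k.subst p) = cpart γ ((∑_k V_{j,k}(Z) G1_k).subst p) = 0`; it is nonzero by SHM.
By LDE there is a nonzero solution `U ∈ S^N`.  The vector `W = U_j x - x_j U` is a solution with
`W_l = 0` for all `l ∈ F`.  So `∑_k (W_k).subst incG * G1_k.subst p = 0` (all its `cpart`s vanish),
and by EXTR every vector `W^(α) = (xpart α ((W k).subst (shm v⁺)))_k` satisfies `InV` and vanishes in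
the coordinates `l ∈ F`; so `W^(α) = 0` for all `α` (`IsMin.det`), and `W = 0` (SHM).  So
`U_j x_a = x_j U_a` for all `a`, where `x_j ≠ 0`; in the domain `D`:
`x_j (U_a x_b) = U_j x_a x_b = x_j (U_b x_a)`, hence `U_a x_b = U_b x_a`. -/
def SpecSTEPU : Prop :=
  ∀ (m d N : ℕ) (Q : Fin d → PS (Mi m d)) (ρ : PS (Fin N ⊕ Fin N)) (H : Fin N → PS (Zi m d)),
    IsSeg0 Q → IsTgt ρ → IsMap Q ρ H → ∀ F V, IsMin Q ρ H F V →
    ∀ (T : Type) [Fintype T] [DecidableEq T] (v : Zi m d → PS T) (a : Fin m → PS T),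
    (∀ i, Conv (v i) ∧ Z0 (v i)) → (∀ j, Conv (a j) ∧ Z0 (a j)) →
    PP H v → PP H (pr Q a fun i => cj (v i)) →
    ∀ j ∈ F, UU (V j) (pr Q a fun i => cj (v i))

/-- **STEPP** (the map at the next Segre point).

Proof (uses PTS, CPT, SCS, SCR, CHN, LSE, LA, EXTR, SHM, IBR, ANN).  Notation as in STEPU.  Let
`U^(j)` (`j ∈ F`) be the vectors of `UU (V j) v`: `U_a V_b(v + σ) = U_b V_a(v + σ)`.  Conjugate and
substitute `σ = dl`: with `Û^(j)_a = (cj U^(j)_a).subst (Sum.elim iL dl)`, which is `SC` (PTS), and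
`V̄_{j,a}(ζ)` := `((cj (V j a)).subst ζc).subst p` we have `Û_a V̄_b(ζ) = Û_b V̄_a(ζ)`.  There is `a`
with `U_a ≠ 0`; then `V_a(v + σ) ≠ 0` (else all `V_b(v + σ) = 0`, but `V_j j ≠ 0`), hence
`Û_a ≠ 0` and `V̄_a(ζ) ≠ 0` (last part of PTS).  So for all `X_i`:
(*) `∑ Û_i X_i = 0 ↔ ∑ V̄_i(ζ) X_i = 0` (`V̄_a(ζ) ∑ Û_i X_i = Û_a ∑ V̄_i(ζ) X_i`).
Consider the following series in `(x, w, σ, χ')`, i.e. in `PS ((T ⊕ Fin N) ⊕ (Zi m d ⊕ Fin m))`:
`R⁰ = ρ(w, H̄(ζ))`, and `R^j = ∑_i Û^(j)_i ρ_{ω_i}(w, H̄(ζ))`, `j ∈ F`; they are `SC` by SCS and PTS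
(`H̄_j(ζ)` is `SC`).  The unknown is `Y_k = H_k(v⁺ + σ) = (H k).subst (sh v⁺) ∈ PS (T ⊕ Zi m d)`,
without constant term.  Inserting `w = Y`: `R⁰ = (ρ.subst (argH Q H)).subst p = 0`, and
`R^j = ∑_i Û_i ρ_{ω_i}(H(Z), H̄(ζ)) = 0` by IBR for `V_j` and (*).  Let `Θ` be the family of all
`cpart γ R⁰`, `cpart γ R^j` in `PS ((T ⊕ Fin N) ⊕ Zi m d)`; all are `SC`, and `Θ(x, Y, σ) = 0`
(CPT).  Claim: if `W ∈ PS (T ⊕ Zi m d)^N` satisfies `∑_k (∂Θ/∂w_k)(x, Y, σ) W_k = 0` for all members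
of the family then `W = 0`.  Given the claim, LSE gives `N` members with nonzero Jacobian
determinant at `Y`, and LA gives `SC (Y k)`, which is `PP H v⁺`.
Proof of the claim.  From `R⁰`: `∑_k (W_k).subst incG * (G1 k).subst p = 0`, so by EXTR all
`W^(α) = (xpart α ((W k).subst (shm v⁺)))_k` satisfy `InV`.  From `R^j`:
`∑_k W_k ∑_i Û_i (G2 k i).subst p = 0`, so by (*) `∑_k W_k ∑_i V̄_{j,i}(ζ) (G2 k i).subst p = 0`, and
by EXTR (with `G_k = ∑_i (cj (V j i)).subst ζc * G2 k i`) the vectors `W^(α)` satisfy the hypothesis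
of ANN.  So all `W^(α) = 0` and `W = 0` by SHM. -/
def SpecSTEPP : Prop :=
  ∀ (m d N : ℕ) (Q : Fin d → PS (Mi m d)) (ρ : PS (Fin N ⊕ Fin N)) (H : Fin N → PS (Zi m d)),
    IsSeg0 Q → IsTgt ρ → IsMap Q ρ H → ∀ F V, IsMin Q ρ H F V →
    ∀ (T : Type) [Fintype T] [DecidableEq T] (v : Zi m d → PS T) (a : Fin m → PS T),
    (∀ i, Conv (v i) ∧ Z0 (v i)) → (∀ j, Conv (a j) ∧ Z0 (a j)) →
    PP H v → (∀ j ∈ F, UU (V j) v) → PP H (pr Q a fun i => cj (v i))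

/-- **END** (the Segre map of order `2d + 1` detects convergence).

Proof (uses INV, CNS, CNV).  Let `e, β` be as in `LeviQ`, `B_l(a, b) = ∑ co2 (Q l) (inl j)
(inr (inl k)) a_j b_k`.  Variables `T = (Unit ⊕ Fin m) ⊕ Fin d`, called `(r, P, q)`.  Let `K = 2d + 1`
and choose `a_0, …, a_{2d}` (`a_k` is the `z`-component of `seg Q a (k + 1)`) as follows:
`a_{2i-1} = cj (r β_i)` for `i = 1, …, d` (so its conjugate is `r β_i`), `a_{2i} = z_i` for
`i = 0, …, d`, where `z_i - z_{i-1} = r q_i e_i` and `z_d = r² P`, i.e.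
`z_i = r² P - r ∑_{i' > i} q_{i'} e_{i'}`; and `a_k = 0` for `k > 2d`.  Let `(z^k, w^k) = seg Q a k`.
Modulo `r³` (all `z^k` are divisible by `r`, and inductively `w^k` is divisible by `r²`):
`w^(k+1) ≡ cj(w^k) + A(z^(k+1), z^(k+1)) + B(z^(k+1), cj z^k) + C(cj z^k, cj z^k)`, where `A, B, C`
are the quadratic parts of `Q(z, χ, 0)` (a term with a factor `τ` and another factor is `O(r³)`).
Reality in degree 2 (`τ ↦` terms): `Q(z, χ, Q̄(χ, z, w)) = w` with `w = 0` gives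
`A(z, z) + B(z, χ) + C(χ, χ) + Ā(χ, χ) + B̄(χ, z) + C̄(z, z) = 0` in degree 2, so `C = -Ā` and
`B̄(χ, z) = -B(z, χ)`.  Hence (induction on `k`, for the sequence `w^k - A(z^k, z^k)`)
`w^k - A(z^k, z^k) ≡ cj(w^(k-1) - A(z^(k-1), z^(k-1))) + B(z^k, cj z^(k-1))`, and
`cj B(z^(k-1), cj z^(k-2)) = -B(z^(k-2), cj z^(k-1))`, so (using it twice)
`w^k - A(z^k, z^k) ≡ (w^(k-2) - A(z^(k-2), z^(k-2))) + B(z^k - z^(k-2), cj z^(k-1))` modulo `r³`,
and `w^1 - A(z^1, z^1) ≡ 0`.  For `k = K`: `z^K = r² P`, `w^K ≡ ∑_{i=1}^d B(z_i - z_{i-1}, r β_i)`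
`= r² ∑_i q_i B(e_i, β_i)` modulo `r³`.  So `w^K = r² ω(r, P, q)` with convergent `ω` without
constant term and `ω(0, P, q) = ∑ q_i B(e_i, β_i)`.  By LeviQ the map `(r, P, q) ↦ (r, P, ω)` has
invertible linear part, hence (INV) a convergent inverse `(r, P, W) ↦ (r, P, q(r, P, W))`.
Now let `h.subst (seg Q a K) = h(r² P, r² ω(r, P, q))` be convergent.  Substituting the inverse,
`g(r, P, W) = h(r² P, r² W)` is convergent (CNS).  The coefficient of `r^(2|α|) (P, W)^α` in `g` is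
the coefficient `α` of `h`, so `|coeff α h| ≤ C^(3|α| + 1) ≤ (C')^(|α| + 1)`. -/
def SpecEND : Prop :=
  ∀ (m d : ℕ) (Q : Fin d → PS (Mi m d)), IsSeg0 Q → LeviQ Q →
    ∃ (K : ℕ) (a : ℕ → Fin m → PS ((Unit ⊕ Fin m) ⊕ Fin d)),
      (∀ k j, Conv (a k j) ∧ Z0 (a k j)) ∧
      ∀ h : PS (Zi m d), Conv (h.subst (seg Q a K)) → Conv h

/-- **FORMAL** (formal maps into strictly pseudoconvex targets converge).

Proof (uses FMIN, STEPU, STEPP, END, SHM, SCR, PTS).  Take `F, V` from FMIN and `K, a` from END, and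
let `v^k = seg Q a k`, so `v^(k+1) = pr Q (a k) (cj v^k)`; all are convergent without constant
terms (PTS).  Let `A_k` be `PP H v^k` and `B_k` be `∀ j ∈ F, UU (V j) v^k`.  `A_0` and `B_0` hold:
`v^0 = 0`, `sh 0 = iR`, so `(H j).subst (sh 0)` and `(V j b).subst (sh 0)` are `SC` by SCR (take
`U = (V j).subst (sh 0)`, nonzero by SHM).  `A_k, B_k ⇒ A_{k+1}` by STEPP, and
`A_k, A_{k+1} ⇒ B_{k+1}` by STEPU.  So `A_K` holds; its part of order `0` says that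
`(H j).subst v^K` is convergent (SHM), and END gives `Conv (H j)`. -/
def SpecFORMAL : Prop :=
  ∀ (m d N : ℕ) (Q : Fin d → PS (Mi m d)) (ρ : PS (Fin N ⊕ Fin N)) (H : Fin N → PS (Zi m d)),
    IsSeg0 Q → LeviQ Q → IsTgt ρ → IsMap Q ρ H → ∀ j, Conv (H j)

end

end Pool.Agent.Lib.MP_2184e2_an.Loc
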