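import Pool.Agent.Lib.MP_2184e2_an.Loc.Seg
import Pool.Agent.Lib.MP_2184e2_an.Loc.SpecF

section
/-!
# MP_2184e2_an, local theorem: module FMIN
-/
set_option autoImplicit false

namespace Pool.Agent.Lib.MP_2184e2_an.Loc

open MvPowerSeries

/-- FMIN: existence of a minimal set of coordinates. -/
theorem specFMIN : SpecFMIN := by
  classical
  intro m d N Q ρ H _
  let P : Finset (Fin N) → Prop := fun F =>
    ∀ W : Fin N → PS (Zi m d), InV Q ρ H W → (∀ l ∈ F, W l = 0) → W = 0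
  have hne : (Finset.univ.filter P).Nonempty := by
    refine ⟨Finset.univ, ?_⟩
    rw [Finset.mem_filter]
    refine ⟨Finset.mem_univ _, fun W _ hW => ?_⟩
    funext l
    exact hW l (Finset.mem_univ l)
  obtain ⟨F, hF, hmin⟩ := Finset.exists_min_image _ Finset.card hne
  rw [Finset.mem_filter] at hF
  have hPF : P F := hF.2
  have hex : ∀ j : Fin N, ∃ W : Fin N → PS (Zi m d), j ∈ F →
      InV Q ρ H W ∧ (∀ l ∈ F.erase j, W l = 0) ∧ W ≠ 0 := by
    intro j
    by_cases hj : j ∈ F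
    · have h1 : ¬ P (F.erase j) := by
        intro h2
        have h3 := hmin (F.erase j) (by
          rw [Finset.mem_filter]
          exact ⟨Finset.mem_univ _, h2⟩)
        have h4 := Finset.card_erase_lt_of_mem hj
        omega
      simp only [P] at h1
      push Not at h1
      obtain ⟨W, h2, h3, h4⟩ := h1
      exact ⟨W, fun _ => ⟨h2, h3, h4⟩⟩
    · exact ⟨0, fun h => absurd h hj⟩
  choose V hV using hex
  refine ⟨F, V, ⟨fun j hj => (hV j hj).1, ?_, ?_, hPF⟩⟩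
  · intro j hj h0
    apply (hV j hj).2.2
    apply hPF _ (hV j hj).1
    intro l hl
    by_cases hlj : l = j
    · rw [hlj, h0]
    · exact (hV j hj).2.1 l (Finset.mem_erase.2 ⟨hlj, hl⟩)
  · intro j hj l hl hlj
    exact (hV j hj).2.1 l (Finset.mem_erase.2 ⟨hlj, hl⟩)

end Pool.Agent.Lib.MP_2184e2_an.Loc
end

section
/-!
# MP_2184e2_an, local theorem: substitution calculus (shared helper file)
-/
set_option autoImplicit false

namespace Pool.Agent.Lib.MP_2184e2_an.Loc.SubM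

open MvPowerSeries Filter Topology
open scoped ContDiff LaurentPolynomial

noncomputable section

variable {κ ι υ τ : Type}

theorem hs [Finite κ] {a : κ → PS ι} (ha : ∀ i, Z0 (a i)) : HasSubst a :=
  hasSubst_of_constantCoeff_zero ha

theorem z0_X (i : ι) : Z0 (X i : PS ι) := by simp [Z0]

theorem z0_zero : Z0 (0 : PS ι) := by simp [Z0]

theorem z0_add {f g : PS ι} (hf : Z0 f) (hg : Z0 g) : Z0 (f + g) := by
  unfold Z0 at *
  rw [map_add, hf, hg, add_zero]

theorem z0_sub {f g : PS ι} (hf : Z0 f) (hg : Z0 g) : Z0 (f - g) := by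
  unfold Z0 at *
  rw [map_sub, hf, hg, sub_zero]

theorem z0_cj {f : PS ι} (hf : Z0 f) : Z0 (cj f) := by
  unfold Z0 cj at *
  rw [constantCoeff_map, hf, map_zero]

theorem z0_subst [Finite κ] {f : PS κ} {a : κ → PS ι} (hf : Z0 f) (ha : ∀ i, Z0 (a i)) :
    Z0 (f.subst a) :=
  constantCoeff_subst_eq_zero (hs ha) ha hf

theorem ss [Finite κ] [Finite ι] {a : κ → PS ι} {b : ι → PS τ} (ha : ∀ i, Z0 (a i))
    (hb : ∀ i, Z0 (b i)) (f : PS κ) : (f.subst a).subst b = f.subst fun i => (a i).subst b :=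
  subst_comp_subst_apply (hs ha) (hs hb) f

theorem sX [Finite κ] {a : κ → PS ι} (ha : ∀ i, Z0 (a i)) (i : κ) :
    (X i : PS κ).subst a = a i := subst_X (hs ha) i

theorem sAdd [Finite κ] {a : κ → PS ι} (ha : ∀ i, Z0 (a i)) (f g : PS κ) :
    (f + g).subst a = f.subst a + g.subst a := subst_add (hs ha) f g

theorem sSub [Finite κ] {a : κ → PS ι} (ha : ∀ i, Z0 (a i)) (f g : PS κ) :
    (f - g).subst a = f.subst a - g.subst a := subst_sub (hs ha) f g

theorem sMul [Finite κ] {a : κ → PS ι} (ha : ∀ i, Z0 (a i)) (f g : PS κ) :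
    (f * g).subst a = f.subst a * g.subst a := subst_mul (hs ha) f g

theorem sZero [Finite κ] {a : κ → PS ι} (ha : ∀ i, Z0 (a i)) : (0 : PS κ).subst a = 0 := by
  rw [← coe_substAlgHom (hs ha), map_zero]

theorem sOne [Finite κ] {a : κ → PS ι} (ha : ∀ i, Z0 (a i)) : (1 : PS κ).subst a = 1 := by
  rw [← coe_substAlgHom (hs ha), map_one]

theorem sSum [Finite κ] {a : κ → PS ι} (ha : ∀ i, Z0 (a i)) {α : Type} (s : Finset α)
    (f : α → PS κ) : (∑ i ∈ s, f i).subst a = ∑ i ∈ s, (f i).subst a := by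
  rw [← coe_substAlgHom (hs ha), map_sum]

theorem cj_add (f g : PS ι) : cj (f + g) = cj f + cj g := map_add _ f g

theorem cj_sub (f g : PS ι) : cj (f - g) = cj f - cj g := map_sub (MvPowerSeries.map _) f g

theorem cj_mul (f g : PS ι) : cj (f * g) = cj f * cj g := map_mul _ f g

theorem cj_zero : cj (0 : PS ι) = 0 := map_zero _

theorem cj_X (i : ι) : cj (X i : PS ι) = X i := map_X _ i

theorem cj_sum {α : Type} (s : Finset α) (f : α → PS ι) :
    cj (∑ i ∈ s, f i) = ∑ i ∈ s, cj (f i) := map_sum _ f s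

theorem cj_cj (f : PS ι) : cj (cj f) = f := by
  ext n
  unfold cj
  rw [coeff_map, coeff_map, Complex.conj_conj]

theorem cj_inj {f g : PS ι} (h : cj f = cj g) : f = g := by
  rw [← cj_cj f, h, cj_cj]

theorem cj_ne {f : PS ι} (h : f ≠ 0) : cj f ≠ 0 := by
  intro h1
  exact h (cj_inj (h1.trans cj_zero.symm))

theorem cj_subst [Finite κ] {a : κ → PS ι} (ha : ∀ i, Z0 (a i)) (f : PS κ) :
    cj (f.subst a) = (cj f).subst fun i => cj (a i) :=
  map_subst (hs ha) f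

theorem conv_cj {f : PS ι} (hf : Conv f) : Conv (cj f) := by
  obtain ⟨C, hC, h⟩ := hf
  refine ⟨C, hC, fun n => ?_⟩
  have h1 := h n
  simp only at h1 ⊢
  unfold cj
  rw [coeff_map, Complex.norm_conj]
  exact h1

theorem part_cj {ν : Type} (b : ν →₀ ℕ) (f : PS (ι ⊕ ν)) : part b (cj f) = cj (part b f) := rfl

theorem sc_cj {ν : Type} {f : PS (ι ⊕ ν)} (hf : SC f) : SC (cj f) := fun b => by
  rw [part_cj]
  exact conv_cj (hf b)

/-- `part 0` is a substitution -/
theorem part0_eq {ν : Type} [Finite ι] [Finite ν] (f : PS (ι ⊕ ν)) :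
    part 0 f = f.subst (Sum.elim (fun i => (X i : PS ι)) fun _ => 0) := by
  classical
  have h0 : ∀ i, Z0 ((Sum.elim (fun i => (X i : PS ι)) fun _ => 0 : ι ⊕ ν → PS ι) i) := by
    rintro (i | i)
    · exact z0_X i
    · exact z0_zero
  ext a
  rw [coeff_subst (hs h0), finsum_eq_single _ (Finsupp.sumElim a 0)]
  · rw [Finsupp.prod_sumElim, Finsupp.prod_zero_index, mul_one]
    have e : (a.prod ((fun s n => (Sum.elim (fun i => (X i : PS ι)) fun _ => 0 :
        ι ⊕ ν → PS ι) s ^ n) ∘ Sum.inl)) = monomial a 1 := by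
      rw [monomial_one_eq]
      rfl
    rw [e, coeff_monomial_same, smul_eq_mul, mul_one]
    rfl
  · intro d hd
    obtain ⟨d1, d2, rfl⟩ : ∃ d1 d2, d = Finsupp.sumElim d1 d2 :=
      ⟨_, _, (Finsupp.comapDomain_sumElim_comapDomain d).symm⟩
    rw [Finsupp.prod_sumElim]
    by_cases h2 : d2 = 0
    · subst h2
      rw [Finsupp.prod_zero_index, mul_one]
      have e : (d1.prod ((fun s n => (Sum.elim (fun i => (X i : PS ι)) fun _ => 0 :
          ι ⊕ ν → PS ι) s ^ n) ∘ Sum.inl)) = monomial d1 1 := by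
        rw [monomial_one_eq]
        rfl
      rw [e, coeff_monomial, if_neg, smul_zero]
      rintro rfl
      exact hd rfl
    · obtain ⟨j, hj⟩ := Finsupp.ne_iff.mp h2
      have e : (d2.prod ((fun s n => (Sum.elim (fun i => (X i : PS ι)) fun _ => 0 :
          ι ⊕ ν → PS ι) s ^ n) ∘ Sum.inr)) = 0 := by
        apply Finset.prod_eq_zero (i := j) (Finsupp.mem_support_iff.mpr hj)
        exact zero_pow hj
      rw [e, mul_zero, coeff_zero, smul_zero]

/-- `part 0` of a substitution -/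
theorem part0_subst {ν : Type} [Finite κ] [Finite ι] [Finite ν] {a : κ → PS (ι ⊕ ν)}
    (ha : ∀ i, Z0 (a i)) (f : PS κ) : part 0 (f.subst a) = f.subst fun i => part 0 (a i) := by
  have h0 : ∀ i, Z0 ((Sum.elim (fun i => (X i : PS ι)) fun _ => 0 : ι ⊕ ν → PS ι) i) := by
    rintro (i | i)
    · exact z0_X i
    · exact z0_zero
  rw [part0_eq, ss ha h0]
  congr 1
  funext i
  rw [part0_eq]

theorem part0_sub {ν : Type} (f g : PS (ι ⊕ ν)) : part 0 (f - g) = part 0 f - part 0 g := by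
  ext a
  rfl

theorem part0_add {ν : Type} (f g : PS (ι ⊕ ν)) : part 0 (f + g) = part 0 f + part 0 g := by
  ext a
  rfl

theorem part0_inr {ν : Type} [Finite ι] [Finite ν] (j : ν) :
    part 0 (X (Sum.inr j) : PS (ι ⊕ ν)) = 0 := by
  have h0 : ∀ i, Z0 ((Sum.elim (fun i => (X i : PS ι)) fun _ => 0 : ι ⊕ ν → PS ι) i) := by
    rintro (i | i)
    · exact z0_X i
    · exact z0_zero
  rw [part0_eq, sX h0]
  rfl

theorem part0_iL {ν : Type} [Finite ι] [Finite ν] (f : PS ι) :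
    part 0 (f.subst (iL : ι → PS (ι ⊕ ν))) = f := by
  have h0 : ∀ i, Z0 ((Sum.elim (fun i => (X i : PS ι)) fun _ => 0 : ι ⊕ ν → PS ι) i) := by
    rintro (i | i)
    · exact z0_X i
    · exact z0_zero
  have h1 : ∀ i, Z0 ((iL : ι → PS (ι ⊕ ν)) i) := fun i => z0_X _
  rw [part0_eq, ss h1 h0]
  have e : (fun i => ((iL : ι → PS (ι ⊕ ν)) i).subst
      (Sum.elim (fun i => (X i : PS ι)) fun _ => 0 : ι ⊕ ν → PS ι)) = X := by
    funext i
    unfold iL
    rw [sX h0]
    rfl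
  rw [e, subst_self]
  rfl

/-! ## The complexification -/

variable {m d : ℕ}

theorem z0_elim {α β : Type} {a : α → PS ι} {b : β → PS ι} (ha : ∀ i, Z0 (a i))
    (hb : ∀ i, Z0 (b i)) : ∀ i, Z0 ((Sum.elim a b : α ⊕ β → PS ι) i) := by
  rintro (i | i)
  · exact ha i
  · exact hb i

theorem z0_pr {Q : Fin d → PS (Mi m d)} (hQ : ∀ l, Z0 (Q l)) {T : Type} {a : Fin m → PS T}
    {b : Zi m d → PS T} (ha : ∀ i, Z0 (a i)) (hb : ∀ i, Z0 (b i)) : ∀ i, Z0 (pr Q a b i) :=
  z0_elim ha fun l => z0_subst (hQ l) (z0_elim ha hb)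

theorem z0_cjQ {Q : Fin d → PS (Mi m d)} (hQ : ∀ l, Z0 (Q l)) : ∀ l, Z0 (cjQ Q l) :=
  fun l => z0_cj (hQ l)

/-- substitution in `pr` -/
theorem pr_subst {Q : Fin d → PS (Mi m d)} {T T' : Type} [Finite T]
    {a : Fin m → PS T} {b : Zi m d → PS T} (ha : ∀ i, Z0 (a i)) (hb : ∀ i, Z0 (b i))
    {c : T → PS T'} (hc : ∀ i, Z0 (c i)) (i : Zi m d) :
    (pr Q a b i).subst c = pr Q (fun j => (a j).subst c) (fun j => (b j).subst c) i := by
  rcases i with i | l
  · rfl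
  · unfold pr
    rw [Sum.elim_inr, Sum.elim_inr, ss (z0_elim ha hb) hc]
    congr 1
    funext x
    rcases x with x | x <;> rfl

theorem cj_pr {Q : Fin d → PS (Mi m d)} {T : Type} {a : Fin m → PS T} {b : Zi m d → PS T}
    (ha : ∀ i, Z0 (a i)) (hb : ∀ i, Z0 (b i)) (i : Zi m d) :
    cj (pr Q a b i) = pr (cjQ Q) (fun j => cj (a j)) (fun j => cj (b j)) i := by
  rcases i with i | l
  · rfl
  · unfold pr
    rw [Sum.elim_inr, Sum.elim_inr, cj_subst (z0_elim ha hb)]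
    congr 1
    funext x
    rcases x with x | x <;> rfl

theorem cjQ_cjQ (Q : Fin d → PS (Mi m d)) : cjQ (cjQ Q) = Q := by
  funext l
  exact cj_cj (Q l)

/-- reality: `Q(z, χ, Q̄(χ, z, w)) = w` at all points -/
theorem real1 {Q : Fin d → PS (Mi m d)} (hQ : IsSeg0 Q) {T : Type} [Finite T]
    {B : Fin m → PS T} {Z : Zi m d → PS T} (hB : ∀ i, Z0 (B i)) (hZ : ∀ i, Z0 (Z i))
    (l : Fin d) :
    (Q l).subst (Sum.elim (fun j => Z (Sum.inl j)) (pr (cjQ Q) B Z)) = Z (Sum.inr l) := by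
  have h := congrArg (fun f => f.subst (Sum.elim Z B : Zi m d ⊕ Fin m → PS T)) (hQ.real l)
  have hc : ∀ i, Z0 ((Sum.elim Z B : Zi m d ⊕ Fin m → PS T) i) := z0_elim hZ hB
  have hX1 : ∀ j : Fin m, Z0 (X (Sum.inl (Sum.inl j)) : PS (Zi m d ⊕ Fin m)) := fun j => z0_X _
  have hX2 : ∀ j : Fin m, Z0 (X (Sum.inr j) : PS (Zi m d ⊕ Fin m)) := fun j => z0_X _
  have hX3 : ∀ j : Zi m d, Z0 (X (Sum.inl j) : PS (Zi m d ⊕ Fin m)) := fun j => z0_X _
  rw [ss (z0_elim hX1 (z0_pr (z0_cjQ hQ.zero) hX2 hX3)) hc, sX hc, Sum.elim_inl] at h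
  rw [← h]
  congr 1
  funext x
  rcases x with x | x
  · rw [Sum.elim_inl, Sum.elim_inl, sX hc, Sum.elim_inl]
  · rw [Sum.elim_inr, Sum.elim_inr, pr_subst hX2 hX3 hc]
    congr 1
    · funext j
      rw [sX hc, Sum.elim_inr]
    · funext j
      rw [sX hc, Sum.elim_inl]

/-- conjugated reality: `Q̄(χ, z, Q(z, χ, τ)) = τ` at all points -/
theorem real2 {Q : Fin d → PS (Mi m d)} (hQ : IsSeg0 Q) {T : Type} [Finite T]
    {B : Fin m → PS T} {Z : Zi m d → PS T} (hB : ∀ i, Z0 (B i)) (hZ : ∀ i, Z0 (Z i))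
    (l : Fin d) :
    (cj (Q l)).subst (Sum.elim (fun j => Z (Sum.inl j)) (pr Q B Z)) = Z (Sum.inr l) := by
  have hB' : ∀ i, Z0 (cj (B i)) := fun i => z0_cj (hB i)
  have hZ' : ∀ i, Z0 (cj (Z i)) := fun i => z0_cj (hZ i)
  have h := congrArg cj (real1 hQ hB' hZ' l)
  rw [cj_subst (z0_elim (fun j => hZ' (Sum.inl j)) (z0_pr (z0_cjQ hQ.zero) hB' hZ')),
    cj_cj] at h
  rw [← h]
  congr 1
  funext x
  rcases x with x | x
  · rw [Sum.elim_inl, Sum.elim_inl, cj_cj]
  · rw [Sum.elim_inr, Sum.elim_inr, cj_pr hB' hZ', cjQ_cjQ]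
    congr 1
    · funext j
      rw [cj_cj]
    · funext j
      rw [cj_cj]

end

end Pool.Agent.Lib.MP_2184e2_an.Loc.SubM
end
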