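import Pool.Agent.Lib.MP_2184e2_an.Loc.LocCore
import Pool.Agent.Lib.MP_2184e2_an.Loc.SpecA

section
/-!
# MP_2184e2_an, local theorem: module LOC
-/
set_option autoImplicit false

namespace Pool.Agent.Lib.MP_2184e2_an.Loc

open MvPowerSeries Filter Topology Set Metric
open scoped ContDiff LaurentPolynomial ComplexConjugate

noncomputable section

namespace LocM

theorem rl_zero {κ : Type} : rl (0 : κ → ℝ) = 0 := by
  funext k; simp [rl]

theorem contDiff_rl {κ : Type} [Fintype κ] : ContDiff ℝ ∞ (rl : (κ → ℝ) → κ → ℂ) := by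
  rw [contDiff_pi]
  intro k
  exact Complex.ofRealCLM.contDiff.comp (contDiff_apply ℝ ℝ k)

theorem tendsto_rl {κ : Type} [Fintype κ] : Tendsto (rl : (κ → ℝ) → κ → ℂ) (𝓝 0) (𝓝 0) := by
  have h := (contDiff_rl (κ := κ)).continuous.tendsto 0
  rw [rl_zero] at h
  exact h

theorem smooth_ev (hEVA : SpecEVA) {κ : Type} [Fintype κ] [DecidableEq κ] {F : PS κ}
    (hF : Conv F) : ContDiffAt ℝ ∞ (fun x : κ → ℝ => ev F (rl x)) 0 := by
  have h1 : AnalyticAt ℂ (ev F) 0 := ((hEVA κ).1 F hF).1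
  have h2 : ContDiffAt ℂ ∞ (ev F) (rl (0 : κ → ℝ)) := by
    rw [rl_zero]; exact h1.contDiffAt
  exact (h2.restrict_scalars ℝ).comp (0 : κ → ℝ) contDiff_rl.contDiffAt

variable {m d : ℕ}

theorem conv_Zs (hCNV : SpecCNV) {φ : Fin d → PS (Ki m d)} (hφ : IsPhi φ) (i : Zi m d) :
    Conv (Zs φ i) ∧ Z0 (Zs φ i) := by
  obtain ⟨h1, hN⟩ := hCNV
  obtain ⟨hop, hC, hX, _⟩ := h1 ℂ (fun c : ℂ => ‖c‖) hN (Ki m d)
  rcases i with j | l
  · refine ⟨(hop _ _ (hX _) (hop _ _ (hC _) (hX _)).2.1).1, ?_⟩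
    simp [Zs, Z0]
  · refine ⟨(hop _ _ (hX _) (hop _ _ (hC _) (hφ.conv l)).2.1).1, ?_⟩
    have h := hφ.zero l
    unfold Z0 at h
    simp [Zs, Z0, h]

theorem conv_subst (hCNV : SpecCNV) (hCNS : SpecCNS) {φ : Fin d → PS (Ki m d)} (hφ : IsPhi φ)
    {H : PS (Zi m d)} (hH : Conv H) : Conv (H.subst (Zs φ)) :=
  hCNS ℂ _ hCNV.2 _ _ H _ hH fun i => conv_Zs hCNV hφ i

theorem ev_Zm (hCNV : SpecCNV) (hEVS : SpecEVS) {φ : Fin d → PS (Ki m d)} (hφ : IsPhi φ)
    {H : PS (Zi m d)} (hH : Conv H) :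
    ∀ᶠ x in 𝓝 (0 : Ki m d → ℝ), ev H (Zm φ x) = ev (H.subst (Zs φ)) (rl x) := by
  have h1 := hEVS (Zi m d) (Ki m d) H (Zs φ) hH fun i => conv_Zs hCNV hφ i
  filter_upwards [tendsto_rl.eventually h1] with x hx
  rw [hx]
  rfl

theorem norm_le_Zm (hEVA : SpecEVA) (hCNV : SpecCNV) {φ : Fin d → PS (Ki m d)} (hφ : IsPhi φ) :
    ∀ᶠ x in 𝓝 (0 : Ki m d → ℝ), ‖x‖ ≤ ‖Zm φ x‖ := by
  obtain ⟨h1, hN⟩ := hCNV
  obtain ⟨hop, hC, hX, _⟩ := h1 ℂ (fun c : ℂ => ‖c‖) hN (Ki m d)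
  obtain ⟨_, hadd, hevC, hevX, _, hevc, _⟩ := hEVA (Ki m d)
  have hz : ∀ j : Fin m, ∀ᶠ x in 𝓝 (0 : Ki m d → ℝ),
      |x (Sum.inl (Sum.inl j))| ≤ ‖Zm φ x‖ ∧ |x (Sum.inl (Sum.inr j))| ≤ ‖Zm φ x‖ := by
    intro j
    have h2 := hadd (X (Sum.inl (Sum.inl j)) : PS (Ki m d))
      (C Complex.I * X (Sum.inl (Sum.inr j))) (hX _) (hop _ _ (hC _) (hX _)).2.1
    have h3 := hadd (C Complex.I : PS (Ki m d)) (X (Sum.inl (Sum.inr j))) (hC _) (hX _)
    filter_upwards [tendsto_rl.eventually h2, tendsto_rl.eventually h3] with x hx hx'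
    have h4 : Zm φ x (Sum.inl j) = x (Sum.inl (Sum.inl j)) +
        Complex.I * x (Sum.inl (Sum.inr j)) := by
      change ev (X (Sum.inl (Sum.inl j)) + C Complex.I * X (Sum.inl (Sum.inr j)) :
        PS (Ki m d)) (rl x) = _
      rw [hx.1, hx'.2.1, hevC, hevX, hevX]
      rfl
    have h5 := norm_le_pi_norm (Zm φ x) (Sum.inl j)
    constructor
    · refine le_trans ?_ h5
      have h6 := Complex.abs_re_le_norm (Zm φ x (Sum.inl j))
      rw [h4] at h6 ⊢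
      simpa using h6
    · refine le_trans ?_ h5
      have h6 := Complex.abs_im_le_norm (Zm φ x (Sum.inl j))
      rw [h4] at h6 ⊢
      simpa using h6
  have hw : ∀ l : Fin d, ∀ᶠ x in 𝓝 (0 : Ki m d → ℝ), |x (Sum.inr l)| ≤ ‖Zm φ x‖ := by
    intro l
    have h2 := hadd (X (Sum.inr l) : PS (Ki m d))
      (C Complex.I * φ l) (hX _) (hop _ _ (hC _) (hφ.conv l)).2.1
    have h3 := hadd (C Complex.I : PS (Ki m d)) (φ l) (hC _) (hφ.conv l)
    filter_upwards [tendsto_rl.eventually h2, tendsto_rl.eventually h3] with x hx hx'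
    have h4 : Zm φ x (Sum.inr l) = x (Sum.inr l) + Complex.I * ev (φ l) (rl x) := by
      change ev (X (Sum.inr l) + C Complex.I * φ l : PS (Ki m d)) (rl x) = _
      rw [hx.1, hx'.2.1, hevC, hevX]
      rfl
    have h7 : (ev (φ l) (rl x)).im = 0 := by
      have h8 := hevc (φ l) (rl x)
      rw [hφ.real l] at h8
      have h9 : (fun i => conj (rl x i)) = rl x := by
        funext i; simp [rl]
      rw [h9] at h8
      exact Complex.conj_eq_iff_im.1 h8.symm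
    refine le_trans ?_ (norm_le_pi_norm (Zm φ x) (Sum.inr l))
    have h6 := Complex.abs_re_le_norm (Zm φ x (Sum.inr l))
    rw [h4] at h6 ⊢
    simpa [h7] using h6
  filter_upwards [eventually_all.2 hz, eventually_all.2 hw] with x hx hx'
  rw [pi_norm_le_iff_of_nonneg (norm_nonneg _)]
  rintro ((j | j) | l)
  · exact (hx j).1
  · exact (hx j).2
  · exact hx' l

end LocM

open LocM in
theorem specLOC (hEVA : SpecEVA) (hEVS : SpecEVS) (hCNV : SpecCNV) (hCNS : SpecCNS)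
    (hTAY : SpecTAY) (hTAYM : SpecTAYM) (hTAYF : SpecTAYF) (hTOH : SpecTOH) (hQFR : SpecQFR)
    (hQFL : SpecQFL) (hREL : SpecREL) (hFORMAL : SpecFORMAL) (hEXTD : SpecEXTD)
    (hDISC : SpecDISC) (hHOPF : SpecHOPF) (hSECD : SpecSECD) : SpecLOC := by
  intro m d N φ ρ g hφ hL hρ hg g0 hCR hρg
  classical
  obtain ⟨T, hT⟩ := hTAY (Ki m d)
  have hH : ∀ j, ∃ H : PS (Zi m d), T (fun x => g x j) = H.subst (Zs φ) ∧
      (Conv (T fun x => g x j) → Conv H) := fun j => hTOH m d φ hφ T hT _ (hg j) (hCR j)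
  choose H hH1 _ using hH
  obtain ⟨Q, hQ, hQφ⟩ := hQFR m d φ hφ
  have hLQ : LeviQ Q := hQFL m d φ Q hφ hQ hQφ hL
  have hREL' := hREL m d N φ Q ρ H hφ hQ hQφ hρ.conv hρ.zero
  have hMap : IsMap Q ρ H := hREL'.1 T g hT hg g0 hρg hH1
  have hConv := hFORMAL m d N Q ρ H hQ hLQ hρ hMap
  have hvP := hREL'.2 hMap hConv
  refine ⟨H, hConv, ?_⟩
  -- flatness
  obtain ⟨hTop, _, hTev, _⟩ := hTAYM (Ki m d) T hT
  have hvs : ∀ j, ContDiffAt ℝ ∞ (fun x => ev (H j) (Zm φ x)) 0 := by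
    intro j
    refine (smooth_ev hEVA (conv_subst hCNV hCNS hφ (hConv j))).congr_of_eventuallyEq ?_
    exact ev_Zm hCNV hEVS hφ (hConv j)
  have hTv : ∀ j, T (fun x => ev (H j) (Zm φ x)) = (H j).subst (Zs φ) := by
    intro j
    rw [hT.germ _ _ (ev_Zm hCNV hEVS hφ (hConv j))]
    exact hTev _ (conv_subst hCNV hCNS hφ (hConv j))
  have hTc : T (fun _ => (-1 : ℂ)) = C (-1) := by
    have h1 := hTev (C (-1) : PS (Ki m d)) ((hCNV.1 ℂ _ hCNV.2 (Ki m d)).2.1 _)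
    have h2 : (fun x : Ki m d → ℝ => ev (C (-1) : PS (Ki m d)) (rl x)) = fun _ => (-1 : ℂ) := by
      funext x
      exact (hEVA (Ki m d)).2.2.1 _ _
    rw [h2] at h1
    exact h1
  have hflat : ∀ k : ℕ, ∃ c : ℝ, ∀ᶠ y in 𝓝 (0 : Ki m d → ℝ), ∀ j,
      ‖g y j - ev (H j) (Zm φ y)‖ ≤ c * ‖y‖ ^ k := by
    intro k
    have h1 : ∀ j, ∃ c : ℝ, ∀ᶠ y in 𝓝 (0 : Ki m d → ℝ),
        ‖g y j - ev (H j) (Zm φ y)‖ ≤ c * ‖y‖ ^ k := by
      intro j
      have hs : ContDiffAt ℝ ∞ (fun x => (-1 : ℂ) * ev (H j) (Zm φ x)) 0 :=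
        contDiffAt_const.mul (hvs j)
      have h2 : T (fun x => g x j + (-1) * ev (H j) (Zm φ x)) = 0 := by
        rw [(hTop _ _ (hg j) hs).1, (hTop _ _ contDiffAt_const (hvs j)).2, hTc, hTv, hH1,
          map_neg, map_one, neg_one_mul, add_neg_cancel]
      obtain ⟨c, hc⟩ := hTAYF (Ki m d) T hT _ ((hg j).add hs) h2 k
      refine ⟨c, ?_⟩
      filter_upwards [hc] with y hy
      rw [neg_one_mul, ← sub_eq_add_neg] at hy
      exact hy
    choose c hc using h1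
    refine ⟨∑ j, |c j|, ?_⟩
    filter_upwards [eventually_all.2 hc] with y hy j
    refine (hy j).trans ?_
    gcongr
    exact (le_abs_self _).trans (Finset.single_le_sum (f := fun j => |c j|)
      (fun i _ => abs_nonneg _) (Finset.mem_univ j))
  -- the target
  have hPan : AnalyticAt ℂ (ev ρ) 0 := ((hEVA _).1 ρ hρ.conv).1
  obtain ⟨r₁, hr₁, hr₁'⟩ := Metric.eventually_nhds_iff_ball.1 hPan.eventually_analyticAt
  obtain ⟨Lc, t, ht, hLip⟩ := (hPan.contDiffAt (n := 1)).exists_lipschitzOnWith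
  obtain ⟨r₂, hr₂, hr₂'⟩ := Metric.mem_nhds_iff.1 ht
  obtain ⟨κ, hκ, r₃, hr₃, hsec⟩ := hSECD N ρ hρ
  obtain ⟨r₀, hr₀, hr01, hr02, hr03⟩ : ∃ r₀ : ℝ, 0 < r₀ ∧ r₀ ≤ r₁ ∧ r₀ ≤ r₂ ∧ r₀ ≤ r₃ :=
    ⟨min r₁ (min r₂ r₃), lt_min hr₁ (lt_min hr₂ hr₃), min_le_left _ _,
      (min_le_right _ _).trans (min_le_left _ _), (min_le_right _ _).trans (min_le_right _ _)⟩
  -- the functions `ev (H j)`
  have hVan : ∀ j, AnalyticAt ℂ (ev (H j)) 0 := fun j => ((hEVA _).1 (H j) (hConv j)).1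
  have hV : ∀ᶠ Z in 𝓝 (0 : Zi m d → ℂ), ∀ j, AnalyticAt ℂ (ev (H j)) Z ∧
      ‖ev (H j) Z‖ ≤ r₀ / 2 := by
    rw [eventually_all]
    intro j
    have h1 : Tendsto (ev (H j)) (𝓝 0) (𝓝 0) := by
      have h2 := (hVan j).continuousAt.tendsto
      rw [((hEVA _).1 (H j) (hConv j)).2, hMap.zero j] at h2
      exact h2
    have h3 := h1.eventually (Metric.closedBall_mem_nhds (0 : ℂ) (half_pos hr₀))
    filter_upwards [(hVan j).eventually_analyticAt, h3] with Z h4 h5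
    exact ⟨h4, by simpa using h5⟩
  obtain ⟨η₁, hη₁, hη₁'⟩ := Metric.eventually_nhds_iff_ball.1 hV
  -- the map `g`
  have hgc : ∀ᶠ y in 𝓝 (0 : Ki m d → ℝ), ∀ j, ‖g y j‖ ≤ r₀ / 2 := by
    rw [eventually_all]
    intro j
    have h1 : Tendsto (fun y => g y j) (𝓝 0) (𝓝 0) := by
      have h2 := (hg j).continuousAt.tendsto
      have h3 : g 0 j = 0 := by rw [g0]; rfl
      rw [h3] at h2
      exact h2
    filter_upwards [h1.eventually (Metric.closedBall_mem_nhds (0 : ℂ) (half_pos hr₀))] with y hy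
    simpa using hy
  obtain ⟨η₂, hη₂, hη₂'⟩ := Metric.eventually_nhds_iff_ball.1
    (((hgc.and (norm_le_Zm hEVA hCNV hφ)).and hρg).and hvP)
  -- extension along discs
  have hEX : ∀ j, ∃ η : ℝ, 0 < η ∧ ∀ A : ℂ → Zi m d → ℂ, DifferentiableOn ℂ A (Metric.ball 0 64) →
      (∀ ζ : ℂ, ‖ζ‖ = 1 → ∃ y : Ki m d → ℝ, ‖y‖ < η ∧ A ζ = Zm φ y) →
      ∃ E : ℂ → ℂ, ContinuousOn E (Metric.closedBall 0 1) ∧
        DifferentiableOn ℂ E (Metric.ball 0 1) ∧
        (∀ ζ : ℂ, ‖ζ‖ = 1 → ∀ y : Ki m d → ℝ, ‖y‖ < η → A ζ = Zm φ y → E ζ = g y j) := by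
    intro j
    obtain ⟨η, hη, h1⟩ := hEXTD m d φ hφ (fun x => g x j) ((hg j).of_le (by exact_mod_cast le_top))
      (hCR j)
    refine ⟨η, hη, fun A hA hA' => ?_⟩
    obtain ⟨E, hE1, hE2, hE3, _⟩ := h1 A hA hA'
    exact ⟨E, hE1, hE2, hE3⟩
  choose ηj hηj hEX using hEX
  obtain ⟨η₃, hη₃, hη₃'⟩ : ∃ η₃ : ℝ, 0 < η₃ ∧ ∀ j, η₃ ≤ ηj j := by
    rcases isEmpty_or_nonempty (Fin N) with h | h
    · exact ⟨1, one_pos, fun j => h.elim j⟩
    · obtain ⟨j₀, hj₀⟩ := Finite.exists_min ηj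
      exact ⟨ηj j₀, hηj j₀, hj₀⟩
  obtain ⟨η, hη, hle1, hle2, hle3⟩ : ∃ η : ℝ, 0 < η ∧ η ≤ η₁ ∧ η ≤ η₂ ∧ η ≤ η₃ :=
    ⟨min η₁ (min η₂ η₃), lt_min hη₁ (lt_min hη₂ hη₃), min_le_left _ _,
      (min_le_right _ _).trans (min_le_left _ _), (min_le_right _ _).trans (min_le_right _ _)⟩
  have hb2 : ∀ y : Ki m d → ℝ, ‖y‖ < η → y ∈ ball (0 : Ki m d → ℝ) η₂ := by
    intro y hy
    rw [mem_ball_zero_iff]
    exact hy.trans_le hle2
  have D : Dat (ev ρ) r₀ (r₀ / 2) Lc κ η (Zm φ) g (fun j => ev (H j)) := by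
    refine ⟨(half_pos hr₀).le, half_lt_self hr₀, hκ, Lc.2, ?_, ?_, ?_, ?_, ?_, ?_, ?_, ?_, ?_, hflat⟩
    · intro p hp
      exact (hr₁' p (ball_subset_ball hr01 hp)).differentiableAt.differentiableWithinAt
    · intro p hp q hq
      have h1 := hLip.dist_le_mul p (hr₂' (ball_subset_ball hr02 hp)) q
        (hr₂' (ball_subset_ball hr02 hq))
      rwa [dist_eq_norm, dist_eq_norm] at h1
    · intro u v hu hv hPu hPv
      exact hsec u v (hu.trans_le hr03) (hv.trans_le hr03) hPu hPv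
    · intro y hy
      exact (hη₂' y (hb2 y hy)).1.1.2
    · intro y hy
      rw [pi_norm_le_iff_of_nonneg (half_pos hr₀).le]
      exact (hη₂' y (hb2 y hy)).1.1.1
    · intro y hy
      exact (hη₂' y (hb2 y hy)).1.2
    · intro y hy
      exact (hη₂' y (hb2 y hy)).2
    · intro j Z hZ
      exact (hη₁' Z (ball_subset_ball hle1 hZ) j).1.differentiableAt.differentiableWithinAt
    · intro j Z hZ
      exact (hη₁' Z (ball_subset_ball hle1 hZ) j).2
  obtain ⟨r, hr, hdisc⟩ := hDISC m d φ hφ hL η hη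
  rw [Metric.eventually_nhds_iff_ball]
  refine ⟨min r η, lt_min hr hη, fun x hx => ?_⟩
  rw [mem_ball_zero_iff] at hx
  obtain ⟨A, hA, hAη, hA1, hAm, hAc⟩ := hdisc x (hx.trans_le (min_le_left _ _))
  have hE := fun j => hEX j A hA fun ζ hζ => by
    obtain ⟨y, hy, hy'⟩ := hAc ζ hζ
    exact ⟨y, hy.trans_le (hle3.trans (hη₃' j)), hy'⟩
  choose E hE1 hE2 hE3 using hE
  exact core hHOPF D A hA hAη hA1 hAc E hE1 hE2
    (fun j ζ hζ y hy hy' => hE3 j ζ hζ y (hy.trans_le (hle3.trans (hη₃' j))) hy')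
    x (hx.trans_le (min_le_right _ _)) hAm

end

end Pool.Agent.Lib.MP_2184e2_an.Loc
end

section
/-!
# MP_2184e2_an, local theorem: [TAY] formal Taylor expansion
-/
set_option autoImplicit false

namespace Pool.Agent.Lib.MP_2184e2_an.Loc

open MvPowerSeries Filter Topology Set
open scoped ContDiff LaurentPolynomial ComplexConjugate

noncomputable section

namespace TayM

variable {κ : Type} [Fintype κ] [DecidableEq κ]

theorem smooth_pd {g : (κ → ℝ) → ℂ} {x : κ → ℝ} (hg : ContDiffAt ℝ ∞ g x) (k : κ) :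
    ContDiffAt ℝ ∞ (pd g k) x :=
  (hg.fderiv_right (m := ∞) (by simp)).clm_apply contDiffAt_const

theorem pd_congr {g h : (κ → ℝ) → ℂ} {x : κ → ℝ} (e : g =ᶠ[𝓝 x] h) (k : κ) :
    pd g k =ᶠ[𝓝 x] pd h k := by
  filter_upwards [e.fderiv (𝕜 := ℝ)] with y hy
  simp only [pd, hy]

theorem pd_pd {g : (κ → ℝ) → ℂ} {x : κ → ℝ} (hg : ContDiffAt ℝ 2 g x) (j k : κ) :
    pd (pd g j) k x = fderiv ℝ (fderiv ℝ g) x (Pi.single k 1) (Pi.single j 1) := by
  have h1 : DifferentiableAt ℝ (fderiv ℝ g) x :=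
    (hg.fderiv_right (m := 1) (by norm_num)).differentiableAt (by norm_num)
  have h2 : HasFDerivAt (pd g j) ((fderiv ℝ (fderiv ℝ g) x).flip (Pi.single j 1)) x := by
    have := h1.hasFDerivAt.clm_apply (hasFDerivAt_const (Pi.single j (1 : ℝ)) x)
    refine this.congr_fderiv ?_
    ext v
    simp
  unfold pd at h2 ⊢
  rw [h2.fderiv]
  rfl

theorem pd_comm {g : (κ → ℝ) → ℂ} {x : κ → ℝ} (hg : ContDiffAt ℝ ∞ g x) (j k : κ) :
    pd (pd g j) k =ᶠ[𝓝 x] pd (pd g k) j := by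
  have h2 : ContDiffAt ℝ 2 g x := hg.of_le (WithTop.coe_le_coe.2 le_top)
  filter_upwards [h2.eventually (by simp)] with y hy
  rw [pd_pd hy, pd_pd hy]
  exact (hy.isSymmSndFDerivAt (by simp)).eq _ _

/-- iterated partial derivatives -/
def D (l : List κ) (g : (κ → ℝ) → ℂ) : (κ → ℝ) → ℂ := l.foldr (fun k h => pd h k) g

theorem D_append (l l' : List κ) (g : (κ → ℝ) → ℂ) : D (l ++ l') g = D l (D l' g) := by
  unfold D
  rw [List.foldr_append]

theorem D_congr {g h : (κ → ℝ) → ℂ} {x : κ → ℝ} (e : g =ᶠ[𝓝 x] h) (l : List κ) :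
    D l g =ᶠ[𝓝 x] D l h := by
  induction l with
  | nil => exact e
  | cons k l ih => exact pd_congr ih k

theorem smooth_D {g : (κ → ℝ) → ℂ} {x : κ → ℝ} (hg : ContDiffAt ℝ ∞ g x) (l : List κ) :
    ContDiffAt ℝ ∞ (D l g) x := by
  induction l with
  | nil => exact hg
  | cons k l ih => exact smooth_pd ih k

theorem D_perm {l l' : List κ} (h : l.Perm l') {g : (κ → ℝ) → ℂ} {x : κ → ℝ}
    (hg : ContDiffAt ℝ ∞ g x) : D l g =ᶠ[𝓝 x] D l' g := by
  induction h with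
  | nil => exact Filter.EventuallyEq.rfl
  | cons k _ ih => exact pd_congr ih k
  | swap j k l => exact pd_comm (smooth_D hg l) j k
  | trans _ _ ih1 ih2 => exact ih1.trans ih2

/-- the Taylor expansion -/
def T (g : (κ → ℝ) → ℂ) : PS κ := fun n =>
  ((∏ i, (n i).factorial : ℕ) : ℂ)⁻¹ * D (Finsupp.toMultiset n).toList g 0

theorem coeff_T (g : (κ → ℝ) → ℂ) (n : κ →₀ ℕ) : coeff n (T g) =
    ((∏ i, (n i).factorial : ℕ) : ℂ)⁻¹ * D (Finsupp.toMultiset n).toList g 0 := rfl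

theorem isTay : IsTay (T : ((κ → ℝ) → ℂ) → PS κ) where
  germ g h e := by
    ext n
    rw [coeff_T, coeff_T, (D_congr e _).eq_of_nhds]
  zero g _ := by
    rw [← coeff_zero_eq_constantCoeff_apply, coeff_T]
    simp [D]
  der g hg k := by
    ext n
    rw [coeff_pderiv, coeff_T, coeff_T]
    have h1 : ((Finsupp.toMultiset n).toList ++ [k]).Perm
        (Finsupp.toMultiset (n + Finsupp.single k 1)).toList := by
      rw [← Multiset.coe_eq_coe]
      rw [← Multiset.coe_add, Multiset.coe_toList, Multiset.coe_toList, map_add,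
        Finsupp.toMultiset_single, one_smul]
      rfl
    have h2 : D (Finsupp.toMultiset n).toList (pd g k) 0 =
        D (Finsupp.toMultiset (n + Finsupp.single k 1)).toList g 0 := by
      rw [← (D_perm h1 hg).eq_of_nhds, D_append]
      rfl
    have h3 : (∏ i, ((n + Finsupp.single k 1 : κ →₀ ℕ) i).factorial) =
        (∏ i, (n i).factorial) * (n k + 1) := by
      rw [← Finset.mul_prod_erase _ _ (Finset.mem_univ k),
        ← Finset.mul_prod_erase _ (fun i => (n i).factorial) (Finset.mem_univ k)]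
      have h4 : ∏ x ∈ Finset.univ.erase k, ((n + Finsupp.single k 1 : κ →₀ ℕ) x).factorial =
          ∏ x ∈ Finset.univ.erase k, (n x).factorial := by
        refine Finset.prod_congr rfl fun i hi => ?_
        rw [Finsupp.add_apply, Finsupp.single_eq_of_ne (Finset.ne_of_mem_erase hi), add_zero]
      rw [h4, Finsupp.add_apply, Finsupp.single_eq_same, Nat.factorial_succ]
      ring
    rw [h2, h3]
    have h5 : ((∏ i, (n i).factorial : ℕ) : ℂ) ≠ 0 := by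
      exact_mod_cast (Finset.prod_pos fun i _ => Nat.factorial_pos _).ne'
    have h6 : ((n k : ℂ) + 1) ≠ 0 := by exact_mod_cast Nat.succ_ne_zero (n k)
    push_cast at h5 ⊢
    field_simp

end TayM

theorem specTAY : SpecTAY := fun _ _ _ => ⟨TayM.T, TayM.isTay⟩

end

end Pool.Agent.Lib.MP_2184e2_an.Loc
end

section
/-!
# MP_2184e2_an, local theorem: module TAYF

Smooth functions with zero Taylor expansion are flat.
-/
set_option autoImplicit false

namespace Pool.Agent.Lib.MP_2184e2_an.Loc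

open MvPowerSeries Filter Topology Set
open scoped ContDiff

noncomputable section

namespace TayfM

variable {κ : Type} [Fintype κ] [DecidableEq κ]

lemma pd_smooth {g : (κ → ℝ) → ℂ} (hg : ContDiffAt ℝ ∞ g 0) (k : κ) :
    ContDiffAt ℝ ∞ (pd g k) 0 := by
  have h : ContDiffAt ℝ ∞ (fderiv ℝ g) 0 := hg.fderiv_right (by simp)
  exact h.clm_apply contDiffAt_const

lemma norm_fderiv_le (g : (κ → ℝ) → ℂ) (x : κ → ℝ) :
    ‖fderiv ℝ g x‖ ≤ ∑ k, ‖pd g k x‖ := by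
  refine ContinuousLinearMap.opNorm_le_bound _ (Finset.sum_nonneg fun _ _ => norm_nonneg _) ?_
  intro v
  have hv : v = ∑ k, v k • (Pi.single k (1 : ℝ) : κ → ℝ) := by
    ext i
    simp [Finset.sum_apply, Pi.single_apply]
  calc ‖fderiv ℝ g x v‖ = ‖∑ k, v k • pd g k x‖ := by
        conv_lhs => rw [hv]
        rw [map_sum]
        simp only [map_smul]
        rfl
    _ ≤ ∑ k, ‖v k • pd g k x‖ := norm_sum_le _ _
    _ ≤ ∑ k, ‖pd g k x‖ * ‖v‖ := by
        refine Finset.sum_le_sum fun k _ => ?_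
        rw [norm_smul, mul_comm]
        exact mul_le_mul_of_nonneg_left (norm_le_pi_norm v k) (norm_nonneg _)
    _ = (∑ k, ‖pd g k x‖) * ‖v‖ := by rw [Finset.sum_mul]

end TayfM

open TayfM in
theorem specTAYF : SpecTAYF := by
  intro κ _ _ T hT g hg hTg k
  induction k generalizing g with
  | zero =>
    have h := hg.continuousAt.norm
    refine ⟨‖g 0‖ + 1, ?_⟩
    have h2 : ∀ᶠ x in 𝓝 (0 : κ → ℝ), ‖g x‖ < ‖g 0‖ + 1 :=
      h.eventually_lt continuousAt_const (by linarith)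
    filter_upwards [h2] with x hx
    simpa using hx.le
  | succ k ih =>
    have h1 : ∀ j, ∃ C : ℝ, ∀ᶠ x in 𝓝 (0 : κ → ℝ), ‖pd g j x‖ ≤ C * ‖x‖ ^ k := by
      intro j
      refine ih (pd g j) (pd_smooth hg j) ?_
      rw [hT.der g hg j, hTg, map_zero]
    choose C hC using h1
    have h0 : g 0 = 0 := by
      rw [← hT.zero g hg, hTg, map_zero]
    have hd : ∀ᶠ x in 𝓝 (0 : κ → ℝ), DifferentiableAt ℝ g x := by
      have h := (hg.of_le (show (1 : WithTop ℕ∞) ≤ ∞ by exact_mod_cast le_top)).eventually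
        (by simp)
      filter_upwards [h] with x hx
      exact hx.differentiableAt (by simp)
    have hall : ∀ᶠ x in 𝓝 (0 : κ → ℝ), DifferentiableAt ℝ g x ∧ ∀ j, ‖pd g j x‖ ≤ C j * ‖x‖ ^ k :=
      hd.and (eventually_all.2 hC)
    obtain ⟨r, hr, hball⟩ := Metric.eventually_nhds_iff_ball.1 hall
    refine ⟨∑ j, |C j|, ?_⟩
    filter_upwards [Metric.ball_mem_nhds (0 : κ → ℝ) hr] with x hx
    have hx' : ‖x‖ < r := by simpa using hx
    have hsub : ∀ y ∈ Metric.closedBall (0 : κ → ℝ) ‖x‖, y ∈ Metric.ball (0 : κ → ℝ) r := by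
      intro y hy
      rw [mem_ball_zero_iff]
      rw [mem_closedBall_zero_iff] at hy
      exact lt_of_le_of_lt hy hx'
    have key := Convex.norm_image_sub_le_of_norm_fderiv_le (𝕜 := ℝ) (f := g)
      (s := Metric.closedBall (0 : κ → ℝ) ‖x‖) (C := (∑ j, |C j|) * ‖x‖ ^ k) (x := 0) (y := x)
      (fun y hy => (hball y (hsub y hy)).1) (fun y hy => ?_) (convex_closedBall _ _)
      (by simp) (by simp)
    · rw [h0, sub_zero, sub_zero] at key
      calc ‖g x‖ ≤ (∑ j, |C j|) * ‖x‖ ^ k * ‖x‖ := key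
        _ = (∑ j, |C j|) * ‖x‖ ^ (k + 1) := by ring
    · rw [mem_closedBall_zero_iff] at hy
      refine (norm_fderiv_le g y).trans ?_
      rw [Finset.sum_mul]
      refine Finset.sum_le_sum fun j _ => ?_
      have hyb : y ∈ Metric.closedBall (0 : κ → ℝ) ‖x‖ := by
        rwa [mem_closedBall_zero_iff]
      calc ‖pd g j y‖ ≤ C j * ‖y‖ ^ k := (hball y (hsub y hyb)).2 j
        _ ≤ |C j| * ‖y‖ ^ k := mul_le_mul_of_nonneg_right (le_abs_self _) (by positivity)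
        _ ≤ |C j| * ‖x‖ ^ k :=
          mul_le_mul_of_nonneg_left (pow_le_pow_left₀ (norm_nonneg _) hy k) (abs_nonneg _)

end

end Pool.Agent.Lib.MP_2184e2_an.Loc
end
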