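import Pool.Agent.Lib.MP_2184e2_an.Loc.SpecB
import Mathlib.RingTheory.MvPowerSeries.Rename
import Pool.Agent.Lib.MP_2184e2_an.Loc.SpecA
import Pool.Agent.Lib.MP_2184e2_an.Loc.Cnv

section
/-!
# MP_2184e2_an, local theorem: the chain rule for substitution (module CHN)
-/
set_option autoImplicit false

namespace Pool.Agent.Lib.MP_2184e2_an.Loc

open MvPowerSeries

noncomputable section

namespace ChnM

variable {S : Type} [CommRing S] [Algebra ℂ S] {κ ι : Type}

omit [Algebra ℂ S] in
theorem hs [Finite κ] {a : κ → MvPowerSeries ι S} (ha : ∀ i, Z0 (a i)) : HasSubst a :=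
  hasSubst_of_constantCoeff_zero (fun s => ha s)

omit [Algebra ℂ S] in
theorem one_le_iInf_order {a : κ → MvPowerSeries ι S} (ha : ∀ i, Z0 (a i)) :
    1 ≤ ⨅ i, (a i).order :=
  le_iInf fun i => (one_le_order_iff_constCoeff_eq_zero).2 (ha i)

/-- substitution of series without constant term does not lower the order -/
theorem order_le_subst [Finite κ] {a : κ → MvPowerSeries ι S} (ha : ∀ i, Z0 (a i)) (f : PS κ) :
    f.order ≤ (f.subst a).order := by
  refine le_trans ?_ (le_order_subst (hs ha) f)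
  calc f.order = 1 * f.order := (one_mul _).symm
    _ ≤ (⨅ i, (a i).order) * f.order := mul_le_mul_left (one_le_iInf_order ha) _

/-- a coefficient of degree `k` of `f.subst a` depends only on the coefficients of `f` of
degree `≤ k` -/
theorem coeff_subst_congr [Finite κ] {a : κ → MvPowerSeries ι S} (ha : ∀ i, Z0 (a i))
    {f g : PS κ} {n : ι →₀ ℕ}
    (h : ∀ d : κ →₀ ℕ, d.degree ≤ n.degree → coeff d f = coeff d g) :
    coeff n (f.subst a) = coeff n (g.subst a) := by
  have h1 : ((n.degree + 1 : ℕ) : ℕ∞) ≤ (f - g).order := by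
    refine le_order fun d hd => ?_
    have hd' : d.degree < n.degree + 1 := by exact_mod_cast hd
    rw [map_sub, h d (by omega), sub_self]
  have h2 : coeff n ((f - g).subst a) = 0 := by
    refine coeff_of_lt_order (lt_of_lt_of_le ?_ (h1.trans (order_le_subst ha (f - g))))
    exact_mod_cast Nat.lt_succ_self _
  rw [subst_sub (hs ha), map_sub, sub_eq_zero] at h2
  exact h2

theorem algC (c : ℂ) : algebraMap ℂ (MvPowerSeries ι S) c = C (algebraMap ℂ S c) := by
  rw [MvPowerSeries.algebraMap_apply]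

/-- the chain rule for polynomials -/
theorem chain_poly [Fintype κ] (a : κ → MvPowerSeries ι S) (j : ι) (p : MvPolynomial κ ℂ) :
    pderiv S j (MvPolynomial.aeval a p) =
      ∑ i, MvPolynomial.aeval a (MvPolynomial.pderiv i p) * pderiv S j (a i) := by
  classical
  induction p using MvPolynomial.induction_on with
  | C c =>
    have h0 : ∀ i, MvPolynomial.pderiv i (MvPolynomial.C c : MvPolynomial κ ℂ) = 0 := by
      intro i
      simp
    rw [MvPolynomial.aeval_C, algC, pderiv_C]
    simp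
  | add p q hp hq =>
    simp only [map_add, hp, hq, add_mul, Finset.sum_add_distrib]
  | mul_X p k hp =>
    rw [map_mul, MvPolynomial.aeval_X, Derivation.leibniz, hp]
    have h1 : ∀ i, MvPolynomial.aeval a (MvPolynomial.pderiv i (p * MvPolynomial.X k)) *
        pderiv S j (a i) = a k * (MvPolynomial.aeval a (MvPolynomial.pderiv i p) *
          pderiv S j (a i)) + (if i = k then MvPolynomial.aeval a p * pderiv S j (a k) else 0) := by
      intro i
      rw [MvPolynomial.pderiv_mul, map_add, map_mul, map_mul, MvPolynomial.aeval_X,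
        MvPolynomial.pderiv_X]
      by_cases h : i = k
      · subst h
        simp
        ring
      · rw [if_neg h, Pi.single_apply, if_neg (fun h' => h h'.symm)]
        simp
        ring
    rw [Finset.sum_congr rfl (fun i _ => h1 i), Finset.sum_add_distrib, ← Finset.mul_sum,
      Finset.sum_ite_eq' Finset.univ k]
    simp only [Finset.mem_univ, if_true, smul_eq_mul]
    ring

theorem order_pderiv {κ : Type} {f : PS κ} {k : ℕ} (i : κ)
    (h : ∀ d : κ →₀ ℕ, d.degree < k + 1 → coeff d f = 0) :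
    ∀ d : κ →₀ ℕ, d.degree < k → coeff d (pderiv ℂ i f) = 0 := by
  intro d hd
  rw [coeff_pderiv, h, zero_mul]
  rw [map_add, Finsupp.degree_single]
  omega

end ChnM

open ChnM

theorem specCHN : SpecCHN := by
  intro S _ _ κ ι _ _ f a ha j
  classical
  have hS := hs ha
  ext n
  set f' : PS κ := ((f.truncTotal (n.degree + 2) : MvPolynomial κ ℂ) : PS κ) with hf'
  have hpoly : pderiv S j (f'.subst a) =
      ∑ i, (pderiv ℂ i f').subst a * pderiv S j (a i) := by
    have h0 := chain_poly a j (f.truncTotal (n.degree + 2))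
    rw [hf', subst_coe]
    rw [h0]
    refine Finset.sum_congr rfl fun i _ => ?_
    rw [pderiv_coe, subst_coe]
  have hg : ∀ d : κ →₀ ℕ, d.degree < n.degree + 2 → coeff d (f - f') = 0 := by
    intro d hd
    rw [map_sub, hf', MvPolynomial.coeff_coe, coeff_truncTotal _ hd, sub_self]
  have hl : coeff n (pderiv S j ((f - f').subst a)) = 0 := by
    rw [coeff_pderiv]
    have h1 : coeff (n + Finsupp.single j 1) ((f - f').subst a) = coeff (n + Finsupp.single j 1)
        ((0 : PS κ).subst a) := by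
      refine coeff_subst_congr ha fun d hd => ?_
      rw [map_add, Finsupp.degree_single] at hd
      rw [hg d (by omega), map_zero]
    rw [h1, ← coe_substAlgHom hS, map_zero, map_zero, zero_mul]
  have hr : coeff n (∑ i, (pderiv ℂ i (f - f')).subst a * pderiv S j (a i)) = 0 := by
    rw [map_sum]
    refine Finset.sum_eq_zero fun i _ => ?_
    rw [coeff_mul]
    refine Finset.sum_eq_zero fun p hp => ?_
    have hp' : p.1 + p.2 = n := Finset.HasAntidiagonal.mem_antidiagonal.1 hp
    have hdeg : p.1.degree ≤ n.degree := by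
      rw [← hp', map_add]
      omega
    have h1 : coeff p.1 ((pderiv ℂ i (f - f')).subst a) = coeff p.1 ((0 : PS κ).subst a) := by
      refine coeff_subst_congr ha fun d hd => ?_
      rw [order_pderiv i hg d (by omega), map_zero]
    rw [h1, ← coe_substAlgHom hS, map_zero, map_zero, zero_mul]
  have e : f = (f - f') + f' := by ring
  have hL : coeff n (pderiv S j (f.subst a)) = coeff n (pderiv S j (f'.subst a)) := by
    conv_lhs => rw [e]
    rw [subst_add hS, map_add, map_add, hl, zero_add]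
  have hR : coeff n (∑ i, (pderiv ℂ i f).subst a * pderiv S j (a i)) =
      coeff n (∑ i, (pderiv ℂ i f').subst a * pderiv S j (a i)) := by
    have h1 : ∀ i, (pderiv ℂ i f).subst a * pderiv S j (a i) =
        (pderiv ℂ i (f - f')).subst a * pderiv S j (a i) +
          (pderiv ℂ i f').subst a * pderiv S j (a i) := by
      intro i
      conv_lhs => rw [e]
      rw [map_add, subst_add hS, add_mul]
    rw [Finset.sum_congr rfl (fun i _ => h1 i), Finset.sum_add_distrib, map_add, hr, zero_add]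
  rw [hL, hR, hpoly]

end

end Pool.Agent.Lib.MP_2184e2_an.Loc
end

section
/-!
# MP_2184e2_an, local theorem: auxiliary lemmas on renaming of variables
-/
set_option autoImplicit false

namespace Pool.Agent.Lib.MP_2184e2_an.Loc

open MvPowerSeries

noncomputable section

namespace RenM

open ChnM

variable {σ τ : Type}

theorem subst_emb [Finite σ] (e : σ ↪ τ) (f : PS σ) :
    f.subst (fun s => (X (e s) : PS τ)) = rename e f := by
  rw [rename_eq_subst]
  rfl

theorem coeff_emb [Finite σ] (e : σ ↪ τ) (f : PS σ) (x : σ →₀ ℕ) :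
    coeff (Finsupp.embDomain e x) (f.subst (fun s => (X (e s) : PS τ))) = coeff x f := by
  rw [subst_emb, coeff_embDomain_rename]

theorem coeff_emb_zero [Finite σ] (e : σ ↪ τ) (f : PS σ) {n : τ →₀ ℕ}
    (h : ∀ x : σ →₀ ℕ, Finsupp.embDomain e x ≠ n) :
    coeff n (f.subst (fun s => (X (e s) : PS τ))) = 0 := by
  rw [subst_emb, coeff_rename_eq_zero]
  rintro ⟨x, hx⟩
  exact h x (by rw [Finsupp.embDomain_eq_mapDomain, hx])

theorem degree_emb (e : σ ↪ τ) (x : σ →₀ ℕ) : (Finsupp.embDomain e x).degree = x.degree := by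
  rw [Finsupp.embDomain_eq_mapDomain, Finsupp.degree_mapDomain]

theorem conv_emb [Finite σ] (e : σ ↪ τ) {f : PS σ} (hf : Conv f) :
    Conv (f.subst (fun s => (X (e s) : PS τ))) := by
  obtain ⟨C, hC, h⟩ := hf
  refine ⟨C, hC, fun n => ?_⟩
  by_cases hn : ∃ x : σ →₀ ℕ, Finsupp.embDomain e x = n
  · obtain ⟨x, rfl⟩ := hn
    rw [coeff_emb, degree_emb]
    exact h x
  · rw [coeff_emb_zero e f (fun x hx => hn ⟨x, hx⟩)]
    have : (0:ℝ) ≤ C ^ (n.degree + 1) := by positivity
    simpa using this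

theorem lin_eq {κ : Type} (f : PS κ) (i : κ) : lin f i = constantCoeff (pderiv ℂ i f) := by
  rw [← coeff_zero_eq_constantCoeff_apply, coeff_pderiv, zero_add]
  simp [lin]

theorem constantCoeff_subst_eq {κ ι : Type} [Finite κ] {a : κ → PS ι} (ha : ∀ i, Z0 (a i))
    (f : PS κ) : constantCoeff (f.subst a) = constantCoeff f := by
  have h : coeff 0 (f.subst a) = coeff 0 ((C (constantCoeff f) : PS κ).subst a) := by
    refine coeff_subst_congr ha fun d hd => ?_
    have hd0 : d = 0 := by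
      rw [map_zero] at hd
      exact (Finsupp.degree_eq_zero_iff d).1 (le_antisymm hd (Nat.zero_le _))
    subst hd0
    rw [coeff_zero_eq_constantCoeff_apply, coeff_zero_eq_constantCoeff_apply, constantCoeff_C]
  rw [subst_C, coeff_zero_eq_constantCoeff_apply, coeff_zero_eq_constantCoeff_apply,
    constantCoeff_C] at h
  exact h

/-- linear coefficients of a composition -/
theorem lin_subst {κ ι : Type} [Fintype κ] [Finite ι] {a : κ → PS ι} (ha : ∀ i, Z0 (a i))
    (f : PS κ) (j : ι) : lin (f.subst a) j = ∑ i, lin f i * lin (a i) j := by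
  rw [lin_eq, specCHN ℂ κ ι f a ha j, map_sum]
  refine Finset.sum_congr rfl fun i _ => ?_
  rw [map_mul, constantCoeff_subst_eq ha, ← lin_eq, ← lin_eq]

end RenM

end

end Pool.Agent.Lib.MP_2184e2_an.Loc
end

section
/-!
# MP_2184e2_an, local theorem: convergent implicit function theorem (modules IFT and INV)
-/
set_option autoImplicit false

namespace Pool.Agent.Lib.MP_2184e2_an.Loc

open MvPowerSeries

noncomputable section

namespace IftM

open ChnM RenM

theorem mapA_id {ι : Type} (f : PS ι) : mapA (AddMonoidHom.id ℂ) f = f := rfl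

theorem z0_elim {κ ρ ι : Type} {c : κ → PS ι} {u : ρ → PS ι} (hc : ∀ k, Z0 (c k))
    (hu : ∀ i, Z0 (u i)) : ∀ s, Z0 (Sum.elim c u s) := by
  rintro (k | i)
  · exact hc k
  · exact hu i

/-- the function whose fixed points are the zeros of `G` -/
def fn {κ : Type} {r : ℕ} (B : Matrix (Fin r) (Fin r) ℂ) (G : Fin r → PS (κ ⊕ Fin r)) :
    Fin r → PS (κ ⊕ Fin r) := fun i => X (Sum.inr i) - ∑ k, C (B i k) * G k

theorem subst_fn {κ T : Type} [Finite κ] {r : ℕ} (B : Matrix (Fin r) (Fin r) ℂ)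
    (G : Fin r → PS (κ ⊕ Fin r)) {c : κ → PS T} {u : Fin r → PS T} (hc : ∀ k, Z0 (c k))
    (hu : ∀ i, Z0 (u i)) (i : Fin r) :
    (fn B G i).subst (Sum.elim c u) = u i - ∑ k, C (B i k) * (G k).subst (Sum.elim c u) := by
  have hS : HasSubst (Sum.elim c u) := hs (z0_elim hc hu)
  rw [fn, subst_sub hS, subst_X hS, Sum.elim_inr]
  congr 1
  rw [← coe_substAlgHom hS, map_sum]
  refine Finset.sum_congr rfl fun k _ => ?_
  rw [map_mul, coe_substAlgHom, subst_C]

theorem fixed_iff {κ T : Type} [Finite κ] {r : ℕ} {A B : Matrix (Fin r) (Fin r) ℂ}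
    (hAB : A * B = 1)
    (G : Fin r → PS (κ ⊕ Fin r)) {c : κ → PS T} {u : Fin r → PS T} (hc : ∀ k, Z0 (c k))
    (hu : ∀ i, Z0 (u i)) :
    (∀ i, u i = (fn B G i).subst (Sum.elim c u)) ↔ ∀ i, (G i).subst (Sum.elim c u) = 0 := by
  constructor
  · intro h l
    have h1 : ∀ i, ∑ k, C (B i k) * (G k).subst (Sum.elim c u) = 0 := by
      intro i
      have h2 := h i
      rw [subst_fn B G hc hu i] at h2
      have h3 : u i - (u i - ∑ k, C (B i k) * (G k).subst (Sum.elim c u)) = 0 := by
        rw [← h2, sub_self]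
      rwa [sub_sub_cancel] at h3
    calc (G l).subst (Sum.elim c u)
        = ∑ k, C ((A * B) l k) * (G k).subst (Sum.elim c u) := by
          rw [hAB, Finset.sum_eq_single l]
          · rw [Matrix.one_apply_eq, map_one, one_mul]
          · intro k _ hk
            rw [Matrix.one_apply_ne hk.symm, map_zero, zero_mul]
          · intro h'
            exact absurd (Finset.mem_univ l) h'
      _ = ∑ k, ∑ i, C (A l i) * (C (B i k) * (G k).subst (Sum.elim c u)) := by
          refine Finset.sum_congr rfl fun k _ => ?_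
          rw [Matrix.mul_apply, map_sum, Finset.sum_mul]
          refine Finset.sum_congr rfl fun i _ => ?_
          rw [map_mul, mul_assoc]
      _ = ∑ i, C (A l i) * ∑ k, C (B i k) * (G k).subst (Sum.elim c u) := by
          rw [Finset.sum_comm]
          refine Finset.sum_congr rfl fun i _ => ?_
          rw [Finset.mul_sum]
      _ = 0 := by
          refine Finset.sum_eq_zero fun i _ => ?_
          rw [h1 i, mul_zero]
  · intro h i
    rw [subst_fn B G hc hu i]
    have : ∑ k, C (B i k) * (G k).subst (Sum.elim c u) = 0 := by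
      refine Finset.sum_eq_zero fun k _ => ?_
      rw [h k, mul_zero]
    rw [this, sub_zero]

/-- the implicit function theorem, formal and convergent -/
theorem formal (hF : SpecFIX) (hV : SpecCNV) {κ : Type} [Finite κ] {r : ℕ}
    (G : Fin r → PS (κ ⊕ Fin r)) (hG : ∀ i, Z0 (G i))
    (hdet : Matrix.det (Matrix.of fun i j => lin (G i) (Sum.inr j)) ≠ 0) :
    (∃ Ψ : Fin r → PS κ, (∀ i, Z0 (Ψ i)) ∧ ((∀ i, Conv (G i)) → ∀ i, Conv (Ψ i)) ∧
      (∀ i, (G i).subst (Sum.elim (fun k => (X k : PS κ)) Ψ) = 0)) ∧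
    ∀ (T : Type) [Finite T] (c : κ → PS T) (u u' : Fin r → PS T), (∀ k, Z0 (c k)) →
      (∀ i, Z0 (u i)) → (∀ i, Z0 (u' i)) → (∀ i, (G i).subst (Sum.elim c u) = 0) →
      (∀ i, (G i).subst (Sum.elim c u') = 0) → u = u' := by
  classical
  obtain ⟨hCl, hN⟩ := hV
  set A : Matrix (Fin r) (Fin r) ℂ := Matrix.of fun i j => lin (G i) (Sum.inr j) with hA
  have hunit : IsUnit A.det := isUnit_iff_ne_zero.2 hdet
  have hAB : A * A⁻¹ = 1 := Matrix.mul_nonsing_inv A hunit
  have hBA : A⁻¹ * A = 1 := Matrix.nonsing_inv_mul A hunit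
  have hT : ∀ s : ℂ, ‖(AddMonoidHom.id ℂ) s‖ ≤ 1 * ‖s‖ := fun s => by simp
  have hZ : ∀ i, Z0 (fn A⁻¹ G i) := by
    intro i
    unfold Z0 fn
    rw [map_sub, map_sum, constantCoeff_X]
    have : ∑ k, constantCoeff (C (A⁻¹ i k) * G k) = 0 := by
      refine Finset.sum_eq_zero fun k _ => ?_
      rw [map_mul, hG k, mul_zero]
    rw [this, sub_zero]
  have hL : ∀ i j, lin (fn A⁻¹ G i) (Sum.inr j) = 0 := by
    intro i j
    have h1 : lin (fn A⁻¹ G i) (Sum.inr j) =
        (1 : Matrix (Fin r) (Fin r) ℂ) i j - (A⁻¹ * A) i j := by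
      unfold lin fn
      rw [map_sub, map_sum, Matrix.mul_apply]
      congr 1
      · rw [coeff_X, Matrix.one_apply]
        by_cases h : i = j
        · subst h
          simp
        · rw [if_neg h, if_neg]
          intro h'
          have h2 := Finsupp.single_left_injective (one_ne_zero) h'
          exact h (Sum.inr_injective h2).symm
      · refine Finset.sum_congr rfl fun k _ => ?_
        rw [coeff_C_mul]
        rfl
    rw [h1, hBA, sub_self]
  refine ⟨?_, ?_⟩
  · obtain ⟨⟨y, hy0, hy1, hy2⟩, _⟩ := hF ℂ (fun c : ℂ => ‖c‖) hN (AddMonoidHom.id ℂ) 1 hT κ κ r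
      (fn A⁻¹ G) hZ hL (fun k => (X k : PS κ)) (fun k => by
        unfold Z0
        rw [constantCoeff_X])
    have hX0 : ∀ k, Z0 (X k : PS κ) := fun k => by
      unfold Z0
      rw [constantCoeff_X]
    refine ⟨y, hy0, ?_, ?_⟩
    · intro hc
      refine hy2 ?_ ?_
      · intro i
        unfold fn
        have hcl := hCl ℂ (fun c : ℂ => ‖c‖) hN (κ ⊕ Fin r)
        obtain ⟨ha, hC, hX, -⟩ := hcl
        refine (ha _ _ (hX _) ?_).2.2.2
        have hsum : ∀ s : Finset (Fin r), ConvN (fun c : ℂ => ‖c‖)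
            (∑ k ∈ s, C (A⁻¹ i k) * G k) := by
          intro s
          induction s using Finset.induction_on with
          | empty =>
            rw [Finset.sum_empty, ← map_zero C]
            exact hC 0
          | insert k s hk ih =>
            rw [Finset.sum_insert hk]
            exact (ha _ _ (ha _ _ (hC _) (hc k)).2.1 ih).1
        exact hsum Finset.univ
      · intro k
        exact (hCl ℂ (fun c : ℂ => ‖c‖) hN κ).2.2.1 k
    · exact (fixed_iff hAB G hX0 hy0).1 (fun i => by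
        have := hy1 i
        rwa [mapA_id] at this)
  · intro T _ c u u' hc hu hu' h h'
    have hfix := (hF ℂ (fun c : ℂ => ‖c‖) hN (AddMonoidHom.id ℂ) 1 hT κ T r
      (fn A⁻¹ G) hZ hL c hc).2
    refine hfix u u' hu hu' ?_ ?_
    · intro i
      rw [mapA_id]
      exact (fixed_iff hAB G hc hu).2 h i
    · intro i
      rw [mapA_id]
      exact (fixed_iff hAB G hc hu').2 h' i

theorem z0_X {κ : Type} (k : κ) : Z0 (X k : PS κ) := by
  unfold Z0
  rw [constantCoeff_X]

theorem z0_subst {κ T : Type} [Finite κ] {c : κ → PS T} (hc : ∀ k, Z0 (c k)) {f : PS κ}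
    (hf : Z0 f) : Z0 (f.subst c) := by
  unfold Z0
  rw [constantCoeff_subst_eq hc]
  exact hf

/-- composing a formal solution with a substitution -/
theorem subst_sol {κ T : Type} [Finite κ] {r : ℕ} {G : PS (κ ⊕ Fin r)} {Ψ : Fin r → PS κ}
    (hΨ : ∀ i, Z0 (Ψ i)) (h : G.subst (Sum.elim (fun k => (X k : PS κ)) Ψ) = 0)
    {c : κ → PS T} (hc : ∀ k, Z0 (c k)) :
    G.subst (Sum.elim c (fun i => (Ψ i).subst c)) = 0 := by
  have h1 : HasSubst (Sum.elim (fun k => (X k : PS κ)) Ψ) := hs (z0_elim z0_X hΨ)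
  have h2 : HasSubst c := hs hc
  have h3 := subst_comp_subst_apply h1 h2 G
  rw [h, ← coe_substAlgHom h2, map_zero, coe_substAlgHom] at h3
  rw [h3]
  congr 1
  funext s
  rcases s with k | i
  · simp only [Sum.elim_inl]
    rw [subst_X h2]
  · rfl

end IftM

open IftM ChnM RenM

theorem specIFT (hF : SpecFIX) (hV : SpecCNV) : SpecIFT := by
  intro κ _ r G hG hdet
  obtain ⟨⟨Ψ, h0, h1, h2⟩, h3⟩ := formal hF hV G (fun i => (hG i).2) hdet
  refine ⟨Ψ, fun i => ⟨h1 (fun i => (hG i).1) i, h0 i⟩, h2, ?_⟩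
  intro T _ c u hc hu h
  have h4 := h3 T c u (fun i => (Ψ i).subst c) hc hu (fun i => z0_subst hc (h0 i)) h
    (fun i => subst_sol h0 (h2 i) hc)
  intro i
  exact congrFun h4 i

theorem specINV (hF : SpecFIX) (hV : SpecCNV) : SpecINV := by
  intro κ _ _ a ha hdet
  set r := Fintype.card κ with hr
  set e : κ ≃ Fin r := Fintype.equivFin κ with he
  let emb : κ ↪ κ ⊕ Fin r := e.toEmbedding.trans Function.Embedding.inr
  let G : Fin r → PS (κ ⊕ Fin r) := fun i =>
    (a (e.symm i)).subst (fun k => (X (emb k) : PS (κ ⊕ Fin r))) - X (Sum.inl (e.symm i))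
  have hemb0 : ∀ k, Z0 (X (emb k) : PS (κ ⊕ Fin r)) := fun k => z0_X _
  have hG0 : ∀ i, Z0 (G i) := by
    intro i
    unfold Z0
    simp only [G]
    rw [map_sub, constantCoeff_X, constantCoeff_subst_eq hemb0, sub_zero]
    exact ha _
  -- substitution in `G`
  have hGs : ∀ (T : Type) (c : κ → PS T) (u : Fin r → PS T), (∀ k, Z0 (c k)) →
      (∀ i, Z0 (u i)) → ∀ i, (G i).subst (Sum.elim c u) =
        (a (e.symm i)).subst (fun k => u (e k)) - c (e.symm i) := by
    intro T c u hc hu i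
    have hS : HasSubst (Sum.elim c u) := hs (z0_elim hc hu)
    simp only [G]
    rw [subst_sub hS, subst_X hS, Sum.elim_inl, subst_comp_subst_apply (hs hemb0) hS]
    congr 2
    funext k
    rw [subst_X hS]
    rfl
  have hlin : ∀ i j, lin (G i) (Sum.inr j) = lin (a (e.symm i)) (e.symm j) := by
    intro i j
    have h1 : lin (G i) (Sum.inr j) = lin ((a (e.symm i)).subst
        (fun k => (X (emb k) : PS (κ ⊕ Fin r)))) (Sum.inr j) := by
      simp only [G]
      unfold lin
      rw [map_sub, coeff_X, if_neg, sub_zero]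
      intro h'
      have h2 := Finsupp.single_left_injective (one_ne_zero) h'
      exact absurd h2 (by simp)
    have h2 : (Finsupp.single (Sum.inr j) 1 : κ ⊕ Fin r →₀ ℕ) =
        Finsupp.embDomain emb (Finsupp.single (e.symm j) 1) := by
      rw [Finsupp.embDomain_single]
      simp [emb]
    rw [h1]
    unfold lin
    rw [h2, coeff_emb]
  have hdet' : Matrix.det (Matrix.of fun i j => lin (G i) (Sum.inr j)) ≠ 0 := by
    have h1 : (Matrix.of fun i j => lin (G i) (Sum.inr j)) =
        (Matrix.of fun i j => lin (a i) j).submatrix e.symm e.symm := by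
      ext i j
      simp only [Matrix.of_apply, Matrix.submatrix_apply]
      exact hlin i j
    rw [h1, Matrix.det_submatrix_equiv_self]
    exact hdet
  obtain ⟨⟨Ψ, h0, h1, h2⟩, h3⟩ := formal hF hV G hG0 hdet'
  have hΨ : ∀ i, (a (e.symm i)).subst (fun k => Ψ (e k)) = X (e.symm i) := by
    intro i
    have h4 := h2 i
    rw [hGs κ (fun k => X k) Ψ z0_X h0 i, sub_eq_zero] at h4
    exact h4
  refine ⟨fun k => Ψ (e k), fun i => h0 _, ?_, ?_, ?_⟩
  · intro i
    have h4 := hΨ (e i)
    rwa [Equiv.symm_apply_apply] at h4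
  · intro k
    have h4 := h3 κ a (fun i => (Ψ i).subst a) (fun i => X (e.symm i)) ha
      (fun i => z0_subst ha (h0 i)) (fun i => z0_X _) (fun i => subst_sol h0 (h2 i) ha) (by
        intro i
        rw [hGs κ a (fun i => X (e.symm i)) ha (fun i => z0_X _) i, sub_eq_zero]
        have h5 : (fun k => (X (e.symm (e k)) : PS κ)) = X := by
          funext k
          rw [Equiv.symm_apply_apply]
        rw [h5, subst_self]
        rfl)
    have h5 := congrFun h4 (e k)
    simp only [Equiv.symm_apply_apply] at h5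
    exact h5
  · intro hc k
    refine h1 (fun i => ?_) _
    have hcl := hV.1 ℂ (fun c : ℂ => ‖c‖) hV.2 (κ ⊕ Fin r)
    obtain ⟨hA, -, hX, -⟩ := hcl
    exact (hA _ _ (conv_emb emb (hc (e.symm i))) (hX (Sum.inl (e.symm i)))).2.2.2

end

end Pool.Agent.Lib.MP_2184e2_an.Loc
end

section
/-! # MP_2184e2_an, local theorem, module LSE -/
set_option autoImplicit false

namespace Pool.Agent.Lib.MP_2184e2_an.Loc

open MvPowerSeries Filter Topology
open scoped ContDiff LaurentPolynomial

theorem specLSE : SpecLSE := by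
  classical
  intro D _ _ n ι A hA
  let K := FractionRing D
  let B : ι → Fin n → K := fun i k => algebraMap D K (A i k)
  have hspan : Submodule.span K (Set.range B) = ⊤ := by
    by_contra hne
    obtain ⟨f, hf0, hf⟩ := Submodule.exists_le_ker_of_lt_top _ (lt_top_iff_ne_top.2 hne)
    -- f vanishes on all rows
    have hfB : ∀ i, f (B i) = 0 := fun i => hf (Submodule.subset_span ⟨i, rfl⟩)
    have hfx : ∀ x : Fin n → K, f x = ∑ k, x k * f (Pi.single k 1) := by
      intro x
      have h0 : x = ∑ k, x k • (Pi.single k (1 : K) : Fin n → K) := by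
        funext j
        rw [Finset.sum_apply]
        simp [Pi.single_apply]
      conv_lhs => rw [h0]
      rw [map_sum]
      exact Finset.sum_congr rfl fun k _ => by rw [map_smul, smul_eq_mul]
    obtain ⟨b, hb⟩ := IsLocalization.exist_integer_multiples_of_finite (nonZeroDivisors D)
      (fun k : Fin n => f (Pi.single k (1 : K)))
    choose W hW using hb
    have hWz : W = 0 := by
      apply hA
      intro i
      apply IsFractionRing.injective D K
      rw [map_sum, map_zero]
      have h1 := hfB i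
      rw [hfx] at h1
      have h2 : ∑ k, algebraMap D K (A i k * W k) = algebraMap D K (b : D) * ∑ k, B i k * f (Pi.single k 1) := by
        rw [Finset.mul_sum]
        refine Finset.sum_congr rfl fun k _ => ?_
        rw [map_mul, hW k, Algebra.smul_def]
        simp only [B]
        ring
      rw [h2, h1, mul_zero]
    apply hf0
    refine LinearMap.ext fun x => ?_
    rw [hfx, LinearMap.zero_apply]
    refine Finset.sum_eq_zero fun k _ => ?_
    have h3 : f (Pi.single k (1 : K)) = 0 := by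
      have h4 := hW k
      rw [hWz, Pi.zero_apply, map_zero, Algebra.smul_def] at h4
      rcases mul_eq_zero.1 h4.symm with h5 | h5
      · exfalso
        exact nonZeroDivisors.coe_ne_zero b ((IsFractionRing.injective D K) (by rw [h5, map_zero]))
      · exact h5
    rw [h3, mul_zero]
  obtain ⟨κ, a, -, ha, hli⟩ := exists_linearIndependent' K B
  have hb : Submodule.span K (Set.range (B ∘ a)) = ⊤ := ha.trans hspan
  let bas : Module.Basis κ K (Fin n → K) := Module.Basis.mk hli (by rw [hb])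
  have : Finite κ := Module.Finite.finite_basis bas
  let _ := Fintype.ofFinite κ
  have hcard : Fintype.card κ = n := by
    have h1 := Module.finrank_eq_card_basis bas
    rw [Module.finrank_fin_fun] at h1
    exact h1.symm
  let e : Fin n ≃ κ := (Fintype.equivFinOfCardEq hcard).symm
  refine ⟨fun i => a (e i), ?_⟩
  intro hdet
  have hli2 : LinearIndependent K (fun i : Fin n => B (a (e i))) := hli.comp e e.injective
  have hu : IsUnit (Matrix.of fun i k : Fin n => B (a (e i)) k) :=
    Matrix.linearIndependent_rows_iff_isUnit.1 hli2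
  rw [Matrix.isUnit_iff_isUnit_det] at hu
  apply hu.ne_zero
  have h6 : (Matrix.of fun i k : Fin n => B (a (e i)) k) =
      (algebraMap D K).mapMatrix (Matrix.of fun i k : Fin n => A (a (e i)) k) := by
    ext i k
    simp [B]
  rw [h6, ← RingHom.map_det, hdet, map_zero]

theorem specLDE (hLSE : SpecLSE) : SpecLDE := by
  classical
  intro D _ _ S n ι A hAS x hx hAx
  by_contra hcon
  push Not at hcon
  obtain ⟨s, hs⟩ := hLSE S n ι (fun i k => ⟨A i k, hAS i k⟩) (by
    intro W hW
    by_contra hW0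
    obtain ⟨i, hi⟩ := hcon (fun k => (W k : D)) (by
      intro h
      apply hW0
      funext k
      exact Subtype.ext (congrFun h k)) (fun k => (W k).2)
    apply hi
    have := congrArg (Subtype.val) (hW i)
    simpa using this)
  apply hx
  have hdet : (Matrix.of fun i k : Fin n => A (s i) k).det ≠ 0 := by
    intro h
    apply hs
    apply Subtype.val_injective
    have h6 : (Matrix.of fun i k : Fin n => A (s i) k) =
        S.subtype.mapMatrix (Matrix.of fun i k : Fin n => (⟨A (s i) k, hAS (s i) k⟩ : S)) := by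
      ext i k
      simp
    rw [h6, ← RingHom.map_det] at h
    simpa using h
  apply Matrix.eq_zero_of_mulVec_eq_zero hdet
  funext i
  simp only [Matrix.mulVec, dotProduct, Matrix.of_apply, Pi.zero_apply]
  exact hAx (s i)

end Pool.Agent.Lib.MP_2184e2_an.Loc
end

section
/-!
# MP_2184e2_an, local theorem: the ring `ℂ{x}[[s]]` (module SCR)
-/
set_option autoImplicit false

namespace Pool.Agent.Lib.MP_2184e2_an.Loc

open MvPowerSeries

noncomputable section

namespace ScrM

open ChnM RenM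

variable {ι ν : Type}

theorem coeff_part (a : ι →₀ ℕ) (b : ν →₀ ℕ) (f : PS (ι ⊕ ν)) :
    coeff a (part b f) = coeff (Finsupp.sumElim a b) f := rfl

theorem degree_sumElim (a : ι →₀ ℕ) (b : ν →₀ ℕ) :
    (Finsupp.sumElim a b).degree = a.degree + b.degree := by
  rw [Finsupp.sumElim_eq_add, map_add, Finsupp.degree_mapDomain, Finsupp.degree_mapDomain]

theorem exists_sumElim (n : ι ⊕ ν →₀ ℕ) : ∃ (a : ι →₀ ℕ) (b : ν →₀ ℕ), n = Finsupp.sumElim a b :=
  ⟨_, _, (Finsupp.comapDomain_sumElim_comapDomain n).symm⟩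

theorem part_ext {f g : PS (ι ⊕ ν)} (h : ∀ b, part b f = part b g) : f = g := by
  ext n
  obtain ⟨a, b, rfl⟩ := exists_sumElim n
  rw [← coeff_part, ← coeff_part, h b]

theorem part_add (b : ν →₀ ℕ) (f g : PS (ι ⊕ ν)) : part b (f + g) = part b f + part b g := by
  ext a
  rw [coeff_part, map_add, map_add]
  rfl

theorem part_sub (b : ν →₀ ℕ) (f g : PS (ι ⊕ ν)) : part b (f - g) = part b f - part b g := by
  ext a
  rw [coeff_part, map_sub, map_sub]
  rfl

theorem part_neg (b : ν →₀ ℕ) (f : PS (ι ⊕ ν)) : part b (-f) = -part b f := by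
  ext a
  rw [coeff_part, map_neg, map_neg]
  rfl

theorem part_zero (b : ν →₀ ℕ) : part b (0 : PS (ι ⊕ ν)) = 0 := by
  ext a
  rw [coeff_part, map_zero, map_zero]

theorem part_mul [DecidableEq ι] [DecidableEq ν] (b : ν →₀ ℕ) (f g : PS (ι ⊕ ν)) :
    part b (f * g) =
      ∑ p ∈ Finset.HasAntidiagonal.antidiagonal b, part p.1 f * part p.2 g := by
  ext a
  rw [coeff_part, coeff_mul, map_sum, ← Finsupp.image_sumElim_product_antidiagonal,
    Finset.sum_image, Finset.sum_product, Finset.sum_comm]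
  · refine Finset.sum_congr rfl fun p _ => ?_
    rw [coeff_mul]
    rfl
  · rintro ⟨⟨x, y⟩, ⟨z, w⟩⟩ _ ⟨⟨x', y'⟩, ⟨z', w'⟩⟩ _ h
    simp only [Prod.mk.injEq] at h
    obtain ⟨h1, h2⟩ := h
    have e1 := congrArg (fun c => Finsupp.comapDomain Sum.inl c Sum.inl_injective.injOn) h1
    have e2 := congrArg (fun c => Finsupp.comapDomain Sum.inr c Sum.inr_injective.injOn) h1
    have e3 := congrArg (fun c => Finsupp.comapDomain Sum.inl c Sum.inl_injective.injOn) h2
    have e4 := congrArg (fun c => Finsupp.comapDomain Sum.inr c Sum.inr_injective.injOn) h2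
    simp only [Finsupp.comapDomain_inl_sumElim, Finsupp.comapDomain_inr_sumElim] at e1 e2 e3 e4
    rw [e1, e2, e3, e4]

theorem part_pderiv_inl (b : ν →₀ ℕ) (f : PS (ι ⊕ ν)) (i : ι) :
    part b (pderiv ℂ (Sum.inl i) f) = pderiv ℂ i (part b f) := by
  ext a
  rw [coeff_part, coeff_pderiv, coeff_pderiv, coeff_part]
  have h : Finsupp.sumElim a b + Finsupp.single (Sum.inl i) 1 =
      Finsupp.sumElim (a + Finsupp.single i 1) b := by
    rw [← Finsupp.sumElim_single_zero, ← Finsupp.sumElim_add, add_zero]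
  rw [h]
  rfl

theorem part_pderiv_inr (b : ν →₀ ℕ) (f : PS (ι ⊕ ν)) (j : ν) :
    part b (pderiv ℂ (Sum.inr j) f) = C ((b j : ℂ) + 1) * part (b + Finsupp.single j 1) f := by
  ext a
  rw [coeff_part, coeff_pderiv, coeff_C_mul, coeff_part]
  have h : Finsupp.sumElim a b + Finsupp.single (Sum.inr j) 1 =
      Finsupp.sumElim a (b + Finsupp.single j 1) := by
    rw [← Finsupp.sumElim_zero_single, ← Finsupp.sumElim_add, add_zero]
  rw [h, mul_comm]
  rfl

theorem part_C [DecidableEq ν] (b : ν →₀ ℕ) (c : ℂ) :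
    part b (C c : PS (ι ⊕ ν)) = if b = 0 then C c else 0 := by
  classical
  ext a
  rw [coeff_part, coeff_C]
  by_cases hb : b = 0
  · subst hb
    rw [if_pos rfl, coeff_C]
    by_cases ha : a = 0
    · subst ha
      rw [if_pos rfl, if_pos (Finsupp.sumElim_zero_zero)]
    · rw [if_neg ha, if_neg]
      intro h
      have e1 := congrArg (fun c => Finsupp.comapDomain Sum.inl c Sum.inl_injective.injOn) h
      simp only [Finsupp.comapDomain_inl_sumElim] at e1
      exact ha (by rw [e1]; ext x; rfl)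
  · rw [if_neg hb, map_zero, if_neg]
    intro h
    have e1 := congrArg (fun c => Finsupp.comapDomain Sum.inr c Sum.inr_injective.injOn) h
    simp only [Finsupp.comapDomain_inr_sumElim] at e1
    exact hb (by rw [e1]; ext x; rfl)

theorem part_iL [Finite ι] [DecidableEq ν] (b : ν →₀ ℕ) (f : PS ι) :
    part b (f.subst (iL : ι → PS (ι ⊕ ν))) = if b = 0 then f else 0 := by
  ext a
  rw [coeff_part]
  by_cases hb : b = 0
  · subst hb
    rw [if_pos rfl, ← Finsupp.embDomain_inl]
    exact coeff_emb (Function.Embedding.inl : ι ↪ ι ⊕ ν) f a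
  · rw [if_neg hb, map_zero]
    refine coeff_emb_zero (Function.Embedding.inl : ι ↪ ι ⊕ ν) f (fun x h => hb ?_)
    rw [Finsupp.embDomain_inl] at h
    have e1 := congrArg (fun c => Finsupp.comapDomain Sum.inr c Sum.inr_injective.injOn) h
    simp only [Finsupp.comapDomain_inr_sumElim] at e1
    exact e1.symm

theorem part_iR [Finite ν] (b : ν →₀ ℕ) (f : PS ν) :
    part b (f.subst (iR : ν → PS (ι ⊕ ν))) = C (coeff b f) := by
  classical
  ext a
  rw [coeff_part, coeff_C]
  by_cases ha : a = 0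
  · subst ha
    rw [if_pos rfl, ← Finsupp.embDomain_inr]
    exact coeff_emb (Function.Embedding.inr : ν ↪ ι ⊕ ν) f b
  · rw [if_neg ha]
    refine coeff_emb_zero (Function.Embedding.inr : ν ↪ ι ⊕ ν) f (fun x h => ha ?_)
    rw [Finsupp.embDomain_inr] at h
    have e1 := congrArg (fun c => Finsupp.comapDomain Sum.inl c Sum.inl_injective.injOn) h
    simp only [Finsupp.comapDomain_inl_sumElim] at e1
    exact e1.symm

theorem coeff_trS (J : ℕ) (f : PS (ι ⊕ ν)) (a : ι →₀ ℕ) (b : ν →₀ ℕ) :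
    coeff (Finsupp.sumElim a b) (trS J f) =
      if b.degree ≤ J then coeff (Finsupp.sumElim a b) f else 0 := by
  have h : coeff (Finsupp.sumElim a b) (trS J f) =
      if ((Finsupp.sumElim a b).comapDomain Sum.inr Sum.inr_injective.injOn).degree ≤ J then
        coeff (Finsupp.sumElim a b) f else 0 := rfl
  rw [h, Finsupp.comapDomain_inr_sumElim]

theorem part_trS {J : ℕ} (f : PS (ι ⊕ ν)) {b : ν →₀ ℕ} (h : b.degree ≤ J) :
    part b (trS J f) = part b f := by
  ext a
  rw [coeff_part, coeff_trS, if_pos h, coeff_part]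

theorem part_trS_zero {J : ℕ} (f : PS (ι ⊕ ν)) {b : ν →₀ ℕ} (h : J < b.degree) :
    part b (trS J f) = 0 := by
  ext a
  rw [coeff_part, coeff_trS, if_neg (not_le.2 h), map_zero]

theorem sc_of_conv {f : PS (ι ⊕ ν)} (hf : Conv f) : SC f := by
  obtain ⟨C, hC, h⟩ := hf
  intro b
  set D : ℝ := max C 1 with hD
  have hD1 : 1 ≤ D := le_max_right _ _
  refine ⟨D ^ (b.degree + 1), by positivity, fun a => ?_⟩
  have h1 := h (Finsupp.sumElim a b)
  rw [degree_sumElim] at h1
  rw [coeff_part]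
  refine h1.trans ?_
  calc C ^ (a.degree + b.degree + 1) ≤ D ^ (a.degree + b.degree + 1) :=
        pow_le_pow_left₀ hC.le (le_max_left _ _) _
    _ ≤ D ^ ((b.degree + 1) * (a.degree + 1)) := by
        refine pow_le_pow_right₀ hD1 ?_
        nlinarith [Nat.zero_le (b.degree * a.degree)]
    _ = (D ^ (b.degree + 1)) ^ (a.degree + 1) := by rw [pow_mul]

theorem conv_trS [Finite ν] {f : PS (ι ⊕ ν)} (hf : SC f) (J : ℕ) : Conv (trS J f) := by
  classical
  choose C hC h using hf
  have hfin := Finsupp.finite_of_degree_le (σ := ν) J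
  set D : ℝ := 1 + ∑ b ∈ hfin.toFinset, C b with hD
  have hD1 : 1 ≤ D := by
    have : 0 ≤ ∑ b ∈ hfin.toFinset, C b := Finset.sum_nonneg fun b _ => (hC b).le
    linarith
  have hDb : ∀ b : ν →₀ ℕ, b.degree ≤ J → C b ≤ D := by
    intro b hb
    have : C b ≤ ∑ b ∈ hfin.toFinset, C b :=
      Finset.single_le_sum (f := C) (fun b _ => (hC b).le) (hfin.mem_toFinset.2 hb)
    linarith
  refine ⟨D, by linarith, fun n => ?_⟩
  obtain ⟨a, b, rfl⟩ := exists_sumElim n
  rw [coeff_trS]
  split_ifs with hb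
  · refine (h b a).trans ?_
    calc C b ^ (a.degree + 1) ≤ D ^ (a.degree + 1) := pow_le_pow_left₀ (hC b).le (hDb b hb) _
      _ ≤ D ^ ((Finsupp.sumElim a b).degree + 1) := by
          refine pow_le_pow_right₀ hD1 ?_
          rw [degree_sumElim]
          omega
  · have : (0:ℝ) ≤ D ^ ((Finsupp.sumElim a b).degree + 1) := by positivity
    simpa using this

theorem sc_iff [Finite ν] (f : PS (ι ⊕ ν)) : SC f ↔ ∀ J, Conv (trS J f) := by
  refine ⟨fun h J => conv_trS h J, fun h b => ?_⟩
  have h1 := sc_of_conv (h b.degree) b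
  rwa [part_trS f le_rfl] at h1

end ScrM

open ScrM

theorem specSCR (hV : SpecCNV) : SpecSCR := by
  intro ι ν _ _
  classical
  have hcl := hV.1 ℂ (fun c : ℂ => ‖c‖) hV.2 ι
  obtain ⟨hA, hC, hX, hD⟩ := hcl
  have hC' : ∀ c : ℂ, Conv (C c : PS ι) := hC
  have h0 : Conv (0 : PS ι) := by
    have := hC' 0
    rwa [map_zero] at this
  have hCC : ∀ c : ℂ, SC (C c : PS (ι ⊕ ν)) := by
    intro c b
    rw [part_C]
    split_ifs
    · exact hC' c
    · exact h0
  have hiL : ∀ f : PS ι, Conv f → SC (f.subst (iL : ι → PS (ι ⊕ ν))) := by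
    intro f hf b
    rw [part_iL]
    split_ifs
    · exact hf
    · exact h0
  have hiR : ∀ f : PS ν, SC (f.subst (iR : ν → PS (ι ⊕ ν))) := by
    intro f b
    rw [part_iR]
    exact hC' _
  refine ⟨?_, hCC, ?_, ?_, ?_, ?_, fun f hf => sc_of_conv hf, hiL, hiR, fun f => sc_iff f,
    fun f J b hb => part_trS f hb, fun f g h => part_ext h⟩
  · intro f g hf hg
    refine ⟨?_, ?_, ?_, ?_⟩
    · intro b
      rw [part_add]
      exact (hA _ _ (hf b) (hg b)).1
    · intro b
      rw [part_mul]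
      have hsum : ∀ s : Finset ((ν →₀ ℕ) × (ν →₀ ℕ)),
          Conv (∑ p ∈ s, part p.1 f * part p.2 g) := by
        intro s
        induction s using Finset.induction_on with
        | empty =>
          rw [Finset.sum_empty]
          exact h0
        | insert p s hp ih =>
          rw [Finset.sum_insert hp]
          exact (hA _ _ (hA _ _ (hf p.1) (hg p.2)).2.1 ih).1
      exact hsum _
    · intro b
      rw [part_neg]
      exact (hA _ _ (hf b) (hg b)).2.2.1
    · intro b
      rw [part_sub]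
      exact (hA _ _ (hf b) (hg b)).2.2.2
  · have := hCC 0
    rwa [map_zero] at this
  · have := hCC 1
    rwa [map_one] at this
  · rintro (i | j)
    · have h1 := hiL (X i) (hX i)
      have h2 : (X i : PS ι).subst (iL : ι → PS (ι ⊕ ν)) = X (Sum.inl i) :=
        subst_X (ChnM.hs (fun i => by unfold Z0 iL; rw [constantCoeff_X])) i
      rwa [h2] at h1
    · have h1 := hiR (X j)
      have h2 : (X j : PS ν).subst (iR : ν → PS (ι ⊕ ν)) = X (Sum.inr j) :=
        subst_X (ChnM.hs (fun i => by unfold Z0 iR; rw [constantCoeff_X])) j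
      rwa [h2] at h1
  · rintro f (i | j) hf b
    · rw [part_pderiv_inl]
      exact hD _ _ (hf b)
    · rw [part_pderiv_inr]
      exact (hA _ _ (hC' _) (hf _)).2.1

end

end Pool.Agent.Lib.MP_2184e2_an.Loc
end

section
/-!
# MP_2184e2_an, local theorem: substitution in `ℂ{x}[[s]]` (module SCS)
-/
set_option autoImplicit false

namespace Pool.Agent.Lib.MP_2184e2_an.Loc

open MvPowerSeries

noncomputable section

namespace ScsM

open ChnM RenM ScrM

variable {ι ν κ μ : Type}

/-- the series whose parts of order `≤ J` vanish -/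
def idl (κ μ : Type) (J : ℕ) : Ideal (PS (κ ⊕ μ)) where
  carrier := {f | ∀ b : μ →₀ ℕ, b.degree ≤ J → part b f = 0}
  zero_mem' := fun b _ => part_zero b
  add_mem' := by
    intro f g hf hg b hb
    rw [part_add, hf b hb, hg b hb, add_zero]
  smul_mem' := by
    classical
    intro g f hf b hb
    rw [smul_eq_mul, part_mul]
    refine Finset.sum_eq_zero fun p hp => ?_
    have hp' : p.1 + p.2 = b := Finset.HasAntidiagonal.mem_antidiagonal.1 hp
    have hdeg : p.2.degree ≤ J := by
      have : p.1.degree + p.2.degree = b.degree := by rw [← map_add, hp']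
      omega
    rw [hf p.2 hdeg, mul_zero]

theorem mem_idl {J : ℕ} {f : PS (κ ⊕ μ)} :
    f ∈ idl κ μ J ↔ ∀ b : μ →₀ ℕ, b.degree ≤ J → part b f = 0 := Iff.rfl

theorem sub_trS_mem (J : ℕ) (f : PS (κ ⊕ μ)) : f - trS J f ∈ idl κ μ J := by
  intro b hb
  rw [part_sub, part_trS f hb, sub_self]

/-- a polynomial evaluated at congruent families -/
theorem aeval_congr {σ : Type} {J : ℕ} {e e' : σ → PS (κ ⊕ μ)}
    (h : ∀ i, e i - e' i ∈ idl κ μ J) (p : MvPolynomial σ ℂ) :
    MvPolynomial.aeval e p - MvPolynomial.aeval e' p ∈ idl κ μ J := by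
  induction p using MvPolynomial.induction_on with
  | C c =>
    rw [MvPolynomial.aeval_C, MvPolynomial.aeval_C, sub_self]
    exact (idl κ μ J).zero_mem
  | add p q hp hq =>
    rw [map_add, map_add, add_sub_add_comm]
    exact (idl κ μ J).add_mem hp hq
  | mul_X p k hp =>
    rw [map_mul, map_mul, MvPolynomial.aeval_X, MvPolynomial.aeval_X]
    have : MvPolynomial.aeval e p * e k - MvPolynomial.aeval e' p * e' k =
        e k * (MvPolynomial.aeval e p - MvPolynomial.aeval e' p) +
          MvPolynomial.aeval e' p * (e k - e' k) := by ring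
    rw [this]
    exact (idl κ μ J).add_mem ((idl κ μ J).mul_mem_left _ hp) ((idl κ μ J).mul_mem_left _ (h k))

/-- a power series evaluated at congruent families -/
theorem subst_congr {σ : Type} [Finite σ] {J : ℕ} {e e' : σ → PS (κ ⊕ μ)}
    (h0 : ∀ i, Z0 (e i)) (h0' : ∀ i, Z0 (e' i))
    (h : ∀ i, e i - e' i ∈ idl κ μ J) (G : PS σ) :
    G.subst e - G.subst e' ∈ idl κ μ J := by
  intro b hb
  ext a
  rw [coeff_part, map_sub, map_zero]
  set n : κ ⊕ μ →₀ ℕ := Finsupp.sumElim a b with hn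
  set p : MvPolynomial σ ℂ := G.truncTotal (n.degree + 1) with hp
  have hG : ∀ d : σ →₀ ℕ, d.degree ≤ n.degree → coeff d G = coeff d (p : PS σ) := by
    intro d hd
    rw [hp, MvPolynomial.coeff_coe, coeff_truncTotal _ (by omega)]
  rw [coeff_subst_congr h0 hG, coeff_subst_congr h0' hG, subst_coe, subst_coe, ← map_sub]
  have h1 := aeval_congr h p b hb
  have h2 : coeff n (MvPolynomial.aeval e p - MvPolynomial.aeval e' p) =
      coeff a (part b (MvPolynomial.aeval e p - MvPolynomial.aeval e' p)) := rfl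
  rw [h2, h1, map_zero]

/-- weights: the degree in the second group of variables -/
def wt (κ μ : Type) : κ ⊕ μ → ℕ := Sum.elim (fun _ => 0) (fun _ => 1)

theorem weight_wt (a : κ →₀ ℕ) (b : μ →₀ ℕ) :
    Finsupp.weight (wt κ μ) (Finsupp.sumElim a b) = b.degree := by
  rw [Finsupp.weight_apply, Finsupp.sum_sumElim, Finsupp.degree_apply]
  simp [wt, Finsupp.sum]

theorem mem_idl_iff {J : ℕ} {f : PS (κ ⊕ μ)} :
    f ∈ idl κ μ J ↔ ((J + 1 : ℕ) : ℕ∞) ≤ f.weightedOrder (wt κ μ) := by
  constructor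
  · intro h
    refine nat_le_weightedOrder _ fun n hn => ?_
    obtain ⟨a, b, rfl⟩ := exists_sumElim n
    rw [weight_wt] at hn
    rw [← coeff_part, h b (by omega), map_zero]
  · intro h b hb
    ext a
    rw [coeff_part, map_zero]
    refine coeff_eq_zero_of_lt_weightedOrder (wt κ μ) (lt_of_lt_of_le ?_ h)
    rw [weight_wt]
    exact_mod_cast Nat.lt_succ_of_le hb

/-- if all monomials of `F` have degree `> J` in the second group of variables, and the second
group of series has no part of order `0`, then `F(a, b)` has no part of order `≤ J` -/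
theorem subst_mem [Finite ι] [Finite ν] {J : ℕ} {F : PS (ι ⊕ ν)} {a : ι → PS (κ ⊕ μ)}
    {b : ν → PS (κ ⊕ μ)} (h0 : ∀ i, Z0 (Sum.elim a b i)) (hb : ∀ j, part 0 (b j) = 0)
    (hF : F ∈ idl ι ν J) : F.subst (Sum.elim a b) ∈ idl κ μ J := by
  rw [mem_idl_iff]
  refine le_trans ?_ (le_weightedOrder_subst (wt κ μ) (hs h0) F)
  refine le_iInf fun d => le_iInf fun hd => ?_
  obtain ⟨α, β, rfl⟩ := exists_sumElim d
  have hβ : J + 1 ≤ β.degree := by
    by_contra hcon
    refine hd ?_
    rw [← coeff_part, hF β (by omega), map_zero]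
  have h1 : ∀ j, (1 : ℕ∞) ≤ (b j).weightedOrder (wt κ μ) := by
    intro j
    have h2 : b j ∈ idl κ μ 0 := by
      intro c hc
      have hc0 : c = 0 := (Finsupp.degree_eq_zero_iff c).1 (Nat.le_zero.1 hc)
      rw [hc0]
      exact hb j
    have h3 := mem_idl_iff.1 h2
    simpa using h3
  rw [Finsupp.weight_apply, Finsupp.sum_sumElim]
  refine le_trans ?_ (le_add_left (le_refl _))
  calc ((J + 1 : ℕ) : ℕ∞) ≤ ((β.degree : ℕ) : ℕ∞) := by exact_mod_cast hβ
    _ = ∑ j ∈ β.support, ((β j : ℕ) : ℕ∞) := by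
        rw [Finsupp.degree_apply, Nat.cast_sum]
    _ ≤ ∑ j ∈ β.support, β j • (b j).weightedOrder (wt κ μ) := by
        refine Finset.sum_le_sum fun j _ => ?_
        rw [nsmul_eq_mul]
        calc ((β j : ℕ) : ℕ∞) = ((β j : ℕ) : ℕ∞) * 1 := (mul_one _).symm
          _ ≤ _ := mul_le_mul_right (h1 j) _
    _ = _ := rfl

theorem z0_trS {J : ℕ} {f : PS (κ ⊕ μ)} (h : Z0 f) : Z0 (trS J f) := by
  unfold Z0
  rw [← coeff_zero_eq_constantCoeff_apply, ← Finsupp.sumElim_zero_zero, coeff_trS,
    Finsupp.sumElim_zero_zero, coeff_zero_eq_constantCoeff_apply, h, ite_self]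

theorem z0_of_part {f : PS (κ ⊕ μ)} (h : part 0 f = 0) : Z0 f := by
  unfold Z0
  rw [← coeff_zero_eq_constantCoeff_apply, ← Finsupp.sumElim_zero_zero, ← coeff_part, h, map_zero]

theorem main (hS : SpecCNS) (hV : SpecCNV) [Finite ι] [Finite ν] [Finite κ] [Finite μ]
    {F : PS (ι ⊕ ν)} {a : ι → PS (κ ⊕ μ)} {b : ν → PS (κ ⊕ μ)} (hF : SC F)
    (ha : ∀ i, SC (a i) ∧ Z0 (a i)) (hb : ∀ j, SC (b j) ∧ part 0 (b j) = 0) :
    SC (F.subst (Sum.elim a b)) := by
  have h0 : ∀ i, Z0 (Sum.elim a b i) := by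
    rintro (i | j)
    · exact (ha i).2
    · exact z0_of_part (hb j).2
  have hsc : ∀ i, SC (Sum.elim a b i) := by
    rintro (i | j)
    · exact (ha i).1
    · exact (hb j).1
  intro β
  set J := β.degree with hJ
  have h1 : part β (F.subst (Sum.elim a b)) = part β ((trS J F).subst (Sum.elim a b)) := by
    have h2 := subst_mem h0 (fun j => (hb j).2) (sub_trS_mem J F) β le_rfl
    rw [subst_sub (hs h0), part_sub, sub_eq_zero] at h2
    exact h2
  have h0' : ∀ i, Z0 (trS J (Sum.elim a b i)) := fun i => z0_trS (h0 i)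
  have h3 : part β ((trS J F).subst (Sum.elim a b)) =
      part β ((trS J F).subst (fun i => trS J (Sum.elim a b i))) := by
    have h4 := subst_congr (J := J) h0 h0' (fun i => sub_trS_mem J (Sum.elim a b i)) (trS J F) β
      le_rfl
    rw [part_sub, sub_eq_zero] at h4
    exact h4
  rw [h1, h3]
  refine sc_of_conv ?_ β
  exact hS ℂ (fun c : ℂ => ‖c‖) hV.2 (ι ⊕ ν) (κ ⊕ μ) (trS J F)
    (fun i => trS J (Sum.elim a b i)) (conv_trS hF J) (fun i => ⟨conv_trS (hsc i) J, h0' i⟩)

end ScsM

open ScsM ScrM ChnM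

theorem specSCS (hR : SpecSCR) (hS : SpecCNS) (hV : SpecCNV) : SpecSCS := by
  refine ⟨?_, ?_, ?_⟩
  · intro ι ν κ μ _ _ _ _ F a b hF ha hb
    exact main hS hV hF ha hb
  · intro ι κ μ _ _ _ F a hF ha
    obtain ⟨-, -, -, -, -, -, -, hL, -⟩ := hR ι Empty
    have h1 : F.subst a = (F.subst (iL : ι → PS (ι ⊕ Empty))).subst
        (Sum.elim a (fun x : Empty => (x.elim : PS (κ ⊕ μ)))) := by
      have hS1 : HasSubst (iL : ι → PS (ι ⊕ Empty)) :=
        ChnM.hs (fun i => by unfold Z0 iL; rw [constantCoeff_X])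
      have hS2 : HasSubst (Sum.elim a (fun x : Empty => (x.elim : PS (κ ⊕ μ)))) :=
        ChnM.hs (fun i => by
          rcases i with i | x
          · exact (ha i).2
          · exact x.elim)
      rw [subst_comp_subst_apply hS1 hS2]
      congr 1
      funext i
      unfold iL
      rw [subst_X hS2, Sum.elim_inl]
    rw [h1]
    exact main hS hV (hL F hF) ha (fun x => x.elim)
  · intro ν κ μ _ _ _ F b hb
    obtain ⟨-, -, -, -, -, -, -, -, hRR, -⟩ := hR Empty ν
    have h1 : F.subst b = (F.subst (iR : ν → PS (Empty ⊕ ν))).subst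
        (Sum.elim (fun x : Empty => (x.elim : PS (κ ⊕ μ))) b) := by
      have hS1 : HasSubst (iR : ν → PS (Empty ⊕ ν)) :=
        ChnM.hs (fun i => by unfold Z0 iR; rw [constantCoeff_X])
      have hS2 : HasSubst (Sum.elim (fun x : Empty => (x.elim : PS (κ ⊕ μ))) b) :=
        ChnM.hs (fun i => by
          rcases i with x | i
          · exact x.elim
          · exact z0_of_part (hb i).2)
      rw [subst_comp_subst_apply hS1 hS2]
      congr 1
      funext i
      unfold iR
      rw [subst_X hS2, Sum.elim_inr]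
    rw [h1]
    exact main hS hV (hRR F) (fun x => x.elim) hb

end

end Pool.Agent.Lib.MP_2184e2_an.Loc
end

section
/-!
# MP_2184e2_an, local theorem: [TAYM] Taylor expansion and algebraic operations
-/
set_option autoImplicit false

namespace Pool.Agent.Lib.MP_2184e2_an.Loc

open MvPowerSeries Filter Topology Set
open scoped ContDiff LaurentPolynomial ComplexConjugate

noncomputable section

namespace TaymM

variable {κ : Type} [Fintype κ] [DecidableEq κ]

theorem smooth_pd {g : (κ → ℝ) → ℂ} {x : κ → ℝ} (hg : ContDiffAt ℝ ∞ g x) (k : κ) :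
    ContDiffAt ℝ ∞ (pd g k) x :=
  (hg.fderiv_right (m := ∞) (by simp)).clm_apply contDiffAt_const

theorem pd_congr {g h : (κ → ℝ) → ℂ} {x : κ → ℝ} (e : g =ᶠ[𝓝 x] h) (k : κ) :
    pd g k =ᶠ[𝓝 x] pd h k := by
  filter_upwards [e.fderiv (𝕜 := ℝ)] with y hy
  simp only [pd, hy]

theorem ev_diff {E : Type} [NormedAddCommGroup E] [NormedSpace ℝ E] {g : (κ → ℝ) → E}
    (hg : ContDiffAt ℝ ∞ g 0) : ∀ᶠ x in 𝓝 (0 : κ → ℝ), DifferentiableAt ℝ g x := by
  have h1 : ContDiffAt ℝ 1 g 0 := hg.of_le (by exact_mod_cast le_top)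
  filter_upwards [h1.eventually (by simp)] with x hx
  exact hx.differentiableAt (by simp)

theorem pd_add {g h : (κ → ℝ) → ℂ} (hg : ContDiffAt ℝ ∞ g 0) (hh : ContDiffAt ℝ ∞ h 0) (k : κ) :
    pd (fun x => g x + h x) k =ᶠ[𝓝 0] fun x => pd g k x + pd h k x := by
  filter_upwards [ev_diff hg, ev_diff hh] with x h1 h2
  simp only [pd]
  rw [fderiv_fun_add h1 h2]
  rfl

theorem pd_mul {g h : (κ → ℝ) → ℂ} (hg : ContDiffAt ℝ ∞ g 0) (hh : ContDiffAt ℝ ∞ h 0) (k : κ) :
    pd (fun x => g x * h x) k =ᶠ[𝓝 0] fun x => pd g k x * h x + g x * pd h k x := by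
  filter_upwards [ev_diff hg, ev_diff hh] with x h1 h2
  simp only [pd]
  rw [fderiv_fun_mul h1 h2]
  simp only [add_apply, smul_apply, smul_eq_mul]
  ring

theorem pd_const (c : ℂ) (k : κ) : pd (fun _ : κ → ℝ => c) k = fun _ => 0 := by
  funext x
  simp [pd]

/-- the uniqueness principle -/
theorem principle {T : ((κ → ℝ) → ℂ) → PS κ} (hT : IsTay T)
    (Φ : ((κ → ℝ) → ℂ) → PS κ → Prop)
    (h1 : ∀ g G, Φ g G → ContDiffAt ℝ ∞ g 0)
    (h2 : ∀ g G, Φ g G → constantCoeff G = g 0)
    (h3 : ∀ g G, Φ g G → ∀ k, ∀ n : ℕ, (∀ g' G', Φ g' G' → ∀ α : κ →₀ ℕ, α.degree = n →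
      coeff α (T g') = coeff α G') → ∀ α : κ →₀ ℕ, α.degree = n →
      coeff α (T (pd g k)) = coeff α (pderiv ℂ k G)) :
    ∀ g G, Φ g G → T g = G := by
  have key : ∀ n : ℕ, ∀ g G, Φ g G → ∀ α : κ →₀ ℕ, α.degree = n → coeff α (T g) = coeff α G := by
    intro n
    induction n with
    | zero =>
      intro g G hg α hα
      have : α = 0 := by
        rwa [Finsupp.degree_eq_zero_iff] at hα
      subst this
      rw [coeff_zero_eq_constantCoeff_apply, coeff_zero_eq_constantCoeff_apply, h2 g G hg,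
        hT.zero g (h1 g G hg)]
    | succ n ih =>
      intro g G hg α hα
      have hne : α ≠ 0 := by
        rintro rfl
        simp at hα
      obtain ⟨k, hk⟩ := Finsupp.ne_iff.1 hne
      simp only [Finsupp.coe_zero, Pi.zero_apply] at hk
      obtain ⟨β, hβ⟩ : ∃ β, α = β + Finsupp.single k 1 := by
        refine ⟨α - Finsupp.single k 1, ?_⟩
        rw [tsub_add_cancel_of_le]
        rw [Finsupp.single_le_iff]
        omega
      have hd : β.degree = n := by
        rw [hβ, map_add, Finsupp.degree_single] at hα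
        omega
      have h4 := h3 g G hg k n ih β hd
      rw [hT.der g (h1 g G hg), coeff_pderiv, coeff_pderiv, ← hβ] at h4
      have h5 : ((β k : ℂ) + 1) ≠ 0 := by exact_mod_cast Nat.succ_ne_zero (β k)
      exact mul_right_cancel₀ h5 h4
  intro g G hg
  ext α
  exact key _ g G hg α rfl

section

variable {T : ((κ → ℝ) → ℂ) → PS κ} (hT : IsTay T)

include hT

theorem T_add {g h : (κ → ℝ) → ℂ} (hg : ContDiffAt ℝ ∞ g 0) (hh : ContDiffAt ℝ ∞ h 0) :
    T (fun x => g x + h x) = T g + T h := by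
  refine principle hT (fun f F => ∃ g h : (κ → ℝ) → ℂ, ContDiffAt ℝ ∞ g 0 ∧ ContDiffAt ℝ ∞ h 0 ∧
    f = (fun x => g x + h x) ∧ F = T g + T h) ?_ ?_ ?_ _ _ ⟨g, h, hg, hh, rfl, rfl⟩
  · rintro _ _ ⟨g, h, hg, hh, rfl, rfl⟩
    exact hg.add hh
  · rintro _ _ ⟨g, h, hg, hh, rfl, rfl⟩
    rw [map_add, hT.zero g hg, hT.zero h hh]
  · rintro _ _ ⟨g, h, hg, hh, rfl, rfl⟩ k n ih α hα
    rw [hT.germ _ _ (pd_add hg hh k), ih _ _ ⟨pd g k, pd h k, smooth_pd hg k, smooth_pd hh k,
      rfl, rfl⟩ α hα, hT.der g hg, hT.der h hh, map_add (pderiv ℂ k)]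

theorem T_const (c : ℂ) : T (fun _ => c) = C c := by
  refine principle hT (fun f F => ∃ c : ℂ, f = (fun _ => c) ∧ F = C c) ?_ ?_ ?_ _ _ ⟨c, rfl, rfl⟩
  · rintro _ _ ⟨c, rfl, rfl⟩
    exact contDiffAt_const
  · rintro _ _ ⟨c, rfl, rfl⟩
    simp
  · rintro _ _ ⟨c, rfl, rfl⟩ k n ih α hα
    rw [pd_const, ih _ _ ⟨0, rfl, rfl⟩ α hα]
    simp

theorem T_sum {α : Type} (s : Finset α) (g : α → (κ → ℝ) → ℂ) (hg : ∀ i ∈ s, ContDiffAt ℝ ∞ (g i) 0) :
    T (fun x => ∑ i ∈ s, g i x) = ∑ i ∈ s, T (g i) := by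
  classical
  induction s using Finset.induction with
  | empty => simpa using T_const hT 0
  | insert a s ha ih =>
    simp only [Finset.sum_insert ha]
    rw [T_add hT (hg a (Finset.mem_insert_self _ _))
      (ContDiffAt.sum fun i hi => hg i (Finset.mem_insert_of_mem hi)),
      ih fun i hi => hg i (Finset.mem_insert_of_mem hi)]

theorem T_mul {g h : (κ → ℝ) → ℂ} (hg : ContDiffAt ℝ ∞ g 0) (hh : ContDiffAt ℝ ∞ h 0) :
    T (fun x => g x * h x) = T g * T h := by
  refine principle hT (fun f F => ∃ g h : (κ → ℝ) → ℂ, ContDiffAt ℝ ∞ g 0 ∧ ContDiffAt ℝ ∞ h 0 ∧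
    f = (fun x => g x * h x) ∧ F = T g * T h) ?_ ?_ ?_ _ _ ⟨g, h, hg, hh, rfl, rfl⟩
  · rintro _ _ ⟨g, h, hg, hh, rfl, rfl⟩
    exact hg.mul hh
  · rintro _ _ ⟨g, h, hg, hh, rfl, rfl⟩
    rw [map_mul, hT.zero g hg, hT.zero h hh]
  · rintro _ _ ⟨g, h, hg, hh, rfl, rfl⟩ k n ih α hα
    rw [hT.germ _ _ (pd_mul hg hh k), T_add hT ((smooth_pd hg k).mul hh) (hg.mul (smooth_pd hh k)),
      map_add, ih _ _ ⟨pd g k, h, smooth_pd hg k, hh, rfl, rfl⟩ α hα,
      ih _ _ ⟨g, pd h k, hg, smooth_pd hh k, rfl, rfl⟩ α hα, hT.der g hg, hT.der h hh,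
      Derivation.leibniz, map_add, smul_eq_mul, smul_eq_mul, mul_comm (pderiv ℂ k (T g)), add_comm]

theorem T_conj {g : (κ → ℝ) → ℂ} (hg : ContDiffAt ℝ ∞ g 0) :
    T (fun x => conj (g x)) = cj (T g) := by
  have hs : ∀ {g : (κ → ℝ) → ℂ}, ContDiffAt ℝ ∞ g 0 → ContDiffAt ℝ ∞ (fun x => conj (g x)) 0 := by
    intro g hg
    exact Complex.conjCLE.contDiff.contDiffAt.comp (0 : κ → ℝ) hg
  refine principle hT (fun f F => ∃ g : (κ → ℝ) → ℂ, ContDiffAt ℝ ∞ g 0 ∧
    f = (fun x => conj (g x)) ∧ F = cj (T g)) ?_ ?_ ?_ _ _ ⟨g, hg, rfl, rfl⟩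
  · rintro _ _ ⟨g, hg, rfl, rfl⟩
    exact hs hg
  · rintro _ _ ⟨g, hg, rfl, rfl⟩
    simp only [cj, constantCoeff_map, hT.zero g hg]
  · rintro _ _ ⟨g, hg, rfl, rfl⟩ k n ih α hα
    have e : pd (fun x => conj (g x)) k =ᶠ[𝓝 0] fun x => conj (pd g k x) := by
      filter_upwards [ev_diff hg] with x hx
      simp only [pd]
      have h1 : HasFDerivAt (fun x => conj (g x))
          ((Complex.conjCLE : ℂ →L[ℝ] ℂ).comp (fderiv ℝ g x)) x :=
        (Complex.conjCLE : ℂ →L[ℝ] ℂ).hasFDerivAt.comp x hx.hasFDerivAt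
      rw [h1.fderiv]
      simp
    rw [hT.germ _ _ e, ih _ _ ⟨pd g k, smooth_pd hg k, rfl, rfl⟩ α hα, hT.der g hg]
    simp only [cj, coeff_map, coeff_pderiv, map_mul, map_add, map_one, map_natCast]

theorem T_comp (hEVA : SpecEVA) {ι : Type} [Fintype ι] [DecidableEq ι] (g : (κ → ℝ) → ι → ℂ)
    (hg : ∀ i, ContDiffAt ℝ ∞ (fun x => g x i) 0) (g0 : g 0 = 0) (F : PS ι) (hF : Conv F)
    (h : (κ → ℝ) → ℂ) (hh : ContDiffAt ℝ ∞ h 0) :
    T (fun x => h x * ev F (g x)) = T h * F.subst fun i => T fun x => g x i := by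
  obtain ⟨hA, -, -, -, hD, -, -⟩ := hEVA ι
  have hgs : ContDiffAt ℝ ∞ g 0 := contDiffAt_pi.2 hg
  have hsub : ∀ i, Z0 (T fun x => g x i) := by
    intro i
    unfold Z0
    rw [hT.zero _ (hg i), g0]
    rfl
  have hsm : ∀ F : PS ι, Conv F → ContDiffAt ℝ ∞ (fun x => ev F (g x)) 0 := by
    intro F hF
    have h1 : ContDiffAt ℝ ∞ (ev F) (g 0) := by
      rw [g0]
      exact (hA F hF).1.contDiffAt.restrict_scalars ℝ
    exact h1.comp (0 : κ → ℝ) hgs
  refine principle hT (fun f G => ∃ (F : PS ι) (h : (κ → ℝ) → ℂ), Conv F ∧ ContDiffAt ℝ ∞ h 0 ∧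
    f = (fun x => h x * ev F (g x)) ∧ G = T h * F.subst fun i => T fun x => g x i) ?_ ?_ ?_ _ _
    ⟨F, h, hF, hh, rfl, rfl⟩
  · rintro _ _ ⟨F, h, hF, hh, rfl, rfl⟩
    exact hh.mul (hsm F hF)
  · rintro _ _ ⟨F, h, hF, hh, rfl, rfl⟩
    rw [map_mul, hT.zero h hh]
    show h 0 * _ = h 0 * ev F (g 0)
    rw [g0, (hA F hF).2]
    congr 1
    have h2 := constantCoeff_subst_eq_zero (hasSubst_of_constantCoeff_zero hsub) hsub
      (f := F - C (constantCoeff F)) (by simp)
    rw [subst_sub (hasSubst_of_constantCoeff_zero hsub)] at h2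
    simpa [sub_eq_zero] using h2
  · rintro _ _ ⟨F, h, hF, hh, rfl, rfl⟩ k n ih α hα
    have hpF : ∀ i, Conv (pderiv ℂ i F) := fun i =>
      ((specCNV.1 ℂ _ specCNV.2 ι).2.2.2 F i hF)
    have e1 : pd (fun x => ev F (g x)) k =ᶠ[𝓝 0]
        fun x => ∑ i, pd (fun x => g x i) k x * ev (pderiv ℂ i F) (g x) := by
      have hg0 : Tendsto g (𝓝 0) (𝓝 0) := by
        have := hgs.continuousAt.tendsto
        rwa [g0] at this
      have hF1 : ∀ᶠ y in 𝓝 (0 : ι → ℂ), DifferentiableAt ℂ (ev F) y :=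
        (hA F hF).1.eventually_analyticAt.mono fun y hy => hy.differentiableAt
      have hF2 : ∀ᶠ y in 𝓝 (0 : ι → ℂ), ∀ i, fderiv ℂ (ev F) y (Pi.single i 1) =
          ev (pderiv ℂ i F) y := eventually_all.2 fun i => hD F i hF
      filter_upwards [ev_diff hgs, hg0.eventually hF1, hg0.eventually hF2] with x h1 h2 h3
      have h4 : HasFDerivAt (fun x => ev F (g x))
          (((fderiv ℂ (ev F) (g x)).restrictScalars ℝ).comp (fderiv ℝ g x)) x :=
        (h2.hasFDerivAt.restrictScalars ℝ).comp x h1.hasFDerivAt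
      simp only [pd]
      rw [h4.fderiv]
      simp only [ContinuousLinearMap.comp_apply, ContinuousLinearMap.coe_restrictScalars']
      have h5 : ∀ v : ι → ℂ, fderiv ℂ (ev F) (g x) v =
          ∑ i, v i * fderiv ℂ (ev F) (g x) (Pi.single i 1) := by
        intro v
        conv_lhs => rw [pi_eq_sum_univ' v]
        rw [map_sum]
        refine Finset.sum_congr rfl fun i _ => ?_
        rw [map_smul, smul_eq_mul]
      rw [h5]
      refine Finset.sum_congr rfl fun i _ => ?_
      rw [h3 i]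
      congr 1
      have h6 : HasFDerivAt (fun x => g x i) ((ContinuousLinearMap.proj (R := ℝ) i).comp
          (fderiv ℝ g x)) x :=
        (ContinuousLinearMap.proj (R := ℝ) (φ := fun _ : ι => ℂ) i).hasFDerivAt.comp x
          h1.hasFDerivAt
      rw [h6.fderiv]
      rfl
    have e2 : pd (fun x => h x * ev F (g x)) k =ᶠ[𝓝 0] fun x => pd h k x * ev F (g x) +
        ∑ i, (h x * pd (fun x => g x i) k x) * ev (pderiv ℂ i F) (g x) := by
      filter_upwards [pd_mul hh (hsm F hF) k, e1] with x h1 h2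
      rw [h1, h2, Finset.mul_sum]
      congr 1
      exact Finset.sum_congr rfl fun i _ => by ring
    have s1 : ∀ i, ContDiffAt ℝ ∞ (fun x => h x * pd (fun x => g x i) k x) 0 := fun i =>
      hh.mul (smooth_pd (hg i) k)
    rw [hT.germ _ _ e2, T_add hT ((smooth_pd hh k).mul (hsm F hF))
      (ContDiffAt.sum fun i _ => (s1 i).mul (hsm _ (hpF i))), T_sum hT _ _
      (fun i _ => (s1 i).mul (hsm _ (hpF i))), map_add, map_sum,
      ih _ _ ⟨F, pd h k, hF, smooth_pd hh k, rfl, rfl⟩ α hα]
    have h7 : ∀ i ∈ Finset.univ, coeff α (T fun x => (h x * pd (fun x => g x i) k x) *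
        ev (pderiv ℂ i F) (g x)) = coeff α (T (fun x => h x * pd (fun x => g x i) k x) *
        (pderiv ℂ i F).subst fun i => T fun x => g x i) := fun i _ =>
      ih _ _ ⟨pderiv ℂ i F, _, hpF i, s1 i, rfl, rfl⟩ α hα
    rw [Finset.sum_congr rfl h7, Derivation.leibniz,
      specCHN ℂ ι κ F (fun i => T fun x => g x i) hsub k, map_add, smul_eq_mul, smul_eq_mul,
      Finset.mul_sum, map_sum, hT.der h hh, mul_comm (pderiv ℂ k (T h)), add_comm]
    congr 1
    refine Finset.sum_congr rfl fun i _ => ?_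
    rw [T_mul hT hh (smooth_pd (hg i) k), hT.der _ (hg i)]
    congr 1
    ring

theorem T_X (k : κ) : T (fun x => (x k : ℂ)) = X k := by
  have hs : ContDiffAt ℝ ∞ (fun x : κ → ℝ => (x k : ℂ)) 0 :=
    Complex.ofRealCLM.contDiff.contDiffAt.comp (0 : κ → ℝ)
      (ContinuousLinearMap.proj (R := ℝ) (φ := fun _ : κ => ℝ) k).contDiff.contDiffAt
  have hp : ∀ j, pd (fun x : κ → ℝ => (x k : ℂ)) j = fun _ => if j = k then 1 else 0 := by
    intro j
    funext x
    have h1 : HasFDerivAt (fun x : κ → ℝ => (x k : ℂ)) (Complex.ofRealCLM.comp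
        (ContinuousLinearMap.proj (R := ℝ) (φ := fun _ : κ => ℝ) k)) x :=
      Complex.ofRealCLM.hasFDerivAt.comp x
        (ContinuousLinearMap.proj (R := ℝ) (φ := fun _ : κ => ℝ) k).hasFDerivAt
    simp only [pd]
    rw [h1.fderiv]
    by_cases h : j = k
    · subst h
      simp
    · simp [h, Ne.symm h]
  ext α
  by_cases hα : α = 0
  · subst hα
    rw [coeff_zero_eq_constantCoeff_apply, coeff_zero_eq_constantCoeff_apply, hT.zero _ hs]
    simp
  · obtain ⟨j, hj⟩ := Finsupp.ne_iff.1 hα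
    simp only [Finsupp.coe_zero, Pi.zero_apply] at hj
    obtain ⟨β, hβ⟩ : ∃ β, α = β + Finsupp.single j 1 := by
      refine ⟨α - Finsupp.single j 1, ?_⟩
      rw [tsub_add_cancel_of_le]
      rw [Finsupp.single_le_iff]
      omega
    have h1 : coeff β (pderiv ℂ j (T fun x => (x k : ℂ))) = coeff β (pderiv ℂ j (X k : PS κ)) := by
      rw [← hT.der _ hs, hp, T_const hT, pderiv_X]
      by_cases h : j = k
      · subst h
        simp
      · simp [h, Ne.symm h]
    rw [coeff_pderiv, coeff_pderiv, ← hβ] at h1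
    have h5 : ((β j : ℂ) + 1) ≠ 0 := by exact_mod_cast Nat.succ_ne_zero (β j)
    exact mul_right_cancel₀ h5 h1

end

end TaymM

open TaymM in
theorem specTAYM (hEVA : SpecEVA) : SpecTAYM := by
  intro κ _ _ T hT
  have hcomp : ∀ (ι : Type) [Fintype ι] [DecidableEq ι] (F : PS ι) (g : (κ → ℝ) → ι → ℂ), Conv F →
      (∀ i, ContDiffAt ℝ ∞ (fun x => g x i) 0) → g 0 = 0 →
      T (fun x => ev F (g x)) = F.subst fun i => T fun x => g x i := by
    intro ι _ _ F g hF hg g0
    have h1 := T_comp hT hEVA g hg g0 F hF (fun _ => 1) contDiffAt_const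
    rw [T_const hT] at h1
    simpa using h1
  refine ⟨fun g h hg hh => ⟨T_add hT hg hh, T_mul hT hg hh⟩, fun g hg => T_conj hT hg, ?_, hcomp⟩
  intro F hF
  have h2 := hcomp κ F (fun x => rl x) hF (fun i =>
    Complex.ofRealCLM.contDiff.contDiffAt.comp (0 : κ → ℝ)
      (ContinuousLinearMap.proj (R := ℝ) (φ := fun _ : κ => ℝ) i).contDiff.contDiffAt)
    (by funext i; simp [rl])
  rw [h2]
  simp only [rl, T_X hT]
  exact congrFun (subst_self (σ := κ) (R := ℂ)) F

end

end Pool.Agent.Lib.MP_2184e2_an.Loc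
end
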