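import Pool.Agent.Lib.MP_2184e2_an.Loc.SpecG
import Pool.Agent.Lib.MP_2184e2_an.Loc.SpecA

section
/-! # MN1: local extension -/
set_option autoImplicit false

namespace Pool.Agent.Lib.MP_2184e2_an.Loc

open MvPowerSeries Filter Topology Set
open scoped ContDiff ComplexConjugate

namespace Mn1M

lemma continuous_rc {m d : ℕ} : Continuous (rc : (Zi m d → ℂ) → Ki m d → ℝ) := by
  refine continuous_pi fun k => ?_
  rcases k with (j | j) | l
  · exact Complex.continuous_re.comp (continuous_apply _)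
  · exact Complex.continuous_im.comp (continuous_apply _)
  · exact Complex.continuous_re.comp (continuous_apply _)

lemma rc_zero {m d : ℕ} : rc (0 : Zi m d → ℂ) = 0 := by
  funext k
  rcases k with (j | j) | l <;> simp [rc]

lemma tendsto_rc {n m d : ℕ} (π : (Fin n → ℂ) →L[ℂ] (Zi m d → ℂ)) (p : Fin n → ℂ) :
    Tendsto (fun w => rc (π (w - p))) (𝓝 p) (𝓝 0) := by
  have h1 : Continuous fun w => rc (π (w - p)) :=
    continuous_rc.comp (π.continuous.comp (continuous_id.sub continuous_const))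
  have h2 := h1.tendsto p
  simpa [rc_zero] using h2

end Mn1M

open Mn1M

theorem specMN1 (hPARA : SpecPARA) (hLVS : SpecLVS) (hT1 : SpecTGT1) (hT2 : SpecTGT2)
    (hCRT : SpecCRT) (hLOC : SpecLOC) (hEVA : SpecEVA) : SpecMN1 := by
  intro n c₁ m₁ c₂ m₂ M₁ M₂ hM₁ hM₂ hL₁ hL₂ f hf p
  obtain ⟨d, π, φ, σ, -, hσ⟩ := hPARA n c₁ m₁ M₁ hM₁ p p.2
  have hLS : LSpan φ := hLVS n m₁ d M₁ p π φ σ p.2 hσ hL₁
  set q : Fin n → ℂ := (f p : Fin n → ℂ) with hq
  obtain ⟨ρ₀, h1, h2, h3⟩ := hT1 n c₂ m₂ M₂ hM₂ hL₂ q (f p).2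
  obtain ⟨ρ, hρ, hρ0⟩ := hT2 n M₂ q ρ₀ (f p).2 h1 h2 h3
  obtain ⟨g, hg, hg0, hcr, hgf⟩ := hCRT n c₁ m₁ d M₁ M₂ f hf hM₁ p π φ σ hσ
  have hgc : Tendsto g (𝓝 0) (𝓝 0) := by
    have : ContinuousAt g 0 := continuousAt_pi.2 fun j => (hg j).continuousAt
    unfold ContinuousAt at this
    rwa [hg0] at this
  have hgt : Tendsto (fun x => q + g x) (𝓝 0) (𝓝[M₂] q) := by
    rw [tendsto_nhdsWithin_iff]
    refine ⟨?_, ?_⟩
    · simpa using (tendsto_const_nhds (x := q)).add hgc
    · filter_upwards [hgf, hσ.mem] with x h4 h5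
      rw [h4 h5]
      have : q + ((f ⟨σ x, h5⟩ : Fin n → ℂ) - f p) = f ⟨σ x, h5⟩ := by
        rw [hq]; abel
      rw [this]
      exact (f ⟨σ x, h5⟩).2
  have hrg : ∀ᶠ x in 𝓝 (0 : Ki m₁ d → ℝ),
      ev ρ (Sum.elim (g x) fun j => conj (g x j)) = 0 := by
    filter_upwards [hgt.eventually hρ0] with x hx
    simpa using hx
  obtain ⟨H, hH, hHe⟩ := hLOC m₁ d n φ ρ g hσ.phi hLS hρ hg hg0 hcr hrg
  refine ⟨fun w => q + fun j => ev (H j) (π (w - p)), ?_, ?_⟩
  · refine analyticAt_const.add ?_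
    rw [analyticAt_pi_iff]
    intro j
    have h4 : AnalyticAt ℂ (ev (H j)) 0 := ((hEVA (Zi m₁ d)).1 (H j) (hH j)).1
    have h5 : AnalyticAt ℂ (fun w : Fin n → ℂ => π (w - p)) p :=
      (π.analyticAt _).fun_comp (analyticAt_id.sub analyticAt_const)
    refine AnalyticAt.fun_comp (g := ev (H j)) (f := fun w : Fin n → ℂ => π (w - p)) ?_ h5
    simpa using h4
  · have hv : Tendsto (Subtype.val : M₁ → (Fin n → ℂ)) (𝓝 p) (𝓝[M₁] (p : Fin n → ℂ)) :=
      tendsto_nhdsWithin_iff.2 ⟨continuous_subtype_val.tendsto p,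
        Eventually.of_forall fun w => w.2⟩
    have hv' : Tendsto (Subtype.val : M₁ → (Fin n → ℂ)) (𝓝 p) (𝓝 (p : Fin n → ℂ)) :=
      continuous_subtype_val.tendsto p
    have hx := (tendsto_rc π (p : Fin n → ℂ)).comp hv'
    filter_upwards [hv.eventually hσ.surj, hx.eventually hHe, hx.eventually hgf,
      hx.eventually hσ.graph] with w h4 h5 h6 h7
    simp only [Function.comp_apply] at h5 h6 h7
    have h8 : σ (rc (π ((w : Fin n → ℂ) - p))) ∈ M₁ := by rw [h4]; exact w.2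
    have h9 := h6 h8
    have h10 : (⟨σ (rc (π ((w : Fin n → ℂ) - p))), h8⟩ : M₁) = w := Subtype.ext h4
    rw [h10] at h9
    rw [h4] at h7
    funext j
    simp only [Pi.add_apply]
    rw [h7, ← h5 j, h9]
    simp [hq]

end Pool.Agent.Lib.MP_2184e2_an.Loc
end

section
/-!
# MP_2184e2_an, local theorem: module PARL
-/
set_option autoImplicit false

namespace Pool.Agent.Lib.MP_2184e2_an.Loc

open MvPowerSeries Filter Topology Set
open scoped ContDiff ComplexConjugate

noncomputable section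

namespace ParlM

/-- a complement of the complex part -/
lemma compl {n : ℕ} (K : Submodule ℝ (Fin n → ℂ)) (Tc : Submodule ℂ (Fin n → ℂ))
    (hTc : ∀ v, v ∈ Tc ↔ v ∈ K ∧ Complex.I • v ∈ K) :
    ∃ W : Submodule ℝ (Fin n → ℂ), W ≤ K ∧ (∀ w ∈ W, w ∈ Tc → w = 0) ∧
      (∀ v ∈ K, ∃ t ∈ Tc, ∃ w ∈ W, v = t + w) ∧
      Module.finrank ℝ K = 2 * Module.finrank ℂ Tc + Module.finrank ℝ W := by
  have hle : Tc.restrictScalars ℝ ≤ K := fun v hv => ((hTc v).1 hv).1
  obtain ⟨W0, hW0⟩ := Submodule.exists_isCompl (Tc.restrictScalars ℝ)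
  have hsup : Tc.restrictScalars ℝ ⊔ W0 ⊓ K = K := by
    rw [← sup_inf_assoc_of_le W0 hle, hW0.sup_eq_top, top_inf_eq]
  have hinf : ∀ w ∈ W0 ⊓ K, w ∈ Tc → w = 0 := fun w hw hw2 =>
    (Submodule.disjoint_def.1 hW0.disjoint) w hw2 hw.1
  refine ⟨W0 ⊓ K, inf_le_right, hinf, ?_, ?_⟩
  · intro v hv
    rw [← hsup] at hv
    obtain ⟨t, ht, w, hw, htw⟩ := Submodule.mem_sup.1 hv
    exact ⟨t, ht, w, hw, htw.symm⟩
  · have h1 := Submodule.finrank_sup_add_finrank_inf_eq (Tc.restrictScalars ℝ) (W0 ⊓ K)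
    have h2 : Tc.restrictScalars ℝ ⊓ (W0 ⊓ K) = ⊥ := by
      rw [Submodule.eq_bot_iff]
      intro w hw
      exact hinf w hw.2 hw.1
    rw [hsup, h2, finrank_bot, add_zero] at h1
    rw [h1, ← finrank_real_of_complex Tc]
    rfl

/-- linear independence over `ℂ` -/
lemma indep {n m d : ℕ} (K : Submodule ℝ (Fin n → ℂ)) (Tc : Submodule ℂ (Fin n → ℂ))
    (hTc : ∀ v, v ∈ Tc ↔ v ∈ K ∧ Complex.I • v ∈ K) (W : Submodule ℝ (Fin n → ℂ)) (hW : W ≤ K)
    (hWT : ∀ w ∈ W, w ∈ Tc → w = 0) (e : Fin m → (Fin n → ℂ)) (f : Fin d → (Fin n → ℂ))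
    (he : ∀ j, e j ∈ Tc) (hf : ∀ l, f l ∈ W) (hei : LinearIndependent ℂ e)
    (hfi : LinearIndependent ℝ f) (α : Fin m → ℂ) (c : Fin d → ℂ)
    (h : ∑ j, α j • e j + ∑ l, c l • f l = 0) : α = 0 ∧ c = 0 := by
  have hxW : ∀ s : Fin d → ℝ, ∑ l, s l • f l ∈ W := fun s =>
    Submodule.sum_mem _ fun l _ => W.smul_mem _ (hf l)
  have hxy : ∑ l, c l • f l = ∑ l, (c l).re • f l + Complex.I • ∑ l, (c l).im • f l := by
    rw [Finset.smul_sum, ← Finset.sum_add_distrib]
    refine Finset.sum_congr rfl fun l _ => ?_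
    ext k
    simp only [Pi.smul_apply, smul_eq_mul, Pi.add_apply, Complex.real_smul]
    conv_lhs => rw [← Complex.re_add_im (c l)]
    ring
  have hT : ∑ l, c l • f l ∈ Tc := by
    have : ∑ l, c l • f l = -∑ j, α j • e j := by
      rw [eq_neg_iff_add_eq_zero, add_comm]; exact h
    rw [this]
    exact Tc.neg_mem (Submodule.sum_mem _ fun j _ => Tc.smul_mem _ (he j))
  have hIy : Complex.I • ∑ l, (c l).im • f l ∈ K := by
    have h1 := K.sub_mem ((hTc _).1 hT).1 (hW (hxW fun l => (c l).re))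
    rw [hxy] at h1
    simpa using h1
  have hy : ∑ l, (c l).im • f l = 0 := hWT _ (hxW _) ((hTc _).2 ⟨hW (hxW _), hIy⟩)
  have hx : ∑ l, (c l).re • f l = 0 := by
    refine hWT _ (hxW _) ?_
    rw [hxy, hy, smul_zero, add_zero] at hT
    exact hT
  have him := Fintype.linearIndependent_iff.1 hfi _ hy
  have hre := Fintype.linearIndependent_iff.1 hfi _ hx
  have hc : c = 0 := funext fun l => Complex.ext (hre l) (him l)
  refine ⟨?_, hc⟩
  rw [hc] at h
  simp only [Pi.zero_apply, zero_smul, Finset.sum_const_zero, add_zero] at h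
  exact funext fun j => Fintype.linearIndependent_iff.1 hei _ h j

end ParlM

theorem specPARL : SpecPARL := by
  intro n m K Tc hTc hm
  obtain ⟨W, hWK, hWT, hKrep, hfin⟩ := ParlM.compl K Tc hTc
  obtain ⟨d, hd⟩ : ∃ d, Module.finrank ℝ W = d := ⟨_, rfl⟩
  have e := Module.finBasisOfFinrankEq ℂ Tc hm
  have f := Module.finBasisOfFinrankEq ℝ W hd
  have hei : LinearIndependent ℂ fun j => (e j : Fin n → ℂ) :=
    e.linearIndependent.map' Tc.subtype (Submodule.ker_subtype _)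
  have hfi : LinearIndependent ℝ fun l => (f l : Fin n → ℂ) :=
    f.linearIndependent.map' W.subtype (Submodule.ker_subtype _)
  obtain ⟨L, hL⟩ : ∃ L : (Zi m d → ℂ) →ₗ[ℂ] (Fin n → ℂ), ∀ c, L c =
      ∑ j, c (Sum.inl j) • (e j : Fin n → ℂ) + ∑ l, c (Sum.inr l) • (f l : Fin n → ℂ) := by
    refine ⟨Fintype.linearCombination ℂ (Sum.elim (fun j => (e j : Fin n → ℂ))
      (fun l => (f l : Fin n → ℂ))), fun c => ?_⟩
    rw [Fintype.linearCombination_apply, Fintype.sum_sum_type]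
    rfl
  have hinj : LinearMap.ker L = ⊥ := by
    rw [LinearMap.ker_eq_bot']
    intro c hc
    rw [hL] at hc
    obtain ⟨h1, h2⟩ := ParlM.indep K Tc hTc W hWK hWT _ _ (fun j => (e j).2) (fun l => (f l).2)
      hei hfi _ _ hc
    funext i
    rcases i with j | l
    · exact congrFun h1 j
    · exact congrFun h2 l
  obtain ⟨g, hg⟩ := L.exists_leftInverse_of_injective hinj
  have hgL : ∀ x, g (L x) = x := fun x => LinearMap.congr_fun hg x
  have hrepT : ∀ v ∈ Tc, ∃ α : Fin m → ℂ, v = L (Sum.elim α 0) := by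
    intro v hv
    refine ⟨fun j => e.repr ⟨v, hv⟩ j, ?_⟩
    rw [hL]
    have h6 := e.sum_repr ⟨v, hv⟩
    have h7 := congrArg (fun t : Tc => (t : Fin n → ℂ)) h6
    simp only [Submodule.coe_sum, Submodule.coe_smul] at h7
    simp [h7]
  have hrepW : ∀ v ∈ W, ∃ s : Fin d → ℝ, v = ∑ l, (s l : ℂ) • (f l : Fin n → ℂ) := by
    intro v hv
    refine ⟨fun l => f.repr ⟨v, hv⟩ l, ?_⟩
    have h6 := f.sum_repr ⟨v, hv⟩
    have h7 := congrArg (fun t : W => (t : Fin n → ℂ)) h6
    simp only [Submodule.coe_sum, Submodule.coe_smul] at h7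
    simp [h7]
  have hrepK : ∀ v ∈ K, ∃ (α : Fin m → ℂ) (s : Fin d → ℝ),
      v = L (Sum.elim α fun l => (s l : ℂ)) := by
    intro v hv
    obtain ⟨t, ht, w, hw, rfl⟩ := hKrep v hv
    obtain ⟨α, hα⟩ := hrepT t ht
    obtain ⟨s, hs⟩ := hrepW w hw
    refine ⟨α, s, ?_⟩
    rw [hL] at hα ⊢
    simp only [Sum.elim_inl, Sum.elim_inr, Pi.zero_apply, zero_smul, Finset.sum_const_zero,
      add_zero] at hα ⊢
    rw [← hα, ← hs]
  have hmemT : ∀ α : Fin m → ℂ, L (Sum.elim α 0) ∈ Tc := by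
    intro α
    rw [hL]
    simp only [Sum.elim_inl, Sum.elim_inr, Pi.zero_apply, zero_smul, Finset.sum_const_zero,
      add_zero]
    exact Submodule.sum_mem _ fun j _ => Tc.smul_mem _ (e j).2
  have hmemK : ∀ (α : Fin m → ℂ) (s : Fin d → ℝ), L (Sum.elim α fun l => (s l : ℂ)) ∈ K := by
    intro α s
    rw [hL]
    simp only [Sum.elim_inl, Sum.elim_inr]
    refine K.add_mem ((hTc _).1 (Submodule.sum_mem _ fun j _ => Tc.smul_mem _ (e j).2)).1
      (Submodule.sum_mem _ fun l _ => ?_)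
    have : ((s l : ℂ)) • (f l : Fin n → ℂ) = (s l) • (f l : Fin n → ℂ) := by
      ext k; simp
    rw [this]
    exact K.smul_mem _ (hWK (f l).2)
  refine ⟨d, by rw [hfin, hm, hd], LinearMap.toContinuousLinearMap g, ?_, ?_, ?_, ?_, ?_⟩
  · intro v hv l
    obtain ⟨α, s, rfl⟩ := hrepK v hv
    simp [hgL]
  · intro v hv l
    obtain ⟨α, rfl⟩ := hrepT v hv
    simp [hgL]
  · intro a
    exact ⟨L (Sum.elim a 0), hmemT a, by simp [hgL]⟩
  · intro v hv h0
    obtain ⟨α, s, rfl⟩ := hrepK v hv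
    have h1 : Sum.elim α (fun l => (s l : ℂ)) = 0 := by
      simpa [hgL] using h0
    rw [h1, map_zero]
  · intro a s
    exact ⟨L (Sum.elim a fun l => (s l : ℂ)), hmemK a s, by simp [hgL]⟩

end

end Pool.Agent.Lib.MP_2184e2_an.Loc
end

section
/-!
# MP_2184e2_an, local theorem: substitution calculus and coordinates on a graph

`(x, y, s)` and `(Z, χ)` are coordinates related by `bb` and `ee`, and `(z, χ, τ)` by `bq`, `eq`.
-/
set_option autoImplicit false

namespace Pool.Agent.Lib.MP_2184e2_an.Loc.SubC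

open MvPowerSeries Filter Topology Set
open scoped ContDiff ComplexConjugate

noncomputable section

variable {σ τ υ : Type}

lemma hs [Finite σ] {a : σ → PS τ} (ha : ∀ i, Z0 (a i)) : HasSubst a :=
  hasSubst_of_constantCoeff_zero ha

lemma sadd [Finite σ] {a : σ → PS τ} (ha : ∀ i, Z0 (a i)) (f g : PS σ) :
    (f + g).subst a = f.subst a + g.subst a := subst_add (hs ha) f g

lemma ssub [Finite σ] {a : σ → PS τ} (ha : ∀ i, Z0 (a i)) (f g : PS σ) :
    (f - g).subst a = f.subst a - g.subst a := subst_sub (hs ha) f g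

lemma smul' [Finite σ] {a : σ → PS τ} (ha : ∀ i, Z0 (a i)) (f g : PS σ) :
    (f * g).subst a = f.subst a * g.subst a := subst_mul (hs ha) f g

lemma sneg [Finite σ] {a : σ → PS τ} (ha : ∀ i, Z0 (a i)) (f : PS σ) :
    (-f).subst a = -f.subst a := by
  simp only [← substAlgHom_apply (hs ha), map_neg]

lemma sC [Finite σ] {a : σ → PS τ} (c : ℂ) : (C c : PS σ).subst a = C c := by
  simp

lemma s0 [Finite σ] {a : σ → PS τ} (ha : ∀ i, Z0 (a i)) : (0 : PS σ).subst a = 0 := by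
  simp only [← substAlgHom_apply (hs ha), map_zero]

lemma ssum [Finite σ] {a : σ → PS τ} (ha : ∀ i, Z0 (a i)) {ι : Type} (s : Finset ι)
    (f : ι → PS σ) : (∑ k ∈ s, f k).subst a = ∑ k ∈ s, (f k).subst a := by
  simp only [← substAlgHom_apply (hs ha), map_sum]

lemma sX [Finite σ] {a : σ → PS τ} (ha : ∀ i, Z0 (a i)) (i : σ) : (X i : PS σ).subst a = a i :=
  subst_X (hs ha) i

lemma scomp [Finite σ] [Finite τ] {a : σ → PS τ} {b : τ → PS υ} (ha : ∀ i, Z0 (a i))
    (hb : ∀ i, Z0 (b i)) (f : PS σ) :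
    (f.subst a).subst b = f.subst (fun i => (a i).subst b) :=
  subst_comp_subst_apply (hs ha) (hs hb) f

lemma sself [Finite σ] (f : PS σ) : f.subst (fun i => (X i : PS σ)) = f := by
  have := subst_self (σ := σ) (R := ℂ)
  exact congrFun this f

lemma scj [Finite σ] {a : σ → PS τ} (ha : ∀ i, Z0 (a i)) (f : PS σ) :
    cj (f.subst a) = (cj f).subst fun i => cj (a i) :=
  map_subst (hs ha) f

lemma z0X (i : σ) : Z0 (X i : PS σ) := by simp [Z0]
lemma z00 : Z0 (0 : PS σ) := by simp [Z0]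
lemma z0add {f g : PS σ} (hf : Z0 f) (hg : Z0 g) : Z0 (f + g) := by
  simp only [Z0] at *; simp [hf, hg]
lemma z0sub {f g : PS σ} (hf : Z0 f) (hg : Z0 g) : Z0 (f - g) := by
  simp only [Z0] at *; simp [hf, hg]
lemma z0mul {f g : PS σ} (hg : Z0 g) : Z0 (f * g) := by
  simp only [Z0] at *; simp [hg]
lemma z0cj {f : PS σ} (hf : Z0 f) : Z0 (cj f) := by
  simp only [Z0, cj] at *
  rw [← coeff_zero_eq_constantCoeff_apply, coeff_map, coeff_zero_eq_constantCoeff_apply, hf]
  simp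

lemma ccs [Finite σ] {a : σ → PS τ} (ha : ∀ i, Z0 (a i)) (f : PS σ) :
    constantCoeff (f.subst a) = constantCoeff f := by
  have h : Z0 (f - C (constantCoeff f)) := by simp [Z0]
  have h2 := constantCoeff_subst_eq_zero (hs ha) ha (f := f - C (constantCoeff f)) h
  rw [ssub ha, sC] at h2
  simpa [sub_eq_zero] using h2

lemma z0s [Finite σ] {a : σ → PS τ} (ha : ∀ i, Z0 (a i)) {f : PS σ} (hf : Z0 f) :
    Z0 (f.subst a) := by
  simp only [Z0] at *
  rw [ccs ha, hf]

lemma cjadd (f g : PS σ) : cj (f + g) = cj f + cj g := map_add _ f g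
lemma cjsub (f g : PS σ) : cj (f - g) = cj f - cj g := map_sub _ f g
lemma cjneg (f : PS σ) : cj (-f) = -cj f := map_neg _ f
lemma cjmul (f g : PS σ) : cj (f * g) = cj f * cj g := map_mul _ f g
lemma cjX (i : σ) : cj (X i : PS σ) = X i := by simp [cj]
lemma cjC (c : ℂ) : cj (C c : PS σ) = C (conj c) := by simp [cj]
lemma cjcj (f : PS σ) : cj (cj f) = f := by
  ext n
  simp [cj]
lemma coeff_cj (f : PS σ) (n : σ →₀ ℕ) : coeff n (cj f) = conj (coeff n f) := by
  simp [cj]

lemma lin_add (f g : PS σ) (i : σ) : lin (f + g) i = lin f i + lin g i := by simp [lin]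
lemma lin_sub (f g : PS σ) (i : σ) : lin (f - g) i = lin f i - lin g i := by simp [lin]
lemma lin_C_mul (c : ℂ) (f : PS σ) (i : σ) : lin (C c * f) i = c * lin f i := by simp [lin]
lemma lin_X [DecidableEq σ] (i j : σ) : lin (X i : PS σ) j = if j = i then 1 else 0 := by
  simp [lin, coeff_X, Finsupp.single_left_inj]

lemma lin_eq (f : PS σ) (i : σ) : lin f i = constantCoeff (pderiv ℂ i f) := by
  rw [← coeff_zero_eq_constantCoeff_apply, coeff_pderiv]
  simp [lin]

lemma lin_subst (hCHN : SpecCHN) [Fintype σ] [Finite τ] {a : σ → PS τ} (ha : ∀ i, Z0 (a i))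
    (f : PS σ) (j : τ) : lin (f.subst a) j = ∑ i, lin f i * lin (a i) j := by
  rw [lin_eq, hCHN ℂ σ τ f a ha j, map_sum]
  refine Finset.sum_congr rfl fun i _ => ?_
  rw [map_mul, ccs ha, lin_eq, lin_eq]

/-! ## Convergence -/

lemma cadd (hCNV : SpecCNV) [Finite σ] {f g : PS σ} (hf : Conv f) (hg : Conv g) : Conv (f + g) :=
  ((hCNV.1 ℂ _ hCNV.2 σ).1 f g hf hg).1
lemma cmul (hCNV : SpecCNV) [Finite σ] {f g : PS σ} (hf : Conv f) (hg : Conv g) : Conv (f * g) :=
  ((hCNV.1 ℂ _ hCNV.2 σ).1 f g hf hg).2.1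
lemma cneg (hCNV : SpecCNV) [Finite σ] {f : PS σ} (hf : Conv f) : Conv (-f) :=
  ((hCNV.1 ℂ _ hCNV.2 σ).1 f f hf hf).2.2.1
lemma csub (hCNV : SpecCNV) [Finite σ] {f g : PS σ} (hf : Conv f) (hg : Conv g) : Conv (f - g) :=
  ((hCNV.1 ℂ _ hCNV.2 σ).1 f g hf hg).2.2.2
lemma cC (hCNV : SpecCNV) [Finite σ] (c : ℂ) : Conv (C c : PS σ) :=
  (hCNV.1 ℂ _ hCNV.2 σ).2.1 c
lemma cX (hCNV : SpecCNV) [Finite σ] (i : σ) : Conv (X i : PS σ) :=
  (hCNV.1 ℂ _ hCNV.2 σ).2.2.1 i
lemma cpd (hCNV : SpecCNV) [Finite σ] {f : PS σ} (i : σ) (hf : Conv f) : Conv (pderiv ℂ i f) :=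
  (hCNV.1 ℂ _ hCNV.2 σ).2.2.2 f i hf
lemma c0 (hCNV : SpecCNV) [Finite σ] : Conv (0 : PS σ) := by
  simpa using cC hCNV (σ := σ) 0
lemma cs (hCNV : SpecCNV) (hCNS : SpecCNS) [Finite σ] [Finite τ] {f : PS σ} {a : σ → PS τ}
    (hf : Conv f) (ha : ∀ i, Conv (a i)) (ha0 : ∀ i, Z0 (a i)) : Conv (f.subst a) :=
  hCNS ℂ _ hCNV.2 σ τ f a hf fun i => ⟨ha i, ha0 i⟩
lemma ccj {f : PS σ} (hf : Conv f) : Conv (cj f) := by
  obtain ⟨K, hK, h⟩ := hf
  refine ⟨K, hK, fun n => ?_⟩
  rw [coeff_cj]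
  simpa using h n

/-! ## Coordinates -/

variable {m d : ℕ}

lemma two_eq : (2 : PS τ) = C (2 : ℂ) := (map_ofNat (C (σ := τ) (R := ℂ)) 2).symm

/-- `((a + b)/2, (a - b)/(2i), u)` -/
def xyu (a b : Fin m → PS τ) (u : Fin d → PS τ) : Ki m d → PS τ :=
  Sum.elim (Sum.elim (fun j => C (1 / 2) * (a j + b j))
    (fun j => C (-Complex.I / 2) * (a j - b j))) u

lemma xyu_z0 {a b : Fin m → PS τ} {u : Fin d → PS τ} (ha : ∀ j, Z0 (a j)) (hb : ∀ j, Z0 (b j))
    (hu : ∀ l, Z0 (u l)) : ∀ i, Z0 (xyu a b u i) := by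
  rintro ((j | j) | l)
  · exact z0mul (z0add (ha j) (hb j))
  · exact z0mul (z0sub (ha j) (hb j))
  · exact hu l

lemma xyu_cv (hCNV : SpecCNV) [Finite τ] {a b : Fin m → PS τ} {u : Fin d → PS τ}
    (ha : ∀ j, Conv (a j)) (hb : ∀ j, Conv (b j)) (hu : ∀ l, Conv (u l)) :
    ∀ i, Conv (xyu a b u i) := by
  rintro ((j | j) | l)
  · exact cmul hCNV (cC hCNV _) (cadd hCNV (ha j) (hb j))
  · exact cmul hCNV (cC hCNV _) (csub hCNV (ha j) (hb j))
  · exact hu l

lemma xyu_subst [Finite τ] {a b : Fin m → PS τ} {u : Fin d → PS τ} {g : τ → PS υ}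
    (hg : ∀ i, Z0 (g i)) (i : Ki m d) : (xyu a b u i).subst g =
      xyu (fun j => (a j).subst g) (fun j => (b j).subst g) (fun l => (u l).subst g) i := by
  rcases i with ((j | j) | l)
  · simp only [xyu, Sum.elim_inl]
    rw [smul' hg, sadd hg, sC]
  · simp only [xyu, Sum.elim_inl, Sum.elim_inr]
    rw [smul' hg, ssub hg, sC]
  · rfl

lemma xyu_cj {a b : Fin m → PS τ} {u : Fin d → PS τ} (i : Ki m d) : cj (xyu a b u i) =
      xyu (fun j => cj (b j)) (fun j => cj (a j)) (fun l => cj (u l)) i := by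
  rcases i with ((j | j) | l)
  · simp only [xyu, Sum.elim_inl]
    rw [cjmul, cjadd, cjC, add_comm]
    have : (conj (1 / 2) : ℂ) = 1 / 2 := by
      rw [map_div₀, map_one, Complex.conj_ofNat]
    rw [this]
  · simp only [xyu, Sum.elim_inl, Sum.elim_inr]
    rw [cjmul, cjsub, cjC]
    have : (conj (-Complex.I / 2) : ℂ) = -(-Complex.I / 2) := by
      rw [map_div₀, map_neg, Complex.conj_I, Complex.conj_ofNat]
      ring
    rw [this, map_neg]
    ring
  · rfl

lemma xyu_self : xyu (m := m) (d := d) (τ := Ki m d)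
    (fun j => X (Sum.inl (Sum.inl j)) + C Complex.I * X (Sum.inl (Sum.inr j)))
    (fun j => X (Sum.inl (Sum.inl j)) - C Complex.I * X (Sum.inl (Sum.inr j)))
    (fun l => X (Sum.inr l)) = fun i => X i := by
  funext i
  rcases i with ((j | j) | l)
  · simp only [xyu, Sum.elim_inl]
    have h : (C (1 / 2 : ℂ) : PS (Ki m d)) * 2 = 1 := by
      rw [two_eq, ← map_mul]
      norm_num
    linear_combination (X (Sum.inl (Sum.inl j)) : PS (Ki m d)) * h
  · simp only [xyu, Sum.elim_inl, Sum.elim_inr]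
    have h : (C (-Complex.I / 2 : ℂ) : PS (Ki m d)) * (2 * C Complex.I) = 1 := by
      rw [two_eq, ← map_mul, ← map_mul]
      have : -Complex.I / 2 * (2 * Complex.I) = 1 := by
        linear_combination (-1 : ℂ) * Complex.I_mul_I
      rw [this, map_one]
    linear_combination (X (Sum.inl (Sum.inr j)) : PS (Ki m d)) * h
  · rfl

/-- `x + i y` of `xyu` -/
lemma xyu_p (a b : Fin m → PS τ) (u : Fin d → PS τ) (j : Fin m) :
    xyu a b u (Sum.inl (Sum.inl j)) + C Complex.I * xyu a b u (Sum.inl (Sum.inr j)) = a j := by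
  simp only [xyu, Sum.elim_inl, Sum.elim_inr]
  have h : (C (1 / 2 : ℂ) : PS τ) * 2 = 1 := by
    rw [two_eq, ← map_mul]
    norm_num
  have h2 : (C Complex.I : PS τ) * C (-Complex.I / 2) = C (1 / 2) := by
    rw [← map_mul]
    congr 1
    linear_combination (-1 / 2 : ℂ) * Complex.I_mul_I
  linear_combination (a j) * h + (a j - b j) * h2

/-- `x - i y` of `xyu` -/
lemma xyu_m (a b : Fin m → PS τ) (u : Fin d → PS τ) (j : Fin m) :
    xyu a b u (Sum.inl (Sum.inl j)) - C Complex.I * xyu a b u (Sum.inl (Sum.inr j)) = b j := by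
  simp only [xyu, Sum.elim_inl, Sum.elim_inr]
  have h : (C (1 / 2 : ℂ) : PS τ) * 2 = 1 := by
    rw [two_eq, ← map_mul]
    norm_num
  have h2 : (C Complex.I : PS τ) * C (-Complex.I / 2) = C (1 / 2) := by
    rw [← map_mul]
    congr 1
    linear_combination (-1 / 2 : ℂ) * Complex.I_mul_I
  linear_combination (b j) * h - (a j - b j) * h2

/-- the solution `u = Ψ` of `u + c φ((A + B)/2, (A - B)/(2i), u) = W` -/
lemma sol (hIFT : SpecIFT) (hCNV : SpecCNV) (hCNS : SpecCNS) (hCHN : SpecCHN)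
    {φ : Fin d → PS (Ki m d)} (hφ : IsPhi φ) (c : ℂ) {κ : Type} [Finite κ]
    {A B : Fin m → PS κ} {W : Fin d → PS κ} (hA : ∀ j, Conv (A j) ∧ Z0 (A j))
    (hB : ∀ j, Conv (B j) ∧ Z0 (B j)) (hW : ∀ l, Conv (W l) ∧ Z0 (W l)) :
    ∃ Ψ : Fin d → PS κ, (∀ l, Conv (Ψ l) ∧ Z0 (Ψ l)) ∧
      (∀ l, Ψ l + C c * (φ l).subst (xyu A B Ψ) = W l) ∧
      ∀ (T : Type) [Finite T] (g : κ → PS T) (u : Fin d → PS T), (∀ k, Z0 (g k)) →
        (∀ l, Z0 (u l)) → (∀ l, u l + C c * (φ l).subst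
          (xyu (fun j => (A j).subst g) (fun j => (B j).subst g) u) = (W l).subst g) →
        ∀ l, u l = (Ψ l).subst g := by
  classical
  cases nonempty_fintype κ
  have hi0 : ∀ k : κ, Z0 (X (Sum.inl k) : PS (κ ⊕ Fin d)) := fun k => z0X _
  let A' : Fin m → PS (κ ⊕ Fin d) := fun j => (A j).subst (fun k => X (Sum.inl k))
  let B' : Fin m → PS (κ ⊕ Fin d) := fun j => (B j).subst (fun k => X (Sum.inl k))
  let U' : Fin d → PS (κ ⊕ Fin d) := fun l => X (Sum.inr l)
  let W' : Fin d → PS (κ ⊕ Fin d) := fun l => (W l).subst (fun k => X (Sum.inl k))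
  have hA' : ∀ j, Z0 (A' j) := fun j => z0s hi0 (hA j).2
  have hB' : ∀ j, Z0 (B' j) := fun j => z0s hi0 (hB j).2
  have hU' : ∀ l, Z0 (U' l) := fun l => z0X _
  have hW' : ∀ l, Z0 (W' l) := fun l => z0s hi0 (hW l).2
  have hx := xyu_z0 hA' hB' hU'
  let G : Fin d → PS (κ ⊕ Fin d) := fun l => U' l + C c * (φ l).subst (xyu A' B' U') - W' l
  have hG0 : ∀ l, Z0 (G l) := fun l =>
    z0sub (z0add (hU' l) (z0mul (z0s hx (hφ.zero l)))) (hW' l)
  have hGc : ∀ l, Conv (G l) := by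
    intro l
    refine csub hCNV (cadd hCNV (cX hCNV _) (cmul hCNV (cC hCNV _) ?_)) ?_
    · refine cs hCNV hCNS (hφ.conv l) (xyu_cv hCNV ?_ ?_ ?_) hx
      · exact fun j => cs hCNV hCNS (hA j).1 (fun k => cX hCNV _) hi0
      · exact fun j => cs hCNV hCNS (hB j).1 (fun k => cX hCNV _) hi0
      · exact fun l => cX hCNV _
    · exact cs hCNV hCNS (hW l).1 (fun k => cX hCNV _) hi0
  have hGs : ∀ (T : Type) [Finite T] (g : κ → PS T) (u : Fin d → PS T), (∀ k, Z0 (g k)) →
      (∀ l, Z0 (u l)) → ∀ l, (G l).subst (Sum.elim g u) = u l + C c * (φ l).subst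
          (xyu (fun j => (A j).subst g) (fun j => (B j).subst g) u) - (W l).subst g := by
    intro T _ g u hg hu l
    have hgu : ∀ i, Z0 (Sum.elim g u i) := by
      rintro (k | k)
      · exact hg k
      · exact hu k
    have h1 : ∀ f : PS κ, (f.subst (fun k => (X (Sum.inl k) : PS (κ ⊕ Fin d)))).subst
        (Sum.elim g u) = f.subst g := by
      intro f
      rw [scomp hi0 hgu]
      congr 1
      funext k
      rw [sX hgu]
      rfl
    simp only [G]
    rw [ssub hgu, sadd hgu, smul' hgu, sC, scomp hx hgu, sX hgu, h1]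
    simp only [Sum.elim_inr]
    congr 3
    congr 1
    funext i
    rw [xyu_subst hgu]
    simp only [A', B', U', h1, sX hgu, Sum.elim_inr]
  have hdet : Matrix.det (Matrix.of fun i j => lin (G i) (Sum.inr j)) ≠ 0 := by
    have : (Matrix.of fun i j => lin (G i) (Sum.inr j)) = 1 := by
      ext i j
      simp only [Matrix.of_apply, G]
      rw [lin_sub, lin_add, lin_C_mul, lin_subst hCHN hx, lin_subst hCHN hi0]
      simp only [hφ.lin, U', lin_X, zero_mul, Finset.sum_const_zero, mul_zero, add_zero]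
      rw [Finset.sum_eq_zero, sub_zero, Matrix.one_apply]
      · simp [eq_comm]
      · intro k _
        simp
    rw [this]
    simp
  obtain ⟨Ψ, h1, h2, h3⟩ := hIFT κ d G (fun l => ⟨hGc l, hG0 l⟩) hdet
  refine ⟨Ψ, h1, fun l => ?_, fun T _ g u hg hu h l => ?_⟩
  · have h4 := h2 l
    rw [hGs κ (fun k => X k) Ψ (fun k => z0X k) (fun l => (h1 l).2) l] at h4
    simp only [sself] at h4
    exact sub_eq_zero.mp h4
  · refine h3 T g u hg hu (fun i => ?_) l
    rw [hGs T g u hg hu i, h i, sub_self]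

end

end Pool.Agent.Lib.MP_2184e2_an.Loc.SubC
end

section
/-!
# MP_2184e2_an, local theorem: module QFL
-/
set_option autoImplicit false

namespace Pool.Agent.Lib.MP_2184e2_an.Loc

open MvPowerSeries Filter Topology Set SubC
open scoped ContDiff ComplexConjugate

noncomputable section

namespace QflM

variable {σ : Type} {m d : ℕ}

/-- second derivatives at `0` -/
def hes (f : PS σ) (i j : σ) : ℂ := constantCoeff (pderiv ℂ j (pderiv ℂ i f))

lemma hes_eq {f : PS σ} {i j : σ} (h : i ≠ j) : hes f i j = co2 f i j := by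
  classical
  rw [hes, ← coeff_zero_eq_constantCoeff_apply, coeff_pderiv, coeff_pderiv, co2]
  simp [h.symm, add_comm]

lemma co2_comm (f : PS σ) (i j : σ) : co2 f i j = co2 f j i := by
  rw [co2, co2, add_comm]

lemma two_coeff (g : PS Unit) :
    constantCoeff (pderiv ℂ () (pderiv ℂ () g)) = 2 * coeff (Finsupp.single () 2) g := by
  rw [← coeff_zero_eq_constantCoeff_apply, coeff_pderiv, coeff_pderiv, zero_add,
    ← Finsupp.single_add]
  simp
  ring

lemma coeff2 (hCHN : SpecCHN) [Fintype σ] {a : σ → PS Unit} (ha : ∀ i, Z0 (a i)) (f : PS σ) :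
    2 * coeff (Finsupp.single () 2) (f.subst a) =
      ∑ i, ∑ j, hes f i j * lin (a i) () * lin (a j) () +
      ∑ i, lin f i * (2 * coeff (Finsupp.single () 2) (a i)) := by
  rw [← two_coeff, hCHN ℂ σ Unit f a ha (), map_sum, map_sum, ← Finset.sum_add_distrib]
  refine Finset.sum_congr rfl fun i _ => ?_
  rw [Derivation.leibniz, map_add, hCHN ℂ σ Unit (pderiv ℂ i f) a ha ()]
  simp only [smul_eq_mul, map_mul, map_sum, ccs ha, two_coeff, lin_eq, hes]
  rw [add_comm, Finset.mul_sum]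
  congr 1
  refine Finset.sum_congr rfl fun j _ => ?_
  ring

/-- the main computation -/
lemma main (hCHN : SpecCHN) {φ : Fin d → PS (Ki m d)} {Q : Fin d → PS (Mi m d)}
    (hφ : IsPhi φ) (hQ : IsSeg0 Q) (hφQ : IsQ φ Q) (a : Fin m → ℂ) (l : Fin d) :
    4 * Complex.I * (qd φ a l : ℂ) = ∑ i : Fin m, ∑ j : Fin m,
      (hes (Q l) (Sum.inl i) (Sum.inl j) * a i * a j +
        2 * co2 (Q l) (Sum.inl i) (Sum.inr (Sum.inl j)) * a i * conj (a j) +
        hes (Q l) (Sum.inr (Sum.inl i)) (Sum.inr (Sum.inl j)) * conj (a i) * conj (a j)) := by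
  have hr : ∀ k, Z0 (ray (m := m) (d := d) a k) := by
    rintro ((j | j) | j)
    · exact z0mul (z0X _)
    · exact z0mul (z0X _)
    · exact z00
  have hrc : (fun k => cj (ray (m := m) (d := d) a k)) = ray (d := d) a := by
    funext k
    rcases k with ((j | j) | j)
    · simp only [ray, Sum.elim_inl]
      rw [cjmul, cjC, cjX, Complex.conj_ofReal]
    · simp only [ray, Sum.elim_inl, Sum.elim_inr]
      rw [cjmul, cjC, cjX, Complex.conj_ofReal]
    · simp only [ray, Sum.elim_inr]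
      exact map_zero _
  have hpr : cj ((φ l).subst (ray (d := d) a)) = (φ l).subst (ray (d := d) a) := by
    rw [scj hr, hφ.real, hrc]
  have hreal : coeff (Finsupp.single () 2) ((φ l).subst (ray (d := d) a)) =
      (qd φ a l : ℂ) := by
    have h := congrArg (coeff (Finsupp.single () 2)) hpr
    rw [coeff_cj] at h
    exact (Complex.conj_eq_iff_re.mp h).symm
  have hlin0 : ∀ l, lin ((φ l).subst (ray (d := d) a)) () = 0 := by
    intro l
    rw [lin_subst hCHN hr]
    simp [hφ.lin]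
  have hz : ∀ i, Z0 (Zs φ i) := by
    rintro (j | j)
    · exact z0add (z0X _) (z0mul (z0X _))
    · exact z0add (z0X _) (z0mul (hφ.zero j))
  let E : Mi m d → PS (Ki m d) := Sum.elim (fun j => Zs φ (Sum.inl j)) (fun i => cj (Zs φ i))
  have hE : ∀ i, Z0 (E i) := by
    rintro (k | k)
    · exact hz (Sum.inl k)
    · exact z0cj (hz k)
  let c : Mi m d → PS Unit := fun i => (E i).subst (ray (d := d) a)
  have hc : ∀ i, Z0 (c i) := fun i => z0s hr (hE i)
  have hc1 : ∀ j, c (Sum.inl j) = C (a j) * X () := by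
    intro j
    simp only [c, E, Sum.elim_inl, Zs]
    rw [sadd hr, smul' hr, sC, sX hr, sX hr]
    simp only [ray, Sum.elim_inl, Sum.elim_inr]
    rw [← mul_assoc, ← map_mul, ← add_mul, ← map_add]
    congr 2
    rw [mul_comm]
    exact Complex.re_add_im (a j)
  have hc2 : ∀ j, c (Sum.inr (Sum.inl j)) = C (conj (a j)) * X () := by
    intro j
    have h : c (Sum.inr (Sum.inl j)) = cj (c (Sum.inl j)) := by
      simp only [c, E, Sum.elim_inl, Sum.elim_inr]
      rw [scj hr, hrc]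
    rw [h, hc1, cjmul, cjC, cjX]
  have hc3 : ∀ j, c (Sum.inr (Sum.inr j)) = -(C Complex.I * (φ j).subst (ray (d := d) a)) := by
    intro j
    simp only [c, E, Sum.elim_inr, Zs]
    rw [cjadd, cjmul, cjX, cjC, hφ.real, sadd hr, smul' hr, sC, sX hr]
    simp [ray]
  have heq : C Complex.I * (φ l).subst (ray (d := d) a) = (Q l).subst c := by
    have h := congrArg (fun f => f.subst (ray (d := d) a)) (hφQ l)
    rw [show (Q l).subst c = ((Q l).subst E).subst (ray (d := d) a) from (scomp hE hr _).symm]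
    rw [← h]
    simp only [Zs, Sum.elim_inr]
    rw [sadd hr, smul' hr, sC, sX hr]
    simp [ray]
  have h2 := coeff2 hCHN hc (Q l)
  rw [← heq] at h2
  simp only [Fintype.sum_sum_type, hc1, hc2, hc3, hQ.lin1, hQ.lin2, hQ.lin3] at h2
  have e1 : ∀ b : ℂ, lin (C b * X () : PS Unit) () = b := by
    intro b
    rw [lin_C_mul, lin_X]
    simp
  have e2 : ∀ l, lin (-(C Complex.I * (φ l).subst (ray (d := d) a))) () = 0 := by
    intro l
    have : -(C Complex.I * (φ l).subst (ray (d := d) a)) =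
      C (-Complex.I) * (φ l).subst (ray (d := d) a) := by
      rw [map_neg, neg_mul]
    rw [this, lin_C_mul, hlin0, mul_zero]
  have e3 : coeff (Finsupp.single () 2) (-(C Complex.I * (φ l).subst (ray (d := d) a))) =
      -(Complex.I * (qd φ a l : ℂ)) := by
    rw [map_neg, coeff_C_mul, hreal]
  have e4 : coeff (Finsupp.single () 2) (C Complex.I * (φ l).subst (ray (d := d) a)) =
      (Complex.I * (qd φ a l : ℂ)) := by
    rw [coeff_C_mul, hreal]
  simp only [e1, e2, mul_zero, zero_mul, Finset.sum_const_zero, add_zero, zero_add, ite_mul,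
    one_mul, Finset.sum_ite_eq, Finset.mem_univ, if_true, e3, e4] at h2
  have h3 : ∀ i j, hes (Q l) (Sum.inl i) (Sum.inr (Sum.inl j)) =
      co2 (Q l) (Sum.inl i) (Sum.inr (Sum.inl j)) := fun i j => hes_eq (by simp)
  have h4 : ∀ i j, hes (Q l) (Sum.inr (Sum.inl i)) (Sum.inl j) =
      co2 (Q l) (Sum.inl j) (Sum.inr (Sum.inl i)) := fun i j => by
    rw [hes_eq (by simp), co2_comm]
  simp only [h3, h4, Finset.sum_add_distrib] at h2 ⊢
  have h5 : ∑ i : Fin m, ∑ j : Fin m, co2 (Q l) (Sum.inl j) (Sum.inr (Sum.inl i)) *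
      conj (a i) * a j = ∑ i : Fin m, ∑ j : Fin m, co2 (Q l) (Sum.inl i) (Sum.inr (Sum.inl j)) *
      a i * conj (a j) := by
    rw [Finset.sum_comm]
    refine Finset.sum_congr rfl fun i _ => Finset.sum_congr rfl fun j _ => ?_
    ring
  rw [h5] at h2
  have h6 : ∑ i : Fin m, ∑ j : Fin m, 2 * co2 (Q l) (Sum.inl i) (Sum.inr (Sum.inl j)) *
      a i * conj (a j) = 2 * ∑ i : Fin m, ∑ j : Fin m,
        co2 (Q l) (Sum.inl i) (Sum.inr (Sum.inl j)) * a i * conj (a j) := by
    simp only [Finset.mul_sum, mul_assoc]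
  rw [h6]
  linear_combination h2

end QflM

open QflM

theorem specQFL (hCHN : SpecCHN) : SpecQFL := by
  intro m d φ Q hφ hQ hφQ ⟨a, ha⟩
  refine ⟨a, fun i k => conj (a i k), ?_⟩
  have key : ∀ i l, ∑ j, ∑ k, co2 (Q l) (Sum.inl j) (Sum.inr (Sum.inl k)) * a i j *
      conj (a i k) = 2 * Complex.I * (lev φ (a i) l : ℂ) := by
    intro i l
    have h1 := main hCHN hφ hQ hφQ (a i) l
    have h2 := main hCHN hφ hQ hφQ (Complex.I • a i) l
    have h3 : ∀ j k, (hes (Q l) (Sum.inl j) (Sum.inl k) * (Complex.I • a i) j *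
        (Complex.I • a i) k +
        2 * co2 (Q l) (Sum.inl j) (Sum.inr (Sum.inl k)) * (Complex.I • a i) j *
          conj ((Complex.I • a i) k) +
        hes (Q l) (Sum.inr (Sum.inl j)) (Sum.inr (Sum.inl k)) * conj ((Complex.I • a i) j) *
          conj ((Complex.I • a i) k)) =
        (-(hes (Q l) (Sum.inl j) (Sum.inl k) * a i j * a i k) +
        2 * co2 (Q l) (Sum.inl j) (Sum.inr (Sum.inl k)) * a i j * conj (a i k) -
        hes (Q l) (Sum.inr (Sum.inl j)) (Sum.inr (Sum.inl k)) * conj (a i j) *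
          conj (a i k)) := by
      intro j k
      simp only [Pi.smul_apply, smul_eq_mul, map_mul, Complex.conj_I]
      have hI := Complex.I_mul_I
      linear_combination (hes (Q l) (Sum.inl j) (Sum.inl k) * a i j * a i k -
        2 * co2 (Q l) (Sum.inl j) (Sum.inr (Sum.inl k)) * a i j * conj (a i k) +
        hes (Q l) (Sum.inr (Sum.inl j)) (Sum.inr (Sum.inl k)) * conj (a i j) *
          conj (a i k)) * hI
    simp only [h3] at h2
    simp only [Finset.sum_add_distrib, Finset.sum_sub_distrib, Finset.sum_neg_distrib] at h1 h2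
    have h6 : ∑ j : Fin m, ∑ k : Fin m, 2 * co2 (Q l) (Sum.inl j) (Sum.inr (Sum.inl k)) *
        a i j * conj (a i k) = 2 * ∑ j : Fin m, ∑ k : Fin m,
          co2 (Q l) (Sum.inl j) (Sum.inr (Sum.inl k)) * a i j * conj (a i k) := by
      simp only [Finset.mul_sum, mul_assoc]
    rw [h6] at h1 h2
    simp only [lev]
    push_cast
    linear_combination (-1 / 4 : ℂ) * h1 + (-1 / 4 : ℂ) * h2
  have hm : (Matrix.of fun i l : Fin d => ∑ j, ∑ k,
      co2 (Q l) (Sum.inl j) (Sum.inr (Sum.inl k)) * a i j * conj (a i k)) =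
      (2 * Complex.I) • ((Matrix.of fun i l : Fin d => lev φ (a i) l).map (algebraMap ℝ ℂ)) := by
    ext i l
    simp only [Matrix.of_apply, Matrix.smul_apply, Matrix.map_apply, smul_eq_mul]
    rw [key]
    rfl
  rw [hm, Matrix.det_smul, ← RingHom.mapMatrix_apply, ← RingHom.map_det]
  refine mul_ne_zero (pow_ne_zero _ (mul_ne_zero two_ne_zero Complex.I_ne_zero)) ?_
  simpa using ha

end

end Pool.Agent.Lib.MP_2184e2_an.Loc
end

section
/-!
# MP_2184e2_an, local theorem: module QFR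
-/
set_option autoImplicit false

namespace Pool.Agent.Lib.MP_2184e2_an.Loc

open MvPowerSeries Filter Topology Set SubC
open scoped ContDiff ComplexConjugate

noncomputable section

theorem specQFR (hIFT : SpecIFT) (hCNV : SpecCNV) (hCNS : SpecCNS) (hCHN : SpecCHN) :
    SpecQFR := by
  intro m d φ hφ
  let A : Fin m → PS (Mi m d) := fun j => X (Sum.inl j)
  let B : Fin m → PS (Mi m d) := fun j => X (Sum.inr (Sum.inl j))
  let W : Fin d → PS (Mi m d) := fun l => X (Sum.inr (Sum.inr l))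
  obtain ⟨Ψ, h1, h2, h3⟩ := sol hIFT hCNV hCNS hCHN hφ (-Complex.I) (A := A) (B := B) (W := W)
    (fun j => ⟨cX hCNV _, z0X _⟩) (fun j => ⟨cX hCNV _, z0X _⟩) (fun j => ⟨cX hCNV _, z0X _⟩)
  have hx0 : ∀ i, Z0 (xyu A B Ψ i) := xyu_z0 (fun j => z0X _) (fun j => z0X _) fun l => (h1 l).2
  let Q : Fin d → PS (Mi m d) := fun l => Ψ l + C Complex.I * (φ l).subst (xyu A B Ψ)
  have key : ∀ (T : Type) [Finite T] (g : Mi m d → PS T) (u : Fin d → PS T), (∀ k, Z0 (g k)) →
      (∀ l, Z0 (u l)) → (∀ l, u l + C (-Complex.I) * (φ l).subst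
        (xyu (fun j => g (Sum.inl j)) (fun j => g (Sum.inr (Sum.inl j))) u) =
          g (Sum.inr (Sum.inr l))) →
      ∀ l, (Q l).subst g = u l + C Complex.I * (φ l).subst
        (xyu (fun j => g (Sum.inl j)) (fun j => g (Sum.inr (Sum.inl j))) u) := by
    intro T _ g u hg hu h l
    have hA : (fun j => (A j).subst g) = fun j => g (Sum.inl j) := by
      funext j
      exact sX hg _
    have hB : (fun j => (B j).subst g) = fun j => g (Sum.inr (Sum.inl j)) := by
      funext j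
      exact sX hg _
    have hΨ : ∀ l, u l = (Ψ l).subst g := by
      refine h3 T g u hg hu fun l => ?_
      rw [hA, hB, h l]
      exact (sX hg _).symm
    simp only [Q]
    rw [sadd hg, smul' hg, sC, scomp hx0 hg, ← hΨ l]
    congr 3
    funext i
    rw [xyu_subst hg, hA, hB]
    congr 1
    funext l
    exact (hΨ l).symm
  have hQ2 : ∀ l, Q l = X (Sum.inr (Sum.inr l)) + C (2 * Complex.I) *
      (φ l).subst (xyu A B Ψ) := by
    intro l
    have := h2 l
    simp only [Q, W, map_neg, map_mul] at this ⊢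
    rw [← two_eq]
    linear_combination this
  have hlin : ∀ l k, lin (Q l) k = lin (X (Sum.inr (Sum.inr l)) : PS (Mi m d)) k := by
    intro l k
    rw [hQ2, lin_add, lin_C_mul, lin_subst hCHN hx0]
    simp [hφ.lin]
  refine ⟨Q, ⟨?_, ?_, ?_, ?_, ?_, ?_, ?_⟩, ?_⟩
  · intro l
    exact cadd hCNV (h1 l).1 (cmul hCNV (cC hCNV _) (cs hCNV hCNS (hφ.conv l)
      (xyu_cv hCNV (fun j => cX hCNV _) (fun j => cX hCNV _) fun l => (h1 l).1) hx0))
  · intro l
    exact z0add (h1 l).2 (z0mul (z0s hx0 (hφ.zero l)))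
  · intro l j
    rw [hlin, lin_X]
    simp
  · intro l j
    rw [hlin, lin_X]
    simp
  · intro l k
    rw [hlin, lin_X]
    simp [eq_comm]
  · -- reality
    let b : Mi m d → PS (Zi m d ⊕ Fin m) := Sum.elim (fun j => X (Sum.inr j)) (fun i => X (Sum.inl i))
    have hb : ∀ k, Z0 (b k) := by
      rintro (k | k)
      · exact z0X _
      · exact z0X _
    have hbc : (fun k => cj (b k)) = b := by
      funext k
      rcases k with k | k
      · exact cjX _
      · exact cjX _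
    let U : Fin d → PS (Zi m d ⊕ Fin m) := fun l => (Ψ l).subst b
    have hU : ∀ l, Z0 (U l) := fun l => z0s hb (h1 l).2
    have hUeq : ∀ l, U l + C (-Complex.I) * (φ l).subst
        (xyu (fun j => b (Sum.inl j)) (fun j => b (Sum.inr (Sum.inl j))) U) =
          b (Sum.inr (Sum.inr l)) := by
      intro l
      have h4 : (Ψ l + C (-Complex.I) * (φ l).subst (xyu A B Ψ)).subst b = (W l).subst b := by
        rw [h2 l]
      rw [sadd hb, smul' hb, sC, scomp hx0 hb] at h4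
      have h5 : (fun i => (xyu A B Ψ i).subst b) =
          xyu (fun j => b (Sum.inl j)) (fun j => b (Sum.inr (Sum.inl j))) U := by
        funext i
        rw [xyu_subst hb]
        congr 1
        · funext j
          exact sX hb _
        · funext j
          exact sX hb _
      rw [h5] at h4
      rw [show (W l).subst b = b (Sum.inr (Sum.inr l)) from sX hb _] at h4
      exact h4
    have hQb := key (Zi m d ⊕ Fin m) b U hb hU hUeq
    let U' : Fin d → PS (Zi m d ⊕ Fin m) := fun l => cj (U l)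
    have hU' : ∀ l, Z0 (U' l) := fun l => z0cj (hU l)
    let P : Ki m d → PS (Zi m d ⊕ Fin m) :=
      xyu (fun j => X (Sum.inl (Sum.inl j))) (fun j => X (Sum.inr j)) U'
    have hbx : ∀ i, Z0 (xyu (fun j => b (Sum.inl j)) (fun j => b (Sum.inr (Sum.inl j))) U i) :=
      xyu_z0 (fun j => hb _) (fun j => hb _) hU
    have hcx : (fun i => cj (xyu (fun j => b (Sum.inl j)) (fun j => b (Sum.inr (Sum.inl j))) U i))
        = P := by
      funext i
      rw [xyu_cj]
      congr 1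
      · funext j
        exact cjX _
      · funext j
        exact cjX _
    -- conjugated equation
    have hUc : ∀ l, U' l + C Complex.I * (φ l).subst P =
        (X (Sum.inl (Sum.inr l)) : PS (Zi m d ⊕ Fin m)) := by
      intro l
      have h4 := congrArg cj (hUeq l)
      rw [cjadd, cjmul, cjC, scj hbx, hφ.real, hcx] at h4
      simpa [U', b, cjX] using h4
    have hτ : ∀ l, (cj (Q l)).subst b = U' l + C (-Complex.I) * (φ l).subst P := by
      intro l
      have h5 : (cj (Q l)).subst b = cj ((Q l).subst b) := by rw [scj hb, hbc]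
      rw [h5, hQb l, cjadd, cjmul, cjC, scj hbx, hφ.real, hcx, Complex.conj_I]
    intro l
    have hc : ∀ k, Z0 ((Sum.elim (fun j => X (Sum.inl (Sum.inl j)))
        (pr (cjQ Q) (fun j => X (Sum.inr j)) (fun i => X (Sum.inl i))) :
        Mi m d → PS (Zi m d ⊕ Fin m)) k) := by
      rintro (k | k | k)
      · exact z0X _
      · exact z0X _
      · simp only [Sum.elim_inr, pr, cjQ]
        exact z0s hb (z0cj (z0add (h1 k).2 (z0mul (z0s hx0 (hφ.zero k)))))
    have h6 := key (Zi m d ⊕ Fin m) (Sum.elim (fun j => X (Sum.inl (Sum.inl j)))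
        (pr (cjQ Q) (fun j => X (Sum.inr j)) (fun i => X (Sum.inl i)))) U' hc hU' (by
      intro l
      simp only [Sum.elim_inl, Sum.elim_inr, pr, cjQ]
      exact (hτ l).symm) l
    rw [h6]
    exact hUc l
  · -- curves
    intro a
    let u : Fin d → PS Unit := fun l => C ((a (Sum.inr l) : ℝ) : ℂ) * X ()
    let c : Fin m → PS Unit := fun j => C ((a (Sum.inl j) : ℝ) : ℂ) * X ()
    have hu : ∀ l, Z0 (u l) := fun l => z0mul (z0X _)
    have hc : ∀ j, Z0 (c j) := fun j => z0mul (z0X _)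
    have hcu : ∀ l, cj (u l) = u l := by
      intro l
      simp only [u]
      rw [cjmul, cjC, cjX, Complex.conj_ofReal]
    have hcc : ∀ j, cj (c j) = c j := by
      intro l
      simp only [c]
      rw [cjmul, cjC, cjX, Complex.conj_ofReal]
    have hp := xyu_z0 hc hc hu
    have hpc : (fun i => cj (xyu c c u i)) = xyu c c u := by
      funext i
      rw [xyu_cj]
      simp only [hcc, hcu]
    refine ⟨Sum.elim c (fun l => u l + C Complex.I * (φ l).subst (xyu c c u)), ?_, ?_⟩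
    · rintro (j | l)
      · refine ⟨hc j, ?_⟩
        simp only [Sum.elim_inl, c]
        rw [lin_C_mul, lin_X]
        simp
      · refine ⟨z0add (hu l) (z0mul (z0s hp (hφ.zero l))), ?_⟩
        simp only [Sum.elim_inr, u]
        rw [lin_add, lin_C_mul, lin_C_mul, lin_subst hCHN hp, lin_X]
        simp [hφ.lin]
    · intro l
      have h6 := key Unit (Sum.elim (fun j => c j) (fun i => cj ((Sum.elim c
        (fun l => u l + C Complex.I * (φ l).subst (xyu c c u)) : Zi m d → PS Unit) i))) u (by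
        rintro (k | k | k)
        · exact hc k
        · exact z0cj (hc k)
        · exact z0cj (z0add (hu k) (z0mul (z0s hp (hφ.zero k))))) hu (by
        intro l
        simp only [Sum.elim_inl, Sum.elim_inr]
        rw [cjadd, hcu, cjmul, cjC, scj hp, hφ.real, hpc]
        simp only [hcc, Complex.conj_I]) l
      simp only [Sum.elim_inl, Sum.elim_inr] at h6 ⊢
      rw [h6]
      simp only [hcc]
  · -- IsQ
    intro l
    have hz : ∀ i, Z0 (Zs φ i) := by
      rintro (j | j)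
      · exact z0add (z0X _) (z0mul (z0X _))
      · exact z0add (z0X _) (z0mul (hφ.zero j))
    have h7 : ∀ j : Fin m, cj (Zs φ (Sum.inl j)) =
        X (Sum.inl (Sum.inl j)) - C Complex.I * X (Sum.inl (Sum.inr j)) := by
      intro j
      simp only [Zs, Sum.elim_inl]
      rw [cjadd, cjmul, cjC, cjX, cjX, Complex.conj_I, map_neg]
      ring
    have hself : (xyu (fun j => Zs φ (Sum.inl j)) (fun j => cj (Zs φ (Sum.inl j)))
        (fun l => X (Sum.inr l)) : Ki m d → PS (Ki m d)) = fun i => X i := by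
      simp only [h7]
      exact xyu_self
    have h6 := key (Ki m d) (Sum.elim (fun j => Zs φ (Sum.inl j)) (fun i => cj (Zs φ i)))
      (fun l => X (Sum.inr l)) (by
        rintro (k | k)
        · exact hz (Sum.inl k)
        · exact z0cj (hz k)) (fun l => z0X _) (by
        intro l
        simp only [Sum.elim_inl, Sum.elim_inr]
        rw [hself, sself]
        simp only [Zs, Sum.elim_inr]
        rw [cjadd, cjmul, cjC, cjX, hφ.real, Complex.conj_I]) l
    rw [h6]
    simp only [Sum.elim_inl, Sum.elim_inr]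
    rw [hself, sself]
    rfl

end

end Pool.Agent.Lib.MP_2184e2_an.Loc
end

section
/-!
# MP_2184e2_an, local theorem: evaluation at real points, Taylor expansions of sums
-/
set_option autoImplicit false

namespace Pool.Agent.Lib.MP_2184e2_an.Loc.EvC

open MvPowerSeries Filter Topology Set SubC
open scoped ContDiff ComplexConjugate

noncomputable section

variable {κ ι : Type} [Fintype κ] [DecidableEq κ]

/-- `rl` as a continuous linear map -/
def rlL (κ : Type) [Fintype κ] : (κ → ℝ) →L[ℝ] (κ → ℂ) :=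
  ContinuousLinearMap.pi fun k => Complex.ofRealCLM.comp (ContinuousLinearMap.proj k)

omit [DecidableEq κ] in
lemma rlL_apply (x : κ → ℝ) : rlL κ x = rl x := by
  ext k
  simp [rlL, rl]

omit [Fintype κ] [DecidableEq κ] in
lemma rl_zero : rl (0 : κ → ℝ) = 0 := by
  ext k
  simp [rl]

omit [Fintype κ] in
lemma rl_single (k : κ) : rl (Pi.single k 1 : κ → ℝ) = Pi.single k 1 := by
  ext j
  by_cases h : j = k
  · subst h
    simp [rl]
  · simp [rl, h]

omit [Fintype κ] [DecidableEq κ] in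
lemma rl_conj (x : κ → ℝ) : (fun i => conj (rl x i)) = rl x := by
  ext k
  simp [rl]

omit [DecidableEq κ] in
lemma tendsto_rl : Tendsto (rl : (κ → ℝ) → κ → ℂ) (𝓝 0) (𝓝 0) := by
  have h := (rlL κ).continuous.tendsto 0
  rw [map_zero] at h
  exact h.congr fun x => rlL_apply x

lemma ev_sum (hEVA : SpecEVA) (hCNV : SpecCNV) {α : Type} (s : Finset α) (F : α → PS κ)
    (hF : ∀ k, Conv (F k)) :
    ∀ᶠ x in 𝓝 (0 : κ → ℂ), ev (∑ k ∈ s, F k) x = ∑ k ∈ s, ev (F k) x := by
  classical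
  have hc : ∀ s : Finset α, Conv (∑ k ∈ s, F k) := by
    intro s
    induction s using Finset.induction_on with
    | empty => simpa using c0 hCNV
    | insert a s has ih =>
      rw [Finset.sum_insert has]
      exact cadd hCNV (hF a) ih
  induction s using Finset.induction_on with
  | empty =>
    refine Eventually.of_forall fun x => ?_
    have := (hEVA κ).2.2.1 0 x
    simpa using this
  | insert a s has ih =>
    have h := (hEVA κ).2.1 (F a) (∑ k ∈ s, F k) (hF a) (hc s)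
    filter_upwards [ih, h] with x h1 h2
    rw [Finset.sum_insert has, h2.1, h1, Finset.sum_insert has]

lemma an_rl (hEVA : SpecEVA) {F : PS κ} (hF : Conv F) :
    AnalyticAt ℝ (fun x : κ → ℝ => ev F (rl x)) 0 := by
  have h1 := ((hEVA κ).1 F hF).1
  have h2 : AnalyticAt ℝ (ev F) (rlL κ 0) := by
    rw [map_zero]
    exact h1.restrictScalars
  have h3 : AnalyticAt ℝ (fun x : κ → ℝ => rlL κ x) 0 := (rlL κ).analyticAt 0
  have h4 := h2.comp h3
  have h5 : (ev F ∘ fun x : κ → ℝ => rlL κ x) = fun x : κ → ℝ => ev F (rl x) := by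
    funext x
    simp [rlL_apply]
  rwa [h5] at h4

lemma cd_rl (hEVA : SpecEVA) {F : PS κ} (hF : Conv F) :
    ContDiffAt ℝ ∞ (fun x : κ → ℝ => ev F (rl x)) 0 := (an_rl hEVA hF).contDiffAt

lemma pd_rl (hEVA : SpecEVA) {F : PS κ} (hF : Conv F) (k : κ) :
    ∀ᶠ x in 𝓝 (0 : κ → ℝ), pd (fun y => ev F (rl y)) k x = ev (pderiv ℂ k F) (rl x) := by
  have h1 := ((hEVA κ).1 F hF).1
  have h2 := tendsto_rl.eventually h1.eventually_analyticAt
  have h3 := tendsto_rl.eventually ((hEVA κ).2.2.2.2.1 F k hF)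
  filter_upwards [h2, h3] with x hx1 hx2
  rw [← hx2, pd]
  have h4 : HasFDerivAt (ev F) (fderiv ℂ (ev F) (rl x)) (rl x) :=
    hx1.differentiableAt.hasFDerivAt
  have h5 : HasFDerivAt (ev F) ((fderiv ℂ (ev F) (rl x)).restrictScalars ℝ) (rlL κ x) := by
    rw [rlL_apply]
    exact h4.restrictScalars ℝ
  have h6 := h5.comp x (rlL κ).hasFDerivAt
  have h7 : (ev F ∘ fun x : κ → ℝ => rlL κ x) = fun x : κ → ℝ => ev F (rl x) := by
    funext x
    simp [rlL_apply]
  have h8 : HasFDerivAt (fun x : κ → ℝ => ev F (rl x))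
      (((fderiv ℂ (ev F) (rl x)).restrictScalars ℝ).comp (rlL κ)) x := by
    rw [← h7]
    exact h6
  rw [h8.fderiv]
  simp [rlL_apply, rl_single]

lemma cd_pd {g : (κ → ℝ) → ℂ} (hg : ContDiffAt ℝ ∞ g 0) (k : κ) :
    ContDiffAt ℝ ∞ (pd g k) 0 := by
  have h : ContDiffAt ℝ ∞ (fderiv ℝ g) 0 := hg.fderiv_right (by simp)
  exact h.clm_apply contDiffAt_const

lemma T_zero (hTAYM : SpecTAYM) {T : ((κ → ℝ) → ℂ) → PS κ} (hT : IsTay T) :
    T (fun _ => 0) = 0 := by
  have h := ((hTAYM κ T hT).1 (fun _ => 0) (fun _ => 0) contDiffAt_const contDiffAt_const).1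
  simpa using h

lemma T_sum (hTAYM : SpecTAYM) {T : ((κ → ℝ) → ℂ) → PS κ} (hT : IsTay T) {α : Type}
    (s : Finset α) (h : α → (κ → ℝ) → ℂ) (hh : ∀ k, ContDiffAt ℝ ∞ (h k) 0) :
    T (fun x => ∑ k ∈ s, h k x) = ∑ k ∈ s, T (h k) := by
  classical
  induction s using Finset.induction_on with
  | empty => simpa using T_zero hTAYM hT
  | insert a s has ih =>
    simp only [Finset.sum_insert has]
    rw [((hTAYM κ T hT).1 (h a) (fun x => ∑ k ∈ s, h k x) (hh a)
      (ContDiffAt.sum fun k _ => hh k)).1, ih]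

end

end Pool.Agent.Lib.MP_2184e2_an.Loc.EvC
end

section
/-!
# MP_2184e2_an, local theorem: module TOHF
-/
set_option autoImplicit false

namespace Pool.Agent.Lib.MP_2184e2_an.Loc

open MvPowerSeries Filter Topology Set SubC
open scoped ContDiff ComplexConjugate

noncomputable section

namespace TohfM

variable {ι μ : Type} {m d : ℕ}

/-- `(Z, χ)` as functions of `(x, y, s)` -/
def ee (φ : Fin d → PS (Ki m d)) : Zi m d ⊕ Fin m → PS (Ki m d) :=
  Sum.elim (Zs φ) (fun j => cj (Zs φ (Sum.inl j)))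

/-- the coordinates `(Z, χ)` -/
structure IsCo (φ : Fin d → PS (Ki m d)) (b : Ki m d → PS (Zi m d ⊕ Fin m)) : Prop where
  conv : ∀ k, Conv (b k)
  zero : ∀ k, Z0 (b k)
  left : ∀ i, (ee φ i).subst b = X i
  right : ∀ k, (b k).subst (ee φ) = X k

lemma ee_z0 {φ : Fin d → PS (Ki m d)} (hφ : IsPhi φ) (i : Zi m d ⊕ Fin m) : Z0 (ee φ i) := by
  rcases i with ((j | j) | j)
  · exact z0add (z0X _) (z0mul (z0X _))
  · exact z0add (z0X _) (z0mul (hφ.zero j))
  · exact z0cj (z0add (z0X _) (z0mul (z0X _)))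

lemma ee_conv (hCNV : SpecCNV) {φ : Fin d → PS (Ki m d)} (hφ : IsPhi φ) (i : Zi m d ⊕ Fin m) :
    Conv (ee φ i) := by
  rcases i with ((j | j) | j)
  · exact cadd hCNV (cX hCNV _) (cmul hCNV (cC hCNV _) (cX hCNV _))
  · exact cadd hCNV (cX hCNV _) (cmul hCNV (cC hCNV _) (hφ.conv j))
  · exact ccj (cadd hCNV (cX hCNV _) (cmul hCNV (cC hCNV _) (cX hCNV _)))

lemma cj_Zs (φ : Fin d → PS (Ki m d)) (j : Fin m) : cj (Zs φ (Sum.inl j)) =
    X (Sum.inl (Sum.inl j)) - C Complex.I * X (Sum.inl (Sum.inr j)) := by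
  simp only [Zs, Sum.elim_inl]
  rw [cjadd, cjmul, cjC, cjX, cjX, Complex.conj_I, map_neg]
  ring

lemma exists_co (hIFT : SpecIFT) (hCNV : SpecCNV) (hCNS : SpecCNS) (hCHN : SpecCHN)
    {φ : Fin d → PS (Ki m d)} (hφ : IsPhi φ) : ∃ b, IsCo φ b := by
  obtain ⟨Ψ, h1, h2, h3⟩ := sol hIFT hCNV hCNS hCHN hφ Complex.I (κ := Zi m d ⊕ Fin m)
    (A := fun j => X (Sum.inl (Sum.inl j))) (B := fun j => X (Sum.inr j))
    (W := fun l => X (Sum.inl (Sum.inr l)))
    (fun j => ⟨cX hCNV _, z0X _⟩) (fun j => ⟨cX hCNV _, z0X _⟩) (fun j => ⟨cX hCNV _, z0X _⟩)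
  have hb0 : ∀ k, Z0 ((xyu (fun j => X (Sum.inl (Sum.inl j))) (fun j => X (Sum.inr j)) Ψ :
      Ki m d → PS (Zi m d ⊕ Fin m)) k) :=
    xyu_z0 (fun j => z0X _) (fun j => z0X _) fun l => (h1 l).2
  refine ⟨xyu (fun j => X (Sum.inl (Sum.inl j))) (fun j => X (Sum.inr j)) Ψ, ⟨?_, hb0, ?_, ?_⟩⟩
  · exact xyu_cv hCNV (fun j => cX hCNV _) (fun j => cX hCNV _) fun l => (h1 l).1
  · rintro ((j | j) | j)
    · simp only [ee, Zs, Sum.elim_inl]
      rw [sadd hb0, smul' hb0, sC, sX hb0, sX hb0, xyu_p]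
    · simp only [ee, Zs, Sum.elim_inl, Sum.elim_inr]
      rw [sadd hb0, smul' hb0, sC, sX hb0]
      exact h2 j
    · simp only [ee, Sum.elim_inr]
      rw [cj_Zs, ssub hb0, smul' hb0, sC, sX hb0, sX hb0, xyu_m]
  · have he := ee_z0 hφ
    have hself : (xyu (fun j => Zs φ (Sum.inl j)) (fun j => cj (Zs φ (Sum.inl j)))
        (fun l => X (Sum.inr l)) : Ki m d → PS (Ki m d)) = fun i => X i := by
      simp only [cj_Zs]
      exact xyu_self
    have hA : (fun j : Fin m => (X (Sum.inl (Sum.inl j)) : PS (Zi m d ⊕ Fin m)).subst (ee φ)) =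
        fun j => Zs φ (Sum.inl j) := by
      funext j
      exact sX he _
    have hB : (fun j : Fin m => (X (Sum.inr j) : PS (Zi m d ⊕ Fin m)).subst (ee φ)) =
        fun j => cj (Zs φ (Sum.inl j)) := by
      funext j
      exact sX he _
    have h4 := h3 (Ki m d) (ee φ) (fun l => X (Sum.inr l)) he (fun l => z0X _) (by
      intro l
      rw [hA, hB, hself, sself, sX he]
      rfl)
    intro k
    rw [xyu_subst he, hA, hB]
    rw [show (fun l => (Ψ l).subst (ee φ)) = fun l => X (Sum.inr l) from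
      funext fun l => (h4 l).symm, hself]

lemma coeff_eq_zero {f : PS (ι ⊕ μ)} {j : μ} (h : pderiv ℂ (Sum.inr j) f = 0)
    {n : ι ⊕ μ →₀ ℕ} (hn : n (Sum.inr j) ≠ 0) : coeff n f = 0 := by
  classical
  have h1 : n = (n - Finsupp.single (Sum.inr j) 1) + Finsupp.single (Sum.inr j) 1 := by
    ext i
    by_cases hi : i = Sum.inr j
    · subst hi
      simp
      omega
    · simp [Ne.symm hi]
  have h2 := congrArg (coeff (n - Finsupp.single (Sum.inr j) 1)) h
  rw [coeff_pderiv, ← h1, map_zero] at h2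
  have h3 : (((n - Finsupp.single (Sum.inr j) 1 : ι ⊕ μ →₀ ℕ) (Sum.inr j) : ℕ) : ℂ) + 1 ≠ 0 := by
    exact Nat.cast_add_one_ne_zero _
  exact (mul_eq_zero.mp h2).resolve_right h3

lemma prod_eq {n : ι ⊕ μ →₀ ℕ} (hn : ∀ j, n (Sum.inr j) = 0) :
    (n.prod fun s e => ((Sum.elim (fun i => (X (Sum.inl i) : PS (ι ⊕ μ))) fun _ => 0) s) ^ e) =
      monomial n 1 := by
  rw [monomial_one_eq]
  refine Finsupp.prod_congr fun s hs => ?_
  rcases s with i | j
  · rfl
  · exact absurd (hn j) (Finsupp.mem_support_iff.mp hs)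

lemma indep [Finite ι] [Finite μ] (f : PS (ι ⊕ μ)) (h : ∀ j, pderiv ℂ (Sum.inr j) f = 0) :
    (f.subst (Sum.elim (fun i => (X i : PS ι)) (fun _ => 0))).subst (iL : ι → PS (ι ⊕ μ)) = f := by
  classical
  have h1 : ∀ i : ι ⊕ μ, Z0 ((Sum.elim (fun i => (X i : PS ι)) (fun _ => 0) : ι ⊕ μ → PS ι) i) := by
    rintro (i | i)
    · exact z0X _
    · exact z00
  have h2 : ∀ i : ι, Z0 ((iL : ι → PS (ι ⊕ μ)) i) := fun i => z0X _
  have h4 : ∀ i : ι ⊕ μ, Z0 ((Sum.elim (fun i => (X (Sum.inl i) : PS (ι ⊕ μ))) fun _ => 0) i) := by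
    rintro (i | i)
    · exact z0X _
    · exact z00
  rw [scomp h1 h2]
  have h3 : (fun i => (((Sum.elim (fun i => (X i : PS ι)) (fun _ => 0) : ι ⊕ μ → PS ι) i)).subst
      (iL : ι → PS (ι ⊕ μ))) = Sum.elim (fun i => (X (Sum.inl i) : PS (ι ⊕ μ))) fun _ => 0 := by
    funext i
    rcases i with i | i
    · exact sX h2 i
    · exact s0 h2
  rw [h3]
  ext n
  rw [coeff_subst (hs h4), finsum_eq_single _ n]
  · by_cases hn : ∀ j, n (Sum.inr j) = 0
    · rw [prod_eq hn, coeff_monomial_same]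
      simp
    · push Not at hn
      obtain ⟨j, hj⟩ := hn
      rw [coeff_eq_zero (h j) hj, zero_smul]
  · intro n' hn'
    by_cases hn : ∀ j, n' (Sum.inr j) = 0
    · rw [prod_eq hn, coeff_monomial_ne hn'.symm, smul_zero]
    · push Not at hn
      obtain ⟨j, hj⟩ := hn
      rw [coeff_eq_zero (h j) hj, zero_smul]

/-- the CR vector fields -/
def fld (φ : Fin d → PS (Ki m d)) (b : Ki m d → PS (Zi m d ⊕ Fin m)) (j : Fin m)
    (k : Ki m d) : PS (Ki m d) := (pderiv ℂ (Sum.inr j) (b k)).subst (ee φ)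

lemma fld_kills (hCHN : SpecCHN) {φ : Fin d → PS (Ki m d)} (hφ : IsPhi φ)
    {b : Ki m d → PS (Zi m d ⊕ Fin m)} (hb : IsCo φ b) (j : Fin m) (i : Zi m d) :
    ∑ k, fld φ b j k * pderiv ℂ k (Zs φ i) = 0 := by
  have he := ee_z0 hφ
  have h1 := hCHN ℂ (Ki m d) (Zi m d ⊕ Fin m) (Zs φ i) b hb.zero (Sum.inr j)
  have h2 : (Zs φ i).subst b = X (Sum.inl i) := hb.left (Sum.inl i)
  rw [h2] at h1
  have h3 : pderiv ℂ (Sum.inr j) (X (Sum.inl i) : PS (Zi m d ⊕ Fin m)) = 0 :=
    pderiv_X_of_ne (by simp)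
  rw [h3] at h1
  have h4 : ((0 : PS (Zi m d ⊕ Fin m))).subst (ee φ) =
      (∑ k, (pderiv ℂ k (Zs φ i)).subst b * pderiv ℂ (Sum.inr j) (b k)).subst (ee φ) := by
    rw [← h1]
  rw [s0 he, ssum he] at h4
  rw [h4]
  refine Finset.sum_congr rfl fun k _ => ?_
  rw [smul' he, scomp hb.zero he, mul_comm]
  congr 1
  simp only [hb.right]
  exact (sself _).symm

lemma exists_H (hCNV : SpecCNV) (hCNS : SpecCNS) (hCHN : SpecCHN) {φ : Fin d → PS (Ki m d)}
    (hφ : IsPhi φ) {b : Ki m d → PS (Zi m d ⊕ Fin m)} (hb : IsCo φ b) (G : PS (Ki m d))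
    (hG : ∀ j, ∑ k, fld φ b j k * pderiv ℂ k G = 0) :
    ∃ H : PS (Zi m d), G = H.subst (Zs φ) ∧ (Conv G → Conv H) := by
  have he := ee_z0 hφ
  have hder : ∀ j, pderiv ℂ (Sum.inr j) (G.subst b) = 0 := by
    intro j
    rw [hCHN ℂ (Ki m d) (Zi m d ⊕ Fin m) G b hb.zero (Sum.inr j)]
    have h1 : (∑ k, fld φ b j k * pderiv ℂ k G).subst b = (0 : PS (Zi m d ⊕ Fin m)) := by
      rw [hG j, s0 hb.zero]
    rw [ssum hb.zero] at h1
    rw [← h1]
    refine Finset.sum_congr rfl fun k _ => ?_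
    rw [smul' hb.zero, mul_comm]
    congr 1
    rw [fld, scomp he hb.zero]
    simp only [hb.left]
    exact (sself _).symm
  have h1 : ∀ i : Zi m d ⊕ Fin m,
      Z0 ((Sum.elim (fun i => (X i : PS (Zi m d))) (fun _ => 0) : _ → PS (Zi m d)) i) := by
    rintro (i | i)
    · exact z0X _
    · exact z00
  refine ⟨(G.subst b).subst (Sum.elim (fun i => (X i : PS (Zi m d))) (fun _ => 0)), ?_, ?_⟩
  · have h2 := indep (G.subst b) hder
    have h3 : (G.subst b).subst (ee φ) = G := by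
      rw [scomp hb.zero he]
      simp only [hb.right]
      exact sself _
    have h4 : ∀ i : Zi m d, Z0 ((iL : Zi m d → PS (Zi m d ⊕ Fin m)) i) := fun i => z0X _
    have h5 : (fun i => ((iL : Zi m d → PS (Zi m d ⊕ Fin m)) i).subst (ee φ)) = Zs φ := by
      funext i
      exact sX he _
    calc G = (G.subst b).subst (ee φ) := h3.symm
      _ = (((G.subst b).subst (Sum.elim (fun i => (X i : PS (Zi m d))) (fun _ => 0))).subst
          (iL : Zi m d → PS (Zi m d ⊕ Fin m))).subst (ee φ) := by rw [h2]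
      _ = _ := by rw [scomp h4 he, h5]
  · intro hc
    refine cs hCNV hCNS (cs hCNV hCNS hc hb.conv hb.zero) ?_ h1
    rintro (i | i)
    · exact cX hCNV _
    · exact c0 hCNV

end TohfM

open TohfM

theorem specTOHF (hIFT : SpecIFT) (hCNV : SpecCNV) (hCNS : SpecCNS) (hCHN : SpecCHN) :
    SpecTOHF := by
  intro m d φ hφ G hG
  obtain ⟨b, hb⟩ := exists_co hIFT hCNV hCNS hCHN hφ
  exact exists_H hCNV hCNS hCHN hφ hb G fun j => hG _ (fld_kills hCHN hφ hb j)

end

end Pool.Agent.Lib.MP_2184e2_an.Loc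
end

section
/-!
# MP_2184e2_an, local theorem: module REL
-/
set_option autoImplicit false

namespace Pool.Agent.Lib.MP_2184e2_an.Loc

open MvPowerSeries Filter Topology Set SubC EvC TohfM
open scoped ContDiff ComplexConjugate

noncomputable section

namespace RelM

variable {m d N : ℕ}

/-- `(z, ζ)` on the graph -/
def ez (φ : Fin d → PS (Ki m d)) : Mi m d → PS (Ki m d) :=
  Sum.elim (fun j => Zs φ (Sum.inl j)) (fun i => cj (Zs φ i))

lemma Zs_z0 {φ : Fin d → PS (Ki m d)} (hφ : IsPhi φ) (i : Zi m d) : Z0 (Zs φ i) :=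
  ee_z0 hφ (Sum.inl i)

lemma Zs_conv (hCNV : SpecCNV) {φ : Fin d → PS (Ki m d)} (hφ : IsPhi φ) (i : Zi m d) :
    Conv (Zs φ i) := ee_conv hCNV hφ (Sum.inl i)

lemma ez_z0 {φ : Fin d → PS (Ki m d)} (hφ : IsPhi φ) (i : Mi m d) : Z0 (ez φ i) := by
  rcases i with j | j
  · exact Zs_z0 hφ (Sum.inl j)
  · exact z0cj (Zs_z0 hφ j)

lemma exists_b (hIFT : SpecIFT) (hCNV : SpecCNV) (hCNS : SpecCNS) (hCHN : SpecCHN)
    {φ : Fin d → PS (Ki m d)} (hφ : IsPhi φ) :
    ∃ b : Ki m d → PS (Mi m d), (∀ k, Z0 (b k)) ∧ ∀ i, (ez φ i).subst b = X i := by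
  obtain ⟨Ψ, h1, h2, -⟩ := sol hIFT hCNV hCNS hCHN hφ (-Complex.I) (κ := Mi m d)
    (A := fun j => X (Sum.inl j)) (B := fun j => X (Sum.inr (Sum.inl j)))
    (W := fun l => X (Sum.inr (Sum.inr l)))
    (fun j => ⟨cX hCNV _, z0X _⟩) (fun j => ⟨cX hCNV _, z0X _⟩) (fun j => ⟨cX hCNV _, z0X _⟩)
  have hb0 : ∀ k, Z0 ((xyu (fun j => X (Sum.inl j)) (fun j => X (Sum.inr (Sum.inl j))) Ψ :
      Ki m d → PS (Mi m d)) k) :=
    xyu_z0 (fun j => z0X _) (fun j => z0X _) fun l => (h1 l).2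
  refine ⟨_, hb0, ?_⟩
  rintro (j | j | j)
  · simp only [ez, Zs, Sum.elim_inl]
    rw [sadd hb0, smul' hb0, sC, sX hb0, sX hb0, xyu_p]
  · simp only [ez, Sum.elim_inr]
    rw [cj_Zs, ssub hb0, smul' hb0, sC, sX hb0, sX hb0, xyu_m]
  · simp only [ez, Zs, Sum.elim_inr]
    rw [cjadd, cjmul, cjC, cjX, hφ.real, Complex.conj_I, sadd hb0, smul' hb0, sC, sX hb0]
    exact h2 j

/-- `(H, H̄)` on the graph -/
lemma argH_ez {φ : Fin d → PS (Ki m d)} {Q : Fin d → PS (Mi m d)} (hφ : IsPhi φ)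
    (hQ : IsSeg0 Q) (hφQ : IsQ φ Q) (H : Fin N → PS (Zi m d)) (i : Fin N ⊕ Fin N) :
    (argH Q H i).subst (ez φ) = (Sum.elim (fun j => (H j).subst (Zs φ))
      (fun j => cj ((H j).subst (Zs φ))) : Fin N ⊕ Fin N → PS (Ki m d)) i := by
  have hz := ez_z0 hφ
  have hZc0 : ∀ i, Z0 (Zc Q i) := by
    rintro (j | l)
    · exact z0X _
    · refine z0s ?_ (hQ.zero l)
      rintro (j | j)
      · exact z0X _
      · exact z0X _
  have hζ0 : ∀ i, Z0 ((ζc : Zi m d → PS (Mi m d)) i) := fun i => z0X _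
  rcases i with j | j
  · simp only [argH, Sum.elim_inl]
    rw [scomp hZc0 hz]
    congr 1
    funext i
    rcases i with i | i
    · exact sX hz _
    · rw [hφQ i]
      have h : Zc Q (Sum.inr i) = Q i := by
        simp only [Zc, pr, Sum.elim_inr]
        have h2 : (Sum.elim (fun j => X (Sum.inl j)) (fun i => X (Sum.inr i)) :
            Mi m d → PS (Mi m d)) = fun i => X i := by
          funext i
          rcases i with i | i
          · rfl
          · rfl
        rw [h2]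
        exact sself _
      rw [h]
      rfl
  · simp only [argH, Sum.elim_inr]
    rw [scomp hζ0 hz, scj (Zs_z0 hφ)]
    congr 1
    funext i
    exact sX hz _

lemma argH_z0 {Q : Fin d → PS (Mi m d)} (hQ : IsSeg0 Q) {H : Fin N → PS (Zi m d)}
    (hH : ∀ j, Z0 (H j)) (i : Fin N ⊕ Fin N) : Z0 (argH Q H i) := by
  rcases i with j | j
  · refine z0s ?_ (hH j)
    rintro (j | l)
    · exact z0X _
    · refine z0s ?_ (hQ.zero l)
      rintro (j | j)
      · exact z0X _
      · exact z0X _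
  · refine z0s ?_ (z0cj (hH j))
    exact fun i => z0X _

end RelM

open RelM

theorem specREL (hIFT : SpecIFT) (hCNV : SpecCNV) (hCNS : SpecCNS) (hCHN : SpecCHN)
    (hEVA : SpecEVA) (hEVS : SpecEVS) (hTAYM : SpecTAYM) : SpecREL := by
  intro m d N φ Q ρ H hφ hQ hφQ hρ hρ0
  have hz := ez_z0 hφ
  have hZ := Zs_z0 hφ
  refine ⟨?_, ?_⟩
  · intro T g hT hg hg0 hρg hTg
    have hH0 : ∀ j, Z0 (H j) := by
      intro j
      have h1 := hT.zero (fun x => g x j) (hg j)
      rw [hTg j, ccs hZ] at h1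
      rw [Z0, h1, hg0]
      rfl
    refine ⟨hH0, ?_⟩
    obtain ⟨b, hb0, hb⟩ := exists_b hIFT hCNV hCNS hCHN hφ
    have ha0 := argH_z0 hQ hH0
    have h1 : (ρ.subst (argH Q H)).subst (ez φ) = 0 := by
      rw [scomp ha0 hz]
      simp only [argH_ez hφ hQ hφQ]
      let G : (Ki m d → ℝ) → (Fin N ⊕ Fin N) → ℂ := fun x => Sum.elim (g x) fun j => conj (g x j)
      have hG : ∀ i, ContDiffAt ℝ ∞ (fun x => G x i) 0 := by
        rintro (j | j)
        · exact hg j
        · exact Complex.conjCLE.contDiff.contDiffAt.comp _ (hg j)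
      have hG0 : G 0 = 0 := by
        funext i
        rcases i with j | j
        · simp [G, hg0]
        · simp [G, hg0]
      have h2 := (hTAYM (Ki m d) T hT).2.2.2 (Fin N ⊕ Fin N) ρ G hρ hG hG0
      have h3 : T (fun x => ev ρ (G x)) = 0 := by
        rw [hT.germ _ (fun _ => 0) hρg]
        exact T_zero hTAYM hT
      rw [h3] at h2
      rw [h2]
      congr 1
      funext i
      rcases i with j | j
      · simp only [Sum.elim_inl, G]
        exact (hTg j).symm
      · simp only [Sum.elim_inr, G]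
        rw [(hTAYM (Ki m d) T hT).2.1 (fun x => g x j) (hg j), hTg j]
    have h2 : ((ρ.subst (argH Q H)).subst (ez φ)).subst b = ρ.subst (argH Q H) := by
      rw [scomp hz hb0]
      simp only [hb]
      exact sself _
    rw [← h2, h1, s0 hb0]
  · intro hM hHc
    have hH0 := hM.zero
    have ha0 := argH_z0 hQ hH0
    let G : Fin N ⊕ Fin N → PS (Ki m d) := Sum.elim (fun j => (H j).subst (Zs φ))
      (fun j => cj ((H j).subst (Zs φ)))
    have hHZ : ∀ j, Conv ((H j).subst (Zs φ)) := fun j =>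
      cs hCNV hCNS (hHc j) (Zs_conv hCNV hφ) hZ
    have hG : ∀ i, Conv (G i) ∧ Z0 (G i) := by
      rintro (j | j)
      · exact ⟨hHZ j, z0s hZ (hH0 j)⟩
      · exact ⟨ccj (hHZ j), z0cj (z0s hZ (hH0 j))⟩
    have h1 : ρ.subst G = 0 := by
      have h2 : (ρ.subst (argH Q H)).subst (ez φ) = 0 := by
        rw [hM.rel, s0 hz]
      rw [scomp ha0 hz] at h2
      simp only [argH_ez hφ hQ hφQ] at h2
      exact h2
    have h2 := tendsto_rl.eventually (hEVS (Fin N ⊕ Fin N) (Ki m d) ρ G hρ hG)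
    have h3 : ∀ᶠ x in 𝓝 (0 : Ki m d → ℝ), ∀ j,
        ev ((H j).subst (Zs φ)) (rl x) = ev (H j) fun i => ev (Zs φ i) (rl x) := by
      rw [eventually_all]
      intro j
      exact tendsto_rl.eventually (hEVS (Zi m d) (Ki m d) (H j) (Zs φ) (hHc j)
        fun i => ⟨Zs_conv hCNV hφ i, hZ i⟩)
    filter_upwards [h2, h3] with x hx1 hx2
    rw [h1] at hx1
    have h4 : ev (0 : PS (Ki m d)) (rl x) = 0 := by
      have := (hEVA (Ki m d)).2.2.1 0 (rl x)
      simpa using this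
    rw [h4] at hx1
    rw [hx1]
    congr 1
    funext i
    rcases i with j | j
    · simp only [Sum.elim_inl, G]
      exact (hx2 j).symm
    · simp only [Sum.elim_inr, G]
      have h5 := (hEVA (Ki m d)).2.2.2.2.2.1 ((H j).subst (Zs φ)) (rl x)
      rw [rl_conj] at h5
      rw [h5, hx2 j]
      rfl

end

end Pool.Agent.Lib.MP_2184e2_an.Loc
end

section
/-!
# MP_2184e2_an, local theorem: module TAN
-/
set_option autoImplicit false

namespace Pool.Agent.Lib.MP_2184e2_an.Loc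

open MvPowerSeries Filter Topology Set
open scoped ContDiff ComplexConjugate

noncomputable section

namespace TanM

variable {n c : ℕ} {M : Set (Fin n → ℂ)} {w : Fin n → ℂ}

/-- the tangent space of a regular zero set at a point -/
lemma mem_iff {ρ : (Fin n → ℂ) → (Fin c → ℝ)} (hw : w ∈ M)
    (hρ : HasStrictFDerivAt ρ (fderiv ℝ ρ w) w)
    (hs : Function.Surjective (fderiv ℝ ρ w)) (h0 : ∀ᶠ u in 𝓝 w, (u ∈ M ↔ ρ u = 0))
    (v : Fin n → ℂ) : v ∈ tangent M w ↔ fderiv ℝ ρ w v = 0 := by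
  constructor
  · intro hv
    refine fderiv_tangent hw hρ.hasFDerivAt.differentiableAt ?_ hv
    filter_upwards [h0.filter_mono nhdsWithin_le_nhds, self_mem_nhdsWithin] with u h1 h2
      using h1.1 h2
  · intro hv
    have hr : (fderiv ℝ ρ w).range = ⊤ := LinearMap.range_eq_top.2 hs
    let vk : (fderiv ℝ ρ w).ker := ⟨v, hv⟩
    let g := hρ.implicitFunction ρ _ hr (ρ w)
    have hρw : ρ w = 0 := (h0.self_of_nhds).1 hw
    let γ : ℝ → Fin n → ℂ := fun θ => g (θ • vk)
    have hg : HasFDerivAt g (fderiv ℝ ρ w).ker.subtypeL 0 :=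
      (hρ.to_implicitFunction hr).hasFDerivAt
    have h1 : HasDerivAt (fun θ : ℝ => θ • vk) vk 0 := by
      simpa using (hasDerivAt_id (0 : ℝ)).smul_const vk
    have hγ : HasDerivAt γ v 0 := by
      have h2 : HasFDerivAt g (fderiv ℝ ρ w).ker.subtypeL ((0 : ℝ) • vk) := by
        rw [zero_smul]; exact hg
      have h3 := h2.comp_hasDerivAt 0 h1
      exact h3
    have hγ0 : γ 0 = w := by
      show g ((0 : ℝ) • vk) = w
      rw [zero_smul]
      exact hρ.implicitFunction_apply_image hr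
    have hev : ∀ᶠ θ in 𝓝 (0 : ℝ), γ θ ∈ M := by
      have hc : Tendsto γ (𝓝 0) (𝓝 w) := by
        have := hγ.continuousAt.tendsto
        rwa [hγ0] at this
      have hm := hρ.map_implicitFunction_eq hr
      have ht : Tendsto (fun θ : ℝ => (ρ w, θ • vk)) (𝓝 0) (𝓝 (ρ w, 0)) := by
        refine tendsto_const_nhds.prodMk_nhds ?_
        have := h1.continuousAt.tendsto
        simpa using this
      filter_upwards [hc.eventually h0, ht.eventually hm] with θ h4 h5
      rw [h4]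
      have h6 : ρ (γ θ) = ρ w := h5
      rw [h6, hρw]
    classical
    let γ' : ℝ → Fin n → ℂ := fun θ => if γ θ ∈ M then γ θ else w
    have hγ' : γ' =ᶠ[𝓝 0] γ := by
      filter_upwards [hev] with θ hθ
      simp only [γ', if_pos hθ]
    refine mem_tangent_of_curve (hγ.congr_of_eventuallyEq hγ') ?_ ?_
    · rw [hγ'.self_of_nhds, hγ0]
    · intro θ
      by_cases h : γ θ ∈ M
      · simp only [γ', if_pos h]; exact h
      · simp only [γ', if_neg h]; exact hw

/-- surjectivity is an open condition -/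
lemma surj_near {E F : Type*} [NormedAddCommGroup E] [NormedSpace ℝ E] [NormedAddCommGroup F]
    [NormedSpace ℝ F] [FiniteDimensional ℝ F] {A : E → (E →L[ℝ] F)} {p : E}
    (hA : ContinuousAt A p) (hs : Function.Surjective (A p)) :
    ∀ᶠ w in 𝓝 p, Function.Surjective (A w) := by
  obtain ⟨R, hR⟩ := (A p).toLinearMap.exists_rightInverse_of_surjective
    (LinearMap.range_eq_top.2 hs)
  let R' : F →L[ℝ] E := LinearMap.toContinuousLinearMap R
  have : CompleteSpace F := FiniteDimensional.complete ℝ F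
  have h1 : (A p).comp R' = 1 := by
    ext x
    exact LinearMap.congr_fun hR x
  have h2 : ContinuousAt (fun w => (A w).comp R') p := hA.clm_comp continuousAt_const
  have h3 : ∀ᶠ w in 𝓝 p, IsUnit ((A w).comp R') := by
    refine h2.eventually (Units.isOpen.mem_nhds ?_)
    show IsUnit ((A p).comp R')
    rw [h1]
    exact isUnit_one
  refine h3.mono fun w hw y => ?_
  obtain ⟨u, hu⟩ := hw
  refine ⟨R' ((↑u⁻¹ : F →L[ℝ] F) y), ?_⟩
  have h4 : ((A w).comp R') ((↑u⁻¹ : F →L[ℝ] F) y) = y := by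
    rw [← hu]
    have := congrArg (fun L : F →L[ℝ] F => L y) u.mul_inv
    exact this
  exact h4

end TanM

theorem specTAN : SpecTAN := by
  intro n c M hM p hp
  obtain ⟨ρ, hρ, hs, h0⟩ := hM p hp
  have hnear : ∀ᶠ w in 𝓝 p, AnalyticAt ℝ ρ w := hρ.eventually_analyticAt
  have hsn : ∀ᶠ w in 𝓝 p, Function.Surjective (fderiv ℝ ρ w) :=
    TanM.surj_near hρ.fderiv.continuousAt hs
  have hT : ∀ᶠ w in 𝓝[M] p, ∀ v, v ∈ tangent M w ↔ fderiv ℝ ρ w v = 0 := by
    filter_upwards [hnear.filter_mono nhdsWithin_le_nhds, hsn.filter_mono nhdsWithin_le_nhds,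
      (eventually_eventually_nhds.2 h0).filter_mono nhdsWithin_le_nhds, self_mem_nhdsWithin]
      with w h1 h2 h3 h4 v
    exact TanM.mem_iff h4 h1.hasStrictFDerivAt h2 h3 v
  refine ⟨ρ, hρ, hs, h0, hT, ?_⟩
  have h5 := hT.self_of_nhdsWithin hp
  have h6 : tangent M p = LinearMap.ker (fderiv ℝ ρ p).toLinearMap := by
    ext v
    exact h5 v
  have h7 := LinearMap.finrank_range_add_finrank_ker (fderiv ℝ ρ p).toLinearMap
  have h8 : LinearMap.range (fderiv ℝ ρ p).toLinearMap = ⊤ := LinearMap.range_eq_top.2 hs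
  have h9 : Module.finrank ℝ (Fin n → ℂ) = 2 * n := by
    rw [Module.finrank_pi_fintype]
    simp [Complex.finrank_real_complex, mul_comm]
  rw [h8, finrank_top, h9, Module.finrank_fin_fun] at h7
  rw [h6, ← h7, add_comm]

end

end Pool.Agent.Lib.MP_2184e2_an.Loc
end

section
/-! # TGT1: a strictly plurisubharmonic function vanishing on `M` -/
set_option autoImplicit false

namespace Pool.Agent.Lib.MP_2184e2_an.Loc

open MvPowerSeries Filter Topology Set
open scoped ContDiff ComplexConjugate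

noncomputable section

namespace Tgt1M

/-- the convex hull of a compact set of a finite-dimensional space is compact -/
lemma isCompact_hull {E : Type} [NormedAddCommGroup E] [NormedSpace ℝ E]
    [FiniteDimensional ℝ E] {s : Set E} (hs : IsCompact s) : IsCompact (convexHull ℝ s) := by
  rcases s.eq_empty_or_nonempty with rfl | ⟨x₀, hx₀⟩
  · simp
  set N := Module.finrank ℝ E + 1 with hN
  let F : (Fin N → ℝ) × (Fin N → E) → E := fun q => ∑ i, q.1 i • q.2 i
  have hF : Continuous F := by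
    refine continuous_finsetSum _ fun i _ => ?_
    exact ((continuous_apply i).comp continuous_fst).smul ((continuous_apply i).comp continuous_snd)
  have hT : IsCompact (stdSimplex ℝ (Fin N) ×ˢ (Set.pi univ fun _ : Fin N => s)) :=
    (isCompact_stdSimplex ℝ (Fin N)).prod (isCompact_univ_pi fun _ => hs)
  have hEq : convexHull ℝ s =
      F '' (stdSimplex ℝ (Fin N) ×ˢ (Set.pi univ fun _ : Fin N => s)) := by
    apply Subset.antisymm
    · intro x hx
      obtain ⟨ι, hι, z, w, hz, hai, hw, hw1, hwx⟩ := eq_pos_convex_span_of_mem_convexHull hx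
      have hcard : Fintype.card ι ≤ Fintype.card (Fin N) := by
        rw [Fintype.card_fin]
        refine hai.card_le_finrank_succ.trans ?_
        exact Nat.succ_le_succ (Submodule.finrank_le _)
      obtain ⟨e⟩ := Function.Embedding.nonempty_of_card_le hcard
      have hsum : ∀ {A : Type} [AddCommMonoid A] (g : Fin N → A), (∀ j, (¬ ∃ i, e i = j) → g j = 0) →
          ∑ j, g j = ∑ i, g (e i) := by
        intro A _ g hg
        rw [← Finset.sum_map Finset.univ e g]
        symm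
        apply Finset.sum_subset (Finset.subset_univ _)
        intro j _ hj
        apply hg
        rintro ⟨i, rfl⟩
        exact hj (Finset.mem_map_of_mem e (Finset.mem_univ i))
      have hext : ∀ j, (¬ ∃ i, e i = j) → Function.extend e w 0 j = 0 := by
        intro j hj
        rw [Function.extend_apply' _ _ _ hj]
        rfl
      refine ⟨(Function.extend e w 0, Function.extend e z fun _ => x₀), ⟨⟨?_, ?_⟩, ?_⟩, ?_⟩
      · intro j
        by_cases hj : ∃ i, e i = j
        · obtain ⟨i, rfl⟩ := hj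
          show 0 ≤ Function.extend e w 0 (e i)
          rw [e.injective.extend_apply]
          exact (hw i).le
        · exact (hext j hj).ge
      · show ∑ j, Function.extend e w 0 j = 1
        rw [hsum _ hext, ← hw1]
        exact Finset.sum_congr rfl fun i _ => e.injective.extend_apply _ _ _
      · intro j _
        show Function.extend e z (fun _ => x₀) j ∈ s
        by_cases hj : ∃ i, e i = j
        · obtain ⟨i, rfl⟩ := hj
          rw [e.injective.extend_apply]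
          exact hz ⟨i, rfl⟩
        · rw [Function.extend_apply' _ _ _ hj]
          exact hx₀
      · show ∑ j, Function.extend e w 0 j • Function.extend e z (fun _ => x₀) j = x
        rw [hsum _ (fun j hj => by rw [hext j hj, zero_smul]), ← hwx]
        refine Finset.sum_congr rfl fun i _ => ?_
        rw [e.injective.extend_apply, e.injective.extend_apply]
    · rintro _ ⟨⟨w, z⟩, ⟨⟨hw, hw1⟩, hz⟩, rfl⟩
      exact (convex_convexHull ℝ s).sum_mem (fun i _ => hw i) hw1
        fun i _ => subset_convexHull ℝ s (hz i (mem_univ i))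
  rw [hEq]
  exact hT.image hF

/-- a compactness argument -/
lemma exists_large {X : Type} [TopologicalSpace X] {S : Set X} (hS : IsCompact S) {h₁ h₂ : X → ℝ}
    (c₁ : Continuous h₁) (c₂ : Continuous h₂) (h0 : ∀ v, 0 ≤ h₂ v)
    (h : ∀ v ∈ S, h₂ v = 0 → 0 < h₁ v) : ∃ B : ℝ, ∀ v ∈ S, 0 < h₁ v + B * h₂ v := by
  have hS₀ : IsCompact (S ∩ {v | h₁ v ≤ 0}) := hS.inter_right (isClosed_le c₁ continuous_const)
  rcases (S ∩ {v | h₁ v ≤ 0}).eq_empty_or_nonempty with he | hne
  · refine ⟨0, fun v hv => ?_⟩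
    by_contra hc
    have : v ∈ S ∩ {v | h₁ v ≤ 0} := ⟨hv, by simpa using hc⟩
    rw [he] at this
    exact this
  · obtain ⟨v₀, hv₀, hmin⟩ := hS₀.exists_isMinOn hne c₂.continuousOn
    obtain ⟨v₁, hv₁, hmin1⟩ := hS₀.exists_isMinOn hne c₁.continuousOn
    have hpos : 0 < h₂ v₀ := by
      rcases (h0 v₀).lt_or_eq with h' | h'
      · exact h'
      · exact absurd (h v₀ hv₀.1 h'.symm) (not_lt.2 hv₀.2)
    refine ⟨(-h₁ v₁ + 1) / h₂ v₀, fun v hv => ?_⟩
    have hB : 0 ≤ (-h₁ v₁ + 1) / h₂ v₀ := by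
      have : h₁ v₁ ≤ 0 := hv₁.2
      exact div_nonneg (by linarith) hpos.le
    by_cases hv0 : h₁ v ≤ 0
    · have e1 : h₂ v₀ ≤ h₂ v := hmin ⟨hv, hv0⟩
      have e2 : h₁ v₁ ≤ h₁ v := hmin1 ⟨hv, hv0⟩
      have e3 : (-h₁ v₁ + 1) / h₂ v₀ * h₂ v₀ ≤ (-h₁ v₁ + 1) / h₂ v₀ * h₂ v :=
        mul_le_mul_of_nonneg_left e1 hB
      rw [div_mul_cancel₀ _ hpos.ne'] at e3
      linarith
    · have e1 := mul_nonneg hB (h0 v)
      push Not at hv0
      linarith

variable {n : ℕ}

/-- the second differential of a linear function of `R` -/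
lemma second_clm {E F : Type} [NormedAddCommGroup E] [NormedSpace ℝ E] [NormedAddCommGroup F]
    [NormedSpace ℝ F] {R : (Fin n → ℂ) → E} {p : Fin n → ℂ} (hR : ContDiffAt ℝ 2 R p)
    (g : E →L[ℝ] F) :
    HasFDerivAt (fderiv ℝ fun w => g (R w))
      (((ContinuousLinearMap.compL ℝ (Fin n → ℂ) E F) g).comp (fderiv ℝ (fderiv ℝ R) p)) p := by
  have h1 : ∀ᶠ w in 𝓝 p, ContDiffAt ℝ 2 R w := hR.eventually (by simp)
  have h2 : DifferentiableAt ℝ (fderiv ℝ R) p :=
    (hR.fderiv_right (m := 1) (by norm_num)).differentiableAt (by norm_num)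
  have h3 := (((ContinuousLinearMap.compL ℝ (Fin n → ℂ) E F) g).hasFDerivAt
    (x := fderiv ℝ R p)).comp p h2.hasFDerivAt
  refine h3.congr_of_eventuallyEq ?_
  filter_upwards [h1] with w hw
  have h4 : HasFDerivAt R (fderiv ℝ R w) w := (hw.differentiableAt (by norm_num)).hasFDerivAt
  exact (g.hasFDerivAt.comp w h4).fderiv

/-- the second differential of a sum of squares -/
lemma second_sq {c : ℕ} {ρ : (Fin n → ℂ) → (Fin c → ℝ)} {p : Fin n → ℂ}
    (hρ : ContDiffAt ℝ 2 ρ p) (h0 : ρ p = 0) :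
    ∃ D : (Fin n → ℂ) →L[ℝ] (Fin n → ℂ) →L[ℝ] ℝ,
      HasFDerivAt (fderiv ℝ fun w => ∑ i, ρ w i ^ 2) D p ∧
      ∀ v v', D v v' = 2 * ∑ i, fderiv ℝ ρ p v i * fderiv ℝ ρ p v' i := by
  have h1 : ∀ᶠ w in 𝓝 p, ContDiffAt ℝ 2 ρ w := hρ.eventually (by simp)
  have h2 : DifferentiableAt ℝ (fderiv ℝ ρ) p :=
    (hρ.fderiv_right (m := 1) (by norm_num)).differentiableAt (by norm_num)
  let pr : Fin c → (Fin c → ℝ) →L[ℝ] ℝ := fun i => ContinuousLinearMap.proj i
  have h3 : ∀ᶠ w in 𝓝 p, fderiv ℝ (fun w => ∑ i, ρ w i ^ 2) w =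
      ∑ i, (2 * ρ w i) • (pr i).comp (fderiv ℝ ρ w) := by
    filter_upwards [h1] with w hw
    have h4 : HasFDerivAt ρ (fderiv ℝ ρ w) w := (hw.differentiableAt (by norm_num)).hasFDerivAt
    have h5 : HasFDerivAt (fun w => ∑ i, ρ w i ^ 2)
        (∑ i, (2 * ρ w i) • (pr i).comp (fderiv ℝ ρ w)) w := by
      refine HasFDerivAt.fun_sum fun i _ => ?_
      have h6 : HasFDerivAt (fun w => ρ w i) ((pr i).comp (fderiv ℝ ρ w)) w :=
        (pr i).hasFDerivAt.comp w h4
      have h7 := h6.pow 2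
      simpa using h7
    exact h5.fderiv
  have h8 : HasFDerivAt (fun w => ∑ i, (2 * ρ w i) • (pr i).comp (fderiv ℝ ρ w))
      (∑ i, (((2 : ℝ) • (pr i).comp (fderiv ℝ ρ p)).smulRight ((pr i).comp (fderiv ℝ ρ p)))) p := by
    refine HasFDerivAt.fun_sum fun i _ => ?_
    have h4 : HasFDerivAt ρ (fderiv ℝ ρ p) p := (hρ.differentiableAt (by norm_num)).hasFDerivAt
    have h6 : HasFDerivAt (fun w => 2 * ρ w i) ((2 : ℝ) • (pr i).comp (fderiv ℝ ρ p)) p :=
      ((pr i).hasFDerivAt.comp p h4).const_mul 2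
    have h7 : HasFDerivAt (fun w => (pr i).comp (fderiv ℝ ρ w))
        (((ContinuousLinearMap.compL ℝ (Fin n → ℂ) (Fin c → ℝ) ℝ) (pr i)).comp
          (fderiv ℝ (fderiv ℝ ρ) p)) p :=
      (((ContinuousLinearMap.compL ℝ (Fin n → ℂ) (Fin c → ℝ) ℝ) (pr i)).hasFDerivAt
        (x := fderiv ℝ ρ p)).comp p h2.hasFDerivAt
    have h9 := h6.smul h7
    refine h9.congr_fderiv ?_
    have h10 : ρ p i = 0 := by rw [h0]; rfl
    rw [h10]
    simp
  refine ⟨_, h8.congr_of_eventuallyEq h3, fun v v' => ?_⟩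
  simp only [_root_.sum_apply, ContinuousLinearMap.smulRight_apply, Finset.mul_sum]
  refine Finset.sum_congr rfl fun i _ => ?_
  show (2 * (fderiv ℝ ρ p v i)) * (fderiv ℝ ρ p v' i) = _
  ring

/-- the differential of `ev f` at `0` when `f` has no linear terms -/
lemma fderiv_ev_zero (hEVA : SpecEVA) {κ : Type} [Fintype κ] [DecidableEq κ] {f : PS κ}
    (hf : Conv f) (hpd : ∀ k, Conv (pderiv ℂ k f)) (hl : ∀ k, lin f k = 0) :
    HasFDerivAt (ev f) (0 : (κ → ℂ) →L[ℂ] ℂ) 0 := by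
  obtain ⟨v1, v2, v3, v4, v5, v6, v7⟩ := hEVA κ
  have h1 := (v1 f hf).1.differentiableAt.hasFDerivAt
  refine h1.congr_fderiv ?_
  ext x
  have h2 : x = ∑ k, x k • (Pi.single k (1 : ℂ) : κ → ℂ) := by
    funext i
    simp [Finset.sum_apply, Pi.single_apply]
  rw [h2, map_sum]
  simp only [map_smul, _root_.zero_apply]
  refine Finset.sum_eq_zero fun k _ => ?_
  have h3 := (v5 f k hf).self_of_nhds
  rw [h3, (v1 _ (hpd k)).2]
  have h4 : constantCoeff (pderiv ℂ k f) = lin f k := by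
    rw [← coeff_zero_eq_constantCoeff_apply, coeff_pderiv]
    simp [lin]
  rw [h4, hl k, smul_zero]

/-- `(Re z, Im z, Re w)` as a linear map into complex points -/
def PL {n m d : ℕ} (π : (Fin n → ℂ) →L[ℂ] (Zi m d → ℂ)) :
    (Fin n → ℂ) →L[ℝ] (Ki m d → ℂ) :=
  ContinuousLinearMap.pi fun k =>
    Sum.elim (Sum.elim
      (fun j => Complex.ofRealCLM.comp (Complex.reCLM.comp
        ((ContinuousLinearMap.proj (Sum.inl j : Zi m d)).comp (π.restrictScalars ℝ))))
      (fun j => Complex.ofRealCLM.comp (Complex.imCLM.comp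
        ((ContinuousLinearMap.proj (Sum.inl j : Zi m d)).comp (π.restrictScalars ℝ)))))
      (fun l => Complex.ofRealCLM.comp (Complex.reCLM.comp
        ((ContinuousLinearMap.proj (Sum.inr l : Zi m d)).comp (π.restrictScalars ℝ)))) k

lemma PL_apply {n m d : ℕ} (π : (Fin n → ℂ) →L[ℂ] (Zi m d → ℂ)) (v : Fin n → ℂ) :
    PL π v = rl (rc (π v)) := by
  funext k
  rcases k with (j | j) | l <;> rfl

/-- the imaginary parts of the `w`-components -/
def IL {n m d : ℕ} (π : (Fin n → ℂ) →L[ℂ] (Zi m d → ℂ)) :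
    (Fin n → ℂ) →L[ℝ] (Fin d → ℝ) :=
  ContinuousLinearMap.pi fun l => Complex.imCLM.comp
    ((ContinuousLinearMap.proj (Sum.inr l : Zi m d)).comp (π.restrictScalars ℝ))

/-- the real parts of the `w`-components -/
def RL {n m d : ℕ} (π : (Fin n → ℂ) →L[ℂ] (Zi m d → ℂ)) :
    (Fin n → ℂ) →L[ℝ] (Fin d → ℝ) :=
  ContinuousLinearMap.pi fun l => Complex.reCLM.comp
    ((ContinuousLinearMap.proj (Sum.inr l : Zi m d)).comp (π.restrictScalars ℝ))

lemma IL_apply {n m d : ℕ} (π : (Fin n → ℂ) →L[ℂ] (Zi m d → ℂ)) (v : Fin n → ℂ) (l : Fin d) :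
    IL π v l = (π v (Sum.inr l)).im := rfl

lemma RL_apply {n m d : ℕ} (π : (Fin n → ℂ) →L[ℂ] (Zi m d → ℂ)) (v : Fin n → ℂ) (l : Fin d) :
    RL π v l = (π v (Sum.inr l)).re := rfl

lemma IL_I {n m d : ℕ} (π : (Fin n → ℂ) →L[ℂ] (Zi m d → ℂ)) (v : Fin n → ℂ) :
    IL π (Complex.I • v) = RL π v := by
  funext l
  rw [IL_apply, RL_apply, map_smul]
  simp

/-- the defining functions `Im w - φ(z, Re w)` -/
def RR {n m d : ℕ} (π : (Fin n → ℂ) →L[ℂ] (Zi m d → ℂ)) (φ : Fin d → PS (Ki m d))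
    (p : Fin n → ℂ) (w : Fin n → ℂ) : Fin d → ℝ :=
  fun l => IL π (w - p) l - (ev (φ l) (PL π (w - p))).re

lemma RR_ana (hEVA : SpecEVA) {n m d : ℕ} (π : (Fin n → ℂ) →L[ℂ] (Zi m d → ℂ))
    {φ : Fin d → PS (Ki m d)} (hφ : IsPhi φ) (p : Fin n → ℂ) : AnalyticAt ℝ (RR π φ p) p := by
  obtain ⟨v1, -⟩ := hEVA (Ki m d)
  have h0 : AnalyticAt ℝ (fun w : Fin n → ℂ => w - p) p := analyticAt_id.sub analyticAt_const
  rw [show RR π φ p = fun w => fun l => RR π φ p w l from rfl, analyticAt_pi_iff]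
  intro l
  have h1 : AnalyticAt ℝ (fun w : Fin n → ℂ => IL π (w - p) l) p := by
    have : AnalyticAt ℝ (fun w : Fin n → ℂ => IL π (w - p)) p := (IL π).analyticAt _ |>.fun_comp h0
    exact ((ContinuousLinearMap.proj (R := ℝ) (φ := fun _ : Fin d => ℝ) l).analyticAt _).fun_comp this
  have h2 : AnalyticAt ℝ (ev (φ l)) 0 := (v1 (φ l) (hφ.conv l)).1.restrictScalars
  have h3 : AnalyticAt ℝ (fun w : Fin n → ℂ => PL π (w - p)) p := (PL π).analyticAt _ |>.fun_comp h0
  have h4 : AnalyticAt ℝ (fun w : Fin n → ℂ => ev (φ l) (PL π (w - p))) p := by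
    refine AnalyticAt.fun_comp (g := ev (φ l)) (f := fun w : Fin n → ℂ => PL π (w - p)) ?_ h3
    simpa using h2
  exact h1.sub ((Complex.reCLM.analyticAt _).fun_comp h4)

lemma RR_fderiv (hEVA : SpecEVA) (hCNV : SpecCNV) {n m d : ℕ}
    (π : (Fin n → ℂ) →L[ℂ] (Zi m d → ℂ))
    {φ : Fin d → PS (Ki m d)} (hφ : IsPhi φ) (p : Fin n → ℂ) :
    fderiv ℝ (RR π φ p) p = IL π := by
  obtain ⟨c1, hN⟩ := hCNV
  obtain ⟨-, -, -, hpd⟩ := c1 ℂ (fun c : ℂ => ‖c‖) hN (Ki m d)
  apply HasFDerivAt.fderiv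
  rw [hasFDerivAt_pi']
  intro l
  have h0 : HasFDerivAt (fun w : Fin n → ℂ => w - p) (ContinuousLinearMap.id ℝ (Fin n → ℂ)) p :=
    (hasFDerivAt_id p).sub_const p
  have h1 : HasFDerivAt (fun w : Fin n → ℂ => IL π (w - p))
      ((IL π).comp (ContinuousLinearMap.id ℝ (Fin n → ℂ))) p := (IL π).hasFDerivAt.comp p h0
  have h1' := hasFDerivAt_pi'.1 h1 l
  have h2 : HasFDerivAt (𝕜 := ℝ) (ev (φ l)) ((0 : (Ki m d → ℂ) →L[ℂ] ℂ).restrictScalars ℝ)
      (PL π (p - p)) := by
    rw [sub_self, map_zero]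
    exact (fderiv_ev_zero hEVA (hφ.conv l) (fun k => hpd _ k (hφ.conv l))
      (hφ.lin l)).restrictScalars ℝ
  have h3 : HasFDerivAt (fun w : Fin n → ℂ => PL π (w - p))
      ((PL π).comp (ContinuousLinearMap.id ℝ (Fin n → ℂ))) p := (PL π).hasFDerivAt.comp p h0
  have h4 := Complex.reCLM.hasFDerivAt.comp p (h2.comp p h3)
  have h5 := h1'.sub h4
  refine h5.congr_fderiv ?_
  ext v
  simp

/-- the functions vanish on `M` -/
lemma RR_zero (hEVA : SpecEVA) (hCNV : SpecCNV) {n m d : ℕ} {M : Set (Fin n → ℂ)}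
    {p : Fin n → ℂ} {π : (Fin n → ℂ) →L[ℂ] (Zi m d → ℂ)}
    {φ : Fin d → PS (Ki m d)} {σ : (Ki m d → ℝ) → (Fin n → ℂ)} (hσ : IsPar M p π φ σ) :
    ∀ᶠ w in 𝓝[M] p, RR π φ p w = 0 := by
  obtain ⟨c1, hN⟩ := hCNV
  obtain ⟨hop, hC, hX, hpd⟩ := c1 ℂ (fun c : ℂ => ‖c‖) hN (Ki m d)
  obtain ⟨v1, v2, v3, v4, v5, v6, v7⟩ := hEVA (Ki m d)
  have hZ : ∀ᶠ x in 𝓝 (0 : Ki m d → ℂ), ∀ l, ev (Zs φ (Sum.inr l)) x =
      x (Sum.inr l) + Complex.I * ev (φ l) x := by
    rw [eventually_all]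
    intro l
    have f1 := v2 (C Complex.I) (φ l) (hC _) (hσ.phi.conv l)
    have f2 := v2 (X (Sum.inr l)) (C Complex.I * φ l) (hX _) (hop _ _ (hC _) (hσ.phi.conv l)).2.1
    filter_upwards [f1, f2] with x g1 g2
    show ev (X (Sum.inr l) + C Complex.I * φ l) x = _
    rw [g2.1, g1.2.1, v3, v4]
  have hx : Tendsto (fun w => rc (π (w - p))) (𝓝 p) (𝓝 0) := by
    have hrc : Continuous (rc : (Zi m d → ℂ) → Ki m d → ℝ) := by
      refine continuous_pi fun k => ?_
      rcases k with (j | j) | l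
      · exact Complex.continuous_re.comp (continuous_apply _)
      · exact Complex.continuous_im.comp (continuous_apply _)
      · exact Complex.continuous_re.comp (continuous_apply _)
    have h1 : Continuous fun w => rc (π (w - p)) :=
      hrc.comp (π.continuous.comp (continuous_id.sub continuous_const))
    have h2 := h1.tendsto p
    have h3 : rc (π (p - p)) = 0 := by
      rw [sub_self, map_zero]
      funext k
      rcases k with (j | j) | l <;> simp [rc]
    rwa [h3] at h2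
  have hx2 : Tendsto (fun w => PL π (w - p)) (𝓝 p) (𝓝 0) := by
    have h1 : Continuous fun w => PL π (w - p) :=
      (PL π).continuous.comp (continuous_id.sub continuous_const)
    have h2 := h1.tendsto p
    simpa using h2
  filter_upwards [hσ.surj, nhdsWithin_le_nhds (hx.eventually hσ.graph),
    nhdsWithin_le_nhds (hx2.eventually hZ)] with w h1 h2 h3
  funext l
  rw [h1] at h2
  have h4 : π (w - p) (Sum.inr l) = ev (Zs φ (Sum.inr l)) (PL π (w - p)) := by
    have := congrFun h2 (Sum.inr l)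
    rw [this, PL_apply]
    rfl
  have h5 := h3 l
  rw [← h4] at h5
  show IL π (w - p) l - (ev (φ l) (PL π (w - p))).re = 0
  rw [IL_apply, h5]
  have h6 : (PL π (w - p) (Sum.inr l)).im = 0 := by
    rw [PL_apply]
    exact Complex.ofReal_im _
  rw [Complex.add_im, h6, Complex.mul_im, Complex.I_re, Complex.I_im]
  ring

/-- the map `N_p M → ℝ^d` -/
def Lam {n m d : ℕ} {M : Set (Fin n → ℂ)} {p : Fin n → ℂ}
    {π : (Fin n → ℂ) →L[ℂ] (Zi m d → ℂ)} (h : ∀ v ∈ ctangent M p, ∀ l, π v (Sum.inr l) = 0) :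
    Normal M p →ₗ[ℝ] (Fin d → ℝ) :=
  Submodule.liftQ (ctangentIn M p) ((RL π).toLinearMap.comp (tangent M p).subtype) (by
    intro b hb
    rw [LinearMap.mem_ker]
    funext l
    show (π (b : Fin n → ℂ) (Sum.inr l)).re = 0
    have hb' : (b : Fin n → ℂ) ∈ ctangent M p := hb
    rw [h _ hb' l]
    rfl)

end Tgt1M

open Tgt1M

theorem specTGT1 (hTAN : SpecTAN) (hPARA : SpecPARA) (hLEVD : SpecLEVD) (hEVA : SpecEVA)
    (hCNV : SpecCNV) : SpecTGT1 := by
  intro n c m M hM hL p hp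
  obtain ⟨d, π, φ, σ, -, hσ⟩ := hPARA n c m M hM p hp
  obtain ⟨ρ, hρ, -, hρM, hρT, -⟩ := hTAN n c M hM.1 p hp
  obtain ⟨hL1, hL2, -⟩ := hL p hp
  set R := RR π φ p with hR
  have hRa : AnalyticAt ℝ R p := RR_ana hEVA π hσ.phi p
  have hRd : fderiv ℝ R p = IL π := RR_fderiv hEVA hCNV π hσ.phi p
  have hR0 : ∀ᶠ w in 𝓝[M] p, R w = 0 := RR_zero hEVA hCNV hσ
  have hR2 : ContDiffAt ℝ 2 R p := hRa.contDiffAt
  -- the form `k`
  let k : (Fin n → ℂ) → (Fin d → ℝ) := fun v => fderiv ℝ (fderiv ℝ R) p v v +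
    fderiv ℝ (fderiv ℝ R) p (Complex.I • v) (Complex.I • v)
  have hkc : Continuous k := by
    have h1 : Continuous fun v : Fin n → ℂ => fderiv ℝ (fderiv ℝ R) p v v :=
      (fderiv ℝ (fderiv ℝ R) p).continuous.clm_apply continuous_id
    have h2 : Continuous fun v : Fin n → ℂ => Complex.I • v := continuous_const_smul _
    exact h1.add (h1.comp h2)
  have hg : ∀ (g : (Fin d → ℝ) →L[ℝ] ℝ) (v : Fin n → ℂ),
      fderiv ℝ (fderiv ℝ fun w => g (R w)) p v v +
        fderiv ℝ (fderiv ℝ fun w => g (R w)) p (Complex.I • v) (Complex.I • v) = g (k v) := by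
    intro g v
    rw [(second_clm hR2 g).fderiv]
    show g _ + g _ = g _
    rw [← map_add]
    rfl
  -- the Levi form
  have hlev : ∀ (v : Fin n → ℂ) (ν : Normal M p), IsLevi M p v ν →
      Lam hσ.ctan ν = k v := by
    rintro v ν ⟨X, hX, hXc, rfl, hb, rfl⟩
    funext l
    let g : (Fin d → ℝ) →L[ℝ] ℝ := ContinuousLinearMap.proj l
    have h1 : ContDiffAt ℝ ∞ (fun w => g (R w)) p :=
      g.contDiff.contDiffAt.comp p hRa.contDiffAt
    have h2 := hLEVD n M p hp (fun w => g (R w)) h1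
      (by filter_upwards [hR0] with w hw; rw [hw, map_zero]) X hX hXc
    rw [hg g] at h2
    have h3 : HasFDerivAt (fun w => g (R w)) (g.comp (IL π)) p := by
      have h4 : HasFDerivAt R (IL π) p := by
        rw [← hRd]; exact hRa.differentiableAt.hasFDerivAt
      exact g.hasFDerivAt.comp p h4
    rw [h3.fderiv] at h2
    have h5 : g (k (X p)) = k (X p) l := rfl
    rw [← h5, ← h2]
    show _ = (IL π (Complex.I • _)) l
    rw [IL_I]
    rfl
  have hinj : Function.Injective (Lam hσ.ctan : Normal M p →ₗ[ℝ] (Fin d → ℝ)) := by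
    rw [← LinearMap.ker_eq_bot]
    apply Submodule.ker_liftQ_eq_bot
    intro b hb
    rw [LinearMap.mem_ker] at hb
    show (b : Fin n → ℂ) ∈ ctangent M p
    have h1 : ∀ l, π (b : Fin n → ℂ) (Sum.inr l) = 0 := by
      intro l
      apply Complex.ext
      · exact congrFun hb l
      · exact hσ.tan b b.2 l
    obtain ⟨v, hv, hv2⟩ := hσ.onto fun j => π (b : Fin n → ℂ) (Sum.inl j)
    have h2 : π ((b : Fin n → ℂ) - v) = 0 := by
      rw [map_sub, hv2]
      funext i
      rcases i with j | l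
      · simp
      · simp [h1 l]
    have h3 : (b : Fin n → ℂ) - v = 0 := hσ.inj _ (sub_mem b.2 hv.1) h2
    rw [sub_eq_zero.1 h3]
    exact hv
  -- the compact set of values
  let S : Set (Fin n → ℂ) := {v | ∑ i, ‖v i‖ ^ 2 = 1}
  have hSc : Continuous fun v : Fin n → ℂ => ∑ i, ‖v i‖ ^ 2 := by fun_prop
  have hS : IsCompact S := by
    refine Metric.isCompact_of_isClosed_isBounded (isClosed_eq hSc continuous_const) ?_
    refine (Metric.isBounded_closedBall (x := (0 : Fin n → ℂ)) (r := 1)).subset ?_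
    intro v hv
    rw [mem_closedBall_zero_iff, pi_norm_le_iff_of_nonneg zero_le_one]
    intro i
    have h1 : ‖v i‖ ^ 2 ≤ ∑ i, ‖v i‖ ^ 2 :=
      Finset.single_le_sum (f := fun i => ‖v i‖ ^ 2) (fun i _ => by positivity)
        (Finset.mem_univ i)
    have h2 : ∑ i, ‖v i‖ ^ 2 = 1 := hv
    rw [h2] at h1
    have h3 : 0 ≤ ‖v i‖ := norm_nonneg _
    nlinarith
  have hTc : IsClosed ((ctangent M p : Submodule ℂ (Fin n → ℂ)) : Set (Fin n → ℂ)) :=
    Submodule.closed_of_finiteDimensional _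
  have hST : IsCompact (S ∩ (ctangent M p : Set (Fin n → ℂ))) := hS.inter_right hTc
  have hK : IsCompact (k '' (S ∩ (ctangent M p : Set (Fin n → ℂ)))) := hST.image hkc
  have hK0 : (0 : Fin d → ℝ) ∉ convexHull ℝ (k '' (S ∩ (ctangent M p : Set (Fin n → ℂ)))) := by
    intro h0
    have h1 : k '' (S ∩ (ctangent M p : Set (Fin n → ℂ))) ⊆
        (Lam hσ.ctan : Normal M p →ₗ[ℝ] (Fin d → ℝ)) '' leviSet M p := by
      rintro _ ⟨v, ⟨hv1, hv2⟩, rfl⟩
      obtain ⟨ν, hν⟩ := hL1 v hv2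
      exact ⟨ν, ⟨v, hv2, hv1, hν⟩, hlev v ν hν⟩
    have h2 := convexHull_mono h1 h0
    rw [← LinearMap.image_convexHull] at h2
    obtain ⟨ν, hν, hν0⟩ := h2
    have h3 : ν = 0 := hinj (by rw [hν0, map_zero])
    rw [h3] at hν
    exact hL2 hν
  obtain ⟨f, u, hf0, hfu⟩ := geometric_hahn_banach_point_closed (convex_convexHull ℝ _)
    (isCompact_hull hK).isClosed hK0
  rw [map_zero] at hf0
  have hfk : ∀ v ∈ S, v ∈ ctangent M p → 0 < f (k v) := fun v hv hvT =>
    hf0.trans (hfu _ (subset_convexHull ℝ _ ⟨v, ⟨hv, hvT⟩, rfl⟩))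
  -- the second part
  have hρ2 : ContDiffAt ℝ 2 ρ p := hρ.contDiffAt
  have hρ0 : ρ p = 0 := hρM.self_of_nhds.1 hp
  obtain ⟨D, hD, hDv⟩ := second_sq hρ2 hρ0
  have hker : ∀ v, v ∈ tangent M p ↔ fderiv ℝ ρ p v = 0 := hρT.self_of_nhdsWithin hp
  let h₂ : (Fin n → ℂ) → ℝ := fun v => D v v + D (Complex.I • v) (Complex.I • v)
  have h₂c : Continuous h₂ := by
    have h1 : Continuous fun v : Fin n → ℂ => D v v := D.continuous.clm_apply continuous_id
    have h2 : Continuous fun v : Fin n → ℂ => Complex.I • v := continuous_const_smul _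
    exact h1.add (h1.comp h2)
  have hDn : ∀ v, 0 ≤ D v v := by
    intro v
    rw [hDv]
    exact mul_nonneg (by norm_num) (Finset.sum_nonneg fun i _ => mul_self_nonneg _)
  have hD0 : ∀ v, D v v = 0 → v ∈ tangent M p := by
    intro v hv
    rw [hDv] at hv
    have h1 : ∑ i, fderiv ℝ ρ p v i * fderiv ℝ ρ p v i = 0 := by linarith
    rw [hker]
    funext i
    have h2 := (Finset.sum_eq_zero_iff_of_nonneg fun i _ => mul_self_nonneg _).1 h1 i
      (Finset.mem_univ i)
    exact mul_self_eq_zero.1 h2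
  obtain ⟨B, hB⟩ := exists_large hS (h₁ := fun v => f (k v)) (h₂ := h₂)
    (f.continuous.comp hkc) h₂c (fun v => add_nonneg (hDn _) (hDn _)) (by
      intro v hv hv0
      have e1 : D v v = 0 := by
        have := hDn v
        have := hDn (Complex.I • v)
        have : D v v + D (Complex.I • v) (Complex.I • v) = 0 := hv0
        linarith
      have e2 : D (Complex.I • v) (Complex.I • v) = 0 := by
        have : D v v + D (Complex.I • v) (Complex.I • v) = 0 := hv0
        linarith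
      exact hfk v hv ⟨hD0 v e1, hD0 _ e2⟩)
  have hfR : HasFDerivAt (fderiv ℝ fun w => f (R w)) _ p := second_clm hR2 f
  have hQ : ∀ᶠ w in 𝓝 p, DifferentiableAt ℝ (fun w => ∑ i, ρ w i ^ 2) w := by
    filter_upwards [hρ.eventually_analyticAt] with w hw
    have h1 : DifferentiableAt ℝ ρ w := hw.differentiableAt
    have h2 : ∀ i, DifferentiableAt ℝ (fun w => ρ w i) w := fun i =>
      (differentiableAt_pi.1 h1) i
    exact DifferentiableAt.fun_sum fun i _ => (h2 i).pow 2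
  have hfR1 : ∀ᶠ w in 𝓝 p, DifferentiableAt ℝ (fun w => f (R w)) w := by
    filter_upwards [hRa.eventually_analyticAt] with w hw
    exact f.differentiableAt.comp w hw.differentiableAt
  have hsum : HasFDerivAt (fderiv ℝ fun w => f (R w) + B * ∑ i, ρ w i ^ 2)
      (fderiv ℝ (fderiv ℝ fun w => f (R w)) p + B • D) p := by
    have e1 := (hfR.differentiableAt.hasFDerivAt).add (hD.const_smul B)
    refine e1.congr_of_eventuallyEq ?_
    filter_upwards [hQ, hfR1] with w hw1 hw2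
    have e2 := hw2.hasFDerivAt.add (hw1.hasFDerivAt.const_mul B)
    exact e2.fderiv
  refine ⟨fun w => f (R w) + B * ∑ i, ρ w i ^ 2, ?_, ?_, ?_⟩
  · refine ((f.analyticAt _).fun_comp hRa).add (analyticAt_const.mul ?_)
    refine Finset.analyticAt_fun_sum _ fun i _ => ?_
    exact (((ContinuousLinearMap.proj (R := ℝ) (φ := fun _ : Fin c => ℝ) i).analyticAt _).fun_comp
      hρ).pow 2
  · filter_upwards [hR0, nhdsWithin_le_nhds hρM, self_mem_nhdsWithin] with w h1 h2 h3
    rw [h1, map_zero, h2.1 h3]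
    simp
  · intro v hv
    rw [hsum.fderiv]
    have e1 : ∀ u, (fderiv ℝ (fderiv ℝ fun w => f (R w)) p + B • D) u u =
        fderiv ℝ (fderiv ℝ fun w => f (R w)) p u u + B * D u u := fun u => rfl
    rw [e1, e1]
    have e2 : fderiv ℝ (fderiv ℝ fun w => f (R w)) p v v + B * D v v +
        (fderiv ℝ (fderiv ℝ fun w => f (R w)) p (Complex.I • v) (Complex.I • v) +
          B * D (Complex.I • v) (Complex.I • v)) = f (k v) + B * h₂ v := by
      rw [← hg f v]
      show _ = _ + B * (D v v + D (Complex.I • v) (Complex.I • v))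
      ring
    rw [e2]
    -- homogeneity
    have hs : 0 < ∑ i, ‖v i‖ ^ 2 := by
      obtain ⟨i, hi⟩ := Function.ne_iff.1 hv
      refine Finset.sum_pos' (fun i _ => by positivity) ⟨i, Finset.mem_univ i, ?_⟩
      have : 0 < ‖v i‖ := norm_pos_iff.2 hi
      positivity
    set s := ∑ i, ‖v i‖ ^ 2 with hs'
    let t : ℝ := (Real.sqrt s)⁻¹
    have ht : 0 < t := inv_pos.2 (Real.sqrt_pos.2 hs)
    have hts : t ^ 2 * s = 1 := by
      show ((Real.sqrt s)⁻¹) ^ 2 * s = 1
      rw [inv_pow, Real.sq_sqrt hs.le, inv_mul_cancel₀ hs.ne']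
    have htv : t • v ∈ S := by
      show ∑ i, ‖(t • v) i‖ ^ 2 = 1
      have : ∀ i, ‖(t • v) i‖ ^ 2 = t ^ 2 * ‖v i‖ ^ 2 := by
        intro i
        rw [Pi.smul_apply, norm_smul, mul_pow, Real.norm_eq_abs, sq_abs]
      simp only [this]
      rw [← Finset.mul_sum]
      exact hts
    have h1 := hB (t • v) htv
    have hcomm : Complex.I • (t • v) = t • (Complex.I • v) := smul_comm _ _ _
    have h2 : f (k (t • v)) = t ^ 2 * f (k v) := by
      have : k (t • v) = (t ^ 2) • k v := by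
        show fderiv ℝ (fderiv ℝ R) p (t • v) (t • v) +
          fderiv ℝ (fderiv ℝ R) p (Complex.I • (t • v)) (Complex.I • (t • v)) = _
        rw [hcomm]
        simp only [map_smul, _root_.smul_apply]
        rw [smul_smul, smul_smul, ← smul_add, sq]
      rw [this, map_smul, smul_eq_mul]
    have h3 : h₂ (t • v) = t ^ 2 * h₂ v := by
      show D (t • v) (t • v) + D (Complex.I • (t • v)) (Complex.I • (t • v)) =
        t ^ 2 * (D v v + D (Complex.I • v) (Complex.I • v))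
      rw [hcomm]
      simp only [map_smul, _root_.smul_apply, smul_eq_mul]
      ring
    rw [h2, h3] at h1
    have h4 : 0 < t ^ 2 * (f (k v) + B * h₂ v) := by linarith
    exact (mul_pos_iff_of_pos_left (by positivity)).1 h4

end

end Pool.Agent.Lib.MP_2184e2_an.Loc
end

section
/-!
# MP_2184e2_an, local theorem: module TOH
-/
set_option autoImplicit false

namespace Pool.Agent.Lib.MP_2184e2_an.Loc

open MvPowerSeries Filter Topology Set SubC EvC TohfM
open scoped ContDiff ComplexConjugate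

noncomputable section

theorem specTOH (hIFT : SpecIFT) (hCNV : SpecCNV) (hCNS : SpecCNS) (hCHN : SpecCHN)
    (hEVA : SpecEVA) (hTAYM : SpecTAYM) : SpecTOH := by
  intro m d φ hφ T hT g hg hCR
  obtain ⟨b, hb⟩ := exists_co hIFT hCNV hCNS hCHN hφ
  refine exists_H hCNV hCNS hCHN hφ hb (T g) fun j => ?_
  have hZc : ∀ i, Conv (Zs φ i) := fun i => ee_conv hCNV hφ (Sum.inl i)
  have hfc : ∀ k, Conv (fld φ b j k) := fun k =>
    cs hCNV hCNS (cpd hCNV _ (hb.conv k)) (ee_conv hCNV hφ) (ee_z0 hφ)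
  -- the analytic fields kill `Zm`
  have h1 : ∀ i : Zi m d, ∀ᶠ x in 𝓝 (0 : Ki m d → ℝ),
      ∑ k, ev (fld φ b j k) (rl x) * pd (fun y => Zm φ y i) k x = 0 := by
    intro i
    have e1 : ∀ᶠ x in 𝓝 (0 : Ki m d → ℝ), ∀ k,
        pd (fun y => Zm φ y i) k x = ev (pderiv ℂ k (Zs φ i)) (rl x) := by
      rw [eventually_all]
      exact fun k => pd_rl hEVA (hZc i) k
    have e2 : ∀ᶠ x in 𝓝 (0 : Ki m d → ℝ), ∀ k,
        ev (fld φ b j k * pderiv ℂ k (Zs φ i)) (rl x) =
          ev (fld φ b j k) (rl x) * ev (pderiv ℂ k (Zs φ i)) (rl x) := by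
      rw [eventually_all]
      intro k
      have := tendsto_rl.eventually ((hEVA (Ki m d)).2.1 (fld φ b j k)
        (pderiv ℂ k (Zs φ i)) (hfc k) (cpd hCNV _ (hZc i)))
      exact this.mono fun x hx => hx.2.1
    have e3 := tendsto_rl.eventually (ev_sum hEVA hCNV Finset.univ
      (fun k => fld φ b j k * pderiv ℂ k (Zs φ i))
      fun k => cmul hCNV (hfc k) (cpd hCNV _ (hZc i)))
    filter_upwards [e1, e2, e3] with x h1 h2 h3
    have h4 : ∑ k, ev (fld φ b j k) (rl x) * pd (fun y => Zm φ y i) k x =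
        ∑ k, ev (fld φ b j k * pderiv ℂ k (Zs φ i)) (rl x) :=
      Finset.sum_congr rfl fun k _ => by rw [h1 k, h2 k]
    rw [h4, ← h3, fld_kills hCHN hφ hb j i]
    have := (hEVA (Ki m d)).2.2.1 0 (rl x)
    simpa using this
  have h2 : ∀ᶠ x in 𝓝 (0 : Ki m d → ℝ),
      ∑ k, ev (fld φ b j k) (rl x) * pd g k x = 0 := by
    have h3 := eventually_all.mpr h1
    filter_upwards [h3, hCR] with x hx1 hx2
    exact hx2 (fun k => ev (fld φ b j k) (rl x)) hx1
  have h3 : T (fun x => ∑ k, ev (fld φ b j k) (rl x) * pd g k x) =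
      ∑ k, fld φ b j k * pderiv ℂ k (T g) := by
    rw [T_sum hTAYM hT Finset.univ (fun k x => ev (fld φ b j k) (rl x) * pd g k x)
      fun k => (cd_rl hEVA (hfc k)).mul (cd_pd hg k)]
    refine Finset.sum_congr rfl fun k _ => ?_
    rw [((hTAYM (Ki m d) T hT).1 (fun x => ev (fld φ b j k) (rl x)) (pd g k)
      (cd_rl hEVA (hfc k)) (cd_pd hg k)).2, (hTAYM (Ki m d) T hT).2.2.1 _ (hfc k), hT.der g hg k]
  rw [← h3, hT.germ _ (fun _ => 0) h2]
  exact T_zero hTAYM hT

end

end Pool.Agent.Lib.MP_2184e2_an.Loc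
end
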