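import Pool.Agent.Lib.MP_2184e2_an.Loc.Ibr
import Pool.Agent.Lib.MP_2184e2_an.Loc.Ann
import Pool.Agent.Lib.MP_2184e2_an.Loc.BSH
import Pool.Agent.Lib.MP_2184e2_an.Loc.Bt
import Pool.Agent.Lib.MP_2184e2_an.Loc.Bta
import Pool.Agent.Lib.MP_2184e2_an.Loc.Btb
import Pool.Agent.Lib.MP_2184e2_an.Loc.Taym
import Pool.Agent.Lib.MP_2184e2_an.Loc.LocCore
import Pool.Agent.Lib.MP_2184e2_an.Loc.Cnv
import Pool.Agent.Lib.MP_2184e2_an.Loc.Cpt
import Pool.Agent.Lib.MP_2184e2_an.Loc.Lvs
import Pool.Agent.Lib.MP_2184e2_an.Loc.END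
import Pool.Agent.Lib.MP_2184e2_an.Loc.Extr
import Pool.Agent.Lib.MP_2184e2_an.Loc.SubLib
import Pool.Agent.Lib.MP_2184e2_an.Loc.Stepu
import Pool.Agent.Lib.MP_2184e2_an.Loc.La1
import Pool.Agent.Lib.MP_2184e2_an.Loc.Tayf
import Pool.Agent.Lib.MP_2184e2_an.Loc.Parc
import Pool.Agent.Lib.MP_2184e2_an.Loc.Toh
import Pool.Agent.Lib.MP_2184e2_an.Loc.Secd
import Pool.Agent.Lib.MP_2184e2_an.Loc.SOLV
import Pool.Agent.Lib.MP_2184e2_an.Loc.Shm
import Pool.Agent.Lib.MP_2184e2_an.Loc.Stepp
import Pool.Agent.Lib.MP_2184e2_an.Loc.Unq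

section
/-!
# MP_2184e2_an, local theorem: module POS (positivity)
-/
set_option autoImplicit false

namespace Pool.Agent.Lib.MP_2184e2_an.Loc.PosM

open MvPowerSeries Filter Topology CalM SegM

noncomputable section

/-- the first coefficient of a series in one variable without constant term -/
theorem exists_factor (Z : PS Unit) (hZ : Z0 Z) :
    ∃ z : PS Unit, Z = X () * z ∧ constantCoeff z = lin Z () := by
  have h1 : (PowerSeries.X : PowerSeries ℂ) ∣ Z := PowerSeries.X_dvd_iff.2 hZ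
  obtain ⟨z, hz⟩ := h1
  refine ⟨z, hz, ?_⟩
  have h2 := PowerSeries.coeff_succ_X_mul 0 z
  rw [← hz] at h2
  have h3 : PowerSeries.coeff (0 + 1) Z = lin Z () := rfl
  rw [h3, PowerSeries.coeff_zero_eq_constantCoeff_apply] at h2
  exact h2.symm

/-- A nonzero power series does not vanish on all curves with real tangent vectors: there is a real
vector `a` such that it does not vanish on any curve with the tangent vector `a`. -/
theorem exists_tangent {ι : Type} [Finite ι] (f : PS ι) (hf : f ≠ 0) :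
    ∃ a : ι → ℝ, ∀ Z : ι → PS Unit, (∀ i, Z0 (Z i) ∧ lin (Z i) () = a i) →
      f.subst Z ≠ 0 := by
  classical
  have := Fintype.ofFinite ι
  -- the lowest degree
  have hex : ∃ e : ℕ, ∃ n : ι →₀ ℕ, n.degree = e ∧ coeff n f ≠ 0 := by
    by_contra hc
    push Not at hc
    apply hf
    ext n
    rw [hc _ n rfl]
    simp
  set e := Nat.find hex with he
  obtain ⟨n0, hn0, hn0'⟩ := Nat.find_spec hex
  have hlow : ∀ n : ι →₀ ℕ, n.degree < e → coeff n f = 0 := by
    intro n hn
    by_contra hc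
    exact Nat.find_min hex hn ⟨n, rfl, hc⟩
  set P : MvPolynomial ι ℂ := truncTotal (e + 1) f with hP
  have hP0 : P ≠ 0 := by
    intro h0
    apply hn0'
    rw [← coeff_truncTotal f (n := e + 1) (x := n0) (by omega), ← hP, h0]
    simp
  obtain ⟨a, ha⟩ : ∃ a : ι → ℝ, MvPolynomial.eval (fun i => (a i : ℂ)) P ≠ 0 := by
    by_contra hc
    push Not at hc
    apply hP0
    apply MvPolynomial.funext_set (fun _ => Set.range (fun x : ℝ => (x : ℂ)))
      (fun _ => Set.infinite_range_of_injective Complex.ofReal_injective)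
    intro x hx
    have h1 : ∀ i, ∃ y : ℝ, (y : ℂ) = x i := fun i => hx i (Set.mem_univ i)
    choose y hy using h1
    have h2 := hc y
    rw [show (fun i => ((y i : ℝ) : ℂ)) = x from funext hy] at h2
    rw [h2, map_zero]
  refine ⟨a, fun Z hZ h0 => ha ?_⟩
  have hz : ∀ i, ∃ z : PS Unit, Z i = X () * z ∧ constantCoeff z = (a i : ℂ) := by
    intro i
    obtain ⟨z, h1, h2⟩ := exists_factor (Z i) (hZ i).1
    exact ⟨z, h1, h2.trans (hZ i).2⟩
  choose z hz1 hz2 using hz
  -- the coefficient of `t ^ e`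
  have hprod : ∀ n : ι →₀ ℕ, coeff (Finsupp.single () e) (n.prod fun s k => Z s ^ k) =
      if n.degree ≤ e then (PowerSeries.coeff (e - n.degree) (n.prod fun s k => z s ^ k) : ℂ)
      else 0 := by
    intro n
    have h1 : (n.prod fun s k => Z s ^ k) = (PowerSeries.X : PowerSeries ℂ) ^ n.degree *
        (n.prod fun s k => z s ^ k) := by
      unfold Finsupp.prod
      have h2 : ∀ s ∈ n.support, Z s ^ n s = (X () : PS Unit) ^ n s * z s ^ n s := by
        intro s _
        rw [hz1 s, mul_pow]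
      rw [Finset.prod_congr rfl h2, Finset.prod_mul_distrib, Finset.prod_pow_eq_pow_sum]
      rfl
    rw [h1]
    exact PowerSeries.coeff_X_pow_mul' _ _ _
  have hterm : ∀ n : ι →₀ ℕ, coeff n f • coeff (Finsupp.single () e)
      (n.prod fun s k => Z s ^ k) = MvPolynomial.coeff n P * n.prod fun s k => (a s : ℂ) ^ k := by
    intro n
    rw [hprod n, smul_eq_mul]
    rcases lt_trichotomy n.degree e with h | h | h
    · rw [hlow n h, zero_mul, hP, coeff_truncTotal f (by omega), hlow n h, zero_mul]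
    · rw [if_pos h.le, hP, coeff_truncTotal f (by omega), h, Nat.sub_self]
      congr 1
      rw [PowerSeries.coeff_zero_eq_constantCoeff_apply]
      unfold Finsupp.prod
      have h3 : PowerSeries.constantCoeff (∏ s ∈ n.support, z s ^ n s) =
          ∏ s ∈ n.support, (constantCoeff (z s)) ^ n s := by
        rw [map_prod]
        apply Finset.prod_congr rfl
        intro s _
        rw [map_pow]
        rfl
      rw [h3]
      apply Finset.prod_congr rfl
      intro s _
      rw [hz2 s]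
    · rw [if_neg (by omega), mul_zero, hP, coeff_truncTotal_eq_zero f (by omega), zero_mul]
  have h5 := congrArg (coeff (Finsupp.single () e)) h0
  rw [coeff_subst (hs fun i => (hZ i).1), map_zero] at h5
  rw [MvPolynomial.eval_eq']
  rw [finsum_congr hterm] at h5
  rw [← h5]
  symm
  have h6 : (fun n : ι →₀ ℕ => MvPolynomial.coeff n P * n.prod fun s k => (a s : ℂ) ^ k).support ⊆
      (P.support : Set (ι →₀ ℕ)) := by
    intro n hn
    rw [Finset.mem_coe, MvPolynomial.mem_support_iff]
    intro h7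
    apply hn
    simp only [h7, zero_mul]
  rw [finsum_eq_sum_of_support_subset _ h6]
  apply Finset.sum_congr rfl
  intro n _
  congr 1
  rw [Finsupp.prod_fintype]
  intro i
  exact pow_zero _

end

end Pool.Agent.Lib.MP_2184e2_an.Loc.PosM

namespace Pool.Agent.Lib.MP_2184e2_an.Loc

open MvPowerSeries CalM SegM IbrM PosM in
/-- POS: positivity. -/
theorem specPOS : SpecPOS := by
  classical
  intro m d N Q ρ H hQ hρ hH W hrel
  by_contra hW
  obtain ⟨k0, hk0⟩ : ∃ k, W k ≠ 0 := by
    by_contra hc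
    push Not at hc
    exact hW (funext hc)
  obtain ⟨a, ha⟩ := exists_tangent (W k0) hk0
  obtain ⟨Z, hZ, hZQ⟩ := hQ.curve a
  have hw0 : (W k0).subst Z ≠ 0 := ha Z hZ
  -- the substitution `z = Z(t)_z`, `ζ = Z̄(t)`
  let c : Mi m d → PS Unit := Sum.elim (fun j => Z (Sum.inl j)) (fun i => cj (Z i))
  have hc : ∀ i, Z0 (c i) := z0_elim (fun j => (hZ _).1) (fun i => z0_cj (hZ i).1)
  have hZ0 : ∀ i, Z0 (Z i) := fun i => (hZ i).1
  have hZc : ∀ i, (Zc Q i).subst c = Z i := by
    intro i
    rcases i with j | l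
    · exact s_X hc (Sum.inl j)
    · change ((Q l).subst (Sum.elim (fun j => (X (Sum.inl j) : PS (Mi m d)))
        (fun i => X (Sum.inr i)))).subst c = _
      rw [ss (z0_elim (fun _ => z0_X _) (fun _ => z0_X _)) hc, ← hZQ l]
      congr 1
      funext i
      rcases i with i | i
      · exact s_X hc (Sum.inl i)
      · exact s_X hc (Sum.inr i)
  have hζc : ∀ i, (ζc (m := m) (d := d) i).subst c = cj (Z i) := fun i => s_X hc (Sum.inr i)
  have hA := z0_argH hQ.zero hH
  have hZc0 := z0_Zc hQ.zero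
  set w : Fin N → PS Unit := fun k => (W k).subst Z with hw
  set R : Fin N → Fin N → PS Unit := fun k l => (G2 Q ρ H k l).subst c with hR
  have hrel' : ∑ k, ∑ l, w k * cj (w l) * R k l = 0 := by
    have h1 := congrArg (fun f => f.subst c) hrel
    simp only [s_zero hc, s_sum hc, subst_mul (hs hc)] at h1
    rw [← h1]
    apply Finset.sum_congr rfl
    intro k _
    apply Finset.sum_congr rfl
    intro l _
    congr 1
    congr 1
    · rw [ss hZc0 hc]
      simp only [hZc]
      rfl
    · rw [ss z0_ζc hc]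
      simp only [hζc]
      rw [hw]
      exact cj_subst _ hZ0
  have hRc : ∀ k l, constantCoeff (R k l) = co2 ρ (Sum.inl k) (Sum.inr l) := by
    intro k l
    rw [hR]
    simp only
    rw [cc_subst _ hc]
    unfold G2
    rw [cc_subst _ hA, ← coeff_zero_eq_constantCoeff_apply, coeff_pderiv, coeff_pderiv]
    unfold co2
    have h1 : (Finsupp.single (Sum.inr l : Fin N ⊕ Fin N) 1) (Sum.inl k : Fin N ⊕ Fin N) = 0 := by
      rw [Finsupp.single_apply, if_neg (by simp)]
    simp [h1, add_comm]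
  -- the lowest order
  have hex : ∃ e : ℕ, ∃ k, PowerSeries.coeff e (w k) ≠ 0 := by
    by_contra hcon
    push Not at hcon
    apply hw0
    change w k0 = 0
    apply PowerSeries.ext
    intro n
    rw [hcon n k0]
    simp
  set e := Nat.find hex with he
  obtain ⟨k1, hk1⟩ := Nat.find_spec hex
  have hdiv : ∀ k, ∃ u : PS Unit, w k = (PowerSeries.X : PowerSeries ℂ) ^ e * u := by
    intro k
    have h1 : (PowerSeries.X : PowerSeries ℂ) ^ e ∣ w k := by
      rw [PowerSeries.X_pow_dvd_iff]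
      intro i hi
      by_contra hcon
      exact Nat.find_min hex hi ⟨k, hcon⟩
    exact h1
  choose u hu using hdiv
  have hX : cj ((PowerSeries.X : PowerSeries ℂ) ^ e) = (PowerSeries.X : PowerSeries ℂ) ^ e := by
    unfold cj
    rw [map_pow]
    congr 1
    exact cj_X ()
  have hu1 : constantCoeff (u k1) ≠ 0 := by
    intro h0
    apply hk1
    rw [← he, hu k1, PowerSeries.coeff_X_pow_mul', if_pos le_rfl, Nat.sub_self,
      PowerSeries.coeff_zero_eq_constantCoeff_apply]
    exact h0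
  have hrel2 : ∑ k, ∑ l, u k * cj (u l) * R k l = 0 := by
    have h1 : (PowerSeries.X : PowerSeries ℂ) ^ e * (PowerSeries.X : PowerSeries ℂ) ^ e *
        (∑ k, ∑ l, u k * cj (u l) * R k l) = 0 := by
      rw [← hrel', Finset.mul_sum]
      apply Finset.sum_congr rfl
      intro k _
      rw [Finset.mul_sum]
      apply Finset.sum_congr rfl
      intro l _
      rw [hu k, hu l, cj_mul, hX]
      ring
    have h2 : (PowerSeries.X : PowerSeries ℂ) ^ e * (PowerSeries.X : PowerSeries ℂ) ^ e ≠ 0 :=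
      mul_ne_zero (pow_ne_zero _ PowerSeries.X_ne_zero) (pow_ne_zero _ PowerSeries.X_ne_zero)
    exact (mul_eq_zero.1 h1).resolve_left h2
  have h3 := congrArg constantCoeff hrel2
  simp only [map_sum, map_mul, map_zero, hRc] at h3
  have hcc : ∀ l, constantCoeff (cj (u l)) = (starRingEnd ℂ) (constantCoeff (u l)) := by
    intro l
    rw [← coeff_zero_eq_constantCoeff_apply, coeff_cj, coeff_zero_eq_constantCoeff_apply]
  simp only [hcc] at h3
  have h4 := hρ.pos (fun k => constantCoeff (u k)) (fun h0 => hu1 (congrFun h0 k1))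
  have h5 : (∑ i, ∑ j, co2 ρ (Sum.inl i) (Sum.inr j) * constantCoeff (u i) *
      (starRingEnd ℂ) (constantCoeff (u j))) = 0 := by
    rw [← h3]
    apply Finset.sum_congr rfl
    intro i _
    apply Finset.sum_congr rfl
    intro j _
    ring
  rw [h5] at h4
  simp at h4

end Pool.Agent.Lib.MP_2184e2_an.Loc
end

section
/-!
# MP_2184e2_an, local theorem: assembly of all modules
-/
set_option autoImplicit false

namespace Pool.Agent.Lib.MP_2184e2_an.Loc

theorem tCNV : SpecCNV := specCNV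

theorem tEVA : SpecEVA := specEVA tCNV

theorem tRAP : SpecRAP := specRAP

theorem tTAN : SpecTAN := specTAN

theorem tPARL : SpecPARL := specPARL

theorem tPARA : SpecPARA := specPARA tEVA tRAP tTAN tPARL

theorem tEVS : SpecEVS := specEVS

theorem tLEVD : SpecLEVD := specLEVD

theorem tLEVF : SpecLEVF := specLEVF tEVA tEVS tLEVD

theorem tLVS : SpecLVS := specLVS tLEVF

theorem tTGT1 : SpecTGT1 := specTGT1 tTAN tPARA tLEVD tEVA tCNV

theorem tCNS : SpecCNS := specCNS

theorem tCHN : SpecCHN := specCHN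

theorem tTGT2 : SpecTGT2 := specTGT2 tRAP tEVA tEVS tCNS tCHN tCNV

theorem tPARC : SpecPARC := specPARC tEVA

theorem tCRT : SpecCRT := specCRT tPARC

theorem tTAY : SpecTAY := specTAY

theorem tTAYM : SpecTAYM := specTAYM tEVA

theorem tTAYF : SpecTAYF := specTAYF

theorem tFIX : SpecFIX := specFIX

theorem tIFT : SpecIFT := specIFT tFIX tCNV

theorem tTOH : SpecTOH := specTOH tIFT tCNV tCNS tCHN tEVA tTAYM

theorem tQFR : SpecQFR := specQFR tIFT tCNV tCNS tCHN

theorem tQFL : SpecQFL := specQFL tCHN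

theorem tREL : SpecREL := specREL tIFT tCNV tCNS tCHN tEVA tEVS tTAYM

theorem tFMIN : SpecFMIN := specFMIN

theorem tSCR : SpecSCR := specSCR tCNV

theorem tSCS : SpecSCS := specSCS tSCR tCNS tCNV

theorem tPTS : SpecPTS := specPTS tSCR tSCS tCNS tCNV

theorem tCPT : SpecCPT := specCPT

theorem tLSE : SpecLSE := specLSE

theorem tLDE : SpecLDE := specLDE tLSE

theorem tEXTR : SpecEXTR := specEXTR

theorem tSHM : SpecSHM := specSHM

theorem tSTEPU : SpecSTEPU := specSTEPU tPTS tCPT tSCS tSCR tLDE tEXTR tSHM tCNV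

theorem tGERM : SpecGERM := specGERM tCNV tCNS tCHN tIFT

theorem tLA1 : SpecLA1 := specLA1 tGERM tSCR tSCS tCHN tCNS tCNV

theorem tSL2 : SpecSL2 := specSL2

theorem tLA : SpecLA := specLA tLA1 tSL2 tSCS tSCR tCHN

theorem tIBR : SpecIBR := specIBR

theorem tPOS : SpecPOS := specPOS

theorem tANN : SpecANN := specANN tPOS

theorem tSTEPP : SpecSTEPP := specSTEPP tPTS tCPT tSCS tSCR tCHN tLSE tLA tEXTR tSHM tIBR tANN

theorem tINV : SpecINV := specINV tFIX tCNV

theorem tEND : SpecEND := specEND tCNV tCNS tINV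

theorem tFORMAL : SpecFORMAL := specFORMAL tFMIN tSTEPU tSTEPP tEND tSHM tSCR tPTS

theorem tHOMI : SpecHOMI := specHOMI

theorem tBTA : SpecBTA := specBTA tEVA tHOMI

theorem tBTB : SpecBTB := specBTB tEVA tHOMI

theorem tBT : SpecBT := specBT tEVA tBTA tBTB

theorem tEXTD : SpecEXTD := specEXTD tBT

theorem tLNM : SpecLNM := specLNM

theorem tBSH : SpecBSH := specBSH tFIX tLNM tCNV

theorem tSOLV : SpecSOLV := specSOLV tLNM

theorem tEVM : SpecEVM := specEVM tLNM

theorem tDISC : SpecDISC := specDISC tLNM tBSH tSOLV tEVM tEVA tCNV tCNS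

theorem tHOPF : SpecHOPF := specHOPF

theorem tSECD : SpecSECD := specSECD tEVA tEVS tCNV

theorem tLOC : SpecLOC := specLOC tEVA tEVS tCNV tCNS tTAY tTAYM tTAYF tTOH tQFR tQFL tREL tFORMAL tEXTD tDISC tHOPF tSECD

theorem tMN1 : SpecMN1 := specMN1 tPARA tLVS tTGT1 tTGT2 tCRT tLOC tEVA

theorem tUNQ : SpecUNQ := specUNQ tPARA tRAP tEVA tEVS tINV tCHN tCNV tCNS

theorem tGLU : SpecGLU := specGLU tUNQ

theorem tFIN : SpecFIN := specFIN tMN1 tGLU

theorem finThm : SpecFIN := tFIN

end Pool.Agent.Lib.MP_2184e2_an.Loc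
end
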