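import Pool.Agent.Lib.MP_2184e2_an.Loc.SpecA
import Pool.Agent.Lib.MP_2184e2_an.Loc.Cnv

/-!
# MP_2184e2_an, local theorem: common lemmas for BTA, BTB, BT
-/

set_option autoImplicit false

namespace Pool.Agent.Lib.MP_2184e2_an.Loc.BtM

open MvPowerSeries Filter Topology Set
open scoped ContDiff ComplexConjugate

noncomputable section

/-- The local structure of the embedding. -/
structure Mod {m d : ℕ} (Z : (Ki m d → ℝ) → Zi m d → ℂ) (Φ : Fin d → (Ki m d → ℝ) → ℝ)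
    (ρ : ℝ) : Prop where
  pos : 0 < ρ
  z1 : ∀ x, ‖x‖ < ρ → ∀ j,
    Z x (Sum.inl j) = x (Sum.inl (Sum.inl j)) + Complex.I * x (Sum.inl (Sum.inr j))
  z2 : ∀ x, ‖x‖ < ρ → ∀ l, Z x (Sum.inr l) = x (Sum.inr l) + Complex.I * Φ l x
  sm : ∀ x, ‖x‖ < ρ → ∀ l, ContDiffAt ℝ ∞ (Φ l) x
  small : ∀ x, ‖x‖ < ρ → ∀ l, ∑ k, |fderiv ℝ (Φ l) x (Pi.single k 1)| < 1 / 2
  lip : ∀ x x', ‖x‖ < ρ → ‖x'‖ < ρ →
    ∑ l, (Φ l x - Φ l x') ^ 2 ≤ 1 / 16 * ∑ k, (x k - x' k) ^ 2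

lemma ev_zero {ι : Type} (f : PS ι) : ev f 0 = constantCoeff f := by
  unfold ev
  rw [tsum_eq_single 0]
  · simp
  · intro n hn
    obtain ⟨i, hi⟩ := Finsupp.support_nonempty_iff.2 hn
    have : n.prod (fun i k => (0 : ι → ℂ) i ^ k) = 0 := by
      rw [Finsupp.prod]
      refine Finset.prod_eq_zero hi ?_
      simp [Finsupp.mem_support_iff.1 hi]
    rw [this, mul_zero]

/-- `rl` as a continuous linear map -/
def rlL (κ : Type) [Fintype κ] : (κ → ℝ) →L[ℝ] (κ → ℂ) :=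
  ContinuousLinearMap.pi fun k => Complex.ofRealCLM.comp (ContinuousLinearMap.proj k)

lemma rlL_apply {κ : Type} [Fintype κ] (x : κ → ℝ) : rlL κ x = rl x := by
  funext k; simp [rlL, rl]

lemma cpi_zero {ι : Type} [Fintype ι] [DecidableEq ι] (L : (ι → ℂ) →L[ℂ] ℂ)
    (h : ∀ i, L (Pi.single i 1) = 0) : L = 0 := by
  ext x
  have hx : x = ∑ i, x i • (Pi.single i (1 : ℂ) : ι → ℂ) := by
    funext j
    simp [Finset.sum_apply, Pi.single_apply]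
  rw [hx, map_sum]
  simp [h]

lemma real_phi {m d : ℕ} {φ : Fin d → PS (Ki m d)} (hEVA : SpecEVA) (hφ : IsPhi φ) (l : Fin d)
    (x : Ki m d → ℝ) : ev (φ l) (rl x) = ((ev (φ l) (rl x)).re : ℂ) := by
  have h := (hEVA (Ki m d)).2.2.2.2.2.1 (φ l) (rl x)
  rw [hφ.real l] at h
  have h2 : (fun i => conj (rl x i)) = rl x := by
    funext i; simp [rl]
  rw [h2] at h
  exact (Complex.conj_eq_iff_re.1 h.symm).symm

lemma phi_an {m d : ℕ} {φ : Fin d → PS (Ki m d)} (hEVA : SpecEVA) (hφ : IsPhi φ) (l : Fin d) :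
    AnalyticAt ℝ (fun x : Ki m d → ℝ => (ev (φ l) (rl x)).re) 0 := by
  have h1 : AnalyticAt ℝ (ev (φ l)) (rlL (Ki m d) 0) := by
    rw [map_zero]
    exact ((hEVA (Ki m d)).1 (φ l) (hφ.conv l)).1.restrictScalars
  have h2 : AnalyticAt ℝ (fun x => ev (φ l) (rlL (Ki m d) x)) 0 :=
    h1.comp ((rlL (Ki m d)).analyticAt 0)
  have h3 := (Complex.reCLM.analyticAt _).comp h2
  simpa only [Function.comp_def, rlL_apply, Complex.reCLM_apply] using h3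

lemma phi_der {m d : ℕ} {φ : Fin d → PS (Ki m d)} (hEVA : SpecEVA) (hφ : IsPhi φ) (l : Fin d) :
    HasFDerivAt (fun x : Ki m d → ℝ => (ev (φ l) (rl x)).re) (0 : (Ki m d → ℝ) →L[ℝ] ℝ) 0 := by
  have h1 : DifferentiableAt ℂ (ev (φ l)) 0 :=
    ((hEVA (Ki m d)).1 (φ l) (hφ.conv l)).1.differentiableAt
  have h2 : fderiv ℂ (ev (φ l)) 0 = 0 := by
    refine cpi_zero _ fun i => ?_
    have h3 := ((hEVA (Ki m d)).2.2.2.2.1 (φ l) i (hφ.conv l)).self_of_nhds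
    rw [h3, ev_zero, ← coeff_zero_eq_constantCoeff_apply, MvPowerSeries.coeff_pderiv]
    have h4 := hφ.lin l i
    unfold lin at h4
    simp [h4]
  have h5 : HasFDerivAt (ev (φ l)) (0 : (Ki m d → ℂ) →L[ℂ] ℂ) (rlL (Ki m d) 0) := by
    rw [map_zero, ← h2]; exact h1.hasFDerivAt
  have h6 := (h5.restrictScalars ℝ).comp 0 (rlL (Ki m d)).hasFDerivAt
  have h7 := (Complex.reCLM.hasFDerivAt (x := ev (φ l) (rlL (Ki m d) 0))).comp 0 h6
  simp only [Function.comp_def, rlL_apply, Complex.reCLM_apply] at h7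
  have h8 : (Complex.reCLM.comp
      (((0 : (Ki m d → ℂ) →L[ℂ] ℂ).restrictScalars ℝ).comp (rlL (Ki m d)))) = 0 := by
    ext x; simp
  rw [← h8]
  exact h7

lemma conv_X {κ : Type} [Finite κ] (i : κ) : Conv (X i : PS κ) :=
  (specCNV.1 ℂ (fun c => ‖c‖) specCNV.2 κ).2.2.1 i

lemma conv_CX {κ : Type} [Finite κ] (c : ℂ) (f : PS κ) (hf : Conv f) : Conv (C c * f : PS κ) :=
  ((specCNV.1 ℂ (fun c => ‖c‖) specCNV.2 κ).1 _ _
    ((specCNV.1 ℂ (fun c => ‖c‖) specCNV.2 κ).2.1 c) hf).2.1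

lemma conv_C {κ : Type} [Finite κ] (c : ℂ) : Conv (C c : PS κ) :=
  (specCNV.1 ℂ (fun c => ‖c‖) specCNV.2 κ).2.1 c

lemma rl_nhds {κ : Type} [Fintype κ] : Tendsto (fun x : κ → ℝ => rl x) (𝓝 0) (𝓝 0) := by
  have h := (rlL κ).continuous.tendsto 0
  rw [map_zero] at h
  exact h.congr fun x => rlL_apply x

lemma ev_aff (hEVA : SpecEVA) {κ : Type} [Fintype κ] [DecidableEq κ] (i : κ) (f : PS κ)
    (hf : Conv f) : ∀ᶠ x in 𝓝 (0 : κ → ℝ),
      ev (X i + C Complex.I * f) (rl x) = x i + Complex.I * ev f (rl x) := by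
  have h1 := (hEVA κ).2.1 (X i) (C Complex.I * f) (conv_X i) (conv_CX _ f hf)
  have h2 := (hEVA κ).2.1 (C Complex.I) f (conv_C _) hf
  filter_upwards [rl_nhds.eventually h1, rl_nhds.eventually h2] with x e1 e2
  rw [e1.1, e2.2.1, (hEVA κ).2.2.1, (hEVA κ).2.2.2.1]
  simp [rl]

/-- the local structure -/
theorem setup (hEVA : SpecEVA) {m d : ℕ} (φ : Fin d → PS (Ki m d)) (hφ : IsPhi φ)
    (p : (Ki m d → ℝ) → Prop) (hp : ∀ᶠ x in 𝓝 (0 : Ki m d → ℝ), p x) :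
    ∃ (Φ : Fin d → (Ki m d → ℝ) → ℝ) (ρ : ℝ), Mod (Zm φ) Φ ρ ∧ ∀ x, ‖x‖ < ρ → p x := by
  classical
  set Φ : Fin d → (Ki m d → ℝ) → ℝ := fun l x => (ev (φ l) (rl x)).re with hΦ
  have e1 : ∀ᶠ x in 𝓝 (0 : Ki m d → ℝ), ∀ j : Fin m,
      Zm φ x (Sum.inl j) = x (Sum.inl (Sum.inl j)) + Complex.I * x (Sum.inl (Sum.inr j)) := by
    rw [eventually_all]
    intro j
    filter_upwards [ev_aff hEVA (Sum.inl (Sum.inl j) : Ki m d) (X (Sum.inl (Sum.inr j)))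
      (conv_X _)] with x hx
    have : Zm φ x (Sum.inl j) = ev (X (Sum.inl (Sum.inl j)) +
      C Complex.I * X (Sum.inl (Sum.inr j)) : PS (Ki m d)) (rl x) := rfl
    rw [this, hx, (hEVA _).2.2.2.1]
    rfl
  have e2 : ∀ᶠ x in 𝓝 (0 : Ki m d → ℝ), ∀ l : Fin d,
      Zm φ x (Sum.inr l) = x (Sum.inr l) + Complex.I * Φ l x := by
    rw [eventually_all]
    intro l
    filter_upwards [ev_aff hEVA (Sum.inr l : Ki m d) (φ l) (hφ.conv l)] with x hx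
    have : Zm φ x (Sum.inr l) = ev (X (Sum.inr l) + C Complex.I * φ l : PS (Ki m d)) (rl x) := rfl
    rw [this, hx, real_phi hEVA hφ l x]
  have e3 : ∀ᶠ x in 𝓝 (0 : Ki m d → ℝ), ∀ l : Fin d, ContDiffAt ℝ ∞ (Φ l) x := by
    rw [eventually_all]
    intro l
    filter_upwards [(phi_an hEVA hφ l).eventually_analyticAt] with x hx
    exact hx.contDiffAt
  have hd0 : ∀ l, fderiv ℝ (Φ l) 0 = 0 := fun l => (phi_der hEVA hφ l).fderiv
  have e4 : ∀ᶠ x in 𝓝 (0 : Ki m d → ℝ), ∀ l : Fin d,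
      ∑ k, |fderiv ℝ (Φ l) x (Pi.single k 1)| < 1 / 2 := by
    rw [eventually_all]
    intro l
    have hc : ContinuousAt (fun x => ∑ k, |fderiv ℝ (Φ l) x (Pi.single k 1)|) 0 := by
      have h1 : ContinuousAt (fderiv ℝ (Φ l)) 0 :=
        ((phi_an hEVA hφ l).contDiffAt (n := 1)).continuousAt_fderiv (by simp)
      refine tendsto_finsetSum _ fun k _ => ?_
      exact (h1.clm_apply continuousAt_const).abs
    refine hc.eventually_lt continuousAt_const ?_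
    simp [hd0 l]
  have e5 : ∀ l : Fin d, ∃ s ∈ 𝓝 (0 : Ki m d → ℝ),
      LipschitzOnWith (Real.toNNReal (1 / (4 * (d + 1)))) (Φ l) s := by
    intro l
    have h1 : HasStrictFDerivAt (Φ l) (fderiv ℝ (Φ l) 0) 0 :=
      (phi_an hEVA hφ l).hasStrictFDerivAt
    rw [hd0 l] at h1
    refine h1.exists_lipschitzOnWith_of_nnnorm_lt _ ?_
    simp only [nnnorm_zero, Real.toNNReal_pos]
    positivity
  choose s hs hLs using e5
  have e6 : ∀ᶠ x in 𝓝 (0 : Ki m d → ℝ), ∀ l, x ∈ s l := by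
    rw [eventually_all]
    exact fun l => hs l
  obtain ⟨ρ, hρ, hb⟩ := Metric.eventually_nhds_iff.1
    (e1.and (e2.and (e3.and (e4.and (e6.and hp)))))
  simp only [dist_zero_right] at hb
  refine ⟨Φ, ρ, ⟨hρ, fun x hx => (hb hx).1, fun x hx => (hb hx).2.1, fun x hx => (hb hx).2.2.1,
    fun x hx => (hb hx).2.2.2.1, ?_⟩, fun x hx => (hb hx).2.2.2.2.2⟩
  intro x x' hx hx'
  have hsq : ∀ l, (Φ l x - Φ l x') ^ 2 ≤ (1 / (4 * (d + 1 : ℝ))) ^ 2 * ∑ k, (x k - x' k) ^ 2 := by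
    intro l
    have h1 := (hLs l).dist_le_mul x ((hb hx).2.2.2.2.1 l) x' ((hb hx').2.2.2.2.1 l)
    rw [Real.coe_toNNReal _ (by positivity), Real.dist_eq, dist_eq_norm] at h1
    have h2 : ‖x - x'‖ ^ 2 ≤ ∑ k, (x k - x' k) ^ 2 := by
      have h3 : ‖x - x'‖ ≤ Real.sqrt (∑ k, (x k - x' k) ^ 2) := by
        rw [pi_norm_le_iff_of_nonneg (Real.sqrt_nonneg _)]
        intro k
        rw [Real.norm_eq_abs]
        refine Real.abs_le_sqrt ?_
        exact Finset.single_le_sum (f := fun k => (x k - x' k) ^ 2)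
          (fun i _ => sq_nonneg _) (Finset.mem_univ k)
      calc ‖x - x'‖ ^ 2 ≤ Real.sqrt (∑ k, (x k - x' k) ^ 2) ^ 2 :=
            pow_le_pow_left₀ (norm_nonneg _) h3 2
        _ = _ := Real.sq_sqrt (Finset.sum_nonneg fun i _ => sq_nonneg _)
    calc (Φ l x - Φ l x') ^ 2 = |Φ l x - Φ l x'| ^ 2 := (sq_abs _).symm
      _ ≤ (1 / (4 * (d + 1 : ℝ)) * ‖x - x'‖) ^ 2 := pow_le_pow_left₀ (abs_nonneg _) h1 2
      _ = (1 / (4 * (d + 1 : ℝ))) ^ 2 * ‖x - x'‖ ^ 2 := by ring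
      _ ≤ _ := mul_le_mul_of_nonneg_left h2 (by positivity)
  refine (Finset.sum_le_sum fun l _ => hsq l).trans ?_
  rw [Finset.sum_const, Finset.card_univ, Fintype.card_fin, nsmul_eq_mul, ← mul_assoc]
  refine mul_le_mul_of_nonneg_right ?_ (Finset.sum_nonneg fun i _ => sq_nonneg _)
  have hd : (0 : ℝ) ≤ d := Nat.cast_nonneg d
  rw [div_pow, one_pow, ← mul_div_assoc, mul_one, div_le_div_iff₀ (by positivity) (by norm_num)]
  nlinarith

end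

end Pool.Agent.Lib.MP_2184e2_an.Loc.BtM
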