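import Pool.Agent.Lib.MP_2184e2_an.Loc.BtCore

/-!
# MP_2184e2_an, local theorem: the Gauss kernel and HOMI, for BTA, BTB, BT
-/

set_option autoImplicit false
set_option linter.unusedSectionVars false
set_option linter.deprecated false

namespace Pool.Agent.Lib.MP_2184e2_an.Loc.BtM

open Filter Topology Set
open scoped ContDiff ComplexConjugate Nat

noncomputable section

variable {ι : Type} [Fintype ι] [DecidableEq ι]

lemma kr_symm (τ : ℝ) (a b : ι → ℂ) : kr τ (fun i => a i - b i) = kr τ (fun i => b i - a i) := by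
  unfold kr
  congr 3
  refine Finset.sum_congr rfl fun i _ => ?_
  ring

lemma kr_fder {E : Type} [NormedAddCommGroup E] [NormedSpace ℝ E] (τ : ℝ) (w : E → ι → ℂ)
    (w' : ι → E →L[ℝ] ℂ) (x : E) (h : ∀ i, HasFDerivAt (fun x => w x i) (w' i) x) :
    HasFDerivAt (fun x => kr τ (w x))
      ((kr τ (w x) * -(τ : ℂ)) • ∑ i, (2 * w x i) • w' i) x := by
  have h1 : HasFDerivAt (fun x => ∑ i, w x i ^ 2) (∑ i, (2 * w x i) • w' i) x := by
    refine HasFDerivAt.fun_sum fun i _ => ?_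
    have := (h i).pow 2
    simpa using this
  have h2 := (h1.const_mul (-(τ : ℂ))).cexp.const_mul
    ((((τ / Real.pi) ^ ((Fintype.card ι : ℝ) / 2) : ℝ) : ℂ))
  unfold kr
  refine h2.congr_fderiv ?_
  ext v
  simp only [ContinuousLinearMap.smul_apply, ContinuousLinearMap.sum_apply, smul_eq_mul]
  ring

lemma jb (W : ℝ → (ι → ℝ) → ι → ℂ) (t : ℝ) (u : ι → ℝ) (i : ι) :
    ∑ k, jW W t u i k * bW W t u k = (jW W t u).det * deriv (fun r => W r u i) t := by
  have h : (jW W t u).mulVec (bW W t u) = (jW W t u).det • fun i => deriv (fun r => W r u i) t := by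
    unfold bW
    rw [Matrix.mulVec_mulVec, Matrix.mul_adjugate, Matrix.smul_mulVec, Matrix.one_mulVec]
  have := congrFun h i
  simpa [Matrix.mulVec, dotProduct] using this

lemma kr_pde (τ : ℝ) (W : ℝ → (ι → ℝ) → ι → ℂ) (t : ℝ) (u : ι → ℝ)
    (h1 : ∀ i, DifferentiableAt ℝ (fun r => W r u i) t)
    (h2 : ∀ i, DifferentiableAt ℝ (fun v => W t v i) u) :
    (jW W t u).det * deriv (fun r => kr τ (W r u)) t =
      ∑ k, bW W t u k * fderiv ℝ (fun v => kr τ (W t v)) u (Pi.single k 1) := by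
  have e1 := (kr_fder τ (fun r => W r u) _ t fun i => (h1 i).hasFDerivAt).hasDerivAt.deriv
  have e2 := (kr_fder τ (fun v => W t v) _ u fun i => (h2 i).hasFDerivAt).fderiv
  rw [e1, e2]
  simp only [ContinuousLinearMap.smul_apply, ContinuousLinearMap.sum_apply, smul_eq_mul,
    fderiv_eq_smul_deriv, one_smul]
  have h3 : ∀ k i, fderiv ℝ (fun v => W t v i) u (Pi.single k 1) = jW W t u i k := fun k i => rfl
  simp only [h3]
  calc (jW W t u).det * (kr τ (W t u) * -(τ : ℂ) * ∑ i, 2 * W t u i * deriv (fun r => W r u i) t)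
      = kr τ (W t u) * -(τ : ℂ) * ∑ i, 2 * W t u i *
          ((jW W t u).det * deriv (fun r => W r u i) t) := by
        rw [Finset.mul_sum, Finset.mul_sum, Finset.mul_sum]
        refine Finset.sum_congr rfl fun i _ => ?_
        ring
    _ = kr τ (W t u) * -(τ : ℂ) * ∑ i, 2 * W t u i * ∑ k, jW W t u i k * bW W t u k := by
        congr 1
        refine Finset.sum_congr rfl fun i _ => ?_
        rw [jb]
    _ = ∑ k, bW W t u k * (kr τ (W t u) * -(τ : ℂ) * ∑ i, 2 * W t u i * jW W t u i k) := by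
        simp only [Finset.mul_sum]
        rw [Finset.sum_comm]
        refine Finset.sum_congr rfl fun k _ => Finset.sum_congr rfl fun i _ => ?_
        ring

lemma f_pde (τ : ℝ) (W : ℝ → (ι → ℝ) → ι → ℂ) (G : ℝ → (ι → ℝ) → ℂ) (t : ℝ) (u : ι → ℝ)
    (h1 : ∀ i, DifferentiableAt ℝ (fun r => W r u i) t)
    (h2 : ∀ i, DifferentiableAt ℝ (fun v => W t v i) u)
    (g1 : DifferentiableAt ℝ (fun r => G r u) t) (g2 : DifferentiableAt ℝ (G t) u)
    (hG : (jW W t u).det * deriv (fun r => G r u) t =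
      ∑ k, bW W t u k * fderiv ℝ (G t) u (Pi.single k 1)) :
    (jW W t u).det * deriv (fun r => G r u * kr τ (W r u)) t =
      ∑ k, bW W t u k * fderiv ℝ (fun v => G t v * kr τ (W t v)) u (Pi.single k 1) := by
  have k1 := (kr_fder τ (fun r => W r u) _ t fun i => (h1 i).hasFDerivAt).differentiableAt
  have k2 := (kr_fder τ (fun v => W t v) _ u fun i => (h2 i).hasFDerivAt).differentiableAt
  have e1 : deriv (fun r => G r u * kr τ (W r u)) t =
      deriv (fun r => G r u) t * kr τ (W t u) + G t u * deriv (fun r => kr τ (W r u)) t :=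
    deriv_fun_mul g1 k1
  have e2 : fderiv ℝ (fun v => G t v * kr τ (W t v)) u =
      G t u • fderiv ℝ (fun v => kr τ (W t v)) u + kr τ (W t u) • fderiv ℝ (G t) u :=
    fderiv_fun_mul g2 k2
  rw [e1, e2]
  have hk := kr_pde τ W t u h1 h2
  calc (jW W t u).det * (deriv (fun r => G r u) t * kr τ (W t u) +
        G t u * deriv (fun r => kr τ (W r u)) t)
      = kr τ (W t u) * ((jW W t u).det * deriv (fun r => G r u) t) +
        G t u * ((jW W t u).det * deriv (fun r => kr τ (W r u)) t) := by ring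
    _ = _ := by
        rw [hG, hk, Finset.mul_sum, Finset.mul_sum, ← Finset.sum_add_distrib]
        refine Finset.sum_congr rfl fun k _ => ?_
        simp only [ContinuousLinearMap.add_apply, ContinuousLinearMap.smul_apply, smul_eq_mul]
        ring

/-! ### bounds -/

/-- the constant bounding minors -/
def cn (ι : Type) [Fintype ι] : ℝ := (Fintype.card ι)! * 2 ^ Fintype.card ι

lemma cn_nonneg : 0 ≤ cn ι := by unfold cn; positivity

lemma det_bd (J : Matrix ι ι ℂ) (h : ∀ i k, ‖J i k‖ ≤ 2) : ‖J.det‖ ≤ cn ι := by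
  have := Matrix.det_le (A := J) (abv := IsAbsoluteValue.toAbsoluteValue (norm : ℂ → ℝ))
    (x := 2) h
  simpa [cn, nsmul_eq_mul] using this

lemma adj_bd (J : Matrix ι ι ℂ) (h : ∀ i k, ‖J i k‖ ≤ 2) (i k : ι) :
    ‖J.adjugate i k‖ ≤ cn ι := by
  rw [Matrix.adjugate_apply]
  refine det_bd _ ?_
  intro a b
  rw [Matrix.updateRow_apply]
  split_ifs
  · rw [Pi.single_apply]; split_ifs <;> simp
  · exact h a b

/-- identity plus `i` times a small real matrix -/
def Near (J : Matrix ι ι ℂ) : Prop :=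
  ∃ A : Matrix ι ι ℝ, (∀ i k, J i k = (if i = k then 1 else 0) + Complex.I * A i k) ∧
    ∀ i, ∑ k, |A i k| < 1 / 2

lemma Near.bd {J : Matrix ι ι ℂ} (h : Near J) (i k : ι) : ‖J i k‖ ≤ 2 := by
  obtain ⟨A, hA, hs⟩ := h
  rw [hA]
  have h1 : |A i k| < 1 / 2 :=
    (Finset.single_le_sum (f := fun k => |A i k|) (fun _ _ => abs_nonneg _)
      (Finset.mem_univ k)).trans_lt (hs i)
  have h2 : ‖Complex.I * (A i k : ℂ)‖ = |A i k| := by simp
  refine (norm_add_le _ _).trans ?_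
  rw [h2]
  split_ifs <;> simp <;> linarith

lemma Near.det_ne {J : Matrix ι ι ℂ} (h : Near J) : J.det ≠ 0 := by
  obtain ⟨A, hA, hs⟩ := h
  refine det_ne_zero_of_sum_row_lt_diag fun k => ?_
  have h1 : ∑ j ∈ Finset.univ.erase k, ‖J k j‖ ≤ ∑ j, |A k j| := by
    refine (Finset.sum_le_sum (g := fun j => |A k j|) fun j hj => ?_).trans
      (Finset.sum_le_sum_of_subset_of_nonneg (Finset.erase_subset _ _)
        fun _ _ _ => abs_nonneg _)
    rw [hA, if_neg (Finset.ne_of_mem_erase hj).symm]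
    simp
  have h2 : 1 ≤ ‖J k k‖ := by
    refine le_trans ?_ (Complex.abs_re_le_norm _)
    rw [hA]
    simp
  linarith [hs k]

lemma b_bd (W : ℝ → (ι → ℝ) → ι → ℂ) (t : ℝ) (u : ι → ℝ) (h : Near (jW W t u)) (M : ℝ)
    (hM : ∀ i, ‖deriv (fun r => W r u i) t‖ ≤ M) (k : ι) :
    ‖bW W t u k‖ ≤ Fintype.card ι * (cn ι * M) := by
  unfold bW Matrix.mulVec dotProduct
  refine (norm_sum_le _ _).trans ?_
  refine (Finset.sum_le_card_nsmul Finset.univ _ (cn ι * M) fun i _ => ?_).trans ?_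
  · rw [norm_mul]
    exact mul_le_mul (adj_bd _ h.bd _ _) (hM i) (norm_nonneg _) cn_nonneg
  · rw [nsmul_eq_mul, Finset.card_univ]

lemma kr_norm (τ : ℝ) (hτ : 0 ≤ τ) (w : ι → ℂ) :
    ‖kr τ w‖ = (τ / Real.pi) ^ ((Fintype.card ι : ℝ) / 2) *
      Real.exp (-(τ * (∑ i, w i ^ 2).re)) := by
  unfold kr
  rw [norm_mul, Complex.norm_exp, Complex.norm_real, Real.norm_eq_abs,
    abs_of_nonneg (Real.rpow_nonneg (div_nonneg hτ Real.pi_pos.le) _)]
  congr 2
  rw [← Complex.ofReal_neg, Complex.re_ofReal_mul]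
  ring

lemma kr_bd (τ : ℝ) (hτ : 0 ≤ τ) (w : ι → ℂ) (c : ℝ) (hc : c ≤ (∑ i, w i ^ 2).re) :
    ‖kr τ w‖ ≤ (τ / Real.pi) ^ ((Fintype.card ι : ℝ) / 2) * Real.exp (-(τ * c)) := by
  rw [kr_norm τ hτ]
  refine mul_le_mul_of_nonneg_left ?_ (Real.rpow_nonneg (div_nonneg hτ Real.pi_pos.le) _)
  exact Real.exp_le_exp.2 (neg_le_neg (mul_le_mul_of_nonneg_left hc hτ))

/-- the error bound -/
def Kb (ι : Type) [Fintype ι] (Cχ M Cg c τ : ℝ) : ℝ :=
  Fintype.card ι * (Cχ * (Fintype.card ι * (cn ι * M) *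
    (Cg * ((τ / Real.pi) ^ ((Fintype.card ι : ℝ) / 2) * Real.exp (-(τ * c))))))

lemma Kb_nonneg {Cχ M Cg c τ : ℝ} (h1 : 0 ≤ Cχ) (h2 : 0 ≤ M) (h3 : 0 ≤ Cg) (hτ : 0 ≤ τ) :
    0 ≤ Kb ι Cχ M Cg c τ := by
  unfold Kb
  have := cn_nonneg (ι := ι)
  have h4 : 0 ≤ (τ / Real.pi) ^ ((Fintype.card ι : ℝ) / 2) :=
    Real.rpow_nonneg (div_nonneg hτ Real.pi_pos.le) _
  positivity

lemma tend_gauss (s c : ℝ) (hc : 0 < c) :
    Tendsto (fun τ : ℝ => (τ / Real.pi) ^ s * Real.exp (-(τ * c))) atTop (𝓝 0) := by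
  have h1 := tendsto_rpow_mul_exp_neg_mul_atTop_nhds_zero s (Real.pi * c)
    (mul_pos Real.pi_pos hc)
  have h2 : Tendsto (fun τ : ℝ => τ / Real.pi) atTop atTop :=
    tendsto_id.atTop_div_const Real.pi_pos
  refine (h1.comp h2).congr fun τ => ?_
  simp only [Function.comp]
  congr 2
  field_simp

lemma tend_Kb (Cχ M Cg c : ℝ) (hc : 0 < c) (V : ℝ) :
    Tendsto (fun τ => Kb ι Cχ M Cg c τ * V) atTop (𝓝 0) := by
  have h := tend_gauss ((Fintype.card ι : ℝ) / 2) c hc
  have h2 := (((((h.const_mul Cg).const_mul (Fintype.card ι * (cn ι * M))).const_mul Cχ).const_mul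
    (Fintype.card ι : ℝ)).mul_const V)
  simpa [Kb] using h2

/-- the local hypotheses for the use of HOMI -/
structure Hyp (W : ℝ → (ι → ℝ) → ι → ℂ) (G : ℝ → (ι → ℝ) → ℂ) (R M Cg c t : ℝ)
    (u : ι → ℝ) : Prop where
  cW : ContDiffAt ℝ 2 (fun p : ℝ × (ι → ℝ) => W p.1 p.2) (t, u)
  cG : ContDiffAt ℝ 1 (fun p : ℝ × (ι → ℝ) => G p.1 p.2) (t, u)
  near : Near (jW W t u)
  pde : (jW W t u).det * deriv (fun r => G r u) t =
      ∑ k, bW W t u k * fderiv ℝ (G t) u (Pi.single k 1)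
  bG : ‖G t u‖ ≤ Cg
  bW : ∀ i, ‖deriv (fun r => W r u i) t‖ ≤ M
  re : R / 2 ≤ ‖u‖ → c ≤ (∑ i, W t u i ^ 2).re

lemma cdiff_kr {E : Type} [NormedAddCommGroup E] [NormedSpace ℝ E] (τ : ℝ) (w : E → ι → ℂ)
    (x : E) (n : WithTop ℕ∞) (h : ContDiffAt ℝ n w x) : ContDiffAt ℝ n (fun x => kr τ (w x)) x := by
  unfold kr
  rw [contDiffAt_pi] at h
  refine contDiffAt_const.mul (ContDiffAt.cexp (contDiffAt_const.mul ?_))
  exact ContDiffAt.sum fun i _ => (h i).pow 2

theorem hm (hH : SpecHOMI) (W : ℝ → (ι → ℝ) → ι → ℂ) (G : ℝ → (ι → ℝ) → ℂ)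
    (χ : (ι → ℝ) → ℝ) (R c Cχ M Cg τ : ℝ) (hχ : ContDiff ℝ ∞ χ)
    (hs : tsupport χ ⊆ Metric.closedBall 0 R) (h1 : ∀ u ∈ Metric.closedBall 0 (R / 2), χ u = 1)
    (hCχ : ∀ u, ‖fderiv ℝ χ u‖ ≤ Cχ) (hτ : 0 ≤ τ) (hM : 0 ≤ M) (hCg : 0 ≤ Cg)
    (hyp : ∀ t ∈ Icc (0 : ℝ) 1, ∀ u ∈ Metric.closedBall (0 : ι → ℝ) R, Hyp W G R M Cg c t u) :
    ‖(∫ u, (χ u : ℂ) * (G 1 u * kr τ (W 1 u) * (jW W 1 u).det)) -
      ∫ u, (χ u : ℂ) * (G 0 u * kr τ (W 0 u) * (jW W 0 u).det)‖ ≤
      Kb ι Cχ M Cg c τ * (MeasureTheory.volume (Metric.closedBall (0 : ι → ℝ) R)).toReal := by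
  have hcs : HasCompactSupport χ :=
    (isCompact_closedBall _ _).of_isClosed_subset (isClosed_tsupport χ) hs
  have hCχ0 : 0 ≤ Cχ := (norm_nonneg _).trans (hCχ 0)
  have hmain := hH ι W (fun t u => G t u * kr τ (W t u)) χ (Kb ι Cχ M Cg c τ) hχ hcs ?_
  · refine hmain.trans ?_
    refine mul_le_mul_of_nonneg_left ?_ (Kb_nonneg hCχ0 hM hCg hτ)
    refine ENNReal.toReal_mono ?_ (MeasureTheory.measure_mono hs)
    exact (isCompact_closedBall _ _).measure_lt_top.ne
  · intro t ht u hu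
    have H := hyp t ht u (hs hu)
    have cWi : ∀ i, ContDiffAt ℝ 2 (fun p : ℝ × (ι → ℝ) => W p.1 p.2 i) (t, u) :=
      fun i => contDiffAt_pi.1 H.cW i
    have dW1 : ∀ i, DifferentiableAt ℝ (fun r => W r u i) t := by
      intro i
      have h3 := ((cWi i).differentiableAt (by norm_num)).comp t
        (f := fun r : ℝ => (r, u)) (by fun_prop)
      exact h3
    have dW2 : ∀ i, DifferentiableAt ℝ (fun v => W t v i) u := by
      intro i
      have h3 := ((cWi i).differentiableAt (by norm_num)).comp u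
        (f := fun v : ι → ℝ => (t, v)) (by fun_prop)
      exact h3
    have dG1 : DifferentiableAt ℝ (fun r => G r u) t := by
      have h3 := (H.cG.differentiableAt (by norm_num)).comp t
        (f := fun r : ℝ => (r, u)) (by fun_prop)
      exact h3
    have dG2 : DifferentiableAt ℝ (G t) u := by
      have h3 := (H.cG.differentiableAt (by norm_num)).comp u
        (f := fun v : ι → ℝ => (t, v)) (by fun_prop)
      exact h3
    refine ⟨H.cW, ?_, H.near.det_ne, f_pde τ W G t u dW1 dW2 dG1 dG2 H.pde, ?_⟩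
    · exact H.cG.mul (cdiff_kr τ (fun p : ℝ × (ι → ℝ) => W p.1 p.2) (t, u) 1
        (H.cW.of_le (by norm_num)))
    · refine (norm_sum_le _ _).trans ?_
      refine (Finset.sum_le_card_nsmul Finset.univ _ (Cχ * (Fintype.card ι * (cn ι * M) *
        (Cg * ((τ / Real.pi) ^ ((Fintype.card ι : ℝ) / 2) * Real.exp (-(τ * c)))))) fun k _ =>
          ?_).trans ?_
      · by_cases hu2 : R / 2 ≤ ‖u‖
        · rw [norm_mul, norm_mul, norm_mul, Complex.norm_real]
          have b1 : ‖fderiv ℝ χ u (Pi.single k 1)‖ ≤ Cχ := by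
            refine (ContinuousLinearMap.le_opNorm _ _).trans ?_
            rw [Pi.norm_single, norm_one, mul_one]
            exact hCχ u
          have b2 := b_bd W t u H.near M H.bW k
          have b3 := kr_bd τ hτ (W t u) c (H.re hu2)
          have hn : 0 ≤ (Fintype.card ι : ℝ) * (cn ι * M) := by
            have := cn_nonneg (ι := ι)
            positivity
          refine mul_le_mul b1 (mul_le_mul b2 (mul_le_mul H.bG b3 (norm_nonneg _) hCg)
            (by positivity) hn) (by positivity) hCχ0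
        · have hz : fderiv ℝ χ u = 0 := by
            have h5 : χ =ᶠ[𝓝 u] fun _ => 1 := by
              filter_upwards [Metric.isOpen_ball.mem_nhds (show u ∈ Metric.ball 0 (R / 2) by
                rw [mem_ball_zero_iff]; exact not_le.1 hu2)] with v hv
              exact h1 v (Metric.ball_subset_closedBall hv)
            rw [h5.fderiv_eq]; simp
          rw [hz]
          simp only [ContinuousLinearMap.zero_apply, Complex.ofReal_zero, zero_mul, norm_zero]
          have := Kb_nonneg (ι := ι) (c := c) hCχ0 hM hCg hτ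
          have h6 : 0 ≤ (τ / Real.pi) ^ ((Fintype.card ι : ℝ) / 2) :=
            Real.rpow_nonneg (div_nonneg hτ Real.pi_pos.le) _
          have := cn_nonneg (ι := ι)
          positivity
      · rw [nsmul_eq_mul, Finset.card_univ]
        exact le_of_eq rfl

end

end Pool.Agent.Lib.MP_2184e2_an.Loc.BtM
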