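import Pool.Agent.Lib.MP_2184e2_an.Loc.BtKer

/-!
# MP_2184e2_an, local theorem: slices, for BTA, BTB, BT
-/

set_option autoImplicit false
set_option linter.unusedSectionVars false
set_option linter.deprecated false

namespace Pool.Agent.Lib.MP_2184e2_an.Loc.BtM

open Filter Topology Set
open scoped ContDiff ComplexConjugate

noncomputable section

variable {m d : ℕ}

/-- `Sl` as a continuous linear map -/
def SlL (m d : ℕ) : ((Zi m d → ℝ) × (Fin m → ℝ)) →L[ℝ] (Ki m d → ℝ) :=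
  ContinuousLinearMap.pi (Sum.elim (Sum.elim
    (fun j => (ContinuousLinearMap.proj (Sum.inl j)).comp (ContinuousLinearMap.fst ℝ _ _))
    (fun j => (ContinuousLinearMap.proj j).comp (ContinuousLinearMap.snd ℝ _ _)))
    (fun l => (ContinuousLinearMap.proj (Sum.inr l)).comp (ContinuousLinearMap.fst ℝ _ _)))

lemma SlL_apply (u : Zi m d → ℝ) (y : Fin m → ℝ) : SlL m d (u, y) = Sl u y := by
  funext k
  rcases k with (j | j) | l <;> rfl

lemma Sl_lt {ρ : ℝ} {u : Zi m d → ℝ} {y : Fin m → ℝ} (hρ : 0 < ρ) (hu : ‖u‖ < ρ)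
    (hy : ‖y‖ < ρ) : ‖(Sl u y : Ki m d → ℝ)‖ < ρ := by
  rw [pi_norm_lt_iff hρ] at hu hy ⊢
  rintro ((j | j) | l)
  · exact hu _
  · exact hy _
  · exact hu _

lemma Sl_le {ρ : ℝ} {u : Zi m d → ℝ} {y : Fin m → ℝ} (hρ : 0 ≤ ρ) (hu : ‖u‖ ≤ ρ)
    (hy : ‖y‖ ≤ ρ) : ‖(Sl u y : Ki m d → ℝ)‖ ≤ ρ := by
  rw [pi_norm_le_iff_of_nonneg hρ] at hu hy ⊢
  rintro ((j | j) | l)
  · exact hu _
  · exact hy _
  · exact hu _

/-- the inclusion of the indices -/
def emb : Zi m d → Ki m d := Sum.elim (fun j => Sum.inl (Sum.inl j)) Sum.inr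

lemma Sl_single (k : Zi m d) : (Sl (Pi.single k 1) 0 : Ki m d → ℝ) = Pi.single (emb k) 1 := by
  funext i
  rcases i with (j | j) | l <;> rcases k with k | k <;> simp [Sl, emb, Pi.single_apply]

lemma sumK (F : Ki m d → ℝ) : ∑ k, F k = ∑ k, F (emb k) + ∑ j : Fin m, F (Sum.inl (Sum.inr j)) := by
  simp only [Fintype.sum_sum_type, emb, Sum.elim_inl, Sum.elim_inr]
  ring

lemma sumKC (F : Ki m d → ℂ) : ∑ k, F k = ∑ k, F (emb k) + ∑ j : Fin m, F (Sum.inl (Sum.inr j)) := by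
  simp only [Fintype.sum_sum_type, emb, Sum.elim_inl, Sum.elim_inr]
  ring

lemma compU {h : (Ki m d → ℝ) → ℂ} {u : Zi m d → ℝ} {w : Fin m → ℝ}
    (hd : DifferentiableAt ℝ h (Sl u w)) (a : Zi m d → ℝ) :
    fderiv ℝ (fun v => h (Sl v w)) u a = fderiv ℝ h (Sl u w) (Sl a 0) := by
  have h1 : HasFDerivAt (fun v : Zi m d → ℝ => SlL m d (v, w))
      ((SlL m d).comp (ContinuousLinearMap.inl ℝ _ _)) u := by
    have h2 : HasFDerivAt (fun v : Zi m d → ℝ => (v, w)) (ContinuousLinearMap.inl ℝ _ _) u :=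
      hasFDerivAt_prodMk_left u w
    exact (SlL m d).hasFDerivAt.comp u h2
  have h3 : HasFDerivAt h (fderiv ℝ h (Sl u w)) (SlL m d (u, w)) := by
    rw [SlL_apply]; exact hd.hasFDerivAt
  have h4 := h3.comp u h1
  have h5 : (fun v => h (Sl v w)) = h ∘ fun v => SlL m d (v, w) := by
    funext v; simp [SlL_apply]
  rw [h5, h4.fderiv]
  simp [SlL_apply]

lemma compT {h : (Ki m d → ℝ) → ℂ} {u : Zi m d → ℝ} {y : Fin m → ℝ} {t : ℝ}
    (hd : DifferentiableAt ℝ h (Sl u (t • y))) :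
    deriv (fun r : ℝ => h (Sl u (r • y))) t = fderiv ℝ h (Sl u (t • y)) (Sl 0 y) := by
  have h1 : HasDerivAt (fun r : ℝ => SlL m d (u, r • y)) (Sl 0 y) t := by
    have h2 : HasDerivAt (fun r : ℝ => (u, r • y)) ((0 : Zi m d → ℝ), y) t := by
      have h3 : HasDerivAt (fun r : ℝ => r • y) y t := by
        simpa using (hasDerivAt_id t).smul_const y
      exact (hasDerivAt_const t u).prodMk h3
    have := (SlL m d).hasFDerivAt.comp_hasDerivAt t h2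
    rw [SlL_apply] at this
    exact this
  have h3 : HasFDerivAt h (fderiv ℝ h (Sl u (t • y))) (SlL m d (u, t • y)) := by
    rw [SlL_apply]; exact hd.hasFDerivAt
  have h4 := h3.comp_hasDerivAt t h1
  have h5 : (fun r : ℝ => h (Sl u (r • y))) = h ∘ fun r => SlL m d (u, r • y) := by
    funext v; simp [SlL_apply]
  rw [h5, h4.deriv]

lemma expand {h : (Ki m d → ℝ) → ℂ} (x v : Ki m d → ℝ) :
    fderiv ℝ h x v = ∑ k, (v k : ℂ) * pd h k x := by
  have hv : v = ∑ k, v k • (Pi.single k (1 : ℝ) : Ki m d → ℝ) := by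
    funext j
    simp [Finset.sum_apply, Pi.single_apply]
  conv_lhs => rw [hv]
  rw [map_sum]
  refine Finset.sum_congr rfl fun k _ => ?_
  rw [map_smul]
  simp [pd]

lemma expandR {h : (Ki m d → ℝ) → ℝ} (x v : Ki m d → ℝ) :
    fderiv ℝ h x v = ∑ k, v k * fderiv ℝ h x (Pi.single k 1) := by
  have hv : v = ∑ k, v k • (Pi.single k (1 : ℝ) : Ki m d → ℝ) := by
    funext j
    simp [Finset.sum_apply, Pi.single_apply]
  conv_lhs => rw [hv]
  rw [map_sum]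
  refine Finset.sum_congr rfl fun k _ => ?_
  rw [map_smul]
  simp

namespace Mod

variable {Z : (Ki m d → ℝ) → Zi m d → ℂ} {Φ : Fin d → (Ki m d → ℝ) → ℝ} {ρ : ℝ}

lemma ev_z1 (h : Mod Z Φ ρ) {x : Ki m d → ℝ} (hx : ‖x‖ < ρ) (j : Fin m) :
    (fun x => Z x (Sum.inl j)) =ᶠ[𝓝 x]
      fun x => (x (Sum.inl (Sum.inl j)) : ℂ) + Complex.I * x (Sum.inl (Sum.inr j)) := by
  filter_upwards [Metric.isOpen_ball.mem_nhds (show x ∈ Metric.ball 0 ρ by simpa using hx)]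
    with v hv
  exact h.z1 v (by simpa using hv) j

lemma ev_z2 (h : Mod Z Φ ρ) {x : Ki m d → ℝ} (hx : ‖x‖ < ρ) (l : Fin d) :
    (fun x => Z x (Sum.inr l)) =ᶠ[𝓝 x]
      fun x => (x (Sum.inr l) : ℂ) + Complex.I * Φ l x := by
  filter_upwards [Metric.isOpen_ball.mem_nhds (show x ∈ Metric.ball 0 ρ by simpa using hx)]
    with v hv
  exact h.z2 v (by simpa using hv) l

lemma cproj (k : Ki m d) (x : Ki m d → ℝ) : HasFDerivAt (fun x : Ki m d → ℝ => (x k : ℂ))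
    (Complex.ofRealCLM.comp (ContinuousLinearMap.proj k)) x :=
  (Complex.ofRealCLM.comp (ContinuousLinearMap.proj (R := ℝ) (φ := fun _ : Ki m d => ℝ)
    k)).hasFDerivAt

lemma der1 (h : Mod Z Φ ρ) {x : Ki m d → ℝ} (hx : ‖x‖ < ρ) (j : Fin m) (v : Ki m d → ℝ) :
    fderiv ℝ (fun x => Z x (Sum.inl j)) x v =
      v (Sum.inl (Sum.inl j)) + Complex.I * v (Sum.inl (Sum.inr j)) := by
  rw [(h.ev_z1 hx j).fderiv_eq]
  have h1 := (cproj (Sum.inl (Sum.inl j)) x).add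
    ((cproj (Sum.inl (Sum.inr j)) x).const_mul Complex.I)
  have h2 := h1.fderiv
  simp only [Pi.add_def] at h2
  rw [h2]
  simp

lemma der2 (h : Mod Z Φ ρ) {x : Ki m d → ℝ} (hx : ‖x‖ < ρ) (l : Fin d) (v : Ki m d → ℝ) :
    fderiv ℝ (fun x => Z x (Sum.inr l)) x v = v (Sum.inr l) + Complex.I * fderiv ℝ (Φ l) x v := by
  rw [(h.ev_z2 hx l).fderiv_eq]
  have h0 : HasFDerivAt (fun x => (Φ l x : ℂ)) (Complex.ofRealCLM.comp (fderiv ℝ (Φ l) x)) x :=
    Complex.ofRealCLM.hasFDerivAt.comp x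
      ((h.sm x hx l).differentiableAt (by simp)).hasFDerivAt
  have h1 := (cproj (Sum.inr l) x).add (h0.const_mul Complex.I)
  have h2 := h1.fderiv
  simp only [Pi.add_def] at h2
  rw [h2]
  simp

lemma smZ (h : Mod Z Φ ρ) {x : Ki m d → ℝ} (hx : ‖x‖ < ρ) (i : Zi m d) :
    ContDiffAt ℝ ∞ (fun x => Z x i) x := by
  have hc : ∀ k : Ki m d, ContDiffAt ℝ ∞ (fun x : Ki m d → ℝ => (x k : ℂ)) x := fun k =>
    (Complex.ofRealCLM.comp (ContinuousLinearMap.proj (R := ℝ) (φ := fun _ : Ki m d => ℝ)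
      k)).contDiff.contDiffAt
  rcases i with j | l
  · refine ContDiffAt.congr_of_eventuallyEq ?_ (h.ev_z1 hx j)
    exact (hc _).add (contDiffAt_const.mul (hc _))
  · refine ContDiffAt.congr_of_eventuallyEq ?_ (h.ev_z2 hx l)
    refine (hc _).add (contDiffAt_const.mul ?_)
    exact Complex.ofRealCLM.contDiff.contDiffAt.comp x (h.sm x hx l)

lemma diffZ (h : Mod Z Φ ρ) {x : Ki m d → ℝ} (hx : ‖x‖ < ρ) (i : Zi m d) :
    DifferentiableAt ℝ (fun x => Z x i) x := (h.smZ hx i).differentiableAt (by simp)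

lemma jac (h : Mod Z Φ ρ) {u : Zi m d → ℝ} {w : Fin m → ℝ} (hx : ‖(Sl u w : Ki m d → ℝ)‖ < ρ)
    (i k : Zi m d) :
    fderiv ℝ (fun v => Z (Sl v w) i) u (Pi.single k 1) = (if i = k then 1 else 0) +
      Complex.I * (Sum.elim (fun _ => 0) (fun l => fderiv ℝ (Φ l) (Sl u w) (Pi.single (emb k) 1)) i : ℝ) := by
  rw [compU (h := fun x => Z x i) (h.diffZ hx i), Sl_single]
  rcases i with j | l
  · rw [h.der1 hx]
    rcases k with k | k
    · by_cases hjk : j = k <;> simp [emb, Pi.single_apply, hjk]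
    · simp [emb]
  · rw [h.der2 hx]
    rcases k with k | k
    · simp [emb]
    · by_cases hjk : l = k <;> simp [emb, Pi.single_apply, hjk]

lemma small_emb (h : Mod Z Φ ρ) {x : Ki m d → ℝ} (hx : ‖x‖ < ρ) (l : Fin d) :
    ∑ k : Zi m d, |fderiv ℝ (Φ l) x (Pi.single (emb k) 1)| < 1 / 2 := by
  have h1 := h.small x hx l
  rw [sumK] at h1
  have h2 : 0 ≤ ∑ j : Fin m, |fderiv ℝ (Φ l) x (Pi.single (Sum.inl (Sum.inr j)) 1)| :=
    Finset.sum_nonneg fun _ _ => abs_nonneg _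
  linarith

lemma near (h : Mod Z Φ ρ) {u : Zi m d → ℝ} {w : Fin m → ℝ} (hx : ‖(Sl u w : Ki m d → ℝ)‖ < ρ) :
    Near (Matrix.of fun i k => fderiv ℝ (fun v => Z (Sl v w) i) u (Pi.single k 1)) := by
  refine ⟨Matrix.of fun i k => Sum.elim (fun _ => 0)
    (fun l => fderiv ℝ (Φ l) (Sl u w) (Pi.single (emb k) 1)) i, ?_, ?_⟩
  · intro i k
    rw [Matrix.of_apply, h.jac hx]
    rfl
  · intro i
    rcases i with j | l
    · simp
    · simpa using h.small_emb hx l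

/-- the bound of the derivative of `Φ` -/
lemma dPhi (h : Mod Z Φ ρ) {x : Ki m d → ℝ} (hx : ‖x‖ < ρ) (l : Fin d) (v : Ki m d → ℝ) :
    |fderiv ℝ (Φ l) x v| ≤ ‖v‖ := by
  rw [expandR]
  refine (Finset.abs_sum_le_sum_abs _ _).trans ?_
  have h1 : ∀ k, |v k * fderiv ℝ (Φ l) x (Pi.single k 1)| ≤
      ‖v‖ * |fderiv ℝ (Φ l) x (Pi.single k 1)| := by
    intro k
    rw [abs_mul]
    exact mul_le_mul_of_nonneg_right (norm_le_pi_norm v k) (abs_nonneg _)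
  refine (Finset.sum_le_sum fun k _ => h1 k).trans ?_
  rw [← Finset.mul_sum]
  have := h.small x hx l
  nlinarith [norm_nonneg v]

end Mod

lemma sq_diff (u u' : Zi m d → ℝ) (y y' : Fin m → ℝ) :
    ∑ k : Ki m d, (Sl u y k - Sl u' y' k) ^ 2 =
      ∑ k, (u k - u' k) ^ 2 + ∑ j, (y j - y' j) ^ 2 := by
  rw [sumK]
  congr 1
  refine Finset.sum_congr rfl fun k _ => ?_
  rcases k with k | k <;> rfl

lemma norm_sq_le (u : Zi m d → ℝ) : ‖u‖ ^ 2 ≤ ∑ k, u k ^ 2 := by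
  have h3 : ‖u‖ ≤ Real.sqrt (∑ k, u k ^ 2) := by
    rw [pi_norm_le_iff_of_nonneg (Real.sqrt_nonneg _)]
    intro k
    rw [Real.norm_eq_abs]
    refine Real.abs_le_sqrt ?_
    exact Finset.single_le_sum (f := fun k => (u k) ^ 2)
      (fun i _ => sq_nonneg _) (Finset.mem_univ k)
  calc ‖u‖ ^ 2 ≤ Real.sqrt (∑ k, u k ^ 2) ^ 2 := pow_le_pow_left₀ (norm_nonneg _) h3 2
    _ = _ := Real.sq_sqrt (Finset.sum_nonneg fun i _ => sq_nonneg _)

/-- points of the support of `∇χ` are far from `u` -/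
lemma far {R : ℝ} (hR : 0 < R) {u u' : Zi m d → ℝ} (hu : ‖u‖ ≤ R / (8 * (m + d + 1)))
    (hu' : R / 2 ≤ ‖u'‖) : 9 / 64 * R ^ 2 ≤ ∑ k, (u' k - u k) ^ 2 := by
  have h1 : R / (8 * (m + d + 1)) ≤ R / 8 := by
    refine div_le_div_of_nonneg_left hR.le (by norm_num) ?_
    have : (0 : ℝ) ≤ m + d := by positivity
    linarith
  have h2 : 3 / 8 * R ≤ ‖u' - u‖ := by
    have := norm_sub_norm_le u' u
    linarith
  refine le_trans ?_ (norm_sq_le (u' - u))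
  calc 9 / 64 * R ^ 2 = (3 / 8 * R) ^ 2 := by ring
    _ ≤ _ := pow_le_pow_left₀ (by positivity) h2 2

lemma ysmall {R : ℝ} (hR : 0 < R) {y : Fin m → ℝ} (hy : ‖y‖ ≤ R / (8 * (m + d + 1))) :
    ∑ j, y j ^ 2 ≤ R ^ 2 / 64 := by
  have h1 : ∀ j, y j ^ 2 ≤ (R / (8 * (m + d + 1))) ^ 2 := by
    intro j
    rw [← sq_abs]
    exact pow_le_pow_left₀ (abs_nonneg _) ((norm_le_pi_norm y j).trans hy) 2
  refine (Finset.sum_le_sum fun j _ => h1 j).trans ?_
  rw [Finset.sum_const, Finset.card_univ, Fintype.card_fin, nsmul_eq_mul, div_pow, mul_pow,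
    ← mul_div_assoc, div_le_div_iff₀ (by positivity) (by norm_num)]
  have hm : (0 : ℝ) ≤ m := Nat.cast_nonneg m
  have hd : (0 : ℝ) ≤ d := Nat.cast_nonneg d
  have h2 : (m : ℝ) ≤ (m + d + 1) ^ 2 := by nlinarith
  have h3 : 0 ≤ R ^ 2 := sq_nonneg R
  nlinarith

end

end Pool.Agent.Lib.MP_2184e2_an.Loc.BtM
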