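import Pool.Agent.Lib.MP_2184e2_an.Loc.SpecF

/-!
# MP_2184e2_an, local theorem: substitution calculus (shared lemmas of SHM EXTR FMIN ANN IBR POS)
-/

set_option autoImplicit false

namespace Pool.Agent.Lib.MP_2184e2_an.Loc.CalM

open MvPowerSeries Filter Topology

noncomputable section

variable {ι κ τ υ : Type}

/-- substitutability -/
theorem hs [Finite ι] {a : ι → PS τ} (ha : ∀ i, Z0 (a i)) : HasSubst a :=
  hasSubst_of_constantCoeff_zero ha

theorem z0_X (i : ι) : Z0 (X i : PS ι) := by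
  unfold Z0
  simp

theorem z0_zero : Z0 (0 : PS ι) := by
  unfold Z0
  simp

theorem z0_add {f g : PS ι} (hf : Z0 f) (hg : Z0 g) : Z0 (f + g) := by
  unfold Z0 at *
  simp [hf, hg]

theorem z0_sub {f g : PS ι} (hf : Z0 f) (hg : Z0 g) : Z0 (f - g) := by
  unfold Z0 at *
  simp [hf, hg]

theorem z0_mul {f g : PS ι} (hf : Z0 f) : Z0 (f * g) := by
  unfold Z0 at *
  simp [hf]

theorem z0_subst [Finite ι] {f : PS ι} {a : ι → PS τ} (hf : Z0 f) (ha : ∀ i, Z0 (a i)) :
    Z0 (f.subst a) :=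
  constantCoeff_subst_eq_zero (hs ha) ha hf

theorem z0_cj {f : PS ι} (hf : Z0 f) : Z0 (cj f) := by
  unfold Z0 cj at *
  simp [hf]

theorem z0_elim {a : ι → PS τ} {b : κ → PS τ} (ha : ∀ i, Z0 (a i)) (hb : ∀ i, Z0 (b i)) :
    ∀ i, Z0 (Sum.elim a b i) := by
  rintro (i | i)
  · exact ha i
  · exact hb i

/-- constant term of a substitution -/
theorem cc_subst [Finite ι] (f : PS ι) {a : ι → PS τ} (ha : ∀ i, Z0 (a i)) :
    constantCoeff (f.subst a) = constantCoeff f := by
  have h1 : f = C (constantCoeff f) + (f - C (constantCoeff f)) := by ring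
  have h2 : Z0 (f - C (constantCoeff f)) := by
    unfold Z0
    simp
  have h3 := z0_subst h2 ha
  unfold Z0 at h3
  conv_lhs => rw [h1]
  rw [subst_add (hs ha), map_add, h3, subst_C]
  simp

theorem ss [Finite ι] [Finite τ] {a : ι → PS τ} {b : τ → PS υ} (ha : ∀ i, Z0 (a i))
    (hb : ∀ i, Z0 (b i)) (f : PS ι) :
    (f.subst a).subst b = f.subst (fun i => (a i).subst b) :=
  subst_comp_subst_apply (hs ha) (hs hb) f

theorem s_X [Finite ι] {a : ι → PS τ} (ha : ∀ i, Z0 (a i)) (i : ι) :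
    (X i : PS ι).subst a = a i := subst_X (hs ha) i

theorem s_zero [Finite ι] {a : ι → PS τ} (ha : ∀ i, Z0 (a i)) :
    (0 : PS ι).subst a = 0 := by
  rw [← substAlgHom_apply (hs ha), map_zero]

theorem s_one [Finite ι] {a : ι → PS τ} (ha : ∀ i, Z0 (a i)) :
    (1 : PS ι).subst a = 1 := by
  rw [← substAlgHom_apply (hs ha), map_one]

theorem s_neg [Finite ι] {a : ι → PS τ} (ha : ∀ i, Z0 (a i)) (f : PS ι) :
    (-f).subst a = -(f.subst a) := by
  simp only [← substAlgHom_apply (hs ha), map_neg]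

theorem s_sum [Finite ι] {a : ι → PS τ} (ha : ∀ i, Z0 (a i)) {α : Type} (s : Finset α)
    (f : α → PS ι) : (∑ k ∈ s, f k).subst a = ∑ k ∈ s, (f k).subst a := by
  simp only [← substAlgHom_apply (hs ha), map_sum]

theorem s_prod [Finite ι] {a : ι → PS τ} (ha : ∀ i, Z0 (a i)) {α : Type} (s : Finset α)
    (f : α → PS ι) : (∏ k ∈ s, f k).subst a = ∏ k ∈ s, (f k).subst a := by
  simp only [← substAlgHom_apply (hs ha), map_prod]

theorem s_self (f : PS ι) : f.subst (fun i => (X i : PS ι)) = f := by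
  have := subst_self (σ := ι) (R := ℂ)
  exact congrFun this f

/-! ## Conjugation -/

theorem cj_add (f g : PS ι) : cj (f + g) = cj f + cj g := map_add _ _ _
theorem cj_sub (f g : PS ι) : cj (f - g) = cj f - cj g := map_sub _ _ _
theorem cj_mul (f g : PS ι) : cj (f * g) = cj f * cj g := map_mul _ _ _
theorem cj_zero : cj (0 : PS ι) = 0 := map_zero _
theorem cj_one : cj (1 : PS ι) = 1 := map_one _
theorem cj_sum {α : Type} (s : Finset α) (f : α → PS ι) :
    cj (∑ k ∈ s, f k) = ∑ k ∈ s, cj (f k) := map_sum _ _ _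
theorem cj_prod {α : Type} (s : Finset α) (f : α → PS ι) :
    cj (∏ k ∈ s, f k) = ∏ k ∈ s, cj (f k) := map_prod _ _ _

theorem coeff_cj (n : ι →₀ ℕ) (f : PS ι) : coeff n (cj f) = (starRingEnd ℂ) (coeff n f) := by
  unfold cj
  rw [coeff_map]

theorem cj_X (i : ι) : cj (X i : PS ι) = X i := by
  unfold cj
  exact map_X _ _

theorem cj_cj (f : PS ι) : cj (cj f) = f := by
  ext n
  rw [coeff_cj, coeff_cj]
  simp

theorem cj_inj {f g : PS ι} (h : cj f = cj g) : f = g := by
  rw [← cj_cj f, h, cj_cj]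

theorem cj_eq_zero {f : PS ι} : cj f = 0 ↔ f = 0 := by
  constructor
  · intro h
    exact cj_inj (h.trans cj_zero.symm)
  · rintro rfl
    exact cj_zero

theorem cj_subst [Finite ι] (f : PS ι) {a : ι → PS τ} (ha : ∀ i, Z0 (a i)) :
    cj (f.subst a) = (cj f).subst (fun i => cj (a i)) := by
  unfold cj
  exact map_subst (hs ha) f

theorem cj_pderiv (f : PS ι) (i : ι) : cj (pderiv ℂ i f) = pderiv ℂ i (cj f) := by
  ext n
  rw [coeff_cj, coeff_pderiv, coeff_pderiv, coeff_cj]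
  simp

/-! ## Renaming of variables -/

theorem coeff_ren [Finite ι] (e : ι ↪ τ) (f : PS ι) (n : ι →₀ ℕ) :
    coeff (n.embDomain e) (f.subst (fun i => (X (e i) : PS τ))) = coeff n f := by
  have h : f.subst (fun i => (X (e i) : PS τ)) = rename e f := (rename_eq_subst e f).symm
  rw [h, coeff_embDomain_rename]

theorem coeff_ren_zero [Finite ι] (e : ι ↪ τ) (f : PS ι) (n : τ →₀ ℕ)
    (h : n ∉ Set.range (Finsupp.mapDomain e : (ι →₀ ℕ) → τ →₀ ℕ)) :
    coeff n (f.subst (fun i => (X (e i) : PS τ))) = 0 := by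
  have h' : f.subst (fun i => (X (e i) : PS τ)) = rename e f := (rename_eq_subst e f).symm
  rw [h', coeff_rename_eq_zero _ _ h]

theorem iR_coeff [Finite κ] (f : PS κ) (n : κ →₀ ℕ) :
    coeff (Finsupp.sumElim 0 n) (f.subst (iR : κ → PS (ι ⊕ κ))) = coeff n f := by
  have h := coeff_ren (Function.Embedding.inr : κ ↪ ι ⊕ κ) f n
  rw [Finsupp.embDomain_inr] at h
  exact h

theorem iR_coeff_zero [Finite κ] (f : PS κ) (m : ι →₀ ℕ) (n : κ →₀ ℕ) (hm : m ≠ 0) :
    coeff (Finsupp.sumElim m n) (f.subst (iR : κ → PS (ι ⊕ κ))) = 0 := by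
  refine coeff_ren_zero (Function.Embedding.inr : κ ↪ ι ⊕ κ) f _ ?_
  rintro ⟨d, hd⟩
  apply hm
  rw [← Finsupp.embDomain_eq_mapDomain, Finsupp.embDomain_inr] at hd
  have h2 := congrArg (fun q => Finsupp.comapDomain Sum.inl q Sum.inl_injective.injOn) hd
  simp only [Finsupp.comapDomain_inl_sumElim] at h2
  exact h2.symm

/-- every exponent is a `sumElim` -/
theorem exists_sumElim (n : ι ⊕ κ →₀ ℕ) : ∃ a b, n = Finsupp.sumElim a b :=
  ⟨_, _, (Finsupp.comapDomain_sumElim_comapDomain n).symm⟩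

theorem sumElim_inj {a a' : ι →₀ ℕ} {b b' : κ →₀ ℕ}
    (h : Finsupp.sumElim a b = Finsupp.sumElim a' b') : a = a' ∧ b = b' := by
  constructor
  · have h2 := congrArg (fun q => Finsupp.comapDomain Sum.inl q Sum.inl_injective.injOn) h
    simpa only [Finsupp.comapDomain_inl_sumElim] using h2
  · have h2 := congrArg (fun q => Finsupp.comapDomain Sum.inr q Sum.inr_injective.injOn) h
    simpa only [Finsupp.comapDomain_inr_sumElim] using h2

theorem coeff_part (a : ι →₀ ℕ) (b : κ →₀ ℕ) (f : PS (ι ⊕ κ)) :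
    coeff a (part b f) = coeff (Finsupp.sumElim a b) f := rfl

theorem coeff_xpart (a : ι →₀ ℕ) (b : κ →₀ ℕ) (f : PS (ι ⊕ κ)) :
    coeff b (xpart a f) = coeff (Finsupp.sumElim a b) f := rfl

theorem xpart_sum (a : ι →₀ ℕ) {α : Type} (s : Finset α) (f : α → PS (ι ⊕ κ)) :
    xpart a (∑ k ∈ s, f k) = ∑ k ∈ s, xpart a (f k) := by
  ext n
  rw [coeff_xpart, map_sum, map_sum]
  rfl

theorem xpart_zero (a : ι →₀ ℕ) : xpart a (0 : PS (ι ⊕ κ)) = 0 := by
  ext n
  rw [coeff_xpart]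
  simp

/-- `xpart` and multiplication with series not depending on `x` -/
theorem xpart_mul_iR [Finite κ] (a : ι →₀ ℕ) (g : PS (ι ⊕ κ)) (h : PS κ) :
    xpart a (g * h.subst (iR : κ → PS (ι ⊕ κ))) = xpart a g * h := by
  classical
  ext n
  rw [coeff_xpart, coeff_mul, coeff_mul]
  symm
  apply Finset.sum_of_injOn (fun p : (κ →₀ ℕ) × (κ →₀ ℕ) =>
    ((Finsupp.sumElim a p.1, Finsupp.sumElim 0 p.2) : (ι ⊕ κ →₀ ℕ) × (ι ⊕ κ →₀ ℕ)))
  · rintro ⟨p, q⟩ - ⟨p', q'⟩ - h
    simp only [Prod.mk.injEq] at h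
    rw [(sumElim_inj h.1).2, (sumElim_inj h.2).2]
  · rintro ⟨p, q⟩ h
    simp only [Finset.mem_coe, Finset.HasAntidiagonal.mem_antidiagonal] at h ⊢
    rw [← Finsupp.sumElim_add, add_zero, h]
  · rintro ⟨p, q⟩ h h'
    obtain ⟨p1, p2, rfl⟩ := exists_sumElim p
    obtain ⟨q1, q2, rfl⟩ := exists_sumElim q
    simp only [Finset.HasAntidiagonal.mem_antidiagonal] at h
    rw [← Finsupp.sumElim_add] at h
    obtain ⟨h1, h2⟩ := sumElim_inj h
    by_cases hq : q1 = 0
    · exfalso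
      apply h'
      refine ⟨(p2, q2), ?_, ?_⟩
      · simp only [Finset.mem_coe, Finset.HasAntidiagonal.mem_antidiagonal]
        exact h2
      · simp only
        rw [hq, add_zero] at h1
        rw [h1, hq]
    · simp only
      rw [iR_coeff_zero _ _ _ hq, mul_zero]
  · rintro ⟨p, q⟩ h
    simp only
    rw [iR_coeff, coeff_xpart]

open Classical in
theorem xpart_monomial (a d : ι →₀ ℕ) :
    xpart a (monomial (Finsupp.sumElim d 0) (1 : ℂ) : PS (ι ⊕ κ)) =
      if a = d then 1 else 0 := by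
  classical
  ext n
  rw [coeff_xpart, coeff_monomial]
  by_cases h : a = d
  · rw [if_pos h, coeff_one]
    by_cases hn : n = 0
    · rw [if_pos (by rw [h, hn]), if_pos hn]
    · rw [if_neg, if_neg hn]
      intro h2
      exact hn (sumElim_inj h2).2
  · rw [if_neg h, if_neg, coeff_zero]
    intro h2
    exact h (sumElim_inj h2).1

/-- `xpart` and substitution in the second group of variables -/
theorem xpart_subst [Finite ι] [Finite κ] [Finite υ] (f : PS (ι ⊕ κ)) {c : κ → PS υ}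
    (hc : ∀ i, Z0 (c i)) (a : ι →₀ ℕ) :
    xpart a (f.subst (Sum.elim (iL : ι → PS (ι ⊕ υ))
      (fun i => (c i).subst (iR : υ → PS (ι ⊕ υ))))) = (xpart a f).subst c := by
  classical
  have hiL : ∀ i, Z0 ((iL : ι → PS (ι ⊕ υ)) i) := fun i => z0_X _
  have hiR : ∀ i, Z0 ((iR : υ → PS (ι ⊕ υ)) i) := fun i => z0_X _
  have hE : ∀ i, Z0 ((Sum.elim (iL : ι → PS (ι ⊕ υ))
      (fun i => (c i).subst (iR : υ → PS (ι ⊕ υ)))) i) :=
    z0_elim hiL (fun i => z0_subst (hc i) hiR)
  ext n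
  rw [coeff_xpart, coeff_subst (hs hE), coeff_subst (hs hc)]
  -- the monomials
  have hmon : ∀ (d1 : ι →₀ ℕ) (d2 : κ →₀ ℕ),
      coeff (Finsupp.sumElim a n) ((Finsupp.sumElim d1 d2).prod fun s e =>
        (Sum.elim (iL : ι → PS (ι ⊕ υ)) (fun i => (c i).subst (iR : υ → PS (ι ⊕ υ)))) s ^ e) =
      if a = d1 then coeff n (d2.prod fun s e => c s ^ e) else 0 := by
    intro d1 d2
    rw [Finsupp.prod_sumElim]
    have h1 : d1.prod ((fun s e => (Sum.elim (iL : ι → PS (ι ⊕ υ))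
        (fun i => (c i).subst (iR : υ → PS (ι ⊕ υ)))) s ^ e) ∘ Sum.inl) =
        (monomial (Finsupp.sumElim d1 0) (1 : ℂ) : PS (ι ⊕ υ)) := by
      rw [Finsupp.sumElim_eq_add, Finsupp.mapDomain_zero, add_zero,
        monomial_mapDomain_apply_one]
      rfl
    have h2 : d2.prod ((fun s e => (Sum.elim (iL : ι → PS (ι ⊕ υ))
        (fun i => (c i).subst (iR : υ → PS (ι ⊕ υ)))) s ^ e) ∘ Sum.inr) =
        (d2.prod fun s e => c s ^ e).subst (iR : υ → PS (ι ⊕ υ)) := by
      unfold Finsupp.prod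
      rw [s_prod hiR]
      apply Finset.prod_congr rfl
      intro s _
      rw [subst_pow (hs hiR)]
      rfl
    rw [h1, h2, ← coeff_xpart, xpart_mul_iR, xpart_monomial]
    by_cases h : a = d1
    · rw [if_pos h, if_pos h, one_mul]
    · rw [if_neg h, if_neg h, zero_mul, coeff_zero]
  have hinj : Function.Injective (fun d2 : κ →₀ ℕ => (Finsupp.sumElim a d2 : ι ⊕ κ →₀ ℕ)) := by
    intro x y h
    exact (sumElim_inj h).2
  rw [← finsum_mem_univ, ← finsum_mem_inter_support_eq _ (Set.range fun d2 : κ →₀ ℕ =>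
    (Finsupp.sumElim a d2 : ι ⊕ κ →₀ ℕ)) Set.univ, finsum_mem_range hinj]
  · apply finsum_congr
    intro d2
    rw [hmon a d2, if_pos rfl]
    rfl
  · ext d
    simp only [Set.mem_inter_iff, Set.mem_univ, true_and, and_iff_right_iff_imp]
    intro hd
    obtain ⟨d1, d2, rfl⟩ := exists_sumElim d
    by_cases h : a = d1
    · exact ⟨d2, by rw [h]⟩
    · exfalso
      apply hd
      simp only
      rw [hmon d1 d2, if_neg h, smul_zero]

/-- setting the second group of variables to `0` -/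
theorem part_zero [Finite ι] [Finite κ] (f : PS (ι ⊕ κ)) :
    f.subst (Sum.elim (fun i => (X i : PS ι)) (fun _ => 0)) = part 0 f := by
  classical
  have hE : ∀ i, Z0 ((Sum.elim (fun i => (X i : PS ι)) (fun _ : κ => (0 : PS ι))) i) :=
    z0_elim (fun i => z0_X _) (fun i => z0_zero)
  ext n
  rw [coeff_part, coeff_subst (hs hE), finsum_eq_single _ (Finsupp.sumElim n 0)]
  · rw [Finsupp.prod_sumElim, Finsupp.prod_zero_index, mul_one]
    have h1 : n.prod ((fun s e => (Sum.elim (fun i => (X i : PS ι))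
        (fun _ : κ => (0 : PS ι))) s ^ e) ∘ Sum.inl) = (monomial n (1 : ℂ) : PS ι) := by
      rw [monomial_one_eq]
      rfl
    rw [h1, coeff_monomial_same, smul_eq_mul, mul_one]
  · intro d hd
    obtain ⟨d1, d2, rfl⟩ := exists_sumElim d
    rw [Finsupp.prod_sumElim]
    have h1 : d1.prod ((fun s e => (Sum.elim (fun i => (X i : PS ι))
        (fun _ : κ => (0 : PS ι))) s ^ e) ∘ Sum.inl) = (monomial d1 (1 : ℂ) : PS ι) := by
      rw [monomial_one_eq]
      rfl
    rw [h1]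
    by_cases h2 : d2 = 0
    · rw [h2, Finsupp.prod_zero_index, mul_one, coeff_monomial_ne, smul_zero]
      rintro rfl
      exact hd (by rw [h2])
    · obtain ⟨i, hi⟩ : ∃ i, d2 i ≠ 0 := by
        by_contra hc
        push Not at hc
        exact h2 (Finsupp.ext hc)
      have h3 : d2.prod ((fun s e => (Sum.elim (fun i => (X i : PS ι))
          (fun _ : κ => (0 : PS ι))) s ^ e) ∘ Sum.inr) = 0 := by
        unfold Finsupp.prod
        apply Finset.prod_eq_zero (Finsupp.mem_support_iff.2 hi)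
        simp only [Function.comp_apply, Sum.elim_inr]
        exact zero_pow hi
      rw [h3, mul_zero, coeff_zero, smul_zero]

end

end Pool.Agent.Lib.MP_2184e2_an.Loc.CalM
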