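import Pool.Agent.Lib.MP_2184e2_an.Levi

/-!
# The local theorem for MP_2184e2_an: definitions

Smooth CR maps between real-analytic CR manifolds with condition (L) extend holomorphically near
every point.  All proofs: docstrings of `Spec*.lean`; overview `/team-store/MP_2184e2_an_LOCAL.md`.
-/

set_option autoImplicit false

namespace Pool.Agent.Lib.MP_2184e2_an.Loc

open MvPowerSeries Filter Topology
open scoped ContDiff LaurentPolynomial

noncomputable section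

/-! ## Power series -/

/-- complex power series in the variables `ι` -/
abbrev PS (ι : Type) : Type := MvPowerSeries ι ℂ

/-- a submultiplicative size function on a commutative `ℂ`-algebra -/
structure IsNm {S : Type} [CommRing S] [Algebra ℂ S] (N : S → ℝ) : Prop where
  nonneg : ∀ a, 0 ≤ N a
  neg : ∀ a, N (-a) = N a
  add : ∀ a b, N (a + b) ≤ N a + N b
  mul : ∀ a b, N (a * b) ≤ N a * N b
  alg : ∀ c : ℂ, N (algebraMap ℂ S c) ≤ ‖c‖

/-- convergence: geometric growth of the coefficients, measured by `N` -/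
def ConvN {S : Type} [CommRing S] (N : S → ℝ) {ι : Type} (f : MvPowerSeries ι S) : Prop :=
  ∃ C : ℝ, 0 < C ∧ ∀ n : ι →₀ ℕ, N (coeff n f) ≤ C ^ (n.degree + 1)

/-- convergent complex power series -/
def Conv {ι : Type} (f : PS ι) : Prop := ConvN (fun c : ℂ => ‖c‖) f

/-- no constant term -/
def Z0 {ι : Type} {S : Type} [CommRing S] (f : MvPowerSeries ι S) : Prop := constantCoeff f = 0

/-- complex conjugation of the coefficients -/
def cj {ι : Type} (f : PS ι) : PS ι := MvPowerSeries.map (starRingEnd ℂ) f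

/-- the linear coefficients -/
def lin {ι : Type} (f : PS ι) (i : ι) : ℂ := coeff (Finsupp.single i 1) f

/-- the coefficient of `x_i y_j` (`i ≠ j`) -/
def co2 {ι : Type} (f : PS ι) (i j : ι) : ℂ :=
  coeff (Finsupp.single i 1 + Finsupp.single j 1) f

/-- the coefficient of `s ^ b` of a power series in `(x, s)` -/
def part {ι ν : Type} (b : ν →₀ ℕ) (f : PS (ι ⊕ ν)) : PS ι :=
  fun a => coeff (Finsupp.sumElim a b) f

/-- the coefficient of `x ^ a` of a power series in `(x, s)` -/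
def xpart {ι ν : Type} (a : ι →₀ ℕ) (f : PS (ι ⊕ ν)) : PS ν :=
  fun b => coeff (Finsupp.sumElim a b) f

/-- `ℂ{x}[[s]]`: all coefficients with respect to `s` are convergent in `x` -/
def SC {ι ν : Type} (f : PS (ι ⊕ ν)) : Prop := ∀ b, Conv (part b f)

/-- evaluation of a power series at a point of `ℂ^ι` -/
def ev {ι : Type} (f : PS ι) (x : ι → ℂ) : ℂ :=
  ∑' n : ι →₀ ℕ, coeff n f * n.prod (fun i k => x i ^ k)

/-! ## The complexification of a generic submanifold -/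

/-- indices of `Z = (z, w)` -/
abbrev Zi (m d : ℕ) : Type := Fin m ⊕ Fin d

/-- indices of `(z, ζ)`, `ζ = (χ, τ)` -/
abbrev Mi (m d : ℕ) : Type := Fin m ⊕ (Fin m ⊕ Fin d)

/-- the point `(a, Q(a, b))` -/
def pr {m d : ℕ} {T : Type} (Q : Fin d → PS (Mi m d)) (a : Fin m → PS T) (b : Zi m d → PS T) :
    Zi m d → PS T :=
  Sum.elim a (fun l => (Q l).subst (Sum.elim a b))

/-- `Q̄` -/
def cjQ {m d : ℕ} (Q : Fin d → PS (Mi m d)) : Fin d → PS (Mi m d) := fun l => cj (Q l)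

/-- the point `Z = (z, Q(z, ζ))` of the complexification, as a function of `(z, ζ)` -/
def Zc {m d : ℕ} (Q : Fin d → PS (Mi m d)) : Zi m d → PS (Mi m d) :=
  pr Q (fun j => X (Sum.inl j)) (fun i => X (Sum.inr i))

/-- the point `ζ`, as a function of `(z, ζ)` -/
def ζc {m d : ℕ} : Zi m d → PS (Mi m d) := fun i => X (Sum.inr i)

/-- `Q` defines a real-analytic generic submanifold `w = Q(z, z̄, w̄)` with linear part
`w = w̄` -/
structure IsSeg0 {m d : ℕ} (Q : Fin d → PS (Mi m d)) : Prop where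
  conv : ∀ l, Conv (Q l)
  zero : ∀ l, Z0 (Q l)
  lin1 : ∀ l j, lin (Q l) (Sum.inl j) = 0
  lin2 : ∀ l j, lin (Q l) (Sum.inr (Sum.inl j)) = 0
  lin3 : ∀ l k, lin (Q l) (Sum.inr (Sum.inr k)) = if l = k then 1 else 0
  /-- reality: `Q(z, χ, Q̄(χ, z, w)) = w` in `ℂ[[z, w, χ]]` -/
  real : ∀ l, (Q l).subst (Sum.elim (fun j => X (Sum.inl (Sum.inl j)))
      (pr (cjQ Q) (fun j => X (Sum.inr j)) (fun i => X (Sum.inl i)))) =
    (X (Sum.inl (Sum.inr l)) : PS (Zi m d ⊕ Fin m))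
  /-- real curves with any real tangent vector -/
  curve : ∀ a : Zi m d → ℝ, ∃ Z : Zi m d → PS Unit,
    (∀ i, Z0 (Z i) ∧ lin (Z i) () = a i) ∧
    ∀ l, (Q l).subst (Sum.elim (fun j => Z (Sum.inl j)) (fun i => cj (Z i))) = Z (Sum.inr l)

/-- the Levi form is nondegenerate in the following sense: `d` of its values (complexified) are
linearly independent -/
def LeviQ {m d : ℕ} (Q : Fin d → PS (Mi m d)) : Prop :=
  ∃ e β : Fin d → Fin m → ℂ, Matrix.det (Matrix.of fun i l : Fin d =>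
    ∑ j, ∑ k, co2 (Q l) (Sum.inl j) (Sum.inr (Sum.inl k)) * e i j * β i k) ≠ 0

/-- `ρ(w, w̄)` is real valued, convergent, and strictly plurisubharmonic at `0` -/
structure IsTgt {N : ℕ} (ρ : PS (Fin N ⊕ Fin N)) : Prop where
  conv : Conv ρ
  zero : Z0 ρ
  real : (cj ρ).subst (Sum.elim (fun j => X (Sum.inr j)) (fun j => X (Sum.inl j)) :
    Fin N ⊕ Fin N → PS (Fin N ⊕ Fin N)) = ρ
  pos : ∀ v : Fin N → ℂ, v ≠ 0 →
    0 < (∑ i, ∑ j, co2 ρ (Sum.inl i) (Sum.inr j) * v i * (starRingEnd ℂ) (v j)).re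

/-- `(H(Z), H̄(ζ))` as a function of `(z, ζ)` -/
def argH {m d N : ℕ} (Q : Fin d → PS (Mi m d)) (H : Fin N → PS (Zi m d)) :
    Fin N ⊕ Fin N → PS (Mi m d) :=
  Sum.elim (fun j => (H j).subst (Zc Q)) (fun j => (cj (H j)).subst ζc)

/-- the formal map `H` sends the complexification of `M` to `ρ = 0` -/
structure IsMap {m d N : ℕ} (Q : Fin d → PS (Mi m d)) (ρ : PS (Fin N ⊕ Fin N))
    (H : Fin N → PS (Zi m d)) : Prop where
  zero : ∀ j, Z0 (H j)
  rel : ρ.subst (argH Q H) = 0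

/-- `ρ_{w_k}(H(Z), H̄(ζ))` -/
def G1 {m d N : ℕ} (Q : Fin d → PS (Mi m d)) (ρ : PS (Fin N ⊕ Fin N))
    (H : Fin N → PS (Zi m d)) (k : Fin N) : PS (Mi m d) :=
  (pderiv ℂ (Sum.inl k) ρ).subst (argH Q H)

/-- `ρ_{w_k ω_l}(H(Z), H̄(ζ))` -/
def G2 {m d N : ℕ} (Q : Fin d → PS (Mi m d)) (ρ : PS (Fin N ⊕ Fin N))
    (H : Fin N → PS (Zi m d)) (k l : Fin N) : PS (Mi m d) :=
  (pderiv ℂ (Sum.inr l) (pderiv ℂ (Sum.inl k) ρ)).subst (argH Q H)

/-- `V` annihilates all `ρ_w(H(Z), H̄(ζ))` -/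
def InV {m d N : ℕ} (Q : Fin d → PS (Mi m d)) (ρ : PS (Fin N ⊕ Fin N))
    (H : Fin N → PS (Zi m d)) (V : Fin N → PS (Zi m d)) : Prop :=
  ∑ k, (V k).subst (Zc Q) * G1 Q ρ H k = 0

/-- a minimal set `F` of coordinates on which the elements of `{V | InV V}` are determined, and the
dual vectors -/
structure IsMin {m d N : ℕ} (Q : Fin d → PS (Mi m d)) (ρ : PS (Fin N ⊕ Fin N))
    (H : Fin N → PS (Zi m d)) (F : Finset (Fin N)) (V : Fin N → Fin N → PS (Zi m d)) : Prop where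
  inV : ∀ j ∈ F, InV Q ρ H (V j)
  ne : ∀ j ∈ F, V j j ≠ 0
  off : ∀ j ∈ F, ∀ l ∈ F, l ≠ j → V j l = 0
  det : ∀ W, InV Q ρ H W → (∀ l ∈ F, W l = 0) → W = 0

/-- `v(x) + σ` -/
def sh {ι T : Type} (v : ι → PS T) : ι → PS (T ⊕ ι) :=
  fun i => (v i).subst (fun t => (X (Sum.inl t) : PS (T ⊕ ι))) + X (Sum.inr i)

/-- `H(v(x) + σ) ∈ ℂ{x}[[σ]]` -/
def PP {m d N : ℕ} (H : Fin N → PS (Zi m d)) {T : Type} (v : Zi m d → PS T) : Prop :=
  ∀ j, SC ((H j).subst (sh v))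

/-- `V(v(x) + σ)` is proportional to a nonzero vector of `ℂ{x}[[σ]]` -/
def UU {m d N : ℕ} (V : Fin N → PS (Zi m d)) {T : Type} (v : Zi m d → PS T) : Prop :=
  ∃ U : Fin N → PS (T ⊕ Zi m d), (∀ a, SC (U a)) ∧ U ≠ 0 ∧
    ∀ a b, U a * (V b).subst (sh v) = U b * (V a).subst (sh v)

/-- the iterated Segre maps `v ^ 0 = 0`, `v ^ (k + 1) = (a_k, Q(a_k, \bar{v ^ k}))` -/
def seg {m d : ℕ} (Q : Fin d → PS (Mi m d)) {T : Type} (a : ℕ → Fin m → PS T) :
    ℕ → Zi m d → PS T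
  | 0 => fun _ => 0
  | k + 1 => pr Q (a k) (fun i => cj (seg Q a k i))

/-- the point of the complexification with `Z = v(x) + σ` and `χ = b(x) + χ'`, in the coordinates
`(z, ζ)` -/
def pt {m d : ℕ} (Q : Fin d → PS (Mi m d)) {T : Type} (v : Zi m d → PS T) (b : Fin m → PS T) :
    Mi m d → PS (T ⊕ (Zi m d ⊕ Fin m)) :=
  let L : PS T → PS (T ⊕ (Zi m d ⊕ Fin m)) := fun f => f.subst (fun t =>
    (X (Sum.inl t) : PS (T ⊕ (Zi m d ⊕ Fin m))))
  let Z : Zi m d → PS (T ⊕ (Zi m d ⊕ Fin m)) := fun i => L (v i) + X (Sum.inr (Sum.inl i))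
  Sum.elim (fun j => Z (Sum.inl j)) (pr (cjQ Q) (fun j => L (b j) + X (Sum.inr (Sum.inr j))) Z)

/-! ## Generic submanifolds as graphs -/

/-- real coordinates `(x, y, s)`, `z = x + i y` -/
abbrev Ki (m d : ℕ) : Type := (Fin m ⊕ Fin m) ⊕ Fin d

/-- the embedding `(x, y, s) ↦ (x + i y, s + i φ(x, y, s))`, as a power series -/
def Zs {m d : ℕ} (φ : Fin d → PS (Ki m d)) : Zi m d → PS (Ki m d) :=
  Sum.elim (fun j => X (Sum.inl (Sum.inl j)) + C Complex.I * X (Sum.inl (Sum.inr j)))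
    (fun l => X (Sum.inr l) + C Complex.I * φ l)

/-- the embedding as a function -/
def Zm {m d : ℕ} (φ : Fin d → PS (Ki m d)) (x : Ki m d → ℝ) : Zi m d → ℂ :=
  fun i => ev (Zs φ i) (fun k => (x k : ℂ))

/-- `φ` is real, convergent and vanishes of second order -/
structure IsPhi {m d : ℕ} (φ : Fin d → PS (Ki m d)) : Prop where
  conv : ∀ l, Conv (φ l)
  real : ∀ l, cj (φ l) = φ l
  zero : ∀ l, Z0 (φ l)
  lin : ∀ l k, lin (φ l) k = 0

/-- the ray through `a` in the `z`-direction -/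
def ray {m d : ℕ} (a : Fin m → ℂ) : Ki m d → PS Unit :=
  Sum.elim (Sum.elim (fun j => C ((a j).re : ℂ) * X ()) (fun j => C ((a j).im : ℂ) * X ()))
    (fun _ => 0)

/-- the quadratic form of `φ` in the `z`-direction -/
def qd {m d : ℕ} (φ : Fin d → PS (Ki m d)) (a : Fin m → ℂ) (l : Fin d) : ℝ :=
  (coeff (Finsupp.single () 2) ((φ l).subst (ray (d := d) a))).re

/-- the Levi form of the graph at `0` -/
def lev {m d : ℕ} (φ : Fin d → PS (Ki m d)) (a : Fin m → ℂ) (l : Fin d) : ℝ :=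
  (qd φ a l + qd φ (Complex.I • a) l) / 2

/-- the values of the Levi form span `ℝ ^ d` -/
def LSpan {m d : ℕ} (φ : Fin d → PS (Ki m d)) : Prop :=
  ∃ a : Fin d → Fin m → ℂ, Matrix.det (Matrix.of fun i l : Fin d => lev φ (a i) l) ≠ 0

/-- partial derivatives of functions of real variables -/
def pd {κ : Type} [Fintype κ] [DecidableEq κ] (g : (κ → ℝ) → ℂ) (k : κ) (x : κ → ℝ) : ℂ :=
  fderiv ℝ g x (Pi.single k 1)

/-- the CR equations at `x`: every complex tangent vector killing the coordinates kills `g` -/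
def CRat {κ ι : Type} [Fintype κ] [DecidableEq κ] (Z : (κ → ℝ) → ι → ℂ) (g : (κ → ℝ) → ℂ)
    (x : κ → ℝ) : Prop :=
  ∀ c : κ → ℂ, (∀ i, ∑ k, c k * pd (fun y => Z y i) k x = 0) → ∑ k, c k * pd g k x = 0

/-- an operator of formal Taylor expansion at `0` -/
structure IsTay {κ : Type} [Fintype κ] [DecidableEq κ] (T : ((κ → ℝ) → ℂ) → PS κ) : Prop where
  germ : ∀ g h : (κ → ℝ) → ℂ, g =ᶠ[𝓝 0] h → T g = T h
  zero : ∀ g, ContDiffAt ℝ ∞ g 0 → constantCoeff (T g) = g 0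
  der : ∀ g, ContDiffAt ℝ ∞ g 0 → ∀ k, T (pd g k) = pderiv ℂ k (T g)

/-! ## Laurent polynomials and discs -/

/-- weighted `ℓ¹`-norm with weight `64 ^ |k|` -/
def nL (p : ℂ[T;T⁻¹]) : ℝ := p.coeff.sum fun k c => ‖c‖ * (64 : ℝ) ^ k.natAbs

/-- evaluation at `ζ` -/
def evL (ζ : ℂ) (p : ℂ[T;T⁻¹]) : ℂ := p.coeff.sum fun k c => c * ζ ^ k

end

end Pool.Agent.Lib.MP_2184e2_an.Loc
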