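import Pool.Agent.Lib.MP_2184e2_an.Loc.SpecF

/-!
# MP_2184e2_an, local theorem: module END

The Segre map of order `2d + 1` detects convergence.  `taylor2` is the Taylor formula of order two
for substitutions; `A`, `B`, `C'` are the quadratic parts of `Q(z, χ, 0)`; `step2` is the recursion
of the docstring.
-/

set_option autoImplicit false

namespace Pool.Agent.Lib.MP_2184e2_an.Loc.ENDM

open MvPowerSeries Filter Topology
open scoped ContDiff LaurentPolynomial

noncomputable section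

/-! ### decomposition of a power series -/

/-- the selected variable of a monomial -/
def Sel {κ : Type} (n : κ →₀ ℕ) (i : κ) : Prop := ∃ h : n.support.Nonempty, h.choose = i

theorem sel_mem {κ : Type} {n : κ →₀ ℕ} {i : κ} (h : Sel n i) : i ∈ n.support := by
  obtain ⟨h1, h2⟩ := h
  rw [← h2]
  exact h1.choose_spec

theorem sel_uniq {κ : Type} {n : κ →₀ ℕ} {i j : κ} (hi : Sel n i) (hj : Sel n j) : i = j := by
  obtain ⟨h1, h2⟩ := hi
  obtain ⟨h3, h4⟩ := hj
  rw [← h2, ← h4]

theorem sel_exists {κ : Type} {n : κ →₀ ℕ} (hn : n ≠ 0) : ∃ i, Sel n i :=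
  ⟨_, Finsupp.support_nonempty_iff.mpr hn, rfl⟩

open Classical in
/-- division by the variables -/
def dv {κ : Type} (f : PS κ) (i : κ) : PS κ := fun n =>
  if Sel (n + Finsupp.single i 1) i then coeff (n + Finsupp.single i 1) f else 0

open Classical in
theorem coeff_dv {κ : Type} (f : PS κ) (i : κ) (n : κ →₀ ℕ) : coeff n (dv f i) =
    if Sel (n + Finsupp.single i 1) i then coeff (n + Finsupp.single i 1) f else 0 := rfl

theorem sel_single {κ : Type} (i : κ) : Sel (Finsupp.single i 1) i := by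
  have h : (Finsupp.single i 1 : κ →₀ ℕ) ≠ 0 := by simp
  obtain ⟨j, hj⟩ := sel_exists h
  have := sel_mem hj
  have h2 : j = i := by
    classical
    simpa [Finsupp.single_apply, eq_comm] using this
  rwa [h2] at hj

theorem coeff_zero_dv {κ : Type} (f : PS κ) (i : κ) : coeff 0 (dv f i) = lin f i := by
  rw [coeff_dv, zero_add, if_pos (sel_single i)]
  rfl

theorem dv_sum {κ : Type} [Fintype κ] (f : PS κ) (hf : Z0 f) : f = ∑ i, X i * dv f i := by
  classical
  ext n
  rw [map_sum]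
  have h1 : ∀ i : κ, coeff n (X i * dv f i) = if Sel n i then coeff n f else 0 := by
    intro i
    rw [X_def, coeff_monomial_mul]
    by_cases h : Finsupp.single i 1 ≤ n
    · rw [if_pos h, one_mul, coeff_dv, tsub_add_cancel_of_le h]
    · rw [if_neg h, if_neg]
      intro h2
      apply h
      have h3 := sel_mem h2
      rw [Finsupp.single_le_iff]
      exact Nat.one_le_iff_ne_zero.mpr (Finsupp.mem_support_iff.mp h3)
  simp only [h1]
  by_cases hn : n = 0
  · subst hn
    have : coeff 0 f = 0 := hf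
    simp [this]
  · obtain ⟨i, hi⟩ := sel_exists hn
    rw [Finset.sum_eq_single i]
    · rw [if_pos hi]
    · intro j _ hj
      rw [if_neg]
      exact fun h => hj (sel_uniq h hi)
    · simp

theorem hs {κ T : Type} [Finite κ] {a : κ → PS T} (h : ∀ i, Z0 (a i)) : HasSubst a :=
  hasSubst_of_constantCoeff_zero h

theorem z0_dvd {T : Type} {r x : PS T} (hr : Z0 r) (h : r ∣ x) : Z0 x := by
  obtain ⟨y, rfl⟩ := h
  unfold Z0 at *
  rw [map_mul, hr, zero_mul]

theorem subst_dv {κ T : Type} [Fintype κ] (f : PS κ) {a : κ → PS T} (ha : HasSubst a) :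
    f.subst a = C (constantCoeff f) + ∑ i, a i * (dv (f - C (constantCoeff f)) i).subst a := by
  have h : Z0 (f - C (constantCoeff f)) := by
    unfold Z0
    simp
  have h2 := dv_sum _ h
  have h3 : (f - C (constantCoeff f)).subst a =
      ∑ i, a i * (dv (f - C (constantCoeff f)) i).subst a := by
    conv_lhs => rw [h2]
    rw [← coe_substAlgHom ha, map_sum]
    simp only [map_mul, substAlgHom_X]
  rw [← h3, subst_sub ha, subst_C]
  ring

theorem subst_const {κ T : Type} [Fintype κ] (f : PS κ) {a : κ → PS T} (ha : HasSubst a)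
    {r : PS T} (hr : ∀ i, r ∣ a i) : r ∣ f.subst a - C (constantCoeff f) := by
  rw [subst_dv f ha, add_sub_cancel_left]
  exact Finset.dvd_sum fun i _ => (hr i).mul_right _

theorem taylor2 {κ : Type} [Fintype κ] (f : PS κ) (hf : Z0 f) : ∃ H : κ → κ → ℂ,
    (∀ i j, i ≠ j → H i j + H j i = co2 f i j) ∧
    ∀ (T : Type) (r : PS T) (_ : Z0 r) (a : κ → PS T), (∀ i, r ∣ a i) →
      r ^ 3 ∣ f.subst a - (∑ i, C (lin f i) * a i + ∑ i, ∑ j, C (H i j) * (a i * a j)) := by
  classical
  refine ⟨fun i j => coeff 0 (dv (dv f i - C (lin f i)) j), ?_, ?_⟩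
  · intro i j hij
    have key : ∀ i j : κ, coeff 0 (dv (dv f i - C (lin f i)) j) =
        if Sel (Finsupp.single j 1 + Finsupp.single i 1) i then
          coeff (Finsupp.single j 1 + Finsupp.single i 1) f else 0 := by
      intro i j
      rw [coeff_zero_dv]
      unfold lin
      rw [map_sub, coeff_dv, coeff_C_of_ne_zero (by simp), sub_zero]
    beta_reduce
    rw [key, key]
    unfold co2
    have hc : (Finsupp.single j 1 + Finsupp.single i 1 : κ →₀ ℕ) =
      Finsupp.single i 1 + Finsupp.single j 1 := add_comm _ _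
    rw [hc]
    have hne : (Finsupp.single i 1 + Finsupp.single j 1 : κ →₀ ℕ) ≠ 0 := by
      intro h
      have := DFunLike.congr_fun h i
      simp at this
    obtain ⟨k, hk⟩ := sel_exists hne
    have hk2 : k = i ∨ k = j := by
      have := sel_mem hk
      rw [Finsupp.mem_support_iff, Finsupp.add_apply, Finsupp.single_apply,
        Finsupp.single_apply] at this
      by_contra hcon
      push Not at hcon
      rw [if_neg (fun h => hcon.1 h.symm), if_neg (fun h => hcon.2 h.symm)] at this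
      simp at this
    rcases hk2 with rfl | rfl
    · rw [if_pos hk, if_neg, add_zero]
      exact fun h => hij (sel_uniq hk h)
    · rw [if_pos hk, if_neg, zero_add]
      exact fun h => hij (sel_uniq h hk)
  · intro T r hr a ha
    have hsa : HasSubst a := hs fun i => z0_dvd hr (ha i)
    have hf0 : constantCoeff f = 0 := hf
    have e1 : f.subst a = ∑ i, a i * (dv f i).subst a := by
      have := subst_dv f hsa
      rw [hf0, show (C (0 : ℂ) : PS κ) = 0 from map_zero _, show (C (0 : ℂ) : PS T) = 0 from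
        map_zero _, sub_zero, zero_add] at this
      exact this
    have e2 : ∀ i, (dv f i).subst a = C (lin f i) +
        ∑ j, a j * (dv (dv f i - C (lin f i)) j).subst a := by
      intro i
      have := subst_dv (dv f i) hsa
      rw [← coeff_zero_eq_constantCoeff_apply, coeff_zero_dv] at this
      exact this
    have e3 : f.subst a - (∑ i, C (lin f i) * a i +
        ∑ i, ∑ j, C (coeff 0 (dv (dv f i - C (lin f i)) j)) * (a i * a j)) =
        ∑ i, ∑ j, a i * a j * ((dv (dv f i - C (lin f i)) j).subst a -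
          C (constantCoeff (dv (dv f i - C (lin f i)) j))) := by
      rw [e1]
      simp only [e2, mul_add, Finset.sum_add_distrib, Finset.mul_sum, mul_sub,
        Finset.sum_sub_distrib, coeff_zero_eq_constantCoeff_apply]
      have q1 : ∀ i, a i * C (lin f i) = C (lin f i) * a i := fun i => mul_comm _ _
      have q2 : ∀ i j, a i * (a j * (dv (dv f i - C (lin f i)) j).subst a) =
        a i * a j * (dv (dv f i - C (lin f i)) j).subst a := fun i j => by ring
      have q3 : ∀ i j, C (constantCoeff (dv (dv f i - C (lin f i)) j)) * (a i * a j) =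
        a i * a j * C (constantCoeff (dv (dv f i - C (lin f i)) j)) := fun i j => by ring
      simp only [q1, q2, q3]
      ring
    rw [e3]
    refine Finset.dvd_sum fun i _ => Finset.dvd_sum fun j _ => ?_
    rw [pow_succ, pow_two]
    exact mul_dvd_mul (mul_dvd_mul (ha i) (ha j)) (subst_const _ hsa ha)

/-! ### conjugation -/

theorem cj_add {T : Type} (f g : PS T) : cj (f + g) = cj f + cj g := map_add _ _ _

theorem cj_sub {T : Type} (f g : PS T) : cj (f - g) = cj f - cj g := map_sub _ _ _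

theorem cj_mul {T : Type} (f g : PS T) : cj (f * g) = cj f * cj g := map_mul _ _ _

theorem cj_zero {T : Type} : cj (0 : PS T) = 0 := map_zero _

theorem cj_X {T : Type} (i : T) : cj (X i : PS T) = X i := MvPowerSeries.map_X _ _

theorem cj_C {T : Type} (c : ℂ) : cj (C c : PS T) = C ((starRingEnd ℂ) c) :=
  MvPowerSeries.map_C _ _

theorem cj_pow {T : Type} (f : PS T) (n : ℕ) : cj (f ^ n) = cj f ^ n := map_pow _ _ _

theorem cj_sum {T ι : Type} [Fintype ι] (f : ι → PS T) : cj (∑ i, f i) = ∑ i, cj (f i) :=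
  map_sum _ _ _

theorem cj_cj {T : Type} (f : PS T) : cj (cj f) = f := by
  ext n
  simp [cj]

theorem cj_dvd {T : Type} {r x : PS T} (h : r ∣ x) : cj r ∣ cj x := by
  obtain ⟨y, rfl⟩ := h
  exact ⟨cj y, cj_mul _ _⟩

theorem cj_Z0 {T : Type} {f : PS T} (h : Z0 f) : Z0 (cj f) := by
  unfold Z0 at *
  unfold cj
  rw [constantCoeff_map, h, map_zero]

theorem cj_subst {κ T : Type} {a : κ → PS T} (ha : HasSubst a) (f : PS κ) :
    cj (f.subst a) = (cj f).subst (fun i => cj (a i)) := map_subst ha f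

/-! ### quadratic parts -/

section quad

variable {m d : ℕ} {T : Type} (H : Fin d → Mi m d → Mi m d → ℂ)

/-- the quadratic part in `z` -/
def A (l : Fin d) (x : Fin m → PS T) : PS T :=
  ∑ j, ∑ k, C (H l (Sum.inl j) (Sum.inl k)) * (x j * x k)

/-- the quadratic part in `χ` -/
def C' (l : Fin d) (y : Fin m → PS T) : PS T :=
  ∑ j, ∑ k, C (H l (Sum.inr (Sum.inl j)) (Sum.inr (Sum.inl k))) * (y j * y k)

/-- the mixed part -/
def B (Q : Fin d → PS (Mi m d)) (l : Fin d) (x y : Fin m → PS T) : PS T :=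
  ∑ j, ∑ k, C (co2 (Q l) (Sum.inl j) (Sum.inr (Sum.inl k))) * (x j * y k)

/-- conjugation of vectors -/
def cjv {ι : Type} (x : ι → PS T) : ι → PS T := fun j => cj (x j)

end quad

section approx

variable {m d : ℕ} {T : Type} {Q : Fin d → PS (Mi m d)} {H : Fin d → Mi m d → Mi m d → ℂ}
  {r : PS T}

theorem approx (hQ : IsSeg0 Q)
    (h1 : ∀ l i j, i ≠ j → H l i j + H l j i = co2 (Q l) i j)
    (h2 : ∀ l, ∀ a : Mi m d → PS T, (∀ i, r ∣ a i) → r ^ 3 ∣ (Q l).subst a -
      (∑ i, C (lin (Q l) i) * a i + ∑ i, ∑ j, C (H l i j) * (a i * a j)))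
    (l : Fin d) (x y : Fin m → PS T) (t : Fin d → PS T) (hx : ∀ j, r ∣ x j) (hy : ∀ j, r ∣ y j)
    (ht : ∀ j, r ^ 2 ∣ t j) :
    r ^ 3 ∣ (Q l).subst (Sum.elim x (Sum.elim y t)) - (t l + (A H l x + B Q l x y + C' H l y)) := by
  have ht' : ∀ j, r ∣ t j := fun j => (Dvd.intro_left (r ^ 1) (by ring)).trans (ht j)
  have ha : ∀ i, r ∣ (Sum.elim x (Sum.elim y t) : Mi m d → PS T) i := by
    rintro (j | j | j)
    · exact hx j
    · exact hy j
    · exact ht' j
  have h3 := h2 l _ ha
  have e1 : ∑ i, C (lin (Q l) i) * (Sum.elim x (Sum.elim y t) : Mi m d → PS T) i = t l := by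
    simp only [Fintype.sum_sum_type, Sum.elim_inl, Sum.elim_inr, hQ.lin1, hQ.lin2, hQ.lin3]
    simp
  have d1 : ∀ a b : PS T, r ^ 2 ∣ a → r ∣ b → r ^ 3 ∣ a * b := fun a b h h' => by
    rw [pow_succ]
    exact mul_dvd_mul h h'
  have d2 : ∀ a b : PS T, r ∣ a → r ^ 2 ∣ b → r ^ 3 ∣ a * b := fun a b h h' => by
    rw [pow_succ']
    exact mul_dvd_mul h h'
  have e2 : r ^ 3 ∣ ∑ i, ∑ j, C (H l i j) * ((Sum.elim x (Sum.elim y t) : Mi m d → PS T) i *
      (Sum.elim x (Sum.elim y t) : Mi m d → PS T) j) - (A H l x + B Q l x y + C' H l y) := by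
    have hB : B Q l x y = ∑ j, ∑ k, C (H l (Sum.inl j) (Sum.inr (Sum.inl k))) * (x j * y k) +
        ∑ j, ∑ k, C (H l (Sum.inr (Sum.inl j)) (Sum.inl k)) * (y j * x k) := by
      rw [Finset.sum_comm (f := fun j k => C (H l (Sum.inr (Sum.inl j)) (Sum.inl k)) *
        (y j * x k))]
      unfold B
      rw [← Finset.sum_add_distrib]
      refine Finset.sum_congr rfl fun j _ => ?_
      rw [← Finset.sum_add_distrib]
      refine Finset.sum_congr rfl fun k _ => ?_
      rw [← h1 l _ _ (by simp), map_add]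
      ring
    rw [hB]
    simp only [Fintype.sum_sum_type, Sum.elim_inl, Sum.elim_inr, Finset.sum_add_distrib]
    have e3 : ∀ a b c e f g i j k : PS T, (a + (b + c)) + ((e + (f + g)) + (i + (j + k))) -
      (a + (e + b) + f) = c + g + i + j + k := fun a b c e f g i j k => by ring
    unfold A C'
    rw [e3]
    refine dvd_add (dvd_add (dvd_add (dvd_add ?_ ?_) ?_) ?_) ?_
    · exact Finset.dvd_sum fun j _ => Finset.dvd_sum fun k _ => (d1 _ _ (ht j) (hx k)).mul_left _
    · exact Finset.dvd_sum fun j _ => Finset.dvd_sum fun k _ => (d1 _ _ (ht j) (hy k)).mul_left _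
    · exact Finset.dvd_sum fun j _ => Finset.dvd_sum fun k _ => (d2 _ _ (hx j) (ht k)).mul_left _
    · exact Finset.dvd_sum fun j _ => Finset.dvd_sum fun k _ => (d2 _ _ (hy j) (ht k)).mul_left _
    · exact Finset.dvd_sum fun j _ => Finset.dvd_sum fun k _ => (d1 _ _ (ht j) (ht' k)).mul_left _
  rw [e1] at h3
  have h4 := dvd_add h3 e2
  convert h4 using 1
  ring

theorem A_dvd {l : Fin d} {x : Fin m → PS T} (hx : ∀ j, r ∣ x j) : r ^ 2 ∣ A H l x :=
  Finset.dvd_sum fun j _ => Finset.dvd_sum fun k _ => by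
    rw [pow_two]
    exact (mul_dvd_mul (hx j) (hx k)).mul_left _

theorem C'_dvd {l : Fin d} {x : Fin m → PS T} (hx : ∀ j, r ∣ x j) : r ^ 2 ∣ C' H l x :=
  Finset.dvd_sum fun j _ => Finset.dvd_sum fun k _ => by
    rw [pow_two]
    exact (mul_dvd_mul (hx j) (hx k)).mul_left _

theorem B_dvd {l : Fin d} {x y : Fin m → PS T} (hx : ∀ j, r ∣ x j) (hy : ∀ j, r ∣ y j) :
    r ^ 2 ∣ B Q l x y :=
  Finset.dvd_sum fun j _ => Finset.dvd_sum fun k _ => by
    rw [pow_two]
    exact (mul_dvd_mul (hx j) (hy k)).mul_left _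

theorem cjv_dvd {ι : Type} {x : ι → PS T} (hcr : cj r = r) (hx : ∀ j, r ∣ x j) (j : ι) :
    r ∣ cjv x j := by
  have := cj_dvd (hx j)
  rwa [hcr] at this

/-- reality -/
theorem real3 (hQ : IsSeg0 Q) (hr : Z0 r) (hcr : cj r = r)
    (h1 : ∀ l i j, i ≠ j → H l i j + H l j i = co2 (Q l) i j)
    (h2 : ∀ l, ∀ a : Mi m d → PS T, (∀ i, r ∣ a i) → r ^ 3 ∣ (Q l).subst a -
      (∑ i, C (lin (Q l) i) * a i + ∑ i, ∑ j, C (H l i j) * (a i * a j)))
    (l : Fin d) (x y : Fin m → PS T) (hx : ∀ j, r ∣ x j) (hy : ∀ j, r ∣ y j) :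
    r ^ 3 ∣ A H l x + B Q l x y + C' H l y +
      cj (A H l (cjv y) + B Q l (cjv y) (cjv x) + C' H l (cjv x)) := by
  classical
  -- the substitution in `real`
  set c : Zi m d ⊕ Fin m → PS T := Sum.elim (Sum.elim x (fun _ => 0)) y with hc
  have hcs : HasSubst c := hs (by
    rintro ((j | j) | j)
    · exact z0_dvd hr (hx j)
    · exact map_zero _
    · exact z0_dvd hr (hy j))
  set t : Fin d → PS T := fun l => (cjQ Q l).subst (Sum.elim y (Sum.elim x (fun _ => 0))) with ht
  have ha1 : HasSubst (Sum.elim (fun j => X (Sum.inr j)) (fun i => X (Sum.inl i)) :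
      Mi m d → PS (Zi m d ⊕ Fin m)) := hs (by
    rintro (j | j)
    · exact constantCoeff_X _
    · exact constantCoeff_X _)
  have hz : ∀ i, Z0 ((Sum.elim y (Sum.elim x (fun _ => 0)) : Mi m d → PS T) i) := by
    rintro (j | j | j)
    · exact z0_dvd hr (hy j)
    · exact z0_dvd hr (hx j)
    · exact map_zero _
  have e0 : (Q l).subst (Sum.elim x (Sum.elim y t)) = 0 := by
    have h3 := congrArg (fun f => f.subst c) (hQ.real l)
    beta_reduce at h3
    rw [subst_comp_subst_apply, subst_X hcs] at h3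
    · rw [show c (Sum.inl (Sum.inr l)) = 0 from rfl] at h3
      rw [← h3]
      congr 1
      funext i
      rcases i with j | j | j
      · simp only [Sum.elim_inl]
        rw [subst_X hcs]
        rfl
      · simp only [Sum.elim_inl, Sum.elim_inr, pr]
        rw [subst_X hcs]
        rfl
      · simp only [Sum.elim_inr, pr, ht]
        rw [subst_comp_subst_apply ha1 hcs]
        congr 1
        funext i
        rcases i with j | j | j
        · simp only [Sum.elim_inl]
          rw [subst_X hcs]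
          rfl
        · simp only [Sum.elim_inl, Sum.elim_inr]
          rw [subst_X hcs]
          rfl
        · simp only [Sum.elim_inr]
          rw [subst_X hcs]
          rfl
    · apply hs
      rintro (j | j | j)
      · exact constantCoeff_X _
      · exact constantCoeff_X _
      · simp only [Sum.elim_inr, pr]
        refine constantCoeff_subst_eq_zero ha1 ?_ (cj_Z0 (hQ.zero j))
        rintro (j | j)
        · exact constantCoeff_X _
        · exact constantCoeff_X _
    · exact hcs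
  have e1 : ∀ l, r ^ 3 ∣ t l - cj (A H l (cjv y) + B Q l (cjv y) (cjv x) + C' H l (cjv x)) := by
    intro l
    have h3 := approx hQ h1 h2 l (cjv y) (cjv x) (fun _ => 0) (cjv_dvd hcr hy)
      (cjv_dvd hcr hx) (fun _ => dvd_zero _)
    have h4 := cj_dvd h3
    rw [cj_pow, hcr, cj_sub, zero_add, cj_subst] at h4
    · convert h4 using 2
      rw [ht]
      unfold cjQ
      beta_reduce
      congr 1
      funext i
      rcases i with j | j | j
      · simp [cjv, cj_cj]
      · simp [cjv, cj_cj]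
      · simp [cj_zero]
    · apply hs
      rintro (j | j | j)
      · exact cj_Z0 (z0_dvd hr (hy j))
      · exact cj_Z0 (z0_dvd hr (hx j))
      · exact map_zero _
  have e2 : ∀ l, r ^ 2 ∣ t l := by
    intro l
    have h3 : r ^ 2 ∣ cj (A H l (cjv y) + B Q l (cjv y) (cjv x) + C' H l (cjv x)) := by
      have : r ^ 2 ∣ A H l (cjv y) + B Q l (cjv y) (cjv x) + C' H l (cjv x) :=
        dvd_add (dvd_add (A_dvd (cjv_dvd hcr hy)) (B_dvd (cjv_dvd hcr hy) (cjv_dvd hcr hx)))
          (C'_dvd (cjv_dvd hcr hx))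
      have h4 := cj_dvd this
      rwa [cj_pow, hcr] at h4
    have h4 : r ^ 2 ∣ r ^ 3 := pow_dvd_pow _ (by norm_num)
    have := dvd_add (h4.trans (e1 l)) h3
    rwa [sub_add_cancel] at this
  have e3 := approx hQ h1 h2 l x y t hx hy e2
  rw [e0] at e3
  have e4 := dvd_add e3 (e1 l)
  rw [← dvd_neg] at e4
  convert e4 using 1
  ring

theorem A_zero (l : Fin d) : A H l (fun _ => (0 : PS T)) = 0 := by simp [A]

theorem C'_zero (l : Fin d) : C' H l (fun _ => (0 : PS T)) = 0 := by simp [C']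

theorem B_zero_left (l : Fin d) (y : Fin m → PS T) : B Q l (fun _ => (0 : PS T)) y = 0 := by
  simp [B]

theorem B_zero_right (l : Fin d) (x : Fin m → PS T) : B Q l x (fun _ => (0 : PS T)) = 0 := by
  simp [B]

theorem cjv_zero {ι : Type} : cjv (fun _ : ι => (0 : PS T)) = fun _ => 0 := by
  funext i
  simp [cjv, cj_zero]

theorem cjv_cjv {ι : Type} (x : ι → PS T) : cjv (cjv x) = x := by
  funext i
  simp [cjv, cj_cj]

end approx

/-! ### the recursion -/

section seq

variable {m d : ℕ} {T : Type} {Q : Fin d → PS (Mi m d)} {H : Fin d → Mi m d → Mi m d → ℂ}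
  {r : PS T}

/-- the hypotheses on `Q`, `H`, `r` -/
structure Ok (Q : Fin d → PS (Mi m d)) (H : Fin d → Mi m d → Mi m d → ℂ) (r : PS T) : Prop where
  hQ : IsSeg0 Q
  hr : Z0 r
  hcr : cj r = r
  h1 : ∀ l i j, i ≠ j → H l i j + H l j i = co2 (Q l) i j
  h2 : ∀ l, ∀ a : Mi m d → PS T, (∀ i, r ∣ a i) → r ^ 3 ∣ (Q l).subst a -
      (∑ i, C (lin (Q l) i) * a i + ∑ i, ∑ j, C (H l i j) * (a i * a j))

theorem realA (o : Ok Q H r) (l : Fin d) (x : Fin m → PS T) (hx : ∀ j, r ∣ x j) :
    r ^ 3 ∣ A H l x + cj (C' H l (cjv x)) := by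
  have h := real3 o.hQ o.hr o.hcr o.h1 o.h2 l x (fun _ => 0) hx (fun _ => dvd_zero _)
  rwa [cjv_zero, B_zero_right, C'_zero, A_zero, B_zero_left, add_zero, add_zero, zero_add,
    zero_add] at h

theorem realC (o : Ok Q H r) (l : Fin d) (y : Fin m → PS T) (hy : ∀ j, r ∣ y j) :
    r ^ 3 ∣ C' H l y + cj (A H l (cjv y)) := by
  have h := real3 o.hQ o.hr o.hcr o.h1 o.h2 l (fun _ => 0) y (fun _ => dvd_zero _) hy
  rwa [cjv_zero, B_zero_right, C'_zero, A_zero, B_zero_left, add_zero, add_zero, add_zero,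
    zero_add] at h

theorem realB (o : Ok Q H r) (l : Fin d) (x y : Fin m → PS T) (hx : ∀ j, r ∣ x j)
    (hy : ∀ j, r ∣ y j) : r ^ 3 ∣ B Q l x y + cj (B Q l (cjv y) (cjv x)) := by
  have h := real3 o.hQ o.hr o.hcr o.h1 o.h2 l x y hx hy
  have h' := dvd_sub (dvd_sub h (realA o l x hx)) (realC o l y hy)
  convert h' using 1
  rw [cj_add, cj_add]
  ring

theorem seg_dvd (o : Ok Q H r) {a : ℕ → Fin m → PS T} (ha : ∀ k j, r ∣ a k j) : ∀ k,
    (∀ j, r ∣ seg Q a k (Sum.inl j)) ∧ (∀ l, r ^ 2 ∣ seg Q a k (Sum.inr l)) := by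
  intro k
  induction k with
  | zero => exact ⟨fun j => dvd_zero _, fun l => dvd_zero _⟩
  | succ k ih =>
    refine ⟨fun j => ha k j, fun l => ?_⟩
    have hb : (fun i => cj (seg Q a k i)) = Sum.elim (cjv fun j => seg Q a k (Sum.inl j))
        (cjv fun l => seg Q a k (Sum.inr l)) := by
      funext i
      rcases i with j | j <;> rfl
    have hx := ha k
    have hy := cjv_dvd o.hcr ih.1
    have ht : ∀ l, r ^ 2 ∣ cjv (fun l => seg Q a k (Sum.inr l)) l := fun l => by
      have := cj_dvd (ih.2 l)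
      rwa [cj_pow, o.hcr] at this
    have h := approx o.hQ o.h1 o.h2 l (a k) _ _ hx hy ht
    have e : seg Q a (k + 1) (Sum.inr l) = (Q l).subst (Sum.elim (a k) (Sum.elim
        (cjv fun j => seg Q a k (Sum.inl j)) (cjv fun l => seg Q a k (Sum.inr l)))) := by
      rw [← hb]
      rfl
    rw [e]
    have h' := dvd_add ((pow_dvd_pow r (by norm_num : 2 ≤ 3)).trans h)
      (dvd_add (ht l) (dvd_add (dvd_add (A_dvd (H := H) (l := l) hx)
        (B_dvd (Q := Q) (l := l) hx hy)) (C'_dvd (H := H) (l := l) hy)))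
    rwa [sub_add_cancel] at h'

/-- `w ^ k - A(z ^ k, z ^ k)` -/
def vv (Q : Fin d → PS (Mi m d)) (H : Fin d → Mi m d → Mi m d → ℂ) (a : ℕ → Fin m → PS T)
    (k : ℕ) (l : Fin d) : PS T :=
  seg Q a k (Sum.inr l) - A H l (fun j => seg Q a k (Sum.inl j))

theorem step1 (o : Ok Q H r) {a : ℕ → Fin m → PS T} (ha : ∀ k j, r ∣ a k j) (k : ℕ) (l : Fin d) :
    r ^ 3 ∣ vv Q H a (k + 1) l - (cj (vv Q H a k l) +
      B Q l (fun j => seg Q a (k + 1) (Sum.inl j)) (cjv fun j => seg Q a k (Sum.inl j))) := by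
  have ih := seg_dvd o ha k
  have hb : (fun i => cj (seg Q a k i)) = Sum.elim (cjv fun j => seg Q a k (Sum.inl j))
      (cjv fun l => seg Q a k (Sum.inr l)) := by
    funext i
    rcases i with j | j <;> rfl
  have hx := ha k
  have hy := cjv_dvd o.hcr ih.1
  have ht : ∀ l, r ^ 2 ∣ cjv (fun l => seg Q a k (Sum.inr l)) l := fun l => by
    have := cj_dvd (ih.2 l)
    rwa [cj_pow, o.hcr] at this
  have h := approx o.hQ o.h1 o.h2 l (a k) _ _ hx hy ht
  have e : seg Q a (k + 1) (Sum.inr l) = (Q l).subst (Sum.elim (a k) (Sum.elim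
      (cjv fun j => seg Q a k (Sum.inl j)) (cjv fun l => seg Q a k (Sum.inr l)))) := by
    rw [← hb]
    rfl
  have e2 : (fun j => seg Q a (k + 1) (Sum.inl j)) = a k := rfl
  have h3 := realC o l _ hy
  rw [cjv_cjv] at h3
  have h4 := dvd_add h h3
  rw [vv, e, e2, vv, cj_sub]
  convert h4 using 1
  simp only [cjv]
  ring

theorem step2 (o : Ok Q H r) {a : ℕ → Fin m → PS T} (ha : ∀ k j, r ∣ a k j) (k : ℕ) (l : Fin d) :
    r ^ 3 ∣ vv Q H a (k + 2) l - (vv Q H a k l +
      (B Q l (fun j => seg Q a (k + 2) (Sum.inl j)) (cjv fun j => seg Q a (k + 1) (Sum.inl j)) -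
      B Q l (fun j => seg Q a k (Sum.inl j)) (cjv fun j => seg Q a (k + 1) (Sum.inl j)))) := by
  have h1 := step1 o ha (k + 1) l
  have h2 := cj_dvd (step1 o ha k l)
  rw [cj_pow, o.hcr, cj_sub, cj_add, cj_cj] at h2
  have h3 := realB o l (fun j => seg Q a k (Sum.inl j))
    (cjv fun j => seg Q a (k + 1) (Sum.inl j)) (seg_dvd o ha k).1
    (cjv_dvd o.hcr (seg_dvd o ha (k + 1)).1)
  rw [cjv_cjv] at h3
  have h4 := dvd_add (dvd_add h1 h2) h3
  convert h4 using 1
  ring

theorem vv_one (o : Ok Q H r) {a : ℕ → Fin m → PS T} (ha : ∀ k j, r ∣ a k j) (l : Fin d) :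
    r ^ 3 ∣ vv Q H a 1 l := by
  have h := step1 o ha 0 l
  have e1 : (fun j => seg Q a 0 (Sum.inl j)) = fun _ => 0 := rfl
  have e2 : vv Q H a 0 l = 0 := by
    rw [vv, e1, A_zero]
    exact sub_zero _
  rw [e2, e1, cjv_zero, B_zero_right, cj_zero] at h
  simpa using h

end seq

/-! ### the choice of the curves -/

section choice

variable {m d : ℕ}

/-- the variable `r` -/
def rr {m d : ℕ} : PS ((Unit ⊕ Fin m) ⊕ Fin d) := X (Sum.inl (Sum.inl ()))

/-- the points `z_i` -/
def zz (e : Fin d → Fin m → ℂ) (i : ℕ) (j : Fin m) : PS ((Unit ⊕ Fin m) ⊕ Fin d) :=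
  rr ^ 2 * X (Sum.inl (Sum.inr j)) -
    rr * ∑ i' : Fin d, if i ≤ i'.val then C (e i' j) * X (Sum.inr i') else 0

/-- the choice of the curves -/
def aa (e β : Fin d → Fin m → ℂ) (k : ℕ) (j : Fin m) : PS ((Unit ⊕ Fin m) ⊕ Fin d) :=
  if k % 2 = 0 then zz e (k / 2) j else
    if h : k / 2 < d then C ((starRingEnd ℂ) (β ⟨k / 2, h⟩ j)) * rr else 0

theorem aa_even (e β : Fin d → Fin m → ℂ) (i : ℕ) : aa e β (2 * i) = zz e i := by
  funext j
  unfold aa
  rw [if_pos (by omega), show 2 * i / 2 = i by omega]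

theorem aa_odd (e β : Fin d → Fin m → ℂ) (i : Fin d) : aa e β (2 * i.val + 1) =
    fun j => C ((starRingEnd ℂ) (β i j)) * rr := by
  funext j
  unfold aa
  have h2 : (2 * i.val + 1) / 2 = i.val := by omega
  rw [if_neg (by omega), dif_pos (by rw [h2]; exact i.isLt)]
  congr 4
  exact Fin.ext h2

theorem zz_dvd (e : Fin d → Fin m → ℂ) (i : ℕ) (j : Fin m) : rr ∣ zz e i j := by
  unfold zz
  refine dvd_sub ?_ (dvd_mul_right _ _)
  rw [pow_two, mul_assoc]
  exact dvd_mul_right _ _

theorem aa_dvd (e β : Fin d → Fin m → ℂ) (k : ℕ) (j : Fin m) : rr ∣ aa e β k j := by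
  unfold aa
  split_ifs
  · exact zz_dvd _ _ _
  · exact dvd_mul_left _ _
  · exact dvd_zero _

theorem rr_z0 : Z0 (rr : PS ((Unit ⊕ Fin m) ⊕ Fin d)) := constantCoeff_X _

theorem zz_diff (e : Fin d → Fin m → ℂ) (i : Fin d) (j : Fin m) :
    zz e (i.val + 1) j - zz e i.val j = rr * (C (e i j) * X (Sum.inr i)) := by
  have h : (∑ i' : Fin d, if i.val ≤ i'.val then
      (C (e i' j) * X (Sum.inr i') : PS ((Unit ⊕ Fin m) ⊕ Fin d)) else 0) -
      (∑ i' : Fin d, if i.val + 1 ≤ i'.val then C (e i' j) * X (Sum.inr i') else 0) =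
      C (e i j) * X (Sum.inr i) := by
    rw [← Finset.sum_sub_distrib, Finset.sum_eq_single i]
    · rw [if_pos le_rfl, if_neg (by omega), sub_zero]
    · intro b _ hb
      have hb' : b.val ≠ i.val := fun h => hb (Fin.ext h)
      by_cases h : i.val ≤ b.val
      · rw [if_pos h, if_pos (by omega), sub_self]
      · rw [if_neg h, if_neg (by omega), sub_self]
    · simp
  rw [← h]
  unfold zz
  ring

theorem zz_d (e : Fin d → Fin m → ℂ) (j : Fin m) :
    zz e d j = rr ^ 2 * X (Sum.inl (Sum.inr j)) := by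
  unfold zz
  rw [Finset.sum_eq_zero, mul_zero, sub_zero]
  intro i _
  rw [if_neg (by omega)]

/-- the values of the Levi form -/
def lv (Q : Fin d → PS (Mi m d)) (e β : Fin d → Fin m → ℂ) (l i : Fin d) : ℂ :=
  ∑ j, ∑ k, co2 (Q l) (Sum.inl j) (Sum.inr (Sum.inl k)) * e i j * β i k

theorem B_diff (Q : Fin d → PS (Mi m d)) (e β : Fin d → Fin m → ℂ) (l i : Fin d) :
    B Q l (zz e (i.val + 1)) (fun j => C (β i j) * rr) -
      B Q l (zz e i.val) (fun j => C (β i j) * rr) =
      rr ^ 2 * (C (lv Q e β l i) * X (Sum.inr i)) := by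
  have e1 : ∀ j k, C (co2 (Q l) (Sum.inl j) (Sum.inr (Sum.inl k))) *
      (zz e (i.val + 1) j * (C (β i k) * rr)) -
      C (co2 (Q l) (Sum.inl j) (Sum.inr (Sum.inl k))) * (zz e i.val j * (C (β i k) * rr)) =
      rr ^ 2 * (C (co2 (Q l) (Sum.inl j) (Sum.inr (Sum.inl k)) * e i j * β i k) *
        X (Sum.inr i)) := by
    intro j k
    rw [map_mul, map_mul]
    have := zz_diff e i j
    calc _ = C (co2 (Q l) (Sum.inl j) (Sum.inr (Sum.inl k))) *
        ((zz e (i.val + 1) j - zz e i.val j) * (C (β i k) * rr)) := by ring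
      _ = _ := by rw [this]; ring
  unfold B lv
  rw [← Finset.sum_sub_distrib]
  simp only [← Finset.sum_sub_distrib, e1]
  simp only [map_sum, Finset.mul_sum, Finset.sum_mul]

theorem vv_odd {Q : Fin d → PS (Mi m d)} {H : Fin d → Mi m d → Mi m d → ℂ}
    (o : Ok Q H (rr : PS ((Unit ⊕ Fin m) ⊕ Fin d))) (e β : Fin d → Fin m → ℂ) (l : Fin d) :
    ∀ i : ℕ, i ≤ d → rr ^ 3 ∣ vv Q H (aa e β) (2 * i + 1) l -
      rr ^ 2 * ∑ i' : Fin d, if i'.val < i then C (lv Q e β l i') * X (Sum.inr i') else 0 := by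
  intro i
  induction i with
  | zero =>
    intro _
    simpa using vv_one o (aa_dvd e β) l
  | succ i ih =>
    intro hi
    have h1 := ih (by omega)
    have h2 := step2 o (aa_dvd e β) (2 * i + 1) l
    have e1 : (fun j => seg Q (aa e β) (2 * i + 1 + 2) (Sum.inl j)) = zz e (i + 1) := by
      rw [← aa_even e β (i + 1)]
      rfl
    have e2 : (fun j => seg Q (aa e β) (2 * i + 1) (Sum.inl j)) = zz e i := by
      rw [← aa_even e β i]
      rfl
    have e3 : (cjv fun j => seg Q (aa e β) (2 * i + 1 + 1) (Sum.inl j)) =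
        fun j => C (β ⟨i, by omega⟩ j) * rr := by
      have : (fun j => seg Q (aa e β) (2 * i + 1 + 1) (Sum.inl j)) = aa e β (2 * i + 1) := rfl
      rw [this, aa_odd e β ⟨i, by omega⟩]
      funext j
      simp only [cjv]
      rw [cj_mul, cj_C, Complex.conj_conj, o.hcr]
    rw [e1, e2, e3] at h2
    have e4 := B_diff Q e β l ⟨i, by omega⟩
    dsimp only at e4
    rw [e4] at h2
    have h3 := dvd_add h2 h1
    have e5 : (∑ i' : Fin d, if i'.val < i + 1 then
        (C (lv Q e β l i') * X (Sum.inr i') : PS ((Unit ⊕ Fin m) ⊕ Fin d)) else 0) =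
        (∑ i' : Fin d, if i'.val < i then C (lv Q e β l i') * X (Sum.inr i') else 0) +
        C (lv Q e β l ⟨i, by omega⟩) * X (Sum.inr ⟨i, by omega⟩) := by
      rw [← sub_eq_iff_eq_add', ← Finset.sum_sub_distrib,
        Finset.sum_eq_single (⟨i, by omega⟩ : Fin d)]
      · rw [if_pos (by simp), if_neg (by simp), sub_zero]
      · intro b _ hb
        have hb' : b.val ≠ i := fun h => hb (Fin.ext h)
        by_cases h : b.val < i
        · rw [if_pos h, if_pos (by omega), sub_self]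
        · rw [if_neg h, if_neg (by omega), sub_self]
      · simp
    rw [e5, show 2 * (i + 1) + 1 = 2 * i + 1 + 2 by ring]
    convert h3 using 1
    ring

/-- the `w`-component of the Segre map -/
theorem seg_w {Q : Fin d → PS (Mi m d)} {H : Fin d → Mi m d → Mi m d → ℂ}
    (o : Ok Q H (rr : PS ((Unit ⊕ Fin m) ⊕ Fin d))) (e β : Fin d → Fin m → ℂ) (l : Fin d) :
    ∃ s : PS ((Unit ⊕ Fin m) ⊕ Fin d), seg Q (aa e β) (2 * d + 1) (Sum.inr l) =
      rr ^ 2 * ((∑ i, C (lv Q e β l i) * X (Sum.inr i)) + rr * s) := by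
  have h := vv_odd o e β l d le_rfl
  have e1 : (∑ i' : Fin d, if i'.val < d then
      (C (lv Q e β l i') * X (Sum.inr i') : PS ((Unit ⊕ Fin m) ⊕ Fin d)) else 0) =
      ∑ i, C (lv Q e β l i) * X (Sum.inr i) :=
    Finset.sum_congr rfl fun i _ => if_pos i.isLt
  rw [e1] at h
  have e2 : (fun j => seg Q (aa e β) (2 * d + 1) (Sum.inl j)) = zz e d := by
    rw [← aa_even e β d]
    rfl
  have h2 : rr ^ 3 ∣ A H l (fun j => seg Q (aa e β) (2 * d + 1) (Sum.inl j)) := by
    rw [e2]
    refine Finset.dvd_sum fun j _ => Finset.dvd_sum fun k _ => ?_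
    rw [zz_d, zz_d]
    exact ⟨C (H l (Sum.inl j) (Sum.inl k)) * (rr * X (Sum.inl (Sum.inr j)) *
      X (Sum.inl (Sum.inr k))), by ring⟩
  have h3 := dvd_add h h2
  obtain ⟨s, hs⟩ := h3
  refine ⟨s, ?_⟩
  have e3 : seg Q (aa e β) (2 * d + 1) (Sum.inr l) = vv Q H (aa e β) (2 * d + 1) l +
    A H l (fun j => seg Q (aa e β) (2 * d + 1) (Sum.inl j)) := by
    rw [vv, sub_add_cancel]
  rw [e3]
  linear_combination hs

end choice

/-! ### convergence -/

section conv

theorem conv_cj {T : Type} {f : PS T} (h : Conv f) : Conv (cj f) := by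
  obtain ⟨C, hC, h⟩ := h
  refine ⟨C, hC, fun n => ?_⟩
  have e : coeff n (cj f) = (starRingEnd ℂ) (coeff n f) := MvPowerSeries.coeff_map _ _ _
  rw [e]
  dsimp only
  rw [Complex.norm_conj]
  exact h n

theorem pow_est {C : ℝ} (hC : 0 < C) {a b : ℕ} (h : a ≤ 3 * b) : C ^ a ≤ (max C 1 ^ 3) ^ b := by
  rw [← pow_mul]
  exact (pow_le_pow_left₀ hC.le (le_max_left _ _) _).trans
    (pow_le_pow_right₀ (le_max_right _ _) h)

theorem conv_div {T : Type} {i : T} {f : PS T} (h : Conv (X i ^ 2 * f)) : Conv f := by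
  obtain ⟨C, hC, h⟩ := h
  refine ⟨max C 1 ^ 3, by positivity, fun n => ?_⟩
  have h1 := h (Finsupp.single i 2 + n)
  rw [X_pow_eq, coeff_add_monomial_mul, one_mul] at h1
  refine h1.trans (pow_est hC ?_)
  rw [map_add, Finsupp.degree_single]
  omega

/-- the exponent of the monomial -/
def ex {κ T : Type} (t : T) (φ : κ → T) (α : κ →₀ ℕ) : T →₀ ℕ :=
  ∑ s ∈ α.support, α s • (Finsupp.single t 2 + Finsupp.single (φ s) 1)

theorem ex_app {κ T : Type} {t : T} {φ : κ → T} (hφ : Function.Injective φ) (ht : ∀ s, φ s ≠ t)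
    (α : κ →₀ ℕ) (s : κ) : ex t φ α (φ s) = α s := by
  classical
  unfold ex
  rw [Finsupp.finsetSum_apply]
  have h1 : ∀ x, (α x • (Finsupp.single t 2 + Finsupp.single (φ x) 1) : T →₀ ℕ) (φ s) =
      if x = s then α s else 0 := by
    intro x
    rw [Finsupp.smul_apply, Finsupp.add_apply, Finsupp.single_apply, Finsupp.single_apply,
      if_neg (fun h => ht s h.symm)]
    by_cases hx : x = s
    · subst hx
      simp
    · rw [if_neg (fun h => hx (hφ h)), if_neg hx]
      simp
  simp only [h1]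
  rw [Finset.sum_ite_eq']
  split_ifs with h
  · rfl
  · rw [Finsupp.mem_support_iff, not_not] at h
    exact h.symm

theorem ex_inj {κ T : Type} {t : T} {φ : κ → T} (hφ : Function.Injective φ)
    (ht : ∀ s, φ s ≠ t) : Function.Injective (ex t φ) := fun α β h => by
  ext s
  rw [← ex_app hφ ht α s, ← ex_app hφ ht β s, h]

theorem ex_deg {κ T : Type} {t : T} {φ : κ → T} (α : κ →₀ ℕ) :
    (ex t φ α).degree = 3 * α.degree := by
  unfold ex
  rw [map_sum]
  simp only [map_nsmul, map_add, Finsupp.degree_single, smul_eq_mul]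
  rw [← Finset.sum_mul, mul_comm, Finsupp.degree_apply]

theorem ex_prod {κ T : Type} {t : T} {φ : κ → T} (α : κ →₀ ℕ) :
    (α.prod fun s e => ((X t ^ 2 * X (φ s) : PS T)) ^ e) = monomial (ex t φ α) 1 := by
  have h : ∀ s e, ((X t ^ 2 * X (φ s) : PS T)) ^ e =
      monomial (e • (Finsupp.single t 2 + Finsupp.single (φ s) 1)) 1 := by
    intro s e
    rw [X_pow_eq, X_def, monomial_mul_monomial, monomial_pow, one_mul, one_pow]
  simp only [h]
  rw [Finsupp.prod, prod_monomial, Finset.prod_const_one]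
  rfl

theorem conv_of_subst {κ T : Type} [Finite κ] {t : T} {φ : κ → T} (hφ : Function.Injective φ)
    (ht : ∀ s, φ s ≠ t) {h : PS κ} (hc : Conv (h.subst fun s => (X t ^ 2 * X (φ s) : PS T))) :
    Conv h := by
  obtain ⟨C, hC, hc⟩ := hc
  refine ⟨max C 1 ^ 3, by positivity, fun α => ?_⟩
  have hsub : HasSubst (fun s => (X t ^ 2 * X (φ s) : PS T)) := hs fun s => by
    unfold Z0
    rw [map_mul, constantCoeff_X, mul_zero]
  have e : coeff (ex t φ α) (h.subst fun s => (X t ^ 2 * X (φ s) : PS T)) = coeff α h := by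
    rw [coeff_subst hsub, finsum_eq_single _ α]
    · rw [ex_prod, coeff_monomial_same, smul_eq_mul, mul_one]
    · intro β hβ
      rw [ex_prod, coeff_monomial_ne, smul_zero]
      exact fun h => hβ (ex_inj hφ ht h).symm
  have h1 := hc (ex t φ α)
  rw [e] at h1
  refine h1.trans (pow_est hC ?_)
  rw [ex_deg]
  omega

end conv

section final

variable {m d : ℕ}

theorem conv_seg (hCNV : SpecCNV) (hCNS : SpecCNS) {Q : Fin d → PS (Mi m d)} (hQ : IsSeg0 Q)
    {T : Type} [Finite T] {a : ℕ → Fin m → PS T} (ha : ∀ k j, Conv (a k j) ∧ Z0 (a k j)) (k : ℕ) :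
    ∀ i, Conv (seg Q a k i) ∧ Z0 (seg Q a k i) := by
  have hN := hCNV.2
  induction k with
  | zero =>
    intro i
    refine ⟨?_, map_zero _⟩
    have := ((hCNV.1 ℂ _ hN T).2.1) 0
    rw [map_zero] at this
    exact this
  | succ k ih =>
    rintro (j | l)
    · exact ha k j
    · have h1 : ∀ i, Conv ((Sum.elim (a k) (fun i => cj (seg Q a k i)) : Mi m d → PS T) i) ∧
          Z0 ((Sum.elim (a k) (fun i => cj (seg Q a k i)) : Mi m d → PS T) i) := by
        rintro (j | j)
        · exact ha k j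
        · exact ⟨conv_cj (ih j).1, cj_Z0 (ih j).2⟩
      have e : seg Q a (k + 1) (Sum.inr l) =
        (Q l).subst (Sum.elim (a k) (fun i => cj (seg Q a k i)) : Mi m d → PS T) := rfl
      rw [e]
      exact ⟨hCNS ℂ _ hN _ _ _ _ (hQ.conv l) h1,
        constantCoeff_subst_eq_zero (hs fun i => (h1 i).2) (fun i => (h1 i).2) (hQ.zero l)⟩

theorem conv_zz (hCNV : SpecCNV) (e : Fin d → Fin m → ℂ) (i : ℕ) (j : Fin m) :
    Conv (zz e i j) := by
  obtain ⟨h1, h2, h3, -⟩ := hCNV.1 ℂ _ hCNV.2 ((Unit ⊕ Fin m) ⊕ Fin d)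
  have hr : ConvN (fun c : ℂ => ‖c‖) (rr : PS ((Unit ⊕ Fin m) ⊕ Fin d)) := h3 _
  have hsum : ConvN (fun c : ℂ => ‖c‖) (∑ i' : Fin d, if i ≤ i'.val then
      (C (e i' j) * X (Sum.inr i') : PS ((Unit ⊕ Fin m) ⊕ Fin d)) else 0) := by
    refine Finset.sum_induction _ (fun f => ConvN (fun c : ℂ => ‖c‖) f)
      (fun a b ha hb => (h1 a b ha hb).1) ?_ ?_
    · have := h2 0
      rwa [map_zero] at this
    · intro i' _
      split_ifs
      · exact (h1 _ _ (h2 _) (h3 _)).2.1
      · have := h2 0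
        rwa [map_zero] at this
  have hr2 := (h1 _ _ hr hr).2.1
  rw [← pow_two] at hr2
  exact (h1 _ _ ((h1 _ _ hr2 (h3 _)).2.1) ((h1 _ _ hr hsum).2.1)).2.2.2

theorem conv_aa (hCNV : SpecCNV) (e β : Fin d → Fin m → ℂ) (k : ℕ) (j : Fin m) :
    Conv (aa e β k j) := by
  obtain ⟨h1, h2, h3, -⟩ := hCNV.1 ℂ _ hCNV.2 ((Unit ⊕ Fin m) ⊕ Fin d)
  unfold aa
  split_ifs
  · exact conv_zz hCNV _ _ _
  · exact (h1 _ _ (h2 _) (h3 _)).2.1
  · have := h2 0
    rwa [map_zero] at this

end final

end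

end Pool.Agent.Lib.MP_2184e2_an.Loc.ENDM

namespace Pool.Agent.Lib.MP_2184e2_an.Loc

open MvPowerSeries ENDM

/-- the Segre map of order `2d + 1` detects convergence -/
theorem specEND (hCNV : SpecCNV) (hCNS : SpecCNS) (hINV : SpecINV) : SpecEND := by
  classical
  intro m d Q hQ ⟨e, β, hdet⟩
  choose H hH1 hH2 using fun l => taylor2 (Q l) (hQ.zero l)
  have o : Ok Q H (rr : PS ((Unit ⊕ Fin m) ⊕ Fin d)) :=
    ⟨hQ, rr_z0, cj_X _, hH1, fun l a ha => hH2 l _ _ rr_z0 a ha⟩
  have haa : ∀ k j, Conv (aa e β k j) ∧ Z0 (aa e β k j) := fun k j =>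
    ⟨conv_aa hCNV e β k j, z0_dvd rr_z0 (aa_dvd e β k j)⟩
  refine ⟨2 * d + 1, aa e β, haa, ?_⟩
  intro h hconv
  choose s hw using seg_w o e β
  have hseg := conv_seg hCNV hCNS hQ haa (2 * d + 1)
  -- the map `G`
  set ω : Fin d → PS ((Unit ⊕ Fin m) ⊕ Fin d) := fun l =>
    (∑ i, C (lv Q e β l i) * X (Sum.inr i)) + rr * s l with hω
  set G : (Unit ⊕ Fin m) ⊕ Fin d → PS ((Unit ⊕ Fin m) ⊕ Fin d) :=
    Sum.elim (fun u => X (Sum.inl u)) ω with hG
  have hω0 : ∀ l, Z0 (ω l) := by
    intro l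
    unfold Z0
    rw [hω]
    simp only [map_add, map_sum, map_mul, constantCoeff_X, mul_zero, Finset.sum_const_zero,
      zero_add, rr, zero_mul]
  have hωc : ∀ l, Conv (ω l) := by
    intro l
    have h1 := (hseg (Sum.inr l)).1
    rw [hw l] at h1
    exact conv_div h1
  have hG0 : ∀ i, Z0 (G i) := by
    rintro (u | l)
    · exact constantCoeff_X _
    · exact hω0 l
  have hGc : ∀ i, Conv (G i) := by
    rintro (u | l)
    · exact (hCNV.1 ℂ _ hCNV.2 _).2.2.1 _
    · exact hωc l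
  have hlin : ∀ l i, lin (ω l) (Sum.inr i) = lv Q e β l i := by
    intro l i
    unfold lin
    rw [hω]
    dsimp only
    rw [map_add, map_sum, Finset.sum_eq_single i]
    · rw [coeff_C_mul, coeff_index_single_self_X, mul_one, rr, X_def, coeff_monomial_mul,
        if_neg, add_zero]
      intro hle
      have := hle (Sum.inl (Sum.inl ()))
      simp at this
    · intro b _ hb
      rw [coeff_C_mul, coeff_index_single_X, if_neg, mul_zero]
      exact fun h => hb (Sum.inr_injective h).symm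
    · simp
  have hdetG : Matrix.det (Matrix.of fun i j => lin (G i) j) ≠ 0 := by
    have e1 : (Matrix.of fun i j => lin (G i) j) = Matrix.fromBlocks 1 0
        (Matrix.of fun l u => lin (ω l) (Sum.inl u))
        (Matrix.of fun i l : Fin d => ∑ j, ∑ k, co2 (Q l) (Sum.inl j) (Sum.inr (Sum.inl k)) *
          e i j * β i k).transpose := by
      ext i j
      rcases i with i | i <;> rcases j with j | j
      · simp only [Matrix.of_apply, Matrix.fromBlocks_apply₁₁, Matrix.one_apply]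
        rw [hG]
        unfold lin
        simp only [Sum.elim_inl]
        rw [coeff_index_single_X]
        by_cases hij : i = j
        · subst hij
          simp
        · rw [if_neg (fun h => hij (Sum.inl_injective h).symm), if_neg hij]
      · simp only [Matrix.of_apply, Matrix.fromBlocks_apply₁₂, Matrix.zero_apply]
        rw [hG]
        unfold lin
        simp only [Sum.elim_inl]
        rw [coeff_index_single_X, if_neg (by simp)]
      · simp only [Matrix.of_apply, Matrix.fromBlocks_apply₂₁]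
        rfl
      · simp only [Matrix.of_apply, Matrix.fromBlocks_apply₂₂, Matrix.transpose_apply]
        exact hlin i j
    rw [e1, Matrix.det_fromBlocks_zero₁₂, Matrix.det_one, one_mul, Matrix.det_transpose]
    exact hdet
  obtain ⟨b, hb0, hb1, -, hb3⟩ := hINV _ G hG0 hdetG
  have hbs : HasSubst b := hs hb0
  have hbc := hb3 hGc
  have hb_inl : ∀ u, b (Sum.inl u) = X (Sum.inl u) := by
    intro u
    have := hb1 (Sum.inl u)
    rw [hG, Sum.elim_inl, subst_X hbs] at this
    exact this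
  have hb_inr : ∀ l, (ω l).subst b = X (Sum.inr l) := fun l => hb1 (Sum.inr l)
  have hsegs : HasSubst (seg Q (aa e β) (2 * d + 1)) := hs fun i => (hseg i).2
  have hfin : Conv ((h.subst (seg Q (aa e β) (2 * d + 1))).subst b) :=
    hCNS ℂ _ hCNV.2 _ _ _ _ hconv fun i => ⟨hbc i, hb0 i⟩
  rw [subst_comp_subst_apply hsegs hbs] at hfin
  have e2 : (fun i => (seg Q (aa e β) (2 * d + 1) i).subst b) = fun i =>
      (X (Sum.inl (Sum.inl ())) ^ 2 * X ((Sum.elim (fun j => Sum.inl (Sum.inr j)) Sum.inr :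
        Zi m d → (Unit ⊕ Fin m) ⊕ Fin d) i) : PS ((Unit ⊕ Fin m) ⊕ Fin d)) := by
    funext i
    rcases i with j | l
    · have e3 : seg Q (aa e β) (2 * d + 1) (Sum.inl j) = zz e d j := by
        rw [← aa_even e β d]
        rfl
      rw [e3, zz_d, subst_mul hbs, subst_pow hbs, rr, subst_X hbs, subst_X hbs, hb_inl, hb_inl]
      rfl
    · rw [hw l, subst_mul hbs, subst_pow hbs, rr, subst_X hbs, hb_inl]
      have := hb_inr l
      rw [hω] at this
      dsimp only at this
      rw [rr] at this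
      rw [this]
      rfl
  rw [e2] at hfin
  refine conv_of_subst ?_ ?_ hfin
  · rintro (i | i) (j | j) hij
    · simpa using hij
    · simp at hij
    · simp at hij
    · simpa using hij
  · rintro (i | i)
    · simp
    · simp

end Pool.Agent.Lib.MP_2184e2_an.Loc
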