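import Pool.Agent.Lib.MP_2184e2_an.Loc.Seg

/-!
# MP_2184e2_an, local theorem: module IBR (the conjugated relations)
-/

set_option autoImplicit false

namespace Pool.Agent.Lib.MP_2184e2_an.Loc.IbrM

open MvPowerSeries Filter Topology CalM SegM

noncomputable section

variable {m d N : ℕ}

/-- differentiation and renaming by a bijection -/
theorem pderiv_ren {ι κ : Type} [Finite ι] (e : ι ≃ κ) (f : PS ι) (i : ι) :
    pderiv ℂ (e i) (f.subst (fun i => (X (e i) : PS κ))) =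
      (pderiv ℂ i f).subst (fun i => (X (e i) : PS κ)) := by
  classical
  ext n
  obtain ⟨n', rfl⟩ : ∃ n' : ι →₀ ℕ, n = n'.embDomain e.toEmbedding := by
    refine ⟨n.embDomain e.symm.toEmbedding, ?_⟩
    ext k
    have h1 := Finsupp.embDomain_apply_self e.toEmbedding
      (n.embDomain e.symm.toEmbedding) (e.symm k)
    have h2 := Finsupp.embDomain_apply_self e.symm.toEmbedding n k
    simp only [Equiv.coe_toEmbedding, Equiv.apply_symm_apply] at h1 h2
    rw [h1, h2]
  rw [coeff_pderiv]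
  have h1 : n'.embDomain e.toEmbedding + Finsupp.single (e i) 1 =
      (n' + Finsupp.single i 1).embDomain e.toEmbedding := by
    rw [Finsupp.embDomain_add, Finsupp.embDomain_single]
    rfl
  have h2 : (n'.embDomain e.toEmbedding) (e i) = n' i :=
    Finsupp.embDomain_apply_self e.toEmbedding n' i
  have h3 := coeff_ren e.toEmbedding f (n' + Finsupp.single i 1)
  have h4 := coeff_ren e.toEmbedding (pderiv ℂ i f) n'
  rw [h1, h2]
  refine Eq.trans ?_ h4.symm
  rw [coeff_pderiv]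
  congr 1

theorem z0_argH {Q : Fin d → PS (Mi m d)} (hQ : ∀ l, Z0 (Q l)) {H : Fin N → PS (Zi m d)}
    (hH : ∀ j, Z0 (H j)) : ∀ i, Z0 (argH Q H i) :=
  z0_elim (fun j => z0_subst (hH j) (z0_Zc hQ)) (fun j => z0_subst (z0_cj (hH j)) z0_ζc)

/-- `z ↦ χ`, `ζ ↦ (z, Q(z, ζ))` -/
def flipS (Q : Fin d → PS (Mi m d)) : Mi m d → PS (Mi m d) :=
  Sum.elim (fun j => X (Sum.inr (Sum.inl j))) (Zc Q)

theorem z0_flipS {Q : Fin d → PS (Mi m d)} (hQ : ∀ l, Z0 (Q l)) : ∀ i, Z0 (flipS Q i) :=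
  z0_elim (fun _ => z0_X _) (z0_Zc hQ)

theorem z0_cjZc {Q : Fin d → PS (Mi m d)} (hQ : ∀ l, Z0 (Q l)) : ∀ i, Z0 (cj (Zc Q i)) :=
  fun i => z0_cj (z0_Zc hQ i)

/-- `Z̄` becomes `ζ` -/
theorem cjZc_flip {Q : Fin d → PS (Mi m d)} (hQ : IsSeg0 Q) (i : Zi m d) :
    (cj (Zc Q i)).subst (flipS Q) = ζc i := by
  unfold Zc
  rw [cj_pr (fun _ => z0_X _) (fun _ => z0_X _),
    pr_subst (fun _ => by rw [cj_X]; exact z0_X _) (fun _ => by rw [cj_X]; exact z0_X _)
      (z0_flipS hQ.zero)]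
  have e1 : (fun j : Fin m => (cj (X (Sum.inl j) : PS (Mi m d))).subst (flipS Q)) =
      fun j => X (Sum.inr (Sum.inl j)) := by
    funext j
    rw [cj_X, s_X (z0_flipS hQ.zero)]
    rfl
  have e2 : (fun i : Zi m d => (cj (X (Sum.inr i) : PS (Mi m d))).subst (flipS Q)) = Zc Q := by
    funext i
    rw [cj_X, s_X (z0_flipS hQ.zero)]
    rfl
  rw [e1, e2]
  rcases i with j | l
  · rfl
  · exact real' hQ l

/-- `ζ` becomes `Z` -/
theorem ζc_flip {Q : Fin d → PS (Mi m d)} (hQ : IsSeg0 Q) (i : Zi m d) :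
    (cj (ζc i)).subst (flipS Q) = Zc Q i := by
  unfold ζc
  rw [cj_X, s_X (z0_flipS hQ.zero)]
  rfl

end

end Pool.Agent.Lib.MP_2184e2_an.Loc.IbrM

namespace Pool.Agent.Lib.MP_2184e2_an.Loc

open MvPowerSeries CalM SegM IbrM in
/-- IBR: the conjugated relations. -/
theorem specIBR : SpecIBR := by
  intro m d N Q ρ H hQ hρ hH V hV
  have hF := z0_flipS hQ.zero
  have hA := z0_argH hQ.zero hH
  have hZ := z0_Zc hQ.zero
  -- conjugate and flip
  have h1 := congrArg (fun f => (cj f).subst (flipS Q)) hV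
  change (cj (∑ k, (V k).subst (Zc Q) * G1 Q ρ H k)).subst (flipS Q) =
    (cj 0).subst (flipS Q) at h1
  rw [cj_zero, s_zero hF, cj_sum, s_sum hF] at h1
  rw [← h1]
  apply Finset.sum_congr rfl
  intro k _
  rw [cj_mul, subst_mul (hs hF)]
  congr 1
  · rw [cj_subst _ hZ, ss (fun i => z0_cj (hZ i)) hF]
    congr 1
    funext i
    exact (cjZc_flip hQ i).symm
  · unfold G1
    rw [cj_subst _ hA, ss (fun i => z0_cj (hA i)) hF, cj_pderiv]
    have h2 : pderiv ℂ (Sum.inr k) ρ = (pderiv ℂ (Sum.inl k) (cj ρ)).subst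
        (fun i => (X (Equiv.sumComm (Fin N) (Fin N) i) : PS (Fin N ⊕ Fin N))) := by
      rw [← pderiv_ren]
      change _ = pderiv ℂ (Sum.inr k) _
      congr 1
      have hsw : (fun i => (X (Equiv.sumComm (Fin N) (Fin N) i) : PS (Fin N ⊕ Fin N))) =
          Sum.elim (fun j => X (Sum.inr j)) (fun j => X (Sum.inl j)) := by
        funext i
        rcases i with i | i <;> rfl
      rw [hsw]
      exact hρ.real.symm
    rw [h2, ss (fun _ => z0_X _) hA]
    congr 1
    funext i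
    rw [s_X hA]
    rcases i with j | j
    · change (cj (H j)).subst ζc = (cj ((H j).subst (Zc Q))).subst (flipS Q)
      rw [cj_subst _ hZ, ss (fun i => z0_cj (hZ i)) hF]
      congr 1
      funext i
      exact (cjZc_flip hQ i).symm
    · change (H j).subst (Zc Q) = (cj ((cj (H j)).subst ζc)).subst (flipS Q)
      rw [cj_subst _ z0_ζc, cj_cj, ss (fun i => z0_cj (z0_ζc i)) hF]
      congr 1
      funext i
      exact (ζc_flip hQ i).symm

end Pool.Agent.Lib.MP_2184e2_an.Loc
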