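import Pool.Agent.Lib.MP_2184e2_an.Loc.Cal

/-!
# MP_2184e2_an, local theorem: the complexification (shared lemmas of EXTR IBR ANN POS)
-/

set_option autoImplicit false

namespace Pool.Agent.Lib.MP_2184e2_an.Loc.SegM

open MvPowerSeries Filter Topology CalM

noncomputable section

variable {m d : ℕ} {T : Type}

theorem z0_pr [Finite T] {Q : Fin d → PS (Mi m d)} (hQ : ∀ l, Z0 (Q l)) {a : Fin m → PS T}
    {b : Zi m d → PS T} (ha : ∀ j, Z0 (a j)) (hb : ∀ i, Z0 (b i)) : ∀ i, Z0 (pr Q a b i) := by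
  rintro (j | l)
  · exact ha j
  · exact z0_subst (hQ l) (z0_elim ha hb)

theorem z0_cjQ {Q : Fin d → PS (Mi m d)} (hQ : ∀ l, Z0 (Q l)) : ∀ l, Z0 (cjQ Q l) :=
  fun l => z0_cj (hQ l)

/-- `pr` and substitution -/
theorem pr_subst [Finite T] {υ : Type} {Q : Fin d → PS (Mi m d)}
    {a : Fin m → PS T} {b : Zi m d → PS T} (ha : ∀ j, Z0 (a j)) (hb : ∀ i, Z0 (b i))
    {c : T → PS υ} (hc : ∀ i, Z0 (c i)) (i : Zi m d) :
    (pr Q a b i).subst c = pr Q (fun j => (a j).subst c) (fun i => (b i).subst c) i := by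
  rcases i with j | l
  · rfl
  · change ((Q l).subst (Sum.elim a b)).subst c = (Q l).subst (Sum.elim _ _)
    rw [ss (z0_elim ha hb) hc]
    congr 1
    funext i
    rcases i with i | i <;> rfl

/-- `pr` and conjugation -/
theorem cj_pr {Q : Fin d → PS (Mi m d)}
    {a : Fin m → PS T} {b : Zi m d → PS T} (ha : ∀ j, Z0 (a j)) (hb : ∀ i, Z0 (b i))
    (i : Zi m d) :
    cj (pr Q a b i) = pr (cjQ Q) (fun j => cj (a j)) (fun i => cj (b i)) i := by
  rcases i with j | l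
  · rfl
  · change cj ((Q l).subst (Sum.elim a b)) = (cj (Q l)).subst (Sum.elim _ _)
    rw [cj_subst _ (z0_elim ha hb)]
    congr 1
    funext i
    rcases i with i | i <;> rfl

theorem cjQ_cjQ (Q : Fin d → PS (Mi m d)) : cjQ (cjQ Q) = Q := by
  funext l
  exact cj_cj _

theorem z0_Zc {Q : Fin d → PS (Mi m d)} (hQ : ∀ l, Z0 (Q l)) : ∀ i, Z0 (Zc Q i) :=
  z0_pr hQ (fun _ => z0_X _) (fun _ => z0_X _)

theorem z0_ζc : ∀ i, Z0 (ζc (m := m) (d := d) i) := fun _ => z0_X _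

/-- reality, conjugated: `Q̄(χ, z, Q(z, ζ)) = τ` -/
theorem real' {Q : Fin d → PS (Mi m d)} (hQ : IsSeg0 Q) (l : Fin d) :
    (cj (Q l)).subst (Sum.elim (fun j => (X (Sum.inr (Sum.inl j)) : PS (Mi m d))) (Zc Q)) =
      X (Sum.inr (Sum.inr l)) := by
  have hz : ∀ i, Z0 (pr (cjQ Q) (fun j => (X (Sum.inr j) : PS (Zi m d ⊕ Fin m)))
      (fun i => X (Sum.inl i)) i) :=
    z0_pr (z0_cjQ hQ.zero) (fun _ => z0_X _) (fun _ => z0_X _)
  have hE := z0_elim (fun j : Fin m => z0_X (Sum.inl (Sum.inl j) : Zi m d ⊕ Fin m)) hz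
  have h1 := congrArg cj (hQ.real l)
  rw [cj_subst _ hE, cj_X] at h1
  let σ : Zi m d ⊕ Fin m → PS (Mi m d) :=
    Sum.elim (fun i => X (Sum.inr i)) (fun j => X (Sum.inl j))
  have hσ : ∀ i, Z0 (σ i) := z0_elim (fun _ => z0_X _) (fun _ => z0_X _)
  have h2 := congrArg (fun f => f.subst σ) h1
  rw [s_X hσ, ss (fun i => z0_cj (hE i)) hσ] at h2
  change _ = (X (Sum.inr (Sum.inr l)) : PS (Mi m d)) at h2
  rw [← h2]
  congr 1
  funext i
  rcases i with j | i
  · simp only [Sum.elim_inl]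
    rw [cj_X, s_X hσ]
    rfl
  · simp only [Sum.elim_inr]
    rw [cj_pr (fun _ => z0_X _) (fun _ => z0_X _), cjQ_cjQ,
      pr_subst (fun _ => by rw [cj_X]; exact z0_X _) (fun _ => by rw [cj_X]; exact z0_X _) hσ]
    have e1 : (fun j : Fin m => (cj (X (Sum.inr j) : PS (Zi m d ⊕ Fin m))).subst σ) =
        fun j => X (Sum.inl j) := by
      funext j
      rw [cj_X, s_X hσ]
      rfl
    have e2 : (fun i : Zi m d => (cj (X (Sum.inl i) : PS (Zi m d ⊕ Fin m))).subst σ) =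
        fun i => X (Sum.inr i) := by
      funext i
      rw [cj_X, s_X hσ]
      rfl
    rw [e1, e2]
    rfl

end

end Pool.Agent.Lib.MP_2184e2_an.Loc.SegM
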