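import Pool.Agent.Lib.MP_2184e2_an.Loc.Defs

/-!
# MP_2184e2_an, local theorem: base modules (power series)

Each `SpecXXX` is one module; the docstring contains the proof.  A module file
`Loc/XXX.lean` proves `theorem specXXX (h… : Spec…) : SpecXXX`, importing this file only (or the
later Spec files), with the Specs named in the docstring as hypotheses.
-/

set_option autoImplicit false

namespace Pool.Agent.Lib.MP_2184e2_an.Loc

open MvPowerSeries Filter Topology
open scoped ContDiff LaurentPolynomial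

noncomputable section

/-- coefficientwise application of an additive map -/
def mapA {S ι : Type} [CommRing S] (T : S →+ S) (f : MvPowerSeries ι S) : MvPowerSeries ι S :=
  fun n => T (coeff n f)

/-- truncation with respect to the degree in the second group of variables -/
def trS {ι ν : Type} (J : ℕ) (f : PS (ι ⊕ ν)) : PS (ι ⊕ ν) :=
  fun n => if (n.comapDomain Sum.inr Sum.inr_injective.injOn).degree ≤ J then coeff n f else 0

/-- the inclusion of the first group of variables -/
def iL {ι ν : Type} : ι → PS (ι ⊕ ν) := fun i => X (Sum.inl i)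

/-- the inclusion of the second group of variables -/
def iR {ι ν : Type} : ν → PS (ι ⊕ ν) := fun i => X (Sum.inr i)

/-- **CNV** (closure properties of `ConvN`).

Proof. `N 0 = 0` and `N 1 ≤ 1` by `alg`; `N (k • a) ≤ k N a` for `k : ℕ` by `add`.  The constant `C`
can be enlarged, so assume the same `C ≥ 1` for `f` and `g`.  Sum: `2 C^(k+1) ≤ (2C)^(k+1)`.
Product: the coefficient `n` is a sum over the antidiagonal, which has
`∏ (n_i + 1) ≤ ∏ 2^(n_i) = 2^(deg n)` elements, each of size `≤ C^(deg n + 2)`, so the bound is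
`(2 C^2)^(deg n + 1)`.  Derivative: `(n_i + 1) C^(deg n + 2) ≤ (2 C^2)^(deg n + 1)`.  The last
statement: `N = ‖·‖` on `ℂ` is submultiplicative. -/
def SpecCNV : Prop :=
  (∀ (S : Type) [CommRing S] [Algebra ℂ S] (N : S → ℝ), IsNm N → ∀ (ι : Type) [Finite ι],
    (∀ f g : MvPowerSeries ι S, ConvN N f → ConvN N g →
      ConvN N (f + g) ∧ ConvN N (f * g) ∧ ConvN N (-f) ∧ ConvN N (f - g)) ∧
    (∀ c : S, ConvN N (C c : MvPowerSeries ι S)) ∧
    (∀ i : ι, ConvN N (X i : MvPowerSeries ι S)) ∧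
    (∀ (f : MvPowerSeries ι S) (i : ι), ConvN N f → ConvN N (pderiv S i f))) ∧
  IsNm (fun c : ℂ => ‖c‖)

/-- **CNS** (substitution preserves convergence).

Proof.  Weighted norms.  For `R > 0` and `f : MvPowerSeries ι S` let
`w_R(f) = ∑_n N(f_n) R^(deg n) ∈ [0, ∞]` (use `ℝ≥0∞` and `tsum`, or bounded finite partial sums).
(1) `ConvN N f ↔ ∃ R > 0, w_R(f) < ∞`: if `N(f_n) ≤ C^(deg n + 1)`, then for `R < 1/(2C)` one has
`∑_n C (CR)^(deg n) = C ∏_i 1/(1 - CR) < ∞` (`ι` finite); conversely `N(f_n) ≤ w_R(f) R^(-deg n)`.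
(2) `w_R(f + g) ≤ w_R(f) + w_R(g)` and `w_R(f g) ≤ w_R(f) w_R(g)`.
(3) If `f` has no constant term and `w_{R₀}(f) < ∞` then `w_R(f) ≤ (R/R₀) w_{R₀}(f)` for `R ≤ R₀`;
so `w_R(f) → 0` for `R → 0`.
(4) `coeff n (f.subst a) = ∑_m f_m • coeff n (∏ a_i^(m_i))`, a sum with finitely many nonzero terms
(`deg m ≤ deg n`; `MvPowerSeries.coeff_subst`), so
`N(coeff n (f.subst a)) ≤ ∑_m |f_m| N(coeff n (a^m))` (note `c • s = algebraMap c * s`) and
`w_R(f.subst a) ≤ ∑_m |f_m| ∏ w_R(a_i)^(m_i)`, which is finite when all `w_R(a_i) ≤ ρ` and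
`w_ρ(f) < ∞` (norm of `ℂ`). -/
def SpecCNS : Prop :=
  ∀ (S : Type) [CommRing S] [Algebra ℂ S] (N : S → ℝ), IsNm N →
    ∀ (κ ι : Type) [Finite κ] [Finite ι] (f : PS κ) (a : κ → MvPowerSeries ι S), Conv f →
    (∀ i, ConvN N (a i) ∧ Z0 (a i)) → ConvN N (f.subst a)

/-- **CHN** (chain rule for substitution).

Proof.  Both sides are additive in `f` and satisfy the Leibniz rule (twisted by `f ↦ f.subst a`);
they agree for constants and for variables, hence for polynomials.  For general `f` compare the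
coefficient `n` of both sides: modify `f` by terms of degree `> deg n + 1`, which changes neither
side (`a` has no constant term: `MvPowerSeries.truncTotal_subst…` in Mathlib or
`coeff_subst` directly), so that `f` is a polynomial. -/
def SpecCHN : Prop :=
  ∀ (S : Type) [CommRing S] [Algebra ℂ S] (κ ι : Type) [Fintype κ] [Finite ι] (f : PS κ)
    (a : κ → MvPowerSeries ι S), (∀ i, Z0 (a i)) → ∀ j : ι,
    pderiv S j (f.subst a) = ∑ i, (pderiv ℂ i f).subst a * pderiv S j (a i)

/-- **FIX** (a fixed point theorem with convergence; it is used for the implicit function theorem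
and for the Bishop equation).

Proof.  Formally: the coefficient `n` of `mapA T ((F i).subst (Sum.elim a y))` depends only on the
coefficients of `y` of degree `< deg n`: indeed `F_i = ∑ F_{i,αβ} a^α y^β` and the terms with
`β ≠ 0` have `|α| + |β| ≥ 2` (hypothesis on the linear coefficients), so that each coefficient of
`y` of degree `k` occurs multiplied by a product of series without constant term.  More precisely:
if `y ≡ y'` in degrees `≤ k` (both without constant term) then
`F(a, y) ≡ F(a, y')` in degrees `≤ k + 1`.  Hence uniqueness (induction on the degree), and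
existence: `y^(0) = 0`, `y^(k+1) = T F(a, y^(k))`; then `y^(k+1) ≡ y^(k)` in degrees `≤ k`, and
the limit `y` (coefficient `n` of `y` := coefficient `n` of `y^(deg n)`) is a solution.
Convergence, if `F_i` and `a_k` are convergent (`w_R` as in CNS; reprove (1)-(4) of CNS here, they
are short): let
`Φ(s, t) = max_i ∑ |F_{i,αβ}| s^|α| t^|β|`, finite for `s, t ≤ ρ`, and
`Φ(s, t) ≤ K (s + (s + t)^2)` for `s, t ≤ ρ`, as there is neither a constant term nor a linear term
in `t`.  Let `A = max_i w_R(a_i)`, which tends to `0` for `R → 0`.  We may assume `B, K ≥ 1`.  Take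
`δ ≤ ρ` with `8 B K δ ≤ 1` and then `R` with `A ≤ δ/(2BK)` and `A ≤ δ`.  If all `w_R(y^(k)_i) ≤ δ`
then `w_R(y^(k+1)_i) ≤ B K (A + 4 δ^2) ≤ δ/2 + δ/2 = δ`.  A finite partial sum of `w_R(y_i)` over
degrees `≤ k` is a partial sum for `y^(k)`, hence `≤ δ`: so `w_R(y_i) ≤ δ` and `y_i` is `ConvN`. -/
def SpecFIX : Prop :=
  ∀ (S : Type) [CommRing S] [Algebra ℂ S] (N : S → ℝ), IsNm N → ∀ (T : S →+ S) (B : ℝ),
    (∀ s, N (T s) ≤ B * N s) →
    ∀ (κ ι : Type) [Finite κ] [Finite ι] (r : ℕ) (F : Fin r → PS (κ ⊕ Fin r)),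
    (∀ i, Z0 (F i)) → (∀ i j, lin (F i) (Sum.inr j) = 0) →
    ∀ a : κ → MvPowerSeries ι S, (∀ k, Z0 (a k)) →
    (∃ y : Fin r → MvPowerSeries ι S, (∀ i, Z0 (y i)) ∧
      (∀ i, y i = mapA T ((F i).subst (Sum.elim a y))) ∧
      ((∀ i, Conv (F i)) → (∀ k, ConvN N (a k)) → ∀ i, ConvN N (y i))) ∧
    ∀ y y' : Fin r → MvPowerSeries ι S, (∀ i, Z0 (y i)) → (∀ i, Z0 (y' i)) →
      (∀ i, y i = mapA T ((F i).subst (Sum.elim a y))) →
      (∀ i, y' i = mapA T ((F i).subst (Sum.elim a y'))) → y = y'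

/-- **IFT** (convergent implicit function theorem; any formal solution is the convergent one).

Proof (from FIX with `S = ℂ`, `N = ‖·‖`, `T = id`, `B = 1`, and CNV for `IsNm ‖·‖`).  Let
`A = (lin (G i) (inr j))_{ij}`, invertible, and `F_i(x, y) = y_i - ∑_k (A⁻¹)_{ik} G_k(x, y)`: it is
convergent, has no constant term and no linear term in `y`, and `G(x, y) = 0 ↔ y = F(x, y)`.  FIX
with `a = X` gives `Ψ`.  For the last part: `Ψ.subst c` and `u` are both solutions of
`y = F(c, y)`, so they agree by the uniqueness part of FIX (`a = c`). -/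
def SpecIFT : Prop :=
  ∀ (κ : Type) [Finite κ] (r : ℕ) (G : Fin r → PS (κ ⊕ Fin r)), (∀ i, Conv (G i) ∧ Z0 (G i)) →
    Matrix.det (Matrix.of fun i j => lin (G i) (Sum.inr j)) ≠ 0 →
    ∃ Ψ : Fin r → PS κ, (∀ i, Conv (Ψ i) ∧ Z0 (Ψ i)) ∧
      (∀ i, (G i).subst (Sum.elim (fun k => (X k : PS κ)) Ψ) = 0) ∧
      ∀ (T : Type) [Finite T] (c : κ → PS T) (u : Fin r → PS T), (∀ k, Z0 (c k)) →
        (∀ i, Z0 (u i)) → (∀ i, (G i).subst (Sum.elim c u) = 0) → ∀ i, u i = (Ψ i).subst c

/-- **INV** (convergent inverse function theorem).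

Proof (from FIX, CNV).  Reindex `κ ≃ Fin r`.  Let `A` be the matrix of linear coefficients and
`F_i(x, y) = y_i - ∑_k (A⁻¹)_{ik} (a_k(y) - x_k)`; the fixed point `b` (`S = ℂ`, `T = id`, `a = X`)
satisfies `a(b(x)) = x`, and is convergent if `a` is.  Left inverse: `b(a(x))` and `x` are both
fixed points of `y = F(a(x), y)`, so `b(a(x)) = x` by the uniqueness part of FIX. -/
def SpecINV : Prop :=
  ∀ (κ : Type) [Fintype κ] [DecidableEq κ] (a : κ → PS κ), (∀ i, Z0 (a i)) →
    Matrix.det (Matrix.of fun i j => lin (a i) j) ≠ 0 →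
    ∃ b : κ → PS κ, (∀ i, Z0 (b i)) ∧ (∀ i, (a i).subst b = X i) ∧ (∀ i, (b i).subst a = X i) ∧
      ((∀ i, Conv (a i)) → ∀ i, Conv (b i))

/-- **SCR** (the ring `ℂ{x}[[s]]`).

Proof.  `part b (f + g) = part b f + part b g`, `part b (f g) = ∑_{b' + b'' = b} part b' f part b'' g`
(finite sum), and CNV for the closure properties.  `part b (pderiv (inl i) f) = pderiv i (part b f)`,
`part b (pderiv (inr j) f) = (b_j + 1) part (b + e_j) f`.  If `f` is convergent then
`|coeff a (part b f)| ≤ C^(|a| + |b| + 1)`, so all parts are convergent.  For `f.subst iL` only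
`part 0` is nonzero, and equal to `f`; for `f.subst iR` all parts are constants.  Truncations:
`SC f` implies that `trS J f` is convergent, since only finitely many `b` with `|b| ≤ J` occur
(`ν` finite; the maximum of the finitely many constants works); conversely
`part b f = part b (trS |b| f)`. -/
def SpecSCR : Prop :=
  ∀ (ι ν : Type) [Finite ι] [Finite ν],
    (∀ f g : PS (ι ⊕ ν), SC f → SC g → SC (f + g) ∧ SC (f * g) ∧ SC (-f) ∧ SC (f - g)) ∧
    (∀ c : ℂ, SC (C c : PS (ι ⊕ ν))) ∧ SC (0 : PS (ι ⊕ ν)) ∧ SC (1 : PS (ι ⊕ ν)) ∧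
    (∀ i : ι ⊕ ν, SC (X i : PS (ι ⊕ ν))) ∧
    (∀ (f : PS (ι ⊕ ν)) (i : ι ⊕ ν), SC f → SC (pderiv ℂ i f)) ∧
    (∀ f : PS (ι ⊕ ν), Conv f → SC f) ∧
    (∀ f : PS ι, Conv f → SC (f.subst (iL : ι → PS (ι ⊕ ν)))) ∧
    (∀ f : PS ν, SC (f.subst (iR : ν → PS (ι ⊕ ν)))) ∧
    (∀ f : PS (ι ⊕ ν), SC f ↔ ∀ J, Conv (trS J f)) ∧
    (∀ (f : PS (ι ⊕ ν)) (J : ℕ) (b : ν →₀ ℕ), b.degree ≤ J → part b (trS J f) = part b f) ∧
    (∀ f g : PS (ι ⊕ ν), (∀ b, part b f = part b g) → f = g)

/-- **SCS** (substitution in `ℂ{x}[[s]]`).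

Proof.  Fix `β` with `|β| = J` and let `I` be the ideal of `PS (κ ⊕ μ)` of all series whose parts of
order `≤ J` vanish (`f ∈ I ↔ trS J f = 0`; it is an ideal since
`part c (f g) = ∑ part c' f part c'' g`).  Modulo `I`: `a_i ≡ trS J a_i`, `b_j ≡ trS J b_j` and
`F(a, b) ≡ (trS J F)(a, b)`, because every monomial of `F - trS J F` has degree `> J` in the second
variables and each `b_j` has no part of order `0`; and `G(a, b) ≡ G(a', b')` if `a ≡ a'`, `b ≡ b'`
modulo `I` (for monomials clear, and then coefficientwise: a coefficient of `G(a, b)` involves only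
finitely many monomials of `G`).  So
`part β (F(a, b)) = part β ((trS J F)(trS J a, trS J b))`, and the right hand side is convergent by
SCR and CNS (with `S = ℂ`).  The other two statements are the special cases where `ν`, respectively
`ι`, is empty (use `PEmpty`, or repeat the argument). -/
def SpecSCS : Prop :=
  (∀ (ι ν κ μ : Type) [Finite ι] [Finite ν] [Finite κ] [Finite μ] (F : PS (ι ⊕ ν))
    (a : ι → PS (κ ⊕ μ)) (b : ν → PS (κ ⊕ μ)), SC F → (∀ i, SC (a i) ∧ Z0 (a i)) →
    (∀ j, SC (b j) ∧ part 0 (b j) = 0) → SC (F.subst (Sum.elim a b))) ∧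
  (∀ (ι κ μ : Type) [Finite ι] [Finite κ] [Finite μ] (F : PS ι) (a : ι → PS (κ ⊕ μ)), Conv F →
    (∀ i, SC (a i) ∧ Z0 (a i)) → SC (F.subst a)) ∧
  (∀ (ν κ μ : Type) [Finite ν] [Finite κ] [Finite μ] (F : PS ν) (b : ν → PS (κ ⊕ μ)),
    (∀ j, SC (b j) ∧ part 0 (b j) = 0) → SC (F.subst b))

/-- **LSE** (choice of `n` independent equations).

Proof.  Work over the field of fractions `K` of `D`: if the rows `A i ∈ K^n` do not span `K^n`,
there is a nonzero vector `W` of `K^n` with `∑ A i k W k = 0` for all `i` (a nonzero functional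
vanishing on the span); clear denominators to get a nonzero vector in `D^n`, contradiction.  So
they span, and a basis of `K^n` can be chosen among them; its determinant is nonzero. -/
def SpecLSE : Prop :=
  ∀ (D : Type) [CommRing D] [IsDomain D] (n : ℕ) (ι : Type) (A : ι → Fin n → D),
    (∀ W : Fin n → D, (∀ i, ∑ k, A i k * W k = 0) → W = 0) →
    ∃ s : Fin n → ι, Matrix.det (Matrix.of fun i k => A (s i) k) ≠ 0

/-- **LDE** (descent of solutions to a subring).

Proof.  `S` is a domain; let `L ⊆ K` be the fields of fractions of `S` and `D`.  If the system had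
no nonzero solution in `S^n`, it would have none in `L^n` (clear denominators), so the rows `A i`
span `L^n` and by the argument of LSE some `n × n` minor is nonzero (apply LSE to the domain `S`).
Then the square system with nonzero determinant has only the zero solution in `D^n` (multiply by
the adjugate matrix), contradiction to `x ≠ 0`. -/
def SpecLDE : Prop :=
  ∀ (D : Type) [CommRing D] [IsDomain D] (S : Subring D) (n : ℕ) (ι : Type) (A : ι → Fin n → D),
    (∀ i k, A i k ∈ S) → ∀ x : Fin n → D, x ≠ 0 → (∀ i, ∑ k, A i k * x k = 0) →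
    ∃ y : Fin n → D, y ≠ 0 ∧ (∀ k, y k ∈ S) ∧ ∀ i, ∑ k, A i k * y k = 0

end

end Pool.Agent.Lib.MP_2184e2_an.Loc
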