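import Pool.Agent.Lib.MP_2184e2_an.Loc.SpecA

/-!
# MP_2184e2_an, local theorem: geometric modules

`V = ℂⁿ`, `M` a real-analytic CR submanifold, `p ∈ M`, `K = T_p M`, `T^c = K ∩ iK`.
-/

set_option autoImplicit false

namespace Pool.Agent.Lib.MP_2184e2_an.Loc

open MvPowerSeries Filter Topology Set
open scoped ContDiff ComplexConjugate

noncomputable section

/-- the real coordinates `(Re z, Im z, Re w)` -/
def rc {m d : ℕ} (Z : Zi m d → ℂ) : Ki m d → ℝ :=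
  Sum.elim (Sum.elim (fun j => (Z (Sum.inl j)).re) (fun j => (Z (Sum.inl j)).im))
    (fun l => (Z (Sum.inr l)).re)

/-- **TAN** (tangent spaces of a regular zero set).

Proof.  `ρ` from the definition of `IsAnalyticSubmanifold`; `fderiv ℝ ρ w` is onto for `w` near `p`,
and for `w ∈ M` near `p` the set `M` is `{ρ = 0}` near `w`.  `⊆`: `fderiv_tangent` (Levi.lean).
`⊇`: let `fderiv ℝ ρ w v = 0`; by the implicit function theorem
(`HasStrictFDerivAt.implicitFunction` or the inverse function theorem for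
`u ↦ (ρ(u), pr(u - w))`, `pr` a projection onto the kernel) there is a curve `γ` with `ρ ∘ γ = 0`
near `0`, `γ(0) = w`, `γ'(0) = v`; modify it away from `0` and use `mem_tangent_of_curve`
(Levi.lean).  Dimension: rank-nullity over `ℝ`, `finrank ℝ ℂⁿ = 2n`. -/
def SpecTAN : Prop :=
  ∀ (n c : ℕ) (M : Set (Fin n → ℂ)), IsAnalyticSubmanifold c M → ∀ p ∈ M,
    ∃ ρ : (Fin n → ℂ) → (Fin c → ℝ), AnalyticAt ℝ ρ p ∧ Function.Surjective (fderiv ℝ ρ p) ∧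
      (∀ᶠ w in 𝓝 p, (w ∈ M ↔ ρ w = 0)) ∧
      (∀ᶠ w in 𝓝[M] p, ∀ v, v ∈ tangent M w ↔ fderiv ℝ ρ w v = 0) ∧
      Module.finrank ℝ (tangent M p) + c = 2 * n

/-- **PARL** (linear algebra).

Proof.  `Tc = K ∩ iK` is a complex subspace, `dim_ℂ Tc = m`, so `dim_ℝ K/Tc = d := dim_ℝ K - 2m`.
Let `e_1, …, e_m` be a complex basis of `Tc` and `f_1, …, f_d ∈ K` a real basis modulo `Tc`.  They are
linearly independent over `ℂ`: if `∑ (α_j + iβ_j) f_j ∈ Tc`, `a = ∑ α_j f_j`, `b = ∑ β_j f_j` in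
`K`, then `a + ib ∈ Tc`, so `ib ∈ K`, `b ∈ K ∩ iK = Tc`, `β = 0`, then `a ∈ Tc`, `α = 0`.  Let
`π : V → ℂ^(m+d)` be a complex linear map with `π e_j = ` unit vector `z_j`, `π f_l = ` unit vector
`w_l` (left inverse of an injective map).  `K = Tc ⊕ ⟨f⟩_ℝ` is mapped bijectively onto
`ℂ^m × ℝ^d`. -/
def SpecPARL : Prop :=
  ∀ (n m : ℕ) (K : Submodule ℝ (Fin n → ℂ)) (Tc : Submodule ℂ (Fin n → ℂ)),
    (∀ v, v ∈ Tc ↔ v ∈ K ∧ Complex.I • v ∈ K) → Module.finrank ℂ Tc = m →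
    ∃ d : ℕ, Module.finrank ℝ K = 2 * m + d ∧ ∃ π : (Fin n → ℂ) →L[ℂ] (Zi m d → ℂ),
      (∀ v ∈ K, ∀ l, (π v (Sum.inr l)).im = 0) ∧ (∀ v ∈ Tc, ∀ l, π v (Sum.inr l) = 0) ∧
      (∀ a : Fin m → ℂ, ∃ v ∈ Tc, π v = Sum.elim a 0) ∧ (∀ v ∈ K, π v = 0 → v = 0) ∧
      ∀ (a : Fin m → ℂ) (s : Fin d → ℝ), ∃ v ∈ K, π v = Sum.elim a fun l => (s l : ℂ)

/-- a local parametrization of `M` near `p` over a graph -/
structure IsPar {n : ℕ} (M : Set (Fin n → ℂ)) (p : Fin n → ℂ) {m d : ℕ}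
    (π : (Fin n → ℂ) →L[ℂ] (Zi m d → ℂ)) (φ : Fin d → PS (Ki m d))
    (σ : (Ki m d → ℝ) → (Fin n → ℂ)) : Prop where
  phi : IsPhi φ
  ana : AnalyticAt ℝ σ 0
  zero : σ 0 = p
  mem : ∀ᶠ x in 𝓝 (0 : Ki m d → ℝ), σ x ∈ M
  graph : ∀ᶠ x in 𝓝 (0 : Ki m d → ℝ), π (σ x - p) = Zm φ x
  surj : ∀ᶠ w in 𝓝[M] p, σ (rc (π (w - p))) = w
  rng : ∀ᶠ x in 𝓝 (0 : Ki m d → ℝ), ∀ v, v ∈ tangent M (σ x) ↔ ∃ k, fderiv ℝ σ x k = v
  tan : ∀ v ∈ tangent M p, ∀ l, (π v (Sum.inr l)).im = 0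
  ctan : ∀ v ∈ ctangent M p, ∀ l, π v (Sum.inr l) = 0
  onto : ∀ a : Fin m → ℂ, ∃ v ∈ ctangent M p, π v = Sum.elim a 0
  inj : ∀ v ∈ tangent M p, π v = 0 → v = 0
  onto2 : ∀ (a : Fin m → ℂ) (s : Fin d → ℝ), ∃ v ∈ tangent M p, π v = Sum.elim a fun l => (s l : ℂ)

/-- **PARA** (parametrizations exist).

Proof (uses TAN, PARL, RAP, EVA).  `π` from PARL for `K = tangent M p`, `Tc = ctangent M p`; by TAN
`2n = c + 2m + d`.  `Φ(w) = (ρ(w), rc (π (w - p)))` is analytic at `p` and its differential is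
injective: `Dρ v = 0` gives `v ∈ K`, then `π v` has real `w`-components, and `rc (π v) = 0` gives
`π v = 0`, `v = 0`; the dimensions agree, so it is bijective and `Φ` has a local inverse, analytic
at `(0, 0)` (`OpenPartialHomeomorph.hasFPowerSeriesAt_symm`).  `σ(x) = Φ⁻¹(0, x)`: so `σ 0 = p`,
`σ x ∈ M`, `rc (π (σ x - p)) = x`, and `w = σ(rc(π(w - p)))` for `w ∈ M` near `p`.  `rng`:
`ρ ∘ σ = 0` gives `range Dσ(x) ⊆ ker Dρ = tangent M (σ x)`; `Dσ(x)` is injective (`rc ∘ π ∘ Dσ = id`)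
and both spaces have dimension `2m + d`.  `φ_l` is the power series (RAP) of the real analytic
function `x ↦ Im (π(σ x - p))_l`; it is real (`cj φ = φ`, by EVA) with zero constant term and zero
linear terms, since `Dσ(0)` has values in `K` and `π(K)` has real `w`-components. -/
def SpecPARA : Prop :=
  ∀ (n c m : ℕ) (M : Set (Fin n → ℂ)), IsCRSubmanifold c m M → ∀ p ∈ M,
    ∃ (d : ℕ) (π : (Fin n → ℂ) →L[ℂ] (Zi m d → ℂ)) (φ : Fin d → PS (Ki m d))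
      (σ : (Ki m d → ℝ) → (Fin n → ℂ)), 2 * n = c + 2 * m + d ∧ IsPar M p π φ σ

/-- **PARC** (the parametrization is CR).

Proof (uses EVA).  For `x` near `0` let `A_x(c) = ∑_k c_k ∂_k σ(x) ∈ V`, `c ∈ ℂ^(2m+d)`, and
`B_x = π ∘ A_x`, `B_x(c) = ∑ c_k ∂_k (Zm φ)(x)` (differentiate `graph`, which holds near `0`).
`ker A_x ⊆ ker B_x`.  `B_0` is onto (`∂Z/∂x = 1`, `∂Z/∂s = 1` at `0`), hence so is `B_x` for `x` near
`0`, and `dim_ℂ ker B_x = (2m + d) - (m + d) = m`.  For `c = a + ib ∈ ker A_x` (`a, b` real):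
`Dσ(a) = -i Dσ(b)`, so `Dσ(b) ∈ T^c_{σ(x)} M` (`rng`; `T^c` is closed under multiplication by `i`);
the real linear map `ker A_x → T^c`, `c ↦ Dσ(b)` is injective (`Dσ(x)` is injective, because
`rc ∘ π ∘ Dσ(x) = id`: real parts of the derivatives of `graph`) and onto (for `v ∈ T^c`,
`v = Dσ(b)`, `-iv = Dσ(a)`).  So `dim_ℂ ker A_x = dim_ℂ T^c_{σ(x)} M = m`, and
`ker A_x = ker B_x`.  This is the assertion. -/
def SpecPARC : Prop :=
  ∀ (n c m d : ℕ) (M : Set (Fin n → ℂ)) (p : Fin n → ℂ) (π : (Fin n → ℂ) →L[ℂ] (Zi m d → ℂ))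
    (φ : Fin d → PS (Ki m d)) (σ : (Ki m d → ℝ) → (Fin n → ℂ)), IsCRSubmanifold c m M → p ∈ M →
    IsPar M p π φ σ →
    ∀ᶠ x in 𝓝 (0 : Ki m d → ℝ), ∀ k, CRat (Zm φ) (fun y => σ y k) x

/-- **LEVD** (the Levi form in terms of a defining function).

Proof.  Mathlib: `lieBracket V W x = fderiv W x (V x) - fderiv V x (W x)`.  So
`[X, iX] = i DX(X) - DX(iX)` and `i[X, iX] = -DX(X) - i DX(iX)` at `p`.  On `M` near `p`,
`fderiv r w (X w) = 0` and `fderiv r w (i X w) = 0`, since `X w, i X w ∈ tangent M w` and `r = 0`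
on `M` near `w` (`fderiv_tangent`).  Differentiate these functions at `p` in the direction
`X p ∈ tangent M p`, respectively `i X p` (`fderiv_tangent` again):
`D²r(X, X) + dr(DX(X)) = 0`, `D²r(iX, iX) + dr(i DX(iX)) = 0`.  Add. -/
def SpecLEVD : Prop :=
  ∀ (n : ℕ) (M : Set (Fin n → ℂ)) (p : Fin n → ℂ), p ∈ M → ∀ r : (Fin n → ℂ) → ℝ,
    ContDiffAt ℝ ∞ r p → (∀ᶠ w in 𝓝[M] p, r w = 0) →
    ∀ X : (Fin n → ℂ) → (Fin n → ℂ), ContDiffAt ℝ ∞ X p →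
    (∀ᶠ w in 𝓝[M] p, X w ∈ ctangent M w) →
    fderiv ℝ r p (Complex.I • VectorField.lieBracket ℝ X (fun w => Complex.I • X w) p) =
      fderiv ℝ (fderiv ℝ r) p (X p) (X p) +
        fderiv ℝ (fderiv ℝ r) p (Complex.I • X p) (Complex.I • X p)

/-- **LEVF** (the Levi form of a graph).

Proof (uses LEVD, EVA).  Fix `l` and let `r(w) = Im (π(w - p))_l - Re ev φ_l (rl (rc (π(w - p))))`
(`l` a `w`-index), smooth near `p`.  It vanishes on `M` near `p` (`surj`, `graph`: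
`w = σ(x)`, `x = rc(π(w-p))`, `π(w - p) = Zm φ x`).  LEVD with `X` from `IsLevi`.  Left side:
`dr_p(i b) = Im (i π b)_l = Re (π b)_l`, as `φ` has no linear terms.  Right side: for
`v ∈ ctangent M p`, `π v = (a, 0)`, `rc (π v) = (Re a, Im a, 0)`, and
`D²r(v, v) = -D²φ_l(rc π v, rc π v) = -2 qd φ a l` (the coefficient of `t²` of
`φ_l(t Re a, t Im a, 0)` is `qd φ a l`), similarly for `iv` with `ia`; the sum is
`-2 qd φ a l - 2 qd φ (ia) l = -4 lev φ a l`. -/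
def SpecLEVF : Prop :=
  ∀ (n m d : ℕ) (M : Set (Fin n → ℂ)) (p : Fin n → ℂ) (π : (Fin n → ℂ) →L[ℂ] (Zi m d → ℂ))
    (φ : Fin d → PS (Ki m d)) (σ : (Ki m d → ℝ) → (Fin n → ℂ)), p ∈ M → IsPar M p π φ σ →
    ∀ v ∈ ctangent M p, ∀ (b : Fin n → ℂ) (h : b ∈ tangent M p),
    IsLevi M p v (Submodule.Quotient.mk ⟨b, h⟩) →
    ∀ l, (π b (Sum.inr l)).re = -4 * lev φ (fun j => π v (Sum.inl j)) l

/-- **LVS** (condition (L)(ii) gives the spanning condition).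

Proof (uses LEVF).  The real linear map `T_p M → ℝ^d`, `b ↦ (Re (π b)_l)_l` vanishes on `T^c` (`ctan`)
and is onto (`onto2`), so it induces a surjective linear map `N_p M → ℝ^d`.  The cone
`C_p = span ℝ≥0 (leviSet M p)` has nonempty interior, so the real span of `leviSet M p` is
`N_p M` (a subspace with interior points is everything), so the images of `leviSet M p`, the vectors
`-4 lev φ (a)`, span `ℝ^d`.  Choose `d` linearly independent ones among them. -/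
def SpecLVS : Prop :=
  ∀ (n m d : ℕ) (M : Set (Fin n → ℂ)) (p : Fin n → ℂ) (π : (Fin n → ℂ) →L[ℂ] (Zi m d → ℂ))
    (φ : Fin d → PS (Ki m d)) (σ : (Ki m d → ℝ) → (Fin n → ℂ)), p ∈ M → IsPar M p π φ σ →
    ConditionL M → LSpan φ

/-- **TGT1** (a strictly plurisubharmonic function vanishing on `M`).

Proof (uses TAN, PARA, LEVF, LEVD).  Take `π, φ, σ` from PARA and `ρ` from TAN.  Let
`k(v) = (-4 lev φ (π v)_z l)_l ∈ ℝ^d` for `v ∈ T^c`, continuous and quadratic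
(`k(tv) = |t|² k(v)`, in fact `k` is a hermitian form; continuity suffices and homogeneity for real
factors), and `K' = {k(v) : v ∈ T^c, ∑ |v_i|² = 1}`, compact.  Claim: `0 ∉ conv K'`.  Otherwise
`0 = ∑ t_i k(v_i)`; by (L) there are `ν_i` with `IsLevi M p v_i ν_i`, `ν_i ∈ leviSet`; by LEVF the
induced map `N_p M → ℝ^d`, which is injective (`tan`, `inj`: if `Re (π b)_l = 0` for all `l` then
`π b = (a, 0)`, and by `onto` and `inj` `b ∈ T^c`), maps `∑ t_i ν_i` to `0`, so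
`∑ t_i ν_i = 0 ∈ conv (leviSet)`, contradiction.  `conv K'` is compact, so there are `ξ ∈ ℝ^d`,
`δ > 0` with `ξ · k(v) ≥ δ` for unit `v ∈ T^c` (separation of a point from a compact convex set).
Let `r_l` be as in LEVF and `ρ₀ = ∑ ξ_l r_l + B ∑_i ρ_i²`.  It is real analytic at `p`, zero on `M`
near `p`.  Let `h(v) = D²ρ₀(v, v) + D²ρ₀(iv, iv)`.  From `∑ ξ_l r_l` we get for `v ∈ T^c` the value
`ξ · k(v) ≥ δ|v|²` (computed in LEVF), and some quadratic form `h₁` in general; from the rest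
`2B (|Dρ v|² + |Dρ (iv)|²) =: B h₂(v)`, `h₂ ≥ 0`, `h₂(v) = 0` iff `v ∈ T^c`.  On the unit sphere:
`h₁ > 0` on the compact set `{h₂ = 0}`, hence `h₁ + B h₂ > 0` on the sphere for large `B`
(compactness). -/
def SpecTGT1 : Prop :=
  ∀ (n c m : ℕ) (M : Set (Fin n → ℂ)), IsCRSubmanifold c m M → ConditionL M → ∀ p ∈ M,
    ∃ ρ₀ : (Fin n → ℂ) → ℝ, AnalyticAt ℝ ρ₀ p ∧ (∀ᶠ w in 𝓝[M] p, ρ₀ w = 0) ∧
      ∀ v : Fin n → ℂ, v ≠ 0 → 0 < fderiv ℝ (fderiv ℝ ρ₀) p v v +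
        fderiv ℝ (fderiv ℝ ρ₀) p (Complex.I • v) (Complex.I • v)

/-- **TGT2** (its power series).

Proof (uses RAP, EVA, EVS, CNS).  Let `F(x, y)` be the convergent power series of
`(x, y) ↦ ρ₀(p + x + iy)` (RAP; variables `Fin n ⊕ Fin n`), `cj F = F`, no constant term
(`p ∈ M`).  `ρ(w, ω) = F((w + ω)/2, (w - ω)/(2i))` is convergent; for `ω = w̄` it is
`ρ₀(p + w)`.  `IsTgt.real`: `cj ρ (ω, w) = F((ω + w)/2, (ω - w)/(-2i)) = ρ(w, ω)`.  `pos`: if `q` is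
the quadratic part of `F`, `q(x, y) = 2 Re A(z, z) + L(z, z̄)`, `z = x + iy`, then
`∑ co2 ρ (inl i) (inr j) v_i conj(v_j) = L(v, v̄) = (q(v) + q(iv))/2
= (D²ρ₀(v, v) + D²ρ₀(iv, iv))/4`. -/
def SpecTGT2 : Prop :=
  ∀ (n : ℕ) (M : Set (Fin n → ℂ)) (p : Fin n → ℂ) (ρ₀ : (Fin n → ℂ) → ℝ), p ∈ M →
    AnalyticAt ℝ ρ₀ p → (∀ᶠ w in 𝓝[M] p, ρ₀ w = 0) →
    (∀ v : Fin n → ℂ, v ≠ 0 → 0 < fderiv ℝ (fderiv ℝ ρ₀) p v v +
        fderiv ℝ (fderiv ℝ ρ₀) p (Complex.I • v) (Complex.I • v)) →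
    ∃ ρ : PS (Fin n ⊕ Fin n), IsTgt ρ ∧
      ∀ᶠ w in 𝓝[M] p, ev ρ (Sum.elim (w - p) fun j => conj ((w - p) j)) = 0

/-- **CRT** (CR maps in coordinates).

Proof (uses PARC).  Let `G` be the smooth map of `IsCRMap` near `p`, `q = f(p)`, and
`g(x) = G(σ x) - q`: smooth at `0`, `g 0 = 0`, and `g x = f(σ x) - q` for `x` near `0`.  CR equations
at `x` near `0`: let `w = σ x ∈ M₁` and `G_w` the map of `IsCRMap` near `w`.  `G` and `G_w` are both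
equal to `f` on `M₁` near `w`, so `DG(w) = DG_w(w)` on `tangent M₁ w` (`fderiv_tangent`).  Let
`∑ c_k ∂_k (Zm φ) = 0` at `x`, `c = a + ib`.  By PARC `∑ c_k ∂_k σ = 0`, i.e.
`Dσ(a) = -i Dσ(b)`, and `v = Dσ(b) ∈ T_w M₁`, `-iv ∈ T_w M₁`, so `v ∈ T^c_w M₁`, and
`∑ c_k ∂_k (G ∘ σ) = DG(Dσ a) + i DG(Dσ b) = DG(-iv) + i DG(v) = -i DG(v) + i DG(v) = 0`
(complex linearity of `DG_w` on `T^c`). -/
def SpecCRT : Prop :=
  ∀ (n c₁ m d : ℕ) (M₁ M₂ : Set (Fin n → ℂ)) (f : M₁ → M₂), IsCRMap ∞ M₁ M₂ f →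
    IsCRSubmanifold c₁ m M₁ → ∀ (p : M₁) (π : (Fin n → ℂ) →L[ℂ] (Zi m d → ℂ))
    (φ : Fin d → PS (Ki m d)) (σ : (Ki m d → ℝ) → (Fin n → ℂ)), IsPar M₁ p π φ σ →
    ∃ g : (Ki m d → ℝ) → Fin n → ℂ, (∀ j, ContDiffAt ℝ ∞ (fun x => g x j) 0) ∧ g 0 = 0 ∧
      (∀ j, ∀ᶠ x in 𝓝 (0 : Ki m d → ℝ), CRat (Zm φ) (fun y => g y j) x) ∧
      ∀ᶠ x in 𝓝 (0 : Ki m d → ℝ), ∀ h : σ x ∈ M₁, g x = (f ⟨σ x, h⟩ : Fin n → ℂ) - f p

/-- **MN1** (local extension).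

Proof (uses PARA, LVS, TGT1, TGT2, CRT, LOC, EVA).  Parametrize `M₁` near `p` (PARA), `LSpan φ` by LVS,
`ρ` for `M₂` at `q = f(p)` (TGT1, TGT2), `g` from CRT.  For `x` near `0`, `g x = f(σ x) - q` with
`f(σ x) ∈ M₂` near `q`, so `ρ(g, ḡ) = 0`.  LOC: `g_j(x) = ev (H_j) (Zm φ x)`.  For `w ∈ M₁` near `p`
put `x = rc(π(w - p))`: `w = σ x`, `π(w - p) = Zm φ x`, so `f(w) = q + (ev (H_j) (π(w - p)))_j`,
which is analytic in `w ∈ ℂⁿ` near `p`. -/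
def SpecMN1 : Prop :=
  ∀ (n c₁ m₁ c₂ m₂ : ℕ) (M₁ M₂ : Set (Fin n → ℂ)), IsCRSubmanifold c₁ m₁ M₁ →
    IsCRSubmanifold c₂ m₂ M₂ → ConditionL M₁ → ConditionL M₂ → ∀ f : M₁ → M₂,
    IsCRMap ∞ M₁ M₂ f → ∀ p : M₁, ∃ F : (Fin n → ℂ) → (Fin n → ℂ), AnalyticAt ℂ F p ∧
      ∀ᶠ w : M₁ in 𝓝 p, F w = f w

/-- **UNQ** (generic submanifolds are sets of uniqueness).

Proof (uses PARA, RAP, EVA, EVS, INV).  Here `m + d = 2n - c - m = n`, and `π` is onto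
(its image contains `ℂ^m × ℝ^d`, which spans `ℂ^(m+d)` over `ℂ`), hence bijective.  Let `F_k` be the
power series of the components of `Z ↦ F(p + π⁻¹ Z)` (RAP).  For `x` near `0`,
`0 = F(σ x)_k = ev F_k (Zm φ x)`, so `(F_k).subst (Zs φ) = 0` (EVS, EVA), and `F_k = 0`, because
`Zs φ` restricted to `y = 0` has a formal inverse (INV).  So `F = 0` near `p`. -/
def SpecUNQ : Prop :=
  ∀ (n c m : ℕ) (M : Set (Fin n → ℂ)), IsCRSubmanifold c m M → c + m = n → ∀ p ∈ M,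
    ∀ F : (Fin n → ℂ) → (Fin n → ℂ), AnalyticAt ℂ F p → (∀ᶠ w in 𝓝[M] p, F w = 0) →
    ∀ᶠ w in 𝓝 p, F w = 0

/-- **GLU** (gluing of local extensions).

Proof (uses UNQ).  For `p ∈ M` choose `r_p > 0` and `F_p`, analytic on the ball `B(p, r_p)`, with
`F_p = f` on `M ∩ B(p, r_p)`.  `U = ⋃ B(p, r_p/3)`, and `F(w) = F_p(w)` for any `p` with
`w ∈ B(p, r_p/3)`.  Well defined: let `w ∈ B(p, r_p/3) ∩ B(q, r_q/3)`, `r_q ≤ r_p`.  Then
`q ∈ B(p, r_p)`; `F_p` and `F_q` are analytic near `q` and agree on `M` near `q`, so they agree near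
`q` (UNQ), and then on the convex set `B(p, r_p) ∩ B(q, r_q)`, which contains `q` and `w` (identity
theorem `AnalyticOnNhd.eqOn_of_preconnected_of_eventuallyEq`). -/
def SpecGLU : Prop :=
  ∀ (n c m : ℕ) (M M₂ : Set (Fin n → ℂ)), IsCRSubmanifold c m M → c + m = n → ∀ f : M → M₂,
    (∀ p : M, ∃ F : (Fin n → ℂ) → (Fin n → ℂ), AnalyticAt ℂ F p ∧
      ∀ᶠ w : M in 𝓝 p, F w = f w) → ExtendsHolomorphically M M₂ f

/-- **FIN** (the theorem; from MN1 and GLU). -/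
def SpecFIN : Prop :=
  ∀ (n c₁ m₁ c₂ m₂ : ℕ) (M₁ M₂ : Set (Fin n → ℂ)), IsCRSubmanifold c₁ m₁ M₁ →
    IsCRSubmanifold c₂ m₂ M₂ → ConditionL M₁ → ConditionL M₂ → ∀ f : M₁ → M₂,
    IsCRMap ∞ M₁ M₂ f →
    (∀ p : M₁, ∃ F : (Fin n → ℂ) → (Fin n → ℂ), AnalyticAt ℂ F p ∧
      ∀ᶠ w : M₁ in 𝓝 p, F w = f w) ∧
    (c₁ + m₁ = n → ExtendsHolomorphically M₁ M₂ f)

end

end Pool.Agent.Lib.MP_2184e2_an.Loc
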