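import Pool.Agent.Lib.MP_2184e2_an.Loc.SpecG
import Pool.Agent.Lib.MP_2184e2_an.Loc.Cal

section
/-! # TGT2: the power series of the target function -/
set_option autoImplicit false

namespace Pool.Agent.Lib.MP_2184e2_an.Loc

open MvPowerSeries Filter Topology Set
open scoped ContDiff ComplexConjugate

noncomputable section

namespace Tgt2M

/-- `rl` as a continuous real linear map -/
def rlL (κ : Type) [Fintype κ] : (κ → ℝ) →L[ℝ] (κ → ℂ) :=
  ContinuousLinearMap.pi fun k => Complex.ofRealCLM.comp (ContinuousLinearMap.proj k)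

lemma rlL_apply {κ : Type} [Fintype κ] (x : κ → ℝ) : rlL κ x = rl x := rfl

lemma rl_single {κ : Type} [DecidableEq κ] (k : κ) :
    rl (Pi.single k (1 : ℝ) : κ → ℝ) = Pi.single k (1 : ℂ) := by
  funext i
  by_cases h : i = k
  · subst h; simp [rl]
  · simp [rl, h]

/-- differentiation of an evaluation on real points -/
lemma deriv_ev (hEVA : SpecEVA) {κ : Type} [Fintype κ] [DecidableEq κ] {F : PS κ} (hF : Conv F)
    {f : (κ → ℝ) → ℂ} (hf : ∀ᶠ u in 𝓝 (0 : κ → ℝ), f u = ev F (rl u)) (k : κ) :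
    ∀ᶠ u in 𝓝 (0 : κ → ℝ), fderiv ℝ f u (Pi.single k 1) = ev (pderiv ℂ k F) (rl u) := by
  obtain ⟨h1, -, -, -, h5, -, -⟩ := hEVA κ
  have hc : Tendsto (fun u : κ → ℝ => (rl u : κ → ℂ)) (𝓝 0) (𝓝 0) := by
    have := (rlL κ).continuous.tendsto 0
    rw [map_zero] at this
    exact this
  filter_upwards [eventually_eventually_nhds.2 hf, hc.eventually (h1 F hF).1.eventually_analyticAt,
    hc.eventually (h5 F k hF)] with u hu hA hd
  have e1 : HasFDerivAt (ev F) (fderiv ℂ (ev F) (rl u)) (rl u) :=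
    hA.differentiableAt.hasFDerivAt
  have e2 : HasFDerivAt (𝕜 := ℝ) (fun u => ev F (rl u))
      (((fderiv ℂ (ev F) (rl u)).restrictScalars ℝ).comp (rlL κ)) u := by
    have e3 : HasFDerivAt (𝕜 := ℝ) (ev F) ((fderiv ℂ (ev F) (rl u)).restrictScalars ℝ)
      (rlL κ u) := e1.restrictScalars ℝ
    exact e3.comp u (rlL κ).hasFDerivAt
  have e4 : HasFDerivAt f (((fderiv ℂ (ev F) (rl u)).restrictScalars ℝ).comp (rlL κ)) u :=
    e2.congr_of_eventuallyEq hu
  rw [e4.fderiv]
  show fderiv ℂ (ev F) (rl u) (rl (Pi.single k (1 : ℝ))) = _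
  rw [rl_single]
  exact hd

/-- the map `(x, y) ↦ x + i y` -/
def LL (n : ℕ) : (Fin n ⊕ Fin n → ℝ) →L[ℝ] (Fin n → ℂ) :=
  ContinuousLinearMap.pi fun k =>
    Complex.ofRealCLM.comp (ContinuousLinearMap.proj (Sum.inl k)) +
      Complex.I • Complex.ofRealCLM.comp (ContinuousLinearMap.proj (Sum.inr k))

lemma LL_apply {n : ℕ} (u : Fin n ⊕ Fin n → ℝ) (k : Fin n) :
    LL n u k = u (Sum.inl k) + Complex.I * u (Sum.inr k) := rfl

/-- real and imaginary parts -/
def ri {n : ℕ} (v : Fin n → ℂ) : Fin n ⊕ Fin n → ℝ :=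
  Sum.elim (fun k => (v k).re) (fun k => (v k).im)

lemma LL_ri {n : ℕ} (v : Fin n → ℂ) : LL n (ri v) = v := by
  funext k
  rw [LL_apply]
  simp only [ri, Sum.elim_inl, Sum.elim_inr]
  rw [mul_comm]
  exact Complex.re_add_im _

lemma continuous_ri {n : ℕ} : Continuous (ri : (Fin n → ℂ) → Fin n ⊕ Fin n → ℝ) := by
  refine continuous_pi fun k => ?_
  rcases k with j | j
  · exact Complex.continuous_re.comp (continuous_apply _)
  · exact Complex.continuous_im.comp (continuous_apply _)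

/-- the second derivatives of `ρ₀` are coefficients -/
lemma hess (hEVA : SpecEVA) {n : ℕ} {p : Fin n → ℂ} {ρ₀ : (Fin n → ℂ) → ℝ}
    (hρ : AnalyticAt ℝ ρ₀ p) {F : PS (Fin n ⊕ Fin n)} (hF : Conv F)
    (hFe : ∀ᶠ u in 𝓝 (0 : Fin n ⊕ Fin n → ℝ), ((ρ₀ (p + LL n u) : ℝ) : ℂ) = ev F (rl u))
    (hpd : ∀ k, Conv (pderiv ℂ k F)) (hpd2 : ∀ k l, Conv (pderiv ℂ l (pderiv ℂ k F)))
    (k l : Fin n ⊕ Fin n) :
    ((fderiv ℝ (fderiv ℝ ρ₀) p (LL n (Pi.single l 1)) (LL n (Pi.single k 1)) : ℝ) : ℂ) =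
      constantCoeff (pderiv ℂ l (pderiv ℂ k F)) := by
  have hc : Tendsto (fun u : Fin n ⊕ Fin n → ℝ => p + LL n u) (𝓝 0) (𝓝 p) := by
    have h1 : Continuous fun u : Fin n ⊕ Fin n → ℝ => p + LL n u :=
      continuous_const.add (LL n).continuous
    have h2 := h1.tendsto 0
    simpa using h2
  have e1 := deriv_ev hEVA hF hFe k
  have e2 : ∀ᶠ u in 𝓝 (0 : Fin n ⊕ Fin n → ℝ),
      ((fderiv ℝ ρ₀ (p + LL n u) (LL n (Pi.single k 1)) : ℝ) : ℂ) =
        ev (pderiv ℂ k F) (rl u) := by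
    filter_upwards [e1, hc.eventually hρ.eventually_analyticAt] with u hu hA
    rw [← hu]
    have h3 : HasFDerivAt (fun u : Fin n ⊕ Fin n → ℝ => p + LL n u) (LL n) u :=
      (LL n).hasFDerivAt.const_add p
    have h4 : HasFDerivAt ρ₀ (fderiv ℝ ρ₀ (p + LL n u)) (p + LL n u) :=
      hA.differentiableAt.hasFDerivAt
    have h5 := Complex.ofRealCLM.hasFDerivAt.comp u (h4.comp u h3)
    have h6 : HasFDerivAt (fun u : Fin n ⊕ Fin n → ℝ => ((ρ₀ (p + LL n u) : ℝ) : ℂ)) _ u := h5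
    rw [h6.fderiv]
    rfl
  have e3 := (deriv_ev hEVA (hpd k) e2 l).self_of_nhds
  have h0 : rl (0 : Fin n ⊕ Fin n → ℝ) = 0 := by
    funext i; simp [rl]
  rw [h0] at e3
  have h7 : ev (pderiv ℂ l (pderiv ℂ k F)) (0 : Fin n ⊕ Fin n → ℂ) =
    constantCoeff (pderiv ℂ l (pderiv ℂ k F)) := ((hEVA _).1 _ (hpd2 k l)).2
  rw [h7] at e3
  rw [← e3]
  have h8 : HasFDerivAt (fderiv ℝ ρ₀) (fderiv ℝ (fderiv ℝ ρ₀) p) (p + LL n 0) := by
    rw [map_zero, add_zero]
    exact hρ.fderiv.differentiableAt.hasFDerivAt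
  have h9 : HasFDerivAt (fun u : Fin n ⊕ Fin n → ℝ => p + LL n u) (LL n) 0 :=
    (LL n).hasFDerivAt.const_add p
  have h10 := h8.comp (0 : Fin n ⊕ Fin n → ℝ) h9
  have h11 : HasFDerivAt (fun u : Fin n ⊕ Fin n → ℝ =>
      fderiv ℝ ρ₀ (p + LL n u) (LL n (Pi.single k 1))) _ 0 :=
    h10.clm_apply (hasFDerivAt_const (LL n (Pi.single k 1)) (0 : Fin n ⊕ Fin n → ℝ))
  have h12 := Complex.ofRealCLM.hasFDerivAt.comp (0 : Fin n ⊕ Fin n → ℝ) h11
  have h13 : HasFDerivAt (fun u : Fin n ⊕ Fin n → ℝ =>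
      ((fderiv ℝ ρ₀ (p + LL n u) (LL n (Pi.single k 1)) : ℝ) : ℂ)) _ 0 := h12
  rw [h13.fderiv]
  simp

/-- the coordinates `x = (w + ω)/2`, `y = (w - ω)/(2i)` -/
def aa (n : ℕ) : Fin n ⊕ Fin n → PS (Fin n ⊕ Fin n) :=
  Sum.elim (fun j => C (1 / 2 : ℂ) * (X (Sum.inl j) + X (Sum.inr j)))
    (fun j => C (-Complex.I / 2) * (X (Sum.inl j) + -X (Sum.inr j)))

/-- exchange of the variables -/
def sw (n : ℕ) : Fin n ⊕ Fin n → PS (Fin n ⊕ Fin n) :=
  Sum.elim (fun j => X (Sum.inr j)) (fun j => X (Sum.inl j))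

lemma aa_zero (n : ℕ) (k : Fin n ⊕ Fin n) : Z0 (aa n k) := by
  rcases k with j | j <;> simp [aa, Z0]

lemma sw_zero (n : ℕ) (k : Fin n ⊕ Fin n) : Z0 (sw n k) := by
  rcases k with j | j <;> simp [sw, Z0]

lemma aa_conv (hCNV : SpecCNV) (n : ℕ) (k : Fin n ⊕ Fin n) : Conv (aa n k) := by
  obtain ⟨h1, hN⟩ := hCNV
  obtain ⟨hop, hC, hX, -⟩ := h1 ℂ (fun c : ℂ => ‖c‖) hN (Fin n ⊕ Fin n)
  rcases k with j | j
  · exact (hop _ _ (hC _) (hop _ _ (hX _) (hX _)).1).2.1
  · exact (hop _ _ (hC _) (hop _ _ (hX _) ((hop _ _ (hX _) (hX (Sum.inr j))).2.2.1)).1).2.1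

lemma cj_aa_sw (n : ℕ) (k : Fin n ⊕ Fin n) : (cj (aa n k)).subst (sw n) = aa n k := by
  have hs := CalM.hs (sw_zero n)
  rcases k with j | j
  · have h1 : cj (aa n (Sum.inl j)) = C (1 / 2 : ℂ) * (X (Sum.inl j) + X (Sum.inr j)) := by
      simp [cj, aa, MvPowerSeries.map_C, MvPowerSeries.map_X, Complex.conj_ofNat]
    rw [h1, subst_mul hs, subst_C, subst_add hs, subst_X hs, subst_X hs]
    simp only [sw, aa, Sum.elim_inl, Sum.elim_inr]
    ring
  · have h1 : cj (aa n (Sum.inr j)) =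
        C (Complex.I / 2 : ℂ) * (X (Sum.inl j) - X (Sum.inr j)) := by
      simp [cj, aa, MvPowerSeries.map_C, MvPowerSeries.map_X, sub_eq_add_neg, Complex.conj_ofNat]
    rw [h1, subst_mul hs, subst_C, subst_sub hs, subst_X hs, subst_X hs]
    simp only [sw, aa, Sum.elim_inl, Sum.elim_inr]
    have h2 : (C (-Complex.I / 2) : PS (Fin n ⊕ Fin n)) = -C (Complex.I / 2) := by
      rw [← map_neg]
      congr 1
      ring
    rw [h2]
    ring

lemma pd_aa_inl (n : ℕ) (i : Fin n) (k : Fin n ⊕ Fin n) :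
    pderiv ℂ (Sum.inl i) (aa n k) =
      Sum.elim (fun j => if j = i then C (1 / 2 : ℂ) else 0)
        (fun j => if j = i then C (-Complex.I / 2) else 0) k := by
  classical
  rcases k with j | j
  · simp only [aa, Sum.elim_inl]
    rw [Derivation.leibniz, map_add, pderiv_C, pderiv_X, pderiv_X]
    by_cases h : j = i
    · subst h; simp
    · simp [h]
  · simp only [aa, Sum.elim_inr]
    rw [Derivation.leibniz, map_add, pderiv_C, map_neg, pderiv_X, pderiv_X]
    by_cases h : j = i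
    · subst h; simp
    · simp [h]

lemma pd_aa_inr (n : ℕ) (i : Fin n) (k : Fin n ⊕ Fin n) :
    pderiv ℂ (Sum.inr i) (aa n k) =
      Sum.elim (fun j => if j = i then C (1 / 2 : ℂ) else 0)
        (fun j => if j = i then C (Complex.I / 2) else 0) k := by
  classical
  have h2 : (C (-Complex.I / 2) : PS (Fin n ⊕ Fin n)) = -C (Complex.I / 2) := by
    rw [← map_neg]
    congr 1
    ring
  rcases k with j | j
  · simp only [aa, Sum.elim_inl]
    rw [Derivation.leibniz, map_add, pderiv_C, pderiv_X, pderiv_X]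
    by_cases h : j = i
    · subst h; simp
    · simp [h]
  · simp only [aa, Sum.elim_inr]
    rw [Derivation.leibniz, map_add, pderiv_C, map_neg, pderiv_X, pderiv_X, h2]
    by_cases h : j = i
    · subst h; simp
    · simp [h]

lemma co2_eq {ι : Type} [DecidableEq ι] (f : PS ι) {i j : ι} (h : i ≠ j) :
    co2 f i j = constantCoeff (pderiv ℂ j (pderiv ℂ i f)) := by
  rw [← coeff_zero_eq_constantCoeff_apply, coeff_pderiv, coeff_pderiv]
  simp [co2, add_comm, h]

/-- the coefficients of `F.subst aa` -/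
lemma co2_aa (hCHN : SpecCHN) {n : ℕ} (F : PS (Fin n ⊕ Fin n)) (i j : Fin n) :
    co2 (F.subst (aa n)) (Sum.inl i) (Sum.inr j) =
      (1 / 4 : ℂ) * (constantCoeff (pderiv ℂ (Sum.inl j) (pderiv ℂ (Sum.inl i) F)) +
        constantCoeff (pderiv ℂ (Sum.inr j) (pderiv ℂ (Sum.inr i) F))) +
      (Complex.I / 4) * (constantCoeff (pderiv ℂ (Sum.inr j) (pderiv ℂ (Sum.inl i) F)) -
        constantCoeff (pderiv ℂ (Sum.inl j) (pderiv ℂ (Sum.inr i) F))) := by
  classical
  have hz := aa_zero n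
  have e1 : pderiv ℂ (Sum.inl i) (F.subst (aa n)) =
      C (1 / 2 : ℂ) * (pderiv ℂ (Sum.inl i) F).subst (aa n) +
        C (-Complex.I / 2) * (pderiv ℂ (Sum.inr i) F).subst (aa n) := by
    rw [hCHN ℂ _ _ F (aa n) hz (Sum.inl i), Fintype.sum_sum_type]
    simp only [pd_aa_inl, Sum.elim_inl, Sum.elim_inr, mul_ite, mul_zero, Finset.sum_ite_eq',
      Finset.mem_univ, if_true]
    ring
  have e2 : ∀ G : PS (Fin n ⊕ Fin n), pderiv ℂ (Sum.inr j) (G.subst (aa n)) =
      C (1 / 2 : ℂ) * (pderiv ℂ (Sum.inl j) G).subst (aa n) +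
        C (Complex.I / 2) * (pderiv ℂ (Sum.inr j) G).subst (aa n) := by
    intro G
    rw [hCHN ℂ _ _ G (aa n) hz (Sum.inr j), Fintype.sum_sum_type]
    simp only [pd_aa_inr, Sum.elim_inl, Sum.elim_inr, mul_ite, mul_zero, Finset.sum_ite_eq',
      Finset.mem_univ, if_true]
    ring
  have e3 : ∀ (c : ℂ) (G : PS (Fin n ⊕ Fin n)), pderiv ℂ (Sum.inr j) (C c * G) =
      C c * pderiv ℂ (Sum.inr j) G := by
    intro c G
    rw [Derivation.leibniz, pderiv_C, smul_zero, add_zero, smul_eq_mul]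
  rw [co2_eq _ (by simp), e1, map_add, e3, e3, e2, e2]
  simp only [map_add, map_mul, constantCoeff_C, CalM.cc_subst _ hz]
  linear_combination (-(constantCoeff (pderiv ℂ (Sum.inr j) (pderiv ℂ (Sum.inr i) F))) / 4) *
    Complex.I_sq

/-- evaluation of `aa` -/
lemma ev_aa (hEVA : SpecEVA) (hCNV : SpecCNV) (n : ℕ) :
    ∀ᶠ x in 𝓝 (0 : Fin n ⊕ Fin n → ℂ), ∀ j : Fin n,
      ev (aa n (Sum.inl j)) x = (1 / 2) * (x (Sum.inl j) + x (Sum.inr j)) ∧
      ev (aa n (Sum.inr j)) x = (-Complex.I / 2) * (x (Sum.inl j) - x (Sum.inr j)) := by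
  obtain ⟨h1, hN⟩ := hCNV
  obtain ⟨hop, hC, hX, -⟩ := h1 ℂ (fun c : ℂ => ‖c‖) hN (Fin n ⊕ Fin n)
  obtain ⟨-, e2, e3, e4, -, -, -⟩ := hEVA (Fin n ⊕ Fin n)
  rw [eventually_all]
  intro j
  have hneg : Conv (-X (Sum.inr j) : PS (Fin n ⊕ Fin n)) :=
    (hop _ _ (hX _) (hX (Sum.inr j))).2.2.1
  have f1 := e2 (X (Sum.inl j)) (X (Sum.inr j)) (hX _) (hX _)
  have f2 := e2 (C (1 / 2 : ℂ)) (X (Sum.inl j) + X (Sum.inr j)) (hC _)
    (hop _ _ (hX _) (hX _)).1
  have f3 := e2 (X (Sum.inr j)) (X (Sum.inr j)) (hX _) (hX _)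
  have f4 := e2 (X (Sum.inl j)) (-X (Sum.inr j)) (hX _) hneg
  have f5 := e2 (C (-Complex.I / 2)) (X (Sum.inl j) + -X (Sum.inr j)) (hC _)
    (hop _ _ (hX _) hneg).1
  filter_upwards [f1, f2, f3, f4, f5] with x g1 g2 g3 g4 g5
  refine ⟨?_, ?_⟩
  · show ev (C (1 / 2 : ℂ) * (X (Sum.inl j) + X (Sum.inr j))) x = _
    rw [g2.2.1, g1.1, e3, e4, e4]
  · show ev (C (-Complex.I / 2) * (X (Sum.inl j) + -X (Sum.inr j))) x = _
    rw [g5.2.1, g4.1, g3.2.2, e3, e4, e4]
    ring

lemma sum_single {κ : Type} [Fintype κ] [DecidableEq κ] (u : κ → ℝ) :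
    u = ∑ k, u k • (Pi.single k (1 : ℝ) : κ → ℝ) := by
  funext i
  simp [Finset.sum_apply, Pi.single_apply]

lemma bil {n : ℕ} (H : (Fin n → ℂ) →L[ℝ] (Fin n → ℂ) →L[ℝ] ℝ) (u u' : Fin n ⊕ Fin n → ℝ) :
    H (LL n u) (LL n u') = ∑ k, ∑ l, u' k * u l * H (LL n (Pi.single l 1)) (LL n (Pi.single k 1)) := by
  conv_lhs => rw [sum_single u', map_sum, map_sum]
  refine Finset.sum_congr rfl fun k _ => ?_
  conv_lhs => rw [sum_single u, map_sum, map_sum]
  rw [ContinuousLinearMap.sum_apply]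
  refine Finset.sum_congr rfl fun l _ => ?_
  simp only [map_smul, ContinuousLinearMap.smul_apply, smul_eq_mul]
  ring

/-- the Levi form -/
lemma levi {n : ℕ} (H : (Fin n → ℂ) →L[ℝ] (Fin n → ℂ) →L[ℝ] ℝ) (c : Fin n → Fin n → ℂ)
    (hc : ∀ i j, c i j =
      (1 / 4 : ℂ) * (((H (LL n (Pi.single (Sum.inl j) 1)) (LL n (Pi.single (Sum.inl i) 1)) : ℝ) : ℂ) +
        ((H (LL n (Pi.single (Sum.inr j) 1)) (LL n (Pi.single (Sum.inr i) 1)) : ℝ) : ℂ)) +
      (Complex.I / 4) * (((H (LL n (Pi.single (Sum.inr j) 1)) (LL n (Pi.single (Sum.inl i) 1)) : ℝ) : ℂ) -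
        ((H (LL n (Pi.single (Sum.inl j) 1)) (LL n (Pi.single (Sum.inr i) 1)) : ℝ) : ℂ)))
    (v : Fin n → ℂ) :
    (∑ i, ∑ j, c i j * v i * conj (v j)).re = (H v v + H (Complex.I • v) (Complex.I • v)) / 4 := by
  have e1 : H v v = ∑ i, ∑ j, ((v i).re * (v j).re *
        H (LL n (Pi.single (Sum.inl j) 1)) (LL n (Pi.single (Sum.inl i) 1)) +
      (v i).re * (v j).im *
        H (LL n (Pi.single (Sum.inr j) 1)) (LL n (Pi.single (Sum.inl i) 1)) +
      (v i).im * (v j).re *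
        H (LL n (Pi.single (Sum.inl j) 1)) (LL n (Pi.single (Sum.inr i) 1)) +
      (v i).im * (v j).im *
        H (LL n (Pi.single (Sum.inr j) 1)) (LL n (Pi.single (Sum.inr i) 1))) := by
    conv_lhs => rw [← LL_ri v]
    rw [bil, Fintype.sum_sum_type, ← Finset.sum_add_distrib]
    refine Finset.sum_congr rfl fun i _ => ?_
    rw [Fintype.sum_sum_type, Fintype.sum_sum_type, ← Finset.sum_add_distrib,
      ← Finset.sum_add_distrib, ← Finset.sum_add_distrib]
    refine Finset.sum_congr rfl fun j _ => ?_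
    simp only [ri, Sum.elim_inl, Sum.elim_inr]
    ring
  have e2 : H (Complex.I • v) (Complex.I • v) = ∑ i, ∑ j, ((v i).im * (v j).im *
        H (LL n (Pi.single (Sum.inl j) 1)) (LL n (Pi.single (Sum.inl i) 1)) +
      -(v i).im * (v j).re *
        H (LL n (Pi.single (Sum.inr j) 1)) (LL n (Pi.single (Sum.inl i) 1)) +
      -(v i).re * (v j).im *
        H (LL n (Pi.single (Sum.inl j) 1)) (LL n (Pi.single (Sum.inr i) 1)) +
      (v i).re * (v j).re *
        H (LL n (Pi.single (Sum.inr j) 1)) (LL n (Pi.single (Sum.inr i) 1))) := by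
    conv_lhs => rw [← LL_ri (Complex.I • v)]
    rw [bil, Fintype.sum_sum_type, ← Finset.sum_add_distrib]
    refine Finset.sum_congr rfl fun i _ => ?_
    rw [Fintype.sum_sum_type, Fintype.sum_sum_type, ← Finset.sum_add_distrib,
      ← Finset.sum_add_distrib, ← Finset.sum_add_distrib]
    refine Finset.sum_congr rfl fun j _ => ?_
    simp only [ri, Sum.elim_inl, Sum.elim_inr, Pi.smul_apply, smul_eq_mul, Complex.mul_re,
      Complex.mul_im, Complex.I_re, Complex.I_im, zero_mul, one_mul, zero_sub, zero_add]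
    ring
  rw [e1, e2, ← Finset.sum_add_distrib, Finset.sum_div, Complex.re_sum]
  refine Finset.sum_congr rfl fun i _ => ?_
  rw [← Finset.sum_add_distrib, Finset.sum_div, Complex.re_sum]
  refine Finset.sum_congr rfl fun j _ => ?_
  rw [hc]
  simp only [Complex.mul_re, Complex.mul_im, Complex.add_re, Complex.add_im, Complex.sub_re,
    Complex.sub_im, Complex.ofReal_re, Complex.ofReal_im, Complex.conj_re, Complex.conj_im]
  have f1 : ((1 : ℂ) / 4).re = 1 / 4 := by norm_num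
  have f2 : ((1 : ℂ) / 4).im = 0 := by norm_num
  have f3 : (Complex.I / 4).re = 0 := by norm_num
  have f4 : (Complex.I / 4).im = 1 / 4 := by norm_num
  rw [f1, f2, f3, f4]
  ring

end Tgt2M

open Tgt2M

theorem specTGT2 (hRAP : SpecRAP) (hEVA : SpecEVA) (hEVS : SpecEVS) (hCNS : SpecCNS)
    (hCHN : SpecCHN) (hCNV : SpecCNV) : SpecTGT2 := by
  intro n M p ρ₀ hp hρ h0 hpos
  obtain ⟨c1, hN⟩ := id hCNV
  obtain ⟨hop, hC, hX, hpd⟩ := c1 ℂ (fun c : ℂ => ‖c‖) hN (Fin n ⊕ Fin n)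
  have hLt : Tendsto (fun u : Fin n ⊕ Fin n → ℝ => p + LL n u) (𝓝 0) (𝓝 p) := by
    have h1 : Continuous fun u : Fin n ⊕ Fin n → ℝ => p + LL n u :=
      continuous_const.add (LL n).continuous
    have h2 := h1.tendsto 0
    simpa using h2
  have hg : AnalyticAt ℝ (fun u : Fin n ⊕ Fin n → ℝ => ((ρ₀ (p + LL n u) : ℝ) : ℂ)) 0 := by
    have h1 : AnalyticAt ℝ (fun u : Fin n ⊕ Fin n → ℝ => p + LL n u) 0 :=
      analyticAt_const.add ((LL n).analyticAt 0)
    have h2 : AnalyticAt ℝ ρ₀ (p + LL n 0) := by simpa using hρ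
    have h3 : AnalyticAt ℝ (fun u : Fin n ⊕ Fin n → ℝ => ρ₀ (p + LL n u)) 0 :=
      AnalyticAt.fun_comp (g := ρ₀) (f := fun u : Fin n ⊕ Fin n → ℝ => p + LL n u) h2 h1
    exact (Complex.ofRealCLM.analyticAt _).fun_comp h3
  obtain ⟨F, hF, hFe⟩ := (hRAP (Fin n ⊕ Fin n)).1 _ hg
  obtain ⟨v1, v2, v3, v4, v5, v6, v7⟩ := hEVA (Fin n ⊕ Fin n)
  have hpd1 : ∀ k, Conv (pderiv ℂ k F) := fun k => hpd F k hF
  have hpd2 : ∀ k l, Conv (pderiv ℂ l (pderiv ℂ k F)) := fun k l => hpd _ l (hpd1 k)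
  have hZ : Z0 F := by
    have h1 := (v1 F hF).2
    have h2 := hFe.self_of_nhds
    have h3 : ρ₀ p = 0 := h0.self_of_nhdsWithin hp
    have h4 : rl (0 : Fin n ⊕ Fin n → ℝ) = 0 := by
      funext i; simp [rl]
    rw [map_zero, add_zero, h3, h4, h1] at h2
    exact h2.symm.trans Complex.ofReal_zero
  -- `F` is real
  have hcjF : cj F = F := by
    have h1 : Conv (cj F) := by
      obtain ⟨K, hK, h⟩ := hF
      refine ⟨K, hK, fun m => ?_⟩
      have := h m
      simpa [CalM.coeff_cj] using this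
    have h2 : Conv (-F) := (hop _ _ hF hF).2.2.1
    have h3 : Conv (cj F + -F) := (hop _ _ h1 h2).1
    have hrl : Tendsto (fun u : Fin n ⊕ Fin n → ℝ => (rl u : Fin n ⊕ Fin n → ℂ)) (𝓝 0) (𝓝 0) := by
      have := (rlL (Fin n ⊕ Fin n)).continuous.tendsto 0
      rw [map_zero] at this
      exact this
    have h4 := v7 (cj F + -F) h3 (by
      filter_upwards [hFe, hrl.eventually (v2 (cj F) (-F) h1 h2), hrl.eventually (v2 F F hF hF)]
        with u g1 g2 g3
      rw [g2.1, g3.2.2]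
      have g4 : ev (cj F) (rl u) = conj (ev F (rl u)) := by
        have := v6 F (rl u)
        have g5 : (fun i => conj (rl u i)) = (rl u : Fin n ⊕ Fin n → ℂ) := by
          funext i
          simp [rl]
        rwa [g5] at this
      rw [g4, ← g1, Complex.conj_ofReal]
      ring)
    exact add_neg_eq_zero.1 h4
  have hz := aa_zero n
  refine ⟨F.subst (aa n), ⟨?_, ?_, ?_, ?_⟩, ?_⟩
  · exact hCNS ℂ (fun c : ℂ => ‖c‖) hN _ _ F (aa n) hF fun i => ⟨aa_conv hCNV n i, hz i⟩
  · exact CalM.z0_subst hZ hz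
  · show (cj (F.subst (aa n))).subst (sw n) = F.subst (aa n)
    rw [CalM.cj_subst F hz, hcjF]
    have hz2 : ∀ i, Z0 (cj (aa n i)) := fun i => CalM.z0_cj (hz i)
    rw [subst_comp_subst_apply (CalM.hs hz2) (CalM.hs (sw_zero n))]
    congr 1
    funext k
    exact cj_aa_sw n k
  · intro v hv
    have h1 := levi (fderiv ℝ (fderiv ℝ ρ₀) p)
      (fun i j => co2 (F.subst (aa n)) (Sum.inl i) (Sum.inr j)) (by
        intro i j
        rw [hess hEVA hρ hF hFe hpd1 hpd2, hess hEVA hρ hF hFe hpd1 hpd2,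
          hess hEVA hρ hF hFe hpd1 hpd2, hess hEVA hρ hF hFe hpd1 hpd2]
        exact co2_aa hCHN F i j) v
    have h2 := hpos v hv
    have h3 : 0 < (∑ i, ∑ j, co2 (F.subst (aa n)) (Sum.inl i) (Sum.inr j) * v i *
        conj (v j)).re := by
      rw [h1]
      positivity
    exact h3
  · have hev := hEVS _ _ F (aa n) hF fun i => ⟨aa_conv hCNV n i, hz i⟩
    have hcw : Tendsto (fun w : Fin n → ℂ => (Sum.elim (w - p) fun j => conj ((w - p) j) :
        Fin n ⊕ Fin n → ℂ)) (𝓝 p) (𝓝 0) := by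
      have h1 : Continuous (fun w : Fin n → ℂ => (Sum.elim (w - p) fun j => conj ((w - p) j) :
        Fin n ⊕ Fin n → ℂ)) := by
        refine continuous_pi fun k => ?_
        rcases k with j | j
        · exact (continuous_apply j).comp (continuous_id.sub continuous_const)
        · exact Complex.continuous_conj.comp
            ((continuous_apply j).comp (continuous_id.sub continuous_const))
      have h2 := h1.tendsto p
      have h3 : (Sum.elim (p - p) fun j => conj ((p - p) j) : Fin n ⊕ Fin n → ℂ) = 0 := by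
        funext k
        rcases k with j | j <;> simp
      rwa [h3] at h2
    have hri : Tendsto (fun w : Fin n → ℂ => ri (w - p)) (𝓝 p) (𝓝 0) := by
      have h1 : Continuous fun w : Fin n → ℂ => ri (w - p) :=
        continuous_ri.comp (continuous_id.sub continuous_const)
      have h2 := h1.tendsto p
      have h3 : ri (p - p) = 0 := by
        funext k
        rcases k with j | j <;> simp [ri]
      rwa [h3] at h2
    filter_upwards [nhdsWithin_le_nhds (hcw.eventually hev),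
      nhdsWithin_le_nhds (hcw.eventually (ev_aa hEVA hCNV n)),
      nhdsWithin_le_nhds (hri.eventually hFe), h0] with w g1 g2 g3 g4
    rw [g1]
    have g5 : (fun i => ev (aa n i) (Sum.elim (w - p) fun j => conj ((w - p) j))) =
        rl (ri (w - p)) := by
      funext i
      rcases i with j | j
      · rw [(g2 j).1]
        simp only [Sum.elim_inl, Sum.elim_inr, rl, ri]
        apply Complex.ext
        · simp
          ring
        · simp
      · rw [(g2 j).2]
        simp only [Sum.elim_inl, Sum.elim_inr, rl, ri]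
        apply Complex.ext
        · simp
          ring
        · simp
    rw [g5, ← g3, LL_ri]
    have g6 : p + (w - p) = w := by abel
    rw [g6, g4, Complex.ofReal_zero]

end

end Pool.Agent.Lib.MP_2184e2_an.Loc
end

section
/-! # UNQ: generic submanifolds are sets of uniqueness -/
set_option autoImplicit false

namespace Pool.Agent.Lib.MP_2184e2_an.Loc

open MvPowerSeries Filter Topology Set
open scoped ContDiff ComplexConjugate

namespace UnqM

lemma hasSubst {κ ι : Type} [Finite κ] {a : κ → PS ι} (ha : ∀ i, Z0 (a i)) : HasSubst a :=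
  hasSubst_of_constantCoeff_zero ha

lemma lin_eq {ι : Type} (f : PS ι) (i : ι) : lin f i = constantCoeff (pderiv ℂ i f) := by
  classical
  rw [← coeff_zero_eq_constantCoeff_apply, coeff_pderiv]
  simp [lin]

lemma cc_subst {κ ι : Type} [Finite κ] {a : κ → PS ι} (ha : ∀ i, Z0 (a i)) (g : PS κ) :
    constantCoeff (g.subst a) = constantCoeff g := by
  have h1 : constantCoeff (g - C (constantCoeff g)) = 0 := by simp
  have h2 := constantCoeff_subst_eq_zero (hasSubst ha) ha h1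
  rw [subst_sub (hasSubst ha), subst_C, map_sub, constantCoeff_C, sub_eq_zero] at h2
  exact h2

lemma lin_subst (hCHN : SpecCHN) {κ ι : Type} [Fintype κ] [Finite ι] {a : κ → PS ι}
    (ha : ∀ i, Z0 (a i)) (f : PS κ) (j : ι) :
    lin (f.subst a) j = ∑ i, lin f i * lin (a i) j := by
  rw [lin_eq, hCHN ℂ κ ι f a ha j, map_sum]
  refine Finset.sum_congr rfl fun i _ => ?_
  rw [map_mul, cc_subst ha, lin_eq, lin_eq]

lemma conv_Zs (hCNV : SpecCNV) {m d : ℕ} {φ : Fin d → PS (Ki m d)} (hφ : IsPhi φ) (i : Zi m d) :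
    Conv (Zs φ i) ∧ Z0 (Zs φ i) := by
  obtain ⟨h1, hN⟩ := hCNV
  obtain ⟨hop, hC, hX, -⟩ := h1 ℂ (fun c : ℂ => ‖c‖) hN (Ki m d)
  rcases i with j | l
  · refine ⟨?_, ?_⟩
    · exact (hop _ _ (hX _) (hop _ _ (hC _) (hX _)).2.1).1
    · simp [Zs, Z0]
  · refine ⟨?_, ?_⟩
    · exact (hop _ _ (hX _) (hop _ _ (hC _) (hφ.conv l)).2.1).1
    · have := hφ.zero l
      unfold Z0 at this
      simp [Zs, Z0, this]

lemma zero_subst {κ ι : Type} [Finite κ] {a : κ → PS ι} (ha : ∀ i, Z0 (a i)) :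
    (0 : PS κ).subst a = 0 := by
  rw [← substAlgHom_apply (hasSubst ha), map_zero]

/-- restriction to `y = 0` -/
noncomputable def th (m d : ℕ) : Ki m d → PS (Zi m d) :=
  Sum.elim (Sum.elim (fun j => X (Sum.inl j)) (fun _ => 0)) (fun l => X (Sum.inr l))

lemma th_zero (m d : ℕ) (k : Ki m d) : Z0 (th m d k) := by
  rcases k with (j | j) | l <;> simp [th, Z0]

lemma lin_X {ι : Type} [DecidableEq ι] (i j : ι) : lin (X i : PS ι) j = if i = j then 1 else 0 := by
  rw [lin_eq, pderiv_X]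
  by_cases h : i = j
  · subst h; simp
  · simp [h]

lemma lin_eta (hCHN : SpecCHN) {m d : ℕ} {φ : Fin d → PS (Ki m d)} (hφ : IsPhi φ)
    (i j : Zi m d) : lin ((Zs φ i).subst (th m d)) j = if i = j then 1 else 0 := by
  have hs := hasSubst (th_zero m d)
  rcases i with i | l
  · have h1 : (Zs φ (Sum.inl i)).subst (th m d) = X (Sum.inl i) := by
      show subst (th m d) (X (Sum.inl (Sum.inl i)) + C Complex.I * X (Sum.inl (Sum.inr i)) :
        PS (Ki m d)) = _
      rw [subst_add hs, subst_mul hs, subst_C, subst_X hs, subst_X hs]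
      simp [th]
    rw [h1, lin_X]
  · have h1 : (Zs φ (Sum.inr l)).subst (th m d) =
        X (Sum.inr l) + C Complex.I * (φ l).subst (th m d) := by
      show subst (th m d) (X (Sum.inr l) + C Complex.I * φ l : PS (Ki m d)) = _
      rw [subst_add hs, subst_mul hs, subst_C, subst_X hs]
      simp [th]
    have h2 : lin ((φ l).subst (th m d)) j = 0 := by
      rw [lin_subst hCHN (th_zero m d)]
      refine Finset.sum_eq_zero fun k _ => ?_
      rw [hφ.lin l k, zero_mul]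
    have h3 : lin (X (Sum.inr l) + C Complex.I * (φ l).subst (th m d) : PS (Zi m d)) j =
        lin (X (Sum.inr l) : PS (Zi m d)) j + Complex.I * lin ((φ l).subst (th m d)) j := by
      simp only [lin, map_add, coeff_C_mul]
    rw [h1, h3, h2, mul_zero, add_zero, lin_X]

/-- the coordinates `Zs` are formally independent -/
lemma subst_Zs_inj (hCHN : SpecCHN) (hINV : SpecINV) (hCNV : SpecCNV) {m d : ℕ}
    {φ : Fin d → PS (Ki m d)} (hφ : IsPhi φ) (F : PS (Zi m d)) (hF : F.subst (Zs φ) = 0) :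
    F = 0 := by
  have hs := hasSubst (th_zero m d)
  have hZ : ∀ i, Z0 (Zs φ i) := fun i => (conv_Zs hCNV hφ i).2
  have hη : ∀ i, Z0 ((Zs φ i).subst (th m d)) := by
    intro i
    unfold Z0
    rw [cc_subst (th_zero m d)]
    exact hZ i
  have hdet : Matrix.det (Matrix.of fun i j : Zi m d =>
      lin ((Zs φ i).subst (th m d)) j) ≠ 0 := by
    have : (Matrix.of fun i j : Zi m d => lin ((Zs φ i).subst (th m d)) j) = 1 := by
      ext i j
      rw [Matrix.of_apply, lin_eta hCHN hφ, Matrix.one_apply]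
    rw [this, Matrix.det_one]
    exact one_ne_zero
  obtain ⟨b, hb0, hb, -, -⟩ := hINV (Zi m d) (fun i => (Zs φ i).subst (th m d)) hη hdet
  have e1 : F.subst (fun i => (Zs φ i).subst (th m d)) = 0 := by
    rw [← subst_comp_subst_apply (hasSubst hZ) hs, hF, zero_subst (th_zero m d)]
  have e2 : (F.subst (fun i => (Zs φ i).subst (th m d))).subst b = F := by
    rw [subst_comp_subst_apply (hasSubst hη) (hasSubst hb0)]
    have : (fun s => subst b ((Zs φ s).subst (th m d))) = (X : Zi m d → PS (Zi m d)) := by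
      funext s
      exact hb s
    rw [this, subst_self]
    rfl
  rw [← e2, e1, zero_subst hb0]

end UnqM

open UnqM

theorem specUNQ (hPARA : SpecPARA) (hRAP : SpecRAP) (hEVA : SpecEVA) (hEVS : SpecEVS)
    (hINV : SpecINV) (hCHN : SpecCHN) (hCNV : SpecCNV) (hCNS : SpecCNS) : SpecUNQ := by
  intro n c m M hM hcm p hp F hF hF0
  obtain ⟨d, π, φ, σ, hdim, hσ⟩ := hPARA n c m M hM p hp
  have hn : n = m + d := by omega
  -- `π` is bijective
  have hsurj : Function.Surjective π := by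
    intro Z
    obtain ⟨v1, -, h1⟩ := hσ.onto2 (fun j => Z (Sum.inl j)) (fun l => (Z (Sum.inr l)).re)
    obtain ⟨v2, -, h2⟩ := hσ.onto2 0 (fun l => (Z (Sum.inr l)).im)
    refine ⟨v1 + Complex.I • v2, ?_⟩
    rw [map_add, map_smul, h1, h2]
    funext i
    rcases i with j | l
    · simp
    · simp only [Pi.add_apply, Pi.smul_apply, Sum.elim_inr, smul_eq_mul]
      rw [mul_comm]
      exact Complex.re_add_im _
  have hfr : Module.finrank ℂ (Fin n → ℂ) = Module.finrank ℂ (Zi m d → ℂ) := by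
    rw [Module.finrank_fin_fun, Module.finrank_fintype_fun_eq_card]
    simp [hn]
  have hinj : Function.Injective π :=
    (LinearMap.injective_iff_surjective_of_finrank_eq_finrank (f := π.toLinearMap) hfr).2 hsurj
  let e : (Fin n → ℂ) ≃L[ℂ] (Zi m d → ℂ) :=
    (LinearEquiv.ofBijective π.toLinearMap ⟨hinj, hsurj⟩).toContinuousLinearEquiv
  have he : ∀ v, e v = π v := fun v => rfl
  have hcont : Tendsto σ (𝓝 0) (𝓝 p) := by
    have := hσ.ana.continuousAt
    unfold ContinuousAt at this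
    rwa [hσ.zero] at this
  have hZm : Tendsto (Zm φ) (𝓝 0) (𝓝 0) := by
    have h1 : Tendsto (fun x => π (σ x - p)) (𝓝 0) (𝓝 0) := by
      have h2 : Tendsto (fun w => π (w - p)) (𝓝 p) (𝓝 0) := by
        have : Continuous fun w => π (w - p) := π.continuous.comp (continuous_id.sub continuous_const)
        have h3 := this.tendsto p
        simpa using h3
      exact h2.comp hcont
    exact h1.congr' hσ.graph
  have hk : ∀ k, ∀ᶠ Z in 𝓝 (0 : Zi m d → ℂ), F (p + e.symm Z) k = 0 := by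
    intro k
    have hg : AnalyticAt ℂ (fun Z : Zi m d → ℂ => F (p + e.symm Z) k) 0 := by
      have h1 : AnalyticAt ℂ (fun Z : Zi m d → ℂ => p + e.symm Z) 0 :=
        analyticAt_const.add (e.symm.toContinuousLinearMap.analyticAt 0)
      have h2 : AnalyticAt ℂ F (p + e.symm 0) := by simpa using hF
      have h3 : AnalyticAt ℂ (fun Z : Zi m d → ℂ => F (p + e.symm Z)) 0 :=
        AnalyticAt.fun_comp (g := F) (f := fun Z : Zi m d → ℂ => p + e.symm Z) h2 h1
      exact ((ContinuousLinearMap.proj (R := ℂ) (φ := fun _ : Fin n => ℂ) k).analyticAt _).fun_comp h3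
    obtain ⟨Fk, hFk, hFe⟩ := (hRAP (Zi m d)).2 _ hg
    have hconv := fun i => conv_Zs hCNV hσ.phi i
    have h4 := hEVS (Zi m d) (Ki m d) Fk (Zs φ) hFk hconv
    have hrl : Tendsto (fun x : Ki m d → ℝ => rl x) (𝓝 0) (𝓝 (0 : Ki m d → ℂ)) := by
      have h5 : Continuous fun x : Ki m d → ℝ => (rl x : Ki m d → ℂ) := by
        unfold rl
        fun_prop
      have h6 := h5.tendsto 0
      have h7 : rl (0 : Ki m d → ℝ) = (0 : Ki m d → ℂ) := by
        funext k
        simp [rl]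
      rwa [h7] at h6
    have hzero : ∀ᶠ x in 𝓝 (0 : Ki m d → ℝ), ev (Fk.subst (Zs φ)) (rl x) = 0 := by
      have hF0' : ∀ᶠ w in 𝓝 p, w ∈ M → F w = 0 := eventually_nhdsWithin_iff.1 hF0
      filter_upwards [hrl.eventually h4, hZm.eventually hFe, hσ.graph, hσ.mem,
        hcont.eventually hF0'] with x h8 h9 h10 h11 h12
      rw [h8]
      show ev Fk (Zm φ x) = 0
      rw [← h9]
      have h13 : p + e.symm (Zm φ x) = σ x := by
        rw [← h10, ← he, e.symm_apply_apply]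
        simp
      rw [h13, h12 h11]
      rfl
    have h14 : Fk.subst (Zs φ) = 0 := by
      have hc : Conv (Fk.subst (Zs φ)) :=
        hCNS ℂ (fun c : ℂ => ‖c‖) hCNV.2 (Zi m d) (Ki m d) Fk (Zs φ) hFk hconv
      exact (hEVA (Ki m d)).2.2.2.2.2.2 _ hc hzero
    have h15 := subst_Zs_inj hCHN hINV hCNV hσ.phi Fk h14
    filter_upwards [hFe] with Z hZ
    rw [hZ, h15]
    simp [ev]
  have hall : ∀ᶠ Z in 𝓝 (0 : Zi m d → ℂ), F (p + e.symm Z) = 0 := by
    filter_upwards [eventually_all.2 hk] with Z hZ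
    funext k
    exact hZ k
  have hte : Tendsto (fun w => e (w - p)) (𝓝 p) (𝓝 0) := by
    have : Continuous fun w => e (w - p) := e.continuous.comp (continuous_id.sub continuous_const)
    have h3 := this.tendsto p
    simpa using h3
  filter_upwards [hte.eventually hall] with w hw
  simpa using hw

end Pool.Agent.Lib.MP_2184e2_an.Loc
end
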